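import Pool.Agent.Lib.MP_459a07_lc.Defs

set_option autoImplicit false

namespace Pool.Agent.Lib.MP_459a07_lc

open Classical

variable {I : Inst} {k g : ℕ} {c : Col} {x y α : ℕ}

theorem exists_miss {v : ℕ} (T : Finset ℕ) (hT : T.card < k) (h : ∀ u, c v u ≠ 0 → u ∈ T) :
    ∃ a, 1 ≤ a ∧ a ≤ k ∧ miss (c v) a := by
  have h1 : (T.image (c v)).card < (Finset.Icc 1 k).card := by
    rw [Nat.card_Icc]
    have := Finset.card_image_le (s := T) (f := c v)
    omega
  obtain ⟨a, ha, hna⟩ := Finset.exists_mem_notMem_of_card_lt_card h1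
  rw [Finset.mem_Icc] at ha
  refine ⟨a, ha.1, ha.2, fun u hu => hna (Finset.mem_image.2 ⟨u, h u (by omega), hu⟩)⟩

theorem exists_miss_hole (hV : I.Valid k g) (hc : Proper I k c) (hy : y ∈ I.N x) (h0 : c x y = 0) :
    ∃ a, 1 ≤ a ∧ a ≤ k ∧ miss (c x) a := by
  refine exists_miss ((I.N x).erase y) ?_ fun u hu => ?_
  · have h1 := Finset.card_erase_lt_of_mem hy
    have h2 := hV.deg x
    omega
  · exact Finset.mem_erase.2 ⟨fun e => hu (e ▸ h0), hc.edge _ _ hu⟩

theorem rotate_aux (Nx : Finset ℕ) (ok : ℕ → ℕ → Prop) (hok : ∀ v a, ok v a → 1 ≤ a ∧ a ≤ k)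
    (w : ℕ → ℕ) : ∀ (n : ℕ) (row : ℕ → ℕ) (γ : ℕ),
    (∀ v ∈ Nx, ∀ v' ∈ Nx, row v ≠ 0 → row v = row v' → v = v') → row (w 0) = 0 →
    (∀ t ≤ n, w t ∈ Nx) → (∀ i j, i < j → j ≤ n → w i ≠ w j) →
    (∀ t < n, ok (w t) (row (w (t + 1)))) → ok (w n) γ → (∀ v ∈ Nx, row v ≠ γ) →
    ∃ d : ℕ → ℕ, (∀ v ∈ Nx, d v = row v ∨ (ok v (d v) ∧ row v ≤ k)) ∧
      (∀ v ∈ Nx, ∀ v' ∈ Nx, d v ≠ 0 → d v = d v' → v = v') ∧ d (w 0) ≠ 0 := by
  have upd : ∀ (row : ℕ → ℕ) (γ u : ℕ), (∀ v ∈ Nx, row v ≠ γ) →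
      (∀ v ∈ Nx, ∀ v' ∈ Nx, row v ≠ 0 → row v = row v' → v = v') →
      ∀ v ∈ Nx, ∀ v' ∈ Nx, Function.update row u γ v ≠ 0 →
        Function.update row u γ v = Function.update row u γ v' → v = v' := by
    intro row γ u hγ hinj v hv v' hv' h1 h2
    by_cases e : v = u <;> by_cases e' : v' = u
    · rw [e, e']
    · rw [e, Function.update_self, Function.update_of_ne e'] at h2
      exact absurd h2.symm (hγ v' hv')
    · rw [e', Function.update_self, Function.update_of_ne e] at h2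
      exact absurd h2 (hγ v hv)
    · rw [Function.update_of_ne e] at h1 h2
      rw [Function.update_of_ne e'] at h2
      exact hinj v hv v' hv' h1 h2
  intro n
  induction n with
  | zero =>
    intro row γ hinj h0 _ _ _ hγ hun
    refine ⟨Function.update row (w 0) γ, fun v _ => ?_, upd row γ _ hun hinj, ?_⟩
    · by_cases e : v = w 0
      · right; rw [e, Function.update_self, h0]; exact ⟨hγ, Nat.zero_le _⟩
      · left; exact Function.update_of_ne e _ _
    · rw [Function.update_self]; have := (hok _ _ hγ).1; omega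
  | succ n ih =>
    intro row γ hinj h0 hmem hne hch hγ hun
    have hlast := hch n (Nat.lt_succ_self n)
    obtain ⟨d, d1, d2, d3⟩ := ih (Function.update row (w (n + 1)) γ) (row (w (n + 1)))
      (upd row γ _ hun hinj)
      (by rw [Function.update_of_ne (hne 0 (n + 1) (by omega) le_rfl)]; exact h0)
      (fun t ht => hmem t (by omega)) (fun i j hij hj => hne i j hij (by omega))
      (fun t ht => by
        rw [Function.update_of_ne (hne (t + 1) (n + 1) (by omega) le_rfl)]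
        exact hch t (by omega)) hlast
      (fun v hv h => by
        by_cases e : v = w (n + 1)
        · rw [e, Function.update_self] at h
          exact hun _ (hmem _ le_rfl) h.symm
        · rw [Function.update_of_ne e] at h
          refine e (hinj v hv _ (hmem _ le_rfl) ?_ h)
          have := (hok _ _ hlast).1
          omega)
    refine ⟨d, fun v hv => ?_, d2, d3⟩
    by_cases e : v = w (n + 1)
    · right
      refine ⟨?_, by rw [e]; exact (hok _ _ hlast).2⟩
      rcases d1 v hv with h | h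
      · rw [h, e, Function.update_self]; exact hγ
      · exact h.1
    · have := d1 v hv
      rwa [Function.update_of_ne e] at this

theorem rotate {Nx : Finset ℕ} {c2 : Col} (w : ℕ → ℕ) (n γ : ℕ) (hw : w 0 = y)
    (hinj : ∀ v ∈ Nx, ∀ v' ∈ Nx, c2 x v ≠ 0 → c2 x v = c2 x v' → v = v') (h0 : c2 x y = 0)
    (hmem : ∀ t ≤ n, w t ∈ Nx) (hne : ∀ i j, i < j → j ≤ n → w i ≠ w j)
    (hch : ∀ t < n, 1 ≤ c2 x (w (t + 1)) ∧ c2 x (w (t + 1)) ≤ k ∧
      miss (c2 (w t)) (c2 x (w (t + 1))))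
    (hγ : 1 ≤ γ ∧ γ ≤ k ∧ miss (c2 (w n)) γ) (hun : ∀ v ∈ Nx, c2 x v ≠ γ) :
    ∃ d, StarOK Nx k c2 x y d := by
  obtain ⟨d, d1, d2, d3⟩ := rotate_aux (k := k) Nx (fun v a => 1 ≤ a ∧ a ≤ k ∧ miss (c2 v) a)
    (fun _ _ h => ⟨h.1, h.2.1⟩) w n (c2 x) γ hinj (hw ▸ h0) hmem hne hch hγ hun
  have hy : y ∈ Nx := hw ▸ hmem 0 (Nat.zero_le _)
  refine ⟨fun v => if v ∈ Nx then d v else 0, fun v hv => if_neg hv, fun v hv => ?_,
    fun v v' h1 h2 => ?_, ?_, fun v hv h => ?_, fun v hv h => ?_⟩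
  · simp only [if_pos hv]
    exact (d1 v hv).imp id And.left
  · by_cases hv : v ∈ Nx
    · by_cases hv' : v' ∈ Nx
      · simp only [if_pos hv, if_pos hv'] at h1 h2
        exact d2 v hv v' hv' h1 h2
      · simp only [if_pos hv, if_neg hv'] at h1 h2
        exact absurd h2 h1
    · simp only [if_neg hv] at h1
      exact absurd rfl h1
  · simp only [if_pos hy]
    exact hw ▸ d3
  · simp only [if_pos hv]
    rcases d1 v hv with e | e
    · rwa [e]
    · have := e.1.1; omega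
  · simp only [if_pos hv]
    rcases d1 v hv with e | e
    · rwa [e]
    · have := e.2; omega

/-- A vertex with an uncoloured edge misses a palette colour (degree at most `k`). -/
theorem alpha_spec (hV : I.Valid k g) (hc : Proper I k c) (hy : y ∈ I.N x) (h0 : c x y = 0) :
    1 ≤ alpha k (c x) ∧ alpha k (c x) ≤ k ∧ miss (c x) (alpha k (c x)) :=
  epsilon_spec (exists_miss_hole hV hc hy h0)

/-- Misra-Gries fan lemma.  If `fan x y` fails take any `β` missing at `y`.  Otherwise every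
neighbour `w` of `x` misses a palette colour `m w`; build the fan `w 0 = y`, `c x (w (t+1)) =
m (w t)` until `β = m (w n)` is missing at `x` or equals `c x (w i)` with `1 ≤ i ≤ n`.  After a
flip rotate the fan up to `w (i-1)` (if it still misses `β`) or up to `w n` (if `z = w (i-1)`). -/
theorem exists_beta (hV : I.Valid k g) (hc : Proper I k c) (hy : y ∈ I.N x) (h0 : c x y = 0)
    (h1 : 1 ≤ α) (hk : α ≤ k) (hα : miss (c x) α) :
    ∃ β, Qb (I.N x) (I.fan x y) k c x y α β := by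
  have hmy : ∃ a, 1 ≤ a ∧ a ≤ k ∧ miss (c y) a :=
    exists_miss_hole hV hc (hV.symm _ _ hy) (by rw [hc.symm]; exact h0)
  have hU : ∀ {β c2 z}, β ≤ k → Modif (I.N x) k c c2 x α β z → ∀ v ∈ I.N x, c2 x v ≠ β := by
    intro β c2 z hβ hM v hv
    by_cases e : c x v = β
    · rcases hM.first v hv e with h | h
      · rw [h]; exact fun e' => hα v (e.trans e'.symm)
      · omega
    · rwa [hM.same v hv e]
  by_cases hf : I.fan x y
  swap
  · obtain ⟨β, b1, b2, b3⟩ := hmy
    refine ⟨β, b1, b2, fun c2 z hM h => ?_⟩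
    have hz : y ≠ z := fun e => (h.resolve_left hf) ⟨e.symm, b3⟩
    exact rotate (fun _ => y) 0 β rfl hM.inj (by rw [hM.same y hy (by omega), h0])
      (fun _ _ => hy) (fun i j _ _ => by omega) (fun t ht => by omega)
      ⟨b1, b2, hM.stay y hy hz b3⟩ (hU b2 hM)
  have hall : ∀ v ∈ I.N x, ∃ a, 1 ≤ a ∧ a ≤ k ∧ miss (c v) a := fun v hv => by
    by_cases e : v = y
    · rw [e]; exact hmy
    · exact exists_miss (I.N v) (hV.fanspec x y hy hf v hv e) fun u hu => hc.edge _ _ hu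
  choose! m m1 m2 m3 using hall
  obtain ⟨w, w0, ws⟩ : ∃ w : ℕ → ℕ, w 0 = y ∧ ∀ t, w (t + 1) = epsilon fun u => c x u = m (w t) :=
    ⟨fun t => Nat.rec y (fun _ v => epsilon fun u => c x u = m v) t, rfl, fun _ => rfl⟩
  obtain ⟨stop, hstop⟩ : ∃ stop : ℕ → Prop, ∀ t, stop t ↔
      (miss (c x) (m (w t)) ∨ ∃ s < t, c x (w (s + 1)) = m (w t)) := ⟨_, fun _ => Iff.rfl⟩
  have good : ∀ n, (∀ t < n, ¬ stop t) → (∀ t ≤ n, w t ∈ I.N x) ∧
      (∀ t < n, c x (w (t + 1)) = m (w t)) ∧ ∀ i j, i < j → j ≤ n → w i ≠ w j := by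
    intro n hn
    have a2 : ∀ t < n, c x (w (t + 1)) = m (w t) := fun t ht => by
      have h2 : ∃ u, c x u = m (w t) := by
        by_contra hcon
        exact hn t ht ((hstop t).2 (Or.inl fun u hu => hcon ⟨u, hu⟩))
      rw [ws]
      exact epsilon_spec h2
    have a1 : ∀ t ≤ n, w t ∈ I.N x := fun t ht => by
      induction t with
      | zero => rwa [w0]
      | succ t ih =>
        refine hc.edge _ _ ?_
        have := m1 _ (ih (by omega))
        rw [a2 t (by omega)]; omega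
    refine ⟨a1, a2, fun i j hij hj e => ?_⟩
    obtain ⟨t, rfl⟩ : ∃ t, j = t + 1 := ⟨j - 1, by omega⟩
    have k1 := a2 t (by omega)
    rw [← e] at k1
    rcases i with _ | s
    · have := m1 _ (a1 t (by omega))
      rw [w0, h0] at k1; omega
    · exact hn t (by omega) ((hstop t).2 (Or.inr ⟨s, by omega, k1⟩))
  have hex : ∃ t, stop t := by
    by_contra hcon
    obtain ⟨a1, -, a3⟩ := good (I.N x).card fun t _ h => hcon ⟨t, h⟩
    have := Finset.card_le_card_of_injOn (s := Finset.range ((I.N x).card + 1)) (t := I.N x) w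
      (fun t ht => a1 t (by simpa [Nat.lt_succ_iff] using ht)) (fun i hi j hj e => by
        simp only [Finset.coe_range, Set.mem_Iio] at hi hj
        rcases lt_trichotomy i j with h | h | h
        · exact absurd e (a3 i j h (by omega))
        · exact h
        · exact absurd e.symm (a3 j i h (by omega)))
    rw [Finset.card_range] at this
    omega
  obtain ⟨n, hn1, hn2⟩ : ∃ n, stop n ∧ ∀ t < n, ¬ stop t :=
    ⟨Nat.find hex, Nat.find_spec hex, fun t ht => Nat.find_min hex ht⟩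
  obtain ⟨a1, a2, a3⟩ := good n hn2
  have b1 := m1 _ (a1 n le_rfl)
  have b2 := m2 _ (a1 n le_rfl)
  have b3 := m3 _ (a1 n le_rfl)
  refine ⟨m (w n), b1, b2, fun c2 z hM _ => ?_⟩
  have h02 : c2 x y = 0 := by rw [hM.same y hy (by omega), h0]
  have keep : ∀ t < n, c x (w (t + 1)) ≠ m (w n) → 1 ≤ c2 x (w (t + 1)) ∧ c2 x (w (t + 1)) ≤ k ∧
      miss (c2 (w t)) (c2 x (w (t + 1))) := fun t ht h => by
    have hw := a1 t ht.le
    rw [hM.same _ (a1 (t + 1) ht) h]
    have hne := hα (w (t + 1))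
    rw [a2 t ht] at h hne ⊢
    exact ⟨m1 _ hw, m2 _ hw, hM.other _ hw _ (m1 _ hw) (m2 _ hw) hne h (m3 _ hw)⟩
  rcases (hstop n).1 hn1 with h | ⟨s, hs, h⟩
  · by_cases e : w n = z
    · refine rotate w n α w0 hM.inj h02 a1 a3 (fun t ht => keep t ht (h _))
        ⟨h1, hk, ?_⟩ fun v hv => ?_
      · rw [e]; exact (hM.far (e ▸ a1 n le_rfl) (e ▸ b3)).1
      · rw [hM.same v hv (h v)]; exact hα v
    · exact rotate w n _ w0 hM.inj h02 a1 a3 (fun t ht => keep t ht (h _))
        ⟨b1, b2, hM.stay _ (a1 n le_rfl) e b3⟩ (hU b2 hM)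
  · have hms : miss (c (w s)) (m (w n)) := by
      rw [← h, a2 s hs]; exact m3 _ (a1 s hs.le)
    have hdiff : ∀ t < n, t ≠ s → c x (w (t + 1)) ≠ m (w n) := fun t ht hts e => by
      have k1 := hc.inj x _ _ (by omega) (e.trans h.symm)
      rcases lt_or_gt_of_ne hts with k | k
      · exact a3 _ _ (by omega) hs k1
      · exact a3 _ _ (by omega) ht k1.symm
    by_cases e : w s = z
    · obtain ⟨f1, f2⟩ := hM.far (e ▸ a1 s hs.le) (e ▸ hms)
      refine rotate w n _ w0 hM.inj h02 a1 a3 (fun t ht => ?_)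
        ⟨b1, b2, hM.stay _ (a1 n le_rfl) (e ▸ (a3 s n hs le_rfl).symm) b3⟩ (hU b2 hM)
      by_cases k : t = s
      · rw [k, f2 _ (a1 _ hs) h, e]; exact ⟨h1, hk, f1⟩
      · exact keep t ht (hdiff t ht k)
    · exact rotate w s _ w0 hM.inj h02 (fun t ht => a1 t (by omega))
        (fun i j hij hj => a3 i j hij (by omega))
        (fun t ht => keep t (by omega) (hdiff t (by omega) (by omega)))
        ⟨b1, b2, hM.stay _ (a1 s hs.le) e hms⟩ (hU b2 hM)

end Pool.Agent.Lib.MP_459a07_lc
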