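import Pool.Agent.Lib.MP_459a07_lc.Flip
import Pool.Agent.Lib.MP_459a07_lc.Fan

set_option autoImplicit false

namespace Pool.Agent.Lib.MP_459a07_lc

open Classical

variable {I J : Inst} {k g g' : ℕ} {c c' : Col} {x j u v : ℕ}

theorem yy_spec (h : hole I c x) : yy I c x ∈ I.N x ∧ I.ok x (yy I c x) ∧ c x (yy I c x) = 0 := by
  exact epsilon_spec h

theorem be_spec (hV : I.Valid k g) (hc : Proper I k c) (h : hole I c x) :
    Qb (I.N x) (I.fan x (yy I c x)) k c x (yy I c x) (al k c x) (be I k c x) := by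
  obtain ⟨h1, -, h3⟩ := yy_spec h
  obtain ⟨a1, a2, a3⟩ := alpha_spec hV hc h1 h3
  exact epsilon_spec (exists_beta hV hc h1 h3 a1 a2 a3)

theorem albe_spec (hV : I.Valid k g) (hc : Proper I k c) (h : hole I c x) :
    1 ≤ al k c x ∧ al k c x ≤ k ∧ miss (c x) (al k c x) ∧ 1 ≤ be I k c x ∧ be I k c x ≤ k := by
  obtain ⟨h1, -, h3⟩ := yy_spec h
  obtain ⟨a1, a2, a3⟩ := alpha_spec hV hc h1 h3
  exact ⟨a1, a2, a3, (be_spec hV hc h).1, (be_spec hV hc h).2.1⟩

theorem flipOK (hV : I.Valid k g) (hc : Proper I k c) (h : hole I c x) (hu : unbl I k c x j) :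
    FlipOK I k c x (al k c x) (be I k c x) j := by
  obtain ⟨a1, a2, a3, a4, a5⟩ := albe_spec hV hc h
  exact ⟨hc, a1, a2, a4, a5, a3, hu⟩

theorem ev_cases (hV : I.Valid k g) (hc : Proper I k c) (x j : ℕ) :
    ev I k c x j = c ∨ ∃ d, hole I c x ∧ FlipOK I k c x (al k c x) (be I k c x) j ∧
      StarOK (I.N x) k (flp I k c x j) x (yy I c x) d ∧
      ev I k c x j = star (flp I k c x j) x d := by
  unfold ev
  split_ifs with h
  · exact Or.inr ⟨_, h.1, flipOK hV hc h.1 h.2.1, epsilon_spec h.2.2, rfl⟩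
  · exact Or.inl rfl

theorem ev_proper (hV : I.Valid k g) (hc : Proper I k c) : Proper I k (ev I k c x j) := by
  rcases ev_cases hV hc x j with h | ⟨d, -, H, hd, h⟩
  · rwa [h]
  · rw [h]; exact star_proper hV H.proper hd

theorem ev_keep (hV : I.Valid k g) (hc : Proper I k c) (h : c u v ≠ 0) :
    ev I k c x j u v ≠ 0 := by
  rcases ev_cases hV hc x j with e | ⟨d, -, H, hd, e⟩
  · rwa [e]
  · rw [e]
    have h2 : flp I k c x j u v ≠ 0 := H.ne_zero h
    unfold star
    split_ifs with h3 h4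
    · subst h3; exact hd.keep _ (hc.edge _ _ h) h2
    · subst h4
      exact hd.keep _ (hV.symm _ _ (hc.edge _ _ h)) (by rwa [flp, H.proper.symm])
    · exact h2

theorem cov_iff : cov k c v ↔ ∃ u, c v u = k + 1 := by
  simp [cov, miss]

theorem ev_cov_mono (hV : I.Valid k g) (hc : Proper I k c) (h : cov k c v) :
    cov k (ev I k c x j) v := by
  rcases ev_cases hV hc x j with e | ⟨d, -, H, hd, e⟩
  · rwa [e]
  · obtain ⟨u, hu⟩ := cov_iff.mp h
    have h2 : flp I k c x j v u = k + 1 := by
      rw [flp, H.other (by have := H.ak; omega) (by have := H.bk; omega), hu]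
    have hn : u ∈ I.N v := hc.edge _ _ (by omega)
    refine cov_iff.mpr ⟨u, ?_⟩
    rw [e]
    unfold star
    split_ifs with h3 h4
    · subst h3; exact hd.spare _ hn h2
    · subst h4
      exact hd.spare _ (hV.symm _ _ hn) (by rwa [flp, H.proper.symm])
    · exact h2

theorem ev_cov_new (hV : I.Valid k g) (hc : Proper I k c) (h : cov k (ev I k c x j) v) :
    cov k c v ∨ (hole I c x ∧ rch I k c x (j + 1) ∧
      (v = pth I k c x j ∨ v = pth I k c x (j + 1))) := by
  rcases ev_cases hV hc x j with e | ⟨d, hh, H, hd, e⟩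
  · rw [e] at h; exact Or.inl h
  · obtain ⟨u, hu⟩ := cov_iff.mp h
    have dd : ∀ w, d w = k + 1 → flp I k c x j x w = k + 1 := by
      intro w hw
      have hm : w ∈ I.N x := by
        by_contra hn
        have := hd.off w hn
        omega
      rcases hd.adm w hm with h1 | h1 <;> omega
    have h2 : flp I k c x j v u = k + 1 := by
      rw [e] at hu
      unfold star at hu
      split_ifs at hu with h3 h4
      · subst h3; exact dd _ hu
      · subst h4; rw [flp, H.proper.symm]; exact dd _ hu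
      · exact hu
    have h3 := flip_eq_other (by have := H.ak; omega) (by have := H.bk; omega) h2
    by_cases hs : spec c x (al k c x) (be I k c x) j v u
    · exact Or.inr ⟨hh, hs.1, hs.2.imp And.left And.left⟩
    · rw [cut_not hs] at h3
      exact Or.inl (cov_iff.mpr ⟨u, h3⟩)

theorem ev_success (hV : I.Valid k g) (hc : Proper I k c) (h : hole I c x)
    (hu : unbl I k c x j) (hj : j ≤ g) : ev I k c x j x (yy I c x) ≠ 0 := by
  have H := flipOK hV hc h hu
  have a1 := H.a1
  have b1 := H.b1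
  obtain ⟨y1, y2, y3⟩ := yy_spec h
  obtain ⟨z, hz, hz'⟩ := H.modif hV
  have hex : ∃ d, StarOK (I.N x) k (flp I k c x j) x (yy I c x) d := by
    refine (be_spec hV hc h).2.2 _ z hz ?_
    by_contra hn
    push Not at hn
    obtain ⟨n1, n2, n3⟩ := hn
    rcases hz' with e | ⟨i, hi, hr, e⟩
    · rw [← n2, e] at y1; exact hV.irrefl _ y1
    · refine hV.plain x _ y1 y2 n1 (path c x (al k c x) (be I k c x)) i (by omega) ?_ rfl
        (e.trans n2) (fun m hm => path_adj hc (by omega) (by omega) (reach_mono hr hm))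
        fun p hp q hq hpq => path_inj hV hc (by omega) (by omega) H.hx (reach_mono hr hp)
          (reach_mono hr hq) hpq
      cases i with
      | zero => exact Even.zero
      | succ m =>
        have e1 := path_step hr
        rw [hc.symm, e, n2] at e1
        rw [Nat.even_iff]
        rcases Nat.mod_two_eq_zero_or_one m with h0 | h0
        · exact absurd (e1.trans (cidx_even h0)) (n3 _)
        · omega
  unfold ev
  rw [if_pos ⟨h, hu, hex⟩, star_x]
  exact (epsilon_spec hex).new

theorem mem_foot (h : hole I c x) : v ∈ foot I k c x j ↔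
    v = x ∨ v ∈ I.N x ∨ ∃ i ≤ j + 1, rch I k c x i ∧ pth I k c x i = v := by
  unfold foot
  rw [if_pos h]
  simp only [Finset.mem_union, Finset.mem_insert, Finset.mem_image, Finset.mem_filter,
    Finset.mem_range, or_assoc, and_assoc, show ∀ i, i < j + 2 ↔ i ≤ j + 1 from fun i => by omega]

theorem foot_not (h : ¬ hole I c x) : foot I k c x j = ∅ := if_neg h

theorem ev_not (h : ¬ hole I c x) : ev I k c x j = c := if_neg fun h' => h h'.1

theorem ev_off (hV : I.Valid k g) (hc : Proper I k c) (h : v ∉ foot I k c x j) :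
    ev I k c x j v = c v := by
  rcases ev_cases hV hc x j with e | ⟨d, hh, H, hd, e⟩
  · rw [e]
  · rw [mem_foot hh] at h
    push Not at h
    obtain ⟨h1, h2, h3⟩ := h
    funext u
    rw [e, star_ne h1]
    split_ifs with h4
    · rw [hd.off v h2, h4]
      by_contra h5
      exact h2 (hV.symm _ _ (hc.edge _ _ fun h6 => h5 h6.symm))
    · rw [flp, H.out, cut_not]
      · rintro ⟨s1, ⟨s2, -⟩ | ⟨s2, -⟩⟩
        · exact h3 j (by omega) (reach_mono s1 (by omega)) s2.symm
        · exact h3 (j + 1) le_rfl s1 s2.symm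
      · rintro ⟨i, hi, hr, s⟩
        exact h3 i (by omega) hr s

theorem Modif.congr {Nx : Finset ℕ} {c2 : Col} {α β z : ℕ} (h : Modif Nx k c c2 x α β z)
    (hx : c x = c' x) (hN : ∀ w ∈ Nx, c w = c' w) : Modif Nx k c' c2 x α β z :=
  ⟨fun w hw => hx ▸ h.same w hw, fun w hw => hx ▸ h.first w hw, h.inj,
    fun w hw => hN w hw ▸ h.other w hw, fun w hw => hN w hw ▸ h.stay w hw,
    fun hz => hx ▸ hN z hz ▸ h.far hz⟩

theorem Qb_congr {Nx : Finset ℕ} {f : Prop} {y α : ℕ} (hx : c x = c' x)
    (hN : ∀ w ∈ Nx, c w = c' w) (hy : y ∈ Nx) : Qb Nx f k c x y α = Qb Nx f k c' x y α := by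
  funext β
  unfold Qb
  rw [hN y hy]
  refine propext (and_congr_right fun _ => and_congr_right fun _ => ?_)
  exact ⟨fun h c2 z hm => h c2 z (hm.congr hx.symm fun w hw => (hN w hw).symm),
    fun h c2 z hm => h c2 z (hm.congr hx hN)⟩

theorem StarOK_congr {Nx : Finset ℕ} {y : ℕ} (hx : c x = c' x) (hN : ∀ w ∈ Nx, c w = c' w) :
    StarOK Nx k c x y = StarOK Nx k c' x y := by
  have key : ∀ {e e' : Col}, e x = e' x → (∀ w ∈ Nx, e w = e' w) → ∀ d, StarOK Nx k e x y d →
      StarOK Nx k e' x y d := fun h1 h2 d h =>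
    ⟨h.off, fun w hw => h1 ▸ h2 w hw ▸ h.adm w hw, h.inj, h.new, h1 ▸ h.keep, h1 ▸ h.spare⟩
  funext d
  exact propext ⟨key hx hN d, key hx.symm (fun w hw => (hN w hw).symm) d⟩

theorem ev_local (hV : I.Valid k g) (hW : J.Valid k g') (hc : Proper I k c) (hc' : Proper J k c')
    (h : hole I c x) (hS : SA I J x) (hag : ∀ v ∈ foot I k c x j, c v = c' v) :
    hole J c' x ∧ foot J k c' x j = foot I k c x j ∧
      (∀ i ≤ j, unbl I k c x i ↔ unbl J k c' x i) ∧
      ∀ v ∈ foot I k c x j, ev I k c x j v = ev J k c' x j v := by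
  have hx : c x = c' x := hag x ((mem_foot h).mpr (Or.inl rfl))
  have hN : ∀ w ∈ I.N x, c w = c' w := fun w hw => hag w ((mem_foot h).mpr (Or.inr (Or.inl hw)))
  have h' : hole J c' x := by
    unfold hole at h ⊢
    rwa [← hS.1, ← hS.2.2, ← hx]
  have e1 : yy J c' x = yy I c x := by
    unfold yy
    rw [hS.1, hS.2.2, hx]
  have e2 : al k c' x = al k c x := by
    unfold al
    rw [hx]
  have e3 : be J k c' x = be I k c x := by
    unfold be
    rw [e1, e2, ← hS.1, ← hS.2.1, Qb_congr hx hN (yy_spec h).1]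
  have hrow : ∀ m ≤ j + 1, rch I k c x m → c (pth I k c x m) = c' (pth I k c x m) :=
    fun m hm hr => hag _ ((mem_foot h).mpr (Or.inr (Or.inr ⟨m, hm, hr, rfl⟩)))
  have hp : ∀ i ≤ j + 1, (rch I k c x i ↔ rch J k c' x i) ∧
      (rch I k c x i → pth I k c x i = pth J k c' x i) := by
    intro i hi
    unfold rch pth
    rw [e2, e3]
    exact path_congr i fun m hm hr => hrow m (by omega) hr
  have hf : foot J k c' x j = foot I k c x j := by
    ext v
    rw [mem_foot h, mem_foot h', ← hS.1]
    refine or_congr_right (or_congr_right (exists_congr fun i => and_congr_right fun hi => ?_))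
    rw [← (hp i hi).1]
    exact and_congr_right fun hr => by rw [(hp i hi).2 hr]
  have hu : ∀ i ≤ j, unbl I k c x i ↔ unbl J k c' x i := by
    intro i hi
    change (rch I k c x (i + 1) → miss (c (pth I k c x i)) _ ∧ miss (c (pth I k c x (i + 1))) _) ↔
      (rch J k c' x (i + 1) → miss (c' (pth J k c' x i)) _ ∧ miss (c' (pth J k c' x (i + 1))) _)
    rw [← (hp (i + 1) (by omega)).1]
    refine imp_congr_right fun hr => ?_
    have hr' : rch I k c x i := reach_mono hr (by omega)
    rw [← (hp (i + 1) (by omega)).2 hr, ← (hp i (by omega)).2 hr', hrow _ (by omega) hr,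
      hrow _ (by omega) hr']
  have hC : Cset c' x (al k c' x) (be J k c' x) j = Cset c x (al k c x) (be I k c x) j := by
    ext v
    refine exists_congr fun i => and_congr_right fun hi => ?_
    change rch J k c' x i ∧ pth J k c' x i = v ↔ rch I k c x i ∧ pth I k c x i = v
    rw [← (hp i (by omega)).1]
    exact and_congr_right fun hr => by rw [(hp i (by omega)).2 hr]
  have hs : ∀ a b, spec c' x (al k c' x) (be J k c' x) j a b ↔
      spec c x (al k c x) (be I k c x) j a b := by
    intro a b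
    change rch J k c' x (j + 1) ∧ ((a = pth J k c' x j ∧ b = pth J k c' x (j + 1)) ∨
      (a = pth J k c' x (j + 1) ∧ b = pth J k c' x j)) ↔ rch I k c x (j + 1) ∧
      ((a = pth I k c x j ∧ b = pth I k c x (j + 1)) ∨ (a = pth I k c x (j + 1) ∧ b = pth I k c x j))
    rw [← (hp (j + 1) le_rfl).1]
    refine and_congr_right fun hr => ?_
    rw [(hp (j + 1) le_rfl).2 hr, (hp j (by omega)).2 (reach_mono hr (by omega))]
  have hfl : ∀ v, c v = c' v → flp J k c' x j v = flp I k c x j v := by
    intro v hv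
    funext u
    have : cut k c' x (al k c' x) (be J k c' x) j v u = cut k c x (al k c x) (be I k c x) j v u := by
      by_cases h1 : spec c x (al k c x) (be I k c x) j v u
      · rw [cut_spec h1, cut_spec ((hs _ _).mpr h1)]
      · rw [cut_not h1, cut_not fun h2 => h1 ((hs _ _).mp h2), hv]
    unfold flp flip
    rw [hC, this, e2, e3]
  have hst : StarOK (J.N x) k (flp J k c' x j) x (yy J c' x) =
      StarOK (I.N x) k (flp I k c x j) x (yy I c x) := by
    rw [← hS.1, e1]
    exact StarOK_congr (hfl x hx) fun w hw => hfl w (hN w hw)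
  refine ⟨h', hf, hu, fun v hv => ?_⟩
  unfold ev
  rw [hst]
  by_cases hc1 : hole I c x ∧ unbl I k c x j ∧
      ∃ d, StarOK (I.N x) k (flp I k c x j) x (yy I c x) d
  · rw [if_pos hc1, if_pos ⟨h', (hu j le_rfl).mp hc1.2.1, hc1.2.2⟩]
    funext u
    unfold star
    rw [hfl v (hag v hv)]
  · rw [if_neg hc1, if_neg fun h2 => hc1 ⟨h, (hu j le_rfl).mpr h2.2.1, h2.2.2⟩]
    exact hag v hv

theorem pth_adj (hV : I.Valid k g) (hc : Proper I k c) (h : hole I c x) {i : ℕ}
    (hr : rch I k c x (i + 1)) : pth I k c x (i + 1) ∈ I.N (pth I k c x i) := by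
  obtain ⟨a1, -, -, a4, -⟩ := albe_spec hV hc h
  exact path_adj hc (by omega) (by omega) hr

theorem foot_conn (hV : I.Valid k g) (hc : Proper I k c) (h : hole I c x) :
    Conn I.N (foot I k c x j) x := by
  have hx : x ∈ foot I k c x j := (mem_foot h).mpr (Or.inl rfl)
  refine ⟨hx, fun y hy => ?_⟩
  rcases (mem_foot h).mp hy with rfl | h1 | ⟨i, hi, hr, rfl⟩
  · exact Relation.ReflTransGen.refl
  · exact Relation.ReflTransGen.single ⟨hx, hy, h1⟩
  · clear hy
    induction i with
    | zero => exact Relation.ReflTransGen.refl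
    | succ m ih =>
      have hr' : rch I k c x m := reach_mono hr (by omega)
      exact (ih (by omega) hr').tail ⟨(mem_foot h).mpr (Or.inr (Or.inr ⟨m, by omega, hr', rfl⟩)),
        (mem_foot h).mpr (Or.inr (Or.inr ⟨m + 1, hi, hr, rfl⟩)), pth_adj hV hc h hr⟩

theorem foot_ball (hV : I.Valid k g) (hc : Proper I k c) :
    foot I k c x j ⊆ ball I.N x (j + 1) := by
  by_cases h : hole I c x
  swap
  · rw [foot_not h]; exact Finset.empty_subset _
  have mono : ∀ (r s : ℕ), r ≤ s → ball I.N x r ⊆ ball I.N x s := by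
    intro r s hrs
    induction hrs with
    | refl => exact subset_rfl
    | step _ ih => exact ih.trans Finset.subset_union_left
  have stp : ∀ (r a b : ℕ), a ∈ ball I.N x r → b ∈ I.N a → b ∈ ball I.N x (r + 1) :=
    fun r a b ha hb => Finset.mem_union_right _ (Finset.mem_biUnion.mpr ⟨a, ha, hb⟩)
  have h0 : x ∈ ball I.N x 0 := Finset.mem_singleton_self _
  intro y hy
  rcases (mem_foot h).mp hy with rfl | h1 | ⟨i, hi, hr, rfl⟩
  · exact mono 0 _ (by omega) h0
  · exact mono 1 _ (by omega) (stp 0 _ _ h0 h1)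
  · refine mono i _ hi ?_
    clear hy hi
    induction i with
    | zero => exact h0
    | succ m ih => exact stp _ _ _ (ih (reach_mono hr (by omega))) (pth_adj hV hc h hr)

theorem foot_sub (hV : I.Valid k g) (hc : Proper I k c) : foot I k c x j ⊆ I.S := by
  by_cases h : hole I c x
  swap
  · rw [foot_not h]; exact Finset.empty_subset _
  have hx : x ∈ I.S := hV.sub _ _ (yy_spec h).1
  intro y hy
  rcases (mem_foot h).mp hy with rfl | h1 | ⟨i, hi, hr, rfl⟩
  · exact hx
  · exact hV.sub _ _ (hV.symm _ _ h1)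
  · cases i with
    | zero => exact hx
    | succ m => exact hV.sub _ _ (hV.symm _ _ (pth_adj hV hc h hr))

theorem pth_inj (hV : I.Valid k g) (hc : Proper I k c) (h : hole I c x) {i i' : ℕ}
    (h1 : rch I k c x i) (h2 : rch I k c x i') (he : pth I k c x i = pth I k c x i') : i = i' := by
  obtain ⟨a1, -, a3, a4, -⟩ := albe_spec hV hc h
  exact path_inj hV hc (by omega) (by omega) a3 h1 h2 he

/-- Few paths pass through a given vertex. -/
theorem mult (hV : I.Valid k g) (hc : Proper I k c) (a : ℕ) (P : Finset (ℕ × ℕ))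
    (hP : ∀ q ∈ P, hole I c q.1 ∧ rch I k c q.1 q.2 ∧ pth I k c q.1 q.2 = a) :
    P.card ≤ 2 * k ^ 2 := by
  have : P.card ≤ (Finset.range 2 ×ˢ (Finset.Icc 1 k ×ˢ Finset.Icc 1 k)).card := by
    refine Finset.card_le_card_of_injOn (fun q => (q.2 % 2, al k c q.1, be I k c q.1)) ?_ ?_
    · intro q hq
      obtain ⟨a1, a2, -, a4, a5⟩ := albe_spec hV hc (hP q hq).1
      simp only [Finset.coe_product, Set.mem_prod, Finset.mem_coe, Finset.mem_range,
        Finset.mem_Icc]
      omega
    · intro q hq q' hq' he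
      simp only [Prod.mk.injEq] at he
      obtain ⟨e1, e2, e3⟩ := he
      obtain ⟨p1, p2, p3⟩ := hP q hq
      obtain ⟨r1, r2, r3⟩ := hP q' hq'
      obtain ⟨a1, -, a3, a4, -⟩ := albe_spec hV hc p1
      obtain ⟨-, -, b3, -, -⟩ := albe_spec hV hc r1
      unfold rch pth at *
      rw [← e2, ← e3] at r2 r3
      rw [← e2] at b3
      obtain ⟨f1, f2⟩ := path_back hc (by omega) (by omega) a3 b3 _ _ p2 r2 (p3.trans r3.symm) e1
      exact Prod.ext f1 f2
  simpa [sq] using this

theorem hole_mono (hV : I.Valid k g) (hc : Proper I k c) (h : hole I (ev I k c x j) v) :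
    hole I c v := by
  obtain ⟨y, h1, h2, h3⟩ := h
  exact ⟨y, h1, h2, by_contra fun h4 => ev_keep hV hc h4 h3⟩

theorem nh_sub (hV : I.Valid k g) (hc : Proper I k c) :
    ((I.N v).filter fun y => I.ok v y ∧ ev I k c x j v y = 0) ⊆
      (I.N v).filter fun y => I.ok v y ∧ c v y = 0 := by
  intro y hy
  rw [Finset.mem_filter] at hy ⊢
  exact ⟨hy.1, hy.2.1, by_contra fun h4 => ev_keep hV hc h4 hy.2.2⟩

theorem nh_mono (hV : I.Valid k g) (hc : Proper I k c) : nh I (ev I k c x j) v ≤ nh I c v := by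
  exact Finset.card_le_card (nh_sub hV hc)

theorem nh_lt (hV : I.Valid k g) (hc : Proper I k c) (h : hole I c x)
    (hu : unbl I k c x j) (hj : j ≤ g) : nh I (ev I k c x j) x < nh I c x := by
  refine Finset.card_lt_card ((Finset.ssubset_iff_of_subset (nh_sub hV hc)).mpr
    ⟨yy I c x, Finset.mem_filter.mpr (yy_spec h), fun h1 => ?_⟩)
  exact ev_success hV hc h hu hj (Finset.mem_filter.mp h1).2.2

theorem step1_proper {a l : ℕ} (hV : I.Valid k g) (hc : Proper I k c) (z : ℕ → Fin a × Fin l) :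
    Proper I k (step1 I k c z) := by
  unfold step1
  split_ifs
  · exact ev_proper hV hc
  · exact hc

theorem run1_proper {a l : ℕ} (hV : I.Valid k g) (w : ℕ → ℕ → Fin a × Fin l) (t : ℕ) :
    Proper I k (run1 I k w t) := by
  induction t with
  | zero => exact ⟨fun _ _ => rfl, fun _ _ h => absurd rfl h, fun _ _ => Nat.zero_le _,
      fun _ _ _ h => absurd rfl h⟩
  | succ t ih => exact step1_proper hV ih _

end Pool.Agent.Lib.MP_459a07_lc
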