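import Pool.Agent.Lib.MP_459a07_lc.Defs

set_option autoImplicit false

namespace Pool.Agent.Lib.MP_459a07_lc

open Classical

variable {N N' : ℕ → Finset ℕ} {u v w : ℕ} {r s k : ℕ}

theorem mem_ball_succ : w ∈ ball N v (r + 1) ↔ w ∈ ball N v r ∨ ∃ a ∈ ball N v r, w ∈ N a := by
  simp [ball]

theorem self_mem_ball : v ∈ ball N v r := by
  induction r with
  | zero => simp [ball]
  | succ r ih => exact mem_ball_succ.2 (Or.inl ih)

theorem ball_mono (h : r ≤ s) : ball N v r ⊆ ball N v s := by
  induction h with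
  | refl => exact Finset.Subset.refl _
  | step _ ih => exact fun a ha => mem_ball_succ.2 (Or.inl (ih ha))

theorem ball_trans (h1 : v ∈ ball N u r) (h2 : w ∈ ball N v s) : w ∈ ball N u (r + s) := by
  induction s generalizing w with
  | zero =>
    have : w = v := by simpa [ball] using h2
    rw [this]
    exact h1
  | succ s ih =>
    rcases mem_ball_succ.1 h2 with h | ⟨a, ha, h⟩
    · exact mem_ball_succ.2 (Or.inl (ih h))
    · exact mem_ball_succ.2 (Or.inr ⟨a, ih ha, h⟩)

theorem ball_symm (hs : ∀ a b, b ∈ N a → a ∈ N b) (h : v ∈ ball N u r) : u ∈ ball N v r := by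
  induction r generalizing v with
  | zero =>
    have : v = u := by simpa [ball] using h
    rw [this]
    exact self_mem_ball
  | succ r ih =>
    rcases mem_ball_succ.1 h with h | ⟨a, ha, h⟩
    · exact mem_ball_succ.2 (Or.inl (ih h))
    · have h1 : a ∈ ball N v 1 := mem_ball_succ.2 (Or.inr ⟨v, self_mem_ball, hs _ _ h⟩)
      have h2 := ball_trans h1 (ih ha)
      rwa [Nat.add_comm] at h2

theorem ball_congr (h : ∀ a ∈ ball N v r, N a = N' a) : ball N v (r + 1) = ball N' v (r + 1) := by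
  have key : ∀ s ≤ r + 1, ball N v s = ball N' v s := by
    intro s
    induction s with
    | zero => intro _; rfl
    | succ s ih =>
      intro hs
      have e := ih (by omega)
      ext x
      rw [mem_ball_succ, mem_ball_succ, ← e]
      refine or_congr Iff.rfl (exists_congr fun a => and_congr_right fun ha => ?_)
      rw [h a (ball_mono (by omega) ha)]
  exact key _ le_rfl

theorem card_ball (hk : ∀ a, (N a).card ≤ k) : (ball N v r).card ≤ (k + 1) ^ r := by
  induction r with
  | zero => simp [ball]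
  | succ r ih =>
    have h1 : ((ball N v r).biUnion N).card ≤ (ball N v r).card * k :=
      Finset.card_biUnion_le_card_mul _ _ _ fun a _ => hk a
    calc (ball N v (r + 1)).card ≤ (ball N v r).card + ((ball N v r).biUnion N).card :=
          Finset.card_union_le _ _
      _ ≤ (ball N v r).card * (k + 1) := by rw [Nat.mul_succ]; omega
      _ ≤ (k + 1) ^ r * (k + 1) := Nat.mul_le_mul_right _ ih
      _ = (k + 1) ^ (r + 1) := (pow_succ _ _).symm

theorem Conn.exit {W S : Finset ℕ} (hW : Conn N W v) (hb : v ∈ S) {y : ℕ} (hy : y ∈ W)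
    (hyS : y ∉ S) : ∃ a ∈ S, ∃ z ∈ W, z ∉ S ∧ z ∈ N a := by
  by_contra hcon
  apply hyS
  have h := hW.2 y hy
  clear hy hyS
  induction h with
  | refl => exact hb
  | tail _ hstep ih =>
    by_contra hz
    exact hcon ⟨_, ih, _, hstep.2.1, hz, hstep.2.2⟩

theorem Conn.sub_ball {W : Finset ℕ} (h : Conn N W v) : W ⊆ ball N v (W.card - 1) := by
  have key : ∀ n, W ⊆ ball N v n ∨ n + 1 ≤ (W ∩ ball N v n).card := by
    intro n
    induction n with
    | zero =>
      exact Or.inr (Finset.card_pos.2 ⟨v, Finset.mem_inter.2 ⟨h.1, self_mem_ball⟩⟩)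
    | succ n ih =>
      by_cases hs : W ⊆ ball N v n
      · exact Or.inl (hs.trans (ball_mono (Nat.le_succ n)))
      · have h1 := ih.resolve_left hs
        obtain ⟨y, hy, hyS⟩ := Finset.not_subset.1 hs
        obtain ⟨a, ha, z, hz, hzS, haz⟩ := h.exit self_mem_ball hy hyS
        right
        have h2 : W ∩ ball N v n ⊂ W ∩ ball N v (n + 1) := by
          refine Finset.ssubset_iff_subset_ne.2 ⟨Finset.inter_subset_inter (Finset.Subset.refl _)
            (ball_mono (Nat.le_succ n)), fun e => hzS ?_⟩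
          have : z ∈ W ∩ ball N v (n + 1) :=
            Finset.mem_inter.2 ⟨hz, mem_ball_succ.2 (Or.inr ⟨a, ha, haz⟩)⟩
          rw [← e] at this
          exact (Finset.mem_inter.1 this).2
        have := Finset.card_lt_card h2
        omega
  rcases key (W.card - 1) with h1 | h1
  · exact h1
  · have h2 : W ∩ ball N v (W.card - 1) = W :=
      Finset.eq_of_subset_of_card_le Finset.inter_subset_left (by omega)
    exact Finset.inter_eq_left.1 h2

theorem Conn.rebase {W : Finset ℕ} (hs : ∀ a b, b ∈ N a → a ∈ N b) (h : Conn N W v) (hu : u ∈ W) :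
    Conn N W u := by
  refine ⟨hu, fun y hy => Relation.ReflTransGen.trans ?_ (h.2 y hy)⟩
  have h1 := h.2 u hu
  clear hu
  induction h1 with
  | refl => exact Relation.ReflTransGen.refl
  | tail _ hstep ih => exact Relation.ReflTransGen.head ⟨hstep.2.1, hstep.1, hs _ _ hstep.2.2⟩ ih

theorem rtg_mono {p q : ℕ → ℕ → Prop} {a b : ℕ} (h : Relation.ReflTransGen p a b)
    (hpq : ∀ a b, p a b → q a b) : Relation.ReflTransGen q a b := by
  induction h with
  | refl => exact Relation.ReflTransGen.refl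
  | tail _ hstep ih => exact ih.tail (hpq _ _ hstep)

theorem Conn.union {W W' : Finset ℕ} (h : Conn N W v) (h' : Conn N W' u) (hu : u ∈ W) :
    Conn N (W ∪ W') v := by
  have m1 : ∀ y ∈ W, Relation.ReflTransGen
      (fun a a' => a ∈ W ∪ W' ∧ a' ∈ W ∪ W' ∧ a' ∈ N a) v y := fun y hy =>
    rtg_mono (h.2 y hy) fun a b hab =>
      ⟨Finset.mem_union_left _ hab.1, Finset.mem_union_left _ hab.2.1, hab.2.2⟩
  refine ⟨Finset.mem_union_left _ h.1, fun y hy => ?_⟩
  rcases Finset.mem_union.1 hy with hy | hy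
  · exact m1 y hy
  · exact (m1 u hu).trans (rtg_mono (h'.2 y hy) fun a b hab =>
      ⟨Finset.mem_union_right _ hab.1, Finset.mem_union_right _ hab.2.1, hab.2.2⟩)

theorem Conn.congr {W : Finset ℕ} (h : Conn N W v) (he : ∀ a ∈ W, N a = N' a) : Conn N' W v :=
  ⟨h.1, fun y hy => rtg_mono (h.2 y hy) fun a _ hab => ⟨hab.1, hab.2.1, he a hab.1 ▸ hab.2.2⟩⟩

/-- Vertex sets of the lazy walks of length `L` starting from `b`. -/
def lazyWalk (N : ℕ → Finset ℕ) : ℕ → ℕ → Finset (Finset ℕ)
  | 0, b => {{b}}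
  | L + 1, b => (insert b (N b)).biUnion fun b' => (lazyWalk N L b').image (insert b)

theorem lazyWalk_succ {L b : ℕ} {S : Finset ℕ} : S ∈ lazyWalk N (L + 1) b ↔
    ∃ b', (b' = b ∨ b' ∈ N b) ∧ ∃ S' ∈ lazyWalk N L b', insert b S' = S := by
  simp only [lazyWalk, Finset.mem_biUnion, Finset.mem_insert, Finset.mem_image]

theorem lazyWalk_card (hk : ∀ a, (N a).card ≤ k) :
    ∀ L b : ℕ, (lazyWalk N L b).card ≤ (k + 1) ^ L := by
  intro L
  induction L with
  | zero => intro b; simp [lazyWalk]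
  | succ L ih =>
    intro b
    calc (lazyWalk N (L + 1) b).card ≤ (insert b (N b)).card * (k + 1) ^ L :=
          Finset.card_biUnion_le_card_mul _ _ _ fun b' _ => Finset.card_image_le.trans (ih b')
      _ ≤ (k + 1) * (k + 1) ^ L := Nat.mul_le_mul_right _
          ((Finset.card_insert_le _ _).trans (Nat.succ_le_succ (hk b)))
      _ = (k + 1) ^ (L + 1) := by ring

theorem lazyWalk_root {L b : ℕ} {S : Finset ℕ} (hS : S ∈ lazyWalk N L b) : b ∈ S := by
  cases L with
  | zero =>
    have : S = {b} := by simpa [lazyWalk] using hS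
    simp [this]
  | succ L =>
    obtain ⟨b', -, S', -, rfl⟩ := lazyWalk_succ.1 hS
    exact Finset.mem_insert_self _ _

theorem lazyWalk_lazy {L b : ℕ} {S : Finset ℕ} (hS : S ∈ lazyWalk N L b) (n : ℕ) :
    S ∈ lazyWalk N (L + n) b := by
  induction n with
  | zero => exact hS
  | succ n ih =>
    exact lazyWalk_succ.2 ⟨b, Or.inl rfl, S, ih, Finset.insert_eq_of_mem (lazyWalk_root hS)⟩

theorem lazyWalk_detour (hs : ∀ a b, b ∈ N a → a ∈ N b) {a y : ℕ} (hay : y ∈ N a) :
    ∀ (L b : ℕ) (S : Finset ℕ), S ∈ lazyWalk N L b → a ∈ S →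
      insert y S ∈ lazyWalk N (L + 2) b := by
  have hroot : ∀ (L : ℕ) (S : Finset ℕ), S ∈ lazyWalk N L a →
      insert y S ∈ lazyWalk N (L + 2) a := by
    intro L S hS
    refine lazyWalk_succ.2 ⟨y, Or.inr hay, insert y S,
      lazyWalk_succ.2 ⟨a, Or.inr (hs _ _ hay), S, hS, rfl⟩, ?_⟩
    exact Finset.insert_eq_of_mem (Finset.mem_insert_of_mem (lazyWalk_root hS))
  intro L
  induction L with
  | zero =>
    intro b S hS ha
    have h1 : S = {b} := by simpa [lazyWalk] using hS
    have h2 : a = b := by simpa [h1] using ha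
    subst h2
    exact hroot 0 S hS
  | succ L ih =>
    intro b S hS ha
    by_cases hab : a = b
    · subst hab
      exact hroot _ S hS
    · obtain ⟨b', hb', S', hS', rfl⟩ := lazyWalk_succ.1 hS
      have ha' : a ∈ S' := by
        rcases Finset.mem_insert.1 ha with h | h
        · exact absurd h hab
        · exact h
      exact lazyWalk_succ.2 ⟨b', hb', insert y S', ih b' S' hS' ha', Finset.insert_comm _ _ _⟩

theorem lazyWalk_grow (hs : ∀ a b, b ∈ N a → a ∈ N b) {W : Finset ℕ} {b : ℕ} (hW : Conn N W b) :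
    ∀ n : ℕ, n + 1 ≤ W.card → ∃ S ⊆ W, S.card = n + 1 ∧ S ∈ lazyWalk N (2 * n) b := by
  intro n
  induction n with
  | zero =>
    intro _
    exact ⟨{b}, by simpa using hW.1, by simp, by simp [lazyWalk]⟩
  | succ n ih =>
    intro hn
    obtain ⟨S, hSW, hcard, hS⟩ := ih (by omega)
    have hex : ¬ W ⊆ S := fun hcon => by
      have := Finset.card_le_card hcon
      omega
    obtain ⟨y, hy, hyS⟩ := Finset.not_subset.1 hex
    obtain ⟨a, ha, z, hz, hzS, haz⟩ := hW.exit (lazyWalk_root hS) hy hyS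
    refine ⟨insert z S, Finset.insert_subset hz hSW, ?_, ?_⟩
    · rw [Finset.card_insert_of_notMem hzS, hcard]
    · exact lazyWalk_detour hs haz _ b S hS ha

/-- Counting connected sets. -/
theorem animals (hs : ∀ a b, b ∈ N a → a ∈ N b) (hk : ∀ a, (N a).card ≤ k) (b m : ℕ) :
    ∃ A : Finset (Finset ℕ), A.card ≤ (k + 1) ^ (2 * m) ∧
      ∀ W, Conn N W b → W.card = m → W ∈ A := by
  refine ⟨lazyWalk N (2 * m) b, lazyWalk_card hk _ _, fun W hW hw => ?_⟩
  have hpos : 0 < W.card := Finset.card_pos.2 ⟨b, hW.1⟩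
  obtain ⟨S, hSW, hcard, hS⟩ := lazyWalk_grow hs hW (W.card - 1) (by omega)
  have hSW' : S = W := Finset.eq_of_subset_of_card_le hSW (by omega)
  have := lazyWalk_lazy hS 2
  rw [show 2 * (W.card - 1) + 2 = 2 * m by omega, hSW'] at this
  exact this

end Pool.Agent.Lib.MP_459a07_lc
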