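import Mathlib

/-! Definitions for the edge colouring process.  Vertices are natural numbers (identifiers).
Colour `0` means uncoloured, `1, ..., k` is the palette, `k + 1` is the spare colour. -/

set_option autoImplicit false

namespace Pool.Agent.Lib.MP_459a07_lc

open Classical

abbrev Col := ℕ → ℕ → ℕ

/-- A graph on a finite set of naturals with the static data used by the process. -/
structure Inst where
  S : Finset ℕ
  N : ℕ → Finset ℕ
  fan : ℕ → ℕ → Prop
  ok : ℕ → ℕ → Prop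

structure Inst.Valid (I : Inst) (k g : ℕ) : Prop where
  symm : ∀ u v, v ∈ I.N u → u ∈ I.N v
  irrefl : ∀ u, u ∉ I.N u
  sub : ∀ u v, v ∈ I.N u → u ∈ I.S
  deg : ∀ u, (I.N u).card ≤ k
  fanspec : ∀ x y, y ∈ I.N x → I.fan x y → ∀ w ∈ I.N x, w ≠ y → (I.N w).card < k
  plain : ∀ x y, y ∈ I.N x → I.ok x y → ¬ I.fan x y → ∀ (p : ℕ → ℕ) (j : ℕ), j ≤ g → Even j →
    p 0 = x → p j = y → (∀ i < j, p (i + 1) ∈ I.N (p i)) → ¬ Set.InjOn p (Set.Iic j)
  cover : ∀ x y, y ∈ I.N x → I.ok x y ∨ I.ok y x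

structure Proper (I : Inst) (k : ℕ) (c : Col) : Prop where
  symm : ∀ u v, c u v = c v u
  edge : ∀ u v, c u v ≠ 0 → v ∈ I.N u
  le : ∀ u v, c u v ≤ k + 1
  inj : ∀ u v w, c u v ≠ 0 → c u v = c u w → v = w

/-- The colour `γ` does not occur in the row. -/
def miss (row : ℕ → ℕ) (γ : ℕ) : Prop := ∀ u, row u ≠ γ

noncomputable def alpha (k : ℕ) (row : ℕ → ℕ) : ℕ :=
  epsilon fun a => 1 ≤ a ∧ a ≤ k ∧ miss row a

def cidx (α β i : ℕ) : ℕ := if Even i then β else α

/-- The alternating path from `x` with colours `β, α, β, ...`. -/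
noncomputable def path (c : Col) (x α β : ℕ) : ℕ → ℕ
  | 0 => x
  | i + 1 => epsilon fun u => c (path c x α β i) u = cidx α β i

/-- The first `i` edges of the path exist. -/
def reach (c : Col) (x α β i : ℕ) : Prop :=
  ∀ i' < i, ¬ miss (c (path c x α β i')) (cidx α β i')

def Cset (c : Col) (x α β j : ℕ) : Set ℕ :=
  {v | ∃ i ≤ j, reach c x α β i ∧ path c x α β i = v}

/-- Give the spare colour to edge number `j` of the path, if it exists. -/
noncomputable def cut (k : ℕ) (c : Col) (x α β j : ℕ) : Col := fun u v =>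
  if reach c x α β (j + 1) ∧ ((u = path c x α β j ∧ v = path c x α β (j + 1)) ∨
    (u = path c x α β (j + 1) ∧ v = path c x α β j)) then k + 1 else c u v

def sw (α β γ : ℕ) : ℕ := if γ = α then β else if γ = β then α else γ

/-- Cut at edge `j` and exchange `α, β` on the part of the path before it. -/
noncomputable def flip (k : ℕ) (c : Col) (x α β j : ℕ) : Col := fun u v =>
  if u ∈ Cset c x α β j ∨ v ∈ Cset c x α β j then sw α β (cut k c x α β j u v)
  else cut k c x α β j u v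

/-- Edge `j` of the path does not exist or can take the spare colour. -/
def unb (k : ℕ) (c : Col) (x α β j : ℕ) : Prop :=
  reach c x α β (j + 1) →
    miss (c (path c x α β j)) (k + 1) ∧ miss (c (path c x α β (j + 1))) (k + 1)

/-- `d` is a recolouring of the star at `x` that colours `x y`. -/
structure StarOK (Nx : Finset ℕ) (k : ℕ) (c : Col) (x y : ℕ) (d : ℕ → ℕ) : Prop where
  off : ∀ w, w ∉ Nx → d w = 0
  adm : ∀ w ∈ Nx, d w = c x w ∨ (1 ≤ d w ∧ d w ≤ k ∧ miss (c w) (d w))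
  inj : ∀ w w', d w ≠ 0 → d w = d w' → w = w'
  new : d y ≠ 0
  keep : ∀ w ∈ Nx, c x w ≠ 0 → d w ≠ 0
  spare : ∀ w ∈ Nx, c x w = k + 1 → d w = k + 1

/-- What a flip does to the rows of `x` and its neighbours; `z` is the far end of the path. -/
structure Modif (Nx : Finset ℕ) (k : ℕ) (c c2 : Col) (x α β z : ℕ) : Prop where
  same : ∀ w ∈ Nx, c x w ≠ β → c2 x w = c x w
  first : ∀ w ∈ Nx, c x w = β → c2 x w = α ∨ c2 x w = k + 1
  inj : ∀ w ∈ Nx, ∀ w' ∈ Nx, c2 x w ≠ 0 → c2 x w = c2 x w' → w = w'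
  other : ∀ w ∈ Nx, ∀ γ, 1 ≤ γ → γ ≤ k → γ ≠ α → γ ≠ β → miss (c w) γ → miss (c2 w) γ
  stay : ∀ w ∈ Nx, w ≠ z → miss (c w) β → miss (c2 w) β
  far : z ∈ Nx → miss (c z) β → miss (c2 z) α ∧ ∀ w ∈ Nx, c x w = β → c2 x w = α

def Qb (Nx : Finset ℕ) (fanxy : Prop) (k : ℕ) (c : Col) (x y α β : ℕ) : Prop :=
  1 ≤ β ∧ β ≤ k ∧ ∀ (c2 : Col) (z : ℕ), Modif Nx k c c2 x α β z →
    (fanxy ∨ ¬ (z = y ∧ miss (c y) β)) → ∃ d, StarOK Nx k c2 x y d

/-- `x` is in charge of an uncoloured edge. -/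
def hole (I : Inst) (c : Col) (x : ℕ) : Prop := ∃ y, y ∈ I.N x ∧ I.ok x y ∧ c x y = 0

noncomputable def yy (I : Inst) (c : Col) (x : ℕ) : ℕ :=
  epsilon fun y => y ∈ I.N x ∧ I.ok x y ∧ c x y = 0

noncomputable def al (k : ℕ) (c : Col) (x : ℕ) : ℕ := alpha k (c x)

noncomputable def be (I : Inst) (k : ℕ) (c : Col) (x : ℕ) : ℕ :=
  epsilon (Qb (I.N x) (I.fan x (yy I c x)) k c x (yy I c x) (al k c x))

noncomputable def pth (I : Inst) (k : ℕ) (c : Col) (x : ℕ) : ℕ → ℕ :=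
  path c x (al k c x) (be I k c x)

def rch (I : Inst) (k : ℕ) (c : Col) (x i : ℕ) : Prop := reach c x (al k c x) (be I k c x) i

def unbl (I : Inst) (k : ℕ) (c : Col) (x j : ℕ) : Prop := unb k c x (al k c x) (be I k c x) j

noncomputable def flp (I : Inst) (k : ℕ) (c : Col) (x j : ℕ) : Col :=
  flip k c x (al k c x) (be I k c x) j

noncomputable def star (c : Col) (x : ℕ) (d : ℕ → ℕ) : Col := fun u v =>
  if u = x then d v else if v = x then d u else c u v

/-- The elementary event: `x` tries to colour its uncoloured edge, cutting at position `j`. -/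
noncomputable def ev (I : Inst) (k : ℕ) (c : Col) (x j : ℕ) : Col :=
  if hole I c x ∧ unbl I k c x j ∧ ∃ d, StarOK (I.N x) k (flp I k c x j) x (yy I c x) d then
    star (flp I k c x j) x (epsilon (StarOK (I.N x) k (flp I k c x j) x (yy I c x)))
  else c

/-- The vertices read or written by the event. -/
noncomputable def foot (I : Inst) (k : ℕ) (c : Col) (x j : ℕ) : Finset ℕ :=
  if hole I c x then
    insert x (I.N x) ∪ ((Finset.range (j + 2)).filter (rch I k c x)).image (pth I k c x)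
  else ∅

/-- Number of uncoloured edges `x` is in charge of. -/
noncomputable def nh (I : Inst) (c : Col) (x : ℕ) : ℕ :=
  ((I.N x).filter fun y => I.ok x y ∧ c x y = 0).card

/-- The vertex is covered by the spare colour. -/
def cov (k : ℕ) (c : Col) (v : ℕ) : Prop := ¬ miss (c v) (k + 1)

/-- The static data at `v` agree. -/
def SA (I J : Inst) (v : ℕ) : Prop := I.N v = J.N v ∧ I.fan v = J.fan v ∧ I.ok v = J.ok v

def ball (N : ℕ → Finset ℕ) (v : ℕ) : ℕ → Finset ℕ
  | 0 => {v}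
  | r + 1 => ball N v r ∪ (ball N v r).biUnion N

def Conn (N : ℕ → Finset ℕ) (W : Finset ℕ) (b : ℕ) : Prop :=
  b ∈ W ∧ ∀ y ∈ W, Relation.ReflTransGen (fun a a' => a ∈ W ∧ a' ∈ W ∧ a' ∈ N a) b y

/-! ### Stage one: random slots -/

def active {a l : ℕ} (z : ℕ → Fin a × Fin l) (v : ℕ) : Prop := ((z v).1 : ℕ) = 0

noncomputable def step1 {a l : ℕ} (I : Inst) (k : ℕ) (c : Col) (z : ℕ → Fin a × Fin l) : Col :=
  if ∃! v, v ∈ I.S ∧ active z v then
    ev I k c (epsilon fun v => v ∈ I.S ∧ active z v)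
      ((z (epsilon fun v => v ∈ I.S ∧ active z v)).2 : ℕ)
  else c

def runL {σ Z : Type} (step : σ → Z → σ) (s0 : σ) (w : ℕ → Z) : ℕ → σ
  | 0 => s0
  | t + 1 => step (runL step s0 w t) (w t)

noncomputable def run1 {a l : ℕ} (I : Inst) (k : ℕ) (w : ℕ → ℕ → Fin a × Fin l) : ℕ → Col :=
  runL (step1 I k) (fun _ _ => 0) w

/-- At least half of the first `l` positions are blocked. -/
def halfb (I : Inst) (k l : ℕ) (c : Col) (x : ℕ) : Prop :=
  l ≤ 2 * ((Finset.range l).filter fun j => ¬ unbl I k c x j).card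

def G1 {a l : ℕ} (I : Inst) (T : ℕ) (w : ℕ → ℕ → Fin a × Fin l) : Prop :=
  ∀ t < T, ∀ u ∈ I.S, ∀ v ∈ I.S, active (w t) u → active (w t) v → u = v

def G2 {a l : ℕ} (I : Inst) (T m1 : ℕ) (w : ℕ → ℕ → Fin a × Fin l) : Prop :=
  ¬ ∃ (t u : ℕ → ℕ), (∀ i < m1, t i < T ∧ u i ∈ I.S ∧ active (w (t i)) (u i)) ∧
    ∀ i, i + 1 < m1 → t i < t (i + 1) ∧ u (i + 1) ∈ ball I.N (u i) (2 * (l + 1))

def G3 (I : Inst) (k m0 D3 : ℕ) (c : Col) : Prop :=
  ∀ (X : Finset ℕ) (b : ℕ), X ⊆ I.S → Conn I.N X b → m0 ≤ X.card →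
    D3 * (X.filter (cov k c)).card < X.card

def G4 {a l : ℕ} (I : Inst) (k T m0 D4 : ℕ) (w : ℕ → ℕ → Fin a × Fin l) : Prop :=
  ∀ (X : Finset ℕ) (b : ℕ), X ⊆ I.S → Conn I.N X b → m0 ≤ X.card →
    X.card ≤ D4 * (X.filter (hole I (run1 I k w T))).card →
    ∃ t < T, X.card ≤ 2 * D4 *
      (X.filter fun x => hole I (run1 I k w t) x ∧ halfb I k l (run1 I k w t) x).card

/-- No large connected set carries many covered vertices or vertices with uncoloured edges. -/
def Light (I : Inst) (k m0 K : ℕ) (c : Col) : Prop :=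
  ∀ (X : Finset ℕ) (b : ℕ), X ⊆ I.S → Conn I.N X b → m0 ≤ X.card →
    K * ((X.filter (cov k c)).card + (X.filter (hole I c)).card) < X.card

/-! ### Stage two: deterministic clean-up -/

noncomputable def jst (I : Inst) (k : ℕ) (c : Col) (x : ℕ) : ℕ := sInf {j | unbl I k c x j}

noncomputable def run2 (I : Inst) (k : ℕ) (c : Col) : ℕ → Col
  | 0 => c
  | s + 1 => ev I k (run2 I k c s) (s / k) (jst I k (run2 I k c s) (s / k))

/-- The final colouring. -/
noncomputable def fin2 (I : Inst) (k : ℕ) (c : Col) : Col := run2 I k c (k * (I.S.sup id + 1))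

end Pool.Agent.Lib.MP_459a07_lc
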