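import Pool.Agent.Lib.MP_459a07_lc.Act
import Pool.Agent.Lib.MP_459a07_lc.Count

set_option autoImplicit false

namespace Pool.Agent.Lib.MP_459a07_lc

open Classical

theorem light_cov_mono {a l k g : ℕ} {I : Inst} (hV : I.Valid k g) (w : ℕ → ℕ → Fin a × Fin l)
    (t d : ℕ) {v : ℕ} (h : cov k (run1 I k w t) v) : cov k (run1 I k w (t + d)) v := by
  induction d with
  | zero => exact h
  | succ d ih =>
    have hp := run1_proper hV w (t + d)
    have he : run1 I k w (t + (d + 1)) = step1 I k (run1 I k w (t + d)) (w (t + d)) := rfl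
    rw [he, step1]
    split_ifs
    · exact ev_cov_mono hV hp ih
    · exact ih

theorem light_pth_foot {I : Inst} {k : ℕ} {c : Col} {x j i : ℕ} (h : hole I c x)
    (hi : i < j + 2) (hr : rch I k c x i) : pth I k c x i ∈ foot I k c x j := by
  simp only [foot, if_pos h, Finset.mem_union, Finset.mem_image, Finset.mem_filter,
    Finset.mem_range]
  exact Or.inr ⟨i, ⟨hi, hr⟩, rfl⟩

theorem light_blocked {I : Inst} {k : ℕ} {c : Col} {x j : ℕ} (h : ¬ unbl I k c x j) :
    rch I k c x (j + 1) ∧ (cov k c (pth I k c x j) ∨ cov k c (pth I k c x (j + 1))) := by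
  unfold unbl unb at h
  rw [Classical.not_imp, not_and_or] at h
  exact h

/-- Adding the first `l + 1` vertices of the paths of a set `B` of half-blocked vertices. -/
theorem light_extend {l k g : ℕ} {I : Inst} (hV : I.Valid k g) {c : Col} (hc : Proper I k c)
    (X B : Finset ℕ) (b : ℕ) (hX : X ⊆ I.S) (hcon : Conn I.N X b) (hBX : B ⊆ X)
    (hB : ∀ x ∈ B, hole I c x ∧ halfb I k l c x) :
    ∃ X' : Finset ℕ, X ⊆ X' ∧ X' ⊆ I.S ∧ Conn I.N X' b ∧ X'.card ≤ X.card + l * B.card ∧
      l * B.card ≤ 8 * k ^ 2 * (X'.filter (cov k c)).card := by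
  set E : ℕ → Finset ℕ := fun x =>
    ((Finset.range l).filter fun i => rch I k c x (i + 1)).image fun i => pth I k c x (i + 1)
    with hE
  set X' := X ∪ B.biUnion E with hX'
  have hmem : ∀ x ∈ B, ∀ i ≤ l, rch I k c x i → pth I k c x i ∈ X' := by
    intro x hx i hi hr
    rcases Nat.eq_zero_or_pos i with rfl | hpos
    · exact Finset.mem_union_left _ (hBX hx)
    · obtain ⟨m, rfl⟩ : ∃ m, i = m + 1 := ⟨i - 1, by omega⟩
      refine Finset.mem_union_right _ (Finset.mem_biUnion.2 ⟨x, hx, ?_⟩)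
      exact Finset.mem_image.2 ⟨m, Finset.mem_filter.2 ⟨Finset.mem_range.2 (by omega), hr⟩, rfl⟩
  have hmem' : ∀ y ∈ X', y ∈ X ∨ ∃ x ∈ B, ∃ i ≤ l, rch I k c x i ∧ pth I k c x i = y := by
    intro y hy
    rcases Finset.mem_union.1 hy with h | h
    · exact Or.inl h
    · obtain ⟨x, hx, h'⟩ := Finset.mem_biUnion.1 h
      obtain ⟨i, hi, rfl⟩ := Finset.mem_image.1 h'
      obtain ⟨h1, h2⟩ := Finset.mem_filter.1 hi
      exact Or.inr ⟨x, hx, i + 1, Finset.mem_range.1 h1, h2, rfl⟩
  refine ⟨X', Finset.subset_union_left, ?_, ⟨Finset.mem_union_left _ hcon.1, ?_⟩, ?_, ?_⟩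
  · intro y hy
    rcases hmem' y hy with h | ⟨x, hx, i, hi, hr, rfl⟩
    · exact hX h
    · exact foot_sub (x := x) (j := l) hV hc (light_pth_foot (hB x hx).1 (by omega) hr)
  · have hin : ∀ y ∈ X,
        Relation.ReflTransGen (fun a a' => a ∈ X' ∧ a' ∈ X' ∧ a' ∈ I.N a) b y := by
      intro y hy
      refine Relation.ReflTransGen.mono ?_ b y (hcon.2 y hy)
      rintro u v ⟨p1, p2, p3⟩
      exact ⟨Finset.mem_union_left _ p1, Finset.mem_union_left _ p2, p3⟩
    intro y hy
    rcases hmem' y hy with h | ⟨x, hx, i, hi, hr, rfl⟩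
    · exact hin y h
    · obtain ⟨h1, _, _, h4, _⟩ := albe_spec hV hc (hB x hx).1
      clear hy
      induction i with
      | zero => exact hin x (hBX hx)
      | succ m ih =>
        have hr' : rch I k c x m := reach_mono hr (Nat.le_succ _)
        exact (ih (by omega) hr').tail ⟨hmem x hx m (by omega) hr', hmem x hx (m + 1) hi hr,
          path_adj hc (by omega) (by omega) hr⟩
  · refine (Finset.card_union_le _ _).trans (Nat.add_le_add_left ?_ _)
    rw [mul_comm]
    refine Finset.card_biUnion_le_card_mul _ _ _ fun x _ => ?_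
    exact Finset.card_image_le.trans ((Finset.card_filter_le _ _).trans (by simp))
  · set Pf : ℕ → Finset ℕ := fun x =>
      (Finset.range (l + 1)).filter fun i => rch I k c x i ∧ cov k c (pth I k c x i) with hPf
    have h1 : ∀ x ∈ B, l ≤ 4 * (Pf x).card := by
      intro x hx
      have a1 : l ≤ 2 * ((Finset.range l).filter fun j => ¬ unbl I k c x j).card := (hB x hx).2
      have a2 : ((Finset.range l).filter fun j => ¬ unbl I k c x j) ⊆
          Pf x ∪ (Pf x).image fun i => i - 1 := by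
        intro j hj
        obtain ⟨p1, p2⟩ := Finset.mem_filter.1 hj
        rw [Finset.mem_range] at p1
        obtain ⟨q1, q2 | q2⟩ := light_blocked p2
        · exact Finset.mem_union_left _ (Finset.mem_filter.2
            ⟨Finset.mem_range.2 (by omega), reach_mono q1 (Nat.le_succ _), q2⟩)
        · exact Finset.mem_union_right _ (Finset.mem_image.2 ⟨j + 1, Finset.mem_filter.2
            ⟨Finset.mem_range.2 (by omega), q1, q2⟩, by simp⟩)
      have a3 := Finset.card_le_card a2
      have a4 := Finset.card_union_le (Pf x) ((Pf x).image fun i => i - 1)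
      have a5 : ((Pf x).image fun i => i - 1).card ≤ (Pf x).card := Finset.card_image_le
      omega
    set P : Finset (ℕ × ℕ) := (B ×ˢ Finset.range (l + 1)).filter
      fun q => rch I k c q.1 q.2 ∧ cov k c (pth I k c q.1 q.2) with hP
    have h2 : P.card = ∑ x ∈ B, (Pf x).card := by
      rw [hP, Finset.card_filter, Finset.sum_product]
      refine Finset.sum_congr rfl fun x _ => ?_
      rw [hPf, Finset.card_filter]
    have h3 : P.card ≤ 2 * k ^ 2 * (X'.filter (cov k c)).card := by
      refine Finset.card_le_mul_card_image_of_maps_to (f := fun q => pth I k c q.1 q.2) ?_ _ ?_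
      · intro q hq
        obtain ⟨p1, p2, p3⟩ := Finset.mem_filter.1 hq
        obtain ⟨p4, p5⟩ := Finset.mem_product.1 p1
        exact Finset.mem_filter.2
          ⟨hmem q.1 p4 q.2 (by have := Finset.mem_range.1 p5; omega) p2, p3⟩
      · intro v _
        refine mult hV hc v _ fun q hq => ?_
        obtain ⟨p0, p6⟩ := Finset.mem_filter.1 hq
        obtain ⟨p1, p2, _⟩ := Finset.mem_filter.1 p0
        exact ⟨(hB q.1 (Finset.mem_product.1 p1).1).1, p2, p6⟩
    have h4 : l * B.card ≤ 4 * P.card := by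
      rw [h2, Finset.mul_sum, mul_comm l, ← smul_eq_mul]
      exact Finset.card_nsmul_le_sum _ _ _ h1
    calc l * B.card ≤ 4 * P.card := h4
      _ ≤ 4 * (2 * k ^ 2 * (X'.filter (cov k c)).card) := Nat.mul_le_mul_left _ h3
      _ = 8 * k ^ 2 * (X'.filter (cov k c)).card := by ring

/-- If `X` violates `Light`, then `|X| ≤ D cov` (against `G3`) or `|X| ≤ D hole`; then `G4` gives a
time `t` and a set `B` of half-blocked vertices with `|X| ≤ 2 D |B|`.  Add to `X` the first
`l + 1` vertices of their paths: the new connected set `X'` has `|X'| ≤ 2 l |B|`, and by `mult`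
`l |B| / 2 ≤ 4 k ^ 2 cov X'`, against `G3`. -/
theorem light_of {a l k g T m0 : ℕ} {I : Inst} (hV : I.Valid k g) {w : ℕ → ℕ → Fin a × Fin l}
    (hl : 2 * (16 * (k + 1) ^ 2) + 1 ≤ l)
    (h3 : G3 I k m0 (16 * (k + 1) ^ 2) (run1 I k w T))
    (h4 : G4 I k T m0 (16 * (k + 1) ^ 2) w) :
    Light I k m0 (8 * (k + 1) ^ 2) (run1 I k w T) := by
  intro X b hX hcon hm
  by_contra hlt
  have a1 := h3 X b hX hcon hm
  set u := (X.filter (cov k (run1 I k w T))).card with hu
  set v := (X.filter (hole I (run1 I k w T))).card with hv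
  have a2 : X.card ≤ 16 * (k + 1) ^ 2 * v := by
    have e1 : 8 * (k + 1) ^ 2 * (u + v) = 8 * ((k + 1) ^ 2 * u) + 8 * ((k + 1) ^ 2 * v) := by ring
    have e2 : 16 * (k + 1) ^ 2 * u = 16 * ((k + 1) ^ 2 * u) := by ring
    have e3 : 16 * (k + 1) ^ 2 * v = 16 * ((k + 1) ^ 2 * v) := by ring
    omega
  obtain ⟨t, ht, a3⟩ := h4 X b hX hcon hm a2
  set B := X.filter fun x => hole I (run1 I k w t) x ∧ halfb I k l (run1 I k w t) x with hB
  obtain ⟨X', b1, b2, b3, b4, b5⟩ := light_extend (l := l) hV (run1_proper hV w t) X B b hX hcon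
    (Finset.filter_subset _ _) fun x hx => (Finset.mem_filter.1 hx).2
  have a4 := h3 X' b b2 b3 (hm.trans (Finset.card_le_card b1))
  have a5 : (X'.filter (cov k (run1 I k w t))).card ≤ (X'.filter (cov k (run1 I k w T))).card := by
    apply Finset.card_le_card
    intro y hy
    obtain ⟨p1, p2⟩ := Finset.mem_filter.1 hy
    refine Finset.mem_filter.2 ⟨p1, ?_⟩
    have := light_cov_mono hV w t (T - t) p2
    rwa [Nat.add_sub_cancel' ht.le] at this
  have a6 : 2 * (16 * (k + 1) ^ 2) * B.card ≤ l * B.card := Nat.mul_le_mul_right _ (by omega)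
  have a7 : 8 * k ^ 2 * (X'.filter (cov k (run1 I k w t))).card ≤
      8 * (k + 1) ^ 2 * (X'.filter (cov k (run1 I k w T))).card :=
    Nat.mul_le_mul (Nat.mul_le_mul_left _ (Nat.pow_le_pow_left (Nat.le_succ _) _)) a5
  have a8 : 16 * (k + 1) ^ 2 * (X'.filter (cov k (run1 I k w T))).card =
      2 * (8 * (k + 1) ^ 2 * (X'.filter (cov k (run1 I k w T))).card) := by ring
  omega

end Pool.Agent.Lib.MP_459a07_lc
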