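import Pool.Agent.Lib.MP_459a07_lc.Act
import Pool.Agent.Lib.MP_459a07_lc.Count

set_option autoImplicit false

namespace Pool.Agent.Lib.MP_459a07_lc

open Classical

theorem step1_fire {a l k : ℕ} {I : Inst} {c : Col} {z : ℕ → Fin a × Fin l} {x : ℕ}
    (hx : x ∈ I.S) (ha : active z x)
    (hu : ∀ u ∈ I.S, ∀ v ∈ I.S, active z u → active z v → u = v) :
    step1 I k c z = ev I k c x ((z x).2 : ℕ) := by
  have h1 : ∃! v, v ∈ I.S ∧ active z v := ⟨x, ⟨hx, ha⟩, fun y hy => hu y hy.1 x hx hy.2 ha⟩
  have h2 : (epsilon fun v => v ∈ I.S ∧ active z v) = x := by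
    have := epsilon_spec (p := fun v => v ∈ I.S ∧ active z v) ⟨x, hx, ha⟩
    exact hu _ this.1 x hx this.2 ha
  unfold step1
  rw [if_pos h1, h2]

theorem step1_moved {a l k : ℕ} {I : Inst} {c : Col} {z : ℕ → Fin a × Fin l} {v : ℕ}
    (h : step1 I k c z v ≠ c v) : ∃ x ∈ I.S, active z x := by
  by_contra hn
  apply h
  unfold step1
  rw [if_neg fun he => hn he.exists]

theorem hole_of_foot {I : Inst} {k : ℕ} {c : Col} {x j v : ℕ} (h : v ∈ foot I k c x j) :
    hole I c x := by
  by_contra hn
  unfold foot at h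
  rw [if_neg hn] at h
  exact Finset.notMem_empty _ h

/-- A new disagreement comes from an active vertex close to an old disagreement. -/
theorem step1_bad {a l k g g' v0 s ρ : ℕ} {I J : Inst} (hV : I.Valid k g) (hW : J.Valid k g')
    {c c' : Col} (hc : Proper I k c) (hc' : Proper J k c') {z z' : ℕ → Fin a × Fin l}
    (hu : ∀ u ∈ I.S, ∀ v ∈ I.S, active z u → active z v → u = v)
    (hu' : ∀ u ∈ J.S, ∀ v ∈ J.S, active z' u → active z' v → u = v)
    (hag : ∀ v ∈ ball I.N v0 ρ, SA I J v ∧ v ∈ I.S ∧ v ∈ J.S ∧ z v = z' v)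
    (hs : s + 2 * (l + 1) ≤ ρ) {v : ℕ} (hv : v ∈ ball I.N v0 s) (he : c v = c' v)
    (hne : step1 I k c z v ≠ step1 J k c' z' v) :
    ∃ x ∈ I.S, active z x ∧ v ∈ ball I.N x l ∧ ∃ v' ∈ ball I.N x l, c v' ≠ c' v' := by
  by_cases hA : step1 I k c z v = c v
  · have hB : step1 J k c' z' v ≠ c' v := fun h => hne (by rw [hA, h, he])
    obtain ⟨x, hxJ, hxa⟩ := step1_moved hB
    have hj : ((z' x).2 : ℕ) + 1 ≤ l := (z' x).2.2
    have f' := step1_fire (k := k) (c := c') hxJ hxa hu'
    have hvf : v ∈ foot J k c' x (z' x).2 := by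
      by_contra hn
      exact hB (by rw [f', ev_off hW hc' hn])
    have hxv : x ∈ ball I.N v (((z' x).2 : ℕ) + 1) := by
      rw [ball_congr (N' := J.N) fun b hb => (hag b (ball_mono (by omega) (ball_trans hv hb))).1.1]
      exact ball_symm hW.symm (foot_ball hW hc' hvf)
    have hx0 : x ∈ ball I.N v0 (s + l) := ball_mono (by omega) (ball_trans hv hxv)
    obtain ⟨hSA, hxI, -, hz⟩ := hag x (ball_mono (by omega) hx0)
    have hxa' : active z x := by
      unfold active at hxa ⊢
      rw [hz]
      exact hxa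
    have f := step1_fire (k := k) (c := c) hxI hxa' hu
    refine ⟨x, hxI, hxa', ball_mono hj (ball_symm hV.symm hxv), ?_⟩
    by_contra hn
    have hball : ball I.N x (((z' x).2 : ℕ) + 1) = ball J.N x (((z' x).2 : ℕ) + 1) :=
      ball_congr fun b hb => (hag b (ball_mono (by omega) (ball_trans hx0 hb))).1.1
    have hall : ∀ y ∈ foot J k c' x (z' x).2, c' y = c y := by
      intro y hy
      by_contra hy'
      refine hn ⟨y, ball_mono hj ?_, fun h => hy' h.symm⟩
      rw [hball]
      exact foot_ball hW hc' hy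
    have := (ev_local hW hV hc' hc (hole_of_foot hvf) ⟨hSA.1.symm, hSA.2.1.symm, hSA.2.2.symm⟩
      hall).2.2.2 v hvf
    exact hne (by rw [f, f', hz, this])
  · obtain ⟨x, hxI, hxa⟩ := step1_moved hA
    have hj : ((z x).2 : ℕ) + 1 ≤ l := (z x).2.2
    have f := step1_fire (k := k) (c := c) hxI hxa hu
    have hvf : v ∈ foot I k c x (z x).2 := by
      by_contra hn
      exact hA (by rw [f, ev_off hV hc hn])
    have hvx : v ∈ ball I.N x l := ball_mono hj (foot_ball hV hc hvf)
    have hx0 : x ∈ ball I.N v0 (s + l) := ball_trans hv (ball_symm hV.symm hvx)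
    obtain ⟨hSA, -, hxJ, hz⟩ := hag x (ball_mono (by omega) hx0)
    have hxa' : active z' x := by
      unfold active at hxa ⊢
      rw [← hz]
      exact hxa
    have f' := step1_fire (k := k) (c := c') hxJ hxa' hu'
    refine ⟨x, hxI, hxa, hvx, ?_⟩
    by_contra hn
    have hall : ∀ y ∈ foot I k c x (z x).2, c y = c' y := by
      intro y hy
      by_contra hy'
      exact hn ⟨y, ball_mono hj (foot_ball hV hc hy), hy'⟩
    have := (ev_local hV hW hc hc' (hole_of_foot hvf) hSA hall).2.2.2 v hvf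
    exact hne (by rw [f, f', ← hz, this])

/-- Disagreements travel only along time-increasing chains of active slots.  Induct on `t` for
the claim: for all `m`, if `v ∈ ball I.N v0 (ρ - 2 (l+1) (m+1))` has different rows at time `t`
then there is a chain of `m + 1` active pairs with times `< t` whose last vertex is within
`l + 1` of `v`. -/
theorem stage1_local {a l k g g' T m1 v0 r ρ : ℕ} {I J : Inst} (hV : I.Valid k g)
    (hW : J.Valid k g') {w w' : ℕ → ℕ → Fin a × Fin l} (h1 : G1 I T w) (h1' : G1 J T w')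
    (h2 : G2 I T m1 w)
    (hag : ∀ v ∈ ball I.N v0 ρ, SA I J v ∧ v ∈ I.S ∧ v ∈ J.S ∧ ∀ t < T, w t v = w' t v)
    (hρ : r + 2 * (l + 1) * (m1 + 1) ≤ ρ) :
    ∀ v ∈ ball I.N v0 r, run1 I k w T v = run1 J k w' T v := by
  have key : ∀ τ ≤ T, ∀ m s v, s + 2 * (l + 1) * (m + 1) ≤ ρ → v ∈ ball I.N v0 s →
      run1 I k w τ v ≠ run1 J k w' τ v → ∃ (t u : ℕ → ℕ),
        (∀ i ≤ m, t i < τ ∧ u i ∈ I.S ∧ active (w (t i)) (u i)) ∧
        (∀ i, i + 1 ≤ m → t i < t (i + 1) ∧ u (i + 1) ∈ ball I.N (u i) (2 * (l + 1))) ∧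
        v ∈ ball I.N (u m) l := by
    intro τ
    induction τ with
    | zero => intro _ m s v _ _ hne; exact (hne rfl).elim
    | succ τ ih =>
      intro hτ m s v hs hv hne
      by_cases he : run1 I k w τ v = run1 J k w' τ v
      · have hs' : s + 2 * (l + 1) ≤ ρ := by
          have : 2 * (l + 1) * (m + 1) = 2 * (l + 1) * m + 2 * (l + 1) := by ring
          omega
        obtain ⟨x, hxI, hxa, hvx, v', hv', hne'⟩ := step1_bad hV hW (run1_proper hV w τ)
          (run1_proper hW w' τ) (h1 τ (by omega)) (h1' τ (by omega))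
          (fun y hy => ⟨(hag y hy).1, (hag y hy).2.1, (hag y hy).2.2.1,
            (hag y hy).2.2.2 τ (by omega)⟩) hs' hv he hne
        cases m with
        | zero =>
          exact ⟨fun _ => τ, fun _ => x, fun i _ => ⟨Nat.lt_succ_self _, hxI, hxa⟩,
            fun i hi => by omega, hvx⟩
        | succ m =>
          have hv0 : v' ∈ ball I.N v0 (s + l + l) :=
            ball_trans (ball_trans hv (ball_symm hV.symm hvx)) hv'
          have hs2 : s + l + l + 2 * (l + 1) * (m + 1) ≤ ρ := by
            have : 2 * (l + 1) * (m + 1 + 1) = 2 * (l + 1) * (m + 1) + 2 * (l + 1) := by ring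
            omega
          obtain ⟨t, u, a1, a2, a3⟩ := ih (by omega) m _ v' hs2 hv0 hne'
          refine ⟨fun i => if i ≤ m then t i else τ, fun i => if i ≤ m then u i else x, ?_, ?_, ?_⟩
          · intro i _
            by_cases hi : i ≤ m
            · simp only [if_pos hi]
              exact ⟨Nat.lt_succ_of_lt (a1 i hi).1, (a1 i hi).2⟩
            · simp only [if_neg hi]
              exact ⟨Nat.lt_succ_self _, hxI, hxa⟩
          · intro i hi
            have hi' : i ≤ m := by omega
            by_cases hi2 : i + 1 ≤ m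
            · simp only [if_pos hi', if_pos hi2]
              exact a2 i hi2
            · have him : i = m := by omega
              simp only [if_pos hi', if_neg hi2]
              subst him
              exact ⟨(a1 i hi').1,
                ball_mono (by omega) (ball_trans a3 (ball_symm hV.symm hv'))⟩
          · simp only [if_neg (Nat.not_succ_le_self m)]
            exact hvx
      · obtain ⟨t, u, a1, a2, a3⟩ := ih (by omega) m s v hs hv he
        exact ⟨t, u, fun i hi => ⟨Nat.lt_succ_of_lt (a1 i hi).1, (a1 i hi).2⟩, a2, a3⟩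
  intro v hv
  by_contra hne
  obtain ⟨t, u, a1, a2, -⟩ := key T le_rfl m1 r v hρ hv hne
  exact h2 ⟨t, u, fun i hi => a1 i hi.le, fun i hi => a2 i hi.le⟩

end Pool.Agent.Lib.MP_459a07_lc
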