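import Pool.Agent.Lib.MP_459a07_lc.Act
import Pool.Agent.Lib.MP_459a07_lc.Count

set_option autoImplicit false

namespace Pool.Agent.Lib.MP_459a07_lc

open Classical

variable {I J : Inst} {k g g' m0 : ℕ} {c c' : Col}

/-- Footprint of step `s` of stage two. -/
noncomputable def foot2 (I : Inst) (k : ℕ) (c : Col) (s : ℕ) : Finset ℕ :=
  foot I k (run2 I k c s) (s / k) (jst I k (run2 I k c s) (s / k))

theorem stage2_run_proper (hV : I.Valid k g) (hc : Proper I k c) (s : ℕ) :
    Proper I k (run2 I k c s) := by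
  induction s with
  | zero => exact hc
  | succ s ih => exact ev_proper hV ih

theorem stage2_hole_back (hV : I.Valid k g) (hc : Proper I k c) (s : ℕ) {v : ℕ}
    (h : hole I (run2 I k c s) v) : hole I c v := by
  induction s with
  | zero => exact h
  | succ s ih => exact ih (hole_mono hV (stage2_run_proper hV hc s) h)

theorem stage2_foot_hole {x j y : ℕ} (h : y ∈ foot I k c x j) : hole I c x := by
  by_contra hn
  simp [foot, hn] at h

theorem stage2_mem_foot {x j y : ℕ} (h : hole I c x) :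
    y ∈ foot I k c x j ↔
      y = x ∨ y ∈ I.N x ∨ ∃ i, i < j + 2 ∧ rch I k c x i ∧ pth I k c x i = y := by
  simp only [foot, if_pos h, Finset.mem_union, Finset.mem_insert, Finset.mem_image,
    Finset.mem_filter, Finset.mem_range]
  constructor
  · rintro ((h1 | h1) | ⟨i, ⟨h1, h2⟩, h3⟩)
    · exact Or.inl h1
    · exact Or.inr (Or.inl h1)
    · exact Or.inr (Or.inr ⟨i, h1, h2, h3⟩)
  · rintro (h1 | h1 | ⟨i, h1, h2, h3⟩)
    · exact Or.inl (Or.inl h1)
    · exact Or.inl (Or.inr h1)
    · exact Or.inr ⟨i, ⟨h1, h2⟩, h3⟩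

theorem stage2_self_foot {x j : ℕ} (h : hole I c x) : x ∈ foot I k c x j :=
  (stage2_mem_foot h).2 (Or.inl rfl)

theorem stage2_pth_foot {x j i : ℕ} (h : hole I c x) (hi : i < j + 2) (hr : rch I k c x i) :
    pth I k c x i ∈ foot I k c x j :=
  (stage2_mem_foot h).2 (Or.inr (Or.inr ⟨i, hi, hr, rfl⟩))

theorem stage2_blocked {x j : ℕ} (h : ¬ unbl I k c x j) :
    rch I k c x (j + 1) ∧ (cov k c (pth I k c x j) ∨ cov k c (pth I k c x (j + 1))) := by
  unfold unbl unb at h
  rw [Classical.not_imp, not_and_or] at h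
  exact h

theorem stage2_lt_jst {x i : ℕ} (h : i < jst I k c x) : ¬ unbl I k c x i :=
  Nat.notMem_of_lt_sInf h

theorem stage2_rch_mono {x i i' : ℕ} (h : rch I k c x i) (hi : i' ≤ i) : rch I k c x i' :=
  reach_mono h hi

theorem stage2_rch_jst {x : ℕ} : rch I k c x (jst I k c x) := by
  rcases Nat.eq_zero_or_pos (jst I k c x) with h | h
  · rw [h]; exact reach_zero
  · obtain ⟨m, hm⟩ : ∃ m, jst I k c x = m + 1 := ⟨jst I k c x - 1, by omega⟩
    have := (stage2_blocked (stage2_lt_jst (I := I) (k := k) (c := c) (x := x) (i := m)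
      (by omega))).1
    rwa [hm]

theorem stage2_pth_adj (hV : I.Valid k g) (hc : Proper I k c) {x i : ℕ} (h : hole I c x)
    (hr : rch I k c x (i + 1)) : pth I k c x (i + 1) ∈ I.N (pth I k c x i) := by
  obtain ⟨h1, _, _, h4, _⟩ := albe_spec hV hc h
  exact path_adj hc (by omega) (by omega) hr

theorem stage2_card_foot (hV : I.Valid k g) (hc : Proper I k c) {x j n : ℕ} (h : hole I c x)
    (hr : rch I k c x n) (hn : n ≤ j + 1) : n + 1 ≤ (foot I k c x j).card := by
  have h1 : ((Finset.range (n + 1)).image (pth I k c x)).card = n + 1 := by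
    rw [Finset.card_image_of_injOn, Finset.card_range]
    intro i hi i' hi' he
    simp only [Finset.coe_range, Set.mem_Iio] at hi hi'
    exact pth_inj hV hc h (stage2_rch_mono hr (by omega)) (stage2_rch_mono hr (by omega)) he
  rw [← h1]
  apply Finset.card_le_card
  intro y hy
  obtain ⟨i, hi, rfl⟩ := Finset.mem_image.1 hy
  rw [Finset.mem_range] at hi
  exact stage2_pth_foot h (by omega) (stage2_rch_mono hr (by omega))

theorem stage2_unbl_jst (hV : I.Valid k g) (hc : Proper I k c) {x : ℕ} (h : hole I c x) :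
    unbl I k c x (jst I k c x) := by
  have hne : {j | unbl I k c x j}.Nonempty := by
    refine ⟨I.S.card, ?_⟩
    by_contra hb
    have hr := (stage2_blocked hb).1
    have h1 := stage2_card_foot (j := I.S.card) hV hc h hr le_rfl
    have h2 := Finset.card_le_card (foot_sub (x := x) (j := I.S.card) hV hc)
    omega
  exact Nat.sInf_mem hne

theorem stage2_cov_src (hV : I.Valid k g) (hc : Proper I k c) (s : ℕ) {v : ℕ}
    (h : cov k (run2 I k c s) v) :
    cov k c v ∨ ∃ t, v ∈ foot2 I k c t ∧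
      (v = pth I k (run2 I k c t) (t / k) (jst I k (run2 I k c t) (t / k)) ∨
       v = pth I k (run2 I k c t) (t / k) (jst I k (run2 I k c t) (t / k) + 1)) := by
  induction s with
  | zero => exact Or.inl h
  | succ s ih =>
    rcases ev_cov_new hV (stage2_run_proper hV hc s) h with h1 | ⟨h1, h2, h3⟩
    · exact ih h1
    · refine Or.inr ⟨s, ?_, h3⟩
      rcases h3 with rfl | rfl
      · exact stage2_pth_foot h1 (by omega) (stage2_rch_mono h2 (by omega))
      · exact stage2_pth_foot h1 (by omega) h2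

/-- A union of footprints that is closed under meeting a footprint is heavy. -/
theorem heavy (hV : I.Valid k g) (hk : 1 ≤ k) (hc : Proper I k c) (Y : Finset ℕ)
    (h1 : ∀ y ∈ Y, ∃ s, y ∈ foot2 I k c s)
    (h2 : ∀ s, ∀ y ∈ Y, y ∈ foot2 I k c s → foot2 I k c s ⊆ Y) :
    Y.card ≤ 2 * (k + 1) ^ 2 * ((Y.filter (cov k c)).card + (Y.filter (hole I c)).card) := by
  set H := Y.filter (hole I c) with hH
  set C := Y.filter (cov k c) with hC
  set St : Finset ℕ := H.biUnion fun x => (Finset.range k).image fun r => k * x + r with hSt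
  set e1 : ℕ → ℕ := fun t => pth I k (run2 I k c t) (t / k) (jst I k (run2 I k c t) (t / k))
    with he1
  set e2 : ℕ → ℕ := fun t => pth I k (run2 I k c t) (t / k) (jst I k (run2 I k c t) (t / k) + 1)
    with he2
  set Z : Finset ℕ := C ∪ H ∪ St.image e1 ∪ St.image e2 with hZ
  have hStc : St.card ≤ k * H.card := by
    rw [mul_comm]
    refine Finset.card_biUnion_le_card_mul _ _ _ fun x _ => ?_
    exact Finset.card_image_le.trans (by simp)
  have hx : ∀ t, ∀ y ∈ Y, y ∈ foot2 I k c t → t / k ∈ H := by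
    intro t y hy hf
    have hh := stage2_foot_hole hf
    exact Finset.mem_filter.2 ⟨h2 t y hy hf (stage2_self_foot hh), stage2_hole_back hV hc t hh⟩
  have ht : ∀ t, ∀ y ∈ Y, y ∈ foot2 I k c t → t ∈ St := by
    intro t y hy hf
    refine Finset.mem_biUnion.2 ⟨t / k, hx t y hy hf, Finset.mem_image.2 ⟨t % k, ?_, ?_⟩⟩
    · exact Finset.mem_range.2 (Nat.mod_lt _ (by omega))
    · exact Nat.div_add_mod t k
  have hcov : ∀ s, ∀ v ∈ Y, cov k (run2 I k c s) v → v ∈ Z := by
    intro s v hv hcv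
    rcases stage2_cov_src hV hc s hcv with h | ⟨t, hf, h | h⟩
    · simp only [hZ, Finset.mem_union]
      exact Or.inl (Or.inl (Or.inl (Finset.mem_filter.2 ⟨hv, h⟩)))
    · simp only [hZ, Finset.mem_union]
      exact Or.inl (Or.inr (Finset.mem_image.2 ⟨t, ht t v hv hf, h.symm⟩))
    · simp only [hZ, Finset.mem_union]
      exact Or.inr (Finset.mem_image.2 ⟨t, ht t v hv hf, h.symm⟩)
  have hsub : Y ⊆ Z.biUnion fun v => insert v (I.N v) := by
    intro y hy
    obtain ⟨s, hf⟩ := h1 y hy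
    have hh := stage2_foot_hole hf
    have hxZ : s / k ∈ Z := by
      simp only [hZ, Finset.mem_union]
      exact Or.inl (Or.inl (Or.inr (hx s y hy hf)))
    rcases (stage2_mem_foot hh).1 hf with h | h | ⟨i, hi, hr, he⟩
    · exact Finset.mem_biUnion.2 ⟨s / k, hxZ, by simp [h]⟩
    · exact Finset.mem_biUnion.2 ⟨s / k, hxZ, by simp [h]⟩
    · rcases Nat.eq_zero_or_pos i with rfl | hpos
      · exact Finset.mem_biUnion.2 ⟨s / k, hxZ, by rw [← he]; simp [pth, path]⟩
      · obtain ⟨m, rfl⟩ : ∃ m, i = m + 1 := ⟨i - 1, by omega⟩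
        by_cases hm : m < jst I k (run2 I k c s) (s / k)
        · rcases (stage2_blocked (stage2_lt_jst hm)).2 with hcv | hcv
          · have hmem : pth I k (run2 I k c s) (s / k) m ∈ Y :=
              h2 s y hy hf (stage2_pth_foot hh (by omega) (stage2_rch_mono hr (by omega)))
            refine Finset.mem_biUnion.2 ⟨_, hcov s _ hmem hcv, ?_⟩
            rw [← he]
            exact Finset.mem_insert_of_mem
              (stage2_pth_adj hV (stage2_run_proper hV hc s) hh hr)
          · rw [he] at hcv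
            exact Finset.mem_biUnion.2 ⟨y, hcov s y hy hcv, by simp⟩
        · have hm' : m = jst I k (run2 I k c s) (s / k) := by omega
          refine Finset.mem_biUnion.2 ⟨y, ?_, by simp⟩
          simp only [hZ, Finset.mem_union]
          refine Or.inr (Finset.mem_image.2 ⟨s, ht s y hy hf, ?_⟩)
          rw [← he, hm']
  have hZc : Z.card ≤ C.card + H.card + k * H.card + k * H.card := by
    have a1 := Finset.card_union_le (C ∪ H ∪ St.image e1) (St.image e2)
    have a2 := Finset.card_union_le (C ∪ H) (St.image e1)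
    have a3 := Finset.card_union_le C H
    have a4 : (St.image e1).card ≤ St.card := Finset.card_image_le
    have a5 : (St.image e2).card ≤ St.card := Finset.card_image_le
    rw [hZ]
    omega
  have hY : Y.card ≤ Z.card * (k + 1) := by
    refine (Finset.card_le_card hsub).trans ?_
    refine Finset.card_biUnion_le_card_mul _ _ _ fun v _ => ?_
    exact (Finset.card_insert_le _ _).trans (Nat.succ_le_succ (hV.deg v))
  calc Y.card ≤ Z.card * (k + 1) := hY
    _ ≤ (C.card + H.card + k * H.card + k * H.card) * (k + 1) := Nat.mul_le_mul_right _ hZc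
    _ ≤ 2 * (k + 1) ^ 2 * (C.card + H.card) := by
        nlinarith [Nat.zero_le (k * C.card), Nat.zero_le (k * k * C.card),
          Nat.zero_le (k * H.card)]

/-- Every footprint lies in a small closed connected union of footprints. -/
theorem exists_comp (hV : I.Valid k g) (hk : 1 ≤ k) (hc : Proper I k c)
    (hL : Light I k m0 (8 * (k + 1) ^ 2) c) (s b : ℕ) (hb : b ∈ foot2 I k c s) :
    ∃ Y : Finset ℕ, Conn I.N Y b ∧ Y.card < m0 ∧ Y ⊆ I.S ∧ (∀ y ∈ Y, ∃ s, y ∈ foot2 I k c s) ∧
      ∀ s, ∀ y ∈ Y, y ∈ foot2 I k c s → foot2 I k c s ⊆ Y := by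
  set R : ℕ → ℕ → Prop := fun u v => ∃ t, u ∈ foot2 I k c t ∧ v ∈ foot2 I k c t with hR
  set Y := I.S.filter fun y => Relation.ReflTransGen R b y with hY
  have hfs : ∀ t, foot2 I k c t ⊆ I.S := fun t => foot_sub hV (stage2_run_proper hV hc t)
  have hA : ∀ y, Relation.ReflTransGen R b y → ∃ t, y ∈ foot2 I k c t := by
    intro y hy
    induction hy with
    | refl => exact ⟨s, hb⟩
    | tail _ h _ => obtain ⟨t, _, h'⟩ := h; exact ⟨t, h'⟩
  have hB : ∀ t y, Relation.ReflTransGen R b y → y ∈ foot2 I k c t → foot2 I k c t ⊆ Y := by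
    intro t y hy hf z hz
    exact Finset.mem_filter.2 ⟨hfs t hz, hy.tail ⟨t, hf, hz⟩⟩
  have h1 : ∀ y ∈ Y, ∃ s, y ∈ foot2 I k c s := fun y hy => hA y (Finset.mem_filter.1 hy).2
  have h2 : ∀ s, ∀ y ∈ Y, y ∈ foot2 I k c s → foot2 I k c s ⊆ Y :=
    fun t y hy hf => hB t y (Finset.mem_filter.1 hy).2 hf
  have hconn : Conn I.N Y b := by
    refine ⟨Finset.mem_filter.2 ⟨hfs s hb, Relation.ReflTransGen.refl⟩, ?_⟩
    have key : ∀ y, Relation.ReflTransGen R b y →
        Relation.ReflTransGen (fun a a' => a ∈ Y ∧ a' ∈ Y ∧ a' ∈ I.N a) b y := by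
      intro y hy
      induction hy with
      | refl => exact Relation.ReflTransGen.refl
      | @tail u v hu h ih =>
        obtain ⟨t, h1', h2'⟩ := h
        have hsub := hB t u hu h1'
        have hcn : Conn I.N (foot2 I k c t) u :=
          Conn.rebase hV.symm (foot_conn hV (stage2_run_proper hV hc t) (stage2_foot_hole h1')) h1'
        refine ih.trans (Relation.ReflTransGen.mono ?_ u v (hcn.2 v h2'))
        rintro a a' ⟨p1, p2, p3⟩
        exact ⟨hsub p1, hsub p2, p3⟩
    exact fun y hy => key y (Finset.mem_filter.1 hy).2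
  refine ⟨Y, hconn, ?_, Finset.filter_subset _ _, h1, h2⟩
  by_contra hlt
  have a1 := hL Y b (Finset.filter_subset _ _) hconn (by omega)
  have a2 := heavy hV hk hc Y h1 h2
  have a3 : 2 * (k + 1) ^ 2 * ((Y.filter (cov k c)).card + (Y.filter (hole I c)).card) ≤
      8 * (k + 1) ^ 2 * ((Y.filter (cov k c)).card + (Y.filter (hole I c)).card) :=
    Nat.mul_le_mul_right _ (Nat.mul_le_mul_right _ (by norm_num))
  omega

theorem stage2_nh_zero {x : ℕ} (h : ¬ hole I c x) : nh I c x = 0 := by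
  unfold nh
  rw [Finset.card_eq_zero, Finset.filter_eq_empty_iff]
  intro y hy hh
  exact h ⟨y, hy, hh.1, hh.2⟩

theorem stage2_nh_later (hV : I.Valid k g) (hc : Proper I k c) (x s d : ℕ) :
    nh I (run2 I k c (s + d)) x ≤ nh I (run2 I k c s) x := by
  induction d with
  | zero => exact le_rfl
  | succ d ih => exact (nh_mono hV (stage2_run_proper hV hc (s + d))).trans ih

theorem stage2_nh_run (hV : I.Valid k g) (hk : 1 ≤ k) (hc : Proper I k c)
    (hL : Light I k m0 (8 * (k + 1) ^ 2) c) (hg : m0 ≤ g) (x r : ℕ) (hr : r ≤ k) :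
    nh I (run2 I k c (k * x + r)) x ≤ k - r := by
  induction r with
  | zero => exact (Finset.card_filter_le _ _).trans (hV.deg x)
  | succ r ih =>
    have ih' := ih (by omega)
    have hdiv : (k * x + r) / k = x := by
      rw [Nat.mul_add_div (by omega), Nat.div_eq_of_lt (by omega), Nat.add_zero]
    have hp := stage2_run_proper hV hc (k * x + r)
    have hstep : run2 I k c (k * x + (r + 1)) =
        ev I k (run2 I k c (k * x + r)) x (jst I k (run2 I k c (k * x + r)) x) := by
      rw [← add_assoc]; simp only [run2, hdiv]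
    rw [hstep]
    by_cases hh : hole I (run2 I k c (k * x + r)) x
    · have hf : x ∈ foot2 I k c (k * x + r) := by
        unfold foot2; rw [hdiv]; exact stage2_self_foot hh
      obtain ⟨Y, hY1, hY2, _, _, hY5⟩ := exists_comp hV hk hc hL _ x hf
      have hs := Finset.card_le_card (hY5 _ x hY1.1 hf)
      have hcard := stage2_card_foot (j := jst I k (run2 I k c (k * x + r)) x) hV hp hh
        stage2_rch_jst (Nat.le_succ _)
      unfold foot2 at hs
      rw [hdiv] at hs
      have := nh_lt hV hp hh (stage2_unbl_jst hV hp hh) (by omega)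
      omega
    · have := nh_mono (x := x) (j := jst I k (run2 I k c (k * x + r)) x) (v := x) hV hp
      rw [stage2_nh_zero hh] at this
      omega

theorem fin2_total (hV : I.Valid k g) (hk : 1 ≤ k) (hc : Proper I k c)
    (hL : Light I k m0 (8 * (k + 1) ^ 2) c) (hg : m0 ≤ g) :
    Proper I k (fin2 I k c) ∧ ∀ x, ∀ y ∈ I.N x, fin2 I k c x y ≠ 0 := by
  have hp : Proper I k (fin2 I k c) := stage2_run_proper hV hc _
  have key : ∀ x, ∀ y ∈ I.N x, I.ok x y → fin2 I k c x y ≠ 0 := by
    intro x y hy hok h0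
    have hxS : x ≤ I.S.sup id := Finset.le_sup (f := id) (hV.sub x y hy)
    have h1 := stage2_nh_run hV hk hc hL hg x k le_rfl
    obtain ⟨d, hd⟩ : ∃ d, k * (I.S.sup id + 1) = k * x + k + d :=
      ⟨k * (I.S.sup id + 1) - (k * x + k), by
        have : k * x + k ≤ k * (I.S.sup id + 1) := by nlinarith
        omega⟩
    have h2 := stage2_nh_later hV hc x (k * x + k) d
    rw [← hd] at h2
    have h3 : nh I (fin2 I k c) x = 0 := by unfold fin2; omega
    unfold nh at h3
    rw [Finset.card_eq_zero, Finset.filter_eq_empty_iff] at h3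
    exact h3 hy ⟨hok, h0⟩
  refine ⟨hp, fun x y hy => ?_⟩
  rcases hV.cover x y hy with h | h
  · exact key x y hy h
  · rw [hp.symm]; exact key y x (hV.symm x y hy) h

theorem stage2_SA_symm {v : ℕ} (h : SA I J v) : SA J I v := ⟨h.1.symm, h.2.1.symm, h.2.2.symm⟩

theorem stage2_hole_congr {v : ℕ} (h : SA I J v) (he : c v = c' v) (hh : hole I c v) :
    hole J c' v := by
  obtain ⟨y, h1, h2, h3⟩ := hh
  exact ⟨y, h.1 ▸ h1, h.2.2 ▸ h2, he ▸ h3⟩

theorem stage2_step_agree (hV : I.Valid k g) (hW : J.Valid k g') (hc : Proper I k c)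
    (hc' : Proper J k c') {x : ℕ} (U : Finset ℕ) (hSA : ∀ v ∈ U, SA I J v)
    (hag : ∀ v ∈ U, c v = c' v) (hh : hole I c x) (hsub : foot I k c x (jst I k c x) ⊆ U) :
    ∀ v ∈ U, ev I k c x (jst I k c x) v = ev J k c' x (jst J k c' x) v := by
  obtain ⟨_, h2, h3, h4⟩ := ev_local (j := jst I k c x) hV hW hc hc' hh
    (hSA x (hsub (stage2_self_foot hh))) fun v hv => hag v (hsub hv)
  have hj : jst J k c' x = jst I k c x := by
    have a1 : unbl J k c' x (jst I k c x) := (h3 _ le_rfl).1 (stage2_unbl_jst hV hc hh)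
    apply le_antisymm (Nat.sInf_le a1)
    by_contra hlt
    have hlt' : jst J k c' x < jst I k c x := by
      unfold jst at hlt ⊢; omega
    have a2 : unbl J k c' x (jst J k c' x) := Nat.sInf_mem (s := {j | unbl J k c' x j}) ⟨_, a1⟩
    exact stage2_lt_jst hlt' ((h3 _ hlt'.le).2 a2)
  intro v hv
  rw [hj]
  by_cases hf : v ∈ foot I k c x (jst I k c x)
  · exact h4 v hf
  · rw [ev_off hV hc hf, ev_off hW hc' (by rw [h2]; exact hf), hag v hv]

theorem stage2_stable (hV : I.Valid k g) (hk : 1 ≤ k) (d : ℕ) :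
    run2 I k c (k * (I.S.sup id + 1) + d) = fin2 I k c := by
  induction d with
  | zero => rfl
  | succ d ih =>
    rw [← add_assoc]
    simp only [run2]
    rw [ev, if_neg, ih]
    rintro ⟨⟨y, hy, _⟩, _⟩
    have h1 : (k * (I.S.sup id + 1) + d) / k ≤ I.S.sup id :=
      Finset.le_sup (f := id) (hV.sub _ y hy)
    rw [Nat.mul_add_div (by omega)] at h1
    have h2 := Nat.zero_le (d / k)
    omega

/-- The candidate sets: the root together with closed unions of footprints of both runs. -/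
def stage2_cand (I J : Inst) (k m0 : ℕ) (c c' : Col) (v0 : ℕ) (U : Finset ℕ) : Prop :=
  Conn I.N U v0 ∧ U.card < m0 ∧ ∃ A B : Finset ℕ, U = insert v0 (A ∪ B) ∧
    (∀ y ∈ A, ∃ s, y ∈ foot2 I k c s) ∧
    (∀ s, ∀ y ∈ A, y ∈ foot2 I k c s → foot2 I k c s ⊆ A) ∧
    (∀ y ∈ B, ∃ s, y ∈ foot2 J k c' s) ∧
    (∀ s, ∀ y ∈ B, y ∈ foot2 J k c' s → foot2 J k c' s ⊆ B)

theorem stage2_small (hV : I.Valid k g) (hW : J.Valid k g') (hk : 1 ≤ k) (hc : Proper I k c)
    (hc' : Proper J k c') (hL : Light I k m0 (8 * (k + 1) ^ 2) c) (hm : 2 ≤ m0) {v0 : ℕ}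
    (A B : Finset ℕ) (hconn : Conn I.N (insert v0 (A ∪ B)) v0)
    (hag : ∀ v ∈ insert v0 (A ∪ B), SA I J v ∧ v ∈ I.S ∧ v ∈ J.S ∧ c v = c' v)
    (a1 : ∀ y ∈ A, ∃ s, y ∈ foot2 I k c s)
    (a2 : ∀ s, ∀ y ∈ A, y ∈ foot2 I k c s → foot2 I k c s ⊆ A)
    (b1 : ∀ y ∈ B, ∃ s, y ∈ foot2 J k c' s)
    (b2 : ∀ s, ∀ y ∈ B, y ∈ foot2 J k c' s → foot2 J k c' s ⊆ B) :
    (insert v0 (A ∪ B)).card < m0 := by
  set U := insert v0 (A ∪ B) with hU
  have hAU : A ⊆ U := fun y hy => Finset.mem_insert_of_mem (Finset.mem_union_left _ hy)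
  have hBU : B ⊆ U := fun y hy => Finset.mem_insert_of_mem (Finset.mem_union_right _ hy)
  by_contra hlt
  have l1 := hL U v0 (fun v hv => (hag v hv).2.1) hconn (by omega)
  have l2 := heavy hV hk hc A a1 a2
  have l3 := heavy hW hk hc' B b1 b2
  have c1 : (A.filter (cov k c)).card ≤ (U.filter (cov k c)).card :=
    Finset.card_le_card (Finset.filter_subset_filter _ hAU)
  have c2 : (A.filter (hole I c)).card ≤ (U.filter (hole I c)).card :=
    Finset.card_le_card (Finset.filter_subset_filter _ hAU)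
  have c3 : (B.filter (cov k c')).card ≤ (U.filter (cov k c)).card := by
    apply Finset.card_le_card
    intro y hy
    obtain ⟨p1, p2⟩ := Finset.mem_filter.1 hy
    refine Finset.mem_filter.2 ⟨hBU p1, ?_⟩
    unfold cov at p2 ⊢
    rwa [(hag y (hBU p1)).2.2.2]
  have c4 : (B.filter (hole J c')).card ≤ (U.filter (hole I c)).card := by
    apply Finset.card_le_card
    intro y hy
    obtain ⟨p1, p2⟩ := Finset.mem_filter.1 hy
    exact Finset.mem_filter.2 ⟨hBU p1, stage2_hole_congr (stage2_SA_symm (hag y (hBU p1)).1)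
      (hag y (hBU p1)).2.2.2.symm p2⟩
  have c5 : U.card ≤ A.card + B.card + 1 :=
    (Finset.card_insert_le _ _).trans (Nat.succ_le_succ (Finset.card_union_le _ _))
  set Wt := (U.filter (cov k c)).card + (U.filter (hole I c)).card with hWt
  have d1 : A.card ≤ 2 * (k + 1) ^ 2 * Wt := l2.trans (Nat.mul_le_mul_left _ (by omega))
  have d2 : B.card ≤ 2 * (k + 1) ^ 2 * Wt := l3.trans (Nat.mul_le_mul_left _ (by omega))
  have d3 : 8 * (k + 1) ^ 2 * Wt = 4 * (2 * (k + 1) ^ 2 * Wt) := by ring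
  omega

theorem stage2_local (hV : I.Valid k g) (hW : J.Valid k g') (hk : 1 ≤ k) (hc : Proper I k c)
    (hc' : Proper J k c') (hL : Light I k m0 (8 * (k + 1) ^ 2) c)
    (hL' : Light J k m0 (8 * (k + 1) ^ 2) c') (hm : 2 ≤ m0) {v0 : ℕ}
    (hag : ∀ v ∈ ball I.N v0 (2 * m0), SA I J v ∧ v ∈ I.S ∧ v ∈ J.S ∧ c v = c' v) :
    fin2 I k c v0 = fin2 J k c' v0 := by
  have hball : ball I.N v0 (2 * m0) = ball J.N v0 (2 * m0) := by
    obtain ⟨r, hr⟩ : ∃ r, 2 * m0 = r + 1 := ⟨2 * m0 - 1, by omega⟩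
    rw [hr]
    exact ball_congr fun a ha => (hag a (ball_mono (by omega) ha)).1.1
  have h0 : stage2_cand I J k m0 c c' v0 {v0} := by
    refine ⟨⟨by simp, ?_⟩, by simp; omega, ∅, ∅, by simp, by simp, by simp, by simp, by simp⟩
    intro y hy
    rw [Finset.mem_singleton.1 hy]
  obtain ⟨U, hU, hmax⟩ : ∃ U, stage2_cand I J k m0 c c' v0 U ∧
      ∀ U', stage2_cand I J k m0 c c' v0 U' → U'.card ≤ U.card := by
    have hne : {n | ∃ U, stage2_cand I J k m0 c c' v0 U ∧ U.card = n}.Nonempty :=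
      ⟨_, {v0}, h0, rfl⟩
    have hbd : BddAbove {n | ∃ U, stage2_cand I J k m0 c c' v0 U ∧ U.card = n} :=
      ⟨m0, by rintro n ⟨U, hU, rfl⟩; exact hU.2.1.le⟩
    obtain ⟨U, hU, hn⟩ := Nat.sSup_mem hne hbd
    exact ⟨U, hU, fun U' hU' => hn ▸ le_csSup hbd ⟨U', hU', rfl⟩⟩
  obtain ⟨hcon, hcard, A, B, hAB, a1, a2, b1, b2⟩ := hU
  have hUb : U ⊆ ball I.N v0 (2 * m0) := hcon.sub_ball.trans (ball_mono (by omega))
  have clI : ∀ s, ∀ y ∈ U, y ∈ foot2 I k c s → foot2 I k c s ⊆ U := by
    intro s y hy hf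
    obtain ⟨Y, y1, y2, _, y4, y5⟩ := exists_comp hV hk hc hL s y hf
    have hE : U ∪ Y = insert v0 ((A ∪ Y) ∪ B) := by
      rw [hAB]; ext z; simp only [Finset.mem_union, Finset.mem_insert]; tauto
    have hcon' : Conn I.N (U ∪ Y) v0 := hcon.union y1 hy
    have hb' : U ∪ Y ⊆ ball I.N v0 (2 * m0) :=
      hcon'.sub_ball.trans (ball_mono (by have := Finset.card_union_le U Y; omega))
    have a1' : ∀ z ∈ A ∪ Y, ∃ s, z ∈ foot2 I k c s := by
      intro z hz
      rcases Finset.mem_union.1 hz with h | h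
      · exact a1 z h
      · exact y4 z h
    have a2' : ∀ s, ∀ z ∈ A ∪ Y, z ∈ foot2 I k c s → foot2 I k c s ⊆ A ∪ Y := by
      intro t z hz hf'
      rcases Finset.mem_union.1 hz with h | h
      · exact (a2 t z h hf').trans Finset.subset_union_left
      · exact (y5 t z h hf').trans Finset.subset_union_right
    have hsm := stage2_small hV hW hk hc hc' hL hm (A ∪ Y) B (hE ▸ hcon')
      (fun v hv => hag v (hb' (hE ▸ hv))) a1' a2' b1 b2
    have hle := hmax (U ∪ Y) ⟨hcon', hE ▸ hsm, A ∪ Y, B, hE, a1', a2', b1, b2⟩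
    have heq : U = U ∪ Y := Finset.eq_of_subset_of_card_le Finset.subset_union_left hle
    rw [heq]
    exact (y5 s y y1.1 hf).trans Finset.subset_union_right
  have clJ : ∀ s, ∀ y ∈ U, y ∈ foot2 J k c' s → foot2 J k c' s ⊆ U := by
    intro s y hy hf
    obtain ⟨Y, y1, y2, _, y4, y5⟩ := exists_comp hW hk hc' hL' s y hf
    have hE : U ∪ Y = insert v0 (A ∪ (B ∪ Y)) := by
      rw [hAB]; ext z; simp only [Finset.mem_union, Finset.mem_insert]; tauto
    have hconJ : Conn J.N (U ∪ Y) v0 :=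
      (hcon.congr fun a ha => (hag a (hUb ha)).1.1).union y1 hy
    have hb' : U ∪ Y ⊆ ball I.N v0 (2 * m0) := by
      rw [hball]
      exact hconJ.sub_ball.trans (ball_mono (by have := Finset.card_union_le U Y; omega))
    have hcon' : Conn I.N (U ∪ Y) v0 := hconJ.congr fun a ha => (hag a (hb' ha)).1.1.symm
    have b1' : ∀ z ∈ B ∪ Y, ∃ s, z ∈ foot2 J k c' s := by
      intro z hz
      rcases Finset.mem_union.1 hz with h | h
      · exact b1 z h
      · exact y4 z h
    have b2' : ∀ s, ∀ z ∈ B ∪ Y, z ∈ foot2 J k c' s → foot2 J k c' s ⊆ B ∪ Y := by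
      intro t z hz hf'
      rcases Finset.mem_union.1 hz with h | h
      · exact (b2 t z h hf').trans Finset.subset_union_left
      · exact (y5 t z h hf').trans Finset.subset_union_right
    have hsm := stage2_small hV hW hk hc hc' hL hm A (B ∪ Y) (hE ▸ hcon')
      (fun v hv => hag v (hb' (hE ▸ hv))) a1 a2 b1' b2'
    have hle := hmax (U ∪ Y) ⟨hcon', hE ▸ hsm, A, B ∪ Y, hE, a1, a2, b1', b2'⟩
    have heq : U = U ∪ Y := Finset.eq_of_subset_of_card_le Finset.subset_union_left hle
    rw [heq]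
    exact (y5 s y y1.1 hf).trans Finset.subset_union_right
  have hSA : ∀ v ∈ U, SA I J v := fun v hv => (hag v (hUb hv)).1
  have hrun : ∀ s, ∀ v ∈ U, run2 I k c s v = run2 J k c' s v := by
    intro s
    induction s with
    | zero => exact fun v hv => (hag v (hUb hv)).2.2.2
    | succ s ih =>
      intro v hv
      have hp := stage2_run_proper hV hc s
      have hp' := stage2_run_proper hW hc' s
      simp only [run2]
      by_cases hf : v ∈ foot2 I k c s
      · exact stage2_step_agree hV hW hp hp' U hSA ih (stage2_foot_hole hf) (clI s v hv hf) v hv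
      · by_cases hf' : v ∈ foot2 J k c' s
        · exact (stage2_step_agree hW hV hp' hp U (fun u hu => stage2_SA_symm (hSA u hu))
            (fun u hu => (ih u hu).symm) (stage2_foot_hole hf') (clJ s v hv hf') v hv).symm
        · rw [ev_off hV hp hf, ev_off hW hp' hf', ih v hv]
  have e1 := stage2_stable (c := c) hV hk (k * (J.S.sup id + 1))
  have e2 := stage2_stable (c := c') hW hk (k * (I.S.sup id + 1))
  rw [← e1, ← e2, add_comm (k * (J.S.sup id + 1))]
  exact hrun _ v0 hcon.1

end Pool.Agent.Lib.MP_459a07_lc
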