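import Pool.Agent.Lib.MP_459a07_lc.Defs

set_option autoImplicit false

namespace Pool.Agent.Lib.MP_459a07_lc

open Classical

/-- Extend a finite sequence. -/
def extT {Z : Type} (T : ℕ) (z0 : Z) (ω : Fin T → Z) : ℕ → Z :=
  fun t => if h : t < T then ω ⟨t, h⟩ else z0

/-- Spread the values given at the vertices over their identifiers. -/
noncomputable def extV {ι X : Type} [Inhabited X] (id : ι → ℕ) (z : ι → X) : ℕ → X :=
  Function.extend id z fun _ => default

noncomputable def extW {ι X : Type} [Inhabited X] (T : ℕ) (id : ι → ℕ) (ω : Fin T → ι → X) :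
    ℕ → ℕ → X := fun t => extV id (extT T (fun _ => default) ω t)

theorem pa_runL_congr {σ Z : Type} (step : σ → Z → σ) (s0 : σ) {w w' : ℕ → Z} (T : ℕ)
    (h : ∀ t < T, w t = w' t) : runL step s0 w T = runL step s0 w' T := by
  induction T with
  | zero => rfl
  | succ T ih =>
    simp only [runL]
    rw [ih fun t ht => h t (by omega), h T (by omega)]

theorem pa_runL_inv {σ Z : Type} (step : σ → Z → σ) (P : σ → Prop) (hP : ∀ s z, P s → P (step s z))
    (s0 : σ) (h0 : P s0) (w : ℕ → Z) (T : ℕ) : P (runL step s0 w T) := by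
  induction T with
  | zero => exact h0
  | succ T ih => exact hP _ _ ih

theorem pa_extT_lt {Z : Type} {T : ℕ} (z0 : Z) (ω : Fin T → Z) {t : ℕ} (h : t < T) :
    extT T z0 ω t = ω ⟨t, h⟩ := by
  simp [extT, h]

theorem pa_runL_snoc {σ Z : Type} (step : σ → Z → σ) (s0 : σ) (z0 : Z) (T : ℕ) (ω : Fin T → Z)
    (z : Z) :
    runL step s0 (extT (T + 1) z0 (Fin.snoc (α := fun _ => Z) ω z)) (T + 1) =
      step (runL step s0 (extT T z0 ω) T) z := by
  simp only [runL]
  congr 1
  · apply pa_runL_congr
    intro t ht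
    rw [pa_extT_lt z0 _ (show t < T + 1 by omega), pa_extT_lt z0 _ ht]
    have : (⟨t, by omega⟩ : Fin (T + 1)) = Fin.castSucc ⟨t, ht⟩ := rfl
    rw [this, Fin.snoc_castSucc]
  · rw [pa_extT_lt z0 _ (show T < T + 1 by omega)]
    have : (⟨T, by omega⟩ : Fin (T + 1)) = Fin.last T := rfl
    rw [this, Fin.snoc_last]

/-- Potential lemma. -/
theorem pot {σ Z : Type} [Fintype Z] (step : σ → Z → σ) (P : σ → Prop) (f : σ → ℝ) (q : ℝ)
    (hq : 0 ≤ q) (hP : ∀ s z, P s → P (step s z))
    (hf : ∀ s, P s → ∑ z, f (step s z) ≤ q * Fintype.card Z * f s) (s0 : σ) (h0 : P s0) (z0 : Z)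
    (T : ℕ) :
    ∑ ω : Fin T → Z, f (runL step s0 (extT T z0 ω) T) ≤
      q ^ T * (Fintype.card (Fin T → Z)) * f s0 := by
  induction T with
  | zero => simp [runL]
  | succ T ih =>
    have e : ∑ ω : Fin (T + 1) → Z, f (runL step s0 (extT (T + 1) z0 ω) (T + 1)) =
        ∑ ω : Fin T → Z, ∑ z : Z, f (step (runL step s0 (extT T z0 ω) T) z) := by
      rw [← (Fin.snocEquiv fun _ : Fin (T + 1) => Z).sum_comp, Fintype.sum_prod_type,
        Finset.sum_comm]
      refine Finset.sum_congr rfl fun ω _ => Finset.sum_congr rfl fun z _ => ?_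
      rw [← pa_runL_snoc step s0 z0 T ω z]
      rfl
    rw [e]
    have hc : (0 : ℝ) ≤ q * Fintype.card Z := by positivity
    calc ∑ ω : Fin T → Z, ∑ z : Z, f (step (runL step s0 (extT T z0 ω) T) z)
        ≤ ∑ ω : Fin T → Z, q * Fintype.card Z * f (runL step s0 (extT T z0 ω) T) :=
          Finset.sum_le_sum fun ω _ => hf _ (pa_runL_inv step P hP s0 h0 _ T)
      _ = q * Fintype.card Z * ∑ ω : Fin T → Z, f (runL step s0 (extT T z0 ω) T) := by
          rw [Finset.mul_sum]
      _ ≤ q * Fintype.card Z * (q ^ T * (Fintype.card (Fin T → Z)) * f s0) :=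
          mul_le_mul_of_nonneg_left ih hc
      _ = q ^ (T + 1) * (Fintype.card (Fin (T + 1) → Z)) * f s0 := by
          simp only [Fintype.card_fun, Fintype.card_fin]
          push_cast
          ring

/-- Counting functions with prescribed ranges. -/
theorem pa_card_filter_pi {ι X : Type} [Fintype ι] [Fintype X] [Fintype (ι → X)]
    (A : ι → Finset X) (p : (ι → X) → Prop) [DecidablePred p] (h : ∀ z, p z ↔ ∀ i, z i ∈ A i) :
    (Finset.univ.filter p).card = ∏ i, (A i).card := by
  rw [← Fintype.card_piFinset]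
  congr 1
  ext z
  simp [h]

theorem pa_card_pi_eq {ι X : Type} [Fintype ι] [Fintype X] [Fintype (ι → X)] :
    Fintype.card (ι → X) = Fintype.card X ^ Fintype.card ι := by
  convert Fintype.card_fun (α := ι) (β := X)

/-- A condition on one coordinate. -/
theorem pa_card_filter_coord {ι X : Type} [Fintype ι] [Fintype X] [Fintype (ι → X)] (i : ι)
    (B : X → Prop) [DecidablePred B] [DecidablePred fun z : ι → X => B (z i)] :
    (Finset.univ.filter fun z : ι → X => B (z i)).card * Fintype.card X =
      (Finset.univ.filter B).card * Fintype.card (ι → X) := by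
  rw [pa_card_filter_pi (fun i' => if i' = i then Finset.univ.filter B else Finset.univ)]
  · rw [pa_card_pi_eq, ← Finset.mul_prod_erase Finset.univ _ (Finset.mem_univ i)]
    simp only [if_true]
    rw [Finset.prod_congr rfl (g := fun _ => Fintype.card X)]
    · rw [Finset.prod_const, Finset.card_erase_of_mem (Finset.mem_univ i), Finset.card_univ,
        mul_assoc, ← pow_succ]
      have : 0 < Fintype.card ι := Fintype.card_pos_iff.2 ⟨i⟩
      congr 2
      omega
    · intro i' hi'
      rw [if_neg (Finset.ne_of_mem_erase hi'), Finset.card_univ]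
  · intro z
    constructor
    · intro hz i'
      by_cases h : i' = i
      · subst h; simpa using hz
      · simp [h]
    · intro hz
      simpa using hz i

section Slot

variable {ι : Type} [Fintype ι] {a l : ℕ} [NeZero a] [NeZero l] {id : ι → ℕ}

theorem pa_card_fst_zero [DecidablePred fun ξ : Fin a × Fin l => (ξ.1 : ℕ) = 0] :
    (Finset.univ.filter fun ξ : Fin a × Fin l => (ξ.1 : ℕ) = 0).card = l := by
  have : (Finset.univ.filter fun ξ : Fin a × Fin l => (ξ.1 : ℕ) = 0) =
      ({0} : Finset (Fin a)) ×ˢ (Finset.univ : Finset (Fin l)) := by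
    ext ξ
    simp only [Finset.mem_filter, Finset.mem_univ, true_and, Finset.mem_product,
      Finset.mem_singleton, and_true]
    exact Fin.val_eq_zero_iff
  rw [this]
  simp

theorem pa_card_fst_ne_zero [DecidablePred fun ξ : Fin a × Fin l => (ξ.1 : ℕ) ≠ 0] :
    (Finset.univ.filter fun ξ : Fin a × Fin l => (ξ.1 : ℕ) ≠ 0).card = (a - 1) * l := by
  have : (Finset.univ.filter fun ξ : Fin a × Fin l => (ξ.1 : ℕ) ≠ 0) =
      (Finset.univ.erase (0 : Fin a)) ×ˢ (Finset.univ : Finset (Fin l)) := by
    ext ξ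
    simp only [Finset.mem_filter, Finset.mem_univ, true_and, Finset.mem_product,
      Finset.mem_erase, and_true]
    exact not_congr Fin.val_eq_zero_iff
  rw [this]
  simp [Finset.card_erase_of_mem]

theorem slot_val (i : ι) (ξ : Fin a × Fin l) :
    ((Finset.univ.filter fun z : ι → Fin a × Fin l => z i = ξ).card : ℝ) * (a * l) =
      Fintype.card (ι → Fin a × Fin l) := by
  have h := pa_card_filter_coord (ι := ι) (X := Fin a × Fin l) i (fun x => x = ξ)
  rw [Finset.filter_eq', if_pos (Finset.mem_univ _), Finset.card_singleton, one_mul,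
    Fintype.card_prod, Fintype.card_fin, Fintype.card_fin] at h
  exact_mod_cast h

theorem slot_active (i : ι) :
    ((Finset.univ.filter fun z : ι → Fin a × Fin l => ((z i).1 : ℕ) = 0).card : ℝ) * a =
      Fintype.card (ι → Fin a × Fin l) := by
  have h := pa_card_filter_coord (ι := ι) (X := Fin a × Fin l) i (fun x => (x.1 : ℕ) = 0)
  rw [pa_card_fst_zero, Fintype.card_prod, Fintype.card_fin, Fintype.card_fin, ← mul_assoc,
    mul_comm l] at h
  have h' := Nat.eq_of_mul_eq_mul_right (Nat.pos_of_ne_zero (NeZero.ne l)) h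
  exact_mod_cast h'

theorem slot_two (i i' : ι) (h : i ≠ i') :
    ((Finset.univ.filter fun z : ι → Fin a × Fin l =>
      ((z i).1 : ℕ) = 0 ∧ ((z i').1 : ℕ) = 0).card : ℝ) * a ^ 2 =
      Fintype.card (ι → Fin a × Fin l) := by
  rw [pa_card_filter_pi (fun j => if j = i ∨ j = i' then
    Finset.univ.filter fun ξ : Fin a × Fin l => (ξ.1 : ℕ) = 0 else Finset.univ)]
  · have hi' : i' ∈ Finset.univ.erase i := Finset.mem_erase.2 ⟨h.symm, Finset.mem_univ _⟩
    rw [pa_card_pi_eq, ← Finset.mul_prod_erase Finset.univ _ (Finset.mem_univ i),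
      ← Finset.mul_prod_erase _ _ hi']
    simp only [true_or, or_true, if_true, pa_card_fst_zero]
    rw [Finset.prod_congr rfl (g := fun _ => a * l)]
    · rw [Finset.prod_const, Finset.card_erase_of_mem hi',
        Finset.card_erase_of_mem (Finset.mem_univ i), Finset.card_univ, Fintype.card_prod,
        Fintype.card_fin, Fintype.card_fin]
      have h2 : 2 ≤ Fintype.card ι := Fintype.one_lt_card_iff.2 ⟨i, i', h⟩
      obtain ⟨n, hn⟩ := Nat.exists_eq_add_of_le h2
      rw [hn, show 2 + n - 1 - 1 = n by omega]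
      push_cast
      ring
    · intro j hj
      have h1 := Finset.ne_of_mem_erase hj
      have h2 := Finset.ne_of_mem_erase (Finset.mem_of_mem_erase hj)
      rw [if_neg (by tauto), Finset.card_univ, Fintype.card_prod, Fintype.card_fin,
        Fintype.card_fin]
  · intro z
    constructor
    · rintro ⟨h1, h2⟩ j
      by_cases hj : j = i ∨ j = i'
      · rcases hj with rfl | rfl
        · simpa using h1
        · simpa using h2
      · simp [hj]
    · intro hz
      exact ⟨by simpa using hz i, by simpa using hz i'⟩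

theorem slot_unique (ha : 2 * Fintype.card ι ≤ a) (i : ι) (j : Fin l) :
    (Fintype.card (ι → Fin a × Fin l) : ℝ) ≤
      ((Finset.univ.filter fun z : ι → Fin a × Fin l =>
        z i = (0, j) ∧ ∀ i', i' ≠ i → ((z i').1 : ℕ) ≠ 0).card : ℝ) * (2 * a * l) := by
  rw [pa_card_filter_pi (fun i' => if i' = i then ({(0, j)} : Finset (Fin a × Fin l)) else
    Finset.univ.filter fun ξ : Fin a × Fin l => (ξ.1 : ℕ) ≠ 0)]
  · rw [pa_card_pi_eq, ← Finset.mul_prod_erase Finset.univ _ (Finset.mem_univ i)]
    simp only [if_true, Finset.card_singleton, one_mul]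
    rw [Finset.prod_congr rfl (g := fun _ => (a - 1) * l)]
    · rw [Finset.prod_const, Finset.card_erase_of_mem (Finset.mem_univ i), Finset.card_univ,
        Fintype.card_prod, Fintype.card_fin, Fintype.card_fin]
      have h1 : 1 ≤ Fintype.card ι := Fintype.card_pos_iff.2 ⟨i⟩
      obtain ⟨n, hn⟩ := Nat.exists_eq_add_of_le h1
      rw [hn] at ha
      rw [hn, show 1 + n - 1 = n by omega]
      have ha1 : 1 ≤ a := by omega
      have ha0 : (0 : ℝ) < a := by exact_mod_cast ha1
      have har : 2 * (1 + (n : ℝ)) ≤ a := by exact_mod_cast ha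
      have hl : (0 : ℝ) ≤ l := Nat.cast_nonneg l
      push_cast [Nat.cast_sub ha1]
      have hb : 1 + (n : ℝ) * (-1 / a) ≤ (1 + -1 / a) ^ n := by
        apply one_add_mul_le_pow
        have : (1 : ℝ) / a ≤ 1 := by
          rw [div_le_one ha0]; exact_mod_cast ha1
        rw [neg_div]
        linarith
      have hh : (1 : ℝ) / 2 ≤ 1 + (n : ℝ) * (-1 / a) := by
        have : (n : ℝ) / a ≤ 1 / 2 := by
          rw [div_le_iff₀ ha0]; linarith
        have e : (n : ℝ) * (-1 / a) = -(n / a) := by ring
        rw [e]; linarith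
      have e1 : ((a : ℝ) - 1) = a * (1 + -1 / a) := by field_simp; ring
      have hk : (a : ℝ) ^ n ≤ 2 * (a - 1) ^ n := by
        rw [e1, mul_pow]
        have : (0 : ℝ) ≤ (a : ℝ) ^ n := by positivity
        nlinarith [mul_le_mul_of_nonneg_left (hh.trans hb) this]
      calc ((a : ℝ) * l) ^ (1 + n) = a ^ n * (l ^ n * (a * l)) := by ring
        _ ≤ (2 * (a - 1) ^ n) * (l ^ n * (a * l)) :=
            mul_le_mul_of_nonneg_right hk (by positivity)
        _ = ((a - 1) * l) ^ n * (2 * a * l) := by rw [mul_pow]; ring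
    · intro i' hi'
      rw [if_neg (Finset.ne_of_mem_erase hi'), pa_card_fst_ne_zero]
  · intro z
    constructor
    · rintro ⟨h1, h2⟩ i'
      by_cases h : i' = i
      · subst h; simpa using h1
      · simpa [h] using h2 i' h
    · intro hz
      refine ⟨by simpa using hz i, fun i' h => ?_⟩
      simpa [h] using hz i'

end Slot

end Pool.Agent.Lib.MP_459a07_lc
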