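import Pool.Agent.Lib.MP_459a07_lc.Model
import Pool.Agent.Lib.MP_459a07_lc.Count
import Pool.Agent.Lib.MP_459a07_lc.Pot

set_option autoImplicit false

namespace Pool.Agent.Lib.MP_459a07_lc

open Classical

/-- Neighbourhoods in terms of identifiers. -/
noncomputable def NG {n : ℕ} (G : SimpleGraph (Fin n)) (id : Fin n → ℕ) (a : ℕ) : Finset ℕ :=
  (Finset.univ.filter fun w => ∃ v, id v = a ∧ G.Adj v w).image id

theorem NG_id {n : ℕ} (G : SimpleGraph (Fin n)) {id : Fin n → ℕ} (hid : Function.Injective id)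
    (v : Fin n) : NG G id (id v) = (G.neighborFinset v).image id := by
  unfold NG
  congr 1
  ext w
  simp [hid.eq_iff]

theorem mem_NG {n : ℕ} {G : SimpleGraph (Fin n)} {id : Fin n → ℕ} {a b : ℕ} :
    b ∈ NG G id a ↔ ∃ v w, id v = a ∧ id w = b ∧ G.Adj v w := by
  unfold NG
  simp only [Finset.mem_image, Finset.mem_filter, Finset.mem_univ, true_and]
  exact ⟨fun ⟨w, ⟨v, h1, h2⟩, h3⟩ => ⟨v, w, h1, h3, h2⟩,
    fun ⟨v, w, h1, h3, h2⟩ => ⟨w, ⟨v, h1, h2⟩, h3⟩⟩

noncomputable def view {X : Type} (N : ℕ → Finset ℕ) (W : ℕ → X) (i R : ℕ) :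
    Finset (ℕ × X × Finset ℕ) :=
  (ball N i R).image fun w => (w, W w, N w)

theorem view_agree {X : Type} {N N' : ℕ → Finset ℕ} {W W' : ℕ → X} {i R : ℕ}
    (h : view N W i R = view N' W' i R) {v : ℕ} (hv : v ∈ ball N i R) :
    v ∈ ball N' i R ∧ W v = W' v ∧ N v = N' v := by
  have : (v, W v, N v) ∈ view N' W' i R := h ▸ Finset.mem_image_of_mem _ hv
  obtain ⟨w, hw, e⟩ := Finset.mem_image.mp this
  simp only [Prod.mk.injEq] at e
  obtain ⟨rfl, e1, e2⟩ := e
  exact ⟨hw, e1.symm, e2.symm⟩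

theorem ball_succ' (N : ℕ → Finset ℕ) (R : ℕ) : ∀ v w : ℕ,
    w ∈ ball N v (R + 1) ↔ w = v ∨ ∃ u ∈ N v, w ∈ ball N u R := by
  have one : ∀ v u, u ∈ N v → u ∈ ball N v 1 := fun v u h =>
    Finset.mem_union_right _ (Finset.mem_biUnion.mpr ⟨v, Finset.mem_singleton_self _, h⟩)
  induction R with
  | zero => intro v w; simp [ball]
  | succ R ih =>
    intro v w
    constructor
    · intro h
      rcases Finset.mem_union.mp h with h1 | h1
      · rcases (ih v w).mp h1 with h2 | ⟨u, hu, h2⟩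
        · exact Or.inl h2
        · exact Or.inr ⟨u, hu, ball_mono (Nat.le_succ _) h2⟩
      · obtain ⟨a, ha, hw⟩ := Finset.mem_biUnion.mp h1
        rcases (ih v a).mp ha with rfl | ⟨u, hu, h2⟩
        · exact Or.inr ⟨w, hw, self_mem_ball⟩
        · exact Or.inr ⟨u, hu, ball_trans h2 (one _ _ hw)⟩
    · rintro (rfl | ⟨u, hu, h⟩)
      · exact self_mem_ball
      · have := ball_trans (one _ _ hu) h
        rwa [show 1 + (R + 1) = R + 1 + 1 by omega] at this

/-- The algorithm that gathers everything. -/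
noncomputable def gather (B q : ℕ)
    (F : ℕ → Finset (ℕ × (Fin B → Bool) × Finset ℕ) → ℕ → Fin q) : Alg B q where
  State := ℕ × (Fin B → Bool) × Finset (ℕ × (Fin B → Bool) × Finset ℕ)
  init i b := (i, b, ∅)
  step s m := (s.1, s.2.1, insert (s.1, s.2.1, (m.map Prod.fst).toFinset)
    (m.toFinset.biUnion fun s' => s'.2.2))
  out s j := F s.1 s.2.2 j

theorem gather_run {B q n : ℕ} (F : ℕ → Finset (ℕ × (Fin B → Bool) × Finset ℕ) → ℕ → Fin q)
    (G : SimpleGraph (Fin n)) {id : Fin n → ℕ} (hid : Function.Injective id)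
    (ω : Fin n → Fin B → Bool) (R : ℕ) : ∀ v : Fin n,
    (gather B q F).run G id ω (R + 1) v = (id v, ω v, view (NG G id) (extV id ω) (id v) R) := by
  have hW : ∀ v, extV id ω (id v) = ω v := fun v => hid.extend_apply _ _ v
  have key : ∀ (t : ℕ) (K : Fin n → Finset (ℕ × (Fin B → Bool) × Finset ℕ)),
      (∀ v, (gather B q F).run G id ω t v = (id v, ω v, K v)) → ∀ v,
      (gather B q F).run G id ω (t + 1) v = (id v, ω v,
        insert (id v, ω v, NG G id (id v)) ((G.neighborFinset v).biUnion K)) := by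
    intro t K h v
    have h' : (gather B q F).run G id ω t = fun v => (id v, ω v, K v) := funext h
    simp only [Alg.run]
    rw [h']
    simp only [gather, Multiset.map_map, Function.comp]
    rw [NG_id G hid]
    refine Prod.ext rfl (Prod.ext rfl ?_)
    dsimp only
    congr 1
    ext r
    simp
  induction R with
  | zero =>
    intro v
    rw [key 0 (fun _ => ∅) (fun _ => rfl)]
    refine Prod.ext rfl (Prod.ext rfl ?_)
    ext r
    simp [view, ball, hW]
  | succ R ih =>
    intro v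
    rw [key _ _ ih]
    refine Prod.ext rfl (Prod.ext rfl ?_)
    ext r
    simp only [view, Finset.mem_insert, Finset.mem_biUnion, Finset.mem_image, ball_succ']
    constructor
    · rintro (rfl | ⟨u, hu, w, hw, rfl⟩)
      · exact ⟨id v, Or.inl rfl, by rw [hW]⟩
      · exact ⟨w, Or.inr ⟨id u, by rw [NG_id G hid]; exact Finset.mem_image_of_mem _ hu, hw⟩, rfl⟩
    · rintro ⟨w, rfl | ⟨u, hu, hw⟩, rfl⟩
      · exact Or.inl (by rw [hW])
      · rw [NG_id G hid] at hu
        obtain ⟨u', hu', rfl⟩ := Finset.mem_image.mp hu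
        exact Or.inr ⟨u', hu', w, hw, rfl⟩

end Pool.Agent.Lib.MP_459a07_lc
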