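import Pool.Agent.Lib.MP_459a07_lc.Params
import Pool.Agent.Lib.MP_459a07_lc.View
import Pool.Agent.Lib.MP_459a07_lc.Local1
import Pool.Agent.Lib.MP_459a07_lc.Light
import Pool.Agent.Lib.MP_459a07_lc.Stage2

set_option autoImplicit false

namespace Pool.Agent.Lib.MP_459a07_lc

open Classical

def fanN (k : ℕ) (N : ℕ → Finset ℕ) (x y : ℕ) : Prop := ∀ w ∈ N x, w ≠ y → (N w).card < k

def mkInst (k : ℕ) (S : Finset ℕ) (N : ℕ → Finset ℕ) : Inst :=
  ⟨S, N, fanN k N, fun x y => y ∈ N x ∧ (fanN k N x y ∨ ¬ fanN k N y x)⟩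

theorem mem_ball_step {N : ℕ → Finset ℕ} {i r a b : ℕ} (ha : a ∈ ball N i r) (hb : b ∈ N a) :
    b ∈ ball N i (r + 1) :=
  Finset.mem_union_right _ (Finset.mem_biUnion.mpr ⟨a, ha, hb⟩)

theorem fanN_congr {k : ℕ} {N N' : ℕ → Finset ℕ} {i r v : ℕ}
    (h : ∀ a ∈ ball N i (r + 1), N a = N' a) (hv : v ∈ ball N i r) : fanN k N v = fanN k N' v := by
  funext y
  unfold fanN
  rw [← h v (ball_mono (Nat.le_succ _) hv)]
  exact propext (forall₂_congr fun w hw => by rw [h w (mem_ball_step hv hw)])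

theorem mk_SA {k : ℕ} {S S' : Finset ℕ} {N N' : ℕ → Finset ℕ} {i r v : ℕ}
    (h : ∀ a ∈ ball N i (r + 2), N a = N' a) (hv : v ∈ ball N i r) :
    SA (mkInst k S N) (mkInst k S' N') v := by
  have h1 : N v = N' v := h v (ball_mono (by omega) hv)
  have h2 : fanN k N v = fanN k N' v :=
    fanN_congr (fun a ha => h a (ball_mono (by omega) ha)) hv
  refine ⟨h1, h2, ?_⟩
  funext y
  change (y ∈ N v ∧ (fanN k N v y ∨ ¬ fanN k N y v)) = (y ∈ N' v ∧ (fanN k N' v y ∨ ¬ fanN k N' y v))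
  rw [← h1, ← h2]
  exact propext (and_congr_right fun hy => by rw [fanN_congr h (mem_ball_step hv hy)])

theorem ball_sub {I : Inst} {k g i r : ℕ} (hV : I.Valid k g) (hi : i ∈ I.S) :
    ball I.N i r ⊆ I.S := by
  induction r with
  | zero => exact Finset.singleton_subset_iff.mpr hi
  | succ r ih =>
    intro v hv
    rcases Finset.mem_union.mp hv with h | h
    · exact ih h
    · obtain ⟨a, -, hb⟩ := Finset.mem_biUnion.mp h
      exact hV.sub _ _ (hV.symm _ _ hb)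

section

variable {a l : ℕ} [NeZero a] [NeZero l] {B T : ℕ}

noncomputable def slots (e : (Fin B → Bool) ≃ (Fin T → Fin a × Fin l)) (S : Finset ℕ)
    (W : ℕ → Fin B → Bool) : ℕ → ℕ → Fin a × Fin l :=
  fun t v => if v ∈ S then extT T default (e (W v)) t else default

def Cand (e : (Fin B → Bool) ≃ (Fin T → Fin a × Fin l)) (k g m0 m1 : ℕ)
    (p : Finset ℕ × (ℕ → Finset ℕ) × (ℕ → Fin B → Bool)) : Prop :=
  (mkInst k p.1 p.2.1).Valid k g ∧ Good (mkInst k p.1 p.2.1) k T m0 m1 (slots e p.1 p.2.2)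

noncomputable def col (e : (Fin B → Bool) ≃ (Fin T → Fin a × Fin l)) (k : ℕ)
    (p : Finset ℕ × (ℕ → Finset ℕ) × (ℕ → Fin B → Bool)) : Col :=
  fin2 (mkInst k p.1 p.2.1) k (run1 (mkInst k p.1 p.2.1) k (slots e p.1 p.2.2) T)

theorem col_local {e : (Fin B → Bool) ≃ (Fin T → Fin a × Fin l)} {k g m0 m1 i : ℕ} (hk : 1 ≤ k)
    (hm : 2 ≤ m0) (hl : 2 * (16 * (k + 1) ^ 2) + 1 ≤ l)
    {p p' : Finset ℕ × (ℕ → Finset ℕ) × (ℕ → Fin B → Bool)} (h : Cand e k g m0 m1 p)
    (h' : Cand e k g m0 m1 p') (hi : i ∈ p.1) (hi' : i ∈ p'.1)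
    (hv : view p.2.1 p.2.2 i (2 * m0 + 2 * (l + 1) * (m1 + 1) + 2) =
      view p'.2.1 p'.2.2 i (2 * m0 + 2 * (l + 1) * (m1 + 1) + 2)) :
    col e k p i = col e k p' i := by
  have hag : ∀ v ∈ ball p.2.1 i (2 * m0 + 2 * (l + 1) * (m1 + 1)),
      SA (mkInst k p.1 p.2.1) (mkInst k p'.1 p'.2.1) v ∧ v ∈ p.1 ∧ v ∈ p'.1 ∧
      ∀ t < T, slots e p.1 p.2.2 t v = slots e p'.1 p'.2.2 t v := by
    intro v hb
    obtain ⟨b1, b2, -⟩ := view_agree hv (ball_mono (by omega) hb)
    have s1 : v ∈ p.1 := ball_sub h.1 hi hb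
    have s2 : v ∈ p'.1 := ball_sub h'.1 hi' b1
    refine ⟨mk_SA (fun x hx => (view_agree hv hx).2.2) hb, s1, s2, fun t _ => ?_⟩
    unfold slots
    rw [if_pos s1, if_pos s2, b2]
  have h1 := stage1_local (r := 2 * m0) h.1 h'.1 h.2.1 h'.2.1 h.2.2.1 hag le_rfl
  refine stage2_local h.1 h'.1 hk (run1_proper h.1 _ _) (run1_proper h'.1 _ _)
    (light_of h.1 hl h.2.2.2.1 h.2.2.2.2) (light_of h'.1 hl h'.2.2.2.1 h'.2.2.2.2) hm
    fun v hb => ?_
  obtain ⟨b1, b2, b3, -⟩ := hag v (ball_mono (by omega) hb)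
  exact ⟨b1, b2, b3, h1 v hb⟩

noncomputable def outF (e : (Fin B → Bool) ≃ (Fin T → Fin a × Fin l)) (k g m0 m1 R i : ℕ)
    (K : Finset (ℕ × (Fin B → Bool) × Finset ℕ)) (j : ℕ) : Fin (k + 1) :=
  Fin.ofNat (k + 1) (col e k (epsilon fun p => Cand e k g m0 m1 p ∧ i ∈ p.1 ∧
    view p.2.1 p.2.2 i R = K) i j - 1)

theorem slots_eq {n : ℕ} (e : (Fin B → Bool) ≃ (Fin T → Fin a × Fin l)) {id : Fin n → ℕ}
    (hid : Function.Injective id) (ω : Fin n → Fin B → Bool) :
    slots e (Finset.univ.image id) (extV id ω) = extW T id fun t v => e (ω v) t := by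
  funext t v
  unfold slots extW extV
  split_ifs with h
  · obtain ⟨u, -, rfl⟩ := Finset.mem_image.mp h
    rw [hid.extend_apply, hid.extend_apply]
    unfold extT
    split_ifs <;> rfl
  · rw [Function.extend_apply']
    rintro ⟨u, rfl⟩
    exact h (Finset.mem_image_of_mem _ (Finset.mem_univ _))

end

theorem exists_walk {n : ℕ} {G : SimpleGraph (Fin n)} {id : Fin n → ℕ}
    (hid : Function.Injective id) (x : Fin n) (p : ℕ → ℕ) (h0 : p 0 = id x) : ∀ j : ℕ,
    (∀ i < j, p (i + 1) ∈ NG G id (p i)) → ∃ (v : Fin n) (w : G.Walk x v), id v = p j ∧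
      w.length = j ∧ w.support.map id = (List.range (j + 1)).map p := by
  intro j
  induction j with
  | zero => intro _; exact ⟨x, SimpleGraph.Walk.nil, h0.symm, rfl, by simp [h0]⟩
  | succ j ih =>
    intro h
    obtain ⟨v, w, h1, h2, h3⟩ := ih fun i hi => h i (by omega)
    obtain ⟨v', u, e1, e2, e3⟩ := mem_NG.mp (h j (by omega))
    obtain rfl : v' = v := hid (e1.trans h1.symm)
    refine ⟨u, w.concat e3, e2, by simp [h2], ?_⟩
    rw [SimpleGraph.Walk.support_concat, List.range_succ, List.map_append, List.map_append, ← h3]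
    simp [e2]

theorem mk_valid {n k g : ℕ} {G : SimpleGraph (Fin n)} {id : Fin n → ℕ}
    (hid : Function.Injective id) (hdeg : ∀ v, G.degree v ≤ k) (hT : Tame G k g) :
    (mkInst k (Finset.univ.image id) (NG G id)).Valid k g := by
  have hcard : ∀ v, (NG G id (id v)).card = G.degree v := fun v => by
    rw [NG_id G hid, Finset.card_image_of_injective _ hid]; rfl
  have hfan : ∀ x y, (∀ w, G.Adj x w → w ≠ y → G.degree w < k) →
      fanN k (NG G id) (id x) (id y) := by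
    intro x y h w hw hne
    obtain ⟨v, u, e1, rfl, e3⟩ := mem_NG.mp hw
    obtain rfl := hid e1
    rw [hcard]
    exact h u e3 fun e => hne (by rw [e])
  have hsymm : ∀ u v, v ∈ NG G id u → u ∈ NG G id v := fun u v h => by
    obtain ⟨x, y, e1, e2, e3⟩ := mem_NG.mp h
    exact mem_NG.mpr ⟨y, x, e2, e1, e3.symm⟩
  refine ⟨hsymm, fun u h => ?_, fun u v h => ?_, fun u => ?_, fun x y _ h => h,
    fun x y hy hok hf p j hj hev p0 pj hadj hinj => ?_, fun x y hy => ?_⟩
  · obtain ⟨x, y, e1, e2, e3⟩ := mem_NG.mp h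
    exact e3.ne (hid (e1.trans e2.symm))
  · obtain ⟨x, y, e1, -, -⟩ := mem_NG.mp h
    exact Finset.mem_image.mpr ⟨x, Finset.mem_univ _, e1⟩
  · change (NG G id u).card ≤ k
    by_cases h : ∃ v, id v = u
    · obtain ⟨v, rfl⟩ := h
      rw [hcard]; exact hdeg v
    · rw [Finset.card_eq_zero.mpr]
      · exact Nat.zero_le _
      · exact Finset.eq_empty_of_forall_notMem fun b hb => by
          obtain ⟨x, -, e1, -, -⟩ := mem_NG.mp hb
          exact h ⟨x, e1⟩
  · obtain ⟨x', y', rfl, rfl, e3⟩ := mem_NG.mp hy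
    have hf' := hok.2.resolve_left hf
    obtain ⟨v, w, h1, h2, h3⟩ := exists_walk (G := G) hid x' p p0 j hadj
    obtain rfl : v = y' := hid (h1.trans pj)
    rcases hT _ _ e3 with h | h | h
    · have hp : w.IsPath := by
        rw [SimpleGraph.Walk.isPath_def]
        refine List.Nodup.of_map id ?_
        rw [h3]
        refine List.Nodup.map_on (fun s hs t ht e => hinj ?_ ?_ e) List.nodup_range
        · simpa [Nat.lt_succ_iff] using hs
        · simpa [Nat.lt_succ_iff] using ht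
      have := h w hp (by omega)
      rw [h2] at this
      exact Nat.not_even_iff_odd.mpr this hev
    · exact hf (hfan _ _ h)
    · exact hf' (hfan _ _ h)
  · by_cases h : fanN k (NG G id) y x
    · exact Or.inr ⟨hsymm _ _ hy, Or.inl h⟩
    · exact Or.inl ⟨hy, Or.inr h⟩

theorem transfer {Ω Ω' : Type} [Fintype Ω] {i : Fintype Ω'} (E : Ω ≃ Ω') (P : Ω → Prop)
    (Q : Ω' → Prop) [DecidablePred P] {d : DecidablePred fun ω => ¬ Q ω} (h : ∀ ω, Q (E ω) → P ω)
    {δ : ℝ} (hp : ((Finset.univ.filter fun ω => ¬ Q ω).card : ℝ) ≤ δ * Fintype.card Ω') :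
    (1 - δ) * Fintype.card Ω ≤ ((Finset.univ.filter P).card : ℝ) := by
  have hbad : (Finset.univ.filter fun ω => ¬ P ω).card ≤
      (Finset.univ.filter fun ω => ¬ Q ω).card := by
    refine Finset.card_le_card_of_injOn E (fun ω hω => ?_) E.injective.injOn
    simp only [Finset.coe_filter, Finset.mem_univ, true_and, Set.mem_setOf_eq] at hω ⊢
    exact fun h' => hω (h ω h')
  have h1 := ((Nat.cast_le (α := ℝ)).mpr hbad).trans hp
  rw [← Fintype.card_congr E] at h1
  have h2 := Finset.card_filter_add_card_filter_not (s := Finset.univ) P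
  rw [Finset.card_univ] at h2
  have h4 := congrArg (Nat.cast (R := ℝ)) h2
  push_cast at h4
  linarith

theorem main (k : ℕ) (hk : 1 ≤ k) {ε : ℝ} (hε : 0 < ε) : ∃ n0 : ℕ, ∀ n ≥ n0, ∃ T : ℕ,
    (T : ℝ) ≤ ε * Real.log n ∧ ∃ (B : ℕ) (A : Alg B (k + 1)), ∀ G : SimpleGraph (Fin n),
      (∀ v, G.degree v ≤ k) → Tame G k T → ∀ id : Fin n → ℕ, Function.Injective id →
      (1 - 1 / (n : ℝ)) * 2 ^ (n * B) ≤
        ((Finset.univ.filter fun ω : Fin n → Fin B → Bool => A.Colours G id T ω).card : ℝ) := by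
  obtain ⟨n0, hn0⟩ := params k hε
  refine ⟨n0, fun n hn => ?_⟩
  obtain ⟨a', l', T, m0, m1, hm, hl, hR, hP⟩ := hn0 n hn
  set R := 2 * m0 + 2 * (2 ^ l' + 1) * (m1 + 1) + 2 with hRdef
  have e : (Fin ((a' + l') * T) → Bool) ≃ (Fin T → Fin (2 ^ a') × Fin (2 ^ l')) :=
    Fintype.equivOfCardEq (by simp [pow_mul, pow_add])
  refine ⟨R + 1, hR, (a' + l') * T, gather _ _ (outF e k (R + 1) m0 m1 R),
    fun G hdeg hT id hid => ?_⟩
  have hV := mk_valid hid hdeg hT
  have hgl : 2 ^ l' ≤ R + 1 := by rw [hRdef]; nlinarith [Nat.zero_le (2 ^ l' * m1)]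
  have hp := hP (Fin n) (R + 1) id _ (Fintype.card_fin n) hV hgl hid rfl
  let E : (Fin n → Fin ((a' + l') * T) → Bool) ≃ (Fin T → Fin n → Fin (2 ^ a') × Fin (2 ^ l')) :=
    (Equiv.piCongrRight fun _ => e).trans (Equiv.piComm _)
  have hgood : ∀ ω, Good (mkInst k (Finset.univ.image id) (NG G id)) k T m0 m1 (extW T id (E ω)) →
      (gather _ _ (outF e k (R + 1) m0 m1 R)).Colours G id (R + 1) ω := by
    intro ω hω
    have hC : Cand e k (R + 1) m0 m1 (Finset.univ.image id, NG G id, extV id ω) :=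
      ⟨hV, by rw [slots_eq e hid]; exact hω⟩
    obtain ⟨hPr, hne⟩ : Proper _ k (col e k (Finset.univ.image id, NG G id, extV id ω)) ∧ _ :=
      fin2_total hV hk (run1_proper hV _ _) (light_of hV hl hC.2.2.2.1 hC.2.2.2.2) (by omega)
    have hout : ∀ u j, (gather _ _ (outF e k (R + 1) m0 m1 R)).out
        ((gather _ _ (outF e k (R + 1) m0 m1 R)).run G id ω (R + 1) u) j =
        Fin.ofNat (k + 1) (col e k (Finset.univ.image id, NG G id, extV id ω) (id u) j - 1) := by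
      intro u j
      have hu : id u ∈ Finset.univ.image id := Finset.mem_image_of_mem _ (Finset.mem_univ _)
      rw [gather_run _ G hid]
      have hs := epsilon_spec (p := fun p => Cand e k (R + 1) m0 m1 p ∧ id u ∈ p.1 ∧
        view p.2.1 p.2.2 (id u) R = view (NG G id) (extV id ω) (id u) R) ⟨_, hC, hu, rfl⟩
      change Fin.ofNat (k + 1) (col e k _ (id u) j - 1) = _
      rw [col_local hk hm hl hs.1 hC hs.2.1 hu hs.2.2]
    refine ⟨fun u v _ => by rw [hout, hout, hPr.symm], fun u v w h1 h2 hvw => ?_⟩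
    rw [hout, hout]
    have n1 : col e k _ (id u) (id v) ≠ 0 := hne _ _ (mem_NG.mpr ⟨u, v, rfl, rfl, h1⟩)
    have n2 : col e k _ (id u) (id w) ≠ 0 := hne _ _ (mem_NG.mpr ⟨u, w, rfl, rfl, h2⟩)
    have l1 := hPr.le (id u) (id v)
    have l2 := hPr.le (id u) (id w)
    intro h
    have h3 := congrArg Fin.val h
    simp only [Fin.ofNat] at h3
    rw [Nat.mod_eq_of_lt (by omega), Nat.mod_eq_of_lt (by omega)] at h3
    exact hvw (hid (hPr.inj _ _ _ n1 (by omega)))
  have h1 := transfer E _ _ hgood hp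
  have h3 : Fintype.card (Fin n → Fin ((a' + l') * T) → Bool) = 2 ^ (n * ((a' + l') * T)) := by
    simp [← pow_mul, mul_comm]
  rw [h3] at h1
  exact_mod_cast h1

end Pool.Agent.Lib.MP_459a07_lc
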