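import Pool.Agent.Lib.MP_459a07_lc.Path

set_option autoImplicit false

namespace Pool.Agent.Lib.MP_459a07_lc

open Classical

variable {I : Inst} {k g : ℕ} {c : Col} {x y α β j u v γ : ℕ}

theorem sw_inj {a b : ℕ} (h : sw α β a = sw α β b) : a = b := by
  unfold sw at h; split_ifs at h <;> omega

theorem sw_other (h1 : γ ≠ α) (h2 : γ ≠ β) : sw α β γ = γ := by
  unfold sw; rw [if_neg h1, if_neg h2]

theorem sw_eq_other {δ : ℕ} (h1 : γ ≠ α) (h2 : γ ≠ β) (h : sw α β δ = γ) : δ = γ :=
  sw_inj (h.trans (sw_other h1 h2).symm)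

theorem sw_beta : sw α β β = α := by
  unfold sw; split_ifs <;> omega

theorem sw_le {m : ℕ} (h1 : α ≤ m) (h2 : β ≤ m) (h : γ ≤ m) : sw α β γ ≤ m := by
  unfold sw; split_ifs <;> omega

/-- The cut edge. -/
def spec (c : Col) (x α β j u v : ℕ) : Prop :=
  reach c x α β (j + 1) ∧ ((u = path c x α β j ∧ v = path c x α β (j + 1)) ∨
    (u = path c x α β (j + 1) ∧ v = path c x α β j))

theorem cut_spec (h : spec c x α β j u v) : cut k c x α β j u v = k + 1 := if_pos h

theorem cut_not (h : ¬ spec c x α β j u v) : cut k c x α β j u v = c u v := if_neg h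

theorem spec_symm (h : spec c x α β j u v) : spec c x α β j v u :=
  ⟨h.1, h.2.elim (fun a => Or.inr ⟨a.2, a.1⟩) fun a => Or.inl ⟨a.2, a.1⟩⟩

theorem spec_col (hc : Proper I k c) (h : spec c x α β j u v) : c u v = cidx α β j := by
  rcases h.2 with ⟨rfl, rfl⟩ | ⟨rfl, rfl⟩
  · exact path_step h.1
  · rw [hc.symm]; exact path_step h.1

theorem cut_eq (hγ : γ ≠ k + 1) (h : cut k c x α β j u v = γ) :
    ¬ spec c x α β j u v ∧ c u v = γ := by
  have : ¬ spec c x α β j u v := fun hs => hγ (h.symm.trans (cut_spec hs))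
  exact ⟨this, (cut_not this).symm.trans h⟩

theorem cut_other (hc : Proper I k c) (h1 : c u v ≠ α) (h2 : c u v ≠ β) :
    cut k c x α β j u v = c u v := by
  refine cut_not fun hs => ?_
  have := spec_col hc hs
  rcases cidx_cases α β j with h | h <;> omega

theorem cut_proper (hc : Proper I k c) (hα : α ≠ 0) (hβ : β ≠ 0) (hu : unb k c x α β j) :
    Proper I k (cut k c x α β j) := by
  have hm : ∀ a b, spec c x α β j a b → miss (c a) (k + 1) := by
    intro a b h
    rcases h.2 with ⟨rfl, -⟩ | ⟨rfl, -⟩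
    · exact (hu h.1).1
    · exact (hu h.1).2
  refine ⟨fun a b => ?_, fun a b h => ?_, fun a b => ?_, fun a b e h1 h2 => ?_⟩
  · by_cases h : spec c x α β j a b
    · rw [cut_spec h, cut_spec (spec_symm h)]
    · rw [cut_not h, cut_not fun h' => h (spec_symm h'), hc.symm]
  · by_cases hs : spec c x α β j a b
    · exact hc.edge _ _ (by rw [spec_col hc hs]; exact cidx_ne hα hβ)
    · rw [cut_not hs] at h; exact hc.edge _ _ h
  · by_cases hs : spec c x α β j a b
    · rw [cut_spec hs]
    · rw [cut_not hs]; exact hc.le _ _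
  · by_cases hb : spec c x α β j a b <;> by_cases he : spec c x α β j a e
    · exact hc.inj a _ _ (by rw [spec_col hc hb]; exact cidx_ne hα hβ)
        ((spec_col hc hb).trans (spec_col hc he).symm)
    · rw [cut_spec hb, cut_not he] at h2
      exact absurd h2.symm (hm _ _ hb e)
    · rw [cut_spec he, cut_not hb] at h2
      exact absurd h2 (hm _ _ he b)
    · rw [cut_not hb] at h1 h2
      rw [cut_not he] at h2
      exact hc.inj _ _ _ h1 h2

theorem x_mem_Cset : x ∈ Cset c x α β j := ⟨0, Nat.zero_le _, reach_zero, rfl⟩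

theorem reach_succ {i : ℕ} (h : reach c x α β i)
    (h' : ¬ miss (c (path c x α β i)) (cidx α β i)) : reach c x α β (i + 1) := by
  intro m hm
  rcases Nat.lt_succ_iff_lt_or_eq.mp hm with h1 | rfl
  · exact h m h1
  · exact h'

theorem Cset_closed (hc : Proper I k c) (hα : α ≠ 0) (hβ : β ≠ 0) (hαk : α ≤ k) (hβk : β ≤ k)
    (hx : miss (c x) α) (hu : u ∈ Cset c x α β j)
    (h : cut k c x α β j u v = α ∨ cut k c x α β j u v = β) : v ∈ Cset c x α β j := by
  obtain ⟨i, hi, hr, rfl⟩ := hu
  obtain ⟨hs, hcol⟩ := cut_eq (by omega) (rfl : cut k c x α β j (path c x α β i) v = _)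
  rw [← hcol] at h
  by_cases hi' : c (path c x α β i) v = cidx α β i
  · have hr' := reach_succ hr fun hm => hm v hi'
    have hv : v = path c x α β (i + 1) :=
      hc.inj _ _ _ (by omega) (hi'.trans (path_step hr').symm)
    rcases Nat.lt_or_ge i j with hlt | hge
    · exact ⟨i + 1, hlt, hr', hv.symm⟩
    · obtain rfl : i = j := by omega
      exact absurd ⟨hr', Or.inl ⟨rfl, hv⟩⟩ hs
  · cases i with
    | zero =>
      rw [cidx_even rfl] at hi'
      exact absurd (h.resolve_right hi') (hx v)
    | succ m =>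
      have e := path_step hr
      rw [hc.symm] at e
      have : c (path c x α β (m + 1)) v = cidx α β m := by
        rcases Nat.mod_two_eq_zero_or_one m with hm | hm
        · rw [cidx_odd (by omega)] at hi'
          rw [cidx_even hm]; omega
        · rw [cidx_even (by omega)] at hi'
          rw [cidx_odd hm]; omega
      exact ⟨m, by omega, reach_mono hr (Nat.le_succ _),
        (hc.inj _ _ _ (by omega) (this.trans e.symm)).symm⟩

/-- The standing assumptions of a flip. -/
structure FlipOK (I : Inst) (k : ℕ) (c : Col) (x α β j : ℕ) : Prop where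
  hc : Proper I k c
  a1 : 1 ≤ α
  ak : α ≤ k
  b1 : 1 ≤ β
  bk : β ≤ k
  hx : miss (c x) α
  hu : unb k c x α β j

theorem flip_in (h : u ∈ Cset c x α β j) :
    flip k c x α β j u v = sw α β (cut k c x α β j u v) := if_pos (Or.inl h)

theorem FlipOK.cutp (H : FlipOK I k c x α β j) : Proper I k (cut k c x α β j) :=
  cut_proper H.hc (by have := H.a1; omega) (by have := H.b1; omega) H.hu

theorem FlipOK.out (H : FlipOK I k c x α β j) (h : u ∉ Cset c x α β j) :
    flip k c x α β j u v = cut k c x α β j u v := by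
  unfold flip
  split_ifs with h1
  · have hv := h1.resolve_left h
    have key : ¬ (cut k c x α β j v u = α ∨ cut k c x α β j v u = β) := fun hh =>
      h (Cset_closed H.hc (by have := H.a1; omega) (by have := H.b1; omega) H.ak H.bk H.hx hv hh)
    rw [H.cutp.symm] at key
    exact sw_other (fun e => key (Or.inl e)) fun e => key (Or.inr e)
  · rfl

theorem FlipOK.other (H : FlipOK I k c x α β j) (h1 : c u v ≠ α) (h2 : c u v ≠ β) :
    flip k c x α β j u v = c u v := by
  unfold flip
  rw [cut_other H.hc h1 h2, sw_other h1 h2, ite_self]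

theorem flip_eq_other (h1 : γ ≠ α) (h2 : γ ≠ β) (h : flip k c x α β j u v = γ) :
    cut k c x α β j u v = γ := by
  unfold flip at h
  split_ifs at h
  · exact sw_eq_other h1 h2 h
  · exact h

theorem FlipOK.ne_zero (H : FlipOK I k c x α β j) (h : c u v ≠ 0) :
    flip k c x α β j u v ≠ 0 := fun e =>
  h (cut_eq (by omega) (flip_eq_other (by have := H.a1; omega) (by have := H.b1; omega) e)).2

theorem FlipOK.proper (H : FlipOK I k c x α β j) : Proper I k (flip k c x α β j) := by
  have P := H.cutp
  have a1 := H.a1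
  have b1 := H.b1
  have ak := H.ak
  have bk := H.bk
  have nz : ∀ a b, flip k c x α β j a b ≠ 0 → cut k c x α β j a b ≠ 0 := by
    intro a b h e
    apply h
    unfold flip
    rw [e, sw_other (by omega) (by omega), ite_self]
  refine ⟨fun a b => ?_, fun a b h => P.edge _ _ (nz _ _ h), fun a b => ?_, fun a b e h1 h2 => ?_⟩
  · unfold flip
    rw [P.symm a b]
    simp only [or_comm]
  · unfold flip
    split_ifs
    · exact sw_le (by omega) (by omega) (P.le _ _)
    · exact P.le _ _
  · refine P.inj a _ _ (nz _ _ h1) ?_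
    by_cases ha : a ∈ Cset c x α β j
    · rw [flip_in ha, flip_in ha] at h2
      exact sw_inj h2
    · rwa [H.out ha, H.out ha] at h2

theorem FlipOK.modif (H : FlipOK I k c x α β j) (hV : I.Valid k g) :
    ∃ z, Modif (I.N x) k c (flip k c x α β j) x α β z ∧
      (z = x ∨ ∃ i ≤ j, reach c x α β i ∧ path c x α β i = z) := by
  have a1 := H.a1
  have b1 := H.b1
  have ak := H.ak
  have bk := H.bk
  have hc := H.hc
  have base : ∀ z, (∀ w ∈ I.N x, w ≠ z → w ∈ Cset c x α β j → ¬ miss (c w) β) →
      (z ∈ I.N x → z ∈ Cset c x α β j ∧ ¬ reach c x α β (j + 1)) →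
      Modif (I.N x) k c (flip k c x α β j) x α β z := by
    intro z h1 h2
    refine ⟨fun w _ h => H.other (H.hx w) h, fun w _ h => ?_, fun w _ w' _ e1 e2 =>
      H.proper.inj _ _ _ e1 e2, fun w _ δ d1 dk da db hm a e => ?_, fun w hw hz hm a e => ?_,
      fun hz hm => ?_⟩
    · rw [flip_in x_mem_Cset]
      by_cases hs : spec c x α β j x w
      · rw [cut_spec hs, sw_other (by omega) (by omega)]; exact Or.inr rfl
      · rw [cut_not hs, h, sw_beta]; exact Or.inl rfl
    · exact hm a (cut_eq (by omega) (flip_eq_other da db e)).2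
    · by_cases hC : w ∈ Cset c x α β j
      · exact h1 w hw hz hC hm
      · rw [H.out hC] at e
        exact hm a (cut_eq (by omega) e).2
    · obtain ⟨z1, z2⟩ := h2 hz
      refine ⟨fun a e => ?_, fun w _ h => ?_⟩
      · rw [flip_in z1, cut_not fun hs => z2 hs.1] at e
        exact hm a (sw_inj (e.trans sw_beta.symm))
      · rw [flip_in x_mem_Cset, cut_not fun hs => z2 hs.1, h, sw_beta]
  have dead : ∀ w ∈ I.N x, w ∈ Cset c x α β j → miss (c w) β →
      ∃ i ≤ j, reach c x α β i ∧ ¬ reach c x α β (i + 1) ∧ path c x α β i = w := by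
    rintro w hw ⟨i, hi, hr, rfl⟩ hm
    refine ⟨i, hi, hr, fun hr' => ?_, rfl⟩
    cases i with
    | zero => exact hV.irrefl _ hw
    | succ m =>
      have e1 := path_step hr
      have e2 := path_step hr'
      rw [hc.symm] at e1
      rcases Nat.mod_two_eq_zero_or_one m with h0 | h0
      · exact hm _ (e1.trans (cidx_even h0))
      · exact hm _ (e2.trans (cidx_even (by omega)))
  by_cases hd : ∃ i ≤ j, reach c x α β i ∧ ¬ reach c x α β (i + 1)
  · obtain ⟨i, hi, hr, hn⟩ := hd
    refine ⟨path c x α β i, base _ (fun w hw hz hC hm => ?_) fun _ =>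
      ⟨⟨i, hi, hr, rfl⟩, fun h => hn (reach_mono h (by omega))⟩, Or.inr ⟨i, hi, hr, rfl⟩⟩
    obtain ⟨i', -, hr', hn', rfl⟩ := dead w hw hC hm
    rcases lt_trichotomy i i' with h | h | h
    · exact hn (reach_mono hr' h)
    · exact hz (by rw [h])
    · exact hn' (reach_mono hr h)
  · refine ⟨x, base _ (fun w hw _ hC hm => ?_) fun hz => absurd hz (hV.irrefl _), Or.inl rfl⟩
    obtain ⟨i', hi', hr', hn', -⟩ := dead w hw hC hm
    exact hd ⟨i', hi', hr', hn'⟩

theorem star_x {d : ℕ → ℕ} : star c x d x v = d v := if_pos rfl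

theorem star_ne {d : ℕ → ℕ} (h : u ≠ x) :
    star c x d u v = if v = x then d u else c u v := if_neg h

theorem star_proper {d : ℕ → ℕ} (hV : I.Valid k g) (hc : Proper I k c)
    (hd : StarOK (I.N x) k c x y d) : Proper I k (star c x d) := by
  have mem : ∀ w, d w ≠ 0 → w ∈ I.N x := fun w h => by
    by_contra hw; exact h (hd.off w hw)
  have dle : ∀ w, d w ≤ k + 1 := fun w => by
    by_cases hw : w ∈ I.N x
    · rcases hd.adm w hw with h | h
      · rw [h]; exact hc.le _ _
      · omega
    · rw [hd.off w hw]; omega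
  have key : ∀ a e, e ≠ x → d a ≠ 0 → d a ≠ c a e := by
    intro a e he h0 h
    rcases hd.adm a (mem a h0) with h1 | h1
    · rw [hc.symm] at h1
      exact he (hc.inj a _ _ (by omega) (h.symm.trans h1))
    · exact h1.2.2 e h.symm
  refine ⟨fun a b => ?_, fun a b h => ?_, fun a b => ?_, fun a b e h1 h2 => ?_⟩
  · unfold star
    split_ifs with h1 h2 h3 <;> simp_all [hc.symm a b]
  · unfold star at h
    split_ifs at h with h1 h2
    · rw [h1]; exact mem _ h
    · rw [h2]; exact hV.symm _ _ (mem _ h)
    · exact hc.edge _ _ h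
  · unfold star
    split_ifs
    · exact dle _
    · exact dle _
    · exact hc.le _ _
  · by_cases ha : a = x
    · subst ha
      rw [star_x] at h1 h2
      rw [star_x] at h2
      exact hd.inj _ _ h1 h2
    · rw [star_ne ha] at h1 h2
      rw [star_ne ha] at h2
      by_cases hb : b = x <;> by_cases he : e = x
      · rw [hb, he]
      · rw [if_pos hb] at h1 h2
        rw [if_neg he] at h2
        exact absurd h2 (key a e he h1)
      · rw [if_neg hb] at h1 h2
        rw [if_pos he] at h2
        exact absurd h2.symm (key a b hb (by omega))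
      · rw [if_neg hb] at h1 h2
        rw [if_neg he] at h2
        exact hc.inj _ _ _ h1 h2

end Pool.Agent.Lib.MP_459a07_lc
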