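import Mathlib

/-! The randomized LOCAL model. -/

set_option autoImplicit false

namespace Pool.Agent.Lib.MP_459a07_lc

open Classical

/-- A distributed algorithm: every vertex has `B` private random bits, starts from a state that
depends on its identifier and its bits, in each round sends its state to all neighbours and
computes its new state from the old one and the states received, and finally names a colour in
`Fin q` for the edge to the neighbour with a given identifier. -/
structure Alg (B q : ℕ) where
  State : Type
  init : ℕ → (Fin B → Bool) → State
  step : State → Multiset State → State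
  out : State → ℕ → Fin q

/-- The state of each vertex after `t` synchronous rounds. -/
noncomputable def Alg.run {B q n : ℕ} (A : Alg B q) (G : SimpleGraph (Fin n)) (id : Fin n → ℕ)
    (ω : Fin n → Fin B → Bool) : ℕ → Fin n → A.State
  | 0 => fun v => A.init (id v) (ω v)
  | t + 1 => fun v => A.step (A.run G id ω t v) ((G.neighborFinset v).val.map (A.run G id ω t))

/-- After `T` rounds the outputs form a proper edge colouring. -/
def Alg.Colours {B q n : ℕ} (A : Alg B q) (G : SimpleGraph (Fin n)) (id : Fin n → ℕ) (T : ℕ)
    (ω : Fin n → Fin B → Bool) : Prop :=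
  (∀ u v, G.Adj u v → A.out (A.run G id ω T u) (id v) = A.out (A.run G id ω T v) (id u)) ∧
    ∀ u v w, G.Adj u v → G.Adj u w → v ≠ w →
      A.out (A.run G id ω T u) (id v) ≠ A.out (A.run G id ω T u) (id w)

/-- Every edge `x y` lies on no odd cycle of length at most `g + 1`, or has an end all of whose
other neighbours have degree less than `Δ`. -/
def Tame {n : ℕ} (G : SimpleGraph (Fin n)) (Δ g : ℕ) : Prop :=
  ∀ x y, G.Adj x y → (∀ p : G.Walk x y, p.IsPath → p.length ≤ g → Odd p.length) ∨
    (∀ w, G.Adj x w → w ≠ y → G.degree w < Δ) ∨ ∀ w, G.Adj y w → w ≠ x → G.degree w < Δ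

end Pool.Agent.Lib.MP_459a07_lc
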