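import Pool.Agent.Lib.MP_459a07_lc.Pot
import Pool.Agent.Lib.MP_459a07_lc.Act

set_option autoImplicit false

namespace Pool.Agent.Lib.MP_459a07_lc

open Classical

variable {ι : Type} [Fintype ι] {a l k g : ℕ} [NeZero a] [NeZero l] {id : ι → ℕ} {I : Inst}

omit [Fintype ι] in
theorem probB_extV (hid : Function.Injective id) (z : ι → Fin a × Fin l) (i : ι) :
    extV id z (id i) = z i := hid.extend_apply _ _ i

/-- A step does nothing or is the event of an active vertex. -/
theorem probB_cases (hid : Function.Injective id) (hS : I.S = Finset.univ.image id) (c : Col)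
    (z : ι → Fin a × Fin l) :
    step1 I k c (extV id z) = c ∨ ∃ (i : ι) (j : Fin l), z i = (0, j) ∧
      step1 I k c (extV id z) = ev I k c (id i) j := by
  unfold step1
  split_ifs with h
  · right
    have h1 : (epsilon fun v => v ∈ I.S ∧ active (extV id z) v) ∈ I.S ∧
        active (extV id z) (epsilon fun v => v ∈ I.S ∧ active (extV id z) v) :=
      epsilon_spec (p := fun v => v ∈ I.S ∧ active (extV id z) v) h.exists
    generalize (epsilon fun v => v ∈ I.S ∧ active (extV id z) v) = u at h1 ⊢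
    obtain ⟨h2, h3⟩ := h1
    rw [hS] at h2
    obtain ⟨i, -, rfl⟩ := Finset.mem_image.1 h2
    rw [active, probB_extV hid] at h3
    refine ⟨i, (z i).2, Prod.ext (Fin.ext (by simpa using h3)) rfl, ?_⟩
    rw [probB_extV hid]
  · left
    rfl

/-- With a single active vertex the step is its event. -/
theorem probB_unique (hid : Function.Injective id) (hS : I.S = Finset.univ.image id) (c : Col)
    {z : ι → Fin a × Fin l} {i : ι} {j : Fin l} (h1 : z i = (0, j))
    (h2 : ∀ i', i' ≠ i → ((z i').1 : ℕ) ≠ 0) :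
    step1 I k c (extV id z) = ev I k c (id i) j := by
  have hu : ∀ v, v ∈ I.S ∧ active (extV id z) v → v = id i := by
    rintro v ⟨hv, ha⟩
    rw [hS] at hv
    obtain ⟨i', -, rfl⟩ := Finset.mem_image.1 hv
    rw [active, probB_extV hid] at ha
    by_contra hne
    exact h2 i' (fun e => hne (by rw [e])) ha
  have hi : id i ∈ I.S ∧ active (extV id z) (id i) := by
    refine ⟨by rw [hS]; exact Finset.mem_image_of_mem _ (Finset.mem_univ _), ?_⟩
    rw [active, probB_extV hid, h1]
    simp
  have he : (epsilon fun v => v ∈ I.S ∧ active (extV id z) v) = id i :=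
    hu _ (epsilon_spec (p := fun v => v ∈ I.S ∧ active (extV id z) v) ⟨id i, hi⟩)
  unfold step1
  rw [if_pos ⟨id i, hi, hu⟩, he, probB_extV hid, h1]

omit [Fintype ι] in
theorem probB_run (T : ℕ) (ω : Fin T → ι → Fin a × Fin l) (t : ℕ) :
    run1 I k (extW T id ω) t =
      runL (fun c z => step1 I k c (extV id z)) (fun _ _ => 0)
        (extT T (fun _ => default) ω) t := by
  induction t with
  | zero => rfl
  | succ t ih =>
    unfold run1 at ih ⊢
    simp only [runL]
    rw [ih]
    rfl

theorem probB_zero : Proper I k (fun _ _ => 0) :=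
  ⟨fun _ _ => rfl, fun _ _ h => absurd rfl h, fun _ _ => Nat.zero_le _,
    fun _ _ _ h => absurd rfl h⟩

omit [NeZero a] [NeZero l] in
/-- Few pairs (vertex, position) lead into `X`. -/
theorem probB_pairs (hV : I.Valid k g) (hid : Function.Injective id) {c : Col}
    (hc : Proper I k c) (X : Finset ℕ) (e : ℕ) :
    (Finset.univ.filter fun p : ι × Fin l => hole I c (id p.1) ∧ rch I k c (id p.1) (p.2 + e) ∧
      pth I k c (id p.1) (p.2 + e) ∈ X).card ≤ 2 * k ^ 2 * X.card := by
  refine Finset.card_le_mul_card_image_of_maps_to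
    (f := fun p : ι × Fin l => pth I k c (id p.1) (p.2 + e))
    (fun p hp => (Finset.mem_filter.1 hp).2.2.2) _ fun b _ => ?_
  have hinj : Function.Injective fun p : ι × Fin l => (id p.1, (p.2 : ℕ) + e) := by
    intro p p' h
    simp only [Prod.mk.injEq] at h
    exact Prod.ext (hid h.1) (Fin.ext (by omega))
  rw [← Finset.card_image_of_injective _ hinj]
  refine mult hV hc b _ fun q hq => ?_
  obtain ⟨p, hp, rfl⟩ := Finset.mem_image.1 hq
  obtain ⟨hp1, hp2⟩ := Finset.mem_filter.1 hp
  obtain ⟨-, h1, h2, -⟩ := Finset.mem_filter.1 hp1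
  exact ⟨h1, h2, hp2⟩

/-- The one step bound for the covered vertices. -/
theorem probB_cov_step (hV : I.Valid k g) (hid : Function.Injective id)
    (hS : I.S = Finset.univ.image id) (X : Finset ℕ) (V : ℝ) (hV1 : 1 ≤ V) {c : Col}
    (hc : Proper I k c) :
    ∑ z : ι → Fin a × Fin l, V ^ (X.filter (cov k (step1 I k c (extV id z)))).card ≤
      (1 + 4 * k ^ 2 * X.card * V ^ 2 / (a * l)) * Fintype.card (ι → Fin a × Fin l) *
        V ^ (X.filter (cov k c)).card := by
  have ha : (0 : ℝ) < a := Nat.cast_pos.2 (NeZero.pos a)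
  have hl : (0 : ℝ) < l := Nat.cast_pos.2 (NeZero.pos l)
  obtain ⟨B, hB⟩ : ∃ B : Finset (ι × Fin l), B = Finset.univ.filter fun p : ι × Fin l =>
      hole I c (id p.1) ∧ rch I k c (id p.1) (p.2 + 1) ∧
        (pth I k c (id p.1) p.2 ∈ X ∨ pth I k c (id p.1) (p.2 + 1) ∈ X) := ⟨_, rfl⟩
  have hBc : B.card ≤ 4 * k ^ 2 * X.card := by
    have h0 := probB_pairs (l := l) hV hid hc X 0
    have h1 := probB_pairs (l := l) hV hid hc X 1
    refine le_trans (Finset.card_le_card ?_)
      ((Finset.card_union_le _ _).trans ((add_le_add h0 h1).trans (le_of_eq (by ring))))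
    intro p hp
    rw [hB] at hp
    obtain ⟨-, h2, h3, h4⟩ := Finset.mem_filter.1 hp
    simp only [Finset.mem_union, Finset.mem_filter, Finset.mem_univ, true_and]
    rcases h4 with h4 | h4
    · exact Or.inl ⟨h2, reach_mono h3 (by omega), h4⟩
    · exact Or.inr ⟨h2, h3, h4⟩
  obtain ⟨Z, hZ⟩ : ∃ Z : Finset (ι → Fin a × Fin l), Z = B.biUnion fun p =>
      Finset.univ.filter fun z : ι → Fin a × Fin l => z p.1 = (0, p.2) := ⟨_, rfl⟩
  have hZc : (Z.card : ℝ) ≤ 4 * k ^ 2 * X.card / (a * l) * Fintype.card (ι → Fin a × Fin l) := by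
    have h1 : (Z.card : ℝ) ≤ ∑ p ∈ B, ((Finset.univ.filter fun z : ι → Fin a × Fin l =>
        z p.1 = (0, p.2)).card : ℝ) := by
      rw [hZ]
      exact_mod_cast Finset.card_biUnion_le
    have h2 : ∀ p ∈ B, ((Finset.univ.filter fun z : ι → Fin a × Fin l =>
        z p.1 = (0, p.2)).card : ℝ) = Fintype.card (ι → Fin a × Fin l) / (a * l) := by
      intro p _
      rw [eq_div_iff (by positivity)]
      convert slot_val (a := a) (l := l) p.1 (0, p.2)
    rw [Finset.sum_congr rfl h2, Finset.sum_const, nsmul_eq_mul] at h1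
    have h3 : (B.card : ℝ) ≤ 4 * k ^ 2 * X.card := by exact_mod_cast hBc
    calc (Z.card : ℝ) ≤ _ := h1
      _ ≤ 4 * k ^ 2 * X.card * (Fintype.card (ι → Fin a × Fin l) / (a * l)) := by gcongr
      _ = _ := by ring
  have hpt : ∀ z : ι → Fin a × Fin l, V ^ (X.filter (cov k (step1 I k c (extV id z)))).card ≤
      V ^ (X.filter (cov k c)).card +
        if z ∈ Z then V ^ 2 * V ^ (X.filter (cov k c)).card else 0 := by
    intro z
    have hp : 0 ≤ V ^ (X.filter (cov k c)).card := by positivity
    rcases probB_cases (k := k) hid hS c z with h | ⟨i, j, hz, h⟩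
    · rw [h]
      split_ifs
      · exact le_add_of_nonneg_right (by positivity)
      · simp
    · rw [h]
      split_ifs with hm
      · have h1 : X.filter (cov k (ev I k c (id i) j)) ⊆
            insert (pth I k c (id i) j) (insert (pth I k c (id i) (j + 1))
              (X.filter (cov k c))) := by
          intro v hv
          obtain ⟨hv1, hv2⟩ := Finset.mem_filter.1 hv
          simp only [Finset.mem_insert, Finset.mem_filter]
          rcases ev_cov_new hV hc hv2 with h2 | ⟨-, -, h2 | h2⟩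
          · exact Or.inr (Or.inr ⟨hv1, h2⟩)
          · exact Or.inl h2
          · exact Or.inr (Or.inl h2)
        have h2 := (Finset.card_le_card h1).trans ((Finset.card_insert_le _ _).trans
          (Nat.add_le_add_right (Finset.card_insert_le _ _) 1))
        rw [← pow_add]
        exact (pow_le_pow_right₀ hV1 (by omega)).trans (le_add_of_nonneg_left hp)
      · rw [add_zero]
        refine pow_le_pow_right₀ hV1 (Finset.card_le_card fun v hv => ?_)
        obtain ⟨hv1, hv2⟩ := Finset.mem_filter.1 hv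
        refine Finset.mem_filter.2 ⟨hv1, ?_⟩
        rcases ev_cov_new hV hc hv2 with h2 | ⟨h2, h3, h4⟩
        · exact h2
        · refine absurd ?_ hm
          rw [hZ, Finset.mem_biUnion]
          refine ⟨(i, j), ?_, Finset.mem_filter.2 ⟨Finset.mem_univ _, hz⟩⟩
          rw [hB]
          refine Finset.mem_filter.2 ⟨Finset.mem_univ _, h2, h3, ?_⟩
          rcases h4 with h4 | h4
          · exact Or.inl (h4 ▸ hv1)
          · exact Or.inr (h4 ▸ hv1)
  refine (Finset.sum_le_sum fun z _ => hpt z).trans ?_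
  rw [Finset.sum_add_distrib, Finset.sum_ite_mem, Finset.univ_inter, Finset.sum_const,
    Finset.sum_const, Finset.card_univ, nsmul_eq_mul, nsmul_eq_mul]
  have h1 := mul_le_mul_of_nonneg_right hZc
    (show 0 ≤ V ^ 2 * V ^ (X.filter (cov k c)).card by positivity)
  refine (add_le_add_right h1 _).trans (le_of_eq ?_)
  ring

/-- `pot` with `f c = (W ^ D) ^ #(X.filter (cov k c))`, `q = 1 + 4 k ^ 2 |X| W ^ (2 D) / (a l)`. -/
theorem prob_cov (hV : I.Valid k g) (hid : Function.Injective id)
    (hS : I.S = Finset.univ.image id) (T D : ℕ) (X : Finset ℕ) (W : ℝ) (hW : 1 ≤ W) :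
    ((Finset.univ.filter fun ω : Fin T → ι → Fin a × Fin l =>
      X.card ≤ D * (X.filter (cov k (run1 I k (extW T id ω) T))).card).card : ℝ) ≤
      (Real.exp (4 * k ^ 2 * W ^ (2 * D) * T / (a * l)) / W) ^ X.card *
        Fintype.card (Fin T → ι → Fin a × Fin l) := by
  have ha : (0 : ℝ) < a := Nat.cast_pos.2 (NeZero.pos a)
  have hl : (0 : ℝ) < l := Nat.cast_pos.2 (NeZero.pos l)
  have hW0 : 0 < W := by linarith
  have hV1 : 1 ≤ W ^ D := one_le_pow₀ hW
  have h := pot (fun c (z : ι → Fin a × Fin l) => step1 I k c (extV id z)) (Proper I k)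
    (fun c => (W ^ D) ^ (X.filter (cov k c)).card)
    (1 + 4 * k ^ 2 * X.card * (W ^ D) ^ 2 / (a * l)) (by positivity)
    (fun c z hc => step1_proper hV hc _)
    (fun c hc => probB_cov_step hV hid hS X _ hV1 hc) (fun _ _ => 0) probB_zero
    (fun _ => default) T
  have h0 : X.filter (cov k (fun _ _ => 0)) = ∅ :=
    Finset.filter_eq_empty_iff.2 fun v _ hv => hv fun u => (Nat.succ_ne_zero k).symm
  simp only [h0, Finset.card_empty, pow_zero, mul_one, ← probB_run] at h
  have h1 : ((Finset.univ.filter fun ω : Fin T → ι → Fin a × Fin l =>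
      X.card ≤ D * (X.filter (cov k (run1 I k (extW T id ω) T))).card).card : ℝ) * W ^ X.card ≤
      ∑ ω : Fin T → ι → Fin a × Fin l,
        (W ^ D) ^ (X.filter (cov k (run1 I k (extW T id ω) T))).card := by
    rw [← nsmul_eq_mul]
    refine le_trans (Finset.card_nsmul_le_sum _ (fun ω : Fin T → ι → Fin a × Fin l =>
        (W ^ D) ^ (X.filter (cov k (run1 I k (extW T id ω) T))).card) _ fun ω hω => ?_)
      (Finset.sum_le_sum_of_subset_of_nonneg (Finset.filter_subset _ _)
        fun _ _ _ => by positivity)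
    rw [← pow_mul]
    exact pow_le_pow_right₀ hW (Finset.mem_filter.1 hω).2
  have h2 : (1 + 4 * k ^ 2 * X.card * (W ^ D) ^ 2 / (a * l) : ℝ) ^ T ≤
      Real.exp (4 * k ^ 2 * W ^ (2 * D) * T / (a * l)) ^ X.card := by
    calc (1 + 4 * k ^ 2 * X.card * (W ^ D) ^ 2 / (a * l) : ℝ) ^ T ≤
          Real.exp (4 * k ^ 2 * X.card * (W ^ D) ^ 2 / (a * l)) ^ T :=
          pow_le_pow_left₀ (by positivity) (by rw [add_comm]; exact Real.add_one_le_exp _) T
      _ = _ := by
          rw [← Real.exp_nat_mul, ← Real.exp_nat_mul]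
          congr 1
          ring
  rw [div_pow, div_mul_eq_mul_div, le_div_iff₀ (by positivity)]
  refine h1.trans (le_trans ?_ (mul_le_mul_of_nonneg_right h2 (Nat.cast_nonneg _)))
  convert h

/-- The potential used for the holes. -/
noncomputable def probBf (I : Inst) (D : ℕ) (X : Finset ℕ) (s : Col × Prop) : ℝ :=
  if s.2 ∧ X.card ≤ D * (X.filter (hole I s.1)).card then 2 ^ (∑ x ∈ X, nh I s.1 x) else 0

/-- Few holes of `X` are half blocked. -/
def probBgood (I : Inst) (k l D : ℕ) (X : Finset ℕ) (c : Col) : Prop :=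
  2 * D * (X.filter fun x => hole I c x ∧ halfb I k l c x).card < X.card

omit [NeZero a] [NeZero l] in
/-- Many pairs (vertex, position) are successful. -/
theorem probB_many (hid : Function.Injective id) (hS : I.S = Finset.univ.image id) {D : ℕ}
    {X : Finset ℕ} (hX : X ⊆ I.S) {c : Col} (h1 : probBgood I k l D X c)
    (h2 : X.card ≤ D * (X.filter (hole I c)).card) :
    X.card * l ≤ 4 * D * (Finset.univ.filter fun p : ι × Fin l =>
      id p.1 ∈ X ∧ hole I c (id p.1) ∧ unbl I k c (id p.1) p.2).card := by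
  obtain ⟨H, hH⟩ : ∃ H : Finset ι, H = Finset.univ.filter fun i =>
      id i ∈ X ∧ hole I c (id i) ∧ ¬ halfb I k l c (id i) := ⟨_, rfl⟩
  have h3 : (X.filter (hole I c)).card ≤
      (X.filter fun x => hole I c x ∧ halfb I k l c x).card + H.card := by
    rw [← Finset.card_image_of_injective H hid]
    refine le_trans (Finset.card_le_card fun x hx => ?_) (Finset.card_union_le _ _)
    obtain ⟨hx1, hx2⟩ := Finset.mem_filter.1 hx
    rw [Finset.mem_union]
    by_cases hb : halfb I k l c x
    · exact Or.inl (Finset.mem_filter.2 ⟨hx1, hx2, hb⟩)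
    · have hx3 := hX hx1
      rw [hS] at hx3
      obtain ⟨i, -, rfl⟩ := Finset.mem_image.1 hx3
      refine Or.inr (Finset.mem_image_of_mem _ ?_)
      rw [hH]
      exact Finset.mem_filter.2 ⟨Finset.mem_univ _, hx1, hx2, hb⟩
  have h4 : X.card ≤ 2 * D * H.card := by
    unfold probBgood at h1
    have h5 := Nat.mul_le_mul_left D h3
    nlinarith
  have h5 : ∀ i ∈ H, l ≤ 2 * (Finset.univ.filter fun j : Fin l => unbl I k c (id i) j).card := by
    intro i hi
    rw [hH] at hi
    have hb := (Finset.mem_filter.1 hi).2.2.2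
    unfold halfb at hb
    have h6 := Finset.card_filter_add_card_filter_not (s := Finset.range l)
      (fun j => unbl I k c (id i) j)
    rw [Finset.card_range] at h6
    have h7 : ((Finset.range l).filter fun j => unbl I k c (id i) j).card ≤
        (Finset.univ.filter fun j : Fin l => unbl I k c (id i) j).card := by
      rw [← Finset.card_image_of_injective (Finset.univ.filter fun j : Fin l =>
        unbl I k c (id i) j) Fin.val_injective]
      refine Finset.card_le_card fun j hj => ?_
      obtain ⟨hj1, hj2⟩ := Finset.mem_filter.1 hj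
      exact Finset.mem_image.2 ⟨⟨j, Finset.mem_range.1 hj1⟩,
        Finset.mem_filter.2 ⟨Finset.mem_univ _, hj2⟩, rfl⟩
    omega
  have h6 : ∑ i ∈ H, (Finset.univ.filter fun j : Fin l => unbl I k c (id i) j).card ≤
      (Finset.univ.filter fun p : ι × Fin l =>
        id p.1 ∈ X ∧ hole I c (id p.1) ∧ unbl I k c (id p.1) p.2).card := by
    rw [← Finset.card_sigma]
    refine Finset.card_le_card_of_injOn (fun q => (q.1, q.2)) (fun q hq => ?_) ?_
    · obtain ⟨hq1, hq2⟩ := Finset.mem_sigma.1 (Finset.mem_coe.1 hq)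
      rw [hH] at hq1
      obtain ⟨-, h7, h8, -⟩ := Finset.mem_filter.1 hq1
      exact Finset.mem_coe.2 (Finset.mem_filter.2 ⟨Finset.mem_univ _, h7, h8,
        (Finset.mem_filter.1 hq2).2⟩)
    · rintro ⟨i, j⟩ - ⟨i', j'⟩ - h
      simp only [Prod.mk.injEq] at h
      obtain ⟨rfl, rfl⟩ := h
      rfl
  have h7 : H.card * l ≤
      2 * ∑ i ∈ H, (Finset.univ.filter fun j : Fin l => unbl I k c (id i) j).card := by
    rw [Finset.mul_sum, ← smul_eq_mul]
    exact Finset.card_nsmul_le_sum _ _ _ h5
  calc X.card * l ≤ 2 * D * H.card * l := Nat.mul_le_mul_right _ h4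
    _ = 2 * D * (H.card * l) := by ring
    _ ≤ 2 * D * (2 * _) := Nat.mul_le_mul_left _ (h7.trans (Nat.mul_le_mul_left 2 h6))
    _ = _ := by ring

/-- The one step bound for the holes. -/
theorem probB_hole_step (hV : I.Valid k g) (hid : Function.Injective id)
    (hS : I.S = Finset.univ.image id) (ha : 2 * Fintype.card ι ≤ a) (hg : l ≤ g) {D : ℕ}
    (hD : 1 ≤ D) {X : Finset ℕ} (hX : X ⊆ I.S) (hq : 0 ≤ 1 - (X.card : ℝ) / (16 * D * a))
    {s : Col × Prop} (hc : Proper I k s.1) :
    ∑ z : ι → Fin a × Fin l,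
      probBf I D X (step1 I k s.1 (extV id z), s.2 ∧ probBgood I k l D X s.1) ≤
      (1 - (X.card : ℝ) / (16 * D * a)) * Fintype.card (ι → Fin a × Fin l) * probBf I D X s := by
  obtain ⟨c, b⟩ := s
  simp only at hc ⊢
  have ha0 : (0 : ℝ) < a := Nat.cast_pos.2 (NeZero.pos a)
  have hl0 : (0 : ℝ) < l := Nat.cast_pos.2 (NeZero.pos l)
  have hD0 : (0 : ℝ) < D := Nat.cast_pos.2 hD
  have hmono : ∀ z : ι → Fin a × Fin l, (X.filter (hole I (step1 I k c (extV id z)))).card ≤
      (X.filter (hole I c)).card := by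
    intro z
    rcases probB_cases (k := k) hid hS c z with h | ⟨i, j, -, h⟩
    · rw [h]
    · rw [h]
      exact Finset.card_le_card fun v hv => Finset.mem_filter.2
        ⟨(Finset.mem_filter.1 hv).1, hole_mono hV hc (Finset.mem_filter.1 hv).2⟩
  by_cases hb : (b ∧ probBgood I k l D X c) ∧ X.card ≤ D * (X.filter (hole I c)).card
  swap
  · have h0 : ∀ z : ι → Fin a × Fin l,
        probBf I D X (step1 I k c (extV id z), b ∧ probBgood I k l D X c) = 0 := by
      intro z
      unfold probBf
      exact if_neg fun h => hb ⟨h.1, h.2.trans (Nat.mul_le_mul_left D (hmono z))⟩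
    simp only [h0, Finset.sum_const_zero]
    refine mul_nonneg (mul_nonneg hq (Nat.cast_nonneg _)) ?_
    unfold probBf
    split_ifs <;> positivity
  obtain ⟨⟨hb1, hb2⟩, hb3⟩ := hb
  have hf : probBf I D X (c, b) = 2 ^ (∑ x ∈ X, nh I c x) := if_pos ⟨hb1, hb3⟩
  obtain ⟨P, hP⟩ : ∃ P : Finset (ι × Fin l), P = Finset.univ.filter fun p : ι × Fin l =>
      id p.1 ∈ X ∧ hole I c (id p.1) ∧ unbl I k c (id p.1) p.2 := ⟨_, rfl⟩
  have hPc : (X.card : ℝ) * l ≤ 4 * D * P.card := by
    rw [hP]
    exact_mod_cast probB_many hid hS hX hb2 hb3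
  obtain ⟨Z, hZ⟩ : ∃ Z : Finset (ι → Fin a × Fin l), Z = P.biUnion fun p =>
      Finset.univ.filter fun z : ι → Fin a × Fin l =>
        z p.1 = (0, p.2) ∧ ∀ i', i' ≠ p.1 → ((z i').1 : ℕ) ≠ 0 := ⟨_, rfl⟩
  have hZc : (P.card : ℝ) * Fintype.card (ι → Fin a × Fin l) ≤ Z.card * (2 * a * l) := by
    have h1 : Z.card = ∑ p ∈ P, (Finset.univ.filter fun z : ι → Fin a × Fin l =>
        z p.1 = (0, p.2) ∧ ∀ i', i' ≠ p.1 → ((z i').1 : ℕ) ≠ 0).card := by
      rw [hZ]
      refine Finset.card_biUnion fun p _ p' _ hne => Finset.disjoint_left.2 fun z hz hz' => ?_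
      obtain ⟨-, h2, h3⟩ := Finset.mem_filter.1 hz
      obtain ⟨-, h4, -⟩ := Finset.mem_filter.1 hz'
      have h5 : p'.1 = p.1 := by
        by_contra h6
        exact h3 _ h6 (by rw [h4]; simp)
      rw [h5, h2] at h4
      exact hne (Prod.ext h5.symm (Prod.mk.inj h4).2)
    rw [h1, Nat.cast_sum, Finset.sum_mul, ← nsmul_eq_mul]
    refine Finset.card_nsmul_le_sum _ _ _ fun p _ => ?_
    convert slot_unique ha p.1 p.2
  have hpt : ∀ z : ι → Fin a × Fin l,
      probBf I D X (step1 I k c (extV id z), b ∧ probBgood I k l D X c) ≤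
        2 ^ (∑ x ∈ X, nh I c x) - if z ∈ Z then 2 ^ (∑ x ∈ X, nh I c x) / 2 else 0 := by
    intro z
    have h1 : probBf I D X (step1 I k c (extV id z), b ∧ probBgood I k l D X c) ≤
        2 ^ (∑ x ∈ X, nh I (step1 I k c (extV id z)) x) := by
      unfold probBf
      split_ifs
      · exact le_rfl
      · positivity
    refine h1.trans ?_
    split_ifs with hm
    · rw [hZ, Finset.mem_biUnion] at hm
      obtain ⟨p, hp, hz⟩ := hm
      rw [hP] at hp
      obtain ⟨-, hp1, hp2, hp3⟩ := Finset.mem_filter.1 hp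
      obtain ⟨-, hz1, hz2⟩ := Finset.mem_filter.1 hz
      rw [probB_unique hid hS c hz1 hz2]
      have h2 : ∑ x ∈ X, nh I (ev I k c (id p.1) p.2) x < ∑ x ∈ X, nh I c x :=
        Finset.sum_lt_sum (fun x _ => nh_mono hV hc)
          ⟨id p.1, hp1, nh_lt hV hc hp2 hp3 (p.2.2.le.trans hg)⟩
      have h3 : (2 : ℝ) ^ (∑ x ∈ X, nh I (ev I k c (id p.1) p.2) x + 1) ≤
          2 ^ (∑ x ∈ X, nh I c x) := pow_le_pow_right₀ (by norm_num) h2
      rw [pow_succ] at h3
      linarith
    · rw [sub_zero]
      refine pow_le_pow_right₀ (by norm_num) (Finset.sum_le_sum fun x _ => ?_)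
      rcases probB_cases (k := k) hid hS c z with h | ⟨i, j, -, h⟩
      · rw [h]
      · rw [h]
        exact nh_mono hV hc
  refine (Finset.sum_le_sum fun z _ => hpt z).trans ?_
  rw [Finset.sum_sub_distrib, Finset.sum_ite_mem, Finset.univ_inter, Finset.sum_const,
    Finset.sum_const, Finset.card_univ, nsmul_eq_mul, nsmul_eq_mul, hf]
  have h1 : (X.card : ℝ) / (16 * D * a) * Fintype.card (ι → Fin a × Fin l) ≤ Z.card / 2 := by
    rw [div_mul_eq_mul_div, div_le_div_iff₀ (by positivity) (by norm_num)]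
    refine le_of_mul_le_mul_right ?_ hl0
    have h2 := mul_le_mul_of_nonneg_right hPc
      (Nat.cast_nonneg (α := ℝ) (Fintype.card (ι → Fin a × Fin l)))
    have h3 := mul_le_mul_of_nonneg_left hZc (show (0 : ℝ) ≤ 4 * D by positivity)
    linarith
  have h2 := mul_le_mul_of_nonneg_right h1
    (show (0 : ℝ) ≤ 2 ^ (∑ x ∈ X, nh I c x) by positivity)
  linarith

omit [Fintype ι] in
theorem probB_run_pair (T D : ℕ) (X : Finset ℕ) (ω : Fin T → ι → Fin a × Fin l) (t : ℕ) :
    runL (fun (s : Col × Prop) (z : ι → Fin a × Fin l) =>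
        (step1 I k s.1 (extV id z), s.2 ∧ probBgood I k l D X s.1)) (fun _ _ => 0, True)
      (extT T (fun _ => default) ω) t =
      (run1 I k (extW T id ω) t, ∀ t' < t, probBgood I k l D X (run1 I k (extW T id ω) t')) := by
  induction t with
  | zero => exact Prod.ext rfl (by simp [runL])
  | succ t ih =>
    simp only [runL]
    rw [ih]
    exact Prod.ext rfl (propext Nat.forall_lt_succ_right.symm)

/-- `pot` on pairs (colouring, flag) with `f = 2 ^ (∑ x ∈ X, nh x)` while the flag is up and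
`|X| ≤ D #holes`, else `0`; `q = 1 - |X| / (16 D a)`. -/
theorem prob_hole (hV : I.Valid k g) (hid : Function.Injective id)
    (hS : I.S = Finset.univ.image id) (ha : 2 * Fintype.card ι ≤ a) (hg : l ≤ g) (T D : ℕ)
    (hD : 1 ≤ D) (X : Finset ℕ) (hX : X ⊆ I.S) :
    ((Finset.univ.filter fun ω : Fin T → ι → Fin a × Fin l =>
      X.card ≤ D * (X.filter (hole I (run1 I k (extW T id ω) T))).card ∧
      ∀ t < T, 2 * D * (X.filter fun x => hole I (run1 I k (extW T id ω) t) x ∧
        halfb I k l (run1 I k (extW T id ω) t) x).card < X.card).card : ℝ) ≤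
      (2 ^ k * Real.exp (-(T / (16 * D * a)))) ^ X.card *
        Fintype.card (Fin T → ι → Fin a × Fin l) := by
  have ha0 : (0 : ℝ) < a := Nat.cast_pos.2 (NeZero.pos a)
  have hD1 : (1 : ℝ) ≤ D := by exact_mod_cast hD
  have hq : 0 ≤ 1 - (X.card : ℝ) / (16 * D * a) := by
    have h1 : X.card ≤ Fintype.card ι := by
      refine (Finset.card_le_card hX).trans ?_
      rw [hS]
      exact Finset.card_image_le
    have h2 : (X.card : ℝ) ≤ a := by exact_mod_cast (show X.card ≤ a by omega)
    rw [sub_nonneg, div_le_one (by positivity)]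
    nlinarith
  have h := pot (fun (s : Col × Prop) (z : ι → Fin a × Fin l) =>
      (step1 I k s.1 (extV id z), s.2 ∧ probBgood I k l D X s.1)) (fun s => Proper I k s.1)
    (probBf I D X) (1 - (X.card : ℝ) / (16 * D * a)) hq
    (fun s z hc => step1_proper hV hc _)
    (fun s hc => probB_hole_step hV hid hS ha hg hD hX hq hc) (fun _ _ => 0, True) probB_zero
    (fun _ => default) T
  simp only [probB_run_pair] at h
  have h0 : probBf I D X (fun _ _ => 0, True) ≤ (2 ^ k) ^ X.card := by
    unfold probBf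
    split_ifs
    · rw [← pow_mul]
      refine pow_le_pow_right₀ (by norm_num) ?_
      rw [mul_comm, ← smul_eq_mul]
      exact Finset.sum_le_card_nsmul _ _ _ fun x _ =>
        (Finset.card_filter_le _ _).trans (hV.deg x)
    · positivity
  have h1 : ((Finset.univ.filter fun ω : Fin T → ι → Fin a × Fin l =>
      X.card ≤ D * (X.filter (hole I (run1 I k (extW T id ω) T))).card ∧
      ∀ t < T, 2 * D * (X.filter fun x => hole I (run1 I k (extW T id ω) t) x ∧
        halfb I k l (run1 I k (extW T id ω) t) x).card < X.card).card : ℝ) ≤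
      ∑ ω : Fin T → ι → Fin a × Fin l, probBf I D X (run1 I k (extW T id ω) T,
        ∀ t' < T, probBgood I k l D X (run1 I k (extW T id ω) t')) := by
    rw [Finset.card_filter, Nat.cast_sum]
    refine Finset.sum_le_sum fun ω _ => ?_
    unfold probBf
    split_ifs with h2 h3 h3
    · rw [Nat.cast_one]
      exact one_le_pow₀ (by norm_num)
    · exact absurd ⟨h2.2, h2.1⟩ h3
    · rw [Nat.cast_zero]
      positivity
    · rw [Nat.cast_zero]
  have h2 : (1 - (X.card : ℝ) / (16 * D * a)) ^ T ≤
      Real.exp (-(T / (16 * D * a))) ^ X.card := by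
    calc (1 - (X.card : ℝ) / (16 * D * a)) ^ T ≤ Real.exp (-(X.card / (16 * D * a))) ^ T :=
          pow_le_pow_left₀ hq (Real.one_sub_le_exp_neg _) T
      _ = _ := by
          rw [← Real.exp_nat_mul, ← Real.exp_nat_mul]
          congr 1
          ring
  refine h1.trans ?_
  calc _ ≤ (1 - (X.card : ℝ) / (16 * D * a)) ^ T * Fintype.card (Fin T → ι → Fin a × Fin l) *
        probBf I D X (fun _ _ => 0, True) := by convert h
    _ ≤ Real.exp (-(T / (16 * D * a))) ^ X.card * Fintype.card (Fin T → ι → Fin a × Fin l) *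
        (2 ^ k) ^ X.card := by
        refine mul_le_mul (mul_le_mul_of_nonneg_right h2 (Nat.cast_nonneg _)) h0 ?_
          (by positivity)
        unfold probBf
        split_ifs <;> positivity
    _ = _ := by
        rw [mul_pow]
        ring

end Pool.Agent.Lib.MP_459a07_lc
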