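import Pool.Agent.Lib.MP_459a07_lc.ProbA
import Pool.Agent.Lib.MP_459a07_lc.ProbB

set_option autoImplicit false

namespace Pool.Agent.Lib.MP_459a07_lc

open Classical

def Good {a l : ℕ} (I : Inst) (k T m0 m1 : ℕ) (w : ℕ → ℕ → Fin a × Fin l) : Prop :=
  G1 I T w ∧ G2 I T m1 w ∧ G3 I k m0 (16 * (k + 1) ^ 2) (run1 I k w T) ∧
    G4 I k T m0 (16 * (k + 1) ^ 2) w

theorem conn_union {Ω : Type} [Fintype Ω] {I : Inst} {k g : ℕ} (hV : I.Valid k g) (m0 : ℕ)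
    (E : Finset ℕ → Ω → Prop) [∀ X, DecidablePred (E X)] (ρ r : ℝ) (hρ : 0 ≤ ρ) (hr : ((k : ℝ) + 1) ^ 2 * ρ ≤ r) (hr1 : r ≤ 1)
    (hE : ∀ X ⊆ I.S, ((Finset.univ.filter (E X)).card : ℝ) ≤ ρ ^ X.card * Fintype.card Ω) :
    ((Finset.univ.filter fun ω => ∃ (X : Finset ℕ) (b : ℕ), X ⊆ I.S ∧ Conn I.N X b ∧
      m0 ≤ X.card ∧ E X ω).card : ℝ) ≤ I.S.card * (I.S.card + 1) * r ^ m0 * Fintype.card Ω := by
  choose A hA1 hA2 using animals hV.symm hV.deg
  have hr0 : 0 ≤ r := le_trans (by positivity) hr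
  have hsub : (Finset.univ.filter fun ω => ∃ (X : Finset ℕ) (b : ℕ), X ⊆ I.S ∧ Conn I.N X b ∧
      m0 ≤ X.card ∧ E X ω) ⊆ (I.S ×ˢ Finset.Icc m0 I.S.card).biUnion fun q =>
      ((A q.1 q.2).filter fun X => X ⊆ I.S ∧ X.card = q.2).biUnion fun X =>
        Finset.univ.filter (E X) := by
    intro ω hω
    obtain ⟨X, b, h1, h2, h3, h4⟩ := (Finset.mem_filter.mp hω).2
    refine Finset.mem_biUnion.mpr ⟨(b, X.card), Finset.mem_product.mpr ⟨h1 h2.1,
      Finset.mem_Icc.mpr ⟨h3, Finset.card_le_card h1⟩⟩, Finset.mem_biUnion.mpr ⟨X,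
      Finset.mem_filter.mpr ⟨hA2 b _ X h2 rfl, h1, rfl⟩, Finset.mem_filter.mpr ⟨by simp, h4⟩⟩⟩
  have hone : ∀ q ∈ I.S ×ˢ Finset.Icc m0 I.S.card,
      ((((A q.1 q.2).filter fun X => X ⊆ I.S ∧ X.card = q.2).biUnion fun X =>
        Finset.univ.filter (E X)).card : ℝ) ≤ r ^ m0 * Fintype.card Ω := by
    intro q hq
    have hm := (Finset.mem_Icc.mp (Finset.mem_product.mp hq).2).1
    calc _ ≤ ∑ X ∈ (A q.1 q.2).filter fun X => X ⊆ I.S ∧ X.card = q.2,
          ((Finset.univ.filter (E X)).card : ℝ) := by exact_mod_cast Finset.card_biUnion_le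
      _ ≤ ∑ _X ∈ (A q.1 q.2).filter fun X => X ⊆ I.S ∧ X.card = q.2,
          ρ ^ q.2 * Fintype.card Ω := Finset.sum_le_sum fun X hX => by
            obtain ⟨-, h1, h2⟩ := Finset.mem_filter.mp hX
            rw [← h2]; exact hE X h1
      _ ≤ ((k : ℝ) + 1) ^ (2 * q.2) * (ρ ^ q.2 * Fintype.card Ω) := by
            rw [Finset.sum_const, nsmul_eq_mul]
            gcongr
            exact_mod_cast (Finset.card_filter_le _ _).trans (hA1 _ _)
      _ = (((k : ℝ) + 1) ^ 2 * ρ) ^ q.2 * Fintype.card Ω := by rw [mul_pow, pow_mul]; ring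
      _ ≤ r ^ q.2 * Fintype.card Ω := by gcongr
      _ ≤ r ^ m0 * Fintype.card Ω := by
            gcongr ?_ * _
            exact pow_le_pow_of_le_one hr0 hr1 hm
  calc _ ≤ ∑ q ∈ I.S ×ˢ Finset.Icc m0 I.S.card,
        ((((A q.1 q.2).filter fun X => X ⊆ I.S ∧ X.card = q.2).biUnion fun X =>
          Finset.univ.filter (E X)).card : ℝ) := by
        exact_mod_cast (Finset.card_le_card hsub).trans Finset.card_biUnion_le
    _ ≤ ∑ _q ∈ I.S ×ˢ Finset.Icc m0 I.S.card, r ^ m0 * Fintype.card Ω := Finset.sum_le_sum hone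
    _ ≤ _ := by
        rw [Finset.sum_const, nsmul_eq_mul, Finset.card_product, Nat.card_Icc, ← mul_assoc]
        gcongr
        have : I.S.card + 1 - m0 ≤ I.S.card + 1 := Nat.sub_le _ _
        exact_mod_cast Nat.mul_le_mul_left _ this

theorem exp_pow_le {η x : ℝ} (hη : 0 < η) (hx : 1 ≤ x) :
    Real.exp (-(4 / η)) ^ ⌈η * Real.log x⌉₊ ≤ 1 / x ^ 4 := by
  rw [← Real.exp_nat_mul]
  have h1 : η * Real.log x ≤ ⌈η * Real.log x⌉₊ := Nat.le_ceil _
  have h2 : (1 : ℝ) / x ^ 4 = Real.exp (-(4 * Real.log x)) := by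
    rw [Real.exp_neg, show 4 * Real.log x = ((4 : ℕ) : ℝ) * Real.log x by norm_num,
      Real.exp_nat_mul, Real.exp_log (by linarith), one_div]
  rw [h2]
  apply Real.exp_le_exp.mpr
  have h3 : 4 * Real.log x = η * Real.log x * (4 / η) := by field_simp
  rw [h3, mul_neg]
  have : 0 ≤ 4 / η := by positivity
  nlinarith

theorem card_four {Ω : Type} [Fintype Ω] (P A B C D : Ω → Prop) [DecidablePred P]
    [DecidablePred A] [DecidablePred B] [DecidablePred C] [DecidablePred D]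
    (h : ∀ ω, ¬ A ω → ¬ B ω → ¬ C ω → ¬ D ω → ¬ P ω) :
    ((Finset.univ.filter P).card : ℝ) ≤ (Finset.univ.filter A).card + (Finset.univ.filter B).card +
      (Finset.univ.filter C).card + (Finset.univ.filter D).card := by
  norm_cast
  refine le_trans (Finset.card_le_card fun ω hω => ?_) ((Finset.card_union_le _ _).trans
    (Nat.add_le_add_right ((Finset.card_union_le _ _).trans
      (Nat.add_le_add_right (Finset.card_union_le _ _) _)) _))
  simp only [Finset.mem_union, Finset.mem_filter, Finset.mem_univ, true_and] at hω ⊢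
  by_contra hcon
  simp only [not_or] at hcon
  exact h ω hcon.1.1.1 hcon.1.1.2 hcon.1.2 hcon.2 hω

theorem prob_good {ι : Type} [Fintype ι] {n a l k g T m0 m1 : ℕ} [NeZero a] [NeZero l]
    {id : ι → ℕ} {I : Inst} (hι : Fintype.card ι = n)
    (hV : I.Valid k g) (hid : Function.Injective id) (hS : I.S = Finset.univ.image id)
    (hn : 5 ≤ n) (ha : 2 * n ≤ a) (hg : l ≤ g) (hm1 : 1 ≤ m1) (r W Y : ℝ) (hW : 1 ≤ W) (hY : 1 ≤ Y)
    (hr1 : r ≤ 1) (hr : r ^ m0 ≤ 1 / (n : ℝ) ^ 4)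
    (h1 : T * (n : ℝ) ^ 2 / (a : ℝ) ^ 2 ≤ 1 / (4 * n))
    (h2 : n * (((k : ℝ) + 1) ^ (2 * (l + 1)) / Y) ^ m1 * Real.exp (T * Y / a) ≤ 1 / (4 * n))
    (h3 : ((k : ℝ) + 1) ^ 2 *
      (Real.exp (4 * k ^ 2 * W ^ (2 * (16 * (k + 1) ^ 2)) * T / (a * l)) / W) ≤ r)
    (h4 : ((k : ℝ) + 1) ^ 2 *
      (2 ^ k * Real.exp (-(T / (16 * (16 * (k + 1) ^ 2 : ℕ) * a)))) ≤ r) :
    ((Finset.univ.filter fun ω : Fin T → ι → Fin a × Fin l =>
      ¬ Good I k T m0 m1 (extW T id ω)).card : ℝ) ≤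
      1 / n * Fintype.card (Fin T → ι → Fin a × Fin l) := by
  have hc : I.S.card = n := by rw [hS, Finset.card_image_of_injective _ hid, Finset.card_univ, hι]
  have hn' : (5 : ℝ) ≤ n := by exact_mod_cast hn
  have p1 := prob_G1 (a := a) (l := l) hid hS T
  have p2 := prob_G2 (a := a) (l := l) hV hid hS T m1 hm1 Y hY
  have p3 := conn_union hV m0 _ _ r (by positivity) h3 hr1 fun X _ =>
    prob_cov (a := a) (l := l) hV hid hS T (16 * (k + 1) ^ 2) X W hW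
  have p4 := conn_union hV m0 _ _ r (by positivity) h4 hr1 fun X hX =>
    prob_hole (a := a) (l := l) hV hid hS (hι ▸ ha) hg T (16 * (k + 1) ^ 2)
      (Nat.one_le_iff_ne_zero.mpr (by positivity)) X hX
  rw [hc] at p3 p4
  rw [hι] at p1 p2
  have h5 : (n : ℝ) * (n + 1) * r ^ m0 ≤ 1 / (4 * n) := by
    refine le_trans (mul_le_mul_of_nonneg_left hr (by positivity)) ?_
    rw [mul_one_div, div_le_div_iff₀ (by positivity) (by positivity)]
    nlinarith [sq_nonneg (n : ℝ), mul_nonneg (sq_nonneg (n : ℝ)) (show (0 : ℝ) ≤ n - 5 by linarith),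
      mul_nonneg (mul_nonneg (sq_nonneg (n : ℝ)) (show (0 : ℝ) ≤ n by linarith))
        (show (0 : ℝ) ≤ n - 5 by linarith)]
  generalize hM : ((Fintype.card (Fin T → ι → Fin a × Fin l) : ℕ) : ℝ) = M at p1 p2 p3 p4 ⊢
  have hM0 : 0 ≤ M := by rw [← hM]; positivity
  have q1 := p1.trans (mul_le_mul_of_nonneg_right h1 hM0)
  have q2 := p2.trans (mul_le_mul_of_nonneg_right h2 hM0)
  have q3 := p3.trans (mul_le_mul_of_nonneg_right h5 hM0)
  have q4 := p4.trans (mul_le_mul_of_nonneg_right h5 hM0)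
  have e : 1 / (n : ℝ) * M = 1 / (4 * n) * M + 1 / (4 * n) * M + 1 / (4 * n) * M +
      1 / (4 * n) * M := by field_simp; ring
  rw [e]
  refine le_trans (card_four _ _ _ _ _ fun ω c1 c2 c3 c4 => ?_)
    (add_le_add (add_le_add (add_le_add q1 q2) q3) q4)
  refine not_not.mpr ⟨not_not.mp c1, not_not.mp c2,
    fun X b x1 x2 x3 => lt_of_not_ge fun h => c3 ⟨X, b, x1, x2, x3, h⟩, fun X b x1 x2 x3 x4 => ?_⟩
  by_contra hh
  exact c4 ⟨X, b, x1, x2, x3, x4, fun t ht => lt_of_not_ge fun h => hh ⟨t, ht, h⟩⟩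

theorem params (k : ℕ) {ε : ℝ} (hε : 0 < ε) : ∃ n0 : ℕ, ∀ n ≥ n0, ∃ a' l' T m0 m1 : ℕ,
    2 ≤ m0 ∧ 2 * (16 * (k + 1) ^ 2) + 1 ≤ 2 ^ l' ∧
    ((2 * m0 + 2 * (2 ^ l' + 1) * (m1 + 1) + 3 : ℕ) : ℝ) ≤ ε * Real.log n ∧
    ∀ (ι : Type) [Fintype ι] (g : ℕ) (id : ι → ℕ) (I : Inst), Fintype.card ι = n → I.Valid k g →
      2 ^ l' ≤ g → Function.Injective id → I.S = Finset.univ.image id →
      ((Finset.univ.filter fun ω : Fin T → ι → Fin (2 ^ a') × Fin (2 ^ l') =>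
        ¬ Good I k T m0 m1 (extW T id ω)).card : ℝ) ≤
        1 / n * Fintype.card (Fin T → ι → Fin (2 ^ a') × Fin (2 ^ l')) := by
  set η : ℝ := ε / 8 with hη
  have hη0 : 0 < η := by positivity
  set r : ℝ := Real.exp (-(4 / η)) with hr
  have hr0 : 0 < r := Real.exp_pos _
  have hr1 : r ≤ 1 := Real.exp_le_one_iff.mpr (neg_nonpos.mpr (by positivity))
  have hk1 : (1 : ℝ) ≤ (k : ℝ) + 1 := le_add_of_nonneg_left (by positivity)
  set D : ℕ := 16 * (k + 1) ^ 2 with hD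
  have hD0 : (0 : ℝ) < D := by positivity
  obtain ⟨L, hL⟩ : ∃ L : ℕ, ((k : ℝ) + 1) ^ 2 * (2 ^ k * Real.exp (-(L / (16 * D)))) ≤ r := by
    obtain ⟨L, hL⟩ := exists_nat_ge (16 * D * (((k : ℝ) + 1) ^ 2 * 2 ^ k / r))
    refine ⟨L, ?_⟩
    have h1 : ((k : ℝ) + 1) ^ 2 * 2 ^ k / r ≤ L / (16 * D) := by
      rw [le_div_iff₀ (by positivity)]; linarith
    have h2 := Real.add_one_le_exp (L / (16 * D) : ℝ)
    rw [Real.exp_neg, ← mul_assoc, ← div_eq_mul_inv, div_le_iff₀ (Real.exp_pos _), mul_comm r,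
      ← div_le_iff₀ hr0]
    linarith
  set W : ℝ := Real.exp 1 * ((k : ℝ) + 1) ^ 2 / r with hW
  have hW1 : 1 ≤ W := by
    rw [hW, le_div_iff₀ hr0]
    have h1 : (1 : ℝ) ≤ Real.exp 1 := Real.one_le_exp (by norm_num)
    have h2 : (1 : ℝ) ≤ ((k : ℝ) + 1) ^ 2 := one_le_pow₀ hk1
    nlinarith
  obtain ⟨l', hl'⟩ := pow_unbounded_of_one_lt
    (max (2 * D + 1 : ℝ) (4 * k ^ 2 * W ^ (2 * D) * L)) (one_lt_two (α := ℝ))
  have hl1 : 2 * D + 1 ≤ 2 ^ l' := by exact_mod_cast ((le_max_left _ _).trans hl'.le)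
  have hl2 : 4 * k ^ 2 * W ^ (2 * D) * L ≤ (2 : ℝ) ^ l' := (le_max_right _ _).trans hl'.le
  set η' : ℝ := ε / (8 * (2 ^ l' + 1)) with hη'
  have hη'0 : 0 < η' := by positivity
  set Y : ℝ := ((k : ℝ) + 1) ^ (2 * (2 ^ l' + 1)) * Real.exp (4 / η') with hY
  have hY1 : 1 ≤ Y := one_le_mul_of_one_le_of_one_le
    (one_le_pow₀ hk1) (Real.one_le_exp (by positivity))
  have hlog : Filter.Tendsto (fun n : ℕ => Real.log n) Filter.atTop Filter.atTop :=
    Real.tendsto_log_atTop.comp tendsto_natCast_atTop_atTop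
  have hev : ∀ᶠ n : ℕ in Filter.atTop, 5 ≤ n ∧ Real.exp (L * Y) ≤ n ∧ 2 / η ≤ Real.log n ∧
      (4 * (2 ^ l' + 1) + 5) / (ε / 2) ≤ Real.log n :=
    (Filter.eventually_ge_atTop 5).and
      ((tendsto_natCast_atTop_atTop.eventually_ge_atTop _).and
        ((hlog.eventually_ge_atTop _).and (hlog.eventually_ge_atTop _)))
  obtain ⟨n0, hn0⟩ := Filter.eventually_atTop.mp hev
  refine ⟨n0, fun n hn => ?_⟩
  obtain ⟨n5, nY, n2, nc⟩ := hn0 n hn
  have hn' : (5 : ℝ) ≤ n := by exact_mod_cast n5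
  have hlg : 0 < Real.log n := Real.log_pos (by linarith)
  obtain ⟨a', ha'⟩ := pow_unbounded_of_one_lt (max (2 * n : ℝ) (4 * L * n ^ 3))
    (one_lt_two (α := ℝ))
  have ha1 : 2 * n ≤ 2 ^ a' := by exact_mod_cast ((le_max_left _ _).trans ha'.le)
  have ha2 : 4 * L * (n : ℝ) ^ 3 ≤ 2 ^ a' := (le_max_right _ _).trans ha'.le
  refine ⟨a', l', L * 2 ^ a', ⌈η * Real.log n⌉₊, ⌈η' * Real.log n⌉₊, ?_, hl1, ?_, ?_⟩
  · rw [div_le_iff₀ hη0] at n2
    have := Nat.le_ceil (η * Real.log n)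
    exact_mod_cast (show (2 : ℝ) ≤ ⌈η * Real.log n⌉₊ by linarith)
  · have c1 := (Nat.ceil_lt_add_one (show 0 ≤ η * Real.log n by positivity)).le
    have c2 := (Nat.ceil_lt_add_one (show 0 ≤ η' * Real.log n by positivity)).le
    have c3 : 2 * ((2 : ℝ) ^ l' + 1) * (η' * Real.log n) = ε / 4 * Real.log n := by
      rw [hη']; field_simp; ring
    have c4 := mul_le_mul_of_nonneg_left c2 (show (0 : ℝ) ≤ 2 * (2 ^ l' + 1) by positivity)
    rw [div_le_iff₀ (by positivity)] at nc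
    push_cast
    rw [hη] at c1
    nlinarith
  · intro ι _ g id I hι hV hg hid hS
    refine prob_good hι hV hid hS n5 ha1 hg (Nat.ceil_pos.mpr (by positivity)) r W Y hW1 hY1 hr1
      (exp_pow_le hη0 (by linarith)) ?_ ?_ ?_ ?_
    · push_cast
      rw [div_le_div_iff₀ (by positivity) (by positivity)]
      have : (0 : ℝ) < 2 ^ a' := by positivity
      nlinarith
    · have e1 : ((k : ℝ) + 1) ^ (2 * (2 ^ l' + 1)) / Y = Real.exp (-(4 / η')) := by
        rw [hY, Real.exp_neg]; field_simp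
      have e2 : ((L * 2 ^ a' : ℕ) : ℝ) * Y / ((2 ^ a' : ℕ) : ℝ) = L * Y := by
        push_cast; field_simp
      rw [e1, e2]
      calc _ ≤ n * (1 / (n : ℝ) ^ 4) * n := by
            gcongr
            exact exp_pow_le hη'0 (by linarith)
        _ ≤ 1 / (4 * n) := by
            rw [show (n : ℝ) * (1 / (n : ℝ) ^ 4) * n = 1 / (n * n) by field_simp]
            apply one_div_le_one_div_of_le (by positivity)
            nlinarith
    · have e1 : 4 * (k : ℝ) ^ 2 * W ^ (2 * D) * ((L * 2 ^ a' : ℕ) : ℝ) /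
          (((2 ^ a' : ℕ) : ℝ) * ((2 ^ l' : ℕ) : ℝ)) ≤ 1 := by
        push_cast
        rw [div_le_one (by positivity)]
        have : (0 : ℝ) < 2 ^ a' := by positivity
        nlinarith
      calc _ ≤ ((k : ℝ) + 1) ^ 2 * (Real.exp 1 / W) := by gcongr
        _ = r := by rw [hW]; field_simp
    · have e1 : ((L * 2 ^ a' : ℕ) : ℝ) / (16 * (D : ℝ) * ((2 ^ a' : ℕ) : ℝ)) = L / (16 * D) := by
        push_cast; field_simp
      rw [e1]
      exact hL

end Pool.Agent.Lib.MP_459a07_lc
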