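import Pool.Agent.Lib.MP_459a07_lc.Defs

set_option autoImplicit false

namespace Pool.Agent.Lib.MP_459a07_lc

open Classical

variable {I : Inst} {k g : ℕ} {c : Col} {x x' α β i i' j : ℕ}

theorem reach_zero : reach c x α β 0 := fun _ h => absurd h (Nat.not_lt_zero _)

theorem reach_mono (h : reach c x α β i) (hi : i' ≤ i) : reach c x α β i' :=
  fun m hm => h m (lt_of_lt_of_le hm hi)

theorem path_step (h : reach c x α β (i + 1)) :
    c (path c x α β i) (path c x α β (i + 1)) = cidx α β i := by
  have h1 := h i (Nat.lt_succ_self i)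
  have h2 : ∃ u, c (path c x α β i) u = cidx α β i := by
    by_contra hc
    exact h1 fun u hu => hc ⟨u, hu⟩
  exact epsilon_spec h2

theorem cidx_ne (hα : α ≠ 0) (hβ : β ≠ 0) : cidx α β i ≠ 0 := by
  unfold cidx; split_ifs <;> assumption

theorem cidx_cases (α β i : ℕ) : cidx α β i = α ∨ cidx α β i = β := by
  unfold cidx; split_ifs <;> simp

theorem cidx_mod (h : i % 2 = i' % 2) : cidx α β i = cidx α β i' := by
  unfold cidx
  have : Even i ↔ Even i' := by rw [Nat.even_iff, Nat.even_iff, h]
  simp only [this]

theorem cidx_odd (h : i % 2 = 1) : cidx α β i = α := by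
  unfold cidx
  rw [if_neg (by rw [Nat.even_iff]; omega)]

theorem cidx_even (h : i % 2 = 0) : cidx α β i = β := by
  unfold cidx
  rw [if_pos (by rw [Nat.even_iff]; omega)]

theorem path_adj (hc : Proper I k c) (hα : α ≠ 0) (hβ : β ≠ 0) (h : reach c x α β (i + 1)) :
    path c x α β (i + 1) ∈ I.N (path c x α β i) :=
  hc.edge _ _ (by rw [path_step h]; exact cidx_ne hα hβ)

theorem path_back (hc : Proper I k c) (hα : α ≠ 0) (hβ : β ≠ 0) (hx : miss (c x) α)
    (hx' : miss (c x') α) : ∀ (i i' : ℕ), reach c x α β i → reach c x' α β i' →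
    path c x α β i = path c x' α β i' → i % 2 = i' % 2 → x = x' ∧ i = i' := by
  have key : ∀ (a b m : ℕ), miss (c a) α → reach c b α β (m + 1) → a = path c b α β (m + 1) →
      (m + 1) % 2 = 0 → False := by
    intro a b m ha hr he hm
    have h1 := path_step hr
    rw [cidx_odd (by omega), ← he, hc.symm] at h1
    exact ha _ h1
  intro i
  induction i with
  | zero =>
    intro i' _ h2 he hp
    cases i' with
    | zero => exact ⟨he, rfl⟩
    | succ m => exact (key x x' m hx h2 he (by omega)).elim
  | succ n ih =>
    intro i' h1 h2 he hp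
    cases i' with
    | zero => exact (key x' x n hx' h1 he.symm (by omega)).elim
    | succ m =>
      have e1 := path_step h1
      have e2 := path_step h2
      rw [hc.symm] at e1 e2
      rw [cidx_mod (show m % 2 = n % 2 by omega), ← he] at e2
      have := hc.inj _ _ _ (by rw [e1]; exact cidx_ne hα hβ) (e1.trans e2.symm)
      obtain ⟨r1, r2⟩ := ih m (reach_mono h1 (Nat.le_succ _)) (reach_mono h2 (Nat.le_succ _)) this
        (by omega)
      exact ⟨r1, by omega⟩

theorem path_inj (hV : I.Valid k g) (hc : Proper I k c) (hα : α ≠ 0) (hβ : β ≠ 0)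
    (hx : miss (c x) α) (h1 : reach c x α β i) (h2 : reach c x α β i')
    (he : path c x α β i = path c x α β i') : i = i' := by
  have odd : ∀ (d a : ℕ), reach c x α β (a + 2 * d + 1) →
      path c x α β a = path c x α β (a + 2 * d + 1) → False := by
    intro d
    induction d with
    | zero =>
      intro a hr h
      have := path_adj hc hα hβ hr
      simp only [Nat.mul_zero, Nat.add_zero] at h this
      rw [← h] at this
      exact hV.irrefl _ this
    | succ d ih =>
      intro a hr h
      have e1 := path_step (reach_mono hr (show a + 1 ≤ _ by omega))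
      have e2 := path_step hr
      rw [hc.symm, ← h, cidx_mod (show (a + 2 * (d + 1)) % 2 = a % 2 by omega)] at e2
      have e3 := hc.inj _ _ _ (by rw [e1]; exact cidx_ne hα hβ) (e1.trans e2.symm)
      refine ih (a + 1) (reach_mono hr (by omega)) ?_
      rw [e3]; congr 1; omega
  by_cases hp : i % 2 = i' % 2
  · exact (path_back hc hα hβ hx hx i i' h1 h2 he hp).2
  · exfalso
    rcases lt_or_ge i i' with hlt | hge
    · obtain ⟨d, rfl⟩ : ∃ d, i' = i + 2 * d + 1 := ⟨(i' - i) / 2, by omega⟩
      exact odd d i h2 he
    · obtain ⟨d, rfl⟩ : ∃ d, i = i' + 2 * d + 1 := ⟨(i - i') / 2, by omega⟩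
      exact odd d i' h1 he.symm

/-- The path only depends on the rows of the vertices it visits. -/
theorem path_congr {c' : Col} : ∀ (i : ℕ), (∀ m < i, reach c x α β m → 
    c (path c x α β m) = c' (path c x α β m)) → 
    (reach c x α β i ↔ reach c' x α β i) ∧
      (reach c x α β i → path c x α β i = path c' x α β i) := by
  intro i
  induction i with
  | zero => intro _; exact ⟨⟨fun _ => reach_zero, fun _ => reach_zero⟩, fun _ => rfl⟩
  | succ n ih =>
    intro h
    obtain ⟨h1, h2⟩ := ih fun m hm => h m (by omega)
    have key : ∀ (e : Col), reach e x α β (n + 1) ↔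
        reach e x α β n ∧ ¬ miss (e (path e x α β n)) (cidx α β n) := by
      intro e
      constructor
      · exact fun hr => ⟨reach_mono hr (Nat.le_succ _), hr n (Nat.lt_succ_self _)⟩
      · rintro ⟨a, b⟩ m hm
        rcases Nat.lt_succ_iff_lt_or_eq.mp hm with h' | rfl
        · exact a m h'
        · exact b
    refine ⟨?_, fun hr => ?_⟩
    · rw [key, key, ← h1]
      refine and_congr_right fun hr => ?_
      rw [← h2 hr, h n (Nat.lt_succ_self _) hr]
    · have hr' := reach_mono hr (Nat.le_succ _)
      simp only [path]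
      rw [← h2 hr', h n (Nat.lt_succ_self _) hr']

end Pool.Agent.Lib.MP_459a07_lc
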