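import Pool.Agent.Lib.MP_459a07_lc.Pot
import Pool.Agent.Lib.MP_459a07_lc.Count

set_option autoImplicit false

namespace Pool.Agent.Lib.MP_459a07_lc

open Classical

variable {ι : Type} [Fintype ι] {a l k g : ℕ} [NeZero a] [NeZero l] {id : ι → ℕ} {I : Inst}

omit [Fintype ι] in
theorem pa_active_ext (hid : Function.Injective id) (z : ι → Fin a × Fin l) (i : ι) :
    active (extV id z) (id i) ↔ ((z i).1 : ℕ) = 0 := by
  unfold active extV
  rw [hid.extend_apply]

omit [Fintype ι] in
theorem pa_extW_lt {T : ℕ} (ω : Fin T → ι → Fin a × Fin l) {t : ℕ} (h : t < T) :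
    extW T id ω t = extV id (ω ⟨t, h⟩) := by
  unfold extW
  rw [pa_extT_lt _ _ h]

theorem prob_G1 (hid : Function.Injective id) (hS : I.S = Finset.univ.image id) (T : ℕ) :
    ((Finset.univ.filter fun ω : Fin T → ι → Fin a × Fin l => ¬ G1 I T (extW T id ω)).card : ℝ) ≤
      T * (Fintype.card ι : ℝ) ^ 2 / (a : ℝ) ^ 2 *
        Fintype.card (Fin T → ι → Fin a × Fin l) := by
  have ha0 : (0 : ℝ) < a := by exact_mod_cast Nat.pos_of_ne_zero (NeZero.ne a)
  let E : Fin T × ι × ι → Finset (Fin T → ι → Fin a × Fin l) := fun p =>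
    Finset.univ.filter fun ω => p.2.1 ≠ p.2.2 ∧ ((ω p.1 p.2.1).1 : ℕ) = 0 ∧
      ((ω p.1 p.2.2).1 : ℕ) = 0
  have hsub : (Finset.univ.filter fun ω : Fin T → ι → Fin a × Fin l =>
      ¬ G1 I T (extW T id ω)) ⊆ Finset.univ.biUnion E := by
    intro ω hω
    rw [Finset.mem_filter] at hω
    have h := hω.2
    unfold G1 at h
    push Not at h
    obtain ⟨t, ht, u, hu, v, hv, h1, h2, huv⟩ := h
    rw [hS, Finset.mem_image] at hu hv
    obtain ⟨i, -, rfl⟩ := hu
    obtain ⟨i', -, rfl⟩ := hv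
    rw [pa_extW_lt ω ht, pa_active_ext hid] at h1 h2
    refine Finset.mem_biUnion.2 ⟨(⟨t, ht⟩, i, i'), Finset.mem_univ _, ?_⟩
    exact Finset.mem_filter.2 ⟨Finset.mem_univ _, fun e => huv (congrArg id e), h1, h2⟩
  have hE : ∀ p, ((E p).card : ℝ) ≤
      Fintype.card (Fin T → ι → Fin a × Fin l) / (a : ℝ) ^ 2 := by
    rintro ⟨t, i, i'⟩
    by_cases hii : i = i'
    · have : E (t, i, i') = ∅ := by
        apply Finset.filter_eq_empty_iff.2
        intro ω _ h
        exact h.1 hii
      rw [this]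
      simp only [Finset.card_empty, Nat.cast_zero]
      positivity
    · have h1 := pa_card_filter_coord (ι := Fin T) (X := ι → Fin a × Fin l) t
        (fun z => ((z i).1 : ℕ) = 0 ∧ ((z i').1 : ℕ) = 0)
      have h2 := slot_two (a := a) (l := l) i i' hii
      have e : E (t, i, i') = Finset.univ.filter fun ω : Fin T → ι → Fin a × Fin l =>
          ((ω t i).1 : ℕ) = 0 ∧ ((ω t i').1 : ℕ) = 0 := by
        apply Finset.filter_congr
        intro ω _
        exact ⟨fun h => h.2, fun h => ⟨hii, h⟩⟩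
      rw [e, le_div_iff₀ (by positivity)]
      have hZ : (0 : ℝ) < Fintype.card (ι → Fin a × Fin l) := by
        exact_mod_cast Fintype.card_pos
      have h1' := congrArg (Nat.cast : ℕ → ℝ) h1
      push_cast at h1'
      apply le_of_eq
      apply mul_right_cancel₀ hZ.ne'
      rw [mul_right_comm, h1', mul_right_comm, h2, mul_comm]
  calc ((Finset.univ.filter fun ω : Fin T → ι → Fin a × Fin l =>
        ¬ G1 I T (extW T id ω)).card : ℝ)
      ≤ ((Finset.univ.biUnion E).card : ℝ) := by exact_mod_cast Finset.card_le_card hsub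
    _ ≤ ∑ p, ((E p).card : ℝ) := by exact_mod_cast Finset.card_biUnion_le
    _ ≤ ∑ _p : Fin T × ι × ι, (Fintype.card (Fin T → ι → Fin a × Fin l) : ℝ) / (a : ℝ) ^ 2 :=
        Finset.sum_le_sum fun p _ => hE p
    _ = _ := by
        rw [Finset.sum_const, Finset.card_univ, Fintype.card_prod, Fintype.card_prod,
          Fintype.card_fin, nsmul_eq_mul]
        push_cast
        ring

/-- The sequences of vertices with short jumps. -/
theorem pa_seqs (N : ℕ → Finset ℕ) (hk : ∀ v, (N v).card ≤ k) (S : Finset ℕ) (R m : ℕ) :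
    ∃ U : Finset (ℕ → ℕ), U.card ≤ S.card * ((k + 1) ^ R) ^ m ∧
      ∀ u : ℕ → ℕ, u 0 ∈ S → (∀ i < m, u (i + 1) ∈ ball N (u i) R) →
        ∃ u' ∈ U, ∀ i ≤ m, u' i = u i := by
  induction m with
  | zero =>
    refine ⟨S.image fun v _ => v, by simpa using Finset.card_image_le, fun u hu _ => ?_⟩
    refine ⟨fun _ => u 0, Finset.mem_image.2 ⟨u 0, hu, rfl⟩, fun i hi => ?_⟩
    rw [Nat.le_zero.1 hi]
  | succ m ih =>
    obtain ⟨U, hU, hcov⟩ := ih
    refine ⟨U.biUnion fun u' => (ball N (u' m) R).image fun v => Function.update u' (m + 1) v,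
      ?_, fun u hu hb => ?_⟩
    · calc _ ≤ ∑ u' ∈ U, ((ball N (u' m) R).image fun v => Function.update u' (m + 1) v).card :=
            Finset.card_biUnion_le
        _ ≤ ∑ _u' ∈ U, (k + 1) ^ R :=
            Finset.sum_le_sum fun u' _ => Finset.card_image_le.trans (card_ball hk)
        _ = U.card * (k + 1) ^ R := by rw [Finset.sum_const, smul_eq_mul]
        _ ≤ S.card * ((k + 1) ^ R) ^ m * (k + 1) ^ R := Nat.mul_le_mul_right _ hU
        _ = _ := by ring
    · obtain ⟨u', hu', he⟩ := hcov u hu fun i hi => hb i (by omega)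
      refine ⟨Function.update u' (m + 1) (u (m + 1)), ?_, fun i hi => ?_⟩
      · refine Finset.mem_biUnion.2 ⟨u', hu', Finset.mem_image.2 ⟨u (m + 1), ?_, rfl⟩⟩
        rw [he m le_rfl]
        exact hb m (by omega)
      · by_cases h : i = m + 1
        · subst h; simp
        · rw [Function.update_of_ne h]
          exact he i (by omega)

/-- The greedy counter. -/
noncomputable def paCnt (S : Finset ℕ) (id : ι → ℕ) (u : ℕ → ℕ) (s : ℕ) (z : ι → Fin a × Fin l) :
    ℕ := if u s ∈ S ∧ active (extV id z) (u s) then s + 1 else s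

omit [Fintype ι] in
theorem pa_cnt_mono (S : Finset ℕ) (u : ℕ → ℕ) (w : ℕ → ι → Fin a × Fin l) :
    Monotone (runL (paCnt S id u) 0 w) := by
  apply monotone_nat_of_le_succ
  intro t
  simp only [runL, paCnt]
  split_ifs <;> omega

omit [Fintype ι] in
theorem pa_cnt_ge (S : Finset ℕ) (u t : ℕ → ℕ) (w : ℕ → ι → Fin a × Fin l) (m : ℕ)
    (h1 : ∀ i < m, u i ∈ S ∧ active (extV id (w (t i))) (u i))
    (h2 : ∀ i, i + 1 < m → t i < t (i + 1)) :
    ∀ i < m, i + 1 ≤ runL (paCnt S id u) 0 w (t i + 1) := by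
  have key : ∀ i < m, i ≤ runL (paCnt S id u) 0 w (t i) →
      i + 1 ≤ runL (paCnt S id u) 0 w (t i + 1) := by
    intro i hi h
    rcases h.lt_or_eq with h | h
    · exact (Nat.succ_le_of_lt h).trans (pa_cnt_mono S u w (Nat.le_succ _))
    · simp only [runL, paCnt]
      rw [← h, if_pos (h1 i hi)]
  intro i
  induction i with
  | zero => exact fun hi => key 0 hi (Nat.zero_le _)
  | succ i ih =>
    intro hi
    exact key _ hi ((ih (by omega)).trans (pa_cnt_mono S u w (h2 i hi)))

theorem pa_cnt_pot (hid : Function.Injective id) (hS : I.S = Finset.univ.image id) (u : ℕ → ℕ)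
    (Y : ℝ) (hY : 1 ≤ Y) (s : ℕ) :
    ∑ z : ι → Fin a × Fin l, Y ^ (paCnt I.S id u s z) ≤
      (1 + Y / a) * Fintype.card (ι → Fin a × Fin l) * Y ^ s := by
  have ha0 : (0 : ℝ) < a := by exact_mod_cast Nat.pos_of_ne_zero (NeZero.ne a)
  have hY0 : 0 ≤ Y := by linarith
  have hp : 0 ≤ Y ^ s := by positivity
  by_cases hu : u s ∈ I.S
  · have hu' := hu
    rw [hS, Finset.mem_image] at hu'
    obtain ⟨i, -, hi⟩ := hu'
    have hle : ∀ z : ι → Fin a × Fin l, Y ^ (paCnt I.S id u s z) ≤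
        Y ^ s + if ((z i).1 : ℕ) = 0 then Y * Y ^ s else 0 := by
      intro z
      unfold paCnt
      by_cases hz : ((z i).1 : ℕ) = 0
      · rw [if_pos hz, if_pos ⟨hu, by rw [← hi, pa_active_ext hid]; exact hz⟩, pow_succ]
        linarith
      · rw [if_neg hz, if_neg]
        · simp
        · rintro ⟨-, h⟩
          rw [← hi, pa_active_ext hid] at h
          exact hz h
    refine (Finset.sum_le_sum fun z _ => hle z).trans (le_of_eq ?_)
    rw [Finset.sum_add_distrib, Finset.sum_const, Finset.card_univ, nsmul_eq_mul,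
      ← Finset.sum_filter, Finset.sum_const, nsmul_eq_mul, ← slot_active (a := a) (l := l) i]
    field_simp
  · have : ∀ z : ι → Fin a × Fin l, Y ^ (paCnt I.S id u s z) = Y ^ s := by
      intro z
      unfold paCnt
      rw [if_neg fun h => hu h.1]
    rw [Finset.sum_congr rfl fun z _ => this z, Finset.sum_const, Finset.card_univ, nsmul_eq_mul]
    have h1 : (1 : ℝ) ≤ 1 + Y / a := le_add_of_nonneg_right (by positivity)
    have h2 : (0 : ℝ) ≤ Fintype.card (ι → Fin a × Fin l) * Y ^ s := by positivity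
    calc _ = 1 * (Fintype.card (ι → Fin a × Fin l) * Y ^ s) := (one_mul _).symm
      _ ≤ (1 + Y / a) * (Fintype.card (ι → Fin a × Fin l) * Y ^ s) :=
          mul_le_mul_of_nonneg_right h1 h2
      _ = _ := by ring

theorem pa_cnt_prob (hid : Function.Injective id) (hS : I.S = Finset.univ.image id) (u : ℕ → ℕ)
    (T m : ℕ) (Y : ℝ) (hY : 1 ≤ Y) :
    ((Finset.univ.filter fun ω : Fin T → ι → Fin a × Fin l =>
      m ≤ runL (paCnt I.S id u) 0 (extT T (fun _ => default) ω) T).card : ℝ) ≤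
      Real.exp (T * Y / a) * Fintype.card (Fin T → ι → Fin a × Fin l) / Y ^ m := by
  have ha0 : (0 : ℝ) < a := by exact_mod_cast Nat.pos_of_ne_zero (NeZero.ne a)
  have hY0 : 0 < Y := by linarith
  have h := pot (paCnt (a := a) (l := l) I.S id u) (fun _ => True) (fun s => Y ^ s) (1 + Y / a)
    (by positivity) (fun _ _ _ => trivial) (fun s _ => pa_cnt_pot hid hS u Y hY s) 0 trivial
    (fun _ => default) T
  rw [le_div_iff₀ (by positivity)]
  have hq : (1 + Y / a) ^ T ≤ Real.exp (T * Y / a) := by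
    rw [mul_div_assoc, Real.exp_nat_mul]
    apply pow_le_pow_left₀ (by positivity)
    linarith [Real.add_one_le_exp (Y / a)]
  calc _ = ∑ _ω ∈ Finset.univ.filter fun ω : Fin T → ι → Fin a × Fin l =>
        m ≤ runL (paCnt I.S id u) 0 (extT T (fun _ => default) ω) T, Y ^ m := by
          rw [Finset.sum_const, nsmul_eq_mul]
    _ ≤ ∑ ω ∈ Finset.univ.filter fun ω : Fin T → ι → Fin a × Fin l =>
        m ≤ runL (paCnt I.S id u) 0 (extT T (fun _ => default) ω) T,
        Y ^ runL (paCnt I.S id u) 0 (extT T (fun _ => default) ω) T :=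
          Finset.sum_le_sum fun ω hω => pow_le_pow_right₀ hY (Finset.mem_filter.1 hω).2
    _ ≤ ∑ ω : Fin T → ι → Fin a × Fin l,
        Y ^ runL (paCnt I.S id u) 0 (extT T (fun _ => default) ω) T :=
          Finset.sum_le_sum_of_subset_of_nonneg (Finset.filter_subset _ _)
            fun _ _ _ => by positivity
    _ ≤ (1 + Y / a) ^ T * Fintype.card (Fin T → ι → Fin a × Fin l) * Y ^ 0 := by
          convert h
    _ ≤ _ := by
          rw [pow_zero, mul_one]
          exact mul_le_mul_of_nonneg_right hq (Nat.cast_nonneg _)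

/-- For a fixed sequence `u` use `pot` with the greedy counter of matched entries and
`f = Y ^ counter`, `q = 1 + Y / a`; then sum over the sequences. -/
theorem prob_G2 (hV : I.Valid k g) (hid : Function.Injective id)
    (hS : I.S = Finset.univ.image id) (T m1 : ℕ) (hm : 1 ≤ m1) (Y : ℝ) (hY : 1 ≤ Y) :
    ((Finset.univ.filter fun ω : Fin T → ι → Fin a × Fin l =>
      ¬ G2 I T m1 (extW T id ω)).card : ℝ) ≤
      Fintype.card ι * (((k : ℝ) + 1) ^ (2 * (l + 1)) / Y) ^ m1 * Real.exp (T * Y / a) *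
        Fintype.card (Fin T → ι → Fin a × Fin l) := by
  obtain ⟨m, rfl⟩ := Nat.exists_eq_add_of_le' hm
  obtain ⟨U, hU, hcov⟩ := pa_seqs I.N hV.deg I.S (2 * (l + 1)) m
  have hY0 : 0 < Y := by linarith
  let E : (ℕ → ℕ) → Finset (Fin T → ι → Fin a × Fin l) := fun u =>
    Finset.univ.filter fun ω => m + 1 ≤ runL (paCnt I.S id u) 0 (extT T (fun _ => default) ω) T
  have hsub : (Finset.univ.filter fun ω : Fin T → ι → Fin a × Fin l =>
      ¬ G2 I T (m + 1) (extW T id ω)) ⊆ U.biUnion E := by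
    intro ω hω
    have h := (Finset.mem_filter.1 hω).2
    unfold G2 at h
    obtain ⟨t, u, h1, h2⟩ := not_not.1 h
    obtain ⟨u', hu', he⟩ := hcov u (h1 0 (by omega)).2.1 fun i hi => (h2 i (by omega)).2
    refine Finset.mem_biUnion.2 ⟨u', hu', Finset.mem_filter.2 ⟨Finset.mem_univ _, ?_⟩⟩
    have h3 := pa_cnt_ge (id := id) I.S u' t (extT T (fun _ => default) ω) (m + 1)
      (fun i hi => by
        rw [he i (by omega)]
        exact ⟨(h1 i hi).2.1, (h1 i hi).2.2⟩)
      (fun i hi => (h2 i hi).1) m (by omega)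
    exact h3.trans (pa_cnt_mono I.S u' _ (h1 m (by omega)).1)
  have hSc : I.S.card ≤ Fintype.card ι := by
    rw [hS]
    exact Finset.card_image_le.trans (le_of_eq Finset.card_univ)
  have hB : (1 : ℝ) ≤ ((k : ℝ) + 1) ^ (2 * (l + 1)) :=
    one_le_pow₀ (le_add_of_nonneg_left (Nat.cast_nonneg k))
  have hU' : (U.card : ℝ) ≤ Fintype.card ι * (((k : ℝ) + 1) ^ (2 * (l + 1))) ^ (m + 1) := by
    have h1 : (U.card : ℝ) ≤ Fintype.card ι * (((k : ℝ) + 1) ^ (2 * (l + 1))) ^ m := by
      exact_mod_cast hU.trans (Nat.mul_le_mul_right _ hSc)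
    exact h1.trans (mul_le_mul_of_nonneg_left (pow_le_pow_right₀ hB (Nat.le_succ m))
      (Nat.cast_nonneg _))
  calc ((Finset.univ.filter fun ω : Fin T → ι → Fin a × Fin l =>
        ¬ G2 I T (m + 1) (extW T id ω)).card : ℝ)
      ≤ ((U.biUnion E).card : ℝ) := by exact_mod_cast Finset.card_le_card hsub
    _ ≤ ∑ u ∈ U, ((E u).card : ℝ) := by exact_mod_cast Finset.card_biUnion_le
    _ ≤ ∑ _u ∈ U, Real.exp (T * Y / a) * Fintype.card (Fin T → ι → Fin a × Fin l) / Y ^ (m + 1) :=
        Finset.sum_le_sum fun u _ => pa_cnt_prob hid hS u T (m + 1) Y hY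
    _ = U.card * (Real.exp (T * Y / a) * Fintype.card (Fin T → ι → Fin a × Fin l) /
          Y ^ (m + 1)) := by rw [Finset.sum_const, nsmul_eq_mul]
    _ ≤ Fintype.card ι * (((k : ℝ) + 1) ^ (2 * (l + 1))) ^ (m + 1) *
          (Real.exp (T * Y / a) * Fintype.card (Fin T → ι → Fin a × Fin l) / Y ^ (m + 1)) :=
        mul_le_mul_of_nonneg_right hU' (by positivity)
    _ = _ := by
        rw [div_pow]
        ring

end Pool.Agent.Lib.MP_459a07_lc
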