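import Pool.Agent.Lib.MP_459a07_lc.VWalk

set_option autoImplicit false

namespace Pool.Agent.Lib.MP_459a07_lc.V

open Classical

variable {N : ℕ → Finset ℕ} {m : ℕ → ℕ → ℕ} {μ : ℕ → ℕ} {O Gd : ℕ → Prop} {K d v u b b' i : ℕ}

/-- Total occupation of `b` before time `n` by the walks started in `V`. -/
noncomputable def occ (N : ℕ → Finset ℕ) (m : ℕ → ℕ → ℕ) (μ : ℕ → ℕ) (O : ℕ → Prop) (K : ℕ)
    (V : Finset ℕ) (n b : ℕ) : ℝ := ∑ v ∈ V, ∑ i ∈ Finset.range n, wk N m μ O K v i b

theorem vlevel_wk_F (hN : Nice N m μ O K d Gd) {F : Finset ℕ} (hv : Start N μ O K Gd v)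
    (hF : ball N v (K * (K + 2)) ⊆ F) (hi : i ≤ K) :
    wk N m μ O K v (i + 1) b' = ∑ b ∈ F, wk N m μ O K v i b * qq N m μ O K b b' := by
  have hs : ball N v (i * (K + 2)) ⊆ F :=
    (ball_mono (Nat.mul_le_mul_right _ hi)).trans hF
  change ∑ b ∈ ball N v (i * (K + 2)), wk N m μ O K v i b * qq N m μ O K b b' = _
  refine Finset.sum_subset hs fun b _ hb => ?_
  have : wk N m μ O K v i b = 0 := by
    by_contra h
    exact hb (wk_supp hN hv h).1
  rw [this, zero_mul]

theorem vlevel_occ_nonneg {V : Finset ℕ} {n : ℕ} : 0 ≤ occ N m μ O K V n b :=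
  Finset.sum_nonneg fun _ _ => Finset.sum_nonneg fun _ _ => wk_nonneg

theorem vlevel_occ_mono {V : Finset ℕ} {n n' : ℕ} (h : n ≤ n') :
    occ N m μ O K V n b ≤ occ N m μ O K V n' b :=
  Finset.sum_le_sum fun _ _ => Finset.sum_le_sum_of_subset_of_nonneg
    (Finset.range_mono h) fun _ _ _ => wk_nonneg

theorem vlevel_occ_ne (hN : Nice N m μ O K d Gd) {V : Finset ℕ}
    (hV : ∀ v ∈ V, Start N μ O K Gd v) {n : ℕ} (hn : n ≤ K) (h : occ N m μ O K V n b ≠ 0) :
    Gd b ∧ ∃ v ∈ V, b ∈ ball N v (K * (K + 2)) := by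
  obtain ⟨v, hv, h1⟩ := Finset.exists_ne_zero_of_sum_ne_zero h
  obtain ⟨i, hi, h2⟩ := Finset.exists_ne_zero_of_sum_ne_zero h1
  have hi' : i ≤ K := (Finset.mem_range.1 hi).le.trans hn
  obtain ⟨h3, h4⟩ := wk_supp hN (hV v hv) h2
  have h5 : b ∈ ball N v (K * (K + 2)) := ball_mono (Nat.mul_le_mul_right _ hi') h3
  exact ⟨(hV v hv).2.2 b h5 h4, v, hv, h5⟩

/-- A weighted column sum. -/
theorem vlevel_col (hN : Nice N m μ O K d Gd) (F : Finset ℕ) (g : ℕ → ℝ) {θ : ℝ} (hθ : 0 ≤ θ)
    (h : ∀ b ∈ F, g b ≠ 0 → qq N m μ O K b b' ≠ 0 → Gd b ∧ g b ≤ θ) :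
    ∑ b ∈ F, g b * qq N m μ O K b b' ≤ θ := by
  have h1 : ∑ b ∈ F, g b * qq N m μ O K b b' ≤
      ∑ b ∈ F, if Gd b then θ * qq N m μ O K b b' else 0 := by
    refine Finset.sum_le_sum fun b hb => ?_
    by_cases hg : g b = 0
    · rw [hg, zero_mul]
      split_ifs
      · exact mul_nonneg hθ qq_nonneg
      · exact le_rfl
    by_cases hq : qq N m μ O K b b' = 0
    · rw [hq, mul_zero, mul_zero]
      split_ifs <;> exact le_rfl
    obtain ⟨h2, h3⟩ := h b hb hg hq
    rw [if_pos h2]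
    exact mul_le_mul_of_nonneg_right h3 qq_nonneg
  refine h1.trans ?_
  rw [← Finset.sum_filter, ← Finset.mul_sum]
  have h2 := qq_col (b' := b') hN (F.filter Gd) fun b hb => (Finset.mem_filter.1 hb).2
  calc θ * ∑ b ∈ F.filter Gd, qq N m μ O K b b' ≤ θ * 1 := mul_le_mul_of_nonneg_left h2 hθ
    _ = θ := mul_one θ

/-- The recursion for the occupation; `F` is any finite set containing the supports. -/
theorem occ_succ (hN : Nice N m μ O K d Gd) {V F : Finset ℕ}
    (hV : ∀ v ∈ V, Start N μ O K Gd v) (hF : ∀ v ∈ V, ball N v (K * (K + 2)) ⊆ F) {n : ℕ}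
    (hn : n ≤ K) : occ N m μ O K V (n + 1) b' =
      (if b' ∈ V then 1 else 0) + ∑ b ∈ F, occ N m μ O K V n b * qq N m μ O K b b' := by
  unfold occ
  simp only [Finset.sum_range_succ', Finset.sum_add_distrib]
  rw [add_comm]
  congr 1
  · change ∑ v ∈ V, (if b' = v then (1 : ℝ) else 0) = _
    rw [Finset.sum_ite_eq]
  · have h1 : ∀ v ∈ V, ∑ i ∈ Finset.range n, wk N m μ O K v (i + 1) b' =
        ∑ b ∈ F, (∑ i ∈ Finset.range n, wk N m μ O K v i b) * qq N m μ O K b b' := by
      intro v hv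
      simp only [Finset.sum_mul]
      rw [Finset.sum_comm]
      refine Finset.sum_congr rfl fun i hi => ?_
      exact vlevel_wk_F hN (hV v hv) (hF v hv) ((Finset.mem_range.1 hi).le.trans hn)
    rw [Finset.sum_congr rfl h1, Finset.sum_comm]
    refine Finset.sum_congr rfl fun b _ => ?_
    rw [Finset.sum_mul]

/-- Induct on `n`: starting points have no incoming weight, the others use `qq_col`. -/
theorem occ_le (hN : Nice N m μ O K d Gd) {V : Finset ℕ} (hV : ∀ v ∈ V, Start N μ O K Gd v)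
    {n : ℕ} (hn : n ≤ K) (b : ℕ) : occ N m μ O K V n b ≤ 1 := by
  induction n generalizing b with
  | zero => simp [occ]
  | succ n ih =>
    have hn' : n ≤ K := by omega
    rw [occ_succ (F := V.biUnion fun v => ball N v (K * (K + 2))) hN hV
      (fun v hv => Finset.subset_biUnion_of_mem (fun v => ball N v (K * (K + 2))) hv) hn']
    by_cases hb : b ∈ V
    · rw [if_pos hb]
      have h0 : ∀ c, qq N m μ O K c b = 0 := by
        intro c
        by_contra h
        exact (qq_ne_zero hN.mN h).2.2.2.1 (hV b hb).1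
      simp [h0]
    · rw [if_neg hb, zero_add]
      exact vlevel_col hN _ _ zero_le_one fun c _ h1 _ =>
        ⟨(vlevel_occ_ne hN hV hn' h1).1, ih hn' c⟩

theorem vlevel_xm_sum (hN : Nice N m μ O K d Gd) {V F : Finset ℕ}
    (hV : ∀ v ∈ V, Start N μ O K Gd v) (hF : ∀ v ∈ V, ball N v (K * (K + 2)) ⊆ F) (u : ℕ) :
    ∑ v ∈ V, xm N m μ O K v u =
      (∑ b ∈ F, if u ∈ Tg N O K b then occ N m μ O K V K b else 0) / K := by
  unfold xm occ
  rw [← Finset.sum_div]
  congr 1
  have h1 : ∀ v ∈ V, (∑ i ∈ Finset.range K, ∑ b ∈ ball N v (K * (K + 2)),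
      if u ∈ Tg N O K b then wk N m μ O K v i b else 0) =
      ∑ b ∈ F, if u ∈ Tg N O K b then ∑ i ∈ Finset.range K, wk N m μ O K v i b else 0 := by
    intro v hv
    rw [Finset.sum_comm]
    have h2 : ∀ b, (∑ i ∈ Finset.range K, if u ∈ Tg N O K b then wk N m μ O K v i b else 0) =
        if u ∈ Tg N O K b then ∑ i ∈ Finset.range K, wk N m μ O K v i b else 0 := by
      intro b
      split_ifs <;> simp
    simp only [h2]
    refine Finset.sum_subset (hF v hv) fun b _ hb => ?_
    split_ifs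
    · refine Finset.sum_eq_zero fun i hi => ?_
      by_contra h
      exact hb (ball_mono (Nat.mul_le_mul_right _ (Finset.mem_range.1 hi).le)
        (wk_supp hN (hV v hv) h).1)
    · rfl
  rw [Finset.sum_congr rfl h1, Finset.sum_comm]
  refine Finset.sum_congr rfl fun b _ => ?_
  split_ifs <;> simp

/-- The inflow at `u`: it lies in the target set of at most one good source. -/
theorem xm_inflow (hN : Nice N m μ O K d Gd) {V : Finset ℕ} (hV : ∀ v ∈ V, Start N μ O K Gd v)
    (u : ℕ) : ∑ v ∈ V, xm N m μ O K v u ≤ 1 / K := by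
  rw [vlevel_xm_sum (F := V.biUnion fun v => ball N v (K * (K + 2))) hN hV
    (fun v hv => Finset.subset_biUnion_of_mem (fun v => ball N v (K * (K + 2))) hv)]
  refine div_le_div_of_nonneg_right ?_ (Nat.cast_nonneg K)
  by_cases h : ∃ b, Gd b ∧ u ∈ Tg N O K b
  · obtain ⟨b0, hb0, hu0⟩ := h
    rw [Finset.sum_eq_single b0]
    · rw [if_pos hu0]
      exact occ_le hN hV le_rfl b0
    · intro b _ hne
      split_ifs with hu
      · by_contra h0
        exact hne (hN.guniq b b0 u (vlevel_occ_ne hN hV le_rfl h0).1 hb0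
          ((Tg_spec hN.kpos).2.1 hu) ((Tg_spec hN.kpos).2.1 hu0))
      · rfl
    · intro hb
      rw [if_pos hu0]
      by_contra h0
      obtain ⟨-, v, hv, h1⟩ := vlevel_occ_ne hN hV le_rfl h0
      exact hb (Finset.mem_biUnion.2 ⟨v, hv, h1⟩)
  · rw [Finset.sum_eq_zero]
    · exact zero_le_one
    · intro b _
      split_ifs with hu
      · by_contra h0
        exact h ⟨b, (vlevel_occ_ne hN hV le_rfl h0).1, hu⟩
      · rfl

theorem vlevel_layer (F : Finset ℕ) (f : ℕ → ℝ) {c : ℝ} (hc : 0 ≤ c) (n : ℕ) :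
    ∀ (g : ℕ → ℝ) (M : ℝ), (F.filter fun b => 0 < g b).card ≤ n → 0 ≤ M →
      (∀ b ∈ F, 0 ≤ g b) → (∀ b ∈ F, g b ≤ M) →
      (∀ θ : ℝ, 0 ≤ θ → ∑ b ∈ F.filter fun b => θ < g b, f b ≤ c) →
      ∑ b ∈ F, g b * f b ≤ M * c := by
  induction n with
  | zero =>
    intro g M hn hM h0 _ _
    have he : (F.filter fun b => 0 < g b) = ∅ := Finset.card_eq_zero.1 (Nat.le_zero.1 hn)
    rw [Finset.sum_eq_zero]
    · exact mul_nonneg hM hc
    · intro b hb
      have h1 : ¬ 0 < g b := fun h => by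
        have : b ∈ F.filter fun b => 0 < g b := Finset.mem_filter.2 ⟨hb, h⟩
        rw [he] at this
        simp at this
      rw [le_antisymm (not_lt.1 h1) (h0 b hb), zero_mul]
  | succ n ih =>
    intro g M hn hM h0 h1 hl
    by_cases hn' : (F.filter fun b => 0 < g b).card ≤ n
    · exact ih g M hn' hM h0 h1 hl
    have hne : (F.filter fun b => 0 < g b).Nonempty := Finset.card_pos.1 (by omega)
    obtain ⟨b0, hb0, hmin⟩ := Finset.exists_min_image _ g hne
    obtain ⟨hb0F, hb0p⟩ := Finset.mem_filter.1 hb0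
    have key := ih (fun b => if 0 < g b then g b - g b0 else 0) (M - g b0) ?_ ?_ ?_ ?_ ?_
    · have e : ∑ b ∈ F, g b * f b =
          ∑ b ∈ F, (if 0 < g b then g b - g b0 else 0) * f b +
            g b0 * ∑ b ∈ F.filter fun b => 0 < g b, f b := by
        rw [Finset.sum_filter, Finset.mul_sum, ← Finset.sum_add_distrib]
        refine Finset.sum_congr rfl fun b hb => ?_
        split_ifs with h
        · ring
        · rw [le_antisymm (not_lt.1 h) (h0 b hb)]
          ring
      have h2 := mul_le_mul_of_nonneg_left (hl 0 le_rfl) hb0p.le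
      rw [e]
      linarith
    · have hs : (F.filter fun b => 0 < if 0 < g b then g b - g b0 else 0) ⊆
          (F.filter fun b => 0 < g b).erase b0 := by
        intro b hb
        obtain ⟨hbF, hb⟩ := Finset.mem_filter.1 hb
        split_ifs at hb with h
        · refine Finset.mem_erase.2 ⟨?_, Finset.mem_filter.2 ⟨hbF, h⟩⟩
          rintro rfl
          simp at hb
        · exact absurd hb (lt_irrefl _)
      have h3 := Finset.card_le_card hs
      rw [Finset.card_erase_of_mem hb0] at h3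
      omega
    · have := h1 b0 hb0F
      linarith
    · intro b hb
      split_ifs with h
      · have := hmin b (Finset.mem_filter.2 ⟨hb, h⟩)
        linarith
      · exact le_rfl
    · intro b hb
      split_ifs with h
      · have := h1 b hb
        linarith
      · have := h1 b0 hb0F
        linarith
    · intro θ hθ
      have e : (F.filter fun b => θ < if 0 < g b then g b - g b0 else 0) =
          F.filter fun b => θ + g b0 < g b := by
        refine Finset.filter_congr fun b _ => ?_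
        split_ifs with h
        · constructor <;> intro h' <;> linarith
        · constructor <;> intro h' <;> linarith
      rw [e]
      exact hl _ (by linarith)

/-- Layer cake.  Induct on the number of points with `g > 0`, subtracting the least positive
value of `g`; prove `∑ g f ≤ M c` when `g ≤ M` and all level sets have `∑ f ≤ c`. -/
theorem layer (F : Finset ℕ) (g f : ℕ → ℝ) (h0 : ∀ b ∈ F, 0 ≤ g b) (h1 : ∀ b ∈ F, g b ≤ 1)
    {c : ℝ} (hc : 0 ≤ c) (h : c < ∑ b ∈ F, g b * f b) :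
    ∃ θ : ℝ, 0 ≤ θ ∧ c < ∑ b ∈ F.filter fun b => θ < g b, f b := by
  by_contra hcon
  push Not at hcon
  have := vlevel_layer F f hc _ g 1 le_rfl zero_le_one h0 h1 hcon
  linarith

theorem vlevel_mass (hN : Nice N m μ O K d Gd) {V F : Finset ℕ}
    (hV : ∀ v ∈ V, Start N μ O K Gd v) (hF : ∀ v ∈ V, ball N v (K * (K + 2)) ⊆ F)
    (U : Finset ℕ) : ∑ u ∈ U, ∑ v ∈ V, xm N m μ O K v u =
      (∑ b ∈ F, occ N m μ O K V K b * ((U ∩ Tg N O K b).card : ℝ)) / K := by
  simp only [vlevel_xm_sum hN hV hF]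
  rw [← Finset.sum_div, Finset.sum_comm]
  congr 1
  refine Finset.sum_congr rfl fun b _ => ?_
  rw [← Finset.sum_filter, Finset.sum_const, nsmul_eq_mul, mul_comm, Finset.filter_mem_eq_inter]

/-- If the walks from `V ⊆ X` put much mass on blocked nodes, `X` extends to a connected set with
many blocked nodes.  Apply `layer` to `g = occ V K`, `f b = #blocked (Tg b) - |Tg b| / 32`, and add
`Tg b` and `μ b` for all `b` in the level set.  A point `b` of the level set is in `V` or has a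
predecessor in the level set of `occ V (n - 1)` (recursion and `qq_col`), so by induction on `n` it
is connected to `X` inside the new set. -/
theorem level (hN : Nice N m μ O K d Gd) {V X S : Finset ℕ} (hV : ∀ v ∈ V, Start N μ O K Gd v)
    (hsub : ∀ u v, v ∈ N u → u ∈ S) (hVX : V ⊆ X) (hXS : X ⊆ S) {x0 : ℕ} (hX : Conn N X x0)
    (bl : ℕ → Prop) (β : ℝ) (hβ : (V.card : ℝ) ≤ β) (hβ0 : 0 < β) (hK : (X.card : ℝ) ≤ K * β / 2)
    (hm : β / 16 ≤ ∑ v ∈ V, ∑ u ∈ (ball N v (K * (K + 2) + K + 2)).filter bl,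
      xm N m μ O K v u) :
    ∃ X', X ⊆ X' ∧ X' ⊆ S ∧ Conn N X' x0 ∧ X'.card ≤ 128 * (X'.filter bl).card := by
  have hK1 : (0 : ℝ) < K := by exact_mod_cast hN.kpos
  obtain ⟨F, hFd⟩ : ∃ F, F = V.biUnion fun v => ball N v (K * (K + 2)) := ⟨_, rfl⟩
  have hF : ∀ v ∈ V, ball N v (K * (K + 2)) ⊆ F := fun v hv => by
    rw [hFd]
    exact Finset.subset_biUnion_of_mem (fun v => ball N v (K * (K + 2))) hv
  obtain ⟨U, hUd⟩ : ∃ U, U = (V.biUnion fun v => ball N v (K * (K + 2) + K + 2)) ∪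
    F.biUnion (Tg N O K) := ⟨_, rfl⟩
  have hU1 : ∀ v ∈ V, ball N v (K * (K + 2) + K + 2) ⊆ U := fun v hv => by
    rw [hUd]
    exact (Finset.subset_biUnion_of_mem (fun v => ball N v (K * (K + 2) + K + 2)) hv).trans
      Finset.subset_union_left
  have hU2 : ∀ b ∈ F, Tg N O K b ⊆ U := fun b hb => by
    rw [hUd]
    exact (Finset.subset_biUnion_of_mem (Tg N O K) hb).trans Finset.subset_union_right
  have h1 : β / 16 ≤ (∑ b ∈ F, occ N m μ O K V K b *
      (((Tg N O K b).filter bl).card : ℝ)) / K := by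
    refine hm.trans ?_
    have e := vlevel_mass hN hV hF (U.filter bl)
    have e2 : ∑ b ∈ F, occ N m μ O K V K b * ((U.filter bl ∩ Tg N O K b).card : ℝ) =
        ∑ b ∈ F, occ N m μ O K V K b * (((Tg N O K b).filter bl).card : ℝ) := by
      refine Finset.sum_congr rfl fun b hb => ?_
      have : U.filter bl ∩ Tg N O K b = (Tg N O K b).filter bl := by
        ext u
        simp only [Finset.mem_inter, Finset.mem_filter]
        exact ⟨fun h => ⟨h.2, h.1.2⟩, fun h => ⟨⟨hU2 b hb h.1, h.2⟩, h.1⟩⟩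
      rw [this]
    rw [← e2, ← e, Finset.sum_comm (s := U.filter bl)]
    exact Finset.sum_le_sum fun v hv => Finset.sum_le_sum_of_subset_of_nonneg
      (Finset.filter_subset_filter _ (hU1 v hv)) fun _ _ _ => xm_nonneg
  have h2 : (∑ b ∈ F, occ N m μ O K V K b * ((Tg N O K b).card : ℝ)) / K ≤ β := by
    have e := vlevel_mass hN hV hF U
    have e2 : ∑ b ∈ F, occ N m μ O K V K b * ((U ∩ Tg N O K b).card : ℝ) =
        ∑ b ∈ F, occ N m μ O K V K b * ((Tg N O K b).card : ℝ) := by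
      refine Finset.sum_congr rfl fun b hb => ?_
      rw [Finset.inter_eq_right.2 (hU2 b hb)]
    rw [← e2, ← e, Finset.sum_comm]
    refine le_trans ?_ hβ
    have h3 : ∑ v ∈ V, ∑ u ∈ U, xm N m μ O K v u ≤ ∑ _v ∈ V, (1 : ℝ) :=
      Finset.sum_le_sum fun v hv =>
        (xm_mass hN (hV v hv) U ((ball_mono (by omega)).trans (hU1 v hv))).2
    simpa using h3
  rw [le_div_iff₀ hK1] at h1
  rw [div_le_iff₀ hK1] at h2
  have hKβ : 0 < K * β := mul_pos hK1 hβ0
  obtain ⟨θ, hθ, hL⟩ := layer F (occ N m μ O K V K)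
    (fun b => (((Tg N O K b).filter bl).card : ℝ) - ((Tg N O K b).card : ℝ) / 32)
    (fun _ _ => vlevel_occ_nonneg) (fun b _ => occ_le hN hV le_rfl b) (c := K * β / 64)
    (by positivity) (by
      have e : ∑ b ∈ F, occ N m μ O K V K b *
          ((((Tg N O K b).filter bl).card : ℝ) - ((Tg N O K b).card : ℝ) / 32) =
          ∑ b ∈ F, occ N m μ O K V K b * (((Tg N O K b).filter bl).card : ℝ) -
            (∑ b ∈ F, occ N m μ O K V K b * ((Tg N O K b).card : ℝ)) / 32 := by
        rw [Finset.sum_div, ← Finset.sum_sub_distrib]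
        refine Finset.sum_congr rfl fun b _ => ?_
        ring
      rw [e]
      linarith)
  obtain ⟨L, hLd⟩ : ∃ L, L = F.filter fun b => θ < occ N m μ O K V K b := ⟨_, rfl⟩
  rw [← hLd] at hL
  have hLm : ∀ n ≤ K, ∀ b, θ < occ N m μ O K V n b → b ∈ L := by
    intro n hn b hb
    have hb' : θ < occ N m μ O K V K b := hb.trans_le (vlevel_occ_mono hn)
    obtain ⟨-, v, hv, h3⟩ := vlevel_occ_ne (b := b) hN hV le_rfl (by linarith)
    rw [hLd]
    exact Finset.mem_filter.2 ⟨hF v hv h3, hb'⟩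
  have hLθ : ∀ b ∈ L, θ < occ N m μ O K V K b := fun b hb => by
    rw [hLd] at hb
    exact (Finset.mem_filter.1 hb).2
  have hLG : ∀ b ∈ L, Gd b ∧ ∃ v ∈ V, b ∈ ball N v (K * (K + 2)) := fun b hb =>
    vlevel_occ_ne hN hV le_rfl (by have := hLθ b hb; linarith)
  obtain ⟨X', hX'⟩ : ∃ X', X' = X ∪ L.biUnion fun b => insert (μ b) (Tg N O K b) := ⟨_, rfl⟩
  have hXX : X ⊆ X' := by
    rw [hX']
    exact Finset.subset_union_left
  have hTX : ∀ b ∈ L, insert (μ b) (Tg N O K b) ⊆ X' := fun b hb => by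
    rw [hX']
    exact (Finset.subset_biUnion_of_mem (fun b => insert (μ b) (Tg N O K b)) hb).trans
      Finset.subset_union_right
  have hmem : ∀ y ∈ X', y ∈ X ∨ ∃ b ∈ L, y = μ b ∨ y ∈ Tg N O K b := fun y hy => by
    rw [hX'] at hy
    rcases Finset.mem_union.1 hy with h | h
    · exact Or.inl h
    · obtain ⟨b, hb, h⟩ := Finset.mem_biUnion.1 h
      exact Or.inr ⟨b, hb, Finset.mem_insert.1 h⟩
  have hT : ∀ b ∈ L, ∀ y ∈ Tg N O K b,
      Relation.ReflTransGen (fun a a' => a ∈ X' ∧ a' ∈ X' ∧ a' ∈ N a) b y := by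
    intro b hb y hy
    refine rtg_mono ((Tg_spec (N := N) (O := O) (b := b) hN.kpos).1.2 y hy) fun a a' h => ?_
    exact ⟨hTX b hb (Finset.mem_insert_of_mem h.1), hTX b hb (Finset.mem_insert_of_mem h.2.1),
      NO_sub N O a h.2.2⟩
  have hbX : ∀ b ∈ L, b ∈ X' := fun b hb =>
    hTX b hb (Finset.mem_insert_of_mem (Tg_spec (N := N) (O := O) (b := b) hN.kpos).1.1)
  have hμX : ∀ b ∈ L, μ b ∈ X' := fun b hb => hTX b hb (Finset.mem_insert_self _ _)
  have hXc : ∀ y ∈ X, Relation.ReflTransGen (fun a a' => a ∈ X' ∧ a' ∈ X' ∧ a' ∈ N a) x0 y :=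
    fun y hy => rtg_mono (hX.2 y hy) fun a a' h => ⟨hXX h.1, hXX h.2.1, h.2.2⟩
  have hconn : ∀ n ≤ K, ∀ b, θ < occ N m μ O K V n b →
      Relation.ReflTransGen (fun a a' => a ∈ X' ∧ a' ∈ X' ∧ a' ∈ N a) x0 b := by
    intro n
    induction n with
    | zero =>
      intro _ b hb
      simp only [occ, Finset.range_zero, Finset.sum_empty, Finset.sum_const_zero] at hb
      linarith
    | succ n ih =>
      intro hn c hc
      have hn' : n ≤ K := by omega
      have hcL := hLm _ hn c hc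
      by_cases hcV : c ∈ V
      · exact hXc c (hVX hcV)
      rw [occ_succ hN hV hF hn', if_neg hcV, zero_add] at hc
      have hex : ∃ b, qq N m μ O K b c ≠ 0 ∧ θ < occ N m μ O K V n b := by
        by_contra hcon
        push Not at hcon
        have := vlevel_col (b' := c) hN F (occ N m μ O K V n) hθ fun b _ h3 h4 =>
          ⟨(vlevel_occ_ne hN hV hn' h3).1, hcon b h4⟩
        linarith
      obtain ⟨b, hq, hb⟩ := hex
      obtain ⟨-, hs, -, hne, y, hy, hyN⟩ := qq_ne_zero hN.mN hq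
      have hbL := hLm n hn' b hb
      have hyT : y ∈ Tg N O K b := by
        unfold Tg
        rw [if_pos hs]
        exact hy
      refine (((ih hn' b hb).trans (hT b hbL y hyT)).tail
        ⟨hTX b hbL (Finset.mem_insert_of_mem hyT), hμX c hcL, hyN⟩).tail
        ⟨hμX c hcL, hbX c hcL, hN.sym _ _ (hN.mat.2 c hne)⟩
  refine ⟨X', hXX, ?_, ⟨hXX hX.1, ?_⟩, ?_⟩
  · intro y hy
    rcases hmem y hy with h | ⟨b, hb, h⟩
    · exact hXS h
    obtain ⟨-, v, hv, hbv⟩ := hLG b hb
    have hbS : b ∈ S := ball_subS hN.sym hsub (hXS (hVX hv)) hbv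
    rcases h with rfl | h
    · by_cases he : μ b = b
      · rw [he]
        exact hbS
      · exact hsub _ _ (hN.sym _ _ (hN.mat.2 b he))
    · exact ball_subS hN.sym hsub hbS
        (ball_NO_sub ((Tg_spec (N := N) (O := O) (b := b) hN.kpos).2.1 h))
  · intro y hy
    rcases hmem y hy with h | ⟨b, hb, h⟩
    · exact hXc y h
    have hb0 := hconn K le_rfl b (hLθ b hb)
    rcases h with rfl | h
    · by_cases he : μ b = b
      · rw [he]
        exact hb0
      · exact hb0.tail ⟨hbX b hb, hμX b hb, hN.mat.2 b he⟩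
    · exact hb0.trans (hT b hb y h)
  · have c1 : X'.card ≤ X.card + ∑ b ∈ L, 2 * (Tg N O K b).card := by
      rw [hX']
      refine (Finset.card_union_le _ _).trans (Nat.add_le_add_left ?_ _)
      refine Finset.card_biUnion_le.trans (Finset.sum_le_sum fun b _ => ?_)
      have h3 := Finset.card_insert_le (μ b) (Tg N O K b)
      have h4 : 0 < (Tg N O K b).card :=
        Finset.card_pos.2 ⟨b, (Tg_spec (N := N) (O := O) (b := b) hN.kpos).1.1⟩
      omega
    have c2 : ∑ b ∈ L, ((Tg N O K b).filter bl).card ≤ (X'.filter bl).card := by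
      rw [← Finset.card_biUnion]
      · refine Finset.card_le_card fun y hy => ?_
        obtain ⟨b, hb, h⟩ := Finset.mem_biUnion.1 hy
        obtain ⟨h3, h4⟩ := Finset.mem_filter.1 h
        exact Finset.mem_filter.2 ⟨hTX b hb (Finset.mem_insert_of_mem h3), h4⟩
      · intro b hb c hc hne
        refine Finset.disjoint_left.2 fun y h3 h4 => hne ?_
        exact hN.guniq b c y (hLG b hb).1 (hLG c hc).1
          ((Tg_spec hN.kpos).2.1 (Finset.mem_filter.1 h3).1)
          ((Tg_spec hN.kpos).2.1 (Finset.mem_filter.1 h4).1)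
    have c1' : (X'.card : ℝ) ≤ X.card + 2 * ∑ b ∈ L, ((Tg N O K b).card : ℝ) := by
      rw [Finset.mul_sum]
      exact_mod_cast c1
    have c2' : ∑ b ∈ L, (((Tg N O K b).filter bl).card : ℝ) ≤ (X'.filter bl).card := by
      exact_mod_cast c2
    rw [Finset.sum_sub_distrib, ← Finset.sum_div] at hL
    have c3 : 0 ≤ ∑ b ∈ L, ((Tg N O K b).card : ℝ) :=
      Finset.sum_nonneg fun _ _ => Nat.cast_nonneg _
    have c4 : (X'.card : ℝ) ≤ 128 * (X'.filter bl).card := by linarith
    exact_mod_cast c4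

end Pool.Agent.Lib.MP_459a07_lc.V
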