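import Pool.Agent.Lib.MP_459a07_lc.VEx
import Pool.Agent.Lib.MP_459a07_lc.VLevel

set_option autoImplicit false

namespace Pool.Agent.Lib.MP_459a07_lc.V

open Classical

/-- Conditions on the parameters. -/
structure PC (k d L σ : ℕ) (p : Par) : Prop where
  hd : p.d = d
  hρ : p.ρ1 ≤ p.ρ'
  hL : (k + 1) ^ (p.ρ' + 1) < L
  hσ : L + p.ρ' ≤ σ
  hK : 1 ≤ p.K
  hT : 2 * (k + 1) ^ p.R ≤ p.Ts
  hl8 : 8 ∣ p.l
  hl : 16 * (k + 1) ^ p.R ≤ p.l

variable {Q : Inst} {k d L σ ρ : ℕ} {p : Par} {s : St} {x j t u v z : ℕ} {fl : Bool}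
  {K : Finset ℕ} {f : ℕ → ℕ} {r : Prop}

theorem ap_off (hf : Fx Q.N s.μ x z K f) (hv : v ∉ K) : (ap Q d fl s z K f r).row v = s.row v := by
  have hz : v ≠ z := fun e => hv (e ▸ hf.2.1)
  have h1 : glue K f s.μ v = s.μ v := if_neg hv
  have h2 : (s.mk' v ∨ (v = z ∧ f z = z ∧ cr Q d fl s z)) = s.mk' v :=
    propext ⟨fun h => h.elim id fun h => absurd h.1 hz, Or.inl⟩
  have h3 : (s.rd v ∨ (r ∧ v = z ∧ f z = z ∧ cr Q d fl s z)) = s.rd v :=
    propext ⟨fun h => h.elim id fun h => absurd h.2.1 hz, Or.inl⟩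
  change (glue K f s.μ v, (s.mk' v ∨ (v = z ∧ f z = z ∧ cr Q d fl s z)),
    (s.rd v ∨ (r ∧ v = z ∧ f z = z ∧ cr Q d fl s z))) = (s.μ v, s.mk' v, s.rd v)
  rw [h1, h2, h3]

theorem ap_hol (hf : Fx Q.N s.μ x z K f) (h : hol Q d fl (ap Q d fl s z K f r) v) :
    hol Q d fl s v ∧ v ≠ x := by
  obtain ⟨⟨h1, h2⟩, h3⟩ := h
  have h2' : ¬ (s.mk' v ∨ (v = z ∧ f z = z ∧ cr Q d fl s z)) := h2
  have h3' : glue K f s.μ v = v := h3
  have hc : cr Q d fl s v := ⟨h1, fun h => h2' (Or.inl h)⟩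
  by_cases hv : v ∈ K
  · have h4 : f v = v := by
      rw [← h3']
      unfold glue
      rw [if_pos hv]
      unfold glue at h3'
      rw [if_pos hv] at h3'
      rw [h3', h3']
    rcases hf.2.2.2 v hv h4 with h5 | h5
    · exact ⟨⟨hc, h5.1⟩, h5.2⟩
    · exfalso
      apply h2'
      right
      rw [← h5]
      exact ⟨rfl, h4, hc⟩
  · have h4 : s.μ v = v := by
      unfold glue at h3'
      rw [if_neg hv] at h3'
      exact h3'
    exact ⟨⟨hc, h4⟩, fun e => hv (e ▸ hf.1.1)⟩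

theorem blk_mono {ρ' : ℕ} (h : ρ ≤ ρ') (hb : blk Q s ρ u) : blk Q s ρ' u := by
  obtain ⟨y, hy, ht⟩ := hb
  exact ⟨y, ball_mono h hy, ht⟩

/-- A patch whose mark is far from tainted nodes keeps the invariant. -/
theorem inv_ap (hV : Q.Valid k d L σ) (hP : PC k d L σ p) (hI : Inv Q p s)
    (hf : Fx Q.N s.μ x z K f)
    (h1 : f z = z → cr Q d false s z → ¬ blk Q s p.ρ1 z ∧ (¬ r → ¬ blk Q s p.ρ' z)) :
    Inv Q p (ap Q d false s z K f r) := by
  refine ⟨mat_glue hI.mat hf.2.2.1, ?_, ?_, ?_, ?_⟩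
  · rintro w (h | h)
    · exact Or.inl (hI.rdmk w h)
    · exact Or.inr h.2
  · rintro w (h | ⟨rfl, -, h⟩)
    · exact hI.mkdeg w h
    · have h2 := h.1
      have h3 : ind (false = true ∧ Q.hw w) = 0 := if_neg (by simp)
      rw [h3] at h2
      rw [hP.hd]
      omega
  · rintro w (h | ⟨rfl, h2, h3⟩) y hy
    · refine ⟨(hI.sep w h y hy).1, ?_⟩
      rintro (h4 | ⟨rfl, h2, h3⟩)
      · exact (hI.sep w h y hy).2 h4
      · exact absurd ⟨w, ball_symm hV.sym hy, Or.inr h⟩ (h1 h2 h3).1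
    · refine ⟨fun h4 => (h1 h2 h3).1 ⟨y, hy, Or.inl h4⟩, ?_⟩
      rintro (h4 | h4)
      · exact absurd ⟨y, hy, Or.inr h4⟩ (h1 h2 h3).1
      · exact h4.1
  · rintro w (h | ⟨rfl, h2, h3⟩) hr y hy
    · have hr' : ¬ s.rd w := fun e => hr (Or.inl e)
      refine ⟨(hI.deep w h hr' y hy).1, ?_⟩
      rintro (h4 | ⟨rfl, h2, h3⟩) hr2
      · exact (hI.deep w h hr' y hy).2 h4 fun e => hr2 (Or.inl e)
      · have hr3 : ¬ r := fun e => hr2 (Or.inr ⟨e, rfl, h2, h3⟩)
        exact absurd ⟨w, ball_symm hV.sym hy, Or.inr h⟩ ((h1 h2 h3).2 hr3)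
    · have hr3 : ¬ r := fun e => hr (Or.inr ⟨e, rfl, h2, h3⟩)
      refine ⟨fun h4 => (h1 h2 h3).2 hr3 ⟨y, hy, Or.inl h4⟩, ?_⟩
      rintro (h4 | h4) -
      · exact absurd ⟨y, hy, Or.inr h4⟩ ((h1 h2 h3).2 hr3)
      · exact h4.1

theorem inv_st0 (Q : Inst) (p : Par) : Inv Q p st0 := by
  refine ⟨⟨fun _ => rfl, fun v h => absurd rfl h⟩, fun _ h => h, ?_, ?_, ?_⟩
  · intro u h
    exact h.elim
  · intro u h
    exact h.elim
  · intro u h
    exact h.elim

theorem vact_exit {N : ℕ → Finset ℕ} {C : Finset ℕ} {a y n : ℕ} (ha : a ∈ C) (hy : y ∈ ball N a n)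
    (hyC : y ∉ C) : ∃ y' ∈ ball N a n, y' ∈ C ∧ ∃ w ∈ N y', w ∉ C := by
  induction n generalizing y with
  | zero =>
    have : y = a := by simpa [ball] using hy
    exact absurd (this ▸ ha) hyC
  | succ n ih =>
    rcases mem_ball_succ.1 hy with h | ⟨c, hc, h⟩
    · obtain ⟨y', h1, h2⟩ := ih h hyC
      exact ⟨y', ball_mono (Nat.le_succ n) h1, h2⟩
    · by_cases hcC : c ∈ C
      · exact ⟨c, ball_mono (Nat.le_succ n) hc, hcC, y, h, hyC⟩
      · obtain ⟨y', h1, h2⟩ := ih hc hcC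
        exact ⟨y', ball_mono (Nat.le_succ n) h1, h2⟩

/-- An odd connected set of blocked nodes that should be covered has a large cut.  Small sets:
`nodef`.  Large sets: if the cut were below `d`, fewer than `d` nodes have a neighbour outside;
take a connected subset with `L` nodes (`conn_sub`); at most `(d + 1) (k + 1) ^ ρ < L` of them
are within `ρ` of such a node or of one of the at most two `tn` nodes in `ball b (L + ρ)`; any
other node has its `ρ`-ball inside `C`, so it is not blocked. -/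
theorem cut_ge (hV : Q.Valid k d L σ) (hL : (k + 1) ^ (ρ + 1) < L) (hσ : L + ρ ≤ σ)
    {C : Finset ℕ} {b : ℕ} (hC : Conn Q.N C b) (ho : Odd C.card)
    (h : ∀ u ∈ C, cr Q d false s u ∧ blk Q s ρ u) : d ≤ cutm Q.N Q.m C := by
  have hdg : ∀ u ∈ C, dg Q.N Q.m u = d := by
    intro u hu
    have h2 := (h u hu).1.1
    have h3 : ind (false = true ∧ Q.hw u) = 0 := if_neg (by simp)
    rw [h3] at h2
    omega
  by_cases hsm : C.card ≤ L
  · have hnw : ∀ u ∈ C, ¬ Q.hw u := by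
      intro u hu hw
      have h1 := hV.deg u
      have h2 : ind (Q.hw u) = 1 := if_pos hw
      have h3 := hdg u hu
      omega
    have h1 := hV.nodef C b hC ho hsm (by
      intro u hu
      have h2 : ind (Q.hw u) = 0 := if_neg (hnw u hu)
      have h3 := hdg u hu
      omega)
    have h2 : (C.filter Q.hw).card = 0 := by
      rw [Finset.card_eq_zero, Finset.filter_eq_empty_iff]
      exact hnw
    omega
  · by_contra hlt
    have hB : (C.filter fun y => ∃ w ∈ Q.N y, w ∉ C).card ≤ cutm Q.N Q.m C := by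
      rw [Finset.card_filter]
      refine Finset.sum_le_sum fun y _ => ?_
      split_ifs with hy
      · obtain ⟨w, hw, hwC⟩ := hy
        have h1 : Q.m y w ≠ 0 := (hV.mN y w).2 hw
        have h2 : Q.m y w ≤ ∑ w ∈ Q.N y \ C, Q.m y w :=
          Finset.single_le_sum (f := fun w => Q.m y w) (fun _ _ => Nat.zero_le _)
            (Finset.mem_sdiff.2 ⟨hw, hwC⟩)
        omega
      · exact Nat.zero_le _
    have hL1 : 1 ≤ L := by omega
    obtain ⟨T, hTC, hT, hcard⟩ := conn_sub hC hL1 (by omega)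
    have hsub : T ⊆ ((C.filter fun y => ∃ w ∈ Q.N y, w ∉ C) ∪
        (ball Q.N b σ).filter Q.tn).biUnion fun y => ball Q.N y ρ := by
      intro u hu
      obtain ⟨y, hy, ht⟩ := (h u (hTC hu)).2
      rw [Finset.mem_biUnion]
      by_cases hyC : y ∈ C
      · refine ⟨y, Finset.mem_union_right _ (Finset.mem_filter.2 ⟨?_, ?_⟩), ball_symm hV.sym hy⟩
        · exact ball_mono (by omega) (ball_trans (hT.sub_ball hu) hy)
        · exact ht.resolve_right (h y hyC).1.2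
      · obtain ⟨y', hy', h1⟩ := vact_exit (hTC hu) hy hyC
        exact ⟨y', Finset.mem_union_left _ (Finset.mem_filter.2 h1), ball_symm hV.sym hy'⟩
    have h1 := Finset.card_le_card hsub
    have h2 := Finset.card_biUnion_le_card_mul ((C.filter fun y => ∃ w ∈ Q.N y, w ∉ C) ∪
        (ball Q.N b σ).filter Q.tn) (fun y => ball Q.N y ρ) ((k + 1) ^ ρ)
      fun y _ => card_ball hV.card
    have h3 := Finset.card_union_le (C.filter fun y => ∃ w ∈ Q.N y, w ∉ C)
      ((ball Q.N b σ).filter Q.tn)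
    have h4 := hV.tn2 b
    have h5 := hV.dk
    have h6 : ((C.filter fun y => ∃ w ∈ Q.N y, w ∉ C) ∪ (ball Q.N b σ).filter Q.tn).card *
        (k + 1) ^ ρ ≤ (k + 1) * (k + 1) ^ ρ := Nat.mul_le_mul_right _ (by omega)
    rw [pow_succ'] at hL
    omega

theorem stuck_noaug : NoAug Q.N s.μ (Stuck Q p s) p.smax := by
  intro h y K' f' hS hK hF
  by_contra hne
  exact hS.2 ⟨(y, K', f'), hK, hF, Or.inl hne⟩

theorem ot_spec (hP : PC k d L σ p) (ht : t ≤ p.Ts) (h : Ot Q p s t u) :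
    cr Q d false s u ∧ blk Q s p.ρ' u := by
  obtain ⟨y, K', f', hS, hK, hF, -⟩ := h
  have hK' : K'.card ≤ p.smax := hK.trans (sc_mono p.K ht)
  rw [← hP.hd]
  by_contra hcon
  refine hS.2 ⟨(u, K', f'), hK', hF, Or.inr ?_⟩
  exact not_and_or.1 hcon

end Pool.Agent.Lib.MP_459a07_lc.V
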