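import Pool.Agent.Lib.MP_459a07_lc.VNice

set_option autoImplicit false

namespace Pool.Agent.Lib.MP_459a07_lc.V

open Classical

variable {Q : Inst} {k d L σ : ℕ} {p : Par} {s : St} {x j t u v : ℕ}

theorem vact2_fill (B : Finset ℕ) (c : ℕ → ℕ) (n : ℕ) (hn : n ≤ ∑ u ∈ B, c u) :
    ∃ g : ℕ → ℕ, (∀ j < n, g j ∈ B ∧ 0 < c (g j)) ∧
      ∀ u, ((Finset.range n).filter fun j => g j = u).card ≤ c u := by
  induction n with
  | zero => exact ⟨id, fun j hj => absurd hj (Nat.not_lt_zero _), fun u => by simp⟩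
  | succ n ih =>
    obtain ⟨g, hg1, hg2⟩ := ih (by omega)
    have hsum : ∑ u ∈ B, ((Finset.range n).filter fun j => g j = u).card = n := by
      rw [← Finset.card_eq_sum_card_fiberwise (f := g) (s := Finset.range n) (t := B)
        (fun j hj => (hg1 j (Finset.mem_range.1 (Finset.mem_coe.1 hj))).1), Finset.card_range]
    have hex : ∃ w ∈ B, ((Finset.range n).filter fun j => g j = w).card < c w := by
      by_contra hcon
      have h1 : ∑ u ∈ B, c u ≤ ∑ u ∈ B, ((Finset.range n).filter fun j => g j = u).card :=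
        Finset.sum_le_sum fun w hw => not_lt.1 fun hlt => hcon ⟨w, hw, hlt⟩
      omega
    obtain ⟨w, hwB, hw⟩ := hex
    refine ⟨fun j => if j = n then w else g j, fun j hj => ?_, fun u => ?_⟩
    · by_cases hjn : j = n
      · simp only [hjn, if_true]
        exact ⟨hwB, by omega⟩
      · simp only [hjn, if_false]
        exact hg1 j (by omega)
    · have e : ((Finset.range n).filter fun j => (if j = n then w else g j) = u) =
          (Finset.range n).filter fun j => g j = u := by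
        refine Finset.filter_congr fun j hj => ?_
        have hjn : j ≠ n := ne_of_lt (Finset.mem_range.1 hj)
        simp only [hjn, if_false]
      rw [Finset.range_add_one, Finset.filter_insert, e]
      by_cases hwu : w = u
      · subst hwu
        simp only [if_true]
        have := Finset.card_insert_le n ((Finset.range n).filter fun j => g j = w)
        omega
      · simp only [if_true, hwu, if_false]
        exact hg2 u

/-- Rounding of weights. -/
theorem exists_tg (B : Finset ℕ) (l : ℕ) (y : ℕ → ℝ) (hy : ∀ u, 0 ≤ y u)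
    (hm : 1 / 4 ≤ ∑ u ∈ B, y u) : ∃ g, TgOK B l y g := by
  have hl : (0 : ℝ) ≤ l := Nat.cast_nonneg l
  have hn : l / 4 ≤ ∑ u ∈ B, ⌈(l : ℝ) * y u⌉₊ := by
    have h1 : ((l / 4 : ℕ) : ℝ) ≤ (l : ℝ) / 4 := by
      have := @Nat.cast_div_le ℝ _ _ _ l 4
      simpa using this
    have h2 : (l : ℝ) * ∑ u ∈ B, y u ≤ ((∑ u ∈ B, ⌈(l : ℝ) * y u⌉₊ : ℕ) : ℝ) := by
      rw [Finset.mul_sum, Nat.cast_sum]
      exact Finset.sum_le_sum fun u _ => Nat.le_ceil _
    have h3 : (l : ℝ) * (1 / 4) ≤ (l : ℝ) * ∑ u ∈ B, y u := mul_le_mul_of_nonneg_left hm hl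
    have h4 : ((l / 4 : ℕ) : ℝ) ≤ ((∑ u ∈ B, ⌈(l : ℝ) * y u⌉₊ : ℕ) : ℝ) := by linarith
    exact_mod_cast h4
  obtain ⟨g, hg1, hg2⟩ := vact2_fill B (fun u => ⌈(l : ℝ) * y u⌉₊) (l / 4) hn
  refine ⟨g, fun j hj => ⟨(hg1 j hj).1, ?_⟩, fun u _ => ?_⟩
  · have h1 : (0 : ℝ) < (l : ℝ) * y (g j) := Nat.ceil_pos.1 (hg1 j hj).2
    rcases (hy (g j)).lt_or_eq with h | h
    · exact h
    · rw [← h, mul_zero] at h1
      exact absurd h1 (lt_irrefl _)
  · have h1 : ((((Finset.range (l / 4)).filter fun j => g j = u).card : ℕ) : ℝ) ≤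
        (⌈(l : ℝ) * y u⌉₊ : ℝ) := by exact_mod_cast hg2 u
    have h2 := Nat.ceil_lt_add_one (mul_nonneg hl (hy u))
    linarith

theorem vact2_ot_mono {t' : ℕ} (h : t ≤ t') (ho : Ot Q p s t u) : Ot Q p s t' u :=
  oe_mono (sc_mono p.K h) (fun _ hx => hx) ho

/-- Each node spoils at most one scale, so at least half of the scales are stable. -/
theorem stab_count (hV : Q.Valid k d L σ) (hP : PC k d L σ p) :
    p.Ts ≤ 2 * ((Finset.range p.Ts).filter fun t => Stab Q p s t p.R x).card := by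
  have hex : ∀ t, ∃ u, ¬ Stab Q p s t p.R x →
      u ∈ ball Q.N x p.R ∧ Ot Q p s (t + 1) u ∧ ¬ Ot Q p s t u := by
    intro t
    by_cases h : Stab Q p s t p.R x
    · exact ⟨0, fun h' => absurd h h'⟩
    · by_contra hcon
      apply h
      intro u hu h1
      by_contra h2
      exact hcon ⟨u, fun _ => ⟨hu, h1, h2⟩⟩
  choose w hw using hex
  have h1 : ((Finset.range p.Ts).filter fun t => ¬ Stab Q p s t p.R x).card ≤
      (ball Q.N x p.R).card := by
    refine Finset.card_le_card_of_injOn w (fun t ht => ?_) (fun t ht t' ht' he => ?_)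
    · exact Finset.mem_coe.2 (hw t (Finset.mem_filter.1 (Finset.mem_coe.1 ht)).2).1
    · have a := hw t (Finset.mem_filter.1 (Finset.mem_coe.1 ht)).2
      have b := hw t' (Finset.mem_filter.1 (Finset.mem_coe.1 ht')).2
      rw [← he] at b
      rcases lt_trichotomy t t' with h | h | h
      · exact absurd (vact2_ot_mono (Nat.succ_le_of_lt h) a.2.1) b.2.2
      · exact h
      · exact absurd (vact2_ot_mono (Nat.succ_le_of_lt h) b.2.1) a.2.2
  have h2 : (ball Q.N x p.R).card ≤ (k + 1) ^ p.R := card_ball hV.card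
  have h3 := Finset.card_filter_add_card_filter_not (s := Finset.range p.Ts)
    (fun t => Stab Q p s t p.R x)
  rw [Finset.card_range] at h3
  have h4 := hP.hT
  omega

theorem xa_nonneg : 0 ≤ xa Q p s x u := by
  refine div_nonneg (Finset.sum_nonneg fun t _ => ?_) (Nat.cast_nonneg _)
  split_ifs
  · exact xm_nonneg
  · exact le_rfl

theorem vact2_ts_pos (hP : PC k d L σ p) : 0 < p.Ts := by
  have h1 := hP.hT
  have h2 : 0 < (k + 1) ^ p.R := pow_pos (Nat.succ_pos k) _
  omega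

theorem xa_mass (hV : Q.Valid k d L σ) (hP : PC k d L σ p) (hI : Inv Q p s)
    (hx : Stuck Q p s x) : 1 / 4 ≤ ∑ u ∈ ball Q.N x p.R, xa Q p s x u := by
  have hT : (0 : ℝ) < p.Ts := by exact_mod_cast vact2_ts_pos hP
  have hc : (p.Ts : ℝ) ≤ 2 * (((Finset.range p.Ts).filter fun t => Stab Q p s t p.R x).card : ℝ) := by
    exact_mod_cast stab_count (s := s) (x := x) hV hP
  unfold xa
  rw [← Finset.sum_div, Finset.sum_comm, le_div_iff₀ hT]
  have h1 : ∑ t ∈ Finset.range p.Ts, (if Stab Q p s t p.R x then (1 / 2 : ℝ) else 0) ≤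
      ∑ t ∈ Finset.range p.Ts, ∑ u ∈ ball Q.N x p.R,
        if Stab Q p s t p.R x then xm Q.N Q.m s.μ (Ot Q p s t) p.K x u else 0 := by
    refine Finset.sum_le_sum fun t ht => ?_
    by_cases hs : Stab Q p s t p.R x
    · simp only [hs, if_true]
      exact (xm_mass (nice hV hP hI (Finset.mem_range.1 ht)) (start hx hs) _
        (ball_mono (by unfold Par.R; omega))).1
    · simp only [hs, if_false, Finset.sum_const_zero, le_refl]
  rw [← Finset.sum_filter, Finset.sum_const, nsmul_eq_mul] at h1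
  linarith

theorem tg_spec (hV : Q.Valid k d L σ) (hP : PC k d L σ p) (hI : Inv Q p s)
    (hx : Stuck Q p s x) : TgOK (ball Q.N x p.R) p.l (xa Q p s x) (tg Q p s x) :=
  epsilon_spec (exists_tg _ _ _ (fun _ => xa_nonneg) (xa_mass hV hP hI hx))

theorem xa_inflow (hV : Q.Valid k d L σ) (hP : PC k d L σ p) (hI : Inv Q p s) {V : Finset ℕ}
    (hx : ∀ x ∈ V, Stuck Q p s x) (u : ℕ) : ∑ x ∈ V, xa Q p s x u ≤ 1 / p.K := by
  have hT : (0 : ℝ) < p.Ts := by exact_mod_cast vact2_ts_pos hP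
  unfold xa
  rw [← Finset.sum_div, Finset.sum_comm, div_le_iff₀ hT]
  have h1 : ∑ t ∈ Finset.range p.Ts, ∑ x ∈ V,
      (if Stab Q p s t p.R x then xm Q.N Q.m s.μ (Ot Q p s t) p.K x u else 0) ≤
      ∑ _t ∈ Finset.range p.Ts, (1 / p.K : ℝ) := by
    refine Finset.sum_le_sum fun t ht => ?_
    rw [← Finset.sum_filter]
    exact xm_inflow (nice hV hP hI (Finset.mem_range.1 ht))
      (fun y hy => start (hx y (Finset.mem_filter.1 hy).1) (Finset.mem_filter.1 hy).2) u
  rw [Finset.sum_const, Finset.card_range, nsmul_eq_mul] at h1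
  linarith

theorem vact2_cases (Q : Inst) (p : Par) (s : St) (x j : ℕ) :
    (∃ t, hol Q p.d false s x ∧ Det Q p s x t ∧
      ev1 Q p s x j = ap Q p.d false s t.1 t.2.1 t.2.2 False) ∨
    (∃ t, Stuck Q p s x ∧ j < p.l / 4 ∧ ¬ blk Q s p.ρ1 (tg Q p s x j) ∧
      Mov Q p s x (tg Q p s x j) t ∧
      ev1 Q p s x j = ap Q p.d false s (tg Q p s x j) t.1 t.2 True) ∨
    (ev1 Q p s x j = s ∧ (hol Q p.d false s x → Stuck Q p s x ∧
      ¬ (j < p.l / 4 ∧ ¬ blk Q s p.ρ1 (tg Q p s x j) ∧ ∃ t, Mov Q p s x (tg Q p s x j) t))) := by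
  by_cases h1 : hol Q p.d false s x
  · by_cases h2 : ∃ t, Det Q p s x t
    · exact Or.inl ⟨epsilon (Det Q p s x), h1, epsilon_spec h2, by
        unfold ev1
        rw [if_pos h1, if_pos h2]⟩
    · by_cases h3 : j < p.l / 4 ∧ ¬ blk Q s p.ρ1 (tg Q p s x j) ∧
          ∃ t, Mov Q p s x (tg Q p s x j) t
      · exact Or.inr (Or.inl ⟨epsilon (Mov Q p s x (tg Q p s x j)), ⟨h1, h2⟩, h3.1, h3.2.1,
          epsilon_spec h3.2.2, by
            unfold ev1
            rw [if_pos h1, if_neg h2, if_pos h3]⟩)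
      · exact Or.inr (Or.inr ⟨by
          unfold ev1
          rw [if_pos h1, if_neg h2, if_neg h3], fun _ => ⟨⟨h1, h2⟩, h3⟩⟩)
  · exact Or.inr (Or.inr ⟨by
      unfold ev1
      rw [if_neg h1], fun h => absurd h h1⟩)

theorem ev1_inv (hV : Q.Valid k d L σ) (hP : PC k d L σ p) (hI : Inv Q p s) :
    Inv Q p (ev1 Q p s x j) := by
  have hd := hP.hd
  subst hd
  rcases vact2_cases Q p s x j with ⟨t, -, ht, e⟩ | ⟨t, -, -, hb, ht, e⟩ | ⟨e, -⟩
  · rw [e]
    refine inv_ap hV hP hI ht.2.1 fun h1 h2 => ?_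
    have h3 : ¬ blk Q s p.ρ' t.1 := by
      rcases ht.2.2 with h | h | h
      · exact absurd h1 h
      · exact absurd h2 h
      · exact h
    exact ⟨fun h => h3 (blk_mono hP.hρ h), fun _ => h3⟩
  · rw [e]
    exact inv_ap hV hP hI ht.2.1 fun _ _ => ⟨hb, fun h => absurd trivial h⟩
  · rw [e]
    exact hI

theorem ev1_hol (hP : PC k d L σ p) (h : hol Q d false (ev1 Q p s x j) v) :
    hol Q d false s v := by
  have hd := hP.hd
  subst hd
  rcases vact2_cases Q p s x j with ⟨t, -, ht, e⟩ | ⟨t, -, -, -, ht, e⟩ | ⟨e, -⟩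
  · rw [e] at h
    exact (ap_hol ht.2.1 h).1
  · rw [e] at h
    exact (ap_hol ht.2.1 h).1
  · rwa [e] at h

theorem vact2_mov (hV : Q.Valid k d L σ) (hP : PC k d L σ p) (hI : Inv Q p s)
    (hx : Stuck Q p s x) (h : xa Q p s x u ≠ 0) : ∃ w, Mov Q p s x u w := by
  have h1 : ∑ t ∈ Finset.range p.Ts,
      (if Stab Q p s t p.R x then xm Q.N Q.m s.μ (Ot Q p s t) p.K x u else 0) ≠ 0 := by
    intro h0
    apply h
    unfold xa
    rw [h0, zero_div]
  obtain ⟨t, ht, h2⟩ := Finset.exists_ne_zero_of_sum_ne_zero h1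
  by_cases hs : Stab Q p s t p.R x
  · rw [if_pos hs] at h2
    exact xm_mov hV hP hI (Finset.mem_range.1 ht) hx hs h2
  · rw [if_neg hs] at h2
    exact absurd rfl h2

theorem ev1_good (hV : Q.Valid k d L σ) (hP : PC k d L σ p) (hI : Inv Q p s)
    (hx : hol Q d false s x) (hg : good Q p s x j) : ¬ hol Q d false (ev1 Q p s x j) x := by
  have hd := hP.hd
  subst hd
  intro h
  rcases vact2_cases Q p s x j with ⟨t, -, ht, e⟩ | ⟨t, -, -, -, ht, e⟩ | ⟨-, e⟩
  · rw [e] at h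
    exact (ap_hol ht.2.1 h).2 rfl
  · rw [e] at h
    exact (ap_hol ht.2.1 h).2 rfl
  · obtain ⟨hs, hn⟩ := e hx
    rcases hg with hg | hg
    · exact hg hs
    · exact hn ⟨hg.1, hg.2, vact2_mov hV hP hI hs ((tg_spec hV hP hI hs).1 j hg.1).2.ne'⟩

theorem ev1_rd_new (h : (ev1 Q p s x j).rd v) : s.rd v ∨ (act Q p s x j ∧ v = tg Q p s x j) := by
  rcases vact2_cases Q p s x j with ⟨t, -, -, e⟩ | ⟨t, hs, hj, -, -, e⟩ | ⟨e, -⟩
  · rw [e] at h
    rcases h with h | h
    · exact Or.inl h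
    · exact absurd h.1 id
  · rw [e] at h
    rcases h with h | h
    · exact Or.inl h
    · exact Or.inr ⟨⟨hs, hj⟩, h.2.1⟩
  · rw [e] at h
    exact Or.inl h

theorem ev1_rd_mono (h : s.rd v) : (ev1 Q p s x j).rd v := by
  rcases vact2_cases Q p s x j with ⟨t, -, -, e⟩ | ⟨t, -, -, -, -, e⟩ | ⟨e, -⟩
  · rw [e]
    exact Or.inl h
  · rw [e]
    exact Or.inl h
  · rw [e]
    exact h

theorem ev1_off (hv : v ∉ ball Q.N x p.Rl) : (ev1 Q p s x j).row v = s.row v := by
  rcases vact2_cases Q p s x j with ⟨t, -, ht, e⟩ | ⟨t, -, -, -, ht, e⟩ | ⟨e, -⟩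
  · rw [e]
    refine ap_off ht.2.1 fun hK => hv (ball_mono ?_ (fx_sub_ball ht.2.1 hK))
    have := ht.1
    unfold Par.Rl
    omega
  · rw [e]
    refine ap_off ht.2.1 fun hK => hv (ball_mono ?_ (fx_sub_ball ht.2.1 hK))
    have := ht.1
    unfold Par.Rl
    omega
  · rw [e]

/-- Few pairs lead to `u`: only `x` within distance `R` of `u` matter, each contributes at most
`l * xa x u + 1`. -/
theorem act_count (hV : Q.Valid k d L σ) (hP : PC k d L σ p) (hI : Inv Q p s) (u : ℕ)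
    (P : Finset (ℕ × ℕ)) (h : ∀ q ∈ P, act Q p s q.1 q.2 ∧ tg Q p s q.1 q.2 = u) :
    (P.card : ℝ) ≤ p.l / p.K + ((k : ℝ) + 1) ^ p.R := by
  have hst : ∀ y ∈ P.image Prod.fst, Stuck Q p s y ∧ u ∈ ball Q.N y p.R := by
    intro y hy
    obtain ⟨q, hq, rfl⟩ := Finset.mem_image.1 hy
    obtain ⟨ha, he⟩ := h q hq
    exact ⟨ha.1, he ▸ ((tg_spec hV hP hI ha.1).1 q.2 ha.2).1⟩
  have hVc : ((P.image Prod.fst).card : ℝ) ≤ ((k : ℝ) + 1) ^ p.R := by
    have h1 : P.image Prod.fst ⊆ ball Q.N u p.R := fun y hy => ball_symm hV.sym (hst y hy).2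
    have h2 : (P.image Prod.fst).card ≤ (k + 1) ^ p.R :=
      (Finset.card_le_card h1).trans (card_ball hV.card)
    exact_mod_cast h2
  have hfib : ∀ y ∈ P.image Prod.fst, ((P.filter fun q => q.1 = y).card : ℝ) ≤
      p.l * xa Q p s y u + 1 := by
    intro y hy
    refine le_trans ?_ ((tg_spec hV hP hI (hst y hy).1).2 u (hst y hy).2)
    have h1 : (P.filter fun q => q.1 = y).card ≤
        ((Finset.range (p.l / 4)).filter fun j => tg Q p s y j = u).card := by
      refine Finset.card_le_card_of_injOn Prod.snd (fun q hq => ?_) (fun q hq q' hq' he => ?_)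
      · obtain ⟨hq1, hq2⟩ := Finset.mem_filter.1 (Finset.mem_coe.1 hq)
        obtain ⟨ha, he⟩ := h q hq1
        exact Finset.mem_coe.2 (Finset.mem_filter.2 ⟨Finset.mem_range.2 ha.2, hq2 ▸ he⟩)
      · have a := (Finset.mem_filter.1 (Finset.mem_coe.1 hq)).2
        have b := (Finset.mem_filter.1 (Finset.mem_coe.1 hq')).2
        exact Prod.ext (a.trans b.symm) he
    exact_mod_cast h1
  have hsum : (P.card : ℝ) = ∑ y ∈ P.image Prod.fst, ((P.filter fun q => q.1 = y).card : ℝ) := by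
    rw [Finset.card_eq_sum_card_image Prod.fst P, Nat.cast_sum]
  have h2 : ∑ y ∈ P.image Prod.fst, ((P.filter fun q => q.1 = y).card : ℝ) ≤
      ∑ y ∈ P.image Prod.fst, (p.l * xa Q p s y u + 1) := Finset.sum_le_sum hfib
  rw [Finset.sum_add_distrib, ← Finset.mul_sum, Finset.sum_const, nsmul_eq_mul, mul_one] at h2
  have h3 := xa_inflow hV hP hI (fun y hy => (hst y hy).1) u
  have h4 : (p.l : ℝ) * ∑ y ∈ P.image Prod.fst, xa Q p s y u ≤ p.l * (1 / p.K) :=
    mul_le_mul_of_nonneg_left h3 (Nat.cast_nonneg _)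
  rw [mul_one_div] at h4
  linarith

/-- A half-blocked hole is stuck and has much mass on blocked nodes. -/
theorem hb_mass (hV : Q.Valid k d L σ) (hP : PC k d L σ p) (hI : Inv Q p s)
    (hx : hol Q d false s x) (hh : hb p.l (good Q p s x)) :
    Stuck Q p s x ∧
      1 / 16 ≤ ∑ u ∈ (ball Q.N x p.R).filter (blk Q s p.ρ1), xa Q p s x u := by
  unfold hb at hh
  have hs : Stuck Q p s x := by
    by_contra hn
    have hall : ∀ j ∈ Finset.range p.l, good Q p s x j := fun j _ => Or.inl hn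
    rw [Finset.filter_true_of_mem hall, Finset.card_range] at hh
    omega
  refine ⟨hs, ?_⟩
  have htg := tg_spec hV hP hI hs
  have h1 : ((Finset.range (p.l / 4)).filter fun j => ¬ blk Q s p.ρ1 (tg Q p s x j)).card ≤
      ((Finset.range p.l).filter (good Q p s x)).card := by
    refine Finset.card_le_card fun j hj => ?_
    obtain ⟨a, b⟩ := Finset.mem_filter.1 hj
    have a' := Finset.mem_range.1 a
    exact Finset.mem_filter.2 ⟨Finset.mem_range.2 (by omega), Or.inr ⟨a', b⟩⟩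
  have h2 := Finset.card_filter_add_card_filter_not (s := Finset.range (p.l / 4))
    (fun j => blk Q s p.ρ1 (tg Q p s x j))
  rw [Finset.card_range] at h2
  have h3 : ((Finset.range (p.l / 4)).filter fun j => blk Q s p.ρ1 (tg Q p s x j)).card ≤
      ∑ u ∈ (ball Q.N x p.R).filter (blk Q s p.ρ1),
        ((Finset.range (p.l / 4)).filter fun j => tg Q p s x j = u).card := by
    refine le_trans (Finset.card_le_card fun j hj => ?_) Finset.card_biUnion_le
    obtain ⟨a, b⟩ := Finset.mem_filter.1 hj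
    exact Finset.mem_biUnion.2 ⟨tg Q p s x j,
      Finset.mem_filter.2 ⟨(htg.1 j (Finset.mem_range.1 a)).1, b⟩, Finset.mem_filter.2 ⟨a, rfl⟩⟩
  have h4 : ((∑ u ∈ (ball Q.N x p.R).filter (blk Q s p.ρ1),
        ((Finset.range (p.l / 4)).filter fun j => tg Q p s x j = u).card : ℕ) : ℝ) ≤
      ∑ u ∈ (ball Q.N x p.R).filter (blk Q s p.ρ1), (p.l * xa Q p s x u + 1) := by
    rw [Nat.cast_sum]
    exact Finset.sum_le_sum fun u hu => htg.2 u (Finset.mem_filter.1 hu).1
  rw [Finset.sum_add_distrib, ← Finset.mul_sum, Finset.sum_const, nsmul_eq_mul, mul_one] at h4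
  have h5 : ((ball Q.N x p.R).filter (blk Q s p.ρ1)).card ≤ (k + 1) ^ p.R :=
    (Finset.card_filter_le _ _).trans (card_ball hV.card)
  have h6 := hP.hl
  obtain ⟨c, hc⟩ := hP.hl8
  have h7 : p.l + 16 * ((ball Q.N x p.R).filter (blk Q s p.ρ1)).card <
      16 * ∑ u ∈ (ball Q.N x p.R).filter (blk Q s p.ρ1),
        ((Finset.range (p.l / 4)).filter fun j => tg Q p s x j = u).card := by omega
  have h8 : (p.l : ℝ) + 16 * (((ball Q.N x p.R).filter (blk Q s p.ρ1)).card : ℝ) <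
      16 * ((∑ u ∈ (ball Q.N x p.R).filter (blk Q s p.ρ1),
        ((Finset.range (p.l / 4)).filter fun j => tg Q p s x j = u).card : ℕ) : ℝ) := by
    exact_mod_cast h7
  have h9 : (0 : ℝ) < p.l := by
    have : 0 < p.l := by omega
    exact_mod_cast this
  by_contra hcon
  have h10 := mul_lt_mul_of_pos_left (not_le.1 hcon) h9
  linarith

end Pool.Agent.Lib.MP_459a07_lc.V
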