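import Pool.Agent.Lib.MP_459a07_lc.VLoc
import Pool.Agent.Lib.MP_459a07_lc.VAct

set_option autoImplicit false

namespace Pool.Agent.Lib.MP_459a07_lc.V

open Classical

variable {Q Q' : Inst} {k d L σ ρ : ℕ} {fl : Bool} {s s' : St} {h v : ℕ} {P P' : St → Prop}

theorem vclean_msz_le {t : ℕ × Finset ℕ × (ℕ → ℕ)} (ht : Fix Q d fl ρ s h t) :
    msz Q d fl ρ s h ≤ t.2.1.card :=
  Nat.sInf_le ⟨t, ht, rfl⟩

theorem mfix_spec (hf : ∃ t, Fix Q d fl ρ s h t) :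
    MFix Q d fl ρ s h (epsilon (MFix Q d fl ρ s h)) := by
  apply epsilon_spec
  obtain ⟨t, ht⟩ := hf
  have hne : {n | ∃ t, Fix Q d fl ρ s h t ∧ t.2.1.card = n}.Nonempty := ⟨_, t, ht, rfl⟩
  obtain ⟨t', ht', hc⟩ := Nat.sInf_mem hne
  exact ⟨t', ht', hc⟩

/-- Nodes reachable by a patch smaller than the smallest fix are blocked. -/
theorem small_blk (hu : Oe Q.N s.μ (fun x => x = h) (msz Q d fl ρ s h - 1) v)
    (hf : ∃ t, Fix Q d fl ρ s h t) : cr Q d fl s v ∧ blk Q s ρ v := by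
  obtain ⟨h', K, f, rfl, hK, hfx, -⟩ := hu
  by_contra hcon
  have h1 : Fix Q d fl ρ s h' (v, K, f) := ⟨hfx, Or.inr (not_and_or.1 hcon)⟩
  have h2 : msz Q d fl ρ s h' ≤ K.card := vclean_msz_le h1
  have h3 : 0 < K.card := Finset.card_pos.2 ⟨v, hfx.2.1⟩
  omega

theorem vclean_mem_foot (hh : hol Q d fl s h) :
    v ∈ foot Q d fl ρ s h ↔ ∃ u, (u = h ∨ Oe Q.N s.μ (fun x => x = h) (msz Q d fl ρ s h - 1) u) ∧
      v ∈ ball Q.N u (ρ + 4) := by
  unfold foot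
  rw [if_pos hh, Finset.mem_biUnion]
  constructor
  · rintro ⟨u, hu, hv⟩
    refine ⟨u, ?_, hv⟩
    rcases Finset.mem_insert.1 hu with hu | hu
    · exact Or.inl hu
    · exact Or.inr (Finset.mem_filter.1 hu).2
  · rintro ⟨u, hu, hv⟩
    refine ⟨u, ?_, hv⟩
    rcases hu with hu | hu
    · exact Finset.mem_insert.2 (Or.inl hu)
    · refine Finset.mem_insert.2 (Or.inr (Finset.mem_filter.2 ⟨?_, hu⟩))
      obtain ⟨h', K, f, rfl, hK, hfx, -⟩ := hu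
      exact ball_mono (by omega) (fx_sub_ball hfx hfx.2.1)

/-- A smallest fix lies deep inside the footprint (`minp`). -/
theorem mfix_foot (hs : Sym Q.N) (hμ : Mat Q.N s.μ) (hh : hol Q d fl s h)
    {t : ℕ × Finset ℕ × (ℕ → ℕ)} (ht : MFix Q d fl ρ s h t) :
    ∀ y ∈ t.2.1, ball Q.N y (ρ + 1) ⊆ foot Q d fl ρ s h := by
  intro y hy w hw
  obtain ⟨u, hu, hyu⟩ := minp hs hμ hh.2 (fun z => ¬ cr Q d fl s z ∨ ¬ blk Q s ρ z) ht.1.1 ht.1.2
    (fun z' K' f' h1 h2 => by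
      rw [ht.2]
      exact vclean_msz_le (t := (z', K', f')) ⟨h1, h2⟩) y hy
  rw [ht.2] at hu
  exact (vclean_mem_foot hh).2 ⟨u, hu, ball_mono (by omega) (ball_trans hyu hw)⟩

theorem foot_hol (hv : v ∈ foot Q d fl ρ s h) : hol Q d fl s h ∧ h ∈ foot Q d fl ρ s h := by
  have hh : hol Q d fl s h := by
    by_contra hh
    unfold foot at hv
    rw [if_neg hh] at hv
    exact absurd hv (Finset.notMem_empty _)
  exact ⟨hh, (vclean_mem_foot hh).2 ⟨h, Or.inl rfl, self_mem_ball⟩⟩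

theorem vclean_path (hs : Sym Q.N) (hμ : Mat Q.N s.μ) (hh : hol Q d fl s h) {u : ℕ}
    (hu : Oe Q.N s.μ (fun x => x = h) (msz Q d fl ρ s h - 1) u) :
    ∃ K ⊆ foot Q d fl ρ s h, Conn Q.N K h ∧ u ∈ K := by
  obtain ⟨h', K, f, rfl, hK, hfx, -⟩ := hu
  have hne : {n | ∃ z K f, Fx Q.N s.μ h' z K f ∧ (f z ≠ z ∨ z = u) ∧ K.card = n}.Nonempty :=
    ⟨_, u, K, f, hfx, Or.inr rfl, rfl⟩
  obtain ⟨z, K0, f0, hfx0, hok, hc⟩ := Nat.sInf_mem hne
  have hmin : ∀ z' K' f', Fx Q.N s.μ h' z' K' f' → (f' z' ≠ z' ∨ z' = u) → K0.card ≤ K'.card := by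
    intro z' K' f' h1 h2
    rw [hc]
    exact Nat.sInf_le ⟨z', K', f', h1, h2, rfl⟩
  have hle : K0.card ≤ K.card := hmin u K f hfx (Or.inr rfl)
  have hpos : 0 < K0.card := Finset.card_pos.2 ⟨z, hfx0.2.1⟩
  have hz : z = u := by
    rcases hok with hok | hok
    · have h1 : msz Q d fl ρ s h' ≤ K0.card :=
        vclean_msz_le (t := (z, K0, f0)) ⟨hfx0, Or.inl hok⟩
      omega
    · exact hok
  refine ⟨K0, fun y hy => ?_, hfx0.1, hz ▸ hfx0.2.1⟩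
  obtain ⟨u', hu', hyu⟩ := minp hs hμ hh.2 (fun z => z = u) hfx0 hok hmin y hy
  refine (vclean_mem_foot hh).2 ⟨u', ?_, ball_mono (by omega) hyu⟩
  rcases hu' with hu' | hu'
  · exact Or.inl hu'
  · exact Or.inr (oe_mono (by omega) (fun _ hx => hx) hu')

/-- For reachable `u` take a smallest patch among those that augment or end at `u`; by `minp` it
lies in the footprint. -/
theorem foot_conn (hs : Sym Q.N) (hμ : Mat Q.N s.μ) (hh : hol Q d fl s h)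
    (hf : ∃ t, Fix Q d fl ρ s h t) : Conn Q.N (foot Q d fl ρ s h) h := by
  refine ⟨(vclean_mem_foot hh).2 ⟨h, Or.inl rfl, self_mem_ball⟩, fun y hy => ?_⟩
  obtain ⟨u, hu, hyu⟩ := (vclean_mem_foot hh).1 hy
  have hsub : ball Q.N u (ρ + 4) ⊆ foot Q d fl ρ s h := fun w hw =>
    (vclean_mem_foot hh).2 ⟨u, hu, hw⟩
  have h2 := rtg_mono (q := fun a a' => a ∈ foot Q d fl ρ s h ∧ a' ∈ foot Q d fl ρ s h ∧
    a' ∈ Q.N a) ((conn_ball Q.N u (ρ + 4)).2 y hyu)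
    fun a b hab => ⟨hsub hab.1, hsub hab.2.1, hab.2.2⟩
  rcases hu with hu | hu
  · exact hu ▸ h2
  · obtain ⟨K, hK, hc, huK⟩ := vclean_path hs hμ hh hu
    exact (rtg_mono (hc.2 u huK) fun a b hab => ⟨hK hab.1, hK hab.2.1, hab.2.2⟩).trans h2

theorem vclean_hol_mem (hV : Q.Valid k d L σ) (hh : hol Q d fl s h) : h ∈ Q.S := by
  have h1 := hh.1.1
  have h2 : ind (fl = true ∧ Q.hw h) ≤ 1 := by
    unfold ind
    split_ifs <;> omega
  have h3 := hV.d2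
  have h4 : dg Q.N Q.m h ≠ 0 := by omega
  obtain ⟨w, hw, -⟩ := Finset.exists_ne_zero_of_sum_ne_zero h4
  exact hV.sub h w hw

theorem foot_sub (hV : Q.Valid k d L σ) : foot Q d fl ρ s h ⊆ Q.S := by
  intro y hy
  have hh := (foot_hol hy).1
  have hS := vclean_hol_mem hV hh
  obtain ⟨u, hu, hyu⟩ := (vclean_mem_foot hh).1 hy
  have huS : u ∈ Q.S := by
    rcases hu with hu | hu
    · exact hu ▸ hS
    · obtain ⟨h', K, f, rfl, -, hfx, -⟩ := hu
      exact ball_subS hV.sym hV.sub hS (fx_sub_ball hfx hfx.2.1)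
  exact ball_subS hV.sym hV.sub huS hyu

theorem hol_mem (hV : Q.Valid k d L σ) (hh : hol Q d fl s h) : h ∈ Q.S :=
  vclean_hol_mem hV hh

theorem ev2_off (hs : Sym Q.N) (hμ : Mat Q.N s.μ) (hv : v ∉ foot Q d fl ρ s h) :
    (ev2 Q d fl ρ s h).row v = s.row v := by
  unfold ev2
  split_ifs with hc
  · have ht := mfix_spec hc.2
    exact ap_off ht.1.1 fun hK => hv (mfix_foot hs hμ hc.1 ht v hK self_mem_ball)
  · rfl

theorem ev2_hol (hv : hol Q d fl (ev2 Q d fl ρ s h) v) : hol Q d fl s v := by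
  unfold ev2 at hv
  split_ifs at hv with hc
  · exact (ap_hol (mfix_spec hc.2).1.1 hv).1
  · exact hv

theorem ev2_fix (hf : ∃ t, Fix Q d fl ρ s h t) : ¬ hol Q d fl (ev2 Q d fl ρ s h) h := by
  intro hv
  have hh := ev2_hol hv
  unfold ev2 at hv
  rw [if_pos ⟨hh, hf⟩] at hv
  exact (ap_hol (mfix_spec hf).1.1 hv).2 rfl

/-- An event marks at most one node, inside its footprint. -/
theorem ev2_mk (hs : Sym Q.N) (hμ : Mat Q.N s.μ) : ∃ z, ∀ v, (ev2 Q d fl ρ s h).mk' v →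
    s.mk' v ∨ (v = z ∧ v ∈ foot Q d fl ρ s h) := by
  refine ⟨(epsilon (MFix Q d fl ρ s h)).1, fun v hv => ?_⟩
  unfold ev2 at hv
  split_ifs at hv with hc
  · have ht := mfix_spec hc.2
    rcases hv with hv | ⟨hv, -⟩
    · exact Or.inl hv
    · refine Or.inr ⟨hv, ?_⟩
      rw [hv]
      exact mfix_foot hs hμ hc.1 ht _ ht.1.1.2.1 self_mem_ball
  · exact Or.inl hv

end Pool.Agent.Lib.MP_459a07_lc.V
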