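import Pool.Agent.Lib.MP_459a07_lc.VCleanL

set_option autoImplicit false

namespace Pool.Agent.Lib.MP_459a07_lc.V

open Classical

variable {Q Q' : Inst} {k d L σ ρ m0 : ℕ} {fl : Bool} {s s' : St} {P P' : St → Prop}

theorem run2_inv (hC : Cleanable Q d fl ρ P) (hs : P s) (x : ℕ) : P (run2 Q d fl ρ s x) := by
  induction x with
  | zero => exact hs
  | succ x ih => exact hC.step _ _ ih

theorem vclean2_later (x e : ℕ) {v : ℕ} (h : hol Q d fl (run2 Q d fl ρ s (x + e)) v) :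
    hol Q d fl (run2 Q d fl ρ s x) v := by
  induction e with
  | zero => exact h
  | succ e ih => exact ih (ev2_hol h)

theorem vclean2_back (x : ℕ) {v : ℕ} (h : hol Q d fl (run2 Q d fl ρ s x) v) : hol Q d fl s v :=
  vclean2_later (s := s) 0 x (by rwa [Nat.zero_add])

theorem fin2_total (hV : Q.Valid k d L σ) (hC : Cleanable Q d fl ρ P) (hs : P s) :
    P (fin2 Q d fl ρ s) ∧ ∀ v, ¬ hol Q d fl (fin2 Q d fl ρ s) v := by
  refine ⟨run2_inv hC hs _, fun v hv => ?_⟩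
  have hvS : v ≤ Q.S.sup id := Finset.le_sup (f := id) (hol_mem hV hv)
  obtain ⟨e, he⟩ : ∃ e, Q.S.sup id + 1 = v + 1 + e := ⟨Q.S.sup id - v, by omega⟩
  unfold fin2 at hv
  rw [he] at hv
  have h1 : hol Q d fl (ev2 Q d fl ρ (run2 Q d fl ρ s v) v) v := vclean2_later (v + 1) e hv
  exact ev2_fix (hC.fix _ _ (run2_inv hC hs v) (ev2_hol h1)) h1

theorem vclean2_mem_foot {h y : ℕ} (hh : hol Q d fl s h) :
    y ∈ foot Q d fl ρ s h ↔ ∃ u, (u = h ∨ (u ∈ ball Q.N h (msz Q d fl ρ s h) ∧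
      Oe Q.N s.μ (fun x => x = h) (msz Q d fl ρ s h - 1) u)) ∧ y ∈ ball Q.N u (ρ + 4) := by
  simp only [foot, if_pos hh, Finset.mem_biUnion, Finset.mem_insert, Finset.mem_filter]

/-- A union of footprints that is closed under meeting a footprint is heavy: each of its points is
within `2 ρ + 4` of an initial tainted node, an initial hole, or the mark made by the event of an
initial hole, all inside `Y` (`small_blk`, `ev2_mk`). -/
theorem heavy2 (hV : Q.Valid k d L σ) (hC : Cleanable Q d fl ρ P) (hs : P s) (Y : Finset ℕ)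
    (h1 : ∀ y ∈ Y, ∃ x, y ∈ foot Q d fl ρ (run2 Q d fl ρ s x) x)
    (h2 : ∀ x, ∀ y ∈ Y, y ∈ foot Q d fl ρ (run2 Q d fl ρ s x) x →
      foot Q d fl ρ (run2 Q d fl ρ s x) x ⊆ Y) :
    Y.card ≤ 2 * (k + 1) ^ (2 * ρ + 4) * (Y.filter (bad0 Q d fl s)).card := by
  choose zt hzt using fun x =>
    ev2_mk (Q := Q) (d := d) (fl := fl) (ρ := ρ) (h := x) hV.sym (hC.mat _ (run2_inv hC hs x))
  set B := Y.filter (bad0 Q d fl s) with hB
  have hx : ∀ t, ∀ y ∈ Y, y ∈ foot Q d fl ρ (run2 Q d fl ρ s t) t → t ∈ B := by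
    intro t y hy hf
    exact Finset.mem_filter.2 ⟨h2 t y hy hf (foot_hol hf).2, Or.inr (vclean2_back t (foot_hol hf).1)⟩
  have hsrc : ∀ x v, (run2 Q d fl ρ s x).mk' v →
      s.mk' v ∨ ∃ t, v = zt t ∧ v ∈ foot Q d fl ρ (run2 Q d fl ρ s t) t := by
    intro x v
    induction x with
    | zero => exact Or.inl
    | succ x ih =>
      intro h
      rcases hzt x v h with h | h
      · exact ih h
      · exact Or.inr ⟨x, h⟩
  have hsub : Y ⊆ (B ∪ B.image zt).biUnion fun v => ball Q.N v (2 * ρ + 4) := by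
    intro y hy
    obtain ⟨x, hf⟩ := h1 y hy
    have hh := (foot_hol hf).1
    obtain ⟨u, hu, hyu⟩ := (vclean2_mem_foot hh).1 hf
    rcases hu with rfl | hu
    · exact Finset.mem_biUnion.2 ⟨u, Finset.mem_union_left _ (hx u y hy hf),
        ball_mono (by omega) hyu⟩
    · obtain ⟨z, hz, htz⟩ := (small_blk hu.2 (hC.fix _ _ (run2_inv hC hs x) hh)).2
      have hzY : z ∈ Y := h2 x y hy hf
        ((vclean2_mem_foot hh).2 ⟨u, Or.inr hu, ball_mono (by omega) hz⟩)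
      refine Finset.mem_biUnion.2 ⟨z, ?_,
        ball_mono (by omega) (ball_trans (ball_symm hV.sym hz) hyu)⟩
      rcases htz with h | h
      · exact Finset.mem_union_left _ (Finset.mem_filter.2 ⟨hzY, Or.inl (Or.inl h)⟩)
      · rcases hsrc x z h with h | ⟨t, ht, hft⟩
        · exact Finset.mem_union_left _ (Finset.mem_filter.2 ⟨hzY, Or.inl (Or.inr h)⟩)
        · exact Finset.mem_union_right _ (Finset.mem_image.2 ⟨t, hx t z hzY hft, ht.symm⟩)
  have hZ : (B ∪ B.image zt).card ≤ 2 * B.card := by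
    have a1 := Finset.card_union_le B (B.image zt)
    have a2 : (B.image zt).card ≤ B.card := Finset.card_image_le
    omega
  calc Y.card ≤ (B ∪ B.image zt).card * (k + 1) ^ (2 * ρ + 4) :=
        (Finset.card_le_card hsub).trans
          (Finset.card_biUnion_le_card_mul _ _ _ fun v _ => card_ball hV.card)
    _ ≤ 2 * B.card * (k + 1) ^ (2 * ρ + 4) := Nat.mul_le_mul_right _ hZ
    _ = 2 * (k + 1) ^ (2 * ρ + 4) * B.card := by ring

/-- Footprint of step `x`. -/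
noncomputable def vclean2_ft (Q : Inst) (d : ℕ) (fl : Bool) (ρ : ℕ) (s : St) (x : ℕ) : Finset ℕ :=
  foot Q d fl ρ (run2 Q d fl ρ s x) x

/-- A union of footprints closed under meeting a footprint. -/
def vclean2_cl (Q : Inst) (d : ℕ) (fl : Bool) (ρ : ℕ) (s : St) (A : Finset ℕ) : Prop :=
  (∀ y ∈ A, ∃ x, y ∈ vclean2_ft Q d fl ρ s x) ∧
    ∀ x, ∀ y ∈ A, y ∈ vclean2_ft Q d fl ρ s x → vclean2_ft Q d fl ρ s x ⊆ A

theorem vclean2_cl_union {A Y : Finset ℕ} (hA : vclean2_cl Q d fl ρ s A)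
    (hY : vclean2_cl Q d fl ρ s Y) : vclean2_cl Q d fl ρ s (A ∪ Y) := by
  refine ⟨fun z hz => ?_, fun t z hz hf => ?_⟩
  · rcases Finset.mem_union.1 hz with h | h
    · exact hA.1 z h
    · exact hY.1 z h
  · rcases Finset.mem_union.1 hz with h | h
    · exact (hA.2 t z h hf).trans Finset.subset_union_left
    · exact (hY.2 t z h hf).trans Finset.subset_union_right

/-- Every footprint lies in a small closed connected union of footprints. -/
theorem vclean2_comp (hV : Q.Valid k d L σ) (hC : Cleanable Q d fl ρ P) (hs : P s)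
    (hT : Thin Q.S Q.N m0 (8 * (k + 1) ^ (2 * ρ + 4)) (bad0 Q d fl s)) (x b : ℕ)
    (hb : b ∈ vclean2_ft Q d fl ρ s x) :
    ∃ Y : Finset ℕ, Conn Q.N Y b ∧ Y.card < m0 ∧ vclean2_cl Q d fl ρ s Y := by
  set R : ℕ → ℕ → Prop := fun u v =>
    ∃ t, u ∈ vclean2_ft Q d fl ρ s t ∧ v ∈ vclean2_ft Q d fl ρ s t with hR
  set Y := Q.S.filter fun y => Relation.ReflTransGen R b y with hY
  have hfs : ∀ t, vclean2_ft Q d fl ρ s t ⊆ Q.S := fun t => foot_sub hV
  have hA : ∀ y, Relation.ReflTransGen R b y → ∃ t, y ∈ vclean2_ft Q d fl ρ s t := by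
    intro y hy
    induction hy with
    | refl => exact ⟨x, hb⟩
    | tail _ h _ => obtain ⟨t, _, h'⟩ := h; exact ⟨t, h'⟩
  have hB : ∀ t y, Relation.ReflTransGen R b y → y ∈ vclean2_ft Q d fl ρ s t →
      vclean2_ft Q d fl ρ s t ⊆ Y := by
    intro t y hy hf z hz
    exact Finset.mem_filter.2 ⟨hfs t hz, hy.tail ⟨t, hf, hz⟩⟩
  have hcl : vclean2_cl Q d fl ρ s Y := ⟨fun y hy => hA y (Finset.mem_filter.1 hy).2,
    fun t y hy hf => hB t y (Finset.mem_filter.1 hy).2 hf⟩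
  have hconn : Conn Q.N Y b := by
    refine ⟨Finset.mem_filter.2 ⟨hfs x hb, Relation.ReflTransGen.refl⟩, ?_⟩
    have key : ∀ y, Relation.ReflTransGen R b y →
        Relation.ReflTransGen (fun a a' => a ∈ Y ∧ a' ∈ Y ∧ a' ∈ Q.N a) b y := by
      intro y hy
      induction hy with
      | refl => exact Relation.ReflTransGen.refl
      | @tail u v hu h ih =>
        obtain ⟨t, h1', h2'⟩ := h
        have hsub := hB t u hu h1'
        have hp := run2_inv hC hs t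
        have hh := (foot_hol h1').1
        have hcn : Conn Q.N (vclean2_ft Q d fl ρ s t) u :=
          Conn.rebase hV.sym (foot_conn hV.sym (hC.mat _ hp) hh (hC.fix _ _ hp hh)) h1'
        exact ih.trans (rtg_mono (hcn.2 v h2') fun a a' p => ⟨hsub p.1, hsub p.2.1, p.2.2⟩)
    exact fun y hy => key y (Finset.mem_filter.1 hy).2
  refine ⟨Y, hconn, ?_, hcl⟩
  by_contra hlt
  have a1 := hT Y b (Finset.filter_subset _ _) hconn (by omega)
  have a2 := heavy2 hV hC hs Y hcl.1 hcl.2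
  have a3 : 2 * (k + 1) ^ (2 * ρ + 4) * (Y.filter (bad0 Q d fl s)).card ≤
      8 * (k + 1) ^ (2 * ρ + 4) * (Y.filter (bad0 Q d fl s)).card :=
    Nat.mul_le_mul_right _ (Nat.mul_le_mul_right _ (by norm_num))
  omega

theorem vclean2_SA_symm {v : ℕ} (h : SA Q Q' v) : SA Q' Q v :=
  ⟨h.1.symm, h.2.1.symm, h.2.2.1.symm, h.2.2.2.symm⟩

theorem vclean2_bad_congr {v : ℕ} (h : SA Q Q' v) (he : s.row v = s'.row v)
    (hb : bad0 Q' d fl s' v) : bad0 Q d fl s v := by
  have e1 : s.μ v = s'.μ v := congrArg Prod.fst he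
  have e2 : s.mk' v = s'.mk' v := congrArg (fun p => p.2.1) he
  rcases hb with (hb | hb) | hb
  · exact Or.inl (Or.inl (h.2.2.2.2 hb))
  · exact Or.inl (Or.inr (e2 ▸ hb))
  · exact Or.inr ⟨(cr_congr h he).2 hb.1, e1.trans hb.2⟩

theorem vclean2_small (hV : Q.Valid k d L σ) (hV' : Q'.Valid k d L σ)
    (hC : Cleanable Q d fl ρ P) (hC' : Cleanable Q' d fl ρ P') (hs : P s) (hs' : P' s')
    (hT : Thin Q.S Q.N m0 (8 * (k + 1) ^ (2 * ρ + 4)) (bad0 Q d fl s)) (hm : 2 ≤ m0) {v0 : ℕ}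
    (A B : Finset ℕ) (hconn : Conn Q.N (insert v0 (A ∪ B)) v0)
    (hag : ∀ v ∈ insert v0 (A ∪ B), SA Q Q' v ∧ v ∈ Q.S ∧ v ∈ Q'.S ∧ s.row v = s'.row v)
    (hA : vclean2_cl Q d fl ρ s A) (hB : vclean2_cl Q' d fl ρ s' B) :
    (insert v0 (A ∪ B)).card < m0 := by
  set U := insert v0 (A ∪ B) with hU
  have hAU : A ⊆ U := fun y hy => Finset.mem_insert_of_mem (Finset.mem_union_left _ hy)
  have hBU : B ⊆ U := fun y hy => Finset.mem_insert_of_mem (Finset.mem_union_right _ hy)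
  by_contra hlt
  have l1 := hT U v0 (fun v hv => (hag v hv).2.1) hconn (by omega)
  have l2 := heavy2 hV hC hs A hA.1 hA.2
  have l3 := heavy2 hV' hC' hs' B hB.1 hB.2
  have c1 : (A.filter (bad0 Q d fl s)).card ≤ (U.filter (bad0 Q d fl s)).card :=
    Finset.card_le_card (Finset.filter_subset_filter _ hAU)
  have c3 : (B.filter (bad0 Q' d fl s')).card ≤ (U.filter (bad0 Q d fl s)).card := by
    apply Finset.card_le_card
    intro y hy
    obtain ⟨p1, p2⟩ := Finset.mem_filter.1 hy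
    exact Finset.mem_filter.2
      ⟨hBU p1, vclean2_bad_congr (hag y (hBU p1)).1 (hag y (hBU p1)).2.2.2 p2⟩
  have c5 : U.card ≤ A.card + B.card + 1 :=
    (Finset.card_insert_le _ _).trans (Nat.succ_le_succ (Finset.card_union_le _ _))
  set Wt := (U.filter (bad0 Q d fl s)).card with hWt
  have d1 : A.card ≤ 2 * (k + 1) ^ (2 * ρ + 4) * Wt := l2.trans (Nat.mul_le_mul_left _ c1)
  have d2 : B.card ≤ 2 * (k + 1) ^ (2 * ρ + 4) * Wt := l3.trans (Nat.mul_le_mul_left _ c3)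
  have d3 : 8 * (k + 1) ^ (2 * ρ + 4) * Wt = 4 * (2 * (k + 1) ^ (2 * ρ + 4) * Wt) := by ring
  omega

theorem vclean2_stable (hV : Q.Valid k d L σ) (e : ℕ) :
    run2 Q d fl ρ s (Q.S.sup id + 1 + e) = fin2 Q d fl ρ s := by
  induction e with
  | zero => rfl
  | succ e ih =>
    rw [← add_assoc]
    simp only [run2]
    rw [ev2, if_neg, ih]
    rintro ⟨hh, _⟩
    have h1 : Q.S.sup id + 1 + e ≤ Q.S.sup id := Finset.le_sup (f := id) (hol_mem hV hh)
    omega

/-- The candidate sets: the root together with closed unions of footprints of both runs. -/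
def vclean2_cand (Q Q' : Inst) (d : ℕ) (fl : Bool) (ρ m0 : ℕ) (s s' : St) (v0 : ℕ)
    (U : Finset ℕ) : Prop :=
  Conn Q.N U v0 ∧ U.card < m0 ∧ ∃ A B : Finset ℕ, U = insert v0 (A ∪ B) ∧
    vclean2_cl Q d fl ρ s A ∧ vclean2_cl Q' d fl ρ s' B

/-- As `stage2_local` in Stage2 (`exists_comp`, `stage2_small`, a largest candidate set). -/
theorem fin2_local (hV : Q.Valid k d L σ) (hV' : Q'.Valid k d L σ) (hC : Cleanable Q d fl ρ P)
    (hC' : Cleanable Q' d fl ρ P') (hs : P s) (hs' : P' s')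
    (hT : Thin Q.S Q.N m0 (8 * (k + 1) ^ (2 * ρ + 4)) (bad0 Q d fl s))
    (hT' : Thin Q'.S Q'.N m0 (8 * (k + 1) ^ (2 * ρ + 4)) (bad0 Q' d fl s')) (hm : 2 ≤ m0)
    {v0 : ℕ} (hag : ∀ v ∈ ball Q.N v0 (2 * m0),
      SA Q Q' v ∧ v ∈ Q.S ∧ v ∈ Q'.S ∧ s.row v = s'.row v) :
    (fin2 Q d fl ρ s).row v0 = (fin2 Q' d fl ρ s').row v0 := by
  have hball : ball Q.N v0 (2 * m0) = ball Q'.N v0 (2 * m0) := by
    obtain ⟨r, hr⟩ : ∃ r, 2 * m0 = r + 1 := ⟨2 * m0 - 1, by omega⟩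
    rw [hr]
    exact ball_congr fun a ha => (hag a (ball_mono (by omega) ha)).1.1
  have h0 : vclean2_cand Q Q' d fl ρ m0 s s' v0 {v0} := by
    refine ⟨⟨by simp, ?_⟩, by simp; omega, ∅, ∅, by simp, ⟨by simp, by simp⟩, ⟨by simp, by simp⟩⟩
    intro y hy
    rw [Finset.mem_singleton.1 hy]
  obtain ⟨U, hU, hmax⟩ : ∃ U, vclean2_cand Q Q' d fl ρ m0 s s' v0 U ∧
      ∀ U', vclean2_cand Q Q' d fl ρ m0 s s' v0 U' → U'.card ≤ U.card := by
    have hne : {n | ∃ U, vclean2_cand Q Q' d fl ρ m0 s s' v0 U ∧ U.card = n}.Nonempty :=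
      ⟨_, {v0}, h0, rfl⟩
    have hbd : BddAbove {n | ∃ U, vclean2_cand Q Q' d fl ρ m0 s s' v0 U ∧ U.card = n} :=
      ⟨m0, by rintro n ⟨U, hU, rfl⟩; exact hU.2.1.le⟩
    obtain ⟨U, hU, hn⟩ := Nat.sSup_mem hne hbd
    exact ⟨U, hU, fun U' hU' => hn ▸ le_csSup hbd ⟨U', hU', rfl⟩⟩
  obtain ⟨hcon, hcard, A, B, hAB, hA, hB⟩ := hU
  have hUb : U ⊆ ball Q.N v0 (2 * m0) := hcon.sub_ball.trans (ball_mono (by omega))
  have clI : ∀ x, ∀ y ∈ U, y ∈ vclean2_ft Q d fl ρ s x → vclean2_ft Q d fl ρ s x ⊆ U := by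
    intro x y hy hf
    obtain ⟨Y, y1, y2, y4⟩ := vclean2_comp hV hC hs hT x y hf
    have hE : U ∪ Y = insert v0 ((A ∪ Y) ∪ B) := by
      rw [hAB]; ext z; simp only [Finset.mem_union, Finset.mem_insert]; tauto
    have hcon' : Conn Q.N (U ∪ Y) v0 := hcon.union y1 hy
    have hb' : U ∪ Y ⊆ ball Q.N v0 (2 * m0) :=
      hcon'.sub_ball.trans (ball_mono (by have := Finset.card_union_le U Y; omega))
    have hA' := vclean2_cl_union hA y4
    have hsm := vclean2_small hV hV' hC hC' hs hs' hT hm (A ∪ Y) B (hE ▸ hcon')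
      (fun v hv => hag v (hb' (hE ▸ hv))) hA' hB
    have hle := hmax (U ∪ Y) ⟨hcon', hE ▸ hsm, A ∪ Y, B, hE, hA', hB⟩
    have heq : U = U ∪ Y := Finset.eq_of_subset_of_card_le Finset.subset_union_left hle
    rw [heq]
    exact (y4.2 x y y1.1 hf).trans Finset.subset_union_right
  have clJ : ∀ x, ∀ y ∈ U, y ∈ vclean2_ft Q' d fl ρ s' x → vclean2_ft Q' d fl ρ s' x ⊆ U := by
    intro x y hy hf
    obtain ⟨Y, y1, y2, y4⟩ := vclean2_comp hV' hC' hs' hT' x y hf
    have hE : U ∪ Y = insert v0 (A ∪ (B ∪ Y)) := by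
      rw [hAB]; ext z; simp only [Finset.mem_union, Finset.mem_insert]; tauto
    have hconJ : Conn Q'.N (U ∪ Y) v0 :=
      (hcon.congr fun a ha => (hag a (hUb ha)).1.1).union y1 hy
    have hb' : U ∪ Y ⊆ ball Q.N v0 (2 * m0) := by
      rw [hball]
      exact hconJ.sub_ball.trans (ball_mono (by have := Finset.card_union_le U Y; omega))
    have hcon' : Conn Q.N (U ∪ Y) v0 := hconJ.congr fun a ha => (hag a (hb' ha)).1.1.symm
    have hB' := vclean2_cl_union hB y4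
    have hsm := vclean2_small hV hV' hC hC' hs hs' hT hm A (B ∪ Y) (hE ▸ hcon')
      (fun v hv => hag v (hb' (hE ▸ hv))) hA hB'
    have hle := hmax (U ∪ Y) ⟨hcon', hE ▸ hsm, A, B ∪ Y, hE, hA, hB'⟩
    have heq : U = U ∪ Y := Finset.eq_of_subset_of_card_le Finset.subset_union_left hle
    rw [heq]
    exact (y4.2 x y y1.1 hf).trans Finset.subset_union_right
  have hSA : ∀ v ∈ U, SA Q Q' v := fun v hv => (hag v (hUb hv)).1
  have hrun : ∀ x, ∀ v ∈ U, (run2 Q d fl ρ s x).row v = (run2 Q' d fl ρ s' x).row v := by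
    intro x
    induction x with
    | zero => exact fun v hv => (hag v (hUb hv)).2.2.2
    | succ x ih =>
      intro v hv
      have hp := run2_inv hC hs x
      have hp' := run2_inv hC' hs' x
      simp only [run2]
      by_cases hf : v ∈ vclean2_ft Q d fl ρ s x
      · have hh := (foot_hol hf).1
        exact (ev2_local hV.sym hV'.sym (hC.mat _ hp) (hC'.mat _ hp') hh (hC.fix _ _ hp hh)
          fun y hy => ⟨hSA y (clI x v hv hf hy), ih y (clI x v hv hf hy)⟩).2 v hf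
      · by_cases hf' : v ∈ vclean2_ft Q' d fl ρ s' x
        · have hh := (foot_hol hf').1
          exact ((ev2_local hV'.sym hV.sym (hC'.mat _ hp') (hC.mat _ hp) hh (hC'.fix _ _ hp' hh)
            fun y hy => ⟨vclean2_SA_symm (hSA y (clJ x v hv hf' hy)),
              (ih y (clJ x v hv hf' hy)).symm⟩).2 v hf').symm
        · rw [ev2_off hV.sym (hC.mat _ hp) hf, ev2_off hV'.sym (hC'.mat _ hp') hf', ih v hv]
  have e1 := vclean2_stable (fl := fl) (ρ := ρ) (s := s) hV (Q'.S.sup id + 1)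
  have e2 := vclean2_stable (fl := fl) (ρ := ρ) (s := s') hV' (Q.S.sup id + 1)
  rw [← e1, ← e2, add_comm (Q'.S.sup id + 1)]
  exact hrun _ v0 hcon.1

end Pool.Agent.Lib.MP_459a07_lc.V
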