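import Pool.Agent.Lib.MP_459a07_lc.VClean

set_option autoImplicit false

namespace Pool.Agent.Lib.MP_459a07_lc.V

open Classical

variable {Q Q' : Inst} {k d L σ ρ : ℕ} {fl : Bool} {s s' : St} {h v : ℕ} {P P' : St → Prop}

theorem vcleanl_min {N : ℕ → Finset ℕ} {μ f : ℕ → ℕ} {z : ℕ} {K : Finset ℕ} (ok : ℕ → Prop)
    (hf : Fx N μ h z K f) (hok : f z ≠ z ∨ ok z) :
    ∃ z0 K0 f0, Fx N μ h z0 K0 f0 ∧ (f0 z0 ≠ z0 ∨ ok z0) ∧
      ∀ z' K' f', Fx N μ h z' K' f' → (f' z' ≠ z' ∨ ok z') → K0.card ≤ K'.card := by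
  have hex : ∃ n, ∃ z0 K0 f0, Fx N μ h z0 K0 f0 ∧ (f0 z0 ≠ z0 ∨ ok z0) ∧ K0.card = n :=
    ⟨_, z, K, f, hf, hok, rfl⟩
  obtain ⟨z0, K0, f0, h1, h2, h3⟩ := Nat.find_spec hex
  refine ⟨z0, K0, f0, h1, h2, fun z' K' f' h4 h5 => ?_⟩
  rw [h3]
  exact Nat.find_min' hex ⟨z', K', f', h4, h5, rfl⟩

theorem vcleanl_msz_le {t : ℕ × Finset ℕ × (ℕ → ℕ)} (ht : Fix Q d fl ρ s h t) :
    msz Q d fl ρ s h ≤ t.2.1.card := Nat.sInf_le ⟨t, ht, rfl⟩

theorem vcleanl_oe_ball {N : ℕ → Finset ℕ} {μ : ℕ → ℕ} {n u : ℕ}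
    (hu : Oe N μ (fun x => x = h) (n - 1) u) : u ∈ ball N h n := by
  obtain ⟨h', K, f, rfl, h1, h2, -⟩ := hu
  exact ball_mono (by omega) (fx_sub_ball h2 h2.2.1)

theorem vcleanl_mem_foot (hh : hol Q d fl s h) {y : ℕ} : y ∈ foot Q d fl ρ s h ↔
    ∃ u, (u = h ∨ Oe Q.N s.μ (fun x => x = h) (msz Q d fl ρ s h - 1) u) ∧
      y ∈ ball Q.N u (ρ + 4) := by
  unfold foot
  rw [if_pos hh]
  simp only [Finset.mem_biUnion, Finset.mem_insert, Finset.mem_filter]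
  constructor
  · rintro ⟨u, h1, h2⟩
    exact ⟨u, h1.imp_right And.right, h2⟩
  · rintro ⟨u, h1, h2⟩
    exact ⟨u, h1.imp_right fun h3 => ⟨vcleanl_oe_ball h3, h3⟩, h2⟩

theorem vcleanl_mu (hr : s.row v = s'.row v) : s.μ v = s'.μ v := congrArg Prod.fst hr

theorem vcleanl_fix {t : ℕ × Finset ℕ × (ℕ → ℕ)} (hz : t.1 ∈ t.2.1)
    (ha : ∀ y ∈ t.2.1, Agr Q Q' s s' y ρ) : Fix Q d fl ρ s h t ↔ Fix Q' d fl ρ s' h t := by
  have h0 : ∀ y ∈ t.2.1, SA Q Q' y ∧ s.row y = s'.row y := fun y hy => ha y hy y self_mem_ball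
  unfold Fix
  rw [cr_congr (h0 _ hz).1 (h0 _ hz).2, blk_congr (ha _ hz)]
  refine and_congr_left fun _ => ⟨fun h1 => ?_, fun h1 => ?_⟩
  · exact fx_congr h1 (fun y hy => (h0 y hy).1.1) fun y hy => vcleanl_mu (h0 y hy).2
  · exact fx_congr h1 (fun y hy => (h0 y hy).1.1.symm) fun y hy => (vcleanl_mu (h0 y hy).2).symm

theorem vcleanl_agr (hh : hol Q d fl s h)
    (hag : ∀ y ∈ foot Q d fl ρ s h, SA Q Q' y ∧ s.row y = s'.row y) {u : ℕ}
    (hu : u = h ∨ Oe Q.N s.μ (fun x => x = h) (msz Q d fl ρ s h - 1) u) :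
    Agr Q Q' s s' u (ρ + 4) := fun y hy => hag y ((vcleanl_mem_foot hh).2 ⟨u, hu, hy⟩)

theorem vcleanl_hol (hh : hol Q d fl s h)
    (hag : ∀ y ∈ foot Q d fl ρ s h, SA Q Q' y ∧ s.row y = s'.row y) : hol Q' d fl s' h := by
  obtain ⟨h1, h2⟩ := vcleanl_agr hh hag (Or.inl rfl) h self_mem_ball
  exact ⟨(cr_congr h1 h2).1 hh.1, (vcleanl_mu h2).symm.trans hh.2⟩

/-- A smallest patch on the right lies deep in the footprint. -/
theorem vcleanl_right (hs' : Sym Q'.N) (hμ' : Mat Q'.N s'.μ) (hh : hol Q d fl s h)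
    (hag : ∀ y ∈ foot Q d fl ρ s h, SA Q Q' y ∧ s.row y = s'.row y) {j : ℕ}
    (hj : ∀ u, Oe Q'.N s'.μ (fun x => x = h) j u →
      Oe Q.N s.μ (fun x => x = h) (msz Q d fl ρ s h - 1) u)
    (ok : ℕ → Prop) {z : ℕ} {K : Finset ℕ} {f : ℕ → ℕ} (hf : Fx Q'.N s'.μ h z K f)
    (hok : f z ≠ z ∨ ok z)
    (hmin : ∀ z' K' f', Fx Q'.N s'.μ h z' K' f' → (f' z' ≠ z' ∨ ok z') → K.card ≤ K'.card)
    (hK : K.card ≤ j + 1) : ∀ y ∈ K, Agr Q Q' s s' y ρ := by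
  intro y hy
  obtain ⟨u, hu, hyu⟩ := minp hs' hμ' (vcleanl_hol hh hag).2 ok hf hok hmin y hy
  have ha := vcleanl_agr hh hag
    (hu.imp_right fun h1 => hj u (oe_mono (by omega) (fun _ h2 => h2) h1))
  rw [← ha.ball_eq (by omega)] at hyu
  exact ha.mono hyu (by omega)

theorem vcleanl_oe_right (hs' : Sym Q'.N) (hμ' : Mat Q'.N s'.μ) (hh : hol Q d fl s h)
    (hag : ∀ y ∈ foot Q d fl ρ s h, SA Q Q' y ∧ s.row y = s'.row y) (i : ℕ)
    (hi : i < msz Q d fl ρ s h) :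
    ∀ u, Oe Q'.N s'.μ (fun x => x = h) i u → Oe Q.N s.μ (fun x => x = h) i u := by
  induction i with
  | zero =>
    rintro u ⟨h', K, f, -, h1, h2, -⟩
    have := Finset.card_pos.2 ⟨_, h2.2.1⟩
    omega
  | succ i ih =>
    rintro u ⟨h', K, f, rfl, h1, h2, -⟩
    obtain ⟨z0, K0, f0, k1, k2, k3⟩ := vcleanl_min (fun x => x = u) h2 (Or.inr rfl)
    have k4 : K0.card ≤ i + 1 := (k3 _ _ _ h2 (Or.inr rfl)).trans h1
    have ha := vcleanl_right hs' hμ' hh hag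
      (fun u hu => oe_mono (by omega) (fun _ h2 => h2) (ih (by omega) u hu)) _ k1 k2 k3 k4
    have h0 : ∀ y ∈ K0, SA Q Q' y ∧ s.row y = s'.row y := fun y hy => ha y hy y self_mem_ball
    have k5 : Fx Q.N s.μ h' z0 K0 f0 :=
      fx_congr k1 (fun y hy => (h0 y hy).1.1.symm) fun y hy => (vcleanl_mu (h0 y hy).2).symm
    have k6 : f0 z0 = z0 := by
      by_contra k6
      have := vcleanl_msz_le (Q := Q) (d := d) (fl := fl) (ρ := ρ) (t := (z0, K0, f0))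
        ⟨k5, Or.inl k6⟩
      change _ ≤ K0.card at this
      omega
    obtain rfl : z0 = u := k2.resolve_left (not_not.2 k6)
    exact ⟨h', K0, f0, rfl, k4, k5, k6⟩

theorem vcleanl_oe_left (hs : Sym Q.N) (hμ : Mat Q.N s.μ) (hh : hol Q d fl s h)
    (hag : ∀ y ∈ foot Q d fl ρ s h, SA Q Q' y ∧ s.row y = s'.row y) (u : ℕ)
    (hu : Oe Q.N s.μ (fun x => x = h) (msz Q d fl ρ s h - 1) u) :
    Oe Q'.N s'.μ (fun x => x = h) (msz Q d fl ρ s h - 1) u := by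
  obtain ⟨h', K, f, rfl, h1, h2, -⟩ := hu
  obtain ⟨z0, K0, f0, k1, k2, k3⟩ := vcleanl_min (fun x => x = u) h2 (Or.inr rfl)
  have k4 := (k3 _ _ _ h2 (Or.inr rfl)).trans h1
  have h0 : ∀ y ∈ K0, SA Q Q' y ∧ s.row y = s'.row y := by
    intro y hy
    obtain ⟨w, hw, hyw⟩ := minp hs hμ hh.2 _ k1 k2 k3 y hy
    exact vcleanl_agr hh hag (hw.imp_right fun h3 => oe_mono (by omega) (fun _ h4 => h4) h3) y
      (ball_mono (by omega) hyw)
  have k6 : f0 z0 = z0 := by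
    by_contra k6
    have h3 := vcleanl_msz_le (Q := Q) (d := d) (fl := fl) (ρ := ρ) (t := (z0, K0, f0))
      ⟨k1, Or.inl k6⟩
    change _ ≤ K0.card at h3
    have h4 := Finset.card_pos.2 ⟨_, k1.2.1⟩
    omega
  obtain rfl : z0 = u := k2.resolve_left (not_not.2 k6)
  exact ⟨h', K0, f0, rfl, k4,
    fx_congr k1 (fun y hy => (h0 y hy).1.1) fun y hy => vcleanl_mu (h0 y hy).2, k6⟩

/-- The event is determined by the data on its footprint.  With `n = msz` on the left: by strong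
induction on `i < n`, nodes reachable with `i` nodes on the right are reachable on the left (take
a smallest patch that augments or ends there; by `minp` and the induction hypothesis it lies in
the footprint, so it is a patch on the left; it does not augment since `i < n`).  Hence the
smallest sizes agree, the predicates `MFix` agree, and so do the events. -/
theorem ev2_local (hs : Sym Q.N) (hs' : Sym Q'.N) (hμ : Mat Q.N s.μ) (hμ' : Mat Q'.N s'.μ)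
    (hh : hol Q d fl s h) (hf : ∃ t, Fix Q d fl ρ s h t)
    (hag : ∀ y ∈ foot Q d fl ρ s h, SA Q Q' y ∧ s.row y = s'.row y) :
    foot Q' d fl ρ s' h = foot Q d fl ρ s h ∧
      ∀ y ∈ foot Q d fl ρ s h, (ev2 Q d fl ρ s h).row y = (ev2 Q' d fl ρ s' h).row y := by
  have hh' := vcleanl_hol hh hag
  have lr : ∀ t, MFix Q d fl ρ s h t → Fix Q' d fl ρ s' h t := fun t ht =>
    (vcleanl_fix ht.1.1.2.1 fun y hy w hw =>
      hag w (mfix_foot hs hμ hh ht y hy (ball_mono (by omega) hw))).1 ht.1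
  have ht0 := mfix_spec hf
  have hf' : ∃ t, Fix Q' d fl ρ s' h t := ⟨_, lr _ ht0⟩
  have hle : msz Q' d fl ρ s' h ≤ msz Q d fl ρ s h := (vcleanl_msz_le (lr _ ht0)).trans ht0.2.le
  have hpos : 0 < msz Q d fl ρ s h := by
    rw [← ht0.2]
    exact Finset.card_pos.2 ⟨_, ht0.1.1.2.1⟩
  have hoe := vcleanl_oe_right hs' hμ' hh hag (msz Q d fl ρ s h - 1) (by omega)
  have rl : ∀ t, MFix Q' d fl ρ s' h t → Fix Q d fl ρ s h t := fun t ht => by
    refine (vcleanl_fix ht.1.1.2.1 (vcleanl_right hs' hμ' hh hag hoe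
      (fun z => ¬ cr Q' d fl s' z ∨ ¬ blk Q' s' ρ z) ht.1.1 ht.1.2 (fun z' K' f' h1 h2 => ?_)
      ?_)).2 ht.1
    · rw [ht.2]
      exact vcleanl_msz_le (t := (z', K', f')) ⟨h1, h2⟩
    · rw [ht.2]
      omega
  have ht1 := mfix_spec hf'
  have heq : msz Q' d fl ρ s' h = msz Q d fl ρ s h :=
    le_antisymm hle ((vcleanl_msz_le (rl _ ht1)).trans ht1.2.le)
  have hM : MFix Q' d fl ρ s' h = MFix Q d fl ρ s h := by
    funext t
    exact propext ⟨fun ht => ⟨rl t ht, ht.2.trans heq⟩, fun ht => ⟨lr t ht, ht.2.trans heq.symm⟩⟩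
  constructor
  · ext y
    rw [vcleanl_mem_foot hh, vcleanl_mem_foot hh', heq]
    constructor
    · rintro ⟨u, hu, hy⟩
      have hu' := hu.imp_right (hoe u)
      exact ⟨u, hu', by rwa [(vcleanl_agr hh hag hu').ball_eq le_rfl]⟩
    · rintro ⟨u, hu, hy⟩
      exact ⟨u, hu.imp_right (vcleanl_oe_left hs hμ hh hag u),
        by rwa [← (vcleanl_agr hh hag hu).ball_eq le_rfl]⟩
  · intro y hy
    obtain ⟨h1, h2⟩ := hag y hy
    have h3 := cr_congr (d := d) (fl := fl) h1 h2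
    have h4 : s.μ y = s'.μ y := vcleanl_mu h2
    have h5 : s.mk' y = s'.mk' y := congrArg (fun x => x.2.1) h2
    have h6 : s.rd y = s'.rd y := congrArg (fun x => x.2.2) h2
    unfold ev2
    rw [if_pos ⟨hh, hf⟩, if_pos ⟨hh', hf'⟩, hM]
    generalize epsilon (MFix Q d fl ρ s h) = t
    have h7 : (y = t.1 ∧ t.2.2 t.1 = t.1 ∧ cr Q d fl s t.1) =
        (y = t.1 ∧ t.2.2 t.1 = t.1 ∧ cr Q' d fl s' t.1) := by
      refine propext (and_congr_right fun e => ?_)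
      rw [← e, h3]
    simp only [St.row, ap, glue, h4, h5, h6, h7]

end Pool.Agent.Lib.MP_459a07_lc.V
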