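import Pool.Agent.Lib.MP_459a07_lc.Count
import Pool.Agent.Lib.MP_459a07_lc.Pot

/-! Definitions for the matching process on a multigraph whose nodes are natural numbers. -/

set_option autoImplicit false

namespace Pool.Agent.Lib.MP_459a07_lc.V

open Classical

/-! ### Matchings as involutions -/

def Sym (N : ℕ → Finset ℕ) : Prop := ∀ a b, b ∈ N a → a ∈ N b

def Irr (N : ℕ → Finset ℕ) : Prop := ∀ a, a ∉ N a

/-- `μ` is a matching: an involution along edges; fixed points are the exposed nodes. -/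
def Mat (N : ℕ → Finset ℕ) (μ : ℕ → ℕ) : Prop :=
  (∀ v, μ (μ v) = v) ∧ ∀ v, μ v ≠ v → μ v ∈ N v

def Near (μ ν : ℕ → ℕ) (K : Finset ℕ) : Prop := ∀ v, v ∉ K → ν v = μ v

def glue (K : Finset ℕ) (f μ : ℕ → ℕ) : ℕ → ℕ := fun v => if v ∈ K then f v else μ v

/-- A patch: replacing `μ` by `f` on the connected set `K` covers `h` (unless `h = z`) and exposes
at most the new node `z`. -/
def Fx (N : ℕ → Finset ℕ) (μ : ℕ → ℕ) (h z : ℕ) (K : Finset ℕ) (f : ℕ → ℕ) : Prop :=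
  Conn N K h ∧ z ∈ K ∧
    (∀ v ∈ K, μ v ∈ K ∧ f v ∈ K ∧ f (f v) = v ∧ (f v ≠ v → f v ∈ N v)) ∧
    ∀ v ∈ K, f v = v → (μ v = v ∧ v ≠ h) ∨ v = z

/-- `u` can be exposed instead of some `h` in `H` by a patch with at most `s` nodes. -/
def Oe (N : ℕ → Finset ℕ) (μ : ℕ → ℕ) (H : ℕ → Prop) (s u : ℕ) : Prop :=
  ∃ h K f, H h ∧ K.card ≤ s ∧ Fx N μ h u K f ∧ f u = u

/-- No augmentation with at most `s` nodes from a node of `H`. -/
def NoAug (N : ℕ → Finset ℕ) (μ : ℕ → ℕ) (H : ℕ → Prop) (s : ℕ) : Prop :=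
  ∀ h z K f, H h → K.card ≤ s → Fx N μ h z K f → f z = z

/-- The graph induced on `O`. -/
noncomputable def NO (N : ℕ → Finset ℕ) (O : ℕ → Prop) (v : ℕ) : Finset ℕ :=
  if O v then (N v).filter O else ∅

def src (μ : ℕ → ℕ) (O : ℕ → Prop) (b : ℕ) : Prop := O b ∧ (μ b = b ∨ ¬ O (μ b))

def strong (N : ℕ → Finset ℕ) (μ : ℕ → ℕ) (H : ℕ → Prop) (s s' b : ℕ) : Prop :=
  Oe N μ H s b ∧ (μ b = b ∨ ¬ Oe N μ H s' (μ b))

/-- The structure produced by the Gallai-Edmonds argument. -/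
structure GE (N : ℕ → Finset ℕ) (B A : Finset ℕ) (C : ℕ → Finset ℕ) : Prop where
  conn : ∀ b ∈ B, Conn N (C b) b
  odd : ∀ b ∈ B, Odd (C b).card
  out : ∀ b ∈ B, ∀ u ∈ C b, u ∉ A ∧ ∀ w ∈ N u, w ∈ C b ∨ w ∈ A
  disj : ∀ b ∈ B, ∀ b' ∈ B, b ≠ b' → Disjoint (C b) (C b')

/-! ### Multigraphs -/

def dg (N : ℕ → Finset ℕ) (m : ℕ → ℕ → ℕ) (a : ℕ) : ℕ := ∑ w ∈ N a, m a w

def cutm (N : ℕ → Finset ℕ) (m : ℕ → ℕ → ℕ) (C : Finset ℕ) : ℕ :=
  ∑ u ∈ C, ∑ w ∈ N u \ C, m u w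

/-! ### The random walk on sources -/

section Walk

variable (N : ℕ → Finset ℕ) (m : ℕ → ℕ → ℕ) (μ : ℕ → ℕ) (O : ℕ → Prop) (K : ℕ)

noncomputable def Cp (b : ℕ) : Finset ℕ := ball (NO N O) b K

def sml (b : ℕ) : Prop := (Cp N O K b).card < K

noncomputable def Tg (b : ℕ) : Finset ℕ :=
  if sml N O K b then Cp N O K b else epsilon fun T => Conn (NO N O) T b ∧ T.card = K

noncomputable def qq (b b' : ℕ) : ℝ :=
  if src μ O b ∧ sml N O K b ∧ src μ O b' ∧ μ b' ≠ b' then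
    (1 - ((Cp N O K b).card : ℝ) / K) * (∑ u ∈ Cp N O K b, (m u (μ b') : ℝ)) /
      cutm N m (Cp N O K b)
  else 0

noncomputable def wk (v : ℕ) : ℕ → ℕ → ℝ
  | 0 => fun b => if b = v then 1 else 0
  | i + 1 => fun b' => ∑ b ∈ ball N v (i * (K + 2)), wk v i b * qq N m μ O K b b'

noncomputable def xm (v u : ℕ) : ℝ :=
  (∑ i ∈ Finset.range K, ∑ b ∈ ball N v (K * (K + 2)),
    if u ∈ Tg N O K b then wk N m μ O K v i b else 0) / K

/-- The good sources `Gd` behave as in the Gallai-Edmonds structure. -/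
structure Nice (d : ℕ) (Gd : ℕ → Prop) : Prop where
  sym : Sym N
  mat : Mat N μ
  msym : ∀ u w, m u w = m w u
  mN : ∀ u w, m u w ≠ 0 → w ∈ N u
  deg : ∀ a, dg N m a ≤ d
  dpos : 1 ≤ d
  kpos : 1 ≤ K
  gsrc : ∀ b, Gd b → src μ O b
  gcut : ∀ b, Gd b → sml N O K b → d ≤ cutm N m (Cp N O K b)
  gout : ∀ b, Gd b → sml N O K b → ∀ u ∈ Cp N O K b, ∀ a ∈ N u, a ∉ Cp N O K b →
    ¬ O a ∧ μ a ≠ a ∧ O (μ a)
  guniq : ∀ b b' u, Gd b → Gd b' → u ∈ Cp N O K b → u ∈ Cp N O K b' → b = b'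

/-- A starting point of the walk. -/
def Start (Gd : ℕ → Prop) (v : ℕ) : Prop :=
  μ v = v ∧ O v ∧ ∀ b ∈ ball N v (K * (K + 2)), src μ O b → Gd b

end Walk

/-! ### The process -/

structure Inst where
  S : Finset ℕ
  N : ℕ → Finset ℕ
  m : ℕ → ℕ → ℕ
  hw : ℕ → Prop
  tn : ℕ → Prop

noncomputable def ind (p : Prop) : ℕ := if p then 1 else 0

structure Inst.Valid (Q : Inst) (k d L σ : ℕ) : Prop where
  sym : Sym Q.N
  irr : Irr Q.N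
  sub : ∀ u v, v ∈ Q.N u → u ∈ Q.S
  card : ∀ u, (Q.N u).card ≤ k
  dk : d ≤ k
  d2 : 2 ≤ d
  msym : ∀ u w, Q.m u w = Q.m w u
  mN : ∀ u w, Q.m u w ≠ 0 ↔ w ∈ Q.N u
  deg : ∀ a, dg Q.N Q.m a + ind (Q.hw a) ≤ d
  hwtn : ∀ a, Q.hw a → Q.tn a
  tn2 : ∀ a, ((ball Q.N a σ).filter Q.tn).card ≤ 2
  hw1 : ∀ a, ((ball Q.N a σ).filter Q.hw).card ≤ 1
  nodef : ∀ C b, Conn Q.N C b → Odd C.card → C.card ≤ L →
    (∀ u ∈ C, dg Q.N Q.m u + ind (Q.hw u) = d) → d ≤ cutm Q.N Q.m C + (C.filter Q.hw).card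

/-- The static data at `v` agree. -/
def SA (Q Q' : Inst) (v : ℕ) : Prop :=
  Q.N v = Q'.N v ∧ Q.m v = Q'.m v ∧ (Q.hw v ↔ Q'.hw v) ∧ (Q.tn v ↔ Q'.tn v)

structure St where
  μ : ℕ → ℕ
  mk' : ℕ → Prop
  rd : ℕ → Prop

def St.row (s : St) (v : ℕ) : ℕ × Prop × Prop := (s.μ v, s.mk' v, s.rd v)

def st0 : St := ⟨id, fun _ => False, fun _ => False⟩

/-- The nodes that have to be covered; with `fl = true` half edges count. -/
def cr (Q : Inst) (d : ℕ) (fl : Bool) (s : St) (v : ℕ) : Prop :=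
  dg Q.N Q.m v + ind (fl = true ∧ Q.hw v) = d ∧ ¬ s.mk' v

def hol (Q : Inst) (d : ℕ) (fl : Bool) (s : St) (v : ℕ) : Prop := cr Q d fl s v ∧ s.μ v = v

def tnt (Q : Inst) (s : St) (v : ℕ) : Prop := Q.tn v ∨ s.mk' v

def blk (Q : Inst) (s : St) (ρ u : ℕ) : Prop := ∃ z ∈ ball Q.N u ρ, tnt Q s z

/-- Apply a patch and mark its end if that is a newly exposed node that should be covered. -/
def ap (Q : Inst) (d : ℕ) (fl : Bool) (s : St) (z : ℕ) (K : Finset ℕ) (f : ℕ → ℕ) (r : Prop) : St :=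
  ⟨glue K f s.μ, fun v => s.mk' v ∨ (v = z ∧ f z = z ∧ cr Q d fl s z),
    fun v => s.rd v ∨ (r ∧ v = z ∧ f z = z ∧ cr Q d fl s z)⟩

/-- A patch that removes the hole `h`; a new mark is put only at distance more than `ρ` from
tainted nodes. -/
def Fix (Q : Inst) (d : ℕ) (fl : Bool) (ρ : ℕ) (s : St) (h : ℕ)
    (p : ℕ × Finset ℕ × (ℕ → ℕ)) : Prop :=
  Fx Q.N s.μ h p.1 p.2.1 p.2.2 ∧
    (p.2.2 p.1 ≠ p.1 ∨ ¬ cr Q d fl s p.1 ∨ ¬ blk Q s ρ p.1)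

structure Par where
  d : ℕ
  ρ1 : ℕ
  ρ' : ℕ
  K : ℕ
  Ts : ℕ
  l : ℕ

/-- The scales. -/
def sc (K : ℕ) : ℕ → ℕ
  | 0 => 1
  | t + 1 => (2 * K + 10) * (sc K t + 10)

def Par.smax (p : Par) : ℕ := sc p.K p.Ts

def Par.R (p : Par) : ℕ := p.K * (p.K + 2) + p.K + 2

/-- The radius read by an event of stage one. -/
def Par.Rl (p : Par) : ℕ := p.R + 2 * p.smax + p.ρ' + p.ρ1 + p.K + 3

section Stage1

variable (Q : Inst) (p : Par) (s : St)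

def Det (x : ℕ) (t : ℕ × Finset ℕ × (ℕ → ℕ)) : Prop :=
  t.2.1.card ≤ p.smax ∧ Fix Q p.d false p.ρ' s x t

def Stuck (x : ℕ) : Prop := hol Q p.d false s x ∧ ¬ ∃ t, Det Q p s x t

def Ot (t : ℕ) : ℕ → Prop := Oe Q.N s.μ (Stuck Q p s) (sc p.K t)

def Stab (t r x : ℕ) : Prop := ∀ u ∈ ball Q.N x r, Ot Q p s (t + 1) u → Ot Q p s t u

noncomputable def xa (x u : ℕ) : ℝ :=
  (∑ t ∈ Finset.range p.Ts,
    if Stab Q p s t p.R x then xm Q.N Q.m s.μ (Ot Q p s t) p.K x u else 0) / p.Ts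

def TgOK (B : Finset ℕ) (l : ℕ) (y : ℕ → ℝ) (g : ℕ → ℕ) : Prop :=
  (∀ j < l / 4, g j ∈ B ∧ 0 < y (g j)) ∧
    ∀ u ∈ B, (((Finset.range (l / 4)).filter fun j => g j = u).card : ℝ) ≤ l * y u + 1

noncomputable def tg (x : ℕ) : ℕ → ℕ := epsilon (TgOK (ball Q.N x p.R) p.l (xa Q p s x))

def Mov (x u : ℕ) (t : Finset ℕ × (ℕ → ℕ)) : Prop :=
  t.1.card ≤ p.smax ∧ Fx Q.N s.μ x u t.1 t.2 ∧ t.2 u = u

noncomputable def ev1 (x j : ℕ) : St :=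
  if hol Q p.d false s x then
    if ∃ t, Det Q p s x t then
      ap Q p.d false s (epsilon (Det Q p s x)).1 (epsilon (Det Q p s x)).2.1
        (epsilon (Det Q p s x)).2.2 False
    else if j < p.l / 4 ∧ ¬ blk Q s p.ρ1 (tg Q p s x j) ∧ ∃ t, Mov Q p s x (tg Q p s x j) t then
      ap Q p.d false s (tg Q p s x j) (epsilon (Mov Q p s x (tg Q p s x j))).1
        (epsilon (Mov Q p s x (tg Q p s x j))).2 True
    else s
  else s

def act (x j : ℕ) : Prop := Stuck Q p s x ∧ j < p.l / 4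

def good (x j : ℕ) : Prop := ¬ Stuck Q p s x ∨ (j < p.l / 4 ∧ ¬ blk Q s p.ρ1 (tg Q p s x j))

/-- The invariant of stage one and of the first clean-up. -/
structure Inv : Prop where
  mat : Mat Q.N s.μ
  rdmk : ∀ v, s.rd v → s.mk' v
  mkdeg : ∀ u, s.mk' u → dg Q.N Q.m u = p.d
  sep : ∀ u, s.mk' u → ∀ z ∈ ball Q.N u p.ρ1, ¬ Q.tn z ∧ (s.mk' z → z = u)
  deep : ∀ u, s.mk' u → ¬ s.rd u → ∀ z ∈ ball Q.N u p.ρ',
    ¬ Q.tn z ∧ (s.mk' z → ¬ s.rd z → z = u)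

end Stage1

/-! ### Random slots, for an abstract process -/

structure Sys (σ : Type) where
  S : Finset ℕ
  ev : σ → ℕ → ℕ → σ
  s0 : σ

noncomputable def Sys.step {σ : Type} {a l : ℕ} (P : Sys σ) (s : σ) (z : ℕ → Fin a × Fin l) : σ :=
  if ∃! v, v ∈ P.S ∧ active z v then
    P.ev s (epsilon fun v => v ∈ P.S ∧ active z v)
      ((z (epsilon fun v => v ∈ P.S ∧ active z v)).2 : ℕ)
  else s

noncomputable def Sys.run {σ : Type} {a l : ℕ} (P : Sys σ) (w : ℕ → ℕ → Fin a × Fin l) : ℕ → σ :=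
  runL P.step P.s0 w

def H1 {a l : ℕ} (S : Finset ℕ) (T : ℕ) (w : ℕ → ℕ → Fin a × Fin l) : Prop :=
  ∀ t < T, ∀ u ∈ S, ∀ v ∈ S, active (w t) u → active (w t) v → u = v

def H2 {a l : ℕ} (S : Finset ℕ) (N : ℕ → Finset ℕ) (T m1 R : ℕ)
    (w : ℕ → ℕ → Fin a × Fin l) : Prop :=
  ¬ ∃ (t u : ℕ → ℕ), (∀ i < m1, t i < T ∧ u i ∈ S ∧ active (w (t i)) (u i)) ∧
    ∀ i, i + 1 < m1 → t i < t (i + 1) ∧ u (i + 1) ∈ ball N (u i) R

/-- No large connected set has a `1 / D` fraction of nodes with property `b`. -/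
def Thin (S : Finset ℕ) (N : ℕ → Finset ℕ) (m0 D : ℕ) (b : ℕ → Prop) : Prop :=
  ∀ (X : Finset ℕ) (v : ℕ), X ⊆ S → Conn N X v → m0 ≤ X.card → D * (X.filter b).card < X.card

/-- Fewer than an eighth of the choices are good. -/
def hb (l : ℕ) (g : ℕ → Prop) : Prop := 8 * ((Finset.range l).filter g).card < l

def H4 {σ : Type} (S : Finset ℕ) (N : ℕ → Finset ℕ) (l T m0 D : ℕ) (run : ℕ → σ)
    (hl : σ → ℕ → Prop) (gd : σ → ℕ → ℕ → Prop) : Prop :=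
  ∀ (X : Finset ℕ) (v : ℕ), X ⊆ S → Conn N X v → m0 ≤ X.card →
    X.card ≤ D * (X.filter (hl (run T))).card →
    ∃ t < T, X.card ≤ 2 * D * (X.filter fun x => hl (run t) x ∧ hb l (gd (run t) x)).card

noncomputable def sys1 (Q : Inst) (p : Par) : Sys St := ⟨Q.S, ev1 Q p, st0⟩

/-! ### The deterministic clean-up -/

section Clean

variable (Q : Inst) (d : ℕ) (fl : Bool) (ρ : ℕ)

noncomputable def msz (s : St) (h : ℕ) : ℕ := sInf {n | ∃ t, Fix Q d fl ρ s h t ∧ t.2.1.card = n}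

def MFix (s : St) (h : ℕ) (t : ℕ × Finset ℕ × (ℕ → ℕ)) : Prop :=
  Fix Q d fl ρ s h t ∧ t.2.1.card = msz Q d fl ρ s h

noncomputable def ev2 (s : St) (h : ℕ) : St :=
  if hol Q d fl s h ∧ ∃ t, Fix Q d fl ρ s h t then
    ap Q d fl s (epsilon (MFix Q d fl ρ s h)).1 (epsilon (MFix Q d fl ρ s h)).2.1
      (epsilon (MFix Q d fl ρ s h)).2.2 True
  else s

/-- The nodes read or written by the event. -/
noncomputable def foot (s : St) (h : ℕ) : Finset ℕ :=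
  if hol Q d fl s h then
    (insert h ((ball Q.N h (msz Q d fl ρ s h)).filter
      (Oe Q.N s.μ (fun x => x = h) (msz Q d fl ρ s h - 1)))).biUnion fun u => ball Q.N u (ρ + 4)
  else ∅

noncomputable def run2 (s : St) : ℕ → St
  | 0 => s
  | x + 1 => ev2 Q d fl ρ (run2 s x) x

noncomputable def fin2 (s : St) : St := run2 Q d fl ρ s (Q.S.sup id + 1)

/-- `P` is an invariant of the clean-up under which every hole can be fixed. -/
structure Cleanable (P : St → Prop) : Prop where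
  mat : ∀ s, P s → Mat Q.N s.μ
  step : ∀ s h, P s → P (ev2 Q d fl ρ s h)
  fix : ∀ s h, P s → hol Q d fl s h → ∃ t, Fix Q d fl ρ s h t

def bad0 (s : St) (v : ℕ) : Prop := tnt Q s v ∨ hol Q d fl s v

end Clean

/-- The invariant of the second clean-up. -/
structure Inv2 (Q : Inst) (d ρ1 ρ2 E : ℕ) (s : St) : Prop where
  mat : Mat Q.N s.μ
  mkdeg : ∀ u, s.mk' u → dg Q.N Q.m u = d
  sep : ∀ u, s.mk' u → ∀ z ∈ ball Q.N u ρ2, ¬ Q.tn z ∧ (s.mk' z → z = u)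
  holhw : ∀ v, hol Q d true s v → Q.hw v
  old : ∀ u, s.mk' u → (∀ z ∈ ball Q.N u ρ1, ¬ Q.tn z) ∨
    ∃ w, Q.hw w ∧ ¬ hol Q d true s w ∧ u ∈ ball Q.N w E

/-- What the process achieves. -/
structure Spec (Q : Inst) (d ρ : ℕ) (s : St) : Prop where
  mat : Mat Q.N s.μ
  cov : ∀ v, dg Q.N Q.m v + ind (Q.hw v) = d → s.μ v = v → s.mk' v
  mkdeg : ∀ u, s.mk' u → dg Q.N Q.m u = d
  sep : ∀ u, s.mk' u → ∀ z ∈ ball Q.N u ρ, ¬ Q.tn z ∧ (s.mk' z → z = u)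

end Pool.Agent.Lib.MP_459a07_lc.V
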