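import Pool.Agent.Lib.MP_459a07_lc.VGE3

set_option autoImplicit false

namespace Pool.Agent.Lib.MP_459a07_lc.V

open Classical

variable {N : ℕ → Finset ℕ} {μ : ℕ → ℕ} {m : ℕ → ℕ → ℕ}

theorem vex_conn_sub (hs : Sym N) {S H K : Finset ℕ} (hsub : ∀ u v, v ∈ N u → u ∈ S) {h : ℕ}
    (hh : h ∈ H) (hK : Conn N K h) : K ⊆ S ∪ H := by
  intro y hy
  rcases (hK.2 y hy).cases_tail with rfl | ⟨c, _, hc⟩
  · exact Finset.mem_union_right _ hh
  · exact Finset.mem_union_left _ (hsub _ _ (hs _ _ hc.2.2))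

theorem vex_oe (hs : Sym N) {S H : Finset ℕ} (hsub : ∀ u v, v ∈ N u → u ∈ S) {s u : ℕ}
    (hu : Oe N μ (fun h => h ∈ H) s u) :
    Oe N μ (fun h => h ∈ H) (S ∪ H).card u ∧ u ∈ S ∪ H := by
  obtain ⟨h, K, f, hh, _, hf, hfu⟩ := hu
  have hsub' := vex_conn_sub hs hsub hh hf.1
  exact ⟨⟨h, K, f, hh, Finset.card_le_card hsub', hf, hfu⟩, hsub' hf.2.1⟩

theorem vex_mem_NO {O : ℕ → Prop} {a b : ℕ} : b ∈ NO N O a ↔ O a ∧ O b ∧ b ∈ N a := by
  unfold NO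
  split_ifs with h
  · simp [h, and_comm]
  · simp [h]

theorem vex_ball_O {O : ℕ → Prop} {b : ℕ} (hb : O b) (r : ℕ) :
    ∀ u ∈ ball (NO N O) b r, O u := by
  induction r with
  | zero =>
    intro u hu
    have : u = b := by simpa [ball] using hu
    rwa [this]
  | succ r ih =>
    intro u hu
    rcases mem_ball_succ.1 hu with hu | ⟨a, _, hu⟩
    · exact ih u hu
    · exact (vex_mem_NO.1 hu).2.1

/-- The exact Gallai-Edmonds count.  With `n = (S ∪ H).card` all patches have at most `n` nodes, so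
`Oe .. s'` implies `Oe .. n` for all `s'`.  `B` = sources, `C b = ball (NO ..) b n`,
`A` = unreachable neighbours of reachable nodes.  `μ` maps `A` injectively to `B \ H` (`mate`).
Every reachable node need not be shown to lie in some `C b`: define `A` by neighbours of
the `C b`. -/
theorem gex (hs : Sym N) (hi : Irr N) {S : Finset ℕ} (hsub : ∀ u v, v ∈ N u → u ∈ S)
    (hμ : Mat N μ) (H : Finset ℕ) (hH : ∀ h ∈ H, μ h = h)
    (hna : ∀ s, NoAug N μ (fun h => h ∈ H) s) :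
    ∃ (B A : Finset ℕ) (C : ℕ → Finset ℕ), GE N B A C ∧ A.card + H.card ≤ B.card ∧
      (∀ b ∈ B, ∀ u ∈ C b, ∃ s, Oe N μ (fun h => h ∈ H) s u) ∧
      ∀ a ∈ A, ∃ b ∈ B, ∃ u ∈ C b, a ∈ N u := by
  obtain ⟨n, hn⟩ : ∃ n, n = (S ∪ H).card := ⟨_, rfl⟩
  have hcol : ∀ s u, Oe N μ (fun h => h ∈ H) s u → Oe N μ (fun h => h ∈ H) n u :=
    fun s u hu => hn ▸ (vex_oe hs hsub hu).1
  have hmem : ∀ u, Oe N μ (fun h => h ∈ H) n u → u ∈ S ∪ H := fun u hu => (vex_oe hs hsub hu).2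
  obtain ⟨B, hB⟩ : ∃ B : Finset ℕ, ∀ b, b ∈ B ↔ src μ (Oe N μ (fun h => h ∈ H) n) b :=
    ⟨(S ∪ H).filter (src μ (Oe N μ (fun h => h ∈ H) n)), fun b => by
      rw [Finset.mem_filter]
      exact ⟨fun h => h.2, fun h => ⟨hmem b h.1, h⟩⟩⟩
  have hstr : ∀ s', ∀ b ∈ B, strong N μ (fun h => h ∈ H) n s' b := fun s' b hb =>
    ⟨((hB b).1 hb).1, ((hB b).1 hb).2.imp id fun h h' => h (hcol _ _ h')⟩
  obtain ⟨C, hC⟩ : ∃ C : ℕ → Finset ℕ, ∀ b, C b = ball (NO N (Oe N μ (fun h => h ∈ H) n)) b n :=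
    ⟨_, fun _ => rfl⟩
  have hCO : ∀ b ∈ B, ∀ u ∈ C b, Oe N μ (fun h => h ∈ H) n u := fun b hb u hu =>
    vex_ball_O ((hB b).1 hb).1 n u (hC b ▸ hu)
  have hCc : ∀ b ∈ B, (C b).card ≤ n := fun b hb =>
    hn ▸ Finset.card_le_card fun u hu => hmem u (hCO b hb u hu)
  obtain ⟨A, hA⟩ : ∃ A : Finset ℕ, ∀ a, a ∈ A ↔
      (∃ b ∈ B, ∃ u ∈ C b, a ∈ N u) ∧ ¬ Oe N μ (fun h => h ∈ H) n a :=
    ⟨((B.biUnion C).biUnion N).filter fun a => ¬ Oe N μ (fun h => h ∈ H) n a, fun a => by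
      simp only [Finset.mem_filter, Finset.mem_biUnion]
      constructor
      · rintro ⟨⟨u, ⟨b, hb, hu⟩, ha⟩, h⟩
        exact ⟨⟨b, hb, u, hu, ha⟩, h⟩
      · rintro ⟨⟨b, hb, u, hu, ha⟩, h⟩
        exact ⟨⟨u, ⟨b, hb, hu⟩, ha⟩, h⟩⟩
  refine ⟨B, A, C, ⟨?_, ?_, ?_, ?_⟩, ?_, fun b hb u hu => ⟨n, hCO b hb u hu⟩,
    fun a ha => ((hA a).1 ha).1⟩
  · intro b _
    rw [hC]
    exact conn_mono (conn_ball _ b n) fun a _ w hw => (vex_mem_NO.1 hw).2.2
  · intro b hb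
    rw [hC]
    exact comp_odd hs hi hμ hH (hna _) (hstr _ b hb) le_rfl (hC b ▸ hCc b hb)
      fun u _ h => hcol _ _ h
  · intro b hb u hu
    refine ⟨fun h => ((hA u).1 h).2 (hCO b hb u hu), fun w hw => ?_⟩
    by_cases hO : Oe N μ (fun h => h ∈ H) n w
    · left
      rw [hC] at hu ⊢
      exact ball_closed (hC b ▸ hCc b hb) u hu
        (vex_mem_NO.2 ⟨hCO b hb u (hC b ▸ hu), hO, hw⟩)
    · exact Or.inr ((hA w).2 ⟨⟨b, hb, u, hu, hw⟩, hO⟩)
  · intro b hb b' hb' hne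
    rw [Finset.disjoint_left]
    intro u hu hu'
    rw [hC] at hu hu'
    have hsy : ∀ a c, c ∈ NO N (Oe N μ (fun h => h ∈ H) n) a →
        a ∈ NO N (Oe N μ (fun h => h ∈ H) n) c := fun a c h =>
      vex_mem_NO.2 ⟨(vex_mem_NO.1 h).2.1, (vex_mem_NO.1 h).1, hs _ _ (vex_mem_NO.1 h).2.2⟩
    exact hne (strong_uniq hs hi hμ hH (hna _) (hstr _ b hb) (hstr _ b' hb') le_rfl
      (ball_trans hu (ball_symm hsy hu')))
  · have hHB : H ⊆ B := by
      intro h hh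
      refine (hB h).2 ⟨hcol 1 h ⟨h, {h}, id, hh, by simp, fx_self (hH h hh), rfl⟩,
        Or.inl (hH h hh)⟩
    have hle : A.card ≤ (B \ H).card := by
      refine Finset.card_le_card_of_injOn μ (fun a ha => ?_) fun a _ a' _ h => ?_
      · obtain ⟨⟨b, hb, u, hu, hau⟩, hO⟩ := (hA a).1 (Finset.mem_coe.1 ha)
        obtain ⟨h1, h2⟩ := mate hs hi hμ hH (hna _) (hCO b hb u hu) hau hO
        refine Finset.mem_coe.2 (Finset.mem_sdiff.2 ⟨(hB _).2 ⟨hcol _ _ h2, Or.inr ?_⟩,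
          fun h => h1 ?_⟩)
        · rwa [hμ.1]
        · have := hH _ h
          rw [hμ.1] at this
          exact this.symm
      · rw [← hμ.1 a, h, hμ.1]
    have := Finset.card_sdiff_add_card_eq_card hHB
    omega

/-- A matching that leaves the fewest nodes of `cr` exposed. -/
theorem cov (hs : Sym N) (hi : Irr N) {S : Finset ℕ} (hsub : ∀ u v, v ∈ N u → u ∈ S)
    (cr : ℕ → Prop) :
    ∃ (μ : ℕ → ℕ) (B A : Finset ℕ) (C : ℕ → Finset ℕ), Mat N μ ∧ GE N B A C ∧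
      A.card + (S.filter fun v => cr v ∧ μ v = v).card ≤ B.card ∧ A ⊆ S ∧
      ∀ b ∈ B, ∀ u ∈ C b, u ∈ S ∧ cr u := by
  have hex : ∃ n, ∃ μ : ℕ → ℕ, Mat N μ ∧ (S.filter fun v => cr v ∧ μ v = v).card = n :=
    ⟨_, id, ⟨fun _ => rfl, fun _ h => (h rfl).elim⟩, rfl⟩
  obtain ⟨μ, hμ, hc⟩ := Nat.find_spec hex
  have hmin : ∀ ν, Mat N ν → (S.filter fun v => cr v ∧ μ v = v).card ≤
      (S.filter fun v => cr v ∧ ν v = v).card := fun ν hν =>
    hc ▸ Nat.find_min' hex ⟨ν, hν, rfl⟩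
  have key : ∀ h z K f, h ∈ S.filter (fun v => cr v ∧ μ v = v) → Fx N μ h z K f →
      f z = z ∧ z ∈ S ∧ cr z := by
    intro h z K f hh hf
    by_contra hcon
    have h1 := hmin _ (mat_glue hμ hf.2.2.1)
    have h2 : (S.filter fun v => cr v ∧ glue K f μ v = v) ⊆
        (S.filter fun v => cr v ∧ μ v = v).erase h := by
      intro v hv
      obtain ⟨hvS, hvc, hvg⟩ := Finset.mem_filter.1 hv
      by_cases hvK : v ∈ K
      · simp only [glue, if_pos hvK] at hvg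
        rcases hf.2.2.2 v hvK hvg with h3 | h3
        · exact Finset.mem_erase.2 ⟨h3.2, Finset.mem_filter.2 ⟨hvS, hvc, h3.1⟩⟩
        · exact (hcon (h3 ▸ ⟨hvg, hvS, hvc⟩)).elim
      · simp only [glue, if_neg hvK] at hvg
        exact Finset.mem_erase.2 ⟨fun h3 => hvK (h3 ▸ hf.1.1), Finset.mem_filter.2 ⟨hvS, hvc, hvg⟩⟩
    have h3 := Finset.card_le_card h2
    have h4 := Finset.card_erase_lt_of_mem hh
    omega
  obtain ⟨B, A, C, hGE, hcard, hO, hA⟩ := gex hs hi hsub hμ (S.filter fun v => cr v ∧ μ v = v)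
    (fun h hh => (Finset.mem_filter.1 hh).2.2) fun s h z K f hh _ hf => (key h z K f hh hf).1
  refine ⟨μ, B, A, C, hμ, hGE, hcard, fun a ha => ?_, fun b hb u hu => ?_⟩
  · obtain ⟨b, _, u, _, hau⟩ := hA a ha
    exact hsub _ _ (hs _ _ hau)
  · obtain ⟨s, h, K, f, hh, _, hf, _⟩ := hO b hb u hu
    exact (key h u K f hh hf).2

/-- Double counting of the edges between the components and `A`. -/
theorem cnt (hs : Sym N) (hm : ∀ u w, m u w = m w u) {B A : Finset ℕ} {C : ℕ → Finset ℕ}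
    (h : GE N B A C) : ∑ b ∈ B, cutm N m (C b) ≤ ∑ a ∈ A, dg N m a := by
  have h1 : ∑ b ∈ B, cutm N m (C b) ≤
      ∑ b ∈ B, ∑ u ∈ C b, ∑ a ∈ A, if a ∈ N u then m u a else 0 := by
    refine Finset.sum_le_sum fun b hb => Finset.sum_le_sum fun u hu => ?_
    rw [← Finset.sum_filter]
    refine Finset.sum_le_sum_of_subset fun w hw => ?_
    obtain ⟨hw1, hw2⟩ := Finset.mem_sdiff.1 hw
    exact Finset.mem_filter.2 ⟨((h.out b hb u hu).2 w hw1).resolve_left hw2, hw1⟩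
  refine h1.trans ?_
  rw [← Finset.sum_biUnion (fun b hb b' hb' hne => h.disj b hb b' hb' hne), Finset.sum_comm]
  refine Finset.sum_le_sum fun a _ => ?_
  rw [← Finset.sum_filter]
  calc ∑ u ∈ (B.biUnion C).filter (fun u => a ∈ N u), m u a ≤ ∑ u ∈ N a, m u a :=
        Finset.sum_le_sum_of_subset fun u hu => hs _ _ (Finset.mem_filter.1 hu).2
    _ = dg N m a := Finset.sum_congr rfl fun u _ => hm u a

end Pool.Agent.Lib.MP_459a07_lc.V
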