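import Pool.Agent.Lib.MP_459a07_lc.VSw

set_option autoImplicit false

namespace Pool.Agent.Lib.MP_459a07_lc.V

open Classical

variable {N : ℕ → Finset ℕ} {μ : ℕ → ℕ} {H : ℕ → Prop} {s s' p σ a b b' u v : ℕ}

theorem vge1_noAug_mono {t : ℕ} (hna : NoAug N μ H t) (hst : s ≤ t) : NoAug N μ H s :=
  fun h z K f h1 h2 h3 => hna h z K f h1 (h2.trans hst) h3

theorem vge1_glue_mem {K : Finset ℕ} {f g : ℕ → ℕ} {x : ℕ} (h : x ∈ K) : glue K f g x = f x :=
  if_pos h

theorem vge1_glue_not {K : Finset ℕ} {f g : ℕ → ℕ} {x : ℕ} (h : x ∉ K) : glue K f g x = g x :=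
  if_neg h

theorem vge1_mat_glue {ν : ℕ → ℕ} {K : Finset ℕ} (hμ : Mat N μ) (hν : Mat N ν)
    (hK : ∀ v ∈ K, μ v ∈ K ∧ ν v ∈ K) : Mat N (glue K ν μ) :=
  mat_glue hμ fun v hv => ⟨(hK v hv).1, (hK v hv).2, hν.1 v, hν.2 v⟩

/-- An exposed reachable node is a source. -/
theorem oe_exposed (hna : NoAug N μ H s) (hu : Oe N μ H s u) (he : μ u = u) : H u := by
  obtain ⟨h, K, f, h1, h2, h3, h4⟩ := hu
  by_cases huh : u = h
  · exact huh ▸ h1
  have h5 : Fx N μ h h K f := by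
    refine ⟨h3.1, h3.1.1, h3.2.2.1, fun v hv hf => ?_⟩
    rcases h3.2.2.2 v hv hf with h6 | h6
    · exact Or.inl h6
    · exact Or.inl (h6 ▸ ⟨he, huh⟩)
  rcases h3.2.2.2 h h3.1.1 (hna h h K f h1 h2 h5) with h6 | h6
  · exact absurd rfl h6.2
  · exact absurd h6.symm huh

/-- Global form of reachability: the exposed nodes change exactly by `h` and `u`. -/
theorem oe_global (hs : Sym N) (hμ : Mat N μ) (hH : ∀ h, H h → μ h = h) (hna : NoAug N μ H s)
    (hu : Oe N μ H s u) : ∃ (h : ℕ) (K : Finset ℕ) (ν : ℕ → ℕ), H h ∧ K.card ≤ s ∧ h ∈ K ∧ u ∈ K ∧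
      Mat N ν ∧ Near μ ν K ∧ (∀ v ∈ K, μ v ∈ K) ∧ ∀ v, ν v = v ↔ (μ v = v ∧ v ≠ h) ∨ v = u := by
  obtain ⟨h, K, f, h1, h2, h3, h4⟩ := hu
  have hhK : h ∈ K := h3.1.1
  have hν0 : Mat N (glue K f μ) := mat_glue hμ h3.2.2.1
  have hn0 : Near μ (glue K f μ) K := fun v hv => vge1_glue_not hv
  have he0 : ∀ v, glue K f μ v = v → (μ v = v ∧ v ≠ h) ∨ v = u := by
    intro v hv
    by_cases hvK : v ∈ K
    · rw [vge1_glue_mem hvK] at hv
      exact h3.2.2.2 v hvK hv
    · rw [vge1_glue_not hvK] at hv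
      exact Or.inl ⟨hv, fun h' => hvK (h' ▸ hhK)⟩
  obtain ⟨K', z', h5, h6, h7, h8⟩ := norm_mv hs hμ hν0 hn0 (hH h h1) he0
  rw [Finset.insert_eq_of_mem hhK] at h5
  have hc : K'.card ≤ s := (Finset.card_le_card h5).trans h2
  have h9 := hna h z' K' _ h1 hc h6
  obtain ⟨rfl, -⟩ : z' = u ∧ glue K f μ u = u := h7.resolve_left fun h' => h' h9
  refine ⟨h, K', glue K' (glue K f μ) μ, h1, hc, h6.1.1, h6.2.1, mat_glue hμ h6.2.2.1,
    fun v hv => vge1_glue_not hv, fun v hv => (h6.2.2.1 v hv).1, fun v => ⟨fun hv => ?_, ?_⟩⟩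
  · by_cases hvK : v ∈ K'
    · rw [vge1_glue_mem hvK] at hv
      exact h6.2.2.2 v hvK hv
    · rw [vge1_glue_not hvK] at hv
      exact Or.inl ⟨hv, fun h' => hvK (h' ▸ h6.1.1)⟩
  · rintro (⟨hv, hvh⟩ | rfl)
    · have hvK : v ∉ K' := fun h' => by
        rcases h8 v h' hv with h10 | h10
        · exact hvh h10
        · exact h10.2 h9
      rw [vge1_glue_not hvK, hv]
    · rw [vge1_glue_mem h6.2.1, h9]

/-- Conversely, a global matching gives reachability. -/
theorem oe_of_global (hs : Sym N) (hμ : Mat N μ) (hH : ∀ h, H h → μ h = h)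
    (hna : NoAug N μ H s) {h : ℕ} {K : Finset ℕ} {ν : ℕ → ℕ} (hh : H h)
    (hK : (insert h K).card ≤ s) (hν : Mat N ν) (hn : Near μ ν K)
    (he : ∀ v, ν v = v → (μ v = v ∧ v ≠ h) ∨ v = u) : Oe N μ H (insert h K).card u := by
  obtain ⟨K', z', h5, h6, h7, -⟩ := norm_mv hs hμ hν hn (hH h hh) he
  have hc := Finset.card_le_card h5
  have h9 := hna h z' K' _ hh (hc.trans hK) h6
  obtain ⟨rfl, -⟩ : z' = u ∧ ν u = u := h7.resolve_left fun h' => h' h9
  exact ⟨h, K', ν, hh, hc, h6, h9⟩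

theorem no_aug_global (hs : Sym N) (hμ : Mat N μ) (hH : ∀ h, H h → μ h = h)
    (hna : NoAug N μ H s) {h : ℕ} {K : Finset ℕ} {ν : ℕ → ℕ} (hh : H h)
    (hK : (insert h K).card ≤ s) (hν : Mat N ν) (hn : Near μ ν K)
    (he : ∀ v, ν v = v → μ v = v ∧ v ≠ h) : False := by
  obtain ⟨K', z', h5, h6, h7, -⟩ := norm_mv (z := h) hs hμ hν hn (hH h hh)
    fun v hv => Or.inl (he v hv)
  have h9 := hna h z' K' _ hh ((Finset.card_le_card h5).trans hK) h6
  exact (he h (h7.resolve_left fun h' => h' h9).2).2 rfl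

/-- Match `u` with `a` and expose the old mate of `a`. -/
def vge1_mt (ν : ℕ → ℕ) (u a : ℕ) : ℕ → ℕ :=
  fun v => if v = u then a else if v = a then u else if v = ν a then v else ν v

theorem vge1_mt_other {ν : ℕ → ℕ} (h1 : v ≠ u) (h2 : v ≠ a) (h3 : v ≠ ν a) :
    vge1_mt ν u a v = ν v := by
  simp only [vge1_mt, if_neg h1, if_neg h2, if_neg h3]

theorem vge1_mt_fix {ν : ℕ → ℕ} (hau : a ≠ u) (h : vge1_mt ν u a v = v) :
    v ≠ u ∧ v ≠ a ∧ (v = ν a ∨ ν v = v) := by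
  unfold vge1_mt at h
  by_cases h1 : v = u
  · rw [if_pos h1] at h
    exact absurd (h.trans h1) hau
  by_cases h2 : v = a
  · rw [if_neg h1, if_pos h2] at h
    exact absurd h.symm h1
  by_cases h3 : v = ν a
  · exact ⟨h1, h2, Or.inl h3⟩
  · rw [if_neg h1, if_neg h2, if_neg h3] at h
    exact ⟨h1, h2, Or.inr h⟩

theorem vge1_mt_mat {ν : ℕ → ℕ} (hs : Sym N) (hν : Mat N ν) (hu : ν u = u) (ha : a ∈ N u)
    (hau : a ≠ u) : Mat N (vge1_mt ν u a) := by
  have e1 : vge1_mt ν u a u = a := if_pos rfl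
  have e2 : vge1_mt ν u a a = u := by simp only [vge1_mt, if_neg hau, if_true]
  have key : ∀ v, vge1_mt ν u a (vge1_mt ν u a v) = v ∧
      (vge1_mt ν u a v ≠ v → vge1_mt ν u a v ∈ N v) := by
    intro v
    by_cases h1 : v = u
    · rw [h1, e1, e2]
      exact ⟨rfl, fun _ => ha⟩
    by_cases h2 : v = a
    · rw [h2, e2, e1]
      exact ⟨rfl, fun _ => hs _ _ ha⟩
    by_cases h3 : v = ν a
    · have e3 : vge1_mt ν u a v = v := by simp only [vge1_mt, if_neg h1, if_neg h2, if_pos h3]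
      rw [e3, e3]
      exact ⟨rfl, fun h => absurd rfl h⟩
    · have h4 : ν v ≠ u := fun h => h1 (by rw [← hν.1 v, h, hu])
      have h5 : ν v ≠ a := fun h => h3 (by rw [← hν.1 v, h])
      have h6 : ν v ≠ ν a := fun h => h2 (by rw [← hν.1 v, h, hν.1])
      rw [vge1_mt_other h1 h2 h3, vge1_mt_other h4 h5 h6]
      exact ⟨hν.1 v, hν.2 v⟩
  exact ⟨fun v => (key v).1, fun v => (key v).2⟩

theorem vge1_card3 (K : Finset ℕ) (x y z : ℕ) :
    (insert x (insert y (insert z K))).card ≤ K.card + 3 := by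
  have h1 := Finset.card_insert_le x (insert y (insert z K))
  have h2 := Finset.card_insert_le y (insert z K)
  have h3 := Finset.card_insert_le z K
  omega

theorem vge1_mt_near {ν : ℕ → ℕ} {K : Finset ℕ} (hn : Near μ ν K) (huK : u ∈ K) :
    Near μ (vge1_mt ν u a) (insert a (insert (ν a) K)) := by
  intro v hv
  simp only [Finset.mem_insert, not_or] at hv
  have h1 : v ≠ u := fun h' => hv.2.2 (h' ▸ huK)
  rw [vge1_mt_other h1 hv.1 hv.2.1, hn v hv.2.2]

theorem vge1_case2 (hs : Sym N) (hμ : Mat N μ) (hH : ∀ h, H h → μ h = h)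
    (hna : NoAug N μ H (s + 5)) {h : ℕ} {K : Finset ℕ} {ν : ℕ → ℕ} (hh : H h) (hK : K.card ≤ s)
    (huK : u ∈ K) (hν : Mat N ν) (hn : Near μ ν K) (hu : ν u = u)
    (he : ∀ v, ν v = v → (μ v = v ∧ v ≠ h) ∨ v = u) (ha : a ∈ N u) (hau : a ≠ u)
    (hab : ν a = μ a) : Oe N μ H (s + 5) (μ a) := by
  have hc := vge1_card3 K h a (ν a)
  refine oe_mono (by omega) (fun _ hx => hx) (oe_of_global hs hμ hH hna hh (by omega)
    (vge1_mt_mat hs hν hu ha hau) (vge1_mt_near hn huK) fun v hv => ?_)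
  obtain ⟨h1, -, h3 | h3⟩ := vge1_mt_fix hau hv
  · exact Or.inr (h3.trans hab)
  · exact Or.inl ((he v h3).resolve_right h1)

/-- Delete the pair `a`, `μ a`. -/
def vge1_del (μ : ℕ → ℕ) (a : ℕ) : ℕ → ℕ := fun v => if v = a ∨ v = μ a then v else μ v

theorem vge1_del_other (h1 : v ≠ a) (h2 : v ≠ μ a) : vge1_del μ a v = μ v :=
  if_neg (not_or.2 ⟨h1, h2⟩)

theorem vge1_del_mat (hμ : Mat N μ) (a : ℕ) : Mat N (vge1_del μ a) := by
  have key : ∀ v, vge1_del μ a (vge1_del μ a v) = v ∧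
      (vge1_del μ a v ≠ v → vge1_del μ a v ∈ N v) := by
    intro v
    by_cases h : v = a ∨ v = μ a
    · have e : vge1_del μ a v = v := if_pos h
      rw [e, e]
      exact ⟨rfl, fun h' => absurd rfl h'⟩
    · obtain ⟨h1, h2⟩ := not_or.1 h
      have h3 : μ v ≠ a := fun h' => h2 (by rw [← hμ.1 v, h'])
      have h4 : μ v ≠ μ a := fun h' => h1 (by rw [← hμ.1 v, h', hμ.1])
      rw [vge1_del_other h1 h2, vge1_del_other h3 h4]
      exact ⟨hμ.1 v, hμ.2 v⟩
  exact ⟨fun v => (key v).1, fun v => (key v).2⟩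

/-- The mate of an unreachable neighbour is reachable.  Let `ν` expose `u` (`oe_global`).  If
`ν a = a`, match `u, a`: an augmentation.  If `μ a = ν a`, match `u, a` and expose `μ a`.
Otherwise delete the pair `a, μ a` from `μ` and apply `switch` from `h`: the path ends at `a`
(then `μ a` is reachable), at `μ a` (then `a` is reachable, impossible) or at `u` (then
`glue K' ν μ` agrees with `μ` at `a`, the second case). -/
theorem mate (hs : Sym N) (hi : Irr N) (hμ : Mat N μ) (hH : ∀ h, H h → μ h = h)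
    (hna : NoAug N μ H (s + 5)) (hu : Oe N μ H s u) (ha : a ∈ N u) (hna' : ¬ Oe N μ H s a) :
    μ a ≠ a ∧ Oe N μ H (s + 5) (μ a) := by
  obtain ⟨h, K, ν, hh, hK, hhK, huK, hν, hn, hcl, he⟩ :=
    oe_global hs hμ hH (vge1_noAug_mono hna (Nat.le_add_right s 5)) hu
  have hau : a ≠ u := fun h' => hi u (h' ▸ ha)
  have hνu : ν u = u := (he u).2 (Or.inr rfl)
  have hμh := hH h hh
  have hνa : ν a ≠ a := by
    intro h1
    have hc := vge1_card3 K h a (ν a)
    refine no_aug_global hs hμ hH hna hh (by omega) (vge1_mt_mat hs hν hνu ha hau)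
      (vge1_mt_near hn huK) fun v hv => ?_
    obtain ⟨h2, h3, h4 | h4⟩ := vge1_mt_fix hau hv
    · exact absurd (h4.trans h1) h3
    · exact ((he v).1 h4).resolve_right h2
  have hah : a ≠ h := by
    rintro rfl
    exact hna' ⟨a, {a}, id, hh, by
      rw [Finset.card_singleton]
      exact (Finset.card_pos.2 ⟨a, hhK⟩).trans_le hK, fx_self hμh, rfl⟩
  have hμa : μ a ≠ a := fun h1 => hνa ((he a).2 (Or.inl ⟨h1, hah⟩))
  refine ⟨hμa, ?_⟩
  by_cases hab : ν a = μ a
  · exact vge1_case2 hs hμ hH hna hh hK huK hν hn hνu (fun v hv => (he v).1 hv) ha hau hab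
  have haK : a ∈ K := by
    by_contra h1
    exact hab (hn a h1)
  have hbK := hcl a haK
  have hbh : μ a ≠ h := fun h1 => hah (by rw [← hμ.1 a, h1, hμh])
  have hout : ∀ v, v ∉ K → vge1_del μ a v = μ v := fun v hv =>
    vge1_del_other (fun h' => hv (h' ▸ haK)) fun h' => hv (h' ▸ hbK)
  have hda : vge1_del μ a a = a := if_pos (Or.inl rfl)
  have hdb : vge1_del μ a (μ a) = μ a := if_pos (Or.inr rfl)
  have hdm := vge1_del_mat hμ a
  obtain ⟨K', z, h1, h2, h3, h4, h5⟩ := switch (K := K) (h := h) hs hdm hν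
    (fun v hv => (hn v hv).trans (hout v hv).symm)
    ((vge1_del_other hah.symm hbh.symm).trans hμh)
  rw [Finset.insert_eq_of_mem hhK] at h1
  rcases h5 with ⟨h5, h6⟩ | ⟨h5, h6, h7⟩
  · have ha' : a ∉ K' := fun h' => hah ((h6 a h').2 hda)
    have hb' : μ a ∉ K' := fun h' => hbh ((h6 _ h').2 hdb)
    have hin : ∀ v ∈ K', vge1_del μ a v = μ v := fun v hv =>
      vge1_del_other (fun h' => ha' (h' ▸ hv)) fun h' => hb' (h' ▸ hv)
    obtain rfl : z = u := ((he z).1 h5).resolve_left fun h' =>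
      h'.2 ((h6 z h3).2 ((hin z h3).trans h'.1))
    refine vge1_case2 (ν := glue K' ν μ) hs hμ hH hna hh ((Finset.card_le_card h1).trans hK) h3
      (vge1_mat_glue hμ hν fun v hv => ⟨hin v hv ▸ (h4 v hv).1, (h4 v hv).2⟩)
      (fun v hv => vge1_glue_not hv) ((vge1_glue_mem h3).trans h5) (fun v hv => ?_) ha hau
      (vge1_glue_not ha')
    by_cases hvK : v ∈ K'
    · rw [vge1_glue_mem hvK] at hv
      exact Or.inr ((h6 v hvK).1 hv)
    · rw [vge1_glue_not hvK] at hv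
      exact Or.inl ⟨hv, fun h' => hvK (h' ▸ h2.1)⟩
  · have hm3 : Mat N (glue K' ν (vge1_del μ a)) := vge1_mat_glue hdm hν h4
    have hn3 : Near μ (glue K' ν (vge1_del μ a)) K := fun v hv =>
      (vge1_glue_not fun h' => hv (h1 h')).trans (hout v hv)
    have he3 : ∀ v, glue K' ν (vge1_del μ a) v = v →
        v ∉ K' ∧ ((μ v = v ∧ v ≠ h) ∨ v = a ∨ v = μ a) := by
      intro v hv
      by_cases hvK : v ∈ K'
      · rw [vge1_glue_mem hvK] at hv
        exact absurd hv (h7 v hvK).1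
      · rw [vge1_glue_not hvK] at hv
        refine ⟨hvK, ?_⟩
        by_cases h8 : v = a ∨ v = μ a
        · exact Or.inr h8
        · rw [vge1_del_other (not_or.1 h8).1 (not_or.1 h8).2] at hv
          exact Or.inl ⟨hv, fun h' => hvK (h' ▸ h2.1)⟩
    have hc : (insert h K).card ≤ s := by rwa [Finset.insert_eq_of_mem hhK]
    by_cases hza : z = a
    · refine oe_mono (by omega) (fun _ hx => hx)
        (oe_of_global hs hμ hH hna hh (by omega) hm3 hn3 fun v hv => ?_)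
      obtain ⟨h8, h9 | h9 | h9⟩ := he3 v hv
      · exact Or.inl h9
      · exact absurd ((h9.trans hza.symm) ▸ h3) h8
      · exact Or.inr h9
    by_cases hzb : z = μ a
    · refine absurd (oe_mono hc (fun _ hx => hx)
        (oe_of_global hs hμ hH hna hh (by omega) hm3 hn3 fun v hv => ?_)) hna'
      obtain ⟨h8, h9 | h9 | h9⟩ := he3 v hv
      · exact Or.inl h9
      · exact Or.inr h9
      · exact absurd ((h9.trans hzb.symm) ▸ h3) h8
    · rw [vge1_del_other hza hzb] at h5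
      exact absurd ((he z).2 (Or.inl ⟨h5, h6⟩)) (h7 z h3).1

theorem vge1_count {K K' : Finset ℕ} {z : ℕ} (q : ℕ → Prop) [DecidablePred q] (hK : K' ⊆ K)
    (hz : z ∈ K') (hq : q z) (h : ∀ y ∈ K', q y → y = z) :
    (K.filter q).card = ((K \ K').filter q).card + 1 := by
  have h1 : K.filter q = insert z ((K \ K').filter q) := by
    ext y
    simp only [Finset.mem_filter, Finset.mem_insert, Finset.mem_sdiff]
    constructor
    · rintro ⟨h2, h3⟩
      by_cases h4 : y ∈ K'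
      · exact Or.inl (h y h4 h3)
      · exact Or.inr ⟨⟨h2, h4⟩, h3⟩
    · rintro (rfl | ⟨⟨h2, -⟩, h3⟩)
      · exact ⟨hK hz, hq⟩
      · exact ⟨h2, h3⟩
  rw [h1, Finset.card_insert_of_notMem]
  exact fun h2 => (Finset.mem_sdiff.1 (Finset.mem_filter.1 h2).1).2 hz

/-- A matching with fewer exposed nodes in `K` has an alternating path with two `μ`-exposed ends.
Induct on `K.card`, using `switch` from a node that is exposed by `μ` only; if the path ends at a
`ν`-exposed node, undo it (`glue K' μ ν`) and pass to `K \ K'`. -/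
theorem exists_aug (hs : Sym N) (hμ : Mat N μ) {ν : ℕ → ℕ} (hν : Mat N ν) {K : Finset ℕ}
    (hn : Near μ ν K)
    (hc : (K.filter fun v => ν v = v).card < (K.filter fun v => μ v = v).card) :
    ∃ (K' : Finset ℕ) (x y : ℕ), K' ⊆ K ∧ x ≠ y ∧ x ∈ K' ∧ y ∈ K' ∧ μ x = x ∧ μ y = y ∧
      ∀ v ∈ K', μ v ∈ K' ∧ ν v ∈ K' ∧ ν v ≠ v ∧ (μ v = v → v = x ∨ v = y) := by
  induction hk : K.card using Nat.strong_induction_on generalizing K ν with
  | _ k ih =>
    have hex : ∃ x ∈ K, μ x = x ∧ ν x ≠ x := by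
      by_contra h0
      push Not at h0
      refine absurd hc (not_lt.2 (Finset.card_le_card fun x hx => ?_))
      obtain ⟨h1, h2⟩ := Finset.mem_filter.1 hx
      exact Finset.mem_filter.2 ⟨h1, h0 x h1 h2⟩
    obtain ⟨x, hxK, hx, -⟩ := hex
    obtain ⟨K', z, h1, h2, h3, h4, h5⟩ := switch hs hμ hν hn hx
    rw [Finset.insert_eq_of_mem hxK] at h1
    rcases h5 with ⟨h5, h6⟩ | ⟨h5, h6, h7⟩
    · have hm : Mat N (glue K' μ ν) := vge1_mat_glue hν hμ fun v hv => (h4 v hv).symm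
      have hn' : Near μ (glue K' μ ν) (K \ K') := by
        intro v hv
        by_cases hv' : v ∈ K'
        · exact vge1_glue_mem hv'
        · exact (vge1_glue_not hv').trans (hn v fun h' => hv (Finset.mem_sdiff.2 ⟨h', hv'⟩))
      have heq : ∀ v ∈ K \ K', glue K' μ ν v = ν v := fun v hv =>
        vge1_glue_not (Finset.mem_sdiff.1 hv).2
      have c1 := vge1_count (fun v => ν v = v) h1 h3 h5 fun y hy => (h6 y hy).1
      have c2 := vge1_count (fun v => μ v = v) h1 h2.1 hx fun y hy => (h6 y hy).2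
      have c3 : ((K \ K').filter fun v => glue K' μ ν v = v) = (K \ K').filter fun v => ν v = v :=
        Finset.filter_congr fun v hv => by rw [heq v hv]
      have c4 : (K \ K').card < k := hk ▸ Finset.card_lt_card
        (Finset.sdiff_ssubset h1 ⟨z, h3⟩)
      obtain ⟨K'', x', y', g1, g2, g3, g4, g5, g6, g7⟩ := ih _ c4 hm hn' (by rw [c3]; omega) rfl
      refine ⟨K'', x', y', g1.trans Finset.sdiff_subset, g2, g3, g4, g5, g6, fun v hv => ?_⟩
      have g8 := g7 v hv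
      rwa [heq v (g1 hv)] at g8
    · exact ⟨K', x, z, h1, h6.symm, h2.1, h3, hx, h5, fun v hv =>
        ⟨(h4 v hv).1, (h4 v hv).2, (h7 v hv).1, (h7 v hv).2⟩⟩

end Pool.Agent.Lib.MP_459a07_lc.V
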