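import Pool.Agent.Lib.MP_459a07_lc.VGE1

set_option autoImplicit false

namespace Pool.Agent.Lib.MP_459a07_lc.V

open Classical

variable {N : ℕ → Finset ℕ} {μ : ℕ → ℕ} {H : ℕ → Prop} {s s' p σ a b b' u v : ℕ}

/-- `μ` with the pairs of `b` and `b'` deleted. -/
def cut2 (μ : ℕ → ℕ) (b b' : ℕ) : ℕ → ℕ := fun v =>
  if v = b ∨ v = μ b ∨ v = b' ∨ v = μ b' then v else μ v

theorem mat_cut2 (hμ : Mat N μ) (b b' : ℕ) : Mat N (cut2 μ b b') := by
  have key : ∀ v, (μ v = b ∨ μ v = μ b ∨ μ v = b' ∨ μ v = μ b') →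
      (v = b ∨ v = μ b ∨ v = b' ∨ v = μ b') := by
    rintro v (h | h | h | h)
    · exact Or.inr (Or.inl (by rw [← h, hμ.1]))
    · exact Or.inl (by rw [← hμ.1 v, h, hμ.1])
    · exact Or.inr (Or.inr (Or.inr (by rw [← h, hμ.1])))
    · exact Or.inr (Or.inr (Or.inl (by rw [← hμ.1 v, h, hμ.1])))
  refine ⟨fun v => ?_, fun v => ?_⟩
  · by_cases h : v = b ∨ v = μ b ∨ v = b' ∨ v = μ b'
    · simp only [cut2, if_pos h]
    · simp only [cut2, if_neg h, if_neg (fun e => h (key v e)), hμ.1]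
  · by_cases h : v = b ∨ v = μ b ∨ v = b' ∨ v = μ b'
    · simp only [cut2, if_pos h]
      exact fun e => absurd rfl e
    · simp only [cut2, if_neg h]
      exact hμ.2 v

theorem vge2_in (h : v = b ∨ v = μ b ∨ v = b' ∨ v = μ b') : cut2 μ b b' v = v := if_pos h

theorem vge2_out (h : ¬ (v = b ∨ v = μ b ∨ v = b' ∨ v = μ b')) : cut2 μ b b' v = μ v := if_neg h

theorem vge2_fix (h : μ v = v) : cut2 μ b b' v = v := by
  by_cases e : v = b ∨ v = μ b ∨ v = b' ∨ v = μ b'
  · exact vge2_in e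
  · rw [vge2_out e, h]

theorem vge2_cases (h : cut2 μ b b' v = v) :
    μ v = v ∨ v = b ∨ v = μ b ∨ v = b' ∨ v = μ b' := by
  by_cases e : v = b ∨ v = μ b ∨ v = b' ∨ v = μ b'
  · exact Or.inr e
  · rw [vge2_out e] at h
    exact Or.inl h

theorem vge2_gin {K : Finset ℕ} {f : ℕ → ℕ} (h : v ∈ K) : glue K f μ v = f v := if_pos h

theorem vge2_gout {K : Finset ℕ} {f : ℕ → ℕ} (h : v ∉ K) : glue K f μ v = μ v := if_neg h

theorem vge2_glue {K : Finset ℕ} {ν : ℕ → ℕ} (hμ : Mat N μ) (hν : Mat N ν)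
    (h : ∀ v ∈ K, μ v ∈ K ∧ ν v ∈ K) : Mat N (glue K ν μ) :=
  mat_glue hμ fun v hv => ⟨(h v hv).1, (h v hv).2, hν.1 v, hν.2 v⟩

theorem vge2_mono (hna : NoAug N μ H s') (h : s ≤ s') : NoAug N μ H s :=
  fun x z K f h1 h2 h3 => hna x z K f h1 (h2.trans h) h3

/-- An unreachable node cannot be exposed by a nearby matching. -/
theorem vge2_unreach (hs : Sym N) (hμ : Mat N μ) (hH : ∀ h, H h → μ h = h)
    (hna : NoAug N μ H s') (hu : ¬ Oe N μ H s' u) {h : ℕ} {K : Finset ℕ} {ν : ℕ → ℕ} (hh : H h)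
    (hK : (insert h K).card ≤ s') (hν : Mat N ν) (hn : Near μ ν K)
    (he : ∀ v, ν v = v → (μ v = v ∧ v ≠ h) ∨ v = u) : False :=
  hu (oe_mono hK (fun _ e => e) (oe_of_global hs hμ hH hna hh hK hν hn he))

/-- The case of an end in `H`. -/
theorem vge2_caseA (hs : Sym N) (hμ : Mat N μ) (hH : ∀ h, H h → μ h = h)
    (hna : NoAug N μ H s') {ν : ℕ → ℕ} (hν : Mat N ν) {K : Finset ℕ} (hK : K.card + 2 ≤ s')
    {x y : ℕ} (hx : H x) (hy : μ y = y ∨ ¬ Oe N μ H s' (μ y)) (hxK : x ∈ K) (hyK : y ∈ K)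
    (hcl : ∀ v ∈ K, cut2 μ b b' v ∈ K ∧ ν v ∈ K ∧ ν v ≠ v ∧
      (cut2 μ b b' v = v → v = x ∨ v = y)) : False := by
  have hm : Mat N (glue K ν (cut2 μ y y)) := by
    refine vge2_glue (mat_cut2 hμ y y) hν fun v hv => ⟨?_, (hcl v hv).2.1⟩
    by_cases e : v = y ∨ v = μ y ∨ v = y ∨ v = μ y
    · rwa [vge2_in e]
    · rw [vge2_out e]
      by_cases e' : v = b ∨ v = μ b ∨ v = b' ∨ v = μ b'
      · rcases (hcl v hv).2.2.2 (vge2_in e') with h | h
        · rw [h, hH x hx]
          exact hxK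
        · exact absurd (Or.inl h) e
      · rw [← vge2_out e']
        exact (hcl v hv).1
  have hn : Near μ (glue K ν (cut2 μ y y)) (insert (μ y) K) := fun v hv => by
    rw [Finset.mem_insert, not_or] at hv
    rw [vge2_gout hv.2, vge2_out]
    rintro (h | h | h | h)
    · exact hv.2 (h ▸ hyK)
    · exact hv.1 h
    · exact hv.2 (h ▸ hyK)
    · exact hv.1 h
  have hc : (insert x (insert (μ y) K)).card ≤ s' :=
    (Finset.card_insert_le _ _).trans
      ((Nat.add_le_add_right (Finset.card_insert_le _ _) 1).trans hK)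
  have he : ∀ v, glue K ν (cut2 μ y y) v = v → (μ v = v ∧ v ≠ x) ∨ (v = μ y ∧ v ≠ y) := by
    intro v hv
    by_cases hvK : v ∈ K
    · rw [vge2_gin hvK] at hv
      exact absurd hv (hcl v hvK).2.2.1
    · rw [vge2_gout hvK] at hv
      have h1 : v ≠ y := fun h => hvK (h ▸ hyK)
      rcases vge2_cases hv with h | h | h | h | h
      · exact Or.inl ⟨h, fun e => hvK (e ▸ hxK)⟩
      · exact absurd h h1
      · exact Or.inr ⟨h, h1⟩
      · exact absurd h h1
      · exact Or.inr ⟨h, h1⟩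
  rcases hy with hy | hy
  · exact no_aug_global hs hμ hH hna hx hc hm hn fun v hv =>
      (he v hv).resolve_right fun h => h.2 (h.1.trans hy)
  · exact vge2_unreach hs hμ hH hna hy hx hc hm hn fun v hv => (he v hv).imp_right And.left

/-- The case of the ends `b, b'`. -/
theorem vge2_caseB (hs : Sym N) (hμ : Mat N μ) (hH : ∀ h, H h → μ h = h)
    (hna : NoAug N μ H s') (hb : Oe N μ H s b) (hb1 : μ b ≠ b) (hb1' : μ b' ≠ b')
    (hb2 : ¬ Oe N μ H s' (μ b)) (hb2' : ¬ Oe N μ H s' (μ b'))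
    {ν : ℕ → ℕ} (hν : Mat N ν) {K : Finset ℕ} (hK : K.card + s + 5 ≤ s')
    (hxK : b ∈ K) (hyK : b' ∈ K)
    (hcl : ∀ v ∈ K, cut2 μ b b' v ∈ K ∧ ν v ∈ K ∧ ν v ≠ v ∧
      (cut2 μ b b' v = v → v = b ∨ v = b')) : False := by
  obtain ⟨h, K₁, κ, hh, hK₁, hhK, hbK, hκ, hnκ, hcK, hκe⟩ :=
    oe_global hs hμ hH (vge2_mono hna (by omega)) hb
  set ν' := glue K ν (cut2 μ b b') with hν'
  have hm : Mat N ν' := vge2_glue (mat_cut2 hμ b b') hν fun v hv => ⟨(hcl v hv).1, (hcl v hv).2.1⟩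
  have e1 : ∀ v, μ v = v → ν' v = v := fun v hv => by
    have h1 : v ∉ K := fun h1 => by
      rcases (hcl v h1).2.2.2 (vge2_fix hv) with h2 | h2
      · exact hb1 (h2 ▸ hv)
      · exact hb1' (h2 ▸ hv)
    rw [hν', vge2_gout h1, vge2_fix hv]
  have e2 : ∀ v, ν' v = v → μ v = v ∨ v = μ b ∨ v = μ b' := fun v hv => by
    by_cases hvK : v ∈ K
    · rw [hν', vge2_gin hvK] at hv
      exact absurd hv (hcl v hvK).2.2.1
    · rw [hν', vge2_gout hvK] at hv
      rcases vge2_cases hv with h1 | h1 | h1 | h1 | h1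
      · exact Or.inl h1
      · exact absurd (h1 ▸ hxK) hvK
      · exact Or.inr (Or.inl h1)
      · exact absurd (h1 ▸ hyK) hvK
      · exact Or.inr (Or.inr h1)
  set K₂ := insert (μ b') (K ∪ K₁) with hK₂
  have hout : ∀ v, v ∉ K₂ → ν' v = μ v ∧ κ v = μ v ∧ v ≠ b ∧ v ≠ μ b := fun v hv => by
    rw [hK₂, Finset.mem_insert, Finset.mem_union, not_or, not_or] at hv
    have h1 : v ≠ b := fun e => hv.2.1 (e ▸ hxK)
    have h2 : v ≠ μ b := fun e => hv.2.2 (e ▸ hcK b hbK)
    refine ⟨?_, hnκ v hv.2.2, h1, h2⟩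
    rw [hν', vge2_gout hv.2.1, vge2_out]
    rintro (e | e | e | e)
    · exact h1 e
    · exact h2 e
    · exact hv.2.1 (e ▸ hyK)
    · exact hv.1 e
  have hc : (insert h K₂).card ≤ s' := by
    have h1 := Finset.card_insert_le h K₂
    have h2 := Finset.card_insert_le (μ b') (K ∪ K₁)
    have h3 := Finset.card_union_le K K₁
    rw [← hK₂] at h2
    omega
  have hhK₂ : h ∈ K₂ := Finset.mem_insert_of_mem (Finset.mem_union_right _ hhK)
  obtain ⟨K', z, hsub, hcon, hz, hcl', hcase⟩ := switch (K := K₂) hs hm hκ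
    (fun v hv => (hout v hv).2.1.trans (hout v hv).1.symm) (e1 h (hH h hh))
  rw [Finset.insert_eq_of_mem hhK₂] at hsub
  have hl : Mat N (glue K' κ ν') := vge2_glue hm hκ hcl'
  have hnl : Near μ (glue K' κ ν') K₂ := fun v hv => by
    rw [vge2_gout fun e => hv (hsub e), (hout v hv).1]
  have hle : ∀ v, v ∉ K' → glue K' κ ν' v = v → (μ v = v ∧ v ≠ h) ∨ v = μ b ∨ v = μ b' :=
    fun v hv e => by
      rw [vge2_gout hv] at e
      exact (e2 v e).imp_left fun e' => ⟨e', fun e'' => hv (e'' ▸ hcon.1)⟩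
  rcases hcase with ⟨hz1, hz2⟩ | ⟨hz1, hz2, hz3⟩
  · have hzb : z = b := by
      rcases (hκe z).1 hz1 with h1 | h1
      · exact absurd ((hz2 z hz).2 (e1 z h1.1)) h1.2
      · exact h1
    subst hzb
    have h1 : glue K' κ ν' z = z := by rw [vge2_gin hz, hz1]
    have h2 : ν' (μ z) = μ z := by
      have h3 : μ z ∉ K := fun h3 => by
        rcases (hcl _ h3).2.2.2 (vge2_in (Or.inr (Or.inl rfl))) with h4 | h4
        · exact hb1 h4
        · refine hb2' ?_
          rw [← h4, hμ.1]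
          exact oe_mono (by omega) (fun _ e => e) hb
      rw [hν', vge2_gout h3, vge2_in (Or.inr (Or.inl rfl))]
    have h3 : μ z ∉ K' := fun h3 => by
      have h4 := (hz2 _ h3).2 h2
      have h5 := hH h hh
      rw [← h4, hμ.1] at h5
      exact hb1 h5.symm
    have h4 : glue K' κ ν' (μ z) = μ z := by rw [vge2_gout h3, h2]
    have hl' : Mat N (glue {z, μ z} μ (glue K' κ ν')) := by
      refine vge2_glue hl hμ fun v hv => ?_
      rcases Finset.mem_insert.1 hv with e | e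
      · rw [e, h1]
        simp
      · rw [Finset.mem_singleton.1 e, h4, hμ.1]
        simp
    refine vge2_unreach hs hμ hH hna hb2' hh hc hl' (fun v hv => ?_) fun v hv => ?_
    · rw [vge2_gout, hnl v hv]
      simp only [Finset.mem_insert, Finset.mem_singleton, not_or]
      exact (hout v hv).2.2
    · by_cases e : v ∈ ({z, μ z} : Finset ℕ)
      · rw [vge2_gin e] at hv
        rcases Finset.mem_insert.1 e with e | e
        · exact absurd (e ▸ hv) hb1
        · rw [Finset.mem_singleton.1 e, hμ.1] at hv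
          exact absurd hv.symm hb1
      · rw [vge2_gout e] at hv
        simp only [Finset.mem_insert, Finset.mem_singleton, not_or] at e
        have h5 : v ∉ K' := fun h5 => by
          rw [vge2_gin h5] at hv
          exact e.1 ((hz2 v h5).1 hv)
        rcases hle v h5 hv with h6 | h6 | h6
        · exact Or.inl h6
        · exact absurd h6 e.2
        · exact Or.inr h6
  · have hk : ∀ v, glue K' κ ν' v = v → v ∉ K' := fun v hv e => by
      rw [vge2_gin e] at hv
      exact (hz3 v e).1 hv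
    rcases e2 z hz1 with h1 | h1 | h1
    · exact (hz3 z hz).1 ((hκe z).2 (Or.inl ⟨h1, hz2⟩))
    · refine vge2_unreach hs hμ hH hna hb2' hh hc hl hnl fun v hv => ?_
      rcases hle v (hk v hv) hv with h6 | h6 | h6
      · exact Or.inl h6
      · exact absurd (by rw [h6, ← h1]; exact hz) (hk v hv)
      · exact Or.inr h6
    · refine vge2_unreach hs hμ hH hna hb2 hh hc hl hnl fun v hv => ?_
      rcases hle v (hk v hv) hv with h6 | h6 | h6
      · exact Or.inl h6
      · exact Or.inr h6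
      · exact absurd (by rw [h6, ← h1]; exact hz) (hk v hv)

/-- `cut2 μ b b'` has no short augmentation between nodes of `H`, `b`, `b'` that avoids the mates
of `b, b'`.  Cases for the ends `x, y`: if one of them is in `H`, restore the deleted pairs that
are not ends; this gives an augmentation of `μ` or exposes the mate of the other end, against
`strong`.  If the ends are `b, b'`, both matched, let `ν'` be the matching exposing both mates, let
`κ` expose `b` (`oe_global`), and apply `switch` to `ν', κ` from `h`: the path ends at `μ b`, at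
`μ b'` or at `b`; in each case one of the mates is reachable. -/
theorem no_aug2 (hs : Sym N) (hi : Irr N) (hμ : Mat N μ) (hH : ∀ h, H h → μ h = h)
    (hna : NoAug N μ H s') (hb : strong N μ H s s' b) (hb' : strong N μ H s s' b')
    {ν : ℕ → ℕ} (hν : Mat N ν) {K : Finset ℕ} (hK : K.card + s + 5 ≤ s') {x y : ℕ} (hxy : x ≠ y)
    (hx : H x ∨ x = b ∨ x = b') (hy : H y ∨ y = b ∨ y = b') (hxK : x ∈ K) (hyK : y ∈ K)
    (hcl : ∀ v ∈ K, cut2 μ b b' v ∈ K ∧ ν v ∈ K ∧ ν v ≠ v ∧
      (cut2 μ b b' v = v → v = x ∨ v = y))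
    (hx' : cut2 μ b b' x = x) (hy' : cut2 μ b b' y = y) : False := by
  have hw : ∀ z, (H z ∨ z = b ∨ z = b') → μ z = z ∨ ¬ Oe N μ H s' (μ z) := by
    rintro z (h | rfl | rfl)
    · exact Or.inl (hH z h)
    · exact hb.2
    · exact hb'.2
  by_cases h1 : H x
  · exact vge2_caseA hs hμ hH hna hν (by omega) h1 (hw y hy) hxK hyK hcl
  by_cases h2 : H y
  · exact vge2_caseA hs hμ hH hna hν (by omega) h2 (hw x hx) hyK hxK
      fun v hv => ⟨(hcl v hv).1, (hcl v hv).2.1, (hcl v hv).2.2.1,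
        fun e => ((hcl v hv).2.2.2 e).symm⟩
  have hna0 : NoAug N μ H s := vge2_mono hna (by omega)
  have key : ¬ H b → ¬ H b' → b ∈ K → b' ∈ K →
      (∀ v, v = x ∨ v = y → v = b ∨ v = b') → False := fun n1 n2 m1 m2 e => by
    have a1 : μ b ≠ b := fun e => n1 (oe_exposed hna0 hb.1 e)
    have a2 : μ b' ≠ b' := fun e => n2 (oe_exposed hna0 hb'.1 e)
    exact vge2_caseB hs hμ hH hna hb.1 a1 a2 (hb.2.resolve_left a1) (hb'.2.resolve_left a2) hν hK
      m1 m2 fun v hv => ⟨(hcl v hv).1, (hcl v hv).2.1, (hcl v hv).2.2.1,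
        fun e' => e v ((hcl v hv).2.2.2 e')⟩
  rcases hx.resolve_left h1 with rfl | rfl <;> rcases hy.resolve_left h2 with rfl | rfl
  · exact hxy rfl
  · exact key h1 h2 hxK hyK fun _ e => e
  · exact key h2 h1 hyK hxK fun _ e => e.symm
  · exact hxy rfl

/-- Every reachable `t` can be exposed in `cut2 μ b b'` instead of a node of `H`, `b` or `b'`.
Let `κ` expose `t` (`oe_global`) and apply `switch` to `κ` and `cut2 μ b b'` from `t`; the other
end is exposed by `cut2 μ b b'` and is not a mate of `b, b'` (such a mate would be reachable). -/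
theorem tail2 (hs : Sym N) (hi : Irr N) (hμ : Mat N μ) (hH : ∀ h, H h → μ h = h)
    (hna : NoAug N μ H s') (hss : s + 5 ≤ s') (hb : strong N μ H s s' b)
    (hb' : strong N μ H s s' b') {t : ℕ} (ht : Oe N μ H s t) :
    ∃ (K : Finset ℕ) (κ : ℕ → ℕ) (z : ℕ), K.card ≤ s + 4 ∧ Mat N κ ∧ Near (cut2 μ b b') κ K ∧
      (H z ∨ z = b ∨ z = b') ∧ cut2 μ b b' z = z ∧ t ∈ K ∧ z ∈ K ∧
      ∀ v, κ v = v ↔ (cut2 μ b b' v = v ∧ v ≠ z) ∨ v = t := by
  have hna0 : NoAug N μ H s := vge2_mono hna (by omega)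
  obtain ⟨h, K₁, κ, hh, hK₁, hhK, htK, hκ, hnκ, -, hκe⟩ := oe_global hs hμ hH hna0 ht
  set K₂ := K₁ ∪ {b, μ b, b', μ b'} with hK₂
  have hc : K₂.card ≤ s + 4 := by
    have h1 := Finset.card_union_le K₁ {b, μ b, b', μ b'}
    have h2 : ({b, μ b, b', μ b'} : Finset ℕ).card ≤ 4 := Finset.card_le_four
    rw [← hK₂] at h1
    omega
  have hout : ∀ v, v ∉ K₂ → cut2 μ b b' v = μ v ∧ κ v = μ v := fun v hv => by
    rw [hK₂, Finset.mem_union, not_or] at hv
    refine ⟨vge2_out fun e => hv.2 ?_, hnκ v hv.1⟩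
    simpa only [Finset.mem_insert, Finset.mem_singleton] using e
  have hm := mat_cut2 hμ b b'
  have hκt : κ t = t := (hκe t).2 (Or.inr rfl)
  obtain ⟨K', z, hsub, hcon, hz, hcl', hcase⟩ := switch (K := K₂) hs hκ hm
    (fun v hv => (hout v hv).1.trans (hout v hv).2.symm) hκt
  rw [Finset.insert_eq_of_mem (Finset.mem_union_left _ htK)] at hsub
  rcases hcase with ⟨hz1, hz2⟩ | ⟨hz1, hz2, hz3⟩
  · have hmate : ¬ ¬ Oe N μ H s' z := fun hu => by
      refine vge2_unreach (K := K₂) hs hμ hH hna hu hh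
        ((Finset.card_insert_le _ _).trans (by omega)) (vge2_glue hκ hm hcl')
        (fun v hv => ?_) fun v hv => ?_
      · rw [vge2_gout fun e => hv (hsub e), (hout v hv).2]
      · by_cases e : v ∈ K'
        · rw [vge2_gin e] at hv
          exact Or.inr ((hz2 v e).1 hv)
        · rw [vge2_gout e] at hv
          rcases (hκe v).1 hv with h1 | h1
          · exact Or.inl h1
          · exact absurd (h1 ▸ hcon.1) e
    refine ⟨K', glue K' κ (cut2 μ b b'), z, (Finset.card_le_card hsub).trans hc,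
      vge2_glue hm hκ fun v hv => (hcl' v hv).symm, fun v hv => vge2_gout hv, ?_, hz1, hcon.1,
      hz, fun v => ?_⟩
    · rcases vge2_cases hz1 with h1 | h1 | h1 | h1 | h1
      · left
        by_cases e : z = h
        · exact e ▸ hh
        · have h2 : z = t := (hz2 z hz).2 ((hκe z).2 (Or.inl ⟨h1, e⟩))
          exact oe_exposed hna0 (h2 ▸ ht) h1
      · exact Or.inr (Or.inl h1)
      · rcases hb.2 with h2 | h2
        · exact Or.inr (Or.inl (h1.trans h2))
        · exact absurd (h1 ▸ h2) hmate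
      · exact Or.inr (Or.inr h1)
      · rcases hb'.2 with h2 | h2
        · exact Or.inr (Or.inr (h1.trans h2))
        · exact absurd (h1 ▸ h2) hmate
    · by_cases e : v ∈ K'
      · rw [vge2_gin e]
        refine ⟨fun h1 => Or.inr ((hz2 v e).2 h1), ?_⟩
        rintro (h1 | h1)
        · exact absurd ((hz2 v e).1 h1.1) h1.2
        · rw [h1, hκt]
      · rw [vge2_gout e]
        refine ⟨fun h1 => Or.inl ⟨h1, fun h2 => e (h2 ▸ hz)⟩, ?_⟩
        rintro (h1 | h1)
        · exact h1.1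
        · exact absurd (h1 ▸ hcon.1) e
  · rcases (hκe z).1 hz1 with h1 | h1
    · exact absurd (vge2_fix h1.1) (hz3 z hz).1
    · exact absurd h1 hz2

end Pool.Agent.Lib.MP_459a07_lc.V
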