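import Pool.Agent.Lib.MP_459a07_lc.VGal

set_option autoImplicit false

namespace Pool.Agent.Lib.MP_459a07_lc.V

open Classical

variable {N : ℕ → Finset ℕ} {μ : ℕ → ℕ} {H : ℕ → Prop} {s s' p σ a b b' u v : ℕ}

theorem vge3_ball {O : ℕ → Prop} (hb : O b) (hu : u ∈ ball (NO N O) b p) : O u := by
  induction p generalizing u with
  | zero =>
    have e : u = b := by simpa [ball] using hu
    rw [e]
    exact hb
  | succ p ih =>
    rcases mem_ball_succ.1 hu with h | ⟨a, _, h⟩
    · exact ih h
    · unfold NO at h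
      split_ifs at h
      · exact (Finset.mem_filter.1 h).2
      · simp at h

theorem vge3_cut_fix {x : ℕ} (h : cut2 μ b b x = x) : x = b ∨ x = μ b ∨ μ x = x := by
  unfold cut2 at h
  split_ifs at h with h1
  · tauto
  · tauto

theorem vge3_cut_of_fix {x : ℕ} (h : μ x = x) : cut2 μ b b x = x := by
  unfold cut2
  split_ifs
  · rfl
  · exact h

theorem vge3_cut_ne {x : ℕ} (h1 : x ≠ b) (h2 : x ≠ μ b) : cut2 μ b b x = μ x := by
  unfold cut2
  rw [if_neg (by tauto)]

theorem vge3_noaug (hna : NoAug N μ H s') (hv : H v) (hs : s ≤ s') :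
    NoAug N μ (fun x => x = v) s := by
  intro h z K f hh hK hf
  have e : h = v := hh
  exact hna h z K f (e ▸ hv) (hK.trans hs) hf

theorem strong_uniq (hs : Sym N) (hi : Irr N) (hμ : Mat N μ) (hH : ∀ h, H h → μ h = h)
    (hna : NoAug N μ H s') (hb : strong N μ H s s' b) (hb' : strong N μ H s s' b')
    (hp : (p + 2) * (s + 5) ≤ s') (hbb : b' ∈ ball (NO N (Oe N μ H s)) b p) : b = b' := by
  refine gallai hs hi hμ hH hna hb hb' p (K := ∅) (mat_cut2 hμ b b') (fun _ _ => rfl) le_rfl
    (fun x h1 h2 => absurd h1 h2) ?_ hb.1 hbb ?_ ?_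
  · rw [Finset.card_empty]
    nlinarith
  · simp [cut2]
  · simp [cut2]

/-- Nodes close to a strong source that is reachable from `v` are reachable from `v`.  `tail2` with
`b' = b` and `gallai` give a matching `κ` that exposes `u` instead of `b` in `cut2 μ b b`.  If
`μ b = b` then `b = v` (`oe_exposed`).  Otherwise apply `switch` to `κ` and the matching that
moves `v` to `b`, from `v`; the path ends at `μ b`, at `u` (impossible, `μ b` would be reachable)
or at `b` (add the pair `b, μ b`). -/
theorem own_step (hs : Sym N) (hi : Irr N) (hμ : Mat N μ) (hH : ∀ h, H h → μ h = h)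
    (hna : NoAug N μ H s') (hv : H v) (hb : strong N μ H s s' b)
    (hp : (p + 3) * (s + 5) ≤ s') (hσ : σ + s + 5 ≤ s') (ho : Oe N μ (fun x => x = v) σ b)
    (hu : u ∈ ball (NO N (Oe N μ H s)) b p) : Oe N μ (fun x => x = v) (σ + s + 5) u := by
  have hss : s + 5 ≤ s' := by omega
  have huO : Oe N μ H s u := vge3_ball hb.1 hu
  have hvv : μ v = v := hH v hv
  have hH' : ∀ h, h = v → μ h = h := fun h e => e ▸ hvv
  by_cases hub : b = u
  · rw [← hub]
    exact oe_mono (by omega) (fun _ h => h) ho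
  obtain ⟨K, κ, z, hK, hκ, hn, hz, hcz, huK, hzK, hfix⟩ := tail2 hs hi hμ hH hna hss hb hb huO
  have hzb : z = b := by
    by_contra hzb
    apply hub
    refine gallai hs hi hμ hH hna hb hb p hκ hn ?_ ?_ ?_ hb.1 hu ?_ ?_
    · have h1 : (K.filter fun x => κ x = x) ⊆
          insert u ((K.filter fun x => cut2 μ b b x = x).erase z) := by
        intro x hx
        obtain ⟨hxK, hx⟩ := Finset.mem_filter.1 hx
        rcases (hfix x).1 hx with ⟨h1, h2⟩ | h1
        · exact Finset.mem_insert_of_mem
            (Finset.mem_erase.2 ⟨h2, Finset.mem_filter.2 ⟨hxK, h1⟩⟩)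
        · rw [h1]
          exact Finset.mem_insert_self _ _
      have h2 := Finset.card_le_card h1
      have h3 := Finset.card_insert_le u ((K.filter fun x => cut2 μ b b x = x).erase z)
      have h4 : z ∈ K.filter fun x => cut2 μ b b x = x := Finset.mem_filter.2 ⟨hzK, hcz⟩
      have h5 := Finset.card_erase_add_one h4
      omega
    · intro x h1 h2
      have e : x = z := by
        by_contra e
        exact h2 ((hfix x).2 (Or.inl ⟨h1, e⟩))
      rw [e]
      exact hz
    · nlinarith
    · exact (hfix b).2 (Or.inl ⟨by simp [cut2], fun e => hzb e.symm⟩)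
    · exact (hfix u).2 (Or.inr rfl)
  rw [hzb] at hfix hzK
  have hfix' : ∀ x, κ x = x → (μ x = x ∧ x ≠ b) ∨ x = μ b ∨ x = u := by
    intro x hx
    rcases (hfix x).1 hx with ⟨h1, h2⟩ | h1
    · rcases vge3_cut_fix h1 with h | h | h
      · exact absurd h h2
      · exact Or.inr (Or.inl h)
      · exact Or.inl ⟨h, h2⟩
    · exact Or.inr (Or.inr h1)
  by_cases hbb : μ b = b
  · have hbv : b = v :=
      oe_exposed (H := fun x => x = v) (vge3_noaug hna hv (by omega)) ho hbb
    have hcard : (insert v K).card ≤ s + 5 := (Finset.card_insert_le v K).trans (by omega)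
    refine oe_mono (by omega) (fun _ h => h) (oe_of_global hs hμ hH' (vge3_noaug hna hv le_rfl)
      (h := v) (K := K) (ν := κ) rfl (by omega) hκ ?_ ?_)
    · intro x hx
      have hxb : x ≠ b := fun e => hx (e ▸ hzK)
      rw [hn x hx, vge3_cut_ne hxb (by rw [hbb]; exact hxb)]
    · intro x hx
      rcases (hfix x).1 hx with ⟨h1, h2⟩ | h1
      · left
        rw [vge3_cut_ne h2 (by rw [hbb]; exact h2)] at h1
        exact ⟨h1, hbv ▸ h2⟩
      · exact Or.inr h1
  have hnb : ¬ Oe N μ H s' (μ b) := hb.2.resolve_left hbb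
  obtain ⟨h, K1, ν, hh, hK1, hvK1, hbK1, hν, hn1, hcl, hfν⟩ :=
    oe_global hs hμ hH' (vge3_noaug hna hv (by omega)) ho
  have hh' : h = v := hh
  rw [hh'] at hvK1 hfν
  have hbv : v ≠ b := fun e => hbb (e ▸ hvv)
  have hκv : κ v = v := (hfix v).2 (Or.inl ⟨vge3_cut_of_fix hvv, hbv⟩)
  have hκμ : ∀ x, x ∉ K ∪ K1 → κ x = μ x := by
    intro x hx
    rw [Finset.mem_union, not_or] at hx
    have e1 : x ≠ b := fun e => hx.2 (by rw [e]; exact hbK1)
    have e2 : x ≠ μ b := fun e => hx.2 (by rw [e]; exact hcl b hbK1)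
    rw [hn x hx.1, vge3_cut_ne e1 e2]
  have hnear : Near κ ν (K ∪ K1) := by
    intro x hx
    rw [hκμ x hx, hn1 x fun h => hx (Finset.mem_union_right _ h)]
  have hins : insert v (K ∪ K1) = K ∪ K1 :=
    Finset.insert_eq_of_mem (Finset.mem_union_right _ hvK1)
  have hcard : (insert v (K ∪ K1)).card ≤ σ + s + 4 := by
    rw [hins]
    exact (Finset.card_union_le K K1).trans (by omega)
  obtain ⟨K', z', hsub, hconn, hz', hcl', hcase⟩ := switch hs hκ hν hnear hκv
  rw [hins] at hsub
  have hvK' : v ∈ K' := hconn.1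
  have hρ : Mat N (glue K' ν κ) :=
    mat_glue hκ fun x hx => ⟨(hcl' x hx).1, (hcl' x hx).2, hν.1 x, hν.2 x⟩
  have hρin : ∀ x, x ∈ K' → glue K' ν κ x = ν x := fun x hx => if_pos hx
  have hρout : ∀ x, x ∉ K' → glue K' ν κ x = κ x := fun x hx => if_neg hx
  have hρn : Near μ (glue K' ν κ) (K ∪ K1) := by
    intro x hx
    rw [hρout x fun h => hx (hsub h), hκμ x hx]
  rcases hcase with ⟨h1, h2⟩ | ⟨h1, h2, h3⟩
  · have hz'b : z' = b := by
      rcases (hfν z').1 h1 with ⟨h3, h4⟩ | h3
      · by_contra e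
        exact h4 ((h2 z' hz').2 ((hfix z').2 (Or.inl ⟨vge3_cut_of_fix h3, e⟩)))
      · exact h3
    rw [hz'b] at h1 h2 hz'
    have hκb : κ (μ b) = μ b := (hfix (μ b)).2 (Or.inl ⟨by simp [cut2], hbb⟩)
    have hmb : μ b ∉ K' := by
      intro h
      have e := (h2 _ h).2 hκb
      apply hbv
      rw [← hμ.1 b, e, hvv]
    have hρ' : Mat N (glue {b, μ b} μ (glue K' ν κ)) := by
      apply mat_glue hρ
      intro x hx
      refine ⟨?_, ?_, hμ.1 x, hμ.2 x⟩
      · rcases Finset.mem_insert.1 hx with e | e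
        · rw [e, hρin b hz', h1]
          exact Finset.mem_insert_self _ _
        · rw [Finset.mem_singleton.1 e, hρout _ hmb, hκb]
          simp
      · rcases Finset.mem_insert.1 hx with e | e
        · rw [e]
          simp
        · rw [Finset.mem_singleton.1 e, hμ.1 b]
          exact Finset.mem_insert_self _ _
    refine oe_mono (by omega) (fun _ h => h) (oe_of_global hs hμ hH' (vge3_noaug hna hv le_rfl)
      (h := v) (K := K ∪ K1) rfl (by omega) hρ' ?_ ?_)
    · intro x hx
      unfold glue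
      split_ifs with e1 e2
      · rfl
      · exact absurd (hsub e2) hx
      · exact hκμ x hx
    · intro x hx
      by_cases e1 : x ∈ ({b, μ b} : Finset ℕ)
      · exfalso
        have e2 : μ x = x := by
          have e3 : glue {b, μ b} μ (glue K' ν κ) x = μ x := if_pos e1
          rw [← e3]
          exact hx
        rcases Finset.mem_insert.1 e1 with e | e
        · exact hbb (e ▸ e2)
        · rw [Finset.mem_singleton.1 e, hμ.1 b] at e2
          exact hbb e2.symm
      · have e3 : glue {b, μ b} μ (glue K' ν κ) x = glue K' ν κ x := if_neg e1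
        rw [e3] at hx
        rw [Finset.mem_insert, Finset.mem_singleton, not_or] at e1
        have hxK : x ∉ K' := by
          intro h
          rw [hρin x h] at hx
          exact e1.1 ((h2 x h).1 hx)
        rw [hρout x hxK] at hx
        rcases hfix' x hx with h | h | h
        · exact Or.inl ⟨h.1, fun e => hxK (e ▸ hvK')⟩
        · exact absurd h e1.2
        · exact Or.inr h
  · have hρf : ∀ x, glue K' ν κ x = x →
        (μ x = x ∧ x ≠ v) ∨ (x ≠ z' ∧ (x = μ b ∨ x = u)) := by
      intro x hx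
      have hxK : x ∉ K' := by
        intro h
        rw [hρin x h] at hx
        exact (h3 x h).1 hx
      rw [hρout x hxK] at hx
      rcases hfix' x hx with h | h
      · exact Or.inl ⟨h.1, fun e => hxK (e ▸ hvK')⟩
      · exact Or.inr ⟨fun e => hxK (e ▸ hz'), h⟩
    rcases hfix' z' h1 with h | h | h
    · exact absurd ((hfν z').2 (Or.inl ⟨h.1, h2⟩)) (h3 z' hz').1
    · refine oe_mono (by omega) (fun _ h => h) (oe_of_global hs hμ hH' (vge3_noaug hna hv le_rfl)
        (h := v) (K := K ∪ K1) rfl (by omega) hρ hρn ?_)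
      intro x hx
      rcases hρf x hx with e | ⟨e1, e2 | e2⟩
      · exact Or.inl e
      · exact absurd (e2.trans h.symm) e1
      · exact Or.inr e2
    · exfalso
      apply hnb
      refine oe_mono (by omega) (fun _ h => h) (oe_of_global hs hμ hH hna
        (h := v) (K := K ∪ K1) hv (by omega) hρ hρn ?_)
      intro x hx
      rcases hρf x hx with e | ⟨e1, e2 | e2⟩
      · exact Or.inl e
      · exact Or.inr e2
      · exact absurd (e2.trans h.symm) e1

/-- A closed small component is odd: `μ` is an involution of it with the base removed. -/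
theorem comp_odd (hs : Sym N) (hi : Irr N) (hμ : Mat N μ) (hH : ∀ h, H h → μ h = h)
    (hna : NoAug N μ H s') (hb : strong N μ H s s' b) (hp : (p + 2) * (s + 5) ≤ s')
    (hc : (ball (NO N (Oe N μ H s)) b p).card ≤ p)
    (hst : ∀ u ∈ ball (NO N (Oe N μ H s)) b p, Oe N μ H s' (μ u) → Oe N μ H s (μ u)) :
    Odd (ball (NO N (Oe N μ H s)) b p).card := by
  have hss : s ≤ s' := by nlinarith
  have hcl := ball_closed hc
  have hbC : b ∈ ball (NO N (Oe N μ H s)) b p := self_mem_ball
  have key : ∀ u ∈ (ball (NO N (Oe N μ H s)) b p).erase b,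
      μ u ≠ u ∧ μ u ∈ (ball (NO N (Oe N μ H s)) b p).erase b := by
    intro u hu
    obtain ⟨hub, hu⟩ := Finset.mem_erase.1 hu
    have huO : Oe N μ H s u := vge3_ball hb.1 hu
    have hns : ¬ (μ u = u ∨ ¬ Oe N μ H s' (μ u)) := fun h =>
      hub (strong_uniq hs hi hμ hH hna hb ⟨huO, h⟩ hp hu).symm
    rw [not_or, not_not] at hns
    refine ⟨hns.1, Finset.mem_erase.2 ⟨fun e => ?_, hcl u hu ?_⟩⟩
    · have e' : μ b = u := by rw [← e, hμ.1 u]
      rcases hb.2 with h | h
      · exact hub (e'.symm.trans h)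
      · rw [e'] at h
        exact h (oe_mono hss (fun _ h => h) huO)
    · unfold NO
      rw [if_pos huO]
      exact Finset.mem_filter.2 ⟨hμ.2 u hns.1, hst u hu hns.2⟩
  have h1 := fix_parity (μ := μ) (S := (ball (NO N (Oe N μ H s)) b p).erase b)
    fun u hu => ⟨(key u hu).2, hμ.1 u⟩
  rw [Finset.filter_eq_empty_iff.2 fun u hu => (key u hu).1, Finset.card_empty] at h1
  have h2 := Finset.card_erase_add_one hbC
  rw [Nat.odd_iff]
  omega

end Pool.Agent.Lib.MP_459a07_lc.V
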