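import Pool.Agent.Lib.MP_459a07_lc.VGE2

set_option autoImplicit false

namespace Pool.Agent.Lib.MP_459a07_lc.V

open Classical

variable {N : ℕ → Finset ℕ} {μ : ℕ → ℕ} {H : ℕ → Prop} {s s' p σ a b b' u v : ℕ}

theorem vgal_ext {μ' ν : ℕ → ℕ} {K L : Finset ℕ} (hn : Near μ' ν K) (hKL : K ⊆ L)
    (hc : (K.filter fun v => ν v = v).card ≤ (K.filter fun v => μ' v = v).card) :
    (L.filter fun v => ν v = v).card ≤ (L.filter fun v => μ' v = v).card := by
  have key : ∀ f : ℕ → ℕ, (L.filter fun v => f v = v).card =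
      (K.filter fun v => f v = v).card + ((L \ K).filter fun v => f v = v).card := by
    intro f
    rw [← Finset.card_union_of_disjoint, ← Finset.filter_union, Finset.union_sdiff_of_subset hKL]
    exact Finset.disjoint_filter_filter Finset.disjoint_sdiff
  have h2 : ((L \ K).filter fun v => ν v = v) = ((L \ K).filter fun v => μ' v = v) := by
    apply Finset.filter_congr
    intro v hv
    rw [hn v (Finset.mem_sdiff.1 hv).2]
  rw [key ν, key μ', h2]
  omega

theorem vgal_swap {f g : ℕ → ℕ} {L : Finset ℕ} {x z : ℕ} (hz : z ∈ L) (hgz : g z = z)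
    (h : ∀ v ∈ L, f v = v → (g v = v ∧ v ≠ z) ∨ v = x) :
    (L.filter fun v => f v = v).card ≤ (L.filter fun v => g v = v).card := by
  have h1 : (L.filter fun v => f v = v) ⊆ insert x ((L.filter fun v => g v = v).erase z) := by
    intro v hv
    obtain ⟨hvL, hfv⟩ := Finset.mem_filter.1 hv
    rcases h v hvL hfv with ⟨h1, h2⟩ | h1
    · exact Finset.mem_insert_of_mem (Finset.mem_erase.2 ⟨h2, Finset.mem_filter.2 ⟨hvL, h1⟩⟩)
    · rw [h1]; exact Finset.mem_insert_self _ _
  have h2 := Finset.card_le_card h1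
  have h3 := Finset.card_insert_le x ((L.filter fun v => g v = v).erase z)
  have hzm : z ∈ (L.filter fun v => g v = v) := Finset.mem_filter.2 ⟨hz, hgz⟩
  have h4 := Finset.card_erase_of_mem hzm
  have h5 := Finset.card_pos.2 ⟨z, hzm⟩
  omega

theorem vgal_lt {f g : ℕ → ℕ} {L : Finset ℕ} {x : ℕ} (hx : x ∈ L) (hgx : g x = x)
    (hfx : f x ≠ x) (h : ∀ v ∈ L, f v = v → g v = v) :
    (L.filter fun v => f v = v).card < (L.filter fun v => g v = v).card := by
  apply Finset.card_lt_card
  refine ⟨fun v hv => ?_, fun hsub => ?_⟩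
  · obtain ⟨hvL, hfv⟩ := Finset.mem_filter.1 hv
    exact Finset.mem_filter.2 ⟨hvL, h v hvL hfv⟩
  · exact hfx (Finset.mem_filter.1 (hsub (Finset.mem_filter.2 ⟨hx, hgx⟩))).2

theorem vgal_glue {f g : ℕ → ℕ} {K : Finset ℕ} (hf : Mat N f) (hg : Mat N g)
    (hK : ∀ v ∈ K, g v ∈ K ∧ f v ∈ K) : Mat N (glue K f g) :=
  mat_glue hg fun v hv => ⟨(hK v hv).1, (hK v hv).2, hf.1 v, hf.2 v⟩

/-- No admissible matching exposes fewer nodes. -/
theorem vgal_few (hs : Sym N) (hi : Irr N) (hμ : Mat N μ) (hH : ∀ h, H h → μ h = h)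
    (hna : NoAug N μ H s') (hb : strong N μ H s s' b) (hb' : strong N μ H s s' b')
    {ν : ℕ → ℕ} {K : Finset ℕ} (hν : Mat N ν) (hn : Near (cut2 μ b b') ν K)
    (hc : (K.filter fun v => ν v = v).card < (K.filter fun v => cut2 μ b b' v = v).card)
    (hk : ∀ v, cut2 μ b b' v = v → ν v ≠ v → H v ∨ v = b ∨ v = b')
    (hK : K.card + s + 5 ≤ s') : False := by
  obtain ⟨K', x, y, hsub, hxy, hx, hy, ex, ey, hcl⟩ := exists_aug hs (mat_cut2 hμ b b') hν hn hc
  have hcard := Finset.card_le_card hsub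
  exact no_aug2 hs hi hμ hH hna hb hb' hν (K := K') (by omega) hxy
    (hk x ex (hcl x hx).2.2.1) (hk y ey (hcl y hy).2.2.1) hx hy hcl ex ey

/-- A reachable node exposed by `cut2` is in `H` or one of `b, b'`. -/
theorem vgal_reach (hna : NoAug N μ H s') (hb : strong N μ H s s' b) (hb' : strong N μ H s s' b')
    (hss : s ≤ s') {x : ℕ} (hx : Oe N μ H s x) (ex : cut2 μ b b' x = x) :
    H x ∨ x = b ∨ x = b' := by
  have hx' : Oe N μ H s' x := oe_mono hss (fun _ h => h) hx
  by_cases h : x = b ∨ x = μ b ∨ x = b' ∨ x = μ b'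
  · rcases h with h | h | h | h
    · exact Or.inr (Or.inl h)
    · rcases hb.2 with h2 | h2
      · exact Or.inr (Or.inl (h.trans h2))
      · exact absurd (h ▸ hx') h2
    · exact Or.inr (Or.inr h)
    · rcases hb'.2 with h2 | h2
      · exact Or.inr (Or.inr (h.trans h2))
      · exact absurd (h ▸ hx') h2
  · simp only [cut2, if_neg h] at ex
    exact Or.inl (oe_exposed hna hx' ex)

/-- The case of adjacent nodes. -/
theorem vgal_adj (hs : Sym N) (hi : Irr N) (hμ : Mat N μ) (hH : ∀ h, H h → μ h = h)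
    (hna : NoAug N μ H s') (hb : strong N μ H s s' b) (hb' : strong N μ H s s' b')
    {ν : ℕ → ℕ} {K : Finset ℕ} (hν : Mat N ν) (hn : Near (cut2 μ b b') ν K)
    (hc : (K.filter fun v => ν v = v).card ≤ (K.filter fun v => cut2 μ b b' v = v).card)
    (hk : ∀ v, cut2 μ b b' v = v → ν v ≠ v → H v ∨ v = b ∨ v = b')
    (hK : K.card + s + 7 ≤ s') {x y : ℕ} (hx : Oe N μ H s x) (hy : Oe N μ H s y)
    (hxy : y ∈ N x) (ex : ν x = x) (ey : ν y = y) : False := by
  have hne : x ≠ y := by
    intro h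
    exact hi x (h ▸ hxy)
  set f : ℕ → ℕ := fun v => if v = x then y else x with hf
  have fx : f x = y := by simp [hf]
  have fy : f y = x := by simp [hf, hne.symm]
  have hm : Mat N (glue {x, y} f ν) := by
    apply mat_glue hν
    intro v hv
    rcases Finset.mem_insert.1 hv with rfl | hv
    · rw [ex, fx, fy]
      exact ⟨by simp, by simp, rfl, fun _ => hxy⟩
    · rw [Finset.mem_singleton.1 hv, ey, fy, fx]
      exact ⟨by simp, by simp, rfl, fun _ => hs _ _ hxy⟩
  have hout : ∀ v, v ∉ ({x, y} : Finset ℕ) → glue {x, y} f ν v = ν v := by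
    intro v hv
    simp only [glue, if_neg hv]
  have hin : ∀ v ∈ ({x, y} : Finset ℕ), ν v = v ∧ Oe N μ H s v := by
    intro v hv
    rcases Finset.mem_insert.1 hv with rfl | hv
    · exact ⟨ex, hx⟩
    · rw [Finset.mem_singleton.1 hv]; exact ⟨ey, hy⟩
  have hcard : (K ∪ {x, y}).card ≤ K.card + 2 :=
    (Finset.card_union_le _ _).trans (Nat.add_le_add_left Finset.card_le_two _)
  refine vgal_few hs hi hμ hH hna hb hb' hm (K := K ∪ {x, y}) ?_ ?_ ?_ (by omega)
  · intro v hv
    rw [hout v fun h => hv (Finset.mem_union_right _ h)]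
    exact hn v fun h => hv (Finset.mem_union_left _ h)
  · refine lt_of_lt_of_le (vgal_lt (g := ν) (x := x) (by simp) ex ?_ ?_)
      (vgal_ext hn Finset.subset_union_left hc)
    · have : glue {x, y} f ν x = y := by simp [glue, fx]
      rw [this]; exact hne.symm
    · intro v _ hv
      by_cases h : v ∈ ({x, y} : Finset ℕ)
      · exact (hin v h).1
      · rwa [hout v h] at hv
  · intro v hv hv'
    by_cases h : v ∈ ({x, y} : Finset ℕ)
    · exact vgal_reach hna hb hb' (by omega) (hin v h).2 hv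
    · rw [hout v h] at hv'
      exact hk v hv hv'

/-- One switching step between two admissible matchings on `L`. -/
theorem vgal_step (hs : Sym N) (hi : Irr N) (hμ : Mat N μ) (hH : ∀ h, H h → μ h = h)
    (hna : NoAug N μ H s') (hb : strong N μ H s s' b) (hb' : strong N μ H s s' b')
    {ν κ : ℕ → ℕ} {L : Finset ℕ} (hν : Mat N ν) (hn : Near (cut2 μ b b') ν L)
    (hc : (L.filter fun v => ν v = v).card ≤ (L.filter fun v => cut2 μ b b' v = v).card)
    (hk : ∀ v, cut2 μ b b' v = v → ν v ≠ v → H v ∨ v = b ∨ v = b')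
    (hκ : Mat N κ) (hn' : Near (cut2 μ b b') κ L)
    (hc' : (L.filter fun v => κ v = v).card ≤ (L.filter fun v => cut2 μ b b' v = v).card)
    (hk' : ∀ v, cut2 μ b b' v = v → κ v ≠ v → H v ∨ v = b ∨ v = b')
    (hL : L.card + s + 5 ≤ s') {x t : ℕ} (ex : ν x = x) (ex' : κ x ≠ x) (et : κ t = t) :
    (∃ ν' : ℕ → ℕ, Mat N ν' ∧ Near (cut2 μ b b') ν' L ∧
      (L.filter fun v => ν' v = v).card ≤ (L.filter fun v => cut2 μ b b' v = v).card ∧
      (∀ v, cut2 μ b b' v = v → ν' v ≠ v → H v ∨ v = b ∨ v = b') ∧ ν' x = x ∧ ν' t = t) ∨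
    ∃ K' : Finset ℕ, t ∈ K' ∧ (∀ v ∈ K', ν v ∈ K' ∧ κ v ∈ K') ∧
      ∀ w ∈ K', (κ w = w → w = t) ∧ (ν w = w → w = x) := by
  have hnn : Near ν κ L := fun v hv => (hn' v hv).trans (hn v hv).symm
  have hxL : x ∈ L := by
    by_contra h
    exact ex' ((hnn x h).trans ex)
  obtain ⟨K', z, hsub, hconn, hz, hcl, hcase⟩ := switch hs hν hκ hnn ex
  rw [Finset.insert_eq_of_mem hxL] at hsub
  have hxK : x ∈ K' := hconn.1
  rcases hcase with ⟨ez, hw⟩ | ⟨ez, hzx, hw⟩
  · by_cases hzt : z = t
    · subst hzt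
      exact Or.inr ⟨K', hz, hcl, hw⟩
    · have htK : t ∉ K' := fun h => hzt ((hw t h).1 et).symm
      refine Or.inl ⟨glue K' ν κ, vgal_glue hν hκ fun v hv => ⟨(hcl v hv).2, (hcl v hv).1⟩,
        ?_, ?_, ?_, ?_, ?_⟩
      · intro v hv
        have : v ∉ K' := fun h => hv (hsub h)
        simp only [glue, if_neg this]
        exact hn' v hv
      · refine le_trans (vgal_swap (g := κ) (x := x) (hsub hz) ez ?_) hc'
        intro v _ hv
        by_cases h : v ∈ K'
        · simp only [glue, if_pos h] at hv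
          exact Or.inr ((hw v h).2 hv)
        · simp only [glue, if_neg h] at hv
          exact Or.inl ⟨hv, fun h' => h (h' ▸ hz)⟩
      · intro v hv hv'
        by_cases h : v ∈ K'
        · simp only [glue, if_pos h] at hv'
          exact hk v hv hv'
        · simp only [glue, if_neg h] at hv'
          exact hk' v hv hv'
      · simp only [glue, if_pos hxK]; exact ex
      · simp only [glue, if_neg htK]; exact et
  · exfalso
    refine vgal_few hs hi hμ hH hna hb hb' (ν := glue K' κ ν) (K := L) (vgal_glue hκ hν hcl)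
      ?_ ?_ ?_ hL
    · intro v hv
      have : v ∉ K' := fun h => hv (hsub h)
      simp only [glue, if_neg this]
      exact hn v hv
    · refine lt_of_lt_of_le (vgal_lt (g := ν) hxL ex ?_ ?_) hc
      · simp only [glue, if_pos hxK]; exact ex'
      · intro v _ hv
        by_cases h : v ∈ K'
        · simp only [glue, if_pos h] at hv
          exact absurd hv (hw v h).1
        · simp only [glue, if_neg h] at hv
          exact hv
    · intro v hv hv'
      by_cases h : v ∈ K'
      · simp only [glue, if_pos h] at hv'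
        exact hk' v hv hv'
      · simp only [glue, if_neg h] at hv'
        exact hk v hv hv'

/-- The local Gallai lemma.  Let `μ' = cut2 μ b b'`.  Call `ν` admissible on `K` if it is a
matching, `Near μ' ν K`, it exposes at most as many nodes of `K` as `μ'`, and every `μ'`-exposed
node outside `H`, `b`, `b'` stays exposed.  Claim by induction on `i`: no admissible `ν` with
`K.card + i * (s + 4) + s + 7 ≤ s'` exposes two distinct reachable nodes `x, y` with
`y ∈ ball (NO ..) x i`.  For adjacent `x, y` match them and use `exists_aug`, `no_aug2`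
(`oe_exposed` shows that `x, y` are not forbidden exposed nodes; mates of strong nodes are
not reachable).  For `i + 1` take `t` at distance `i` from `x` adjacent to `y`, `κ` from `tail2`;
if `κ` exposes `x` or `y` use the smaller cases; otherwise `switch` for `ν, κ` from `x`
and from `y`: an end exposed by `ν` gives fewer exposed nodes, and for one of `x, y` the end is not
`t` (the intersection of the two paths would be closed under both involutions with one fixed point
of `κ` and none of `ν`, against `fix_parity`), so `glue K' ν κ` exposes `t` and that node. -/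
theorem gallai (hs : Sym N) (hi : Irr N) (hμ : Mat N μ) (hH : ∀ h, H h → μ h = h)
    (hna : NoAug N μ H s') (hb : strong N μ H s s' b) (hb' : strong N μ H s s' b') (i : ℕ)
    {ν : ℕ → ℕ} {K : Finset ℕ} (hν : Mat N ν) (hn : Near (cut2 μ b b') ν K)
    (hc : (K.filter fun v => ν v = v).card ≤ (K.filter fun v => cut2 μ b b' v = v).card)
    (hk : ∀ v, cut2 μ b b' v = v → ν v ≠ v → H v ∨ v = b ∨ v = b')
    (hK : K.card + i * (s + 4) + s + 7 ≤ s') {x y : ℕ} (hx : Oe N μ H s x)
    (hxy : y ∈ ball (NO N (Oe N μ H s)) x i) (ex : ν x = x) (ey : ν y = y) : x = y := by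
  induction i generalizing ν K x y with
  | zero =>
    simp only [ball, Finset.mem_singleton] at hxy
    exact hxy.symm
  | succ i ih =>
    have hmul : (i + 1) * (s + 4) = i * (s + 4) + (s + 4) := by ring
    rw [hmul] at hK
    rcases mem_ball_succ.1 hxy with hxy | ⟨t, hxt, hty⟩
    · exact ih hν hn hc hk (by omega) hx hxy ex ey
    by_contra hne
    have hot : Oe N μ H s t := by
      by_contra h
      simp only [NO, if_neg h] at hty
      exact Finset.notMem_empty _ hty
    simp only [NO, if_pos hot] at hty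
    obtain ⟨hty, hy⟩ := Finset.mem_filter.1 hty
    by_cases et : ν t = t
    · exact vgal_adj hs hi hμ hH hna hb hb' hν hn hc hk (by omega) hot hy hty et ey
    obtain ⟨Kt, κ, z, hKt, hκ, hn', hz, ez, htK, hzK, hfix⟩ :=
      tail2 hs hi hμ hH hna (by omega) hb hb' hot
    have hc' : (Kt.filter fun v => κ v = v).card ≤ (Kt.filter fun v => cut2 μ b b' v = v).card :=
      vgal_swap (x := t) hzK ez fun v _ hv => (hfix v).1 hv
    have hk' : ∀ v, cut2 μ b b' v = v → κ v ≠ v → H v ∨ v = b ∨ v = b' := by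
      intro v hv hv'
      by_cases h : v = z
      · rw [h]; exact hz
      · exact absurd ((hfix v).2 (Or.inl ⟨hv, h⟩)) hv'
    have kt : κ t = t := (hfix t).2 (Or.inr rfl)
    have hxt' : x ≠ t := fun h => et (h ▸ ex)
    by_cases kx : κ x = x
    · exact hxt' (ih hκ hn' hc' hk' (by omega) hx hxt kx kt)
    by_cases ky : κ y = y
    · exact vgal_adj hs hi hμ hH hna hb hb' hκ hn' hc' hk' (by omega) hot hy hty kt ky
    have hL : (K ∪ Kt).card ≤ K.card + (s + 4) :=
      (Finset.card_union_le _ _).trans (Nat.add_le_add_left hKt _)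
    have n1 : Near (cut2 μ b b') ν (K ∪ Kt) :=
      fun v hv => hn v fun h => hv (Finset.mem_union_left _ h)
    have n2 : Near (cut2 μ b b') κ (K ∪ Kt) :=
      fun v hv => hn' v fun h => hv (Finset.mem_union_right _ h)
    have c1 := vgal_ext hn (Finset.subset_union_left (s₂ := Kt)) hc
    have c2 := vgal_ext hn' (Finset.subset_union_right (s₁ := K)) hc'
    rcases vgal_step hs hi hμ hH hna hb hb' hν n1 c1 hk hκ n2 c2 hk' (by omega) ex kx kt with
      ⟨ν', m1, m2, m3, m4, m5, m6⟩ | ⟨K1, t1, cl1, w1⟩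
    · exact hxt' (ih m1 m2 m3 m4 (by omega) hx hxt m5 m6)
    rcases vgal_step hs hi hμ hH hna hb hb' hν n1 c1 hk hκ n2 c2 hk' (by omega) ey ky kt with
      ⟨ν', m1, m2, m3, m4, m5, m6⟩ | ⟨K2, t2, cl2, w2⟩
    · exact vgal_adj hs hi hμ hH hna hb hb' m1 m2 m3 m4 (by omega) hot hy hty m6 m5
    have p1 := fix_parity (μ := ν) (S := K1 ∩ K2) fun v hv =>
      ⟨Finset.mem_inter.2 ⟨(cl1 v (Finset.mem_inter.1 hv).1).1,
        (cl2 v (Finset.mem_inter.1 hv).2).1⟩, hν.1 v⟩
    have p2 := fix_parity (μ := κ) (S := K1 ∩ K2) fun v hv =>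
      ⟨Finset.mem_inter.2 ⟨(cl1 v (Finset.mem_inter.1 hv).1).2,
        (cl2 v (Finset.mem_inter.1 hv).2).2⟩, hκ.1 v⟩
    have e1 : ((K1 ∩ K2).filter fun v => ν v = v) = ∅ := by
      apply Finset.filter_eq_empty_iff.2
      intro v hv hv'
      exact hne (((w1 v (Finset.mem_inter.1 hv).1).2 hv').symm.trans
        ((w2 v (Finset.mem_inter.1 hv).2).2 hv'))
    have e2 : ((K1 ∩ K2).filter fun v => κ v = v) = {t} := by
      apply Finset.eq_singleton_iff_unique_mem.2
      refine ⟨Finset.mem_filter.2 ⟨Finset.mem_inter.2 ⟨t1, t2⟩, kt⟩, fun v hv => ?_⟩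
      obtain ⟨hv, hv'⟩ := Finset.mem_filter.1 hv
      exact (w1 v (Finset.mem_inter.1 hv).1).1 hv'
    rw [e1] at p1
    rw [e2] at p2
    simp only [Finset.card_empty, Finset.card_singleton] at p1 p2
    omega

end Pool.Agent.Lib.MP_459a07_lc.V
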