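import Pool.Agent.Lib.MP_459a07_lc.VAct2

set_option autoImplicit false

namespace Pool.Agent.Lib.MP_459a07_lc.V

open Classical

variable {Q : Inst} {k d L σ : ℕ} {p : Par} {N : ℕ → Finset ℕ}

/-- If every ball of radius `r` has at most two points with property `b`, such points are rare in
connected sets: each has at least `r + 1` points of `X` within distance `r` (`conn_sub`). -/
theorem sparse_count (hs : Sym N) {b : ℕ → Prop} {r : ℕ}
    (hb : ∀ a, ((ball N a r).filter b).card ≤ 2) {X : Finset ℕ} {v : ℕ} (hX : Conn N X v)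
    (hr : r + 1 ≤ X.card) : (r + 1) * (X.filter b).card ≤ 2 * X.card := by
  have key := Finset.card_mul_le_card_mul (s := X.filter b) (t := X) (m := r + 1) (n := 2)
    (fun x a => a ∈ ball N x r) ?_ ?_
  · rw [mul_comm (r + 1), mul_comm 2]
    exact key
  · intro x hx
    obtain ⟨hxX, -⟩ := Finset.mem_filter.1 hx
    obtain ⟨T, hTX, hT, hc⟩ := conn_sub (hX.rebase hs hxX) (n := r + 1) (by omega) hr
    rw [← hc]
    apply Finset.card_le_card
    intro y hy
    have h1 := hT.sub_ball hy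
    rw [hc, Nat.add_sub_cancel] at h1
    exact Finset.mem_filter.2 ⟨hTX hy, h1⟩
  · intro a _
    refine le_trans (Finset.card_le_card ?_) (hb a)
    intro x hx
    obtain ⟨h1, h2⟩ := Finset.mem_filter.1 hx
    exact Finset.mem_filter.2 ⟨ball_symm hs h2, (Finset.mem_filter.1 h1).2⟩

theorem vlight_count (hs : Sym N) {b : ℕ → Prop} [inst : DecidablePred b] {r : ℕ}
    (hb : ∀ a, ((ball N a r).filter b).card ≤ 2) {X : Finset ℕ} {v : ℕ} (hX : Conn N X v)
    (hr : r + 1 ≤ X.card) : (r + 1) * (X.filter b).card ≤ 2 * X.card := by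
  have e : inst = fun a => propDecidable (b a) := Subsingleton.elim _ _
  subst e
  exact sparse_count hs hb hX hr

/-- The `tn` nodes and the marks that were not random are sparse. -/
theorem deep_sparse (hV : Q.Valid k d L σ) (hP : PC k d L σ p) {s : St} (hI : Inv Q p s) {r : ℕ}
    (hr : 2 * r ≤ p.ρ') (a : ℕ) :
    ((ball Q.N a r).filter fun z => Q.tn z ∨ (s.mk' z ∧ ¬ s.rd z)).card ≤ 2 := by
  by_cases hex : ∃ u ∈ ball Q.N a r, s.mk' u ∧ ¬ s.rd u
  · obtain ⟨u, hu, h1, h2⟩ := hex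
    have hsub : ((ball Q.N a r).filter fun z => Q.tn z ∨ (s.mk' z ∧ ¬ s.rd z)) ⊆ {u} := by
      intro z hz
      obtain ⟨z1, z2⟩ := Finset.mem_filter.1 hz
      have z3 : z ∈ ball Q.N u p.ρ' :=
        ball_mono (by omega) (ball_trans (ball_symm hV.sym hu) z1)
      obtain ⟨z4, z5⟩ := hI.deep u h1 h2 z z3
      rcases z2 with z2 | z2
      · exact absurd z2 z4
      · exact Finset.mem_singleton.2 (z5 z2.1 z2.2)
    have := Finset.card_le_card hsub
    rw [Finset.card_singleton] at this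
    omega
  · refine le_trans (Finset.card_le_card ?_) (hV.tn2 a)
    intro z hz
    obtain ⟨z1, z2⟩ := Finset.mem_filter.1 hz
    have hσ := hP.hσ
    refine Finset.mem_filter.2 ⟨ball_mono (by omega) z1, ?_⟩
    rcases z2 with z2 | z2
    · exact z2
    · exact absurd ⟨z, z1, z2⟩ hex

/-- All tainted nodes are sparse at a smaller scale. -/
theorem tnt_sparse (hV : Q.Valid k d L σ) (hP : PC k d L σ p) {s : St} (hI : Inv Q p s) {r : ℕ}
    (hr : 2 * r ≤ p.ρ1) (a : ℕ) : ((ball Q.N a r).filter (tnt Q s)).card ≤ 2 := by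
  by_cases hex : ∃ u ∈ ball Q.N a r, s.mk' u
  · obtain ⟨u, hu, h1⟩ := hex
    have hsub : (ball Q.N a r).filter (tnt Q s) ⊆ {u} := by
      intro z hz
      obtain ⟨z1, z2⟩ := Finset.mem_filter.1 hz
      have z3 : z ∈ ball Q.N u p.ρ1 :=
        ball_mono (by omega) (ball_trans (ball_symm hV.sym hu) z1)
      obtain ⟨z4, z5⟩ := hI.sep u h1 z z3
      rcases z2 with z2 | z2
      · exact absurd z2 z4
      · exact Finset.mem_singleton.2 (z5 z2)
    have := Finset.card_le_card hsub
    rw [Finset.card_singleton] at this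
    omega
  · refine le_trans (Finset.card_le_card ?_) (hV.tn2 a)
    intro z hz
    obtain ⟨z1, z2⟩ := Finset.mem_filter.1 hz
    have hσ := hP.hσ
    have hρ := hP.hρ
    refine Finset.mem_filter.2 ⟨ball_mono (by omega) z1, ?_⟩
    rcases z2 with z2 | z2
    · exact z2
    · exact absurd ⟨z, z1, z2⟩ hex

/-- Many half-blocked holes give a connected set with many random marks: `hb_mass`, an average
over the scales, `level`, then add the `ρ1`-balls and subtract the sparse tainted nodes. -/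
theorem hb_heavy (hV : Q.Valid k d L σ) (hP : PC k d L σ p) {s : St} (hI : Inv Q p s) {D : ℕ}
    (hD : 512 * (k + 1) ^ (2 * p.ρ1) ≤ D) (hK : 4 * D ≤ p.K) (hρ : 2 * D ≤ p.ρ')
    {X : Finset ℕ} {v : ℕ} (hXS : X ⊆ Q.S) (hX : Conn Q.N X v) (hc : D + 1 ≤ X.card)
    (h : X.card ≤ 2 * D * (X.filter fun x =>
      hol Q d false s x ∧ hb p.l (good Q p s x)).card) :
    ∃ X', X ⊆ X' ∧ X' ⊆ Q.S ∧ Conn Q.N X' v ∧ X'.card ≤ D * (X'.filter s.rd).card := by
  set V0 := X.filter fun x => hol Q d false s x ∧ hb p.l (good Q p s x) with hV0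
  have hmass : ∀ x ∈ V0, Stuck Q p s x ∧
      1 / 16 ≤ ∑ u ∈ (ball Q.N x p.R).filter (blk Q s p.ρ1), xa Q p s x u := fun x hx =>
    hb_mass hV hP hI (Finset.mem_filter.1 hx).2.1 (Finset.mem_filter.1 hx).2.2
  have hV0pos : 0 < V0.card := by
    rcases Nat.eq_zero_or_pos V0.card with h0 | h0
    · rw [h0] at h
      omega
    · exact h0
  have hTs : 0 < p.Ts := by
    have h1 := hP.hT
    have h2 : 0 < (k + 1) ^ p.R := by positivity
    omega
  have hTsR : (0 : ℝ) < p.Ts := by exact_mod_cast hTs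
  set g : ℕ → ℝ := fun t => ∑ x ∈ V0.filter (Stab Q p s t p.R),
    ∑ u ∈ (ball Q.N x p.R).filter (blk Q s p.ρ1), xm Q.N Q.m s.μ (Ot Q p s t) p.K x u with hg
  have hsum : ∑ x ∈ V0, ∑ u ∈ (ball Q.N x p.R).filter (blk Q s p.ρ1), xa Q p s x u =
      (∑ t ∈ Finset.range p.Ts, g t) / p.Ts := by
    have e1 : ∀ t, g t = ∑ x ∈ V0, ∑ u ∈ (ball Q.N x p.R).filter (blk Q s p.ρ1),
        if Stab Q p s t p.R x then xm Q.N Q.m s.μ (Ot Q p s t) p.K x u else 0 := by
      intro t
      simp only [hg]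
      rw [Finset.sum_filter]
      refine Finset.sum_congr rfl fun x _ => ?_
      split_ifs
      · rfl
      · simp
    simp only [e1]
    rw [Finset.sum_comm, Finset.sum_div]
    refine Finset.sum_congr rfl fun x _ => ?_
    rw [Finset.sum_comm, Finset.sum_div]
    rfl
  have hlow : (V0.card : ℝ) / 16 ≤ (∑ t ∈ Finset.range p.Ts, g t) / p.Ts := by
    rw [← hsum]
    have := Finset.card_nsmul_le_sum V0 _ _ fun x hx => (hmass x hx).2
    rw [nsmul_eq_mul] at this
    linarith
  obtain ⟨t, ht, hgt⟩ : ∃ t ∈ Finset.range p.Ts, (V0.card : ℝ) / 16 ≤ g t := by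
    apply Finset.exists_le_of_sum_le (Finset.nonempty_range_iff.2 hTs.ne')
    rw [Finset.sum_const, Finset.card_range, nsmul_eq_mul]
    rw [le_div_iff₀ hTsR] at hlow
    linarith
  rw [Finset.mem_range] at ht
  obtain ⟨X1, a1, a2, a3, a4⟩ := level (nice hV hP hI ht) (V := V0.filter (Stab Q p s t p.R))
    (X := X) (S := Q.S)
    (fun x hx => start (hmass x (Finset.mem_filter.1 hx).1).1 (Finset.mem_filter.1 hx).2)
    hV.sub ((Finset.filter_subset _ _).trans (Finset.filter_subset _ _)) hXS hX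
    (blk Q s p.ρ1) (V0.card : ℝ) (by exact_mod_cast Finset.card_filter_le _ _)
    (by exact_mod_cast hV0pos)
    (by
      have h1 : (X.card : ℝ) ≤ 2 * D * V0.card := by exact_mod_cast h
      have h2 : (4 * D : ℝ) ≤ p.K := by exact_mod_cast hK
      have h3 : (0 : ℝ) ≤ V0.card := Nat.cast_nonneg _
      nlinarith)
    hgt
  set X2 := X1 ∪ X1.biUnion fun u => ball Q.N u p.ρ1 with hX2
  have b1 : X1 ⊆ X2 := Finset.subset_union_left
  have b2 : X2 ⊆ Q.S := by
    refine Finset.union_subset a2 (Finset.biUnion_subset.2 fun u hu => ?_)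
    exact ball_subS hV.sym hV.sub (a2 hu)
  have b3 : Conn Q.N X2 v :=
    conn_biUnion (r := fun u => u) hV.sym a3 (fun u _ => conn_ball _ _ _)
      fun u hu => ⟨u, hu, Or.inl self_mem_ball⟩
  have b4 : X2.card ≤ X1.card * (k + 1) ^ p.ρ1 := by
    have e : X2 ⊆ X1.biUnion fun u => ball Q.N u p.ρ1 :=
      Finset.union_subset (fun u hu => Finset.mem_biUnion.2 ⟨u, hu, self_mem_ball⟩)
        (Finset.Subset.refl _)
    exact (Finset.card_le_card e).trans
      (Finset.card_biUnion_le_card_mul _ _ _ fun u _ => card_ball hV.card)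
  have b5 : (X1.filter (blk Q s p.ρ1)).card ≤ (X2.filter (tnt Q s)).card * (k + 1) ^ p.ρ1 := by
    have e : X1.filter (blk Q s p.ρ1) ⊆
        (X2.filter (tnt Q s)).biUnion fun z => ball Q.N z p.ρ1 := by
      intro u hu
      obtain ⟨u1, z, z1, z2⟩ := Finset.mem_filter.1 hu
      exact Finset.mem_biUnion.2 ⟨z, Finset.mem_filter.2 ⟨Finset.mem_union_right _
        (Finset.mem_biUnion.2 ⟨u, u1, z1⟩), z2⟩, ball_symm hV.sym z1⟩
    exact (Finset.card_le_card e).trans
      (Finset.card_biUnion_le_card_mul _ _ _ fun u _ => card_ball hV.card)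
  have b6 : (X2.filter (tnt Q s)).card ≤ (X2.filter s.rd).card +
      (X2.filter fun z => Q.tn z ∨ (s.mk' z ∧ ¬ s.rd z)).card := by
    refine le_trans (Finset.card_le_card ?_) (Finset.card_union_le _ _)
    intro z hz
    obtain ⟨z1, z2⟩ := Finset.mem_filter.1 hz
    by_cases hr : s.rd z
    · exact Finset.mem_union_left _ (Finset.mem_filter.2 ⟨z1, hr⟩)
    · refine Finset.mem_union_right _ (Finset.mem_filter.2 ⟨z1, ?_⟩)
      rcases z2 with z2 | z2
      · exact Or.inl z2
      · exact Or.inr ⟨z2, hr⟩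
  have b7 := vlight_count hV.sym (deep_sparse hV hP hI hρ) b3
    (hc.trans (Finset.card_le_card (a1.trans b1)))
  refine ⟨X2, a1.trans b1, b2, b3, ?_⟩
  have b8 : 4 * X2.card ≤ D * (X2.filter (tnt Q s)).card := by
    calc 4 * X2.card ≤ 4 * (128 * ((X2.filter (tnt Q s)).card * (k + 1) ^ p.ρ1) *
          (k + 1) ^ p.ρ1) :=
          Nat.mul_le_mul_left _ (b4.trans (Nat.mul_le_mul_right _
            (a4.trans (Nat.mul_le_mul_left _ b5))))
      _ = 512 * (k + 1) ^ (2 * p.ρ1) * (X2.filter (tnt Q s)).card := by ring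
      _ ≤ D * (X2.filter (tnt Q s)).card := Nat.mul_le_mul_right _ hD
  have b9 := Nat.mul_le_mul_left D b6
  rw [mul_add] at b9
  rw [add_mul] at b7
  omega

/-- At the end of stage one tainted nodes and holes are rare in large connected sets. -/
theorem thin_of (hV : Q.Valid k d L σ) (hP : PC k d L σ p) {C D m0 T : ℕ} (run : ℕ → St)
    (hI : ∀ t, Inv Q p (run t)) (hmono : ∀ t ≤ T, ∀ v, (run t).rd v → (run T).rd v)
    (hD : 512 * (k + 1) ^ (2 * p.ρ1) ≤ D) (hC : 4 * C ≤ D) (hK : 4 * D ≤ p.K)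
    (hρ : 2 * D ≤ p.ρ') (hm : D + 1 ≤ m0) (h3 : Thin Q.S Q.N m0 D (run T).rd)
    (h4 : H4 Q.S Q.N p.l T m0 D run (hol Q d false) (good Q p)) :
    Thin Q.S Q.N m0 C (bad0 Q d false (run T)) := by
  intro X v hXS hX hm0
  have a1 := h3 X v hXS hX hm0
  have a2 := vlight_count hV.sym (deep_sparse hV hP (hI T) hρ) hX (hm.trans hm0)
  have a3 : D * (X.filter (hol Q d false (run T))).card < X.card := by
    by_contra hcon
    obtain ⟨t, ht, h5⟩ := h4 X v hXS hX hm0 (not_lt.1 hcon)
    obtain ⟨X', b1, b2, b3, b4⟩ := hb_heavy hV hP (hI t) hD hK hρ hXS hX (hm.trans hm0) h5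
    have b5 := h3 X' v b2 b3 (hm0.trans (Finset.card_le_card b1))
    have b6 : (X'.filter (run t).rd).card ≤ (X'.filter (run T).rd).card := by
      apply Finset.card_le_card
      intro y hy
      obtain ⟨y1, y2⟩ := Finset.mem_filter.1 hy
      exact Finset.mem_filter.2 ⟨y1, hmono t ht.le y y2⟩
    have b7 := Nat.mul_le_mul_left D b6
    omega
  have a4 : (X.filter (bad0 Q d false (run T))).card ≤ (X.filter (run T).rd).card +
      (X.filter fun z => Q.tn z ∨ ((run T).mk' z ∧ ¬ (run T).rd z)).card +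
      (X.filter (hol Q d false (run T))).card := by
    refine le_trans (Finset.card_le_card ?_)
      ((Finset.card_union_le _ _).trans (Nat.add_le_add_right (Finset.card_union_le _ _) _))
    intro z hz
    obtain ⟨z1, z2⟩ := Finset.mem_filter.1 hz
    rcases z2 with z2 | z2
    · refine Finset.mem_union_left _ ?_
      by_cases hr : (run T).rd z
      · exact Finset.mem_union_left _ (Finset.mem_filter.2 ⟨z1, hr⟩)
      · refine Finset.mem_union_right _ (Finset.mem_filter.2 ⟨z1, ?_⟩)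
        rcases z2 with z2 | z2
        · exact Or.inl z2
        · exact Or.inr ⟨z2, hr⟩
    · exact Finset.mem_union_right _ (Finset.mem_filter.2 ⟨z1, z2⟩)
  have a5 := Nat.mul_le_mul_left D a4
  have a6 := Nat.mul_le_mul_right (X.filter (bad0 Q d false (run T))).card hC
  rw [mul_add, mul_add] at a5
  rw [add_mul] at a2
  rw [mul_assoc] at a6
  omega

end Pool.Agent.Lib.MP_459a07_lc.V
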