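import Pool.Agent.Lib.MP_459a07_lc.VWalk

set_option autoImplicit false

namespace Pool.Agent.Lib.MP_459a07_lc.V

open Classical

variable {Q Q' : Inst} {p : Par} {s s' : St} {x j v r : ℕ}

/-- The two configurations agree on a ball. -/
def Agr (Q Q' : Inst) (s s' : St) (x r : ℕ) : Prop :=
  ∀ y ∈ ball Q.N x r, SA Q Q' y ∧ s.row y = s'.row y

theorem vloc_ball_eq {N N' : ℕ → Finset ℕ} {e : ℕ} (h : ∀ y ∈ ball N x r, N y = N' y)
    (he : e ≤ r) : ball N x e = ball N' x e := by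
  cases e with
  | zero => rfl
  | succ e => exact ball_congr fun a ha => h a (ball_mono (by omega) ha)

theorem vloc_mu (h : s.row v = s'.row v) : s.μ v = s'.μ v := congrArg Prod.fst h

theorem vloc_mk (h : s.row v = s'.row v) : s.mk' v = s'.mk' v :=
  congrArg (fun t : ℕ × Prop × Prop => t.2.1) h

theorem vloc_rd (h : s.row v = s'.row v) : s.rd v = s'.rd v :=
  congrArg (fun t : ℕ × Prop × Prop => t.2.2) h

theorem vloc_in {N : ℕ → Finset ℕ} {y z e e' : ℕ} (hy : y ∈ ball N x e) (hz : z ∈ ball N y e')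
    (hr : e + e' ≤ r) : z ∈ ball N x r :=
  ball_mono hr (ball_trans hy hz)

theorem Agr.mono {r' y : ℕ} (h : Agr Q Q' s s' x r) {e : ℕ} (hy : y ∈ ball Q.N x e)
    (hr : e + r' ≤ r) : Agr Q Q' s s' y r' :=
  fun z hz => h z (vloc_in hy hz hr)

theorem Agr.ball_eq (h : Agr Q Q' s s' x r) {e : ℕ} (he : e ≤ r) :
    ball Q.N x e = ball Q'.N x e :=
  vloc_ball_eq (fun y hy => (h y hy).1.1) he

theorem Agr.symm (h : Agr Q Q' s s' x r) : Agr Q' Q s' s x r := by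
  intro y hy
  rw [← h.ball_eq le_rfl] at hy
  obtain ⟨⟨h1, h2, h3, h4⟩, h5⟩ := h y hy
  exact ⟨⟨h1.symm, h2.symm, h3.symm, h4.symm⟩, h5.symm⟩

theorem vloc_small {r' : ℕ} (h : Agr Q Q' s s' x r) (hr : r' ≤ r) : Agr Q Q' s s' x r' :=
  fun y hy => h y (ball_mono hr hy)

theorem cr_congr {d : ℕ} {fl : Bool} (h : SA Q Q' v) (hr : s.row v = s'.row v) :
    cr Q d fl s v ↔ cr Q' d fl s' v := by
  obtain ⟨h1, h2, h3, -⟩ := h
  unfold cr dg
  rw [h1, h2, propext h3, vloc_mk hr]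

theorem vloc_hol {d : ℕ} {fl : Bool} (h : SA Q Q' v) (hr : s.row v = s'.row v) :
    hol Q d fl s v ↔ hol Q' d fl s' v := by
  unfold hol
  rw [cr_congr h hr, vloc_mu hr]

theorem vloc_blk {ρ : ℕ} (h : Agr Q Q' s s' x ρ) (hb : blk Q s ρ x) : blk Q' s' ρ x := by
  obtain ⟨z, hz, ht⟩ := hb
  obtain ⟨⟨-, -, -, h4⟩, h5⟩ := h z hz
  refine ⟨z, h.ball_eq le_rfl ▸ hz, ?_⟩
  unfold tnt at ht ⊢
  rw [← h4, ← vloc_mk h5]
  exact ht

theorem blk_congr {ρ : ℕ} (h : Agr Q Q' s s' x ρ) : blk Q s ρ x ↔ blk Q' s' ρ x :=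
  ⟨vloc_blk h, vloc_blk h.symm⟩

theorem vloc_fx {e y z : ℕ} {K : Finset ℕ} {f : ℕ → ℕ} (h : Agr Q Q' s s' x e)
    (hK : K ⊆ ball Q.N x e) (hf : Fx Q.N s.μ y z K f) : Fx Q'.N s'.μ y z K f :=
  fx_congr hf (fun w hw => (h w (hK hw)).1.1) fun w hw => vloc_mu (h w (hK hw)).2

theorem vloc_det (h : Agr Q Q' s s' x (p.smax + p.ρ')) {t : ℕ × Finset ℕ × (ℕ → ℕ)}
    (ht : Det Q p s x t) : Det Q' p s' x t := by
  obtain ⟨h1, h2, h3⟩ := ht
  have hK : t.2.1 ⊆ ball Q.N x p.smax := fun w hw => ball_mono (by omega) (fx_sub_ball h2 hw)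
  have hz : t.1 ∈ ball Q.N x p.smax := hK h2.2.1
  have hz' := h t.1 (ball_mono (by omega) hz)
  refine ⟨h1, vloc_fx (vloc_small h (by omega)) hK h2, ?_⟩
  rw [← cr_congr hz'.1 hz'.2, ← blk_congr (h.mono hz le_rfl)]
  exact h3

theorem det_congr (h : Agr Q Q' s s' x (p.smax + p.ρ')) : Det Q p s x = Det Q' p s' x := by
  funext t
  exact propext ⟨vloc_det h, vloc_det h.symm⟩

theorem stuck_congr (h : Agr Q Q' s s' x (p.smax + p.ρ')) : Stuck Q p s x ↔ Stuck Q' p s' x := by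
  have hx := h x self_mem_ball
  unfold Stuck
  rw [det_congr h, vloc_hol hx.1 hx.2]

theorem vloc_ot (hs : Sym Q.N) {t : ℕ} (ht : t ≤ p.Ts)
    (h : Agr Q Q' s s' x (2 * p.smax + p.ρ')) (ho : Ot Q p s t x) : Ot Q' p s' t x := by
  obtain ⟨y, K, f, h1, h2, h3, h4⟩ := ho
  have hsc : sc p.K t ≤ p.smax := sc_mono p.K ht
  have hK : K ⊆ ball Q.N x p.smax := fun w hw =>
    ball_mono (by omega) ((h3.1.rebase hs h3.2.1).sub_ball hw)
  refine ⟨y, K, f, ?_, h2, vloc_fx (vloc_small h (by omega)) hK h3, h4⟩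
  exact (stuck_congr (h.mono (hK h3.1.1) (by omega))).1 h1

/-- A patch containing `x` lies in the ball of radius `smax` around `x` (`Conn.rebase`). -/
theorem ot_congr (hs : Sym Q.N) (hs' : Sym Q'.N) {t : ℕ} (ht : t ≤ p.Ts)
    (h : Agr Q Q' s s' x (2 * p.smax + p.ρ')) : Ot Q p s t x ↔ Ot Q' p s' t x :=
  ⟨vloc_ot hs ht h, vloc_ot hs' ht h.symm⟩

section Walk

variable {N N' : ℕ → Finset ℕ} {m m' : ℕ → ℕ → ℕ} {μ μ' : ℕ → ℕ} {O O' : ℕ → Prop} {K : ℕ}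

/-- The data of the walk agree on a ball. -/
def vlocW (N N' : ℕ → Finset ℕ) (m m' : ℕ → ℕ → ℕ) (μ μ' : ℕ → ℕ) (O O' : ℕ → Prop)
    (v r : ℕ) : Prop :=
  ∀ y ∈ ball N v r, N y = N' y ∧ m y = m' y ∧ μ y = μ' y ∧ (O y ↔ O' y)

theorem vlocW_ball (h : vlocW N N' m m' μ μ' O O' v r) {e : ℕ} (he : e ≤ r) :
    ball N v e = ball N' v e :=
  vloc_ball_eq (fun y hy => (h y hy).1) he

theorem vlocW_symm (h : vlocW N N' m m' μ μ' O O' v r) : vlocW N' N m' m μ' μ O' O v r := by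
  intro y hy
  rw [← vlocW_ball h le_rfl] at hy
  obtain ⟨h1, h2, h3, h4⟩ := h y hy
  exact ⟨h1.symm, h2.symm, h3.symm, h4.symm⟩

theorem vlocW_mono {y e r' : ℕ} (h : vlocW N N' m m' μ μ' O O' v r) (hy : y ∈ ball N v e)
    (hr : e + r' ≤ r) : vlocW N N' m m' μ μ' O O' y r' :=
  fun z hz => h z (vloc_in hy hz hr)

theorem vlocW_NO (h : vlocW N N' m m' μ μ' O O' v 1) : NO N O v = NO N' O' v := by
  have h0 := h v self_mem_ball
  unfold NO
  rw [propext h0.2.2.2, ← h0.1]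
  split_ifs
  · exact Finset.filter_congr fun w hw => (h w (mem_ball_one hw)).2.2.2
  · rfl

theorem vlocW_NO' (h : vlocW N N' m m' μ μ' O O' v (K + 1)) {a : ℕ}
    (ha : a ∈ ball (NO N O) v K) : NO N O a = NO N' O' a :=
  vlocW_NO (vlocW_mono h (ball_NO_sub ha) le_rfl)

theorem vlocW_Cp (h : vlocW N N' m m' μ μ' O O' v (K + 1)) : Cp N O K v = Cp N' O' K v :=
  vloc_ball_eq (fun _ ha => vlocW_NO' h ha) le_rfl

theorem vlocW_sml (h : vlocW N N' m m' μ μ' O O' v (K + 1)) :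
    sml N O K v ↔ sml N' O' K v := by
  unfold sml
  rw [vlocW_Cp h]

theorem vlocW_conn (h : vlocW N N' m m' μ μ' O O' v (K + 1)) {T : Finset ℕ}
    (hT : Conn (NO N O) T v ∧ T.card = K) : Conn (NO N' O') T v ∧ T.card = K :=
  ⟨hT.1.congr fun _ ha => vlocW_NO' h (ball_mono (by omega) (hT.1.sub_ball ha)), hT.2⟩

theorem vlocW_Tg (h : vlocW N N' m m' μ μ' O O' v (K + 1)) : Tg N O K v = Tg N' O' K v := by
  have e : (fun T : Finset ℕ => Conn (NO N O) T v ∧ T.card = K) =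
      fun T : Finset ℕ => Conn (NO N' O') T v ∧ T.card = K := by
    funext T
    exact propext ⟨vlocW_conn h, vlocW_conn (vlocW_symm h)⟩
  unfold Tg
  rw [e, vlocW_Cp h, propext (vlocW_sml h)]

theorem vlocW_src (hμ : Mat N μ) (h : vlocW N N' m m' μ μ' O O' v 1) :
    src μ O v ↔ src μ' O' v := by
  have h0 := h v self_mem_ball
  have h1 : μ v ∈ ball N v 1 := by
    by_cases e : μ v = v
    · rw [e]; exact self_mem_ball
    · exact mem_ball_one (hμ.2 v e)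
  unfold src
  rw [← h0.2.2.1, h0.2.2.2, (h _ h1).2.2.2]

theorem vloc_qq_near (hμ : Mat N μ) (hm : ∀ u w, m u w ≠ 0 → w ∈ N u) {b b' : ℕ}
    (h : qq N m μ O K b b' ≠ 0) : b' ∈ ball N b (K + 2) := by
  obtain ⟨-, -, -, h4, u, hu, h5⟩ := qq_ne_zero hm h
  have h6 : μ b' ∈ ball N b (K + 1) := ball_step (ball_NO_sub hu) h5
  have h7 : μ (μ b') ∈ N (μ b') := hμ.2 _ (by rw [hμ.1]; exact h4.symm)
  rw [hμ.1] at h7
  exact ball_step h6 h7

theorem vlocW_qq (hμ : Mat N μ) (hμ' : Mat N' μ') (hm : ∀ u w, m u w ≠ 0 → w ∈ N u)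
    (hm' : ∀ u w, m' u w ≠ 0 → w ∈ N' u) (h : vlocW N N' m m' μ μ' O O' v (K + 3)) (b' : ℕ) :
    qq N m μ O K v b' = qq N' m' μ' O' K v b' := by
  have hK : vlocW N N' m m' μ μ' O O' v (K + 1) := vlocW_mono h (e := 0) self_mem_ball (by omega)
  by_cases hb : b' ∈ ball N v (K + 2)
  · have hb1 : vlocW N N' m m' μ μ' O O' b' 1 := vlocW_mono h hb le_rfl
    have hv1 : vlocW N N' m m' μ μ' O O' v 1 := vlocW_mono h (e := 0) self_mem_ball (by omega)
    have hC : ∀ u ∈ Cp N O K v, N u = N' u ∧ m u = m' u := fun u hu =>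
      ⟨(h u (ball_mono (by omega) (ball_NO_sub hu))).1,
        (h u (ball_mono (by omega) (ball_NO_sub hu))).2.1⟩
    have e1 : μ b' = μ' b' := (hb1 b' self_mem_ball).2.2.1
    have e2 : (∑ u ∈ Cp N O K v, (m u (μ b') : ℝ)) = ∑ u ∈ Cp N O K v, (m' u (μ b') : ℝ) :=
      Finset.sum_congr rfl fun u hu => by rw [(hC u hu).2]
    have e3 : cutm N m (Cp N O K v) = cutm N' m' (Cp N O K v) :=
      Finset.sum_congr rfl fun u hu => by rw [(hC u hu).1, (hC u hu).2]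
    unfold qq
    rw [e2, e3, ← vlocW_Cp hK, ← e1, propext (vlocW_src hμ hv1), propext (vlocW_src hμ hb1),
      propext (vlocW_sml hK)]
  · have z1 : qq N m μ O K v b' = 0 := by
      by_contra hne
      exact hb (vloc_qq_near hμ hm hne)
    have z2 : qq N' m' μ' O' K v b' = 0 := by
      by_contra hne
      apply hb
      rw [vlocW_ball h (by omega)]
      exact vloc_qq_near hμ' hm' hne
    rw [z1, z2]

theorem vlocW_wk (hμ : Mat N μ) (hμ' : Mat N' μ') (hm : ∀ u w, m u w ≠ 0 → w ∈ N u)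
    (hm' : ∀ u w, m' u w ≠ 0 → w ∈ N' u)
    (h : vlocW N N' m m' μ μ' O O' v (K * (K + 2) + 2 * K + 5)) :
    ∀ i ≤ K, wk N m μ O K v i = wk N' m' μ' O' K v i := by
  intro i
  induction i with
  | zero => intro _; rfl
  | succ i ih =>
    intro hi
    have hle : i * (K + 2) ≤ K * (K + 2) := Nat.mul_le_mul_right _ (by omega)
    funext b'
    simp only [wk]
    rw [← vlocW_ball h (e := i * (K + 2)) (by omega), ih (by omega)]
    refine Finset.sum_congr rfl fun b hb => ?_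
    rw [vlocW_qq hμ hμ' hm hm' (vlocW_mono h hb (by omega))]

end Walk

/-- The walk only reads a ball: `Cp`, `sml`, `Tg`, `qq`, `wk` agree.  `qq b b'` vanishes unless
`μ b'` is adjacent to `Cp b`. -/
theorem xm_congr {N N' : ℕ → Finset ℕ} {m m' : ℕ → ℕ → ℕ} {μ μ' : ℕ → ℕ} {O O' : ℕ → Prop}
    {K u : ℕ} (hμ : Mat N μ) (hμ' : Mat N' μ') (hm : ∀ u w, m u w ≠ 0 → w ∈ N u)
    (hm' : ∀ u w, m' u w ≠ 0 → w ∈ N' u)
    (h : ∀ y ∈ ball N v (K * (K + 2) + 2 * K + 5),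
      N y = N' y ∧ m y = m' y ∧ μ y = μ' y ∧ (O y ↔ O' y)) :
    xm N m μ O K v u = xm N' m' μ' O' K v u := by
  have h' : vlocW N N' m m' μ μ' O O' v (K * (K + 2) + 2 * K + 5) := h
  unfold xm
  rw [← vlocW_ball h' (e := K * (K + 2)) (by omega)]
  congr 1
  refine Finset.sum_congr rfl fun i hi => Finset.sum_congr rfl fun b hb => ?_
  rw [vlocW_Tg (vlocW_mono h' hb (by omega)),
    vlocW_wk hμ hμ' hm hm' h' i (Finset.mem_range.1 hi).le]

theorem vloc_ap {d z : ℕ} {fl : Bool} {K : Finset ℕ} {f : ℕ → ℕ} {b : Prop} (h : SA Q Q' v)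
    (hr : s.row v = s'.row v) :
    (ap Q d fl s z K f b).row v = (ap Q' d fl s' z K f b).row v := by
  have e : (v = z ∧ f z = z ∧ cr Q d fl s z) ↔ (v = z ∧ f z = z ∧ cr Q' d fl s' z) := by
    refine and_congr_right fun hv => ?_
    subst hv
    rw [cr_congr h hr]
  simp only [ap, St.row, glue]
  rw [vloc_mu hr, vloc_mk hr, vloc_rd hr, propext e]

theorem vloc_mov (h : Agr Q Q' s s' x p.smax) {u : ℕ} {t : Finset ℕ × (ℕ → ℕ)}
    (ht : Mov Q p s x u t) : Mov Q' p s' x u t := by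
  obtain ⟨h1, h2, h3⟩ := ht
  exact ⟨h1, vloc_fx h (fun w hw => ball_mono (by omega) (fx_sub_ball h2 hw)) h2, h3⟩

theorem vloc_mov_eq (h : Agr Q Q' s s' x p.smax) (u : ℕ) : Mov Q p s x u = Mov Q' p s' x u := by
  funext t
  exact propext ⟨vloc_mov h, vloc_mov h.symm⟩

theorem vloc_xa (hs : Sym Q.N) (hs' : Sym Q'.N) (hμ : Mat Q.N s.μ) (hμ' : Mat Q'.N s'.μ)
    (hm : ∀ u w, Q.m u w ≠ 0 → w ∈ Q.N u) (hm' : ∀ u w, Q'.m u w ≠ 0 → w ∈ Q'.N u)
    (h : Agr Q Q' s s' x p.Rl) : xa Q p s x = xa Q' p s' x := by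
  have hR : p.Rl = p.K * (p.K + 2) + 2 * p.K + 5 + (2 * p.smax + p.ρ') + p.ρ1 := by
    unfold Par.Rl Par.R
    omega
  have hR2 : p.R = p.K * (p.K + 2) + p.K + 2 := rfl
  funext u
  unfold xa
  congr 1
  refine Finset.sum_congr rfl fun t ht => ?_
  have ht' := Finset.mem_range.1 ht
  have e1 : Stab Q p s t p.R x ↔ Stab Q' p s' t p.R x := by
    unfold Stab
    rw [← h.ball_eq (e := p.R) (by omega)]
    refine forall₂_congr fun y hy => ?_
    have hy' : Agr Q Q' s s' y (2 * p.smax + p.ρ') := h.mono hy (by omega)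
    rw [ot_congr hs hs' (t := t + 1) (by omega) hy', ot_congr hs hs' (t := t) (by omega) hy']
  have e2 : xm Q.N Q.m s.μ (Ot Q p s t) p.K x u = xm Q'.N Q'.m s'.μ (Ot Q' p s' t) p.K x u := by
    refine xm_congr hμ hμ' hm hm' fun y hy => ?_
    have hy0 := h y (ball_mono (by omega) hy)
    exact ⟨hy0.1.1, hy0.1.2.1, vloc_mu hy0.2,
      ot_congr hs hs' (by omega) (h.mono hy (by omega))⟩
  rw [e2, propext e1]

theorem ev1_local (hs : Sym Q.N) (hs' : Sym Q'.N) (hμ : Mat Q.N s.μ) (hμ' : Mat Q'.N s'.μ)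
    (hm : ∀ u w, Q.m u w ≠ 0 → w ∈ Q.N u) (hm' : ∀ u w, Q'.m u w ≠ 0 → w ∈ Q'.N u)
    (h : Agr Q Q' s s' x p.Rl) (hv : v ∈ ball Q.N x p.Rl) :
    (ev1 Q p s x j).row v = (ev1 Q' p s' x j).row v := by
  have hR : p.Rl = p.R + 2 * p.smax + p.ρ' + p.ρ1 + p.K + 3 := rfl
  have hx := h x self_mem_ball
  have hv' := h v hv
  have e1 : hol Q p.d false s x ↔ hol Q' p.d false s' x := vloc_hol hx.1 hx.2
  have e2 : Det Q p s x = Det Q' p s' x := det_congr (vloc_small h (by omega))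
  have e3 : tg Q p s x = tg Q' p s' x := by
    unfold tg
    rw [vloc_xa hs hs' hμ hμ' hm hm' h, h.ball_eq (e := p.R) (by omega)]
  have e4 : ∀ u, Mov Q p s x u = Mov Q' p s' x u := vloc_mov_eq (vloc_small h (by omega))
  have e5 : ∀ u, (j < p.l / 4 ∧ ¬ blk Q s p.ρ1 u ∧ ∃ t, Mov Q p s x u t) ↔
      (j < p.l / 4 ∧ ¬ blk Q' s' p.ρ1 u ∧ ∃ t, Mov Q' p s' x u t) := by
    intro u
    rw [← e4]
    refine and_congr_right fun _ => and_congr_left fun hex => ?_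
    obtain ⟨t, h1, h2, -⟩ := hex
    have hu : u ∈ ball Q.N x p.smax := ball_mono (by omega) (fx_sub_ball h2 h2.2.1)
    rw [blk_congr (h.mono hu (by omega))]
  unfold ev1
  rw [← e2, ← e3, ← propext e1]
  by_cases c1 : hol Q p.d false s x
  · rw [if_pos c1, if_pos c1]
    by_cases c2 : ∃ t, Det Q p s x t
    · rw [if_pos c2, if_pos c2]
      exact vloc_ap hv'.1 hv'.2
    · rw [if_neg c2, if_neg c2]
      by_cases c3 : j < p.l / 4 ∧ ¬ blk Q s p.ρ1 (tg Q p s x j) ∧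
          ∃ t, Mov Q p s x (tg Q p s x j) t
      · rw [if_pos c3, if_pos ((e5 _).1 c3), ← e4]
        exact vloc_ap hv'.1 hv'.2
      · rw [if_neg c3, if_neg fun c => c3 ((e5 _).2 c)]
        exact hv'.2
  · rw [if_neg c1, if_neg c1]
    exact hv'.2

end Pool.Agent.Lib.MP_459a07_lc.V
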