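import Pool.Agent.Lib.MP_459a07_lc.VDefs

set_option autoImplicit false

namespace Pool.Agent.Lib.MP_459a07_lc.V

open Classical

variable {N N' : ℕ → Finset ℕ} {μ ν μ' f : ℕ → ℕ} {K : Finset ℕ} {h z u v r s : ℕ}
  {H H' : ℕ → Prop}

theorem vmat_insert {T : Finset ℕ} {a x : ℕ} (hT : Conn N T v) (ha : a ∈ T) (hx : x ∈ N a) :
    Conn N (insert x T) v := by
  have m1 : ∀ y ∈ T, Relation.ReflTransGen
      (fun a a' => a ∈ insert x T ∧ a' ∈ insert x T ∧ a' ∈ N a) v y := fun y hy =>
    rtg_mono (hT.2 y hy) fun a b hab =>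
      ⟨Finset.mem_insert_of_mem hab.1, Finset.mem_insert_of_mem hab.2.1, hab.2.2⟩
  refine ⟨Finset.mem_insert_of_mem hT.1, fun y hy => ?_⟩
  rcases Finset.mem_insert.1 hy with rfl | h
  · exact (m1 a ha).tail ⟨Finset.mem_insert_of_mem ha, hy, hx⟩
  · exact m1 y h

theorem vmat_closed_succ (h0 : ∀ u ∈ ball N v r, N u ⊆ ball N v r) :
    ∀ u ∈ ball N v (r + 1), N u ⊆ ball N v (r + 1) := by
  intro u hu x hx
  have h1 : u ∈ ball N v r := by
    rcases mem_ball_succ.1 hu with h | ⟨a, ha, h⟩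
    · exact h
    · exact h0 a ha h
  exact mem_ball_succ.2 (Or.inr ⟨u, h1, hx⟩)

theorem vmat_grow (h0 : ¬ ∀ u ∈ ball N v r, N u ⊆ ball N v r) :
    (ball N v r).card < (ball N v (r + 1)).card := by
  refine Finset.card_lt_card (Finset.ssubset_iff_subset_ne.2
    ⟨ball_mono (Nat.le_succ r), fun e => h0 fun u hu x hx => ?_⟩)
  rw [e]
  exact mem_ball_succ.2 (Or.inr ⟨u, hu, hx⟩)

theorem mem_ball_one (hw : v ∈ N u) : v ∈ ball N u 1 := by
  exact mem_ball_succ.2 (Or.inr ⟨u, self_mem_ball, hw⟩)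

theorem ball_step (h1 : u ∈ ball N v r) (h2 : z ∈ N u) : z ∈ ball N v (r + 1) := by
  exact mem_ball_succ.2 (Or.inr ⟨u, h1, h2⟩)

/-- Balls are connected. -/
theorem conn_ball (N : ℕ → Finset ℕ) (u r : ℕ) : Conn N (ball N u r) u := by
  induction r with
  | zero =>
    refine ⟨self_mem_ball, fun y hy => ?_⟩
    have : y = u := by simpa [ball] using hy
    rw [this]
  | succ r ih =>
    have m1 : ∀ y ∈ ball N u r, Relation.ReflTransGen
        (fun a a' => a ∈ ball N u (r + 1) ∧ a' ∈ ball N u (r + 1) ∧ a' ∈ N a) u y := fun y hy =>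
      rtg_mono (ih.2 y hy) fun a b hab =>
        ⟨mem_ball_succ.2 (Or.inl hab.1), mem_ball_succ.2 (Or.inl hab.2.1), hab.2.2⟩
    refine ⟨self_mem_ball, fun y hy => ?_⟩
    rcases mem_ball_succ.1 hy with h | ⟨a, ha, h⟩
    · exact m1 y h
    · exact (m1 a ha).tail ⟨mem_ball_succ.2 (Or.inl ha), hy, h⟩

theorem conn_mono {W : Finset ℕ} (h : Conn N W v) (hs : ∀ a ∈ W, N a ⊆ N' a) : Conn N' W v := by
  exact ⟨h.1, fun y hy => rtg_mono (h.2 y hy) fun a _ hab =>
    ⟨hab.1, hab.2.1, hs a hab.1 hab.2.2⟩⟩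

theorem conn_single (N : ℕ → Finset ℕ) (v : ℕ) : Conn N {v} v := by
  refine ⟨Finset.mem_singleton_self v, fun y hy => ?_⟩
  rw [Finset.mem_singleton.1 hy]

/-- A connected set has connected subsets of every smaller positive size (grow with `Conn.exit`). -/
theorem conn_sub {W : Finset ℕ} (h : Conn N W v) {n : ℕ} (h1 : 1 ≤ n) (h2 : n ≤ W.card) :
    ∃ T ⊆ W, Conn N T v ∧ T.card = n := by
  induction n, h1 using Nat.le_induction with
  | base => exact ⟨{v}, Finset.singleton_subset_iff.2 h.1, conn_single N v, Finset.card_singleton v⟩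
  | succ n _ ih =>
    obtain ⟨T, hTW, hT, hc⟩ := ih (by omega)
    have hex : ¬ W ⊆ T := fun hcon => by
      have := Finset.card_le_card hcon
      omega
    obtain ⟨y, hy, hyT⟩ := Finset.not_subset.1 hex
    obtain ⟨a, ha, x, hx, hxT, hax⟩ := h.exit hT.1 hy hyT
    exact ⟨insert x T, Finset.insert_subset hx hTW, vmat_insert hT ha hax,
      by rw [Finset.card_insert_of_notMem hxT, hc]⟩

/-- A ball with at most `r` points is closed (the cardinality cannot grow at every step). -/
theorem ball_closed (hc : (ball N v r).card ≤ r) : ∀ u ∈ ball N v r, N u ⊆ ball N v r := by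
  have key : ∀ n, (∀ u ∈ ball N v n, N u ⊆ ball N v n) ∨ n + 2 ≤ (ball N v (n + 1)).card := by
    intro n
    induction n with
    | zero =>
      by_cases hcl : ∀ u ∈ ball N v 0, N u ⊆ ball N v 0
      · exact Or.inl hcl
      · right
        have h1 : 0 < (ball N v 0).card := Finset.card_pos.2 ⟨v, self_mem_ball⟩
        have h2 := vmat_grow hcl
        omega
    | succ n ih =>
      by_cases hcl : ∀ u ∈ ball N v (n + 1), N u ⊆ ball N v (n + 1)
      · exact Or.inl hcl
      · right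
        have h1 := ih.resolve_left fun h0 => hcl (vmat_closed_succ h0)
        have h2 := vmat_grow hcl
        omega
  cases r with
  | zero =>
    have h1 : 0 < (ball N v 0).card := Finset.card_pos.2 ⟨v, self_mem_ball⟩
    omega
  | succ r =>
    rcases key r with h0 | h0
    · exact vmat_closed_succ h0
    · omega

/-- A union of connected sets each of which meets a connected set `X` or contains a neighbour of
a point of `X`. -/
theorem conn_biUnion (hs : Sym N) {X I : Finset ℕ} {T : ℕ → Finset ℕ} {r : ℕ → ℕ}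
    (hX : Conn N X v) (hT : ∀ i ∈ I, Conn N (T i) (r i))
    (hm : ∀ i ∈ I, ∃ a ∈ X, a ∈ T i ∨ ∃ b ∈ T i, b ∈ N a) : Conn N (X ∪ I.biUnion T) v := by
  induction I using Finset.induction_on with
  | empty => simpa using hX
  | insert i I _ ih =>
    have h1 := ih (fun j hj => hT j (Finset.mem_insert_of_mem hj))
      fun j hj => hm j (Finset.mem_insert_of_mem hj)
    have hTi := hT i (Finset.mem_insert_self _ _)
    have e : X ∪ (insert i I).biUnion T = (X ∪ I.biUnion T) ∪ T i := by
      rw [Finset.biUnion_insert, Finset.union_comm (T i), Finset.union_assoc]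
    rw [e]
    obtain ⟨a, ha, h2 | ⟨b, hb, hab⟩⟩ := hm i (Finset.mem_insert_self _ _)
    · exact h1.union (hTi.rebase hs h2) (Finset.mem_union_left _ ha)
    · have h3 := (vmat_insert h1 (Finset.mem_union_left _ ha) hab).union (hTi.rebase hs hb)
        (Finset.mem_insert_self _ _)
      rwa [Finset.insert_union, Finset.insert_eq_of_mem (Finset.mem_union_right _ hb)] at h3

theorem ball_subS {S : Finset ℕ} (hs : Sym N) (hsub : ∀ u v, v ∈ N u → u ∈ S) (hv : v ∈ S) :
    ball N v r ⊆ S := by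
  induction r with
  | zero => exact Finset.singleton_subset_iff.2 hv
  | succ r ih =>
    intro x hx
    rcases mem_ball_succ.1 hx with h | ⟨a, -, h⟩
    · exact ih h
    · exact hsub x a (hs a x h)

/-- An involution of a finite set: the number of fixed points has the parity of the set. -/
theorem fix_parity {S : Finset ℕ} (hinv : ∀ v ∈ S, μ v ∈ S ∧ μ (μ v) = v) :
    (S.filter fun v => μ v = v).card % 2 = S.card % 2 := by
  have h1 := Finset.card_filter_add_card_filter_not (s := S) fun v => μ v = v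
  have h2 : Even (S.filter fun v => ¬ μ v = v).card := by
    have h3 : ∑ _v ∈ S.filter (fun v => ¬ μ v = v), (1 : ZMod 2) = 0 := by
      refine Finset.sum_involution (fun a _ => μ a) (fun _ _ => by decide)
        (fun a ha _ => (Finset.mem_filter.1 ha).2) (fun a ha => ?_) fun a ha => ?_
      · obtain ⟨h4, h5⟩ := Finset.mem_filter.1 ha
        refine Finset.mem_filter.2 ⟨(hinv a h4).1, fun h6 => h5 ?_⟩
        rw [← h6]
        exact (hinv a h4).2
      · exact (hinv a (Finset.mem_filter.1 ha).1).2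
    rw [Finset.sum_const, nsmul_eq_mul, mul_one] at h3
    exact (ZMod.natCast_eq_zero_iff_even).1 h3
  obtain ⟨c, hc⟩ := h2
  omega

theorem sc_mono (K : ℕ) : Monotone (sc K) := by
  refine monotone_nat_of_le_succ fun t => ?_
  have : sc K (t + 1) = (2 * K + 10) * (sc K t + 10) := rfl
  rw [this]
  nlinarith [Nat.zero_le (K * sc K t)]

theorem sc_pos (K t : ℕ) : 1 ≤ sc K t := by
  exact sc_mono K (Nat.zero_le t)

theorem mat_glue (hμ : Mat N μ)
    (hK : ∀ v ∈ K, μ v ∈ K ∧ f v ∈ K ∧ f (f v) = v ∧ (f v ≠ v → f v ∈ N v)) :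
    Mat N (glue K f μ) := by
  have h1 : ∀ v, v ∉ K → μ v ∉ K := fun v hv h0 => hv (by
    have := (hK _ h0).1
    rwa [hμ.1] at this)
  refine ⟨fun v => ?_, fun v => ?_⟩
  · unfold glue
    by_cases hv : v ∈ K
    · rw [if_pos hv, if_pos (hK v hv).2.1]
      exact (hK v hv).2.2.1
    · rw [if_neg hv, if_neg (h1 v hv)]
      exact hμ.1 v
  · unfold glue
    by_cases hv : v ∈ K
    · rw [if_pos hv]
      exact (hK v hv).2.2.2
    · rw [if_neg hv]
      exact hμ.2 v

theorem fx_sub_ball (hf : Fx N μ h z K f) : K ⊆ ball N h (K.card - 1) := hf.1.sub_ball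

theorem fx_congr (hf : Fx N μ h z K f) (hN : ∀ v ∈ K, N v = N' v) (hm : ∀ v ∈ K, μ v = μ' v) :
    Fx N' μ' h z K f := by
  refine ⟨hf.1.congr hN, hf.2.1, fun v hv => ?_, fun v hv => ?_⟩
  · rw [← hN v hv, ← hm v hv]
    exact hf.2.2.1 v hv
  · rw [← hm v hv]
    exact hf.2.2.2 v hv

theorem fx_self (hh : μ h = h) : Fx N μ h h {h} id := by
  refine ⟨conn_single N h, Finset.mem_singleton_self h, fun v hv => ?_, fun v hv _ => ?_⟩
  · have e := Finset.mem_singleton.1 hv
    subst e
    exact ⟨Finset.mem_singleton.2 hh, hv, rfl, fun h0 => absurd rfl h0⟩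
  · exact Or.inr (Finset.mem_singleton.1 hv)

theorem oe_mono {s' : ℕ} (hs : s ≤ s') (hH : ∀ x, H x → H' x) (h : Oe N μ H s u) :
    Oe N μ H' s' u := by
  obtain ⟨x, K, f, h1, h2, h3, h4⟩ := h
  exact ⟨x, K, f, hH x h1, h2.trans hs, h3, h4⟩

end Pool.Agent.Lib.MP_459a07_lc.V
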