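import Pool.Agent.Lib.MP_459a07_lc.VClean2
import Pool.Agent.Lib.MP_459a07_lc.VLight

set_option autoImplicit false

namespace Pool.Agent.Lib.MP_459a07_lc.V

open Classical

variable {Q : Inst} {k d L σ : ℕ} {p : Par} {s : St}

private theorem vmini_ind_true (a : Prop) : ind (true = true ∧ a) = ind a := by
  have : (true = true ∧ a) = a := by simp
  rw [this]

private theorem vmini_ind_false (a : Prop) : ind (false = true ∧ a) = 0 := by
  simp [ind]

private theorem vmini_ind_neg {a : Prop} (h : ¬ a) : ind a = 0 := by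
  simp [ind, h]

private theorem vmini_dgsum (hV : Q.Valid k d L σ) (A : Finset ℕ) :
    ∑ a ∈ A, dg Q.N Q.m a ≤ d * A.card := by
  have h := Finset.sum_le_card_nsmul A (fun a => dg Q.N Q.m a) d
    (fun a _ => le_trans (Nat.le_add_right _ _) (hV.deg a))
  rw [smul_eq_mul, mul_comm] at h
  exact h

/-- Without a fix there is no augmentation and all reachable nodes are blocked. -/
private theorem vmini_nofix {fl : Bool} {ρ h : ℕ} (hno : ¬ ∃ t, Fix Q d fl ρ s h t) :
    (∀ z K f, Fx Q.N s.μ h z K f → f z = z ∧ cr Q d fl s z ∧ blk Q s ρ z) := by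
  intro z K f hf
  by_contra hc
  apply hno
  refine ⟨(z, K, f), hf, ?_⟩
  by_cases h1 : f z = z
  · by_cases h2 : cr Q d fl s z
    · exact Or.inr (Or.inr fun h3 => hc ⟨h1, h2, h3⟩)
    · exact Or.inr (Or.inl h2)
  · exact Or.inl h1

private theorem vmini_gex (hV : Q.Valid k d L σ) {fl : Bool} {ρ h : ℕ} (hμ : Mat Q.N s.μ)
    (hh : s.μ h = h) (hno : ¬ ∃ t, Fix Q d fl ρ s h t) :
    ∃ (B A : Finset ℕ) (C : ℕ → Finset ℕ), GE Q.N B A C ∧ A.card + 1 ≤ B.card ∧
      ∀ b ∈ B, ∀ u ∈ C b, ∃ K f, Fx Q.N s.μ h u K f := by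
  obtain ⟨B, A, C, hG, hc, hr, -⟩ := gex hV.sym hV.irr hV.sub hμ ({h} : Finset ℕ)
    (fun x hx => by rw [Finset.mem_singleton.1 hx]; exact hh)
    (fun n h' z K f hh' _ hf => by
      rw [Finset.mem_singleton.1 hh'] at hf
      exact (vmini_nofix hno z K f hf).1)
  refine ⟨B, A, C, hG, by simpa using hc, fun b hb u hu => ?_⟩
  obtain ⟨n, h', K, f, hh', -, hf, -⟩ := hr b hb u hu
  rw [Finset.mem_singleton.1 hh'] at hf
  exact ⟨K, f, hf⟩

/-- The first clean-up.  If a hole had no fix, `gex` for the single source would give components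
that are blocked and should be covered, `cut_ge` and `cnt` give
`d (|A| + 1) ≤ d |B| ≤ d |A|`. -/
theorem clean1 (hV : Q.Valid k d L σ) (hP : PC k d L σ p) :
    Cleanable Q d false p.ρ1 (Inv Q p) := by
  refine ⟨fun s hI => hI.mat, fun s h hI => ?_, fun s h hI hh => ?_⟩
  · unfold ev2
    split_ifs with hc
    · have hm := mfix_spec hc.2
      refine inv_ap hV hP hI hm.1.1 fun h1 h2 => ⟨fun h3 => ?_, fun h3 => absurd trivial h3⟩
      rcases hm.1.2 with h4 | h4 | h4
      · exact h4 h1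
      · exact h4 h2
      · exact h4 h3
    · exact hI
  · by_contra hno
    obtain ⟨B, A, C, hG, hc, hr⟩ := vmini_gex hV hI.mat hh.2 hno
    have h1 : ∀ b ∈ B, d ≤ cutm Q.N Q.m (C b) := by
      intro b hb
      refine cut_ge (s := s) (ρ := p.ρ') hV hP.hL hP.hσ (hG.conn b hb) (hG.odd b hb) ?_
      intro u hu
      obtain ⟨K, f, hf⟩ := hr b hb u hu
      have h2 := vmini_nofix hno u K f hf
      exact ⟨h2.2.1, blk_mono hP.hρ h2.2.2⟩
    have h2 : B.card * d ≤ ∑ b ∈ B, cutm Q.N Q.m (C b) := by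
      have := Finset.card_nsmul_le_sum B (fun b => cutm Q.N Q.m (C b)) d h1
      rwa [smul_eq_mul] at this
    have h3 := cnt (m := Q.m) hV.sym hV.msym hG
    have h4 := vmini_dgsum hV A
    have h5 := hV.d2
    have h6 : (A.card + 1) * d ≤ B.card * d := Nat.mul_le_mul_right d hc
    nlinarith

/-- A connected set of nodes close to tainted nodes that contains a `hw` hole is small: otherwise
take a connected subset with `E + 1` nodes; tainted nodes within `E + ρ2 + 3` of `w` are `tn`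
nodes, at most two. -/
theorem near_small (hV : Q.Valid k d L σ) {ρ1 ρ2 E : ℕ} (hE : E = 2 * (k + 1) ^ (ρ2 + 3))
    (h1 : E + ρ2 + 3 ≤ ρ1) (h2 : 2 * E + ρ2 + 3 ≤ σ) (hI : Inv2 Q d ρ1 ρ2 E s) {w : ℕ}
    (hw : hol Q d true s w) {K : Finset ℕ} (hK : Conn Q.N K w)
    (h : ∀ y ∈ K, ∃ z ∈ ball Q.N y (ρ2 + 3), tnt Q s z) : K.card ≤ E := by
  by_contra hc
  obtain ⟨T, hTK, hT, hcard⟩ := conn_sub hK (n := E + 1) (by omega) (by omega)
  have hTb : T ⊆ ball Q.N w E := by
    have := hT.sub_ball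
    rwa [hcard, Nat.add_sub_cancel] at this
  have hwh : Q.hw w := hI.holhw w hw
  have hsub : T ⊆ ((ball Q.N w σ).filter Q.tn).biUnion fun z => ball Q.N z (ρ2 + 3) := by
    intro y hy
    obtain ⟨z, hz, htz⟩ := h y (hTK hy)
    have hzw : z ∈ ball Q.N w (E + (ρ2 + 3)) := ball_trans (hTb hy) hz
    have htn : Q.tn z := by
      rcases htz with htz | htz
      · exact htz
      · exfalso
        rcases hI.old z htz with ho | ⟨w', hw', hnw, hzw'⟩
        · exact ho w (ball_mono (by omega) (ball_symm hV.sym hzw)) (hV.hwtn w hwh)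
        · have hw'w : w' ∈ ball Q.N w σ :=
            ball_mono (by omega) (ball_trans hzw (ball_symm hV.sym hzw'))
          have := Finset.card_le_one.1 (hV.hw1 w) w' (Finset.mem_filter.2 ⟨hw'w, hw'⟩) w
            (Finset.mem_filter.2 ⟨self_mem_ball, hwh⟩)
          exact hnw (this ▸ hw)
    exact Finset.mem_biUnion.2 ⟨z, Finset.mem_filter.2 ⟨ball_mono (by omega) hzw, htn⟩,
      ball_symm hV.sym hz⟩
  have h3 := Finset.card_le_card hsub
  have h4 : (((ball Q.N w σ).filter Q.tn).biUnion fun z => ball Q.N z (ρ2 + 3)).card ≤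
      ((ball Q.N w σ).filter Q.tn).card * (k + 1) ^ (ρ2 + 3) :=
    Finset.card_biUnion_le_card_mul _ _ _ fun z _ => card_ball hV.card
  have h5 := Nat.mul_le_mul_right ((k + 1) ^ (ρ2 + 3)) (hV.tn2 w)
  omega

/-- The second clean-up.  Existence of a fix: by `gex`; every reachable node lies in
`ball w E` (`minp`, `near_small`), the components have at most `2 (k + 1) ^ ρ2 ≤ L` nodes, at
most one `hw` node occurs, so `d (|A| + 1) ≤ d |A| + 1`, against `2 ≤ d`.  Invariance: a smallest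
fix has at most `E` nodes; a new mark is not `tn`, so not `hw`, so it has degree `d`. -/
theorem clean2 (hV : Q.Valid k d L σ) {ρ1 ρ2 E : ℕ} (hE : E = 2 * (k + 1) ^ (ρ2 + 3))
    (h1 : E + ρ2 + 3 ≤ ρ1) (h2 : 2 * E + ρ2 + 3 ≤ σ) (h3 : E ≤ L) :
    Cleanable Q d true ρ2 (Inv2 Q d ρ1 ρ2 E) := by
  have near : ∀ (s : St) (y u : ℕ), blk Q s ρ2 u → y ∈ ball Q.N u 3 →
      ∃ z ∈ ball Q.N y (ρ2 + 3), tnt Q s z := by
    intro s y u hb hy
    obtain ⟨z, hz, htz⟩ := hb
    exact ⟨z, ball_mono (by omega) (ball_trans (ball_symm hV.sym hy) hz), htz⟩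
  have hblk : ∀ (s : St) (h : ℕ), Inv2 Q d ρ1 ρ2 E s → hol Q d true s h → blk Q s ρ2 h :=
    fun s h hI hh => ⟨h, self_mem_ball, Or.inl (hV.hwtn h (hI.holhw h hh))⟩
  refine ⟨fun s hI => hI.mat, fun s h hI => ?_, fun s h hI hh => ?_⟩
  · unfold ev2
    split_ifs with hc
    swap
    · exact hI
    obtain ⟨hh, hex⟩ := hc
    have hm := mfix_spec hex
    generalize epsilon (MFix Q d true ρ2 s h) = t at hm
    obtain ⟨z, K, f⟩ := t
    obtain ⟨⟨hf, hok⟩, hsz⟩ := hm
    simp only at hf hok hsz ⊢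
    have hnew : f z = z → cr Q d true s z → ¬ blk Q s ρ2 z := by
      intro a1 a2 a3
      rcases hok with a | a | a
      · exact a a1
      · exact a a2
      · exact a a3
    have hKE : K.card ≤ E := by
      refine near_small hV hE h1 h2 hI hh hf.1 fun y hy => ?_
      obtain ⟨u, hu, hyu⟩ := minp hV.sym hI.mat hh.2
        (fun z => ¬ cr Q d true s z ∨ ¬ blk Q s ρ2 z) hf hok
        (fun z' K' f' hf' hok' => by
          rw [hsz]
          exact Nat.sInf_le ⟨(z', K', f'), ⟨hf', hok'⟩, rfl⟩) y hy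
      refine near s y u ?_ hyu
      rcases hu with rfl | hu
      · exact hblk s u hI hh
      · rw [hsz] at hu
        exact (small_blk hu hex).2
    refine ⟨mat_glue hI.mat hf.2.2.1, ?_, ?_, ?_, ?_⟩
    · rintro u (hu | ⟨rfl, a1, a2⟩)
      · exact hI.mkdeg u hu
      · have hn : ¬ Q.hw u := fun a =>
          hnew a1 a2 ⟨u, self_mem_ball, Or.inl (hV.hwtn u a)⟩
        have := a2.1
        rw [vmini_ind_true, vmini_ind_neg hn] at this
        exact this
    · rintro u (hu | ⟨rfl, a1, a2⟩) y hy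
      · refine ⟨(hI.sep u hu y hy).1, ?_⟩
        rintro (a | ⟨rfl, a1, a2⟩)
        · exact (hI.sep u hu y hy).2 a
        · exact absurd ⟨u, ball_symm hV.sym hy, Or.inr hu⟩ (hnew a1 a2)
      · refine ⟨fun a => hnew a1 a2 ⟨y, hy, Or.inl a⟩, ?_⟩
        rintro (a | ⟨a, -⟩)
        · exact absurd ⟨y, hy, Or.inr a⟩ (hnew a1 a2)
        · exact a
    · intro v hv
      exact hI.holhw v (ap_hol hf hv).1
    · rintro u (hu | ⟨rfl, a1, a2⟩)
      · rcases hI.old u hu with a | ⟨w, a1, a2, a3⟩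
        · exact Or.inl a
        · exact Or.inr ⟨w, a1, fun a => a2 (ap_hol hf a).1, a3⟩
      · refine Or.inr ⟨h, hI.holhw h hh, fun a => (ap_hol hf a).2 rfl, ?_⟩
        exact ball_mono (by omega) (fx_sub_ball hf hf.2.1)
  · by_contra hno
    obtain ⟨B, A, C, hG, hc, hr⟩ := vmini_gex hV hI.mat hh.2 hno
    have hnf := vmini_nofix hno
    -- every reachable node has a patch all of whose nodes are near tainted nodes
    have hmin : ∀ u K f, Fx Q.N s.μ h u K f → ∃ K' : Finset ℕ, Conn Q.N K' h ∧ u ∈ K' ∧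
        ∀ y ∈ K', ∃ z ∈ ball Q.N y (ρ2 + 3), tnt Q s z := by
      intro u K f hf
      have hex : ∃ n, ∃ K' f', Fx Q.N s.μ h u K' f' ∧ K'.card = n := ⟨_, K, f, hf, rfl⟩
      obtain ⟨K', f', hf', hn⟩ := Nat.find_spec hex
      refine ⟨K', hf'.1, hf'.2.1, fun y hy => ?_⟩
      obtain ⟨v, hv, hyv⟩ := minp hV.sym hI.mat hh.2 (fun z => z = u) hf' (Or.inr rfl)
        (fun z' K'' f'' hf'' hok => by
          rcases hok with a | rfl
          · exact absurd (hnf z' K'' f'' hf'').1 a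
          · rw [hn]
            exact Nat.find_min' hex ⟨K'', f'', hf'', rfl⟩) y hy
      refine near s y v ?_ hyv
      rcases hv with rfl | ⟨h', K'', f'', rfl, -, hf'', -⟩
      · exact hblk s v hI hh
      · exact (hnf v K'' f'' hf'').2.2
    have hsm : ∀ b ∈ B, (C b).card ≤ E ∧ C b ⊆ ball Q.N h σ := by
      intro b hb
      obtain ⟨K, f, hf⟩ := hr b hb b (hG.conn b hb).1
      obtain ⟨K', hK', hbK, hnear⟩ := hmin b K f hf
      have hU : Conn Q.N (K' ∪ C b) h := hK'.union (hG.conn b hb) hbK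
      have hcard : (K' ∪ C b).card ≤ E := by
        refine near_small hV hE h1 h2 hI hh hU fun y hy => ?_
        rcases Finset.mem_union.1 hy with a | a
        · exact hnear y a
        · obtain ⟨K2, f2, hf2⟩ := hr b hb y a
          exact near s y y (hnf y K2 f2 hf2).2.2 self_mem_ball
      refine ⟨le_trans (Finset.card_le_card Finset.subset_union_right) hcard, fun y hy => ?_⟩
      exact ball_mono (by omega) (hU.sub_ball (Finset.mem_union_right _ hy))
    have g1 : ∀ b ∈ B, d ≤ cutm Q.N Q.m (C b) + ((C b).filter Q.hw).card := by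
      intro b hb
      refine hV.nodef (C b) b (hG.conn b hb) (hG.odd b hb) (le_trans (hsm b hb).1 h3) ?_
      intro u hu
      obtain ⟨K, f, hf⟩ := hr b hb u hu
      have := (hnf u K f hf).2.1.1
      rwa [vmini_ind_true] at this
    have g2 : B.card * d ≤ ∑ b ∈ B, (cutm Q.N Q.m (C b) + ((C b).filter Q.hw).card) := by
      have := Finset.card_nsmul_le_sum B
        (fun b => cutm Q.N Q.m (C b) + ((C b).filter Q.hw).card) d g1
      rwa [smul_eq_mul] at this
    have g3 : ∑ b ∈ B, ((C b).filter Q.hw).card ≤ 1 := by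
      rw [← Finset.card_biUnion]
      · refine le_trans (Finset.card_le_card fun y hy => ?_) (hV.hw1 h)
        obtain ⟨b, hb, hy⟩ := Finset.mem_biUnion.1 hy
        rw [Finset.mem_filter] at hy ⊢
        exact ⟨(hsm b hb).2 hy.1, hy.2⟩
      · intro b hb b' hb' hne
        exact Finset.disjoint_filter_filter (hG.disj b hb b' hb' hne)
    rw [Finset.sum_add_distrib] at g2
    have g4 := cnt (m := Q.m) hV.sym hV.msym hG
    have g5 := vmini_dgsum hV A
    have g6 := hV.d2
    have g7 : (A.card + 1) * d ≤ B.card * d := Nat.mul_le_mul_right d hc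
    nlinarith

theorem inv2_of (hV : Q.Valid k d L σ) (hP : PC k d L σ p) {ρ2 E : ℕ} (h : ρ2 ≤ p.ρ1)
    (hI : Inv Q p s) (hh : ∀ v, ¬ hol Q d false s v) : Inv2 Q d p.ρ1 ρ2 E s := by
  refine ⟨hI.mat, fun u hu => hP.hd ▸ hI.mkdeg u hu,
    fun u hu z hz => hI.sep u hu z (ball_mono h hz), fun v hv => ?_,
    fun u hu => Or.inl fun z hz => (hI.sep u hu z hz).1⟩
  by_contra hn
  apply hh v
  refine ⟨⟨?_, hv.1.2⟩, hv.2⟩
  have := hv.1.1
  rw [vmini_ind_true, vmini_ind_neg hn] at this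
  rw [vmini_ind_false]
  exact this

theorem thin2 (hV : Q.Valid k d L σ) (hP : PC k d L σ p) {C : ℕ} (h : 4 * C + 2 ≤ p.ρ1)
    (hI : Inv Q p s) (hh : ∀ v, ¬ hol Q d false s v) :
    Thin Q.S Q.N p.ρ1 C (bad0 Q d true s) := by
  intro X v _ hX hc
  have hI2 : Inv2 Q d p.ρ1 0 0 s := inv2_of hV hP (Nat.zero_le _) hI hh
  have h1 : X.filter (bad0 Q d true s) ⊆ X.filter (tnt Q s) := by
    intro y hy
    rw [Finset.mem_filter] at hy ⊢
    refine ⟨hy.1, ?_⟩
    rcases hy.2 with a | a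
    · exact a
    · exact Or.inl (hV.hwtn y (hI2.holhw y a))
  have h2 := sparse_count (r := 2 * C + 1) hV.sym
    (fun a => tnt_sparse hV hP hI (r := 2 * C + 1) (by omega) a) hX (by omega)
  have h3 := Finset.card_le_card h1
  have h4 : 0 < X.card := Finset.card_pos.2 ⟨v, hX.1⟩
  have h5 : C * (X.filter (bad0 Q d true s)).card ≤ C * (X.filter (tnt Q s)).card :=
    Nat.mul_le_mul_left C h3
  rcases Nat.eq_zero_or_pos (X.filter (tnt Q s)).card with h6 | h6
  · rw [h6] at h5
    omega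
  · nlinarith

theorem spec_of {ρ1 ρ2 E : ℕ} (hI : Inv2 Q d ρ1 ρ2 E s) (hh : ∀ v, ¬ hol Q d true s v) :
    Spec Q d ρ2 s := by
  refine ⟨hI.mat, fun v h1 h2 => ?_, hI.mkdeg, hI.sep⟩
  by_contra hn
  exact hh v ⟨⟨by rw [vmini_ind_true]; exact h1, hn⟩, h2⟩

end Pool.Agent.Lib.MP_459a07_lc.V
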