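import Pool.Agent.Lib.MP_459a07_lc.VAct

set_option autoImplicit false

namespace Pool.Agent.Lib.MP_459a07_lc.V

open Classical

variable {Q : Inst} {k d L σ ρ : ℕ} {p : Par} {s : St} {x j t u v z : ℕ} {fl : Bool}
  {K : Finset ℕ} {f : ℕ → ℕ} {r : Prop}

theorem vnice_noaug {N : ℕ → Finset ℕ} {μ : ℕ → ℕ} {H H' : ℕ → Prop} {a b : ℕ}
    (h : NoAug N μ H b) (hab : a ≤ b) (hH : ∀ y, H' y → H y) : NoAug N μ H' a :=
  fun h0 z K f h1 h2 h3 => h h0 z K f (hH _ h1) (h2.trans hab) h3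

theorem vnice_sc (K t : ℕ) : sc K (t + 1) = (2 * K + 10) * (sc K t + 10) := rfl

theorem vnice_le (ht : t < p.Ts) : sc p.K (t + 1) ≤ p.smax := sc_mono p.K ht

theorem vnice_fix {y : ℕ} (h : Stuck Q p s y) : s.μ y = y := h.1.2

theorem vnice_na (ht : t < p.Ts) : NoAug Q.N s.μ (Stuck Q p s) (sc p.K (t + 1)) :=
  vnice_noaug stuck_noaug (vnice_le ht) fun _ h => h

theorem vnice_mate {N : ℕ → Finset ℕ} {μ : ℕ → ℕ} (hμ : Mat N μ) {b a n : ℕ}
    (h : a ∈ ball N b n) : μ a ∈ ball N b (n + 1) := by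
  by_cases e : μ a = a
  · rw [e]; exact ball_mono (Nat.le_succ n) h
  · exact ball_step h (hμ.2 a e)

theorem vnice_strong (hI : Inv Q p s) {b : ℕ} (h1 : src s.μ (Ot Q p s t) b)
    (h2 : Stab Q p s t (p.K + 2) b) :
    strong Q.N s.μ (Stuck Q p s) (sc p.K t) (sc p.K (t + 1)) b := by
  refine ⟨h1.1, ?_⟩
  rcases h1.2 with h | h
  · exact Or.inl h
  · refine Or.inr fun h' => h (h2 _ ?_ h')
    exact ball_mono (by omega) (vnice_mate hI.mat (self_mem_ball (r := 0)))

/-- The sources with a stable neighbourhood are good (`mate`, `strong_uniq`, `comp_odd`,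
`cut_ge`, `ball_closed`). -/
theorem nice (hV : Q.Valid k d L σ) (hP : PC k d L σ p) (hI : Inv Q p s) (ht : t < p.Ts) :
    Nice Q.N Q.m s.μ (Ot Q p s t) p.K d
      fun b => src s.μ (Ot Q p s t) b ∧ Stab Q p s t (p.K + 2) b := by
  have hna := vnice_na (Q := Q) (s := s) ht
  have hH : ∀ y, Stuck Q p s y → s.μ y = y := fun y h => vnice_fix h
  have hsc := vnice_sc p.K t
  refine ⟨hV.sym, hI.mat, hV.msym, fun u w h => (hV.mN u w).1 h, fun a => ?_, ?_, hP.hK,
    fun b h => h.1, ?_, ?_, ?_⟩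
  · have := hV.deg a
    omega
  · have := hV.d2
    omega
  · rintro b ⟨h1, h2⟩ hsm
    have hst := vnice_strong hI h1 h2
    refine cut_ge (s := s) (b := b) hV hP.hL hP.hσ ?_ ?_ ?_
    · exact conn_mono (conn_ball _ b p.K) fun a _ => NO_sub _ _ a
    · refine comp_odd (p := p.K) hV.sym hV.irr hI.mat hH hna hst ?_ (le_of_lt hsm) ?_
      · rw [hsc]
        exact Nat.mul_le_mul (by omega) (by omega)
      · intro u hu h
        exact h2 _ (ball_mono (by omega) (vnice_mate hI.mat (ball_NO_sub hu))) h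
    · intro u hu
      exact ot_spec hP ht.le (ball_NO_O h1.1 hu)
  · rintro b ⟨h1, h2⟩ hsm u hu a ha hna'
    have hOu : Ot Q p s t u := ball_NO_O h1.1 hu
    have hcl := ball_closed (le_of_lt hsm) u hu
    have hOa : ¬ Ot Q p s t a := by
      intro h
      apply hna'
      apply hcl
      unfold NO
      rw [if_pos hOu]
      exact Finset.mem_filter.2 ⟨ha, h⟩
    have hle : sc p.K t + 5 ≤ sc p.K (t + 1) := by
      rw [hsc]
      calc sc p.K t + 5 ≤ 1 * (sc p.K t + 10) := by omega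
        _ ≤ _ := Nat.mul_le_mul_right _ (by omega)
    obtain ⟨h3, h4⟩ := mate hV.sym hV.irr hI.mat hH (vnice_noaug hna hle fun _ h => h) hOu ha hOa
    refine ⟨hOa, h3, h2 _ ?_ (oe_mono hle (fun _ h => h) h4)⟩
    exact vnice_mate hI.mat (ball_step (ball_NO_sub hu) ha)
  · rintro b b' u ⟨h1, h2⟩ ⟨h1', h2'⟩ hu hu'
    refine strong_uniq (p := p.K + p.K) hV.sym hV.irr hI.mat hH hna (vnice_strong hI h1 h2)
      (vnice_strong hI h1' h2') ?_ ?_
    · rw [hsc]
      exact Nat.mul_le_mul (by omega) (by omega)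
    · exact ball_trans hu (ball_symm (NO_sym hV.sym) hu')

theorem start (hx : Stuck Q p s x) (hs : Stab Q p s t p.R x) :
    Start Q.N s.μ (Ot Q p s t) p.K
      (fun b => src s.μ (Ot Q p s t) b ∧ Stab Q p s t (p.K + 2) b) x := by
  refine ⟨vnice_fix hx, ⟨x, {x}, id, hx, ?_, fx_self (vnice_fix hx), rfl⟩, ?_⟩
  · rw [Finset.card_singleton]
    exact sc_pos _ _
  · intro b hb h
    refine ⟨h, fun u hu => hs u ?_⟩
    have := ball_trans hb hu
    unfold Par.R
    rw [Nat.add_assoc]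
    exact this

theorem vnice_good (hV : Q.Valid k d L σ) (hP : PC k d L σ p) (hI : Inv Q p s) (ht : t < p.Ts)
    (hx : Stuck Q p s x) (hs : Stab Q p s t p.R x) {i b : ℕ} (hi : i ≤ p.K)
    (h : wk Q.N Q.m s.μ (Ot Q p s t) p.K x i b ≠ 0) :
    strong Q.N s.μ (Stuck Q p s) (sc p.K t) (sc p.K (t + 1)) b := by
  obtain ⟨h1, h2⟩ := wk_supp (nice hV hP hI ht) (start hx hs) h
  have h3 := (start hx hs).2.2 b (ball_mono (Nat.mul_le_mul_right _ hi) h1) h2
  exact vnice_strong hI h3.1 h3.2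

theorem vnice_bound {K a i : ℕ} (hi : i ≤ K) :
    1 + i * (a + 10) + a + 5 + 5 ≤ (2 * K + 10) * (a + 10) := by
  have h1 : i * (a + 10) ≤ K * (a + 10) := Nat.mul_le_mul_right _ hi
  have h2 : (2 * K + 10) * (a + 10) = 2 * (K * (a + 10)) + 10 * a + 100 := by ring
  omega

theorem vnice_own (hV : Q.Valid k d L σ) (hP : PC k d L σ p) (hI : Inv Q p s) (ht : t < p.Ts)
    (hx : Stuck Q p s x) (hs : Stab Q p s t p.R x) {i b : ℕ} (hi : i ≤ p.K)
    (h : wk Q.N Q.m s.μ (Ot Q p s t) p.K x i b ≠ 0)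
    (ho : Oe Q.N s.μ (fun y => y = x) (1 + i * (sc p.K t + 10)) b)
    (hu : u ∈ Cp Q.N (Ot Q p s t) p.K b) :
    Oe Q.N s.μ (fun y => y = x) (1 + i * (sc p.K t + 10) + sc p.K t + 5) u := by
  have hb := vnice_bound (a := sc p.K t) hi
  refine own_step (p := p.K) hV.sym hV.irr hI.mat (fun y h => vnice_fix h) (vnice_na ht) hx
    (vnice_good hV hP hI ht hx hs hi h) ?_ ?_ ho hu
  · rw [vnice_sc]
    exact Nat.mul_le_mul (by omega) (by omega)
  · rw [vnice_sc]
    omega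

theorem vnice_walk (hV : Q.Valid k d L σ) (hP : PC k d L σ p) (hI : Inv Q p s) (ht : t < p.Ts)
    (hx : Stuck Q p s x) (hs : Stab Q p s t p.R x) (i : ℕ) : ∀ b, i ≤ p.K →
    wk Q.N Q.m s.μ (Ot Q p s t) p.K x i b ≠ 0 →
    Oe Q.N s.μ (fun y => y = x) (1 + i * (sc p.K t + 10)) b := by
  induction i with
  | zero =>
    intro b _ h
    have hb : b = x := by
      by_contra hne
      exact h (if_neg hne)
    subst hb
    refine ⟨b, {b}, id, rfl, ?_, fx_self (vnice_fix hx), rfl⟩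
    rw [Finset.card_singleton]
    omega
  | succ i ih =>
    intro b' hi h
    obtain ⟨b, h1, h2⟩ := wk_succ_ne_zero h
    obtain ⟨_, _, _, h3, u, hu, h4⟩ := qq_ne_zero (fun u w h => (hV.mN u w).1 h) h2
    have hi' : i ≤ p.K := by omega
    have h5 := vnice_own hV hP hI ht hx hs hi' h1 (ih b hi' h1) hu
    have hb := vnice_bound (a := sc p.K t) hi'
    rw [← vnice_sc] at hb
    have hHx : ∀ y, y = x → Stuck Q p s y := fun y e => e ▸ hx
    have h6 : ¬ Oe Q.N s.μ (fun y => y = x) (1 + i * (sc p.K t + 10) + sc p.K t + 5)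
        (s.μ b') := by
      intro h7
      rcases (vnice_good hV hP hI ht hx hs hi h).2 with h8 | h8
      · exact h3 h8
      · exact h8 (oe_mono (by omega) hHx h7)
    have h9 := (mate hV.sym hV.irr hI.mat (fun y e => vnice_fix (hHx y e))
      (vnice_noaug (vnice_na ht) hb hHx) h5 h4 h6).2
    rw [hI.mat.1] at h9
    refine oe_mono (le_of_eq ?_) (fun _ h => h) h9
    ring

/-- Targets are reachable from the walker.  By induction on `i`, a source visited at time `i` is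
reachable from `x` with `1 + i * (sc K t + 10)` nodes (`own_step`, then `mate` for the single
source `x`). -/
theorem xm_mov (hV : Q.Valid k d L σ) (hP : PC k d L σ p) (hI : Inv Q p s) (ht : t < p.Ts)
    (hx : Stuck Q p s x) (hs : Stab Q p s t p.R x)
    (h : xm Q.N Q.m s.μ (Ot Q p s t) p.K x u ≠ 0) : ∃ w, Mov Q p s x u w := by
  obtain ⟨i, hi, b, h1, h2⟩ := xm_ne_zero h
  have h3 := vnice_own hV hP hI ht hx hs hi.le h1 (vnice_walk hV hP hI ht hx hs i b hi.le h1)
    ((Tg_spec hP.hK).2.1 h2)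
  obtain ⟨y, K', f, hy, hc, hf, hfu⟩ := h3
  subst hy
  have hb := vnice_bound (a := sc p.K t) hi.le
  rw [← vnice_sc] at hb
  have := vnice_le ht
  exact ⟨(K', f), by show K'.card ≤ p.smax; omega, hf, hfu⟩

end Pool.Agent.Lib.MP_459a07_lc.V
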