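import Pool.Agent.Lib.MP_459a07_lc.VDefs
import Pool.Agent.Lib.MP_459a07_lc.ProbA

set_option autoImplicit false

namespace Pool.Agent.Lib.MP_459a07_lc.V

open Classical

variable {ι : Type} [Fintype ι] {a l k : ℕ} [NeZero a] [NeZero l] {id : ι → ℕ} {S : Finset ℕ}
  {N : ℕ → Finset ℕ}

/-- As `prob_G1` in ProbA (one can apply it to an instance with vertex set `S`). -/
theorem prob_H1 (hid : Function.Injective id) (hS : S = Finset.univ.image id) (T : ℕ) :
    ((Finset.univ.filter fun ω : Fin T → ι → Fin a × Fin l => ¬ H1 S T (extW T id ω)).card : ℝ) ≤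
      T * (Fintype.card ι : ℝ) ^ 2 / (a : ℝ) ^ 2 *
        Fintype.card (Fin T → ι → Fin a × Fin l) := by
  exact prob_G1 (I := ⟨S, fun _ => ∅, fun _ _ => True, fun _ _ => True⟩) hid hS T

/-- As `prob_G2` in ProbA with the radius `R` (reuse `pa_seqs`, `pa_cnt_ge`, `pa_cnt_prob`). -/
theorem prob_H2 (hk : ∀ v, (N v).card ≤ k) (hid : Function.Injective id)
    (hS : S = Finset.univ.image id) (T m1 R : ℕ) (hm : 1 ≤ m1) (Y : ℝ) (hY : 1 ≤ Y) :
    ((Finset.univ.filter fun ω : Fin T → ι → Fin a × Fin l =>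
      ¬ H2 S N T m1 R (extW T id ω)).card : ℝ) ≤
      Fintype.card ι * (((k : ℝ) + 1) ^ R / Y) ^ m1 * Real.exp (T * Y / a) *
        Fintype.card (Fin T → ι → Fin a × Fin l) := by
  obtain ⟨m, rfl⟩ := Nat.exists_eq_add_of_le' hm
  obtain ⟨U, hU, hcov⟩ := pa_seqs N hk S R m
  have hY0 : 0 < Y := by linarith
  let E : (ℕ → ℕ) → Finset (Fin T → ι → Fin a × Fin l) := fun u =>
    Finset.univ.filter fun ω => m + 1 ≤ runL (paCnt S id u) 0 (extT T (fun _ => default) ω) T
  have hsub : (Finset.univ.filter fun ω : Fin T → ι → Fin a × Fin l =>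
      ¬ H2 S N T (m + 1) R (extW T id ω)) ⊆ U.biUnion E := by
    intro ω hω
    have h := (Finset.mem_filter.1 hω).2
    unfold H2 at h
    obtain ⟨t, u, h1, h2⟩ := not_not.1 h
    obtain ⟨u', hu', he⟩ := hcov u (h1 0 (by omega)).2.1 fun i hi => (h2 i (by omega)).2
    refine Finset.mem_biUnion.2 ⟨u', hu', Finset.mem_filter.2 ⟨Finset.mem_univ _, ?_⟩⟩
    have h3 := pa_cnt_ge (id := id) S u' t (extT T (fun _ => default) ω) (m + 1)
      (fun i hi => by
        rw [he i (by omega)]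
        exact ⟨(h1 i hi).2.1, (h1 i hi).2.2⟩)
      (fun i hi => (h2 i hi).1) m (by omega)
    exact h3.trans (pa_cnt_mono S u' _ (h1 m (by omega)).1)
  have hSc : S.card ≤ Fintype.card ι := by
    rw [hS]
    exact Finset.card_image_le.trans (le_of_eq Finset.card_univ)
  have hB : (1 : ℝ) ≤ ((k : ℝ) + 1) ^ R :=
    one_le_pow₀ (le_add_of_nonneg_left (Nat.cast_nonneg k))
  have hU' : (U.card : ℝ) ≤ Fintype.card ι * (((k : ℝ) + 1) ^ R) ^ (m + 1) := by
    have h1 : (U.card : ℝ) ≤ Fintype.card ι * (((k : ℝ) + 1) ^ R) ^ m := by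
      exact_mod_cast hU.trans (Nat.mul_le_mul_right _ hSc)
    exact h1.trans (mul_le_mul_of_nonneg_left (pow_le_pow_right₀ hB (Nat.le_succ m))
      (Nat.cast_nonneg _))
  calc ((Finset.univ.filter fun ω : Fin T → ι → Fin a × Fin l =>
        ¬ H2 S N T (m + 1) R (extW T id ω)).card : ℝ)
      ≤ ((U.biUnion E).card : ℝ) := by exact_mod_cast Finset.card_le_card hsub
    _ ≤ ∑ u ∈ U, ((E u).card : ℝ) := by exact_mod_cast Finset.card_biUnion_le
    _ ≤ ∑ _u ∈ U, Real.exp (T * Y / a) * Fintype.card (Fin T → ι → Fin a × Fin l) / Y ^ (m + 1) :=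
        Finset.sum_le_sum fun u _ =>
          pa_cnt_prob (I := ⟨S, fun _ => ∅, fun _ _ => True, fun _ _ => True⟩) hid hS u T
            (m + 1) Y hY
    _ = U.card * (Real.exp (T * Y / a) * Fintype.card (Fin T → ι → Fin a × Fin l) /
          Y ^ (m + 1)) := by rw [Finset.sum_const, nsmul_eq_mul]
    _ ≤ Fintype.card ι * (((k : ℝ) + 1) ^ R) ^ (m + 1) *
          (Real.exp (T * Y / a) * Fintype.card (Fin T → ι → Fin a × Fin l) / Y ^ (m + 1)) :=
        mul_le_mul_of_nonneg_right hU' (by positivity)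
    _ = _ := by
        rw [div_pow]
        ring

/-- As `conn_union` in Params. -/
theorem conn_union' {Ω : Type} [Fintype Ω] (hs : Sym N) (hk : ∀ v, (N v).card ≤ k) (m0 : ℕ)
    (E : Finset ℕ → Ω → Prop) [∀ X, DecidablePred (E X)] (ρ r : ℝ) (hρ : 0 ≤ ρ)
    (hr : ((k : ℝ) + 1) ^ 2 * ρ ≤ r) (hr1 : r ≤ 1)
    (hE : ∀ X ⊆ S, ((Finset.univ.filter (E X)).card : ℝ) ≤ ρ ^ X.card * Fintype.card Ω) :
    ((Finset.univ.filter fun ω => ∃ (X : Finset ℕ) (b : ℕ), X ⊆ S ∧ Conn N X b ∧
      m0 ≤ X.card ∧ E X ω).card : ℝ) ≤ S.card * (S.card + 1) * r ^ m0 * Fintype.card Ω := by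
  choose A hA1 hA2 using animals hs hk
  have hr0 : 0 ≤ r := le_trans (by positivity) hr
  have hsub : (Finset.univ.filter fun ω => ∃ (X : Finset ℕ) (b : ℕ), X ⊆ S ∧ Conn N X b ∧
      m0 ≤ X.card ∧ E X ω) ⊆ (S ×ˢ Finset.Icc m0 S.card).biUnion fun q =>
      ((A q.1 q.2).filter fun X => X ⊆ S ∧ X.card = q.2).biUnion fun X =>
        Finset.univ.filter (E X) := by
    intro ω hω
    obtain ⟨X, b, h1, h2, h3, h4⟩ := (Finset.mem_filter.mp hω).2
    refine Finset.mem_biUnion.mpr ⟨(b, X.card), Finset.mem_product.mpr ⟨h1 h2.1,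
      Finset.mem_Icc.mpr ⟨h3, Finset.card_le_card h1⟩⟩, Finset.mem_biUnion.mpr ⟨X,
      Finset.mem_filter.mpr ⟨hA2 b _ X h2 rfl, h1, rfl⟩, Finset.mem_filter.mpr ⟨by simp, h4⟩⟩⟩
  have hone : ∀ q ∈ S ×ˢ Finset.Icc m0 S.card,
      ((((A q.1 q.2).filter fun X => X ⊆ S ∧ X.card = q.2).biUnion fun X =>
        Finset.univ.filter (E X)).card : ℝ) ≤ r ^ m0 * Fintype.card Ω := by
    intro q hq
    have hm := (Finset.mem_Icc.mp (Finset.mem_product.mp hq).2).1
    calc _ ≤ ∑ X ∈ (A q.1 q.2).filter fun X => X ⊆ S ∧ X.card = q.2,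
          ((Finset.univ.filter (E X)).card : ℝ) := by exact_mod_cast Finset.card_biUnion_le
      _ ≤ ∑ _X ∈ (A q.1 q.2).filter fun X => X ⊆ S ∧ X.card = q.2,
          ρ ^ q.2 * Fintype.card Ω := Finset.sum_le_sum fun X hX => by
            obtain ⟨-, h1, h2⟩ := Finset.mem_filter.mp hX
            rw [← h2]; exact hE X h1
      _ ≤ ((k : ℝ) + 1) ^ (2 * q.2) * (ρ ^ q.2 * Fintype.card Ω) := by
            rw [Finset.sum_const, nsmul_eq_mul]
            gcongr
            exact_mod_cast (Finset.card_filter_le _ _).trans (hA1 _ _)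
      _ = (((k : ℝ) + 1) ^ 2 * ρ) ^ q.2 * Fintype.card Ω := by rw [mul_pow, pow_mul]; ring
      _ ≤ r ^ q.2 * Fintype.card Ω := by gcongr
      _ ≤ r ^ m0 * Fintype.card Ω := by
            gcongr ?_ * _
            exact pow_le_pow_of_le_one hr0 hr1 hm
  calc _ ≤ ∑ q ∈ S ×ˢ Finset.Icc m0 S.card,
        ((((A q.1 q.2).filter fun X => X ⊆ S ∧ X.card = q.2).biUnion fun X =>
          Finset.univ.filter (E X)).card : ℝ) := by
        exact_mod_cast (Finset.card_le_card hsub).trans Finset.card_biUnion_le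
    _ ≤ ∑ _q ∈ S ×ˢ Finset.Icc m0 S.card, r ^ m0 * Fintype.card Ω := Finset.sum_le_sum hone
    _ ≤ _ := by
        rw [Finset.sum_const, nsmul_eq_mul, Finset.card_product, Nat.card_Icc, ← mul_assoc]
        gcongr
        have : S.card + 1 - m0 ≤ S.card + 1 := Nat.sub_le _ _
        exact_mod_cast Nat.mul_le_mul_left _ this

omit [NeZero a] [NeZero l] in
theorem run_inv {σ : Type} (P : Sys σ) (I : σ → Prop) (hI : ∀ s x j, I s → I (P.ev s x j))
    (h0 : I P.s0) (w : ℕ → ℕ → Fin a × Fin l) (t : ℕ) : I (P.run w t) := by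
  induction t with
  | zero => exact h0
  | succ t ih =>
    change I (P.step (P.run w t) (w t))
    unfold Sys.step
    split_ifs
    · exact hI _ _ _ ih
    · exact ih

omit [NeZero a] [NeZero l] in
theorem run_mono {σ : Type} (P : Sys σ) (b : σ → Prop) (hb : ∀ s x j, b s → b (P.ev s x j))
    (w : ℕ → ℕ → Fin a × Fin l) {t t' : ℕ} (h : t ≤ t') (ht : b (P.run w t)) :
    b (P.run w t') := by
  induction h with
  | refl => exact ht
  | step _ ih =>
    rename_i t' _
    change b (P.step (P.run w t') (w t'))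
    unfold Sys.step
    split_ifs
    · exact hb _ _ _ ih
    · exact ih

omit [NeZero a] [NeZero l] in
theorem vpa_fire {σ : Type} (P : Sys σ) (s : σ) {z : ℕ → Fin a × Fin l} {x : ℕ}
    (hx : x ∈ P.S) (ha : active z x)
    (hu : ∀ u ∈ P.S, ∀ v ∈ P.S, active z u → active z v → u = v) :
    P.step s z = P.ev s x ((z x).2 : ℕ) := by
  have h1 : ∃! v, v ∈ P.S ∧ active z v := ⟨x, ⟨hx, ha⟩, fun y hy => hu y hy.1 x hx hy.2 ha⟩
  have h2 : (epsilon fun v => v ∈ P.S ∧ active z v) = x := by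
    have := epsilon_spec (p := fun v => v ∈ P.S ∧ active z v) ⟨x, hx, ha⟩
    exact hu _ this.1 x hx this.2 ha
  unfold Sys.step
  rw [if_pos h1, h2]

omit [NeZero a] [NeZero l] in
theorem vpa_moved {σ ρ : Type} (P : Sys σ) (row : σ → ℕ → ρ) {s : σ} {z : ℕ → Fin a × Fin l}
    {v : ℕ} (h : row (P.step s z) v ≠ row s v) : ∃ x ∈ P.S, active z x := by
  by_contra hn
  apply h
  unfold Sys.step
  rw [if_neg fun he => hn he.exists]

theorem vpa_ball_congr {N' : ℕ → Finset ℕ} {v R : ℕ} (h : ∀ y ∈ ball N v R, N y = N' y) :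
    ball N v R = ball N' v R := by
  cases R with
  | zero => rfl
  | succ R => exact ball_congr fun y hy => h y (ball_mono (Nat.le_succ R) hy)

omit [NeZero a] [NeZero l] in
/-- A new disagreement comes from an active node close to an old disagreement. -/
theorem vpa_bad {σ ρ : Type} (P P' : Sys σ) {N' : ℕ → Finset ℕ} (hs : Sym N) (hs' : Sym N')
    (row : σ → ℕ → ρ) (I I' : σ → Prop) (sa : ℕ → Prop) (R : ℕ) (hsa : ∀ y, sa y → N y = N' y)
    (off : ∀ s x j v, v ∉ ball N x R → row (P.ev s x j) v = row s v)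
    (off' : ∀ s x j v, v ∉ ball N' x R → row (P'.ev s x j) v = row s v)
    (loc : ∀ s s' x j v, I s → I' s' → (∀ y ∈ ball N x R, sa y ∧ row s y = row s' y) →
      v ∈ ball N x R → row (P.ev s x j) v = row (P'.ev s' x j) v)
    {c c' : σ} (hc : I c) (hc' : I' c') {z z' : ℕ → Fin a × Fin l} {v0 q e : ℕ}
    (hu : ∀ u ∈ P.S, ∀ v ∈ P.S, active z u → active z v → u = v)
    (hu' : ∀ u ∈ P'.S, ∀ v ∈ P'.S, active z' u → active z' v → u = v)
    (hag : ∀ v ∈ ball N v0 e, sa v ∧ v ∈ P.S ∧ v ∈ P'.S ∧ z v = z' v)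
    (hq : q + 2 * (R + 1) ≤ e) {v : ℕ} (hv : v ∈ ball N v0 q) (he : row c v = row c' v)
    (hne : row (P.step c z) v ≠ row (P'.step c' z') v) :
    ∃ x ∈ P.S, active z x ∧ v ∈ ball N x R ∧ ∃ v' ∈ ball N x R, row c v' ≠ row c' v' := by
  have main : ∀ x, x ∈ P.S → x ∈ P'.S → active z x → active z' x → z x = z' x →
      v ∈ ball N x R → ∃ v' ∈ ball N x R, row c v' ≠ row c' v' := by
    intro x hxI hxJ hxa hxa' hz hvx
    have hx0 : x ∈ ball N v0 (q + R) := ball_trans hv (ball_symm hs hvx)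
    by_contra hn
    apply hne
    rw [vpa_fire P c hxI hxa hu, vpa_fire P' c' hxJ hxa' hu', ← hz]
    refine loc c c' x _ v hc hc' (fun y hy => ⟨?_, ?_⟩) hvx
    · exact (hag y (ball_mono (by omega) (ball_trans hx0 hy))).1
    · by_contra hy'
      exact hn ⟨y, hy, hy'⟩
  by_cases hA : row (P.step c z) v = row c v
  · have hB : row (P'.step c' z') v ≠ row c' v := fun h => hne (by rw [hA, h, he])
    obtain ⟨x, hxJ, hxa⟩ := vpa_moved P' row hB
    have hvf : v ∈ ball N' x R := by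
      by_contra hn
      exact hB (by rw [vpa_fire P' c' hxJ hxa hu', off' _ _ _ _ hn])
    have hxv : x ∈ ball N v R := by
      rw [vpa_ball_congr (N' := N') fun y hy =>
        hsa y (hag y (ball_mono (by omega) (ball_trans hv hy))).1]
      exact ball_symm hs' hvf
    obtain ⟨-, hxI, -, hz⟩ := hag x (ball_mono (by omega) (ball_trans hv hxv))
    have hxa' : active z x := by
      unfold active at hxa ⊢
      rw [hz]
      exact hxa
    exact ⟨x, hxI, hxa', ball_symm hs hxv, main x hxI hxJ hxa' hxa hz (ball_symm hs hxv)⟩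
  · obtain ⟨x, hxI, hxa⟩ := vpa_moved P row hA
    have hvx : v ∈ ball N x R := by
      by_contra hn
      exact hA (by rw [vpa_fire P c hxI hxa hu, off _ _ _ _ hn])
    obtain ⟨-, -, hxJ, hz⟩ := hag x (ball_mono (by omega) (ball_trans hv (ball_symm hs hvx)))
    have hxa' : active z' x := by
      unfold active at hxa ⊢
      rw [← hz]
      exact hxa
    exact ⟨x, hxI, hxa, hvx, main x hxI hxJ hxa hxa' hz hvx⟩

omit [NeZero a] [NeZero l] in
/-- As `stage1_local` in Local1: disagreements travel along time-increasing chains. -/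
theorem run_local {σ ρ : Type} (P P' : Sys σ) {N' : ℕ → Finset ℕ} (hs : Sym N) (hs' : Sym N')
    (row : σ → ℕ → ρ) (I I' : σ → Prop) (sa : ℕ → Prop) (R : ℕ)
    (hI : ∀ s x j, I s → I (P.ev s x j)) (hI' : ∀ s x j, I' s → I' (P'.ev s x j))
    (h0 : I P.s0) (h0' : I' P'.s0) (hsa : ∀ y, sa y → N y = N' y)
    (off : ∀ s x j v, v ∉ ball N x R → row (P.ev s x j) v = row s v)
    (off' : ∀ s x j v, v ∉ ball N' x R → row (P'.ev s x j) v = row s v)
    (loc : ∀ s s' x j v, I s → I' s' → (∀ y ∈ ball N x R, sa y ∧ row s y = row s' y) →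
      v ∈ ball N x R → row (P.ev s x j) v = row (P'.ev s' x j) v)
    {w w' : ℕ → ℕ → Fin a × Fin l} {T m1 v0 r e : ℕ} (h1 : H1 P.S T w) (h1' : H1 P'.S T w')
    (h2 : H2 P.S N T m1 (2 * R) w)
    (hag : ∀ v ∈ ball N v0 e, sa v ∧ v ∈ P.S ∧ v ∈ P'.S ∧ row P.s0 v = row P'.s0 v ∧
      ∀ t < T, w t v = w' t v)
    (he : r + 2 * (R + 1) * (m1 + 1) ≤ e) :
    ∀ v ∈ ball N v0 r, row (P.run w T) v = row (P'.run w' T) v := by
  have key : ∀ τ ≤ T, ∀ m s v, s + 2 * (R + 1) * (m + 1) ≤ e → v ∈ ball N v0 s →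
      row (P.run w τ) v ≠ row (P'.run w' τ) v → ∃ (t u : ℕ → ℕ),
        (∀ i ≤ m, t i < τ ∧ u i ∈ P.S ∧ active (w (t i)) (u i)) ∧
        (∀ i, i + 1 ≤ m → t i < t (i + 1) ∧ u (i + 1) ∈ ball N (u i) (2 * R)) ∧
        v ∈ ball N (u m) R := by
    intro τ
    induction τ with
    | zero =>
      intro _ m s v hs0 hv hne
      exact (hne (hag v (ball_mono (by omega) hv)).2.2.2.1).elim
    | succ τ ih =>
      intro hτ m s v hs0 hv hne
      by_cases hee : row (P.run w τ) v = row (P'.run w' τ) v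
      · have hs1 : s + 2 * (R + 1) ≤ e := by
          have : 2 * (R + 1) * (m + 1) = 2 * (R + 1) * m + 2 * (R + 1) := by ring
          omega
        obtain ⟨x, hxI, hxa, hvx, v', hv', hne'⟩ := vpa_bad P P' hs hs' row I I' sa R hsa off off'
          loc (run_inv P I hI h0 w τ) (run_inv P' I' hI' h0' w' τ) (h1 τ (by omega))
          (h1' τ (by omega))
          (fun y hy => ⟨(hag y hy).1, (hag y hy).2.1, (hag y hy).2.2.1,
            (hag y hy).2.2.2.2 τ (by omega)⟩) hs1 hv hee hne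
        cases m with
        | zero =>
          exact ⟨fun _ => τ, fun _ => x, fun i _ => ⟨Nat.lt_succ_self _, hxI, hxa⟩,
            fun i hi => by omega, hvx⟩
        | succ m =>
          have hv0 : v' ∈ ball N v0 (s + R + R) :=
            ball_trans (ball_trans hv (ball_symm hs hvx)) hv'
          have hs2 : s + R + R + 2 * (R + 1) * (m + 1) ≤ e := by
            have : 2 * (R + 1) * (m + 1 + 1) = 2 * (R + 1) * (m + 1) + 2 * (R + 1) := by ring
            omega
          obtain ⟨t, u, a1, a2, a3⟩ := ih (by omega) m _ v' hs2 hv0 hne'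
          refine ⟨fun i => if i ≤ m then t i else τ, fun i => if i ≤ m then u i else x, ?_, ?_, ?_⟩
          · intro i _
            by_cases hi : i ≤ m
            · simp only [if_pos hi]
              exact ⟨Nat.lt_succ_of_lt (a1 i hi).1, (a1 i hi).2⟩
            · simp only [if_neg hi]
              exact ⟨Nat.lt_succ_self _, hxI, hxa⟩
          · intro i hi
            have hi' : i ≤ m := by omega
            by_cases hi2 : i + 1 ≤ m
            · simp only [if_pos hi', if_pos hi2]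
              exact a2 i hi2
            · have him : i = m := by omega
              simp only [if_pos hi', if_neg hi2]
              subst him
              exact ⟨(a1 i hi').1,
                ball_mono (by omega) (ball_trans a3 (ball_symm hs hv'))⟩
          · simp only [if_neg (Nat.not_succ_le_self m)]
            exact hvx
      · obtain ⟨t, u, a1, a2, a3⟩ := ih (by omega) m s v hs0 hv hee
        exact ⟨t, u, fun i hi => ⟨Nat.lt_succ_of_lt (a1 i hi).1, (a1 i hi).2⟩, a2, a3⟩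
  intro v hv
  by_contra hne
  obtain ⟨t, u, a1, a2, -⟩ := key T le_rfl m1 r v he hv hne
  exact h2 ⟨t, u, fun i hi => a1 i hi.le, fun i hi => a2 i hi.le⟩

end Pool.Agent.Lib.MP_459a07_lc.V
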