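import Pool.Agent.Lib.MP_459a07_lc.VProbA

set_option autoImplicit false

namespace Pool.Agent.Lib.MP_459a07_lc.V

open Classical

variable {ι : Type} [Fintype ι] {a l : ℕ} [NeZero a] [NeZero l] {id : ι → ℕ} {σ : Type}

omit [Fintype ι] in
theorem vpb_extV (hid : Function.Injective id) (z : ι → Fin a × Fin l) (i : ι) :
    extV id z (id i) = z i := hid.extend_apply _ _ i

/-- A step does nothing or is the event of an active vertex. -/
theorem vpb_cases (P : Sys σ) (hid : Function.Injective id) (hS : P.S = Finset.univ.image id)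
    (s : σ) (z : ι → Fin a × Fin l) :
    P.step s (extV id z) = s ∨ ∃ (i : ι) (j : Fin l), z i = (0, j) ∧
      P.step s (extV id z) = P.ev s (id i) j := by
  unfold Sys.step
  split_ifs with h
  · right
    have h1 : (epsilon fun v => v ∈ P.S ∧ active (extV id z) v) ∈ P.S ∧
        active (extV id z) (epsilon fun v => v ∈ P.S ∧ active (extV id z) v) :=
      epsilon_spec (p := fun v => v ∈ P.S ∧ active (extV id z) v) h.exists
    generalize (epsilon fun v => v ∈ P.S ∧ active (extV id z) v) = u at h1 ⊢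
    obtain ⟨h2, h3⟩ := h1
    rw [hS] at h2
    obtain ⟨i, -, rfl⟩ := Finset.mem_image.1 h2
    rw [active, vpb_extV hid] at h3
    refine ⟨i, (z i).2, Prod.ext (Fin.ext (by simpa using h3)) rfl, ?_⟩
    rw [vpb_extV hid]
  · left
    rfl

/-- With a single active vertex the step is its event. -/
theorem vpb_unique (P : Sys σ) (hid : Function.Injective id) (hS : P.S = Finset.univ.image id)
    (s : σ) {z : ι → Fin a × Fin l} {i : ι} {j : Fin l} (h1 : z i = (0, j))
    (h2 : ∀ i', i' ≠ i → ((z i').1 : ℕ) ≠ 0) :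
    P.step s (extV id z) = P.ev s (id i) j := by
  have hu : ∀ v, v ∈ P.S ∧ active (extV id z) v → v = id i := by
    rintro v ⟨hv, ha⟩
    rw [hS] at hv
    obtain ⟨i', -, rfl⟩ := Finset.mem_image.1 hv
    rw [active, vpb_extV hid] at ha
    by_contra hne
    exact h2 i' (fun e => hne (by rw [e])) ha
  have hi : id i ∈ P.S ∧ active (extV id z) (id i) := by
    refine ⟨by rw [hS]; exact Finset.mem_image_of_mem _ (Finset.mem_univ _), ?_⟩
    rw [active, vpb_extV hid, h1]
    simp
  have he : (epsilon fun v => v ∈ P.S ∧ active (extV id z) v) = id i :=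
    hu _ (epsilon_spec (p := fun v => v ∈ P.S ∧ active (extV id z) v) ⟨id i, hi⟩)
  unfold Sys.step
  rw [if_pos ⟨id i, hi, hu⟩, he, vpb_extV hid, h1]

theorem vpb_step_inv (P : Sys σ) (hid : Function.Injective id) (hS : P.S = Finset.univ.image id)
    {I : σ → Prop} (hI : ∀ s x j, I s → I (P.ev s x j)) (s : σ) (z : ι → Fin a × Fin l)
    (hs : I s) : I (P.step s (extV id z)) := by
  rcases vpb_cases P hid hS s z with h | ⟨i, j, -, h⟩
  · rw [h]
    exact hs
  · rw [h]
    exact hI _ _ _ hs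

omit [Fintype ι] in
theorem vpb_run (P : Sys σ) (T : ℕ) (ω : Fin T → ι → Fin a × Fin l) (t : ℕ) :
    P.run (extW T id ω) t =
      runL (fun s z => P.step s (extV id z)) P.s0 (extT T (fun _ => default) ω) t := by
  induction t with
  | zero => rfl
  | succ t ih =>
    unfold Sys.run at ih ⊢
    simp only [runL]
    rw [ih]
    rfl

/-- The one step bound for the marked points. -/
theorem vpb_rd_step (P : Sys σ) (hid : Function.Injective id) (hS : P.S = Finset.univ.image id)
    (rd : σ → ℕ → Prop) (ac : σ → ℕ → ℕ → Prop) (tg : σ → ℕ → ℕ → ℕ)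
    (hnew : ∀ s x j v, rd (P.ev s x j) v → rd s v ∨ (ac s x j ∧ v = tg s x j)) (c : ℝ) (s : σ)
    (hc : ∀ u, ∀ B : Finset (ℕ × ℕ), (∀ q ∈ B, ac s q.1 q.2 ∧ tg s q.1 q.2 = u) →
      (B.card : ℝ) ≤ c) (X : Finset ℕ) (V : ℝ) (hV1 : 1 ≤ V) :
    ∑ z : ι → Fin a × Fin l, V ^ (X.filter (rd (P.step s (extV id z)))).card ≤
      (1 + c * X.card * V / (a * l)) * Fintype.card (ι → Fin a × Fin l) *
        V ^ (X.filter (rd s)).card := by
  have ha : (0 : ℝ) < a := Nat.cast_pos.2 (NeZero.pos a)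
  have hl : (0 : ℝ) < l := Nat.cast_pos.2 (NeZero.pos l)
  obtain ⟨B, hB⟩ : ∃ B : Finset (ι × Fin l), B = Finset.univ.filter fun p : ι × Fin l =>
      ac s (id p.1) p.2 ∧ tg s (id p.1) p.2 ∈ X := ⟨_, rfl⟩
  have hBc : (B.card : ℝ) ≤ c * X.card := by
    have hinj : Function.Injective fun p : ι × Fin l => (id p.1, (p.2 : ℕ)) := by
      intro p p' h
      simp only [Prod.mk.injEq] at h
      exact Prod.ext (hid h.1) (Fin.ext h.2)
    have h1 : B.card = ∑ u ∈ X, (B.filter fun p => tg s (id p.1) p.2 = u).card :=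
      Finset.card_eq_sum_card_fiberwise fun p hp => by
        rw [hB] at hp
        exact (Finset.mem_filter.1 (Finset.mem_coe.1 hp)).2.2
    rw [h1, Nat.cast_sum, mul_comm, ← nsmul_eq_mul]
    refine Finset.sum_le_card_nsmul _ _ _ fun u _ => ?_
    rw [← Finset.card_image_of_injective _ hinj]
    refine hc u _ fun q hq => ?_
    obtain ⟨p, hp, rfl⟩ := Finset.mem_image.1 hq
    obtain ⟨hp1, hp2⟩ := Finset.mem_filter.1 hp
    rw [hB] at hp1
    exact ⟨(Finset.mem_filter.1 hp1).2.1, hp2⟩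
  obtain ⟨Z, hZ⟩ : ∃ Z : Finset (ι → Fin a × Fin l), Z = B.biUnion fun p =>
      Finset.univ.filter fun z : ι → Fin a × Fin l => z p.1 = (0, p.2) := ⟨_, rfl⟩
  have hZc : (Z.card : ℝ) ≤ c * X.card / (a * l) * Fintype.card (ι → Fin a × Fin l) := by
    have h1 : (Z.card : ℝ) ≤ ∑ p ∈ B, ((Finset.univ.filter fun z : ι → Fin a × Fin l =>
        z p.1 = (0, p.2)).card : ℝ) := by
      rw [hZ]
      exact_mod_cast Finset.card_biUnion_le
    have h2 : ∀ p ∈ B, ((Finset.univ.filter fun z : ι → Fin a × Fin l =>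
        z p.1 = (0, p.2)).card : ℝ) = Fintype.card (ι → Fin a × Fin l) / (a * l) := by
      intro p _
      rw [eq_div_iff (by positivity)]
      convert slot_val (a := a) (l := l) p.1 (0, p.2)
    rw [Finset.sum_congr rfl h2, Finset.sum_const, nsmul_eq_mul] at h1
    calc (Z.card : ℝ) ≤ _ := h1
      _ ≤ c * X.card * (Fintype.card (ι → Fin a × Fin l) / (a * l)) :=
          mul_le_mul_of_nonneg_right hBc (by positivity)
      _ = _ := by ring
  have hpt : ∀ z : ι → Fin a × Fin l, V ^ (X.filter (rd (P.step s (extV id z)))).card ≤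
      V ^ (X.filter (rd s)).card + if z ∈ Z then V * V ^ (X.filter (rd s)).card else 0 := by
    intro z
    have hp : 0 ≤ V ^ (X.filter (rd s)).card := by positivity
    rcases vpb_cases P hid hS s z with h | ⟨i, j, hz, h⟩
    · rw [h]
      split_ifs
      · exact le_add_of_nonneg_right (by positivity)
      · simp
    · rw [h]
      split_ifs with hm
      · have h1 : X.filter (rd (P.ev s (id i) j)) ⊆
            insert (tg s (id i) j) (X.filter (rd s)) := by
          intro v hv
          obtain ⟨hv1, hv2⟩ := Finset.mem_filter.1 hv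
          simp only [Finset.mem_insert, Finset.mem_filter]
          rcases hnew _ _ _ _ hv2 with h2 | ⟨-, h2⟩
          · exact Or.inr ⟨hv1, h2⟩
          · exact Or.inl h2
        have h2 := (Finset.card_le_card h1).trans (Finset.card_insert_le _ _)
        rw [← pow_succ']
        exact (pow_le_pow_right₀ hV1 h2).trans (le_add_of_nonneg_left hp)
      · rw [add_zero]
        refine pow_le_pow_right₀ hV1 (Finset.card_le_card fun v hv => ?_)
        obtain ⟨hv1, hv2⟩ := Finset.mem_filter.1 hv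
        refine Finset.mem_filter.2 ⟨hv1, ?_⟩
        rcases hnew _ _ _ _ hv2 with h2 | ⟨h2, h3⟩
        · exact h2
        · refine absurd ?_ hm
          rw [hZ, Finset.mem_biUnion]
          refine ⟨(i, j), ?_, Finset.mem_filter.2 ⟨Finset.mem_univ _, hz⟩⟩
          rw [hB]
          exact Finset.mem_filter.2 ⟨Finset.mem_univ _, h2, h3 ▸ hv1⟩
  refine (Finset.sum_le_sum fun z _ => hpt z).trans ?_
  rw [Finset.sum_add_distrib, Finset.sum_ite_mem, Finset.univ_inter, Finset.sum_const,
    Finset.sum_const, Finset.card_univ, nsmul_eq_mul, nsmul_eq_mul]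
  have h1 := mul_le_mul_of_nonneg_right hZc
    (show 0 ≤ V * V ^ (X.filter (rd s)).card by positivity)
  refine (add_le_add_right h1 _).trans (le_of_eq ?_)
  ring

/-- As `prob_cov` in ProbB: `pot` with `f s = (W ^ D) ^ #(X.filter (rd s))` and
`q = 1 + c |X| W ^ D / (a l)`; an event adds at most one point. -/
theorem prob_rd (P : Sys σ) (hid : Function.Injective id) (hS : P.S = Finset.univ.image id)
    (I : σ → Prop) (hI : ∀ s x j, I s → I (P.ev s x j)) (h0 : I P.s0) (rd : σ → ℕ → Prop)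
    (hrd : ∀ v, ¬ rd P.s0 v) (ac : σ → ℕ → ℕ → Prop) (tg : σ → ℕ → ℕ → ℕ)
    (hnew : ∀ s x j v, rd (P.ev s x j) v → rd s v ∨ (ac s x j ∧ v = tg s x j)) (c : ℝ)
    (hc : ∀ s u, I s → ∀ B : Finset (ℕ × ℕ), (∀ q ∈ B, ac s q.1 q.2 ∧ tg s q.1 q.2 = u) →
      (B.card : ℝ) ≤ c) (T D : ℕ) (X : Finset ℕ) (W : ℝ) (hW : 1 ≤ W) :
    ((Finset.univ.filter fun ω : Fin T → ι → Fin a × Fin l =>
      X.card ≤ D * (X.filter (rd (P.run (extW T id ω) T))).card).card : ℝ) ≤
      (Real.exp (c * W ^ D * T / (a * l)) / W) ^ X.card *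
        Fintype.card (Fin T → ι → Fin a × Fin l) := by
  have ha : (0 : ℝ) < a := Nat.cast_pos.2 (NeZero.pos a)
  have hl : (0 : ℝ) < l := Nat.cast_pos.2 (NeZero.pos l)
  have hW0 : 0 < W := by linarith
  have hV1 : 1 ≤ W ^ D := one_le_pow₀ hW
  have hc0 : 0 ≤ c := by simpa using hc P.s0 0 h0 ∅ (by simp)
  have h := pot (fun s (z : ι → Fin a × Fin l) => P.step s (extV id z)) I
    (fun s => (W ^ D) ^ (X.filter (rd s)).card)
    (1 + c * X.card * W ^ D / (a * l)) (by positivity)
    (fun s z hs => vpb_step_inv P hid hS hI s z hs)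
    (fun s hs => vpb_rd_step P hid hS rd ac tg hnew c s (fun u => hc s u hs) X _ hV1) P.s0 h0
    (fun _ => default) T
  have he : X.filter (rd P.s0) = ∅ := Finset.filter_eq_empty_iff.2 fun v _ hv => hrd v hv
  simp only [he, Finset.card_empty, pow_zero, mul_one, ← vpb_run] at h
  have h1 : ((Finset.univ.filter fun ω : Fin T → ι → Fin a × Fin l =>
      X.card ≤ D * (X.filter (rd (P.run (extW T id ω) T))).card).card : ℝ) * W ^ X.card ≤
      ∑ ω : Fin T → ι → Fin a × Fin l,
        (W ^ D) ^ (X.filter (rd (P.run (extW T id ω) T))).card := by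
    rw [← nsmul_eq_mul]
    refine le_trans (Finset.card_nsmul_le_sum _ (fun ω : Fin T → ι → Fin a × Fin l =>
        (W ^ D) ^ (X.filter (rd (P.run (extW T id ω) T))).card) _ fun ω hω => ?_)
      (Finset.sum_le_sum_of_subset_of_nonneg (Finset.filter_subset _ _)
        fun _ _ _ => by positivity)
    rw [← pow_mul]
    exact pow_le_pow_right₀ hW (Finset.mem_filter.1 hω).2
  have h2 : (1 + c * X.card * W ^ D / (a * l) : ℝ) ^ T ≤
      Real.exp (c * W ^ D * T / (a * l)) ^ X.card := by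
    calc (1 + c * X.card * W ^ D / (a * l) : ℝ) ^ T ≤
          Real.exp (c * X.card * W ^ D / (a * l)) ^ T :=
          pow_le_pow_left₀ (by positivity) (by rw [add_comm]; exact Real.add_one_le_exp _) T
      _ = _ := by
          rw [← Real.exp_nat_mul, ← Real.exp_nat_mul]
          congr 1
          ring
  rw [div_pow, div_mul_eq_mul_div, le_div_iff₀ (by positivity)]
  refine h1.trans (le_trans ?_ (mul_le_mul_of_nonneg_right h2 (Nat.cast_nonneg _)))
  convert h

/-- The potential used for the holes. -/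
noncomputable def vpbF (hl : σ → ℕ → Prop) (D : ℕ) (X : Finset ℕ) (s : σ × Prop) : ℝ :=
  if s.2 ∧ X.card ≤ D * (X.filter (hl s.1)).card then 2 ^ (X.filter (hl s.1)).card else 0

/-- Few holes of `X` have few good choices. -/
def vpbGood (hl : σ → ℕ → Prop) (gd : σ → ℕ → ℕ → Prop) (l D : ℕ) (X : Finset ℕ) (s : σ) : Prop :=
  2 * D * (X.filter fun x => hl s x ∧ hb l (gd s x)).card < X.card

omit [NeZero a] [NeZero l] in
/-- Many pairs (vertex, position) are successful. -/
theorem vpb_many (P : Sys σ) (hid : Function.Injective id) (hS : P.S = Finset.univ.image id)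
    {hl : σ → ℕ → Prop} {gd : σ → ℕ → ℕ → Prop} {D : ℕ}
    {X : Finset ℕ} (hX : X ⊆ P.S) {s : σ} (h1 : vpbGood hl gd l D X s)
    (h2 : X.card ≤ D * (X.filter (hl s)).card) :
    X.card * l ≤ 16 * D * (Finset.univ.filter fun p : ι × Fin l =>
      id p.1 ∈ X ∧ hl s (id p.1) ∧ gd s (id p.1) p.2).card := by
  obtain ⟨H, hH⟩ : ∃ H : Finset ι, H = Finset.univ.filter fun i =>
      id i ∈ X ∧ hl s (id i) ∧ ¬ hb l (gd s (id i)) := ⟨_, rfl⟩
  have h3 : (X.filter (hl s)).card ≤
      (X.filter fun x => hl s x ∧ hb l (gd s x)).card + H.card := by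
    rw [← Finset.card_image_of_injective H hid]
    refine le_trans (Finset.card_le_card fun x hx => ?_) (Finset.card_union_le _ _)
    obtain ⟨hx1, hx2⟩ := Finset.mem_filter.1 hx
    rw [Finset.mem_union]
    by_cases hb' : hb l (gd s x)
    · exact Or.inl (Finset.mem_filter.2 ⟨hx1, hx2, hb'⟩)
    · have hx3 := hX hx1
      rw [hS] at hx3
      obtain ⟨i, -, rfl⟩ := Finset.mem_image.1 hx3
      refine Or.inr (Finset.mem_image_of_mem _ ?_)
      rw [hH]
      exact Finset.mem_filter.2 ⟨Finset.mem_univ _, hx1, hx2, hb'⟩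
  have h4 : X.card ≤ 2 * D * H.card := by
    unfold vpbGood at h1
    have h5 := Nat.mul_le_mul_left D h3
    nlinarith
  have h5 : ∀ i ∈ H, l ≤ 8 * (Finset.univ.filter fun j : Fin l => gd s (id i) j).card := by
    intro i hi
    rw [hH] at hi
    have hb' := (Finset.mem_filter.1 hi).2.2.2
    unfold hb at hb'
    have h7 : ((Finset.range l).filter (gd s (id i))).card ≤
        (Finset.univ.filter fun j : Fin l => gd s (id i) j).card := by
      rw [← Finset.card_image_of_injective (Finset.univ.filter fun j : Fin l =>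
        gd s (id i) j) Fin.val_injective]
      refine Finset.card_le_card fun j hj => ?_
      obtain ⟨hj1, hj2⟩ := Finset.mem_filter.1 hj
      exact Finset.mem_image.2 ⟨⟨j, Finset.mem_range.1 hj1⟩,
        Finset.mem_filter.2 ⟨Finset.mem_univ _, hj2⟩, rfl⟩
    omega
  have h6 : ∑ i ∈ H, (Finset.univ.filter fun j : Fin l => gd s (id i) j).card ≤
      (Finset.univ.filter fun p : ι × Fin l =>
        id p.1 ∈ X ∧ hl s (id p.1) ∧ gd s (id p.1) p.2).card := by
    rw [← Finset.card_sigma]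
    refine Finset.card_le_card_of_injOn (fun q => (q.1, q.2)) (fun q hq => ?_) ?_
    · obtain ⟨hq1, hq2⟩ := Finset.mem_sigma.1 (Finset.mem_coe.1 hq)
      rw [hH] at hq1
      obtain ⟨-, h7, h8, -⟩ := Finset.mem_filter.1 hq1
      exact Finset.mem_coe.2 (Finset.mem_filter.2 ⟨Finset.mem_univ _, h7, h8,
        (Finset.mem_filter.1 hq2).2⟩)
    · rintro ⟨i, j⟩ - ⟨i', j'⟩ - h
      simp only [Prod.mk.injEq] at h
      obtain ⟨rfl, rfl⟩ := h
      rfl
  have h7 : H.card * l ≤
      8 * ∑ i ∈ H, (Finset.univ.filter fun j : Fin l => gd s (id i) j).card := by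
    rw [Finset.mul_sum, ← smul_eq_mul]
    exact Finset.card_nsmul_le_sum _ _ _ h5
  calc X.card * l ≤ 2 * D * H.card * l := Nat.mul_le_mul_right _ h4
    _ = 2 * D * (H.card * l) := by ring
    _ ≤ 2 * D * (8 * _) := Nat.mul_le_mul_left _ (h7.trans (Nat.mul_le_mul_left 8 h6))
    _ = _ := by ring

/-- The one step bound for the holes. -/
theorem vpb_hl_step (P : Sys σ) (hid : Function.Injective id) (hS : P.S = Finset.univ.image id)
    (ha : 2 * Fintype.card ι ≤ a) {hl : σ → ℕ → Prop} {gd : σ → ℕ → ℕ → Prop}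
    (hmono : ∀ s x j v, hl (P.ev s x j) v → hl s v) {D : ℕ}
    (hD : 1 ≤ D) {X : Finset ℕ} (hX : X ⊆ P.S) (hq : 0 ≤ 1 - (X.card : ℝ) / (64 * D * a))
    {s : σ × Prop} (hgd : ∀ x j, hl s.1 x → gd s.1 x j → ¬ hl (P.ev s.1 x j) x) :
    ∑ z : ι → Fin a × Fin l,
      vpbF hl D X (P.step s.1 (extV id z), s.2 ∧ vpbGood hl gd l D X s.1) ≤
      (1 - (X.card : ℝ) / (64 * D * a)) * Fintype.card (ι → Fin a × Fin l) * vpbF hl D X s := by
  obtain ⟨c, b⟩ := s
  simp only at hgd ⊢
  have ha0 : (0 : ℝ) < a := Nat.cast_pos.2 (NeZero.pos a)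
  have hl0 : (0 : ℝ) < l := Nat.cast_pos.2 (NeZero.pos l)
  have hD0 : (0 : ℝ) < D := Nat.cast_pos.2 hD
  have hsub : ∀ x j, X.filter (hl (P.ev c x j)) ⊆ X.filter (hl c) := fun x j v hv =>
    Finset.mem_filter.2 ⟨(Finset.mem_filter.1 hv).1, hmono _ _ _ _ (Finset.mem_filter.1 hv).2⟩
  have hmono' : ∀ z : ι → Fin a × Fin l, (X.filter (hl (P.step c (extV id z)))).card ≤
      (X.filter (hl c)).card := by
    intro z
    rcases vpb_cases P hid hS c z with h | ⟨i, j, -, h⟩
    · rw [h]
    · rw [h]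
      exact Finset.card_le_card (hsub _ _)
  by_cases hb' : (b ∧ vpbGood hl gd l D X c) ∧ X.card ≤ D * (X.filter (hl c)).card
  swap
  · have h0 : ∀ z : ι → Fin a × Fin l,
        vpbF hl D X (P.step c (extV id z), b ∧ vpbGood hl gd l D X c) = 0 := by
      intro z
      unfold vpbF
      exact if_neg fun h => hb' ⟨h.1, h.2.trans (Nat.mul_le_mul_left D (hmono' z))⟩
    simp only [h0, Finset.sum_const_zero]
    refine mul_nonneg (mul_nonneg hq (Nat.cast_nonneg _)) ?_
    unfold vpbF
    split_ifs <;> positivity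
  obtain ⟨⟨hb1, hb2⟩, hb3⟩ := hb'
  have hf : vpbF hl D X (c, b) = 2 ^ (X.filter (hl c)).card := if_pos ⟨hb1, hb3⟩
  obtain ⟨Q, hQ⟩ : ∃ Q : Finset (ι × Fin l), Q = Finset.univ.filter fun p : ι × Fin l =>
      id p.1 ∈ X ∧ hl c (id p.1) ∧ gd c (id p.1) p.2 := ⟨_, rfl⟩
  have hPc : (X.card : ℝ) * l ≤ 16 * D * Q.card := by
    rw [hQ]
    exact_mod_cast vpb_many P hid hS hX hb2 hb3
  obtain ⟨Z, hZ⟩ : ∃ Z : Finset (ι → Fin a × Fin l), Z = Q.biUnion fun p =>
      Finset.univ.filter fun z : ι → Fin a × Fin l =>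
        z p.1 = (0, p.2) ∧ ∀ i', i' ≠ p.1 → ((z i').1 : ℕ) ≠ 0 := ⟨_, rfl⟩
  have hZc : (Q.card : ℝ) * Fintype.card (ι → Fin a × Fin l) ≤ Z.card * (2 * a * l) := by
    have h1 : Z.card = ∑ p ∈ Q, (Finset.univ.filter fun z : ι → Fin a × Fin l =>
        z p.1 = (0, p.2) ∧ ∀ i', i' ≠ p.1 → ((z i').1 : ℕ) ≠ 0).card := by
      rw [hZ]
      refine Finset.card_biUnion fun p _ p' _ hne => Finset.disjoint_left.2 fun z hz hz' => ?_
      obtain ⟨-, h2, h3⟩ := Finset.mem_filter.1 hz
      obtain ⟨-, h4, -⟩ := Finset.mem_filter.1 hz'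
      have h5 : p'.1 = p.1 := by
        by_contra h6
        exact h3 _ h6 (by rw [h4]; simp)
      rw [h5, h2] at h4
      exact hne (Prod.ext h5.symm (Prod.mk.inj h4).2)
    rw [h1, Nat.cast_sum, Finset.sum_mul, ← nsmul_eq_mul]
    refine Finset.card_nsmul_le_sum _ _ _ fun p _ => ?_
    convert slot_unique ha p.1 p.2
  have hpt : ∀ z : ι → Fin a × Fin l,
      vpbF hl D X (P.step c (extV id z), b ∧ vpbGood hl gd l D X c) ≤
        2 ^ (X.filter (hl c)).card - if z ∈ Z then 2 ^ (X.filter (hl c)).card / 2 else 0 := by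
    intro z
    have h1 : vpbF hl D X (P.step c (extV id z), b ∧ vpbGood hl gd l D X c) ≤
        2 ^ (X.filter (hl (P.step c (extV id z)))).card := by
      unfold vpbF
      split_ifs
      · exact le_rfl
      · positivity
    refine h1.trans ?_
    split_ifs with hm
    · rw [hZ, Finset.mem_biUnion] at hm
      obtain ⟨p, hp, hz⟩ := hm
      rw [hQ] at hp
      obtain ⟨-, hp1, hp2, hp3⟩ := Finset.mem_filter.1 hp
      obtain ⟨-, hz1, hz2⟩ := Finset.mem_filter.1 hz
      rw [vpb_unique P hid hS c hz1 hz2]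
      have h2 : (X.filter (hl (P.ev c (id p.1) p.2))).card < (X.filter (hl c)).card :=
        Finset.card_lt_card ((Finset.ssubset_iff_of_subset (hsub _ _)).2
          ⟨id p.1, Finset.mem_filter.2 ⟨hp1, hp2⟩,
            fun h => hgd _ _ hp2 hp3 (Finset.mem_filter.1 h).2⟩)
      have h3 : (2 : ℝ) ^ ((X.filter (hl (P.ev c (id p.1) p.2))).card + 1) ≤
          2 ^ (X.filter (hl c)).card := pow_le_pow_right₀ (by norm_num) h2
      rw [pow_succ] at h3
      linarith
    · rw [sub_zero]
      exact pow_le_pow_right₀ (by norm_num) (hmono' z)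
  refine (Finset.sum_le_sum fun z _ => hpt z).trans ?_
  rw [Finset.sum_sub_distrib, Finset.sum_ite_mem, Finset.univ_inter, Finset.sum_const,
    Finset.sum_const, Finset.card_univ, nsmul_eq_mul, nsmul_eq_mul, hf]
  have h1 : (X.card : ℝ) / (64 * D * a) * Fintype.card (ι → Fin a × Fin l) ≤ Z.card / 2 := by
    rw [div_mul_eq_mul_div, div_le_div_iff₀ (by positivity) (by norm_num)]
    refine le_of_mul_le_mul_right ?_ hl0
    have h2 := mul_le_mul_of_nonneg_right hPc
      (Nat.cast_nonneg (α := ℝ) (Fintype.card (ι → Fin a × Fin l)))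
    have h3 := mul_le_mul_of_nonneg_left hZc (show (0 : ℝ) ≤ 16 * D by positivity)
    linarith
  have h2 := mul_le_mul_of_nonneg_right h1
    (show (0 : ℝ) ≤ 2 ^ (X.filter (hl c)).card by positivity)
  linarith

omit [Fintype ι] in
theorem vpb_run_pair (P : Sys σ) (hl : σ → ℕ → Prop) (gd : σ → ℕ → ℕ → Prop) (T D : ℕ)
    (X : Finset ℕ) (ω : Fin T → ι → Fin a × Fin l) (t : ℕ) :
    runL (fun (s : σ × Prop) (z : ι → Fin a × Fin l) =>
        (P.step s.1 (extV id z), s.2 ∧ vpbGood hl gd l D X s.1)) (P.s0, True)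
      (extT T (fun _ => default) ω) t =
      (P.run (extW T id ω) t, ∀ t' < t, vpbGood hl gd l D X (P.run (extW T id ω) t')) := by
  induction t with
  | zero => exact Prod.ext rfl (by simp [runL])
  | succ t ih =>
    simp only [runL]
    rw [ih]
    exact Prod.ext rfl (propext Nat.forall_lt_succ_right.symm)

/-- As `prob_hole` in ProbB with the potential `2 ^ #(X.filter hl)` and
`q = 1 - |X| / (64 D a)`: at least `|X| l / (16 D)` pairs are successful. -/
theorem prob_hl (P : Sys σ) (hid : Function.Injective id) (hS : P.S = Finset.univ.image id)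
    (ha : 2 * Fintype.card ι ≤ a) (I : σ → Prop) (hI : ∀ s x j, I s → I (P.ev s x j))
    (h0 : I P.s0) (hl : σ → ℕ → Prop) (gd : σ → ℕ → ℕ → Prop)
    (hmono : ∀ s x j v, hl (P.ev s x j) v → hl s v)
    (hgd : ∀ s x j, I s → hl s x → gd s x j → ¬ hl (P.ev s x j) x) (T D : ℕ) (hD : 1 ≤ D)
    (X : Finset ℕ) (hX : X ⊆ P.S) :
    ((Finset.univ.filter fun ω : Fin T → ι → Fin a × Fin l =>
      X.card ≤ D * (X.filter (hl (P.run (extW T id ω) T))).card ∧
      ∀ t < T, 2 * D * (X.filter fun x => hl (P.run (extW T id ω) t) x ∧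
        hb l (gd (P.run (extW T id ω) t) x)).card < X.card).card : ℝ) ≤
      (2 * Real.exp (-(T / (64 * D * a)))) ^ X.card *
        Fintype.card (Fin T → ι → Fin a × Fin l) := by
  have ha0 : (0 : ℝ) < a := Nat.cast_pos.2 (NeZero.pos a)
  have hD1 : (1 : ℝ) ≤ D := by exact_mod_cast hD
  have hq : 0 ≤ 1 - (X.card : ℝ) / (64 * D * a) := by
    have h1 : X.card ≤ Fintype.card ι := by
      refine (Finset.card_le_card hX).trans ?_
      rw [hS]
      exact Finset.card_image_le
    have h2 : (X.card : ℝ) ≤ a := by exact_mod_cast (show X.card ≤ a by omega)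
    rw [sub_nonneg, div_le_one (by positivity)]
    nlinarith
  have h := pot (fun (s : σ × Prop) (z : ι → Fin a × Fin l) =>
      (P.step s.1 (extV id z), s.2 ∧ vpbGood hl gd l D X s.1)) (fun s => I s.1)
    (vpbF hl D X) (1 - (X.card : ℝ) / (64 * D * a)) hq
    (fun s z hs => vpb_step_inv P hid hS hI s.1 z hs)
    (fun s hs => vpb_hl_step P hid hS ha hmono hD hX hq fun x j => hgd s.1 x j hs) (P.s0, True) h0
    (fun _ => default) T
  simp only [vpb_run_pair] at h
  have h00 : vpbF hl D X (P.s0, True) ≤ 2 ^ X.card := by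
    unfold vpbF
    split_ifs
    · exact pow_le_pow_right₀ (by norm_num) (Finset.card_filter_le _ _)
    · positivity
  have h1 : ((Finset.univ.filter fun ω : Fin T → ι → Fin a × Fin l =>
      X.card ≤ D * (X.filter (hl (P.run (extW T id ω) T))).card ∧
      ∀ t < T, 2 * D * (X.filter fun x => hl (P.run (extW T id ω) t) x ∧
        hb l (gd (P.run (extW T id ω) t) x)).card < X.card).card : ℝ) ≤
      ∑ ω : Fin T → ι → Fin a × Fin l, vpbF hl D X (P.run (extW T id ω) T,
        ∀ t' < T, vpbGood hl gd l D X (P.run (extW T id ω) t')) := by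
    rw [Finset.card_filter, Nat.cast_sum]
    refine Finset.sum_le_sum fun ω _ => ?_
    unfold vpbF
    split_ifs with h2 h3 h3
    · rw [Nat.cast_one]
      exact one_le_pow₀ (by norm_num)
    · exact absurd ⟨h2.2, h2.1⟩ h3
    · rw [Nat.cast_zero]
      positivity
    · rw [Nat.cast_zero]
  have h2 : (1 - (X.card : ℝ) / (64 * D * a)) ^ T ≤
      Real.exp (-(T / (64 * D * a))) ^ X.card := by
    calc (1 - (X.card : ℝ) / (64 * D * a)) ^ T ≤ Real.exp (-(X.card / (64 * D * a))) ^ T :=
          pow_le_pow_left₀ hq (Real.one_sub_le_exp_neg _) T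
      _ = _ := by
          rw [← Real.exp_nat_mul, ← Real.exp_nat_mul]
          congr 1
          ring
  refine h1.trans ?_
  calc _ ≤ (1 - (X.card : ℝ) / (64 * D * a)) ^ T * Fintype.card (Fin T → ι → Fin a × Fin l) *
        vpbF hl D X (P.s0, True) := by convert h
    _ ≤ Real.exp (-(T / (64 * D * a))) ^ X.card * Fintype.card (Fin T → ι → Fin a × Fin l) *
        2 ^ X.card := by
        refine mul_le_mul (mul_le_mul_of_nonneg_right h2 (Nat.cast_nonneg _)) h00 ?_
          (by positivity)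
        unfold vpbF
        split_ifs <;> positivity
    _ = _ := by
        rw [mul_pow]
        ring

end Pool.Agent.Lib.MP_459a07_lc.V
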