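import Pool.Agent.Lib.MP_459a07_lc.VMat

set_option autoImplicit false

namespace Pool.Agent.Lib.MP_459a07_lc.V

open Classical

variable {N N' : ℕ → Finset ℕ} {μ ν μ' f : ℕ → ℕ} {K : Finset ℕ} {h z u v r s : ℕ}
  {H H' : ℕ → Prop}

private theorem vsw_conn_head {W : Finset ℕ} {a b : ℕ} (hW : Conn N W b) (hab : b ∈ N a) :
    Conn N (insert a W) a := by
  refine ⟨Finset.mem_insert_self _ _, fun y hy => ?_⟩
  rcases Finset.mem_insert.1 hy with rfl | hy
  · exact Relation.ReflTransGen.refl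
  · exact Relation.ReflTransGen.head
      ⟨Finset.mem_insert_self _ _, Finset.mem_insert_of_mem hW.1, hab⟩
      (rtg_mono (hW.2 y hy) fun c d hcd =>
        ⟨Finset.mem_insert_of_mem hcd.1, Finset.mem_insert_of_mem hcd.2.1, hcd.2.2⟩)

private theorem vsw_conn_tail {W : Finset ℕ} {a b c : ℕ} (hW : Conn N W b) (ha : a ∈ W)
    (hac : c ∈ N a) : Conn N (insert c W) b := by
  have m1 : ∀ y ∈ W, Relation.ReflTransGen
      (fun a a' => a ∈ insert c W ∧ a' ∈ insert c W ∧ a' ∈ N a) b y := fun y hy =>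
    rtg_mono (hW.2 y hy) fun c d hcd =>
      ⟨Finset.mem_insert_of_mem hcd.1, Finset.mem_insert_of_mem hcd.2.1, hcd.2.2⟩
  refine ⟨Finset.mem_insert_of_mem hW.1, fun y hy => ?_⟩
  rcases Finset.mem_insert.1 hy with rfl | hy
  · exact (m1 a ha).tail ⟨Finset.mem_insert_of_mem ha, Finset.mem_insert_self _ _, hac⟩
  · exact m1 y hy

private theorem vsw_aux (hs : Sym N) (hν : Mat N ν) : ∀ (n : ℕ) (μ : ℕ → ℕ) (K : Finset ℕ) (h : ℕ),
    K.card = n → Mat N μ → Near μ ν K → μ h = h →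
    ∃ (K' : Finset ℕ) (z : ℕ), K' ⊆ insert h K ∧ Conn N K' h ∧ z ∈ K' ∧
      (∀ v ∈ K', μ v ∈ K' ∧ ν v ∈ K') ∧
      ((ν z = z ∧ ∀ y ∈ K', (ν y = y → y = z) ∧ (μ y = y → y = h)) ∨
        (μ z = z ∧ z ≠ h ∧ ∀ y ∈ K', ν y ≠ y ∧ (μ y = y → y = h ∨ y = z))) := by
  intro n
  induction n using Nat.strong_induction_on with
  | _ n ih =>
  intro μ K h hn hμ hK hh
  by_cases h0 : ν h = h
  · refine ⟨{h}, h, by simp, conn_single N h, by simp, ?_, Or.inl ⟨h0, ?_⟩⟩
    · intro v hv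
      have : v = h := by simpa using hv
      subst this
      simp [hh, h0]
    · intro y hy
      have : y = h := by simpa using hy
      exact ⟨fun _ => this, fun _ => this⟩
  obtain ⟨a, ha⟩ : ∃ a, a = ν h := ⟨_, rfl⟩
  have hah : a ≠ h := by rw [ha]; exact h0
  have hνa : ν a = h := by rw [ha]; exact hν.1 h
  have hνh : ν h = a := ha.symm
  have haN : a ∈ N h := by rw [ha]; exact hν.2 h h0
  have hμah : μ a ≠ h := fun e => hah (by rw [← hμ.1 a, e, hh])
  have hhK : h ∈ K := by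
    by_contra hc
    exact h0 ((hK h hc).trans hh)
  have haK : a ∈ K := by
    by_contra hc
    exact hμah ((hK a hc).symm.trans hνa)
  by_cases h1 : μ a = a
  · refine ⟨insert h {a}, a, ?_, vsw_conn_head (conn_single N a) haN, by simp, ?_,
      Or.inr ⟨h1, hah, ?_⟩⟩
    · intro v hv
      rcases Finset.mem_insert.1 hv with rfl | hv
      · exact Finset.mem_insert_self _ _
      · have : v = a := by simpa using hv
        subst this
        exact Finset.mem_insert_of_mem haK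
    · intro v hv
      rcases Finset.mem_insert.1 hv with rfl | hv
      · simp [hh, hνh]
      · have : v = a := by simpa using hv
        subst this
        simp [h1, hνa]
    · intro y hy
      rcases Finset.mem_insert.1 hy with rfl | hy
      · exact ⟨h0, fun _ => Or.inl rfl⟩
      · have : y = a := by simpa using hy
        subst this
        exact ⟨fun e => hah (e.symm.trans hνa), fun _ => Or.inr rfl⟩
  obtain ⟨b, hb⟩ : ∃ b, b = μ a := ⟨_, rfl⟩
  have hba : b ≠ a := by rw [hb]; exact h1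
  have hbh : b ≠ h := by rw [hb]; exact hμah
  have hμb : μ b = a := by rw [hb]; exact hμ.1 a
  have hμa : μ a = b := hb.symm
  have hbN : b ∈ N a := by rw [hb]; exact hμ.2 a h1
  have hbK : b ∈ K := by
    by_contra hc
    have e : ν b = a := (hK b hc).trans hμb
    exact hbh (by rw [← hν.1 b, e, hνa])
  obtain ⟨μ1, hμ1⟩ : ∃ μ1 : ℕ → ℕ,
      μ1 = fun v => if v = h then a else if v = a then h else if v = b then b else μ v := ⟨_, rfl⟩
  have e1 : μ1 h = a := by simp [hμ1]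
  have e2 : μ1 a = h := by simp [hμ1, hah]
  have e3 : μ1 b = b := by simp [hμ1, hba, hbh]
  have e4 : ∀ v, v ≠ h → v ≠ a → v ≠ b → μ1 v = μ v := by
    intro v p1 p2 p3
    simp [hμ1, p1, p2, p3]
  have hm1 : Mat N μ1 := by
    constructor
    · intro v
      by_cases p1 : v = h
      · rw [p1, e1, e2]
      by_cases p2 : v = a
      · rw [p2, e2, e1]
      by_cases p3 : v = b
      · rw [p3, e3, e3]
      rw [e4 v p1 p2 p3, e4 (μ v), hμ.1]
      · intro e
        exact p1 (by rw [← hμ.1 v, e, hh])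
      · intro e
        exact p3 (by rw [← hμ.1 v, e, hμa])
      · intro e
        exact p2 (by rw [← hμ.1 v, e, hμb])
    · intro v hv
      by_cases p1 : v = h
      · rw [p1, e1]; exact haN
      by_cases p2 : v = a
      · rw [p2, e2]; exact hs _ _ haN
      by_cases p3 : v = b
      · exact absurd (by rw [p3, e3]) hv
      rw [e4 v p1 p2 p3] at hv ⊢
      exact hμ.2 v hv
  have hn1 : Near μ1 ν ((K.erase h).erase a) := by
    intro v hv
    by_cases p1 : v = h
    · rw [p1, e1, hνh]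
    by_cases p2 : v = a
    · rw [p2, e2, hνa]
    have hvK : v ∉ K := fun hc => hv (Finset.mem_erase.2 ⟨p2, Finset.mem_erase.2 ⟨p1, hc⟩⟩)
    rw [e4 v p1 p2 (fun e => hvK (e ▸ hbK))]
    exact hK v hvK
  have hlt : ((K.erase h).erase a).card < n := by
    rw [← hn]
    exact lt_of_le_of_lt Finset.card_erase_le (Finset.card_erase_lt_of_mem hhK)
  obtain ⟨K1, z, s1, c1, z1, cl, alt⟩ := ih _ hlt μ1 _ b rfl hm1 hn1 e3
  have nh : ∀ v ∈ K1, v ≠ h ∧ v ≠ a ∧ v ∈ K := by
    intro v hv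
    rcases Finset.mem_insert.1 (s1 hv) with rfl | hv
    · exact ⟨hbh, hba, hbK⟩
    · have q1 := Finset.mem_erase.1 hv
      have q2 := Finset.mem_erase.1 q1.2
      exact ⟨q2.1, q1.1, q2.2⟩
  have up : ∀ v ∈ K1, v ∈ insert h (insert a K1) := fun v hv =>
    Finset.mem_insert_of_mem (Finset.mem_insert_of_mem hv)
  have ia : a ∈ insert h (insert a K1) := Finset.mem_insert_of_mem (Finset.mem_insert_self _ _)
  have fx : ∀ y ∈ K1, μ y = y → y ≠ b ∧ μ1 y = y := by
    intro y hy e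
    have p3 : y ≠ b := by
      intro e'
      rw [e', hμb] at e
      exact hba e.symm
    exact ⟨p3, (e4 y (nh y hy).1 (nh y hy).2.1 p3).trans e⟩
  refine ⟨insert h (insert a K1), z, ?_, vsw_conn_head (vsw_conn_head c1 hbN) haN, up z z1, ?_, ?_⟩
  · intro v hv
    rcases Finset.mem_insert.1 hv with rfl | hv
    · exact Finset.mem_insert_self _ _
    rcases Finset.mem_insert.1 hv with rfl | hv
    · exact Finset.mem_insert_of_mem haK
    · exact Finset.mem_insert_of_mem (nh v hv).2.2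
  · intro v hv
    rcases Finset.mem_insert.1 hv with rfl | hv
    · rw [hh, hνh]
      exact ⟨Finset.mem_insert_self _ _, ia⟩
    rcases Finset.mem_insert.1 hv with rfl | hv
    · rw [hμa, hνa]
      exact ⟨up b c1.1, Finset.mem_insert_self _ _⟩
    · refine ⟨?_, up _ (cl v hv).2⟩
      by_cases p3 : v = b
      · rw [p3, hμb]; exact ia
      · rw [← e4 v (nh v hv).1 (nh v hv).2.1 p3]
        exact up _ (cl v hv).1
  · rcases alt with ⟨t1, t2⟩ | ⟨t1, t2, t3⟩
    · refine Or.inl ⟨t1, fun y hy => ?_⟩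
      rcases Finset.mem_insert.1 hy with rfl | hy
      · exact ⟨fun e => absurd e h0, fun _ => rfl⟩
      rcases Finset.mem_insert.1 hy with rfl | hy
      · exact ⟨fun e => absurd (e.symm.trans hνa) hah, fun e => absurd e h1⟩
      · exact ⟨(t2 y hy).1, fun e => absurd ((t2 y hy).2 (fx y hy e).2) (fx y hy e).1⟩
    · refine Or.inr ⟨(e4 z (nh z z1).1 (nh z z1).2.1 t2).symm.trans t1, (nh z z1).1,
        fun y hy => ?_⟩
      rcases Finset.mem_insert.1 hy with rfl | hy
      · exact ⟨h0, fun _ => Or.inl rfl⟩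
      rcases Finset.mem_insert.1 hy with rfl | hy
      · exact ⟨fun e => hah (e.symm.trans hνa), fun e => absurd e h1⟩
      · refine ⟨(t3 y hy).1, fun e => Or.inr ?_⟩
        exact ((t3 y hy).2 (fx y hy e).2).resolve_left (fx y hy e).1

/-- The alternating path from the `μ`-exposed node `h`.  Induct on `K.card`: if `ν h = h` take
`{h}`; if `a = ν h` is `μ`-exposed take `{h, a}`; otherwise let `b = μ a`, change `μ` by matching
`h, a` and exposing `b`, and apply the induction hypothesis to `b` and `K` without `h, a`. -/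
theorem switch (hs : Sym N) (hμ : Mat N μ) (hν : Mat N ν) (hK : Near μ ν K) (hh : μ h = h) :
    ∃ (K' : Finset ℕ) (z : ℕ), K' ⊆ insert h K ∧ Conn N K' h ∧ z ∈ K' ∧
      (∀ v ∈ K', μ v ∈ K' ∧ ν v ∈ K') ∧
      ((ν z = z ∧ ∀ y ∈ K', (ν y = y → y = z) ∧ (μ y = y → y = h)) ∨
        (μ z = z ∧ z ≠ h ∧ ∀ y ∈ K', ν y ≠ y ∧ (μ y = y → y = h ∨ y = z))) := by
  exact vsw_aux hs hν _ μ K h rfl hμ hK hh

/-- From a global matching to a patch. -/
theorem norm_mv (hs : Sym N) (hμ : Mat N μ) (hν : Mat N ν) (hK : Near μ ν K) (hh : μ h = h)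
    (he : ∀ v, ν v = v → (μ v = v ∧ v ≠ h) ∨ v = z) :
    ∃ (K' : Finset ℕ) (z' : ℕ), K' ⊆ insert h K ∧ Fx N μ h z' K' ν ∧
      (ν z' ≠ z' ∨ (z' = z ∧ ν z = z)) ∧ ∀ y ∈ K', μ y = y → y = h ∨ (y = z' ∧ ν z' ≠ z') := by
  obtain ⟨K1, z1, s1, c1, m1, cl, alt⟩ := switch hs hμ hν hK hh
  have cl' : ∀ v ∈ K1, μ v ∈ K1 ∧ ν v ∈ K1 ∧ ν (ν v) = v ∧ (ν v ≠ v → ν v ∈ N v) :=
    fun v hv => ⟨(cl v hv).1, (cl v hv).2, hν.1 v, hν.2 v⟩
  rcases alt with ⟨t1, t2⟩ | ⟨t1, t2, t3⟩
  · have e : z1 = z := by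
      rcases he z1 t1 with ⟨q1, q2⟩ | q
      · exact absurd ((t2 z1 m1).2 q1) q2
      · exact q
    exact ⟨K1, z1, s1, ⟨c1, m1, cl', fun v hv e' => Or.inr ((t2 v hv).1 e')⟩,
      Or.inr ⟨e, e ▸ t1⟩, fun y hy e' => Or.inl ((t2 y hy).2 e')⟩
  · refine ⟨K1, z1, s1, ⟨c1, m1, cl', fun v hv e' => absurd e' (t3 v hv).1⟩,
      Or.inl (t3 z1 m1).1, fun y hy e' => ?_⟩
    rcases (t3 y hy).2 e' with q | q
    · exact Or.inl q
    · exact Or.inr ⟨q, (t3 z1 m1).1⟩

private theorem vsw_pair (hs : Sym N) (hμ : Mat N μ) (hν : Mat N ν) (hK : Near μ ν K)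
    (hh : μ h = h) (hhK : h ∈ K) (cl : ∀ v ∈ K, μ v ∈ K ∧ ν v ∈ K) (ok : ℕ → Prop)
    (hok : ∀ v ∈ K, ν v = v → ok v)
    (hmin : ∀ z' K' f', Fx N μ h z' K' f' → (f' z' ≠ z' ∨ ok z') → K.card ≤ K'.card)
    {y : ℕ} (hy : y ∈ K) (hμy : μ y ≠ y) :
    ∃ q, (q = y ∨ q = μ y) ∧ (Oe N μ (fun x => x = h) (K.card - 1) q ∨ ν q = q) := by
  obtain ⟨μ1, hμ1⟩ : ∃ μ1 : ℕ → ℕ, μ1 = fun v => if v = y ∨ v = μ y then v else μ v := ⟨_, rfl⟩
  have e1 : ∀ v, (v = y ∨ v = μ y) → μ1 v = v := by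
    intro v hv
    simp only [hμ1, if_pos hv]
  have e2 : ∀ v, ¬ (v = y ∨ v = μ y) → μ1 v = μ v := by
    intro v hv
    simp only [hμ1, if_neg hv]
  have sw : ∀ v, (μ v = y ∨ μ v = μ y) → (v = y ∨ v = μ y) := by
    intro v hv
    rcases hv with e | e
    · exact Or.inr (by rw [← e, hμ.1])
    · exact Or.inl (by rw [← hμ.1 v, e, hμ.1])
  have nf : ∀ v, (v = y ∨ v = μ y) → μ v ≠ v := by
    intro v hv
    rcases hv with rfl | rfl
    · exact hμy
    · rw [hμ.1]; exact hμy.symm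
  have pr : ∀ v, (v = y ∨ v = μ y) → (μ v = y ∨ μ v = μ y) := by
    intro v hv
    rcases hv with rfl | rfl
    · exact Or.inr rfl
    · exact Or.inl (hμ.1 _)
  have inK : ∀ v, (v = y ∨ v = μ y) → v ∈ K := by
    intro v hv
    rcases hv with rfl | rfl
    · exact hy
    · exact (cl _ hy).1
  have hm1 : Mat N μ1 := by
    constructor
    · intro v
      by_cases p : v = y ∨ v = μ y
      · rw [e1 v p, e1 v p]
      · rw [e2 v p, e2 (μ v) (fun e => p (sw v e)), hμ.1]
    · intro v hv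
      by_cases p : v = y ∨ v = μ y
      · exact absurd (e1 v p) hv
      · rw [e2 v p] at hv ⊢
        exact hμ.2 v hv
  have hn1 : Near μ1 ν K := by
    intro v hv
    rw [e2 v (fun p => hv (inK v p))]
    exact hK v hv
  have hh' : ¬ (h = y ∨ h = μ y) := fun p => nf h p hh
  obtain ⟨K1, z1, s1, c1, m1, cl1, alt⟩ := switch hs hm1 hν hn1 ((e2 h hh').trans hh)
  rw [Finset.insert_eq_of_mem hhK] at s1
  have small : (∀ v ∈ K1, ¬ (v = y ∨ v = μ y)) → (∀ v ∈ K1, ν v = v → v = z1) → False := by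
    intro q1 q2
    have fx : Fx N μ h z1 K1 ν := by
      refine ⟨c1, m1, fun v hv => ⟨?_, (cl1 v hv).2, hν.1 v, hν.2 v⟩,
        fun v hv e => Or.inr (q2 v hv e)⟩
      rw [← e2 v (q1 v hv)]
      exact (cl1 v hv).1
    have ok1 : ν z1 ≠ z1 ∨ ok z1 := by
      by_cases e : ν z1 = z1
      · exact Or.inr (hok z1 (s1 m1) e)
      · exact Or.inl e
    have l1 := hmin z1 K1 ν fx ok1
    have l2 : K1 = K := Finset.eq_of_subset_of_card_le s1 l1
    exact q1 y (l2 ▸ hy) (Or.inl rfl)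
  rcases alt with ⟨t1, t2⟩ | ⟨t1, t2, t3⟩
  · exfalso
    refine small (fun v hv p => hh' ?_) fun v hv e => (t2 v hv).1 e
    rw [← (t2 v hv).2 (e1 v p)]
    exact p
  by_cases pz : z1 = y ∨ z1 = μ y
  swap
  · exfalso
    refine small (fun v hv p => ?_) fun v hv e => absurd e (t3 v hv).1
    rcases (t3 v hv).2 (e1 v p) with e | e
    · exact hh' (e ▸ p)
    · exact pz (e ▸ p)
  obtain ⟨q, hq⟩ : ∃ q, q = μ z1 := ⟨_, rfl⟩
  have pq : q = y ∨ q = μ y := by rw [hq]; exact pr z1 pz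
  have qz : q ≠ z1 := by rw [hq]; exact nf z1 pz
  have qK1 : q ∉ K1 := by
    intro hc
    rcases (t3 q hc).2 (e1 q pq) with e | e
    · exact hh' (e ▸ pq)
    · exact qz e
  have μq : μ q = z1 := by rw [hq, hμ.1]
  have qN : q ∈ N z1 := by rw [hq]; exact hμ.2 z1 (nf z1 pz)
  have only : ∀ v ∈ K1, (v = y ∨ v = μ y) → v = z1 := by
    intro v hv p
    rcases (t3 v hv).2 (e1 v p) with e | e
    · exact absurd (e ▸ p) hh'
    · exact e
  refine ⟨q, pq, ?_⟩
  have sub2 : insert q K1 ⊆ K := Finset.insert_subset (inK q pq) s1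
  by_cases hc : (insert q K1).card ≤ K.card - 1
  · left
    obtain ⟨f2, hf2⟩ : ∃ f2 : ℕ → ℕ, f2 = fun v => if v = q then q else ν v := ⟨_, rfl⟩
    have g1 : f2 q = q := by simp [hf2]
    have g2 : ∀ v ∈ K1, f2 v = ν v := by
      intro v hv
      have : v ≠ q := fun e => qK1 (e ▸ hv)
      simp [hf2, this]
    refine ⟨h, insert q K1, f2, rfl, hc, ⟨vsw_conn_tail c1 m1 qN, Finset.mem_insert_self _ _,
      fun v hv => ?_, fun v hv e => ?_⟩, g1⟩
    · rcases Finset.mem_insert.1 hv with rfl | hv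
      · rw [μq, g1, g1]
        exact ⟨Finset.mem_insert_of_mem m1, Finset.mem_insert_self _ _, rfl, fun e => absurd rfl e⟩
      · rw [g2 v hv, g2 _ (cl1 v hv).2]
        refine ⟨?_, Finset.mem_insert_of_mem (cl1 v hv).2, hν.1 v, hν.2 v⟩
        by_cases p : v = y ∨ v = μ y
        · rw [only v hv p, ← hq]
          exact Finset.mem_insert_self _ _
        · rw [← e2 v p]
          exact Finset.mem_insert_of_mem (cl1 v hv).1
    · rcases Finset.mem_insert.1 hv with rfl | hv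
      · exact Or.inr rfl
      · rw [g2 v hv] at e
        exact absurd e (t3 v hv).1
  · right
    have l2 : insert q K1 = K := Finset.eq_of_subset_of_card_le sub2 (by omega)
    have l3 : ν q ∈ insert q K1 := by
      rw [l2]
      exact (cl q (inK q pq)).2
    rcases Finset.mem_insert.1 l3 with e | e
    · exact e
    · have := (cl1 _ e).2
      rw [hν.1] at this
      exact absurd this qK1

/-- Every node of a smallest patch is close to a node reachable by a smaller patch.  Put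
`ν = glue K f μ`.  By `norm_mv` and minimality `K` is the alternating path from `h`.  For a pair
`y, μ y` in `K` delete it from `μ` and apply `switch`: the path ends at `y` or `μ y` (otherwise it
is a smaller patch), so the other one is reachable, by a smaller patch unless it is the end `z`.
The partner under `f` of the last pair lies in an earlier pair or is `h`. -/
theorem minp (hs : Sym N) (hμ : Mat N μ) (hh : μ h = h) (ok : ℕ → Prop) (hf : Fx N μ h z K f)
    (hok : f z ≠ z ∨ ok z)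
    (hmin : ∀ z' K' f', Fx N μ h z' K' f' → (f' z' ≠ z' ∨ ok z') → K.card ≤ K'.card) :
    ∀ y ∈ K, ∃ u, (u = h ∨ Oe N μ (fun x => x = h) (K.card - 1) u) ∧ y ∈ ball N u 3 := by
  obtain ⟨ν, hνe⟩ : ∃ ν, ν = glue K f μ := ⟨_, rfl⟩
  have hν : Mat N ν := by rw [hνe]; exact mat_glue hμ hf.2.2.1
  have g1 : ∀ v ∈ K, ν v = f v := by
    intro v hv
    simp only [hνe, glue, if_pos hv]
  have hK : Near μ ν K := by
    intro v hv
    simp only [hνe, glue, if_neg hv]
  have hhK : h ∈ K := hf.1.1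
  have he : ∀ v, ν v = v → (μ v = v ∧ v ≠ h) ∨ v = z := by
    intro v e
    by_cases hv : v ∈ K
    · exact hf.2.2.2 v hv ((g1 v hv).symm.trans e)
    · exact Or.inl ⟨(hK v hv).symm.trans e, fun e' => hv (e' ▸ hhK)⟩
  obtain ⟨K0, z0, s0, fx0, a0, b0⟩ := norm_mv hs hμ hν hK hh he
  rw [Finset.insert_eq_of_mem hhK] at s0
  have ok0 : ν z0 ≠ z0 ∨ ok z0 := by
    rcases a0 with e | ⟨e1, e2⟩
    · exact Or.inl e
    · right
      rw [e1]
      exact hok.resolve_left fun c => c ((g1 z hf.2.1).symm.trans e2)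
  have eK : K0 = K := Finset.eq_of_subset_of_card_le s0 (hmin z0 K0 ν fx0 ok0)
  rw [eK] at fx0 b0
  have uniq : ∀ v ∈ K, ν v = v → v = z0 := by
    intro v hv e
    rcases fx0.2.2.2 v hv e with ⟨q1, q2⟩ | q
    · rcases b0 v hv q1 with q | q
      · exact absurd q q2
      · exact q.1
    · exact q
  have cl : ∀ v ∈ K, μ v ∈ K ∧ ν v ∈ K := fun v hv =>
    ⟨(fx0.2.2.1 v hv).1, (fx0.2.2.1 v hv).2.1⟩
  have hok' : ∀ v ∈ K, ν v = v → ok v := by
    intro v hv e
    have e' := uniq v hv e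
    rw [e'] at e ⊢
    exact ok0.resolve_left fun c => c e
  have pair : ∀ y ∈ K, μ y ≠ y → ∃ q, (q = y ∨ q = μ y) ∧
      (Oe N μ (fun x => x = h) (K.card - 1) q ∨ ν q = q) := fun y hy e =>
    vsw_pair hs hμ hν hK hh hhK cl ok hok' hmin hy e
  have near : ∀ y q, μ y ≠ y → (q = y ∨ q = μ y) → y ∈ ball N q 1 := by
    intro y q e p
    rcases p with rfl | rfl
    · exact self_mem_ball
    · exact mem_ball_one (hs _ _ (hμ.2 y e))
  have back : ∀ p, ν p ≠ p → p ∈ N (ν p) := fun p e => hs _ _ (hν.2 p e)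
  intro y hy
  by_cases c0 : y = h
  · exact ⟨h, Or.inl rfl, c0 ▸ self_mem_ball⟩
  by_cases c1 : μ y = y
  · obtain ⟨q1, q2⟩ := (b0 y hy c1).resolve_left c0
    rw [← q1] at q2
    by_cases c2 : ν y = h
    · refine ⟨h, Or.inl rfl, ball_mono (by norm_num : 1 ≤ 3) (mem_ball_one ?_)⟩
      rw [← c2]
      exact back y q2
    have c3 : μ (ν y) ≠ ν y := by
      intro e
      rcases b0 _ (cl y hy).2 e with r | r
      · exact c2 r
      · exact q2 (r.1.trans q1.symm)
    obtain ⟨q, pq, r⟩ := pair _ (cl y hy).2 c3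
    have qK : q ∈ K := by
      rcases pq with rfl | rfl
      · exact (cl y hy).2
      · exact (cl _ (cl y hy).2).1
    rcases r with r | r
    · exact ⟨q, Or.inr r,
        ball_mono (by norm_num : 1 + 1 ≤ 3) (ball_step (near _ q c3 pq) (back y q2))⟩
    · have := uniq q qK r
      rw [this, ← q1] at r
      exact absurd r q2
  obtain ⟨q, pq, r⟩ := pair y hy c1
  rcases r with r | r
  · exact ⟨q, Or.inr r, ball_mono (by norm_num : 1 ≤ 3) (near y q c1 pq)⟩
  have qK : q ∈ K := by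
    rcases pq with rfl | rfl
    · exact hy
    · exact (cl y hy).1
  have μq : μ q ≠ q := by
    rcases pq with rfl | rfl
    · exact c1
    · rw [hμ.1]; exact fun e => c1 e.symm
  have qz : q = z0 := uniq q qK r
  obtain ⟨p, hp⟩ : ∃ p, p = μ q := ⟨_, rfl⟩
  have pK : p ∈ K := by rw [hp]; exact (cl q qK).1
  have pq' : p ≠ q := by rw [hp]; exact μq
  have νp : ν p ≠ p := fun e => pq' ((uniq p pK e).trans qz.symm)
  have yp : y ∈ ball N p 1 := by
    refine near y p c1 ?_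
    rcases pq with e | e
    · exact Or.inr (by rw [hp, e])
    · exact Or.inl (by rw [hp, e, hμ.1])
  have yw : y ∈ ball N (ν p) (1 + 1) := ball_trans (mem_ball_one (back p νp)) yp
  by_cases c2 : ν p = h
  · exact ⟨h, Or.inl rfl, ball_mono (by norm_num : 1 + 1 ≤ 3) (c2 ▸ yw)⟩
  have c3 : μ (ν p) ≠ ν p := by
    intro e
    rcases b0 _ (cl p pK).2 e with t | t
    · exact c2 t
    · exact t.2 (qz ▸ r)
  obtain ⟨q', pq2, r'⟩ := pair _ (cl p pK).2 c3
  rcases r' with r' | r'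
  · exact ⟨q', Or.inr r', ball_trans (near _ q' c3 pq2) yw⟩
  · exfalso
    have q'K : q' ∈ K := by
      rcases pq2 with rfl | rfl
      · exact (cl p pK).2
      · exact (cl _ (cl p pK).2).1
    have e : q' = q := (uniq q' q'K r').trans qz.symm
    rcases pq2 with t | t
    · apply pq'
      rw [← hν.1 p, ← t, e, r]
    · apply νp
      rw [← hμ.1 (ν p), ← t, e, hp]

end Pool.Agent.Lib.MP_459a07_lc.V
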