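import Pool.Agent.Lib.MP_459a07_lc.VDefs

/-! Definitions for the peeling of matchings.  Colour `0` means uncoloured, `1, ..., k + 1` are the
colours, `k + 2` marks a reserved edge. -/

set_option autoImplicit false

namespace Pool.Agent.Lib.MP_459a07_lc.V

open Classical

/-- Uncoloured edges at `v`. -/
def En (N : ℕ → Finset ℕ) (c : Col) (v : ℕ) : Finset ℕ := (N v).filter fun u => c v u = 0

/-- Uncoloured edges leaving `X` plus half edges in `X`. -/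
noncomputable def cutp (N : ℕ → Finset ℕ) (c : Col) (hv : ℕ → Prop) (X : Finset ℕ) : ℕ :=
  ∑ v ∈ X, ((En N c v \ X).card + ind (hv v))

/-- The representative of the node of `v`. -/
noncomputable def rp (nd : ℕ → Finset ℕ) (v : ℕ) : ℕ := sInf ((nd v : Finset ℕ) : Set ℕ)

/-- `nd` is a partition of `X`. -/
def Part (X : Finset ℕ) (nd : ℕ → Finset ℕ) : Prop :=
  ∀ v ∈ X, v ∈ nd v ∧ nd v ⊆ X ∧ ∀ u ∈ nd v, nd u = nd v

def GPart (nd : ℕ → Finset ℕ) : Prop := ∀ v, v ∈ nd v ∧ ∀ u ∈ nd v, nd u = nd v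

noncomputable def reps (X : Finset ℕ) (nd : ℕ → Finset ℕ) : Finset ℕ :=
  X.filter fun v => rp nd v = v

/-- A minimal deficient family of nodes, given by the set `F` of representatives. -/
structure MinDef (N : ℕ → Finset ℕ) (c : Col) (hv : ℕ → Prop) (nd : ℕ → Finset ℕ) (D : ℕ)
    (F : Finset ℕ) : Prop where
  rep : ∀ a ∈ F, rp nd a = a
  odd : Odd F.card
  care : ∀ a ∈ F, cutp N c hv (nd a) = D
  small : cutp N c hv (F.biUnion nd) < D
  min : ∀ F' ⊂ F, Odd F'.card → D ≤ cutp N c hv (F'.biUnion nd)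

/-- Nested blobs in normal form.  `Nm .. false P X`: the set `X` is a node for the palette `P`.
`Nm .. true P X`: it is a node or a minimal deficient family of nodes. -/
inductive Nm (k : ℕ) (N : ℕ → Finset ℕ) (c : Col) (hv : ℕ → Prop) :
    Bool → Finset ℕ → Finset ℕ → Prop
  | leaf (P : Finset ℕ) (v : ℕ) : P ⊆ Finset.Icc 1 (k + 1) → (∀ u, c v u ∉ P) →
      cutp N c hv {v} < P.card → Nm k N c hv false P {v}
  | defer (P X : Finset ℕ) (γ : ℕ) : γ ∉ P → Nm k N c hv true (insert γ P) X →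
      cutp N c hv X < P.card → Nm k N c hv false P X
  | single (P X : Finset ℕ) : Nm k N c hv false P X → Nm k N c hv true P X
  | group (P X : Finset ℕ) (nd : ℕ → Finset ℕ) : Part X nd →
      (∀ v ∈ X, Nm k N c hv false P (nd v)) → MinDef N c hv nd (P.card - 1) (reps X nd) →
      Nm k N c hv true P X

/-- The rows of `X` are those of a proper colouring of some edges. -/
structure Ok (k : ℕ) (N : ℕ → Finset ℕ) (X : Finset ℕ) (c : Col) : Prop where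
  symm : ∀ u ∈ X, ∀ v ∈ X, c u v = c v u
  edge : ∀ u ∈ X, ∀ v, c u v ≠ 0 → v ∈ N u
  inj : ∀ u ∈ X, ∀ v w, c u v ≠ 0 → c u v = c u w → v = w
  le : ∀ u ∈ X, ∀ v, c u v ≤ k + 2

/-- `c'` colours further edges inside `X`. -/
structure Ext (k : ℕ) (N : ℕ → Finset ℕ) (X : Finset ℕ) (c c' : Col) : Prop where
  ok : Ok k N X c'
  keep : ∀ u ∈ X, ∀ v, v ∉ X ∨ c u v ≠ 0 → c' u v = c u v
  nomk : ∀ u ∈ X, ∀ v, c' u v = k + 2 → c u v = k + 2

def ResP (k : ℕ) (N : ℕ → Finset ℕ) (hv : ℕ → Prop) (P X : Finset ℕ) (c : Col)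
    (r : Col × (ℕ → Finset ℕ)) : Prop :=
  Ext k N X c r.1 ∧ Part X r.2 ∧ ∀ v ∈ X, Nm k N r.1 hv false P (r.2 v)

/-- After colouring more edges, `X` splits into nodes for the palette `P`. -/
def Res (k : ℕ) (N : ℕ → Finset ℕ) (hv : ℕ → Prop) (P X : Finset ℕ) (c : Col) : Prop :=
  ∃ r, ResP k N hv P X c r

/-- The rows of `X` in `c1` are those of `c`, except that the edge `t t'` leaving `X` gets `γ`. -/
structure OneEdge (N : ℕ → Finset ℕ) (X : Finset ℕ) (c c1 : Col) (t t' γ : ℕ) : Prop where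
  mem : t ∈ X
  out : t' ∉ X
  unc : t' ∈ En N c t
  rows : ∀ u ∈ X, ∀ v, c1 u v = if u = t ∧ v = t' then γ else c u v

/-- Merge the nodes of each family chosen by `Ch`. -/
noncomputable def grp (nd : ℕ → Finset ℕ) (Ch : Finset ℕ → Prop) (v : ℕ) : Finset ℕ :=
  if ∃ F, Ch F ∧ rp nd v ∈ F then (epsilon fun F => Ch F ∧ rp nd v ∈ F).biUnion nd else nd v

/-! ### The quotient -/

noncomputable def QN (N : ℕ → Finset ℕ) (c : Col) (nd : ℕ → Finset ℕ) (a : ℕ) : Finset ℕ :=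
  if rp nd a = a then (((nd a).biUnion (En N c)).image (rp nd)).erase a else ∅

noncomputable def Qm (N : ℕ → Finset ℕ) (c : Col) (nd : ℕ → Finset ℕ) (a b : ℕ) : ℕ :=
  if rp nd a = a ∧ rp nd b = b ∧ a ≠ b then ∑ u ∈ nd a, (En N c u ∩ nd b).card else 0

/-- The quotient inside `X`. -/
noncomputable def QX (N : ℕ → Finset ℕ) (c : Col) (nd : ℕ → Finset ℕ) (X : Finset ℕ) (a : ℕ) :
    Finset ℕ :=
  if a ∈ reps X nd then (reps X nd).filter fun b => b ≠ a ∧ ∃ u ∈ nd a, ∃ v ∈ nd b, v ∈ En N c u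
  else ∅

/-! ### The global state -/

structure RS where
  c : Col
  nd : ℕ → Finset ℕ
  hv : ℕ → Prop

def RS.row (x : RS) (v : ℕ) : (ℕ → ℕ) × Finset ℕ × Prop := (x.c v, x.nd v, x.hv v)

structure GV (k : ℕ) (S : Finset ℕ) (N : ℕ → Finset ℕ) : Prop where
  sym : Sym N
  irr : Irr N
  sub : ∀ u v, v ∈ N u → u ∈ S
  card : ∀ u, (N u).card ≤ k

def Pal (k d : ℕ) : Finset ℕ := insert (k + 1) (Finset.Icc 1 d)

/-- The invariant before the stage that uses colour `d`. -/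
structure RI (k : ℕ) (b : Bool) (d σ Λ : ℕ) (N : ℕ → Finset ℕ) (x : RS) : Prop where
  ok : ∀ X, Ok k N X x.c
  part : GPart x.nd
  nm : ∀ v, Nm k N x.c x.hv b (Pal k d) (x.nd v)
  diam : ∀ v, x.nd v ⊆ ball N v Λ
  hv1 : ∀ w, x.hv w → ∃ y, x.c w y = k + 2 ∧ ¬ x.hv y
  hv2 : ∀ y w, x.c y w = k + 2 → x.hv y ∨ x.hv w
  sep : ∀ y w y' w', x.c y w = k + 2 → x.c y' w' = k + 2 →
    rp x.nd y' ∈ ball (QN N x.c x.nd) (rp x.nd y) σ → y' = y ∨ y' = w

/-- No small deficient family is left. -/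
def NoDef (N : ℕ → Finset ℕ) (x : RS) (d L : ℕ) : Prop :=
  ∀ F : Finset ℕ, (∀ a ∈ F, rp x.nd a = a ∧ cutp N x.c x.hv (x.nd a) = d) → Odd F.card →
    F.card ≤ L → d ≤ cutp N x.c x.hv (F.biUnion x.nd)

/-! #### Grouping -/

def MD (N : ℕ → Finset ℕ) (x : RS) (d L : ℕ) (F : Finset ℕ) : Prop :=
  MinDef N x.c x.hv x.nd d F ∧ F.card ≤ L

def Ovl (N : ℕ → Finset ℕ) (x : RS) (d L : ℕ) (F F' : Finset ℕ) : Prop :=
  MD N x d L F ∧ MD N x d L F' ∧ ¬ Disjoint F F'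

def MaxDisj (C M : Set (Finset ℕ)) : Prop :=
  M ⊆ C ∧ (∀ F ∈ M, ∀ F' ∈ M, ¬ Disjoint F F' → F = F') ∧ ∀ F ∈ C, ∃ F' ∈ M, ¬ Disjoint F F'

def chosen (N : ℕ → Finset ℕ) (x : RS) (d L : ℕ) (F : Finset ℕ) : Prop :=
  MD N x d L F ∧ F ∈ epsilon (MaxDisj {F' | Relation.ReflTransGen (Ovl N x d L) F F'})

noncomputable def gstep (N : ℕ → Finset ℕ) (d L : ℕ) (x : RS) : RS :=
  ⟨x.c, grp x.nd (chosen N x d L), x.hv⟩

/-! #### The instance of the matching process -/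

noncomputable def Qof (k : ℕ) (S : Finset ℕ) (N : ℕ → Finset ℕ) (x : RS) : Inst :=
  ⟨S, QN N x.c x.nd, Qm N x.c x.nd, fun a => rp x.nd a = a ∧ ∃ v ∈ x.nd a, x.hv v,
    fun a => rp x.nd a = a ∧ ∃ v ∈ x.nd a, ∃ u, x.c v u = k + 2⟩

/-! #### The update -/

section Upd

variable (k d : ℕ) (N : ℕ → Finset ℕ) (x : RS) (s : St)

/-- A chosen uncoloured edge between two nodes. -/
noncomputable def pe (a b : ℕ) : ℕ × ℕ :=
  epsilon fun p : ℕ × ℕ => p.1 ∈ x.nd (min a b) ∧ p.2 ∈ x.nd (max a b) ∧ p.2 ∈ En N x.c p.1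

/-- Its end in the node `a`. -/
noncomputable def ep (a b : ℕ) : ℕ := if a < b then (pe N x a b).1 else (pe N x a b).2

/-- The marked exposed node `a` reserves an edge to the node `b`. -/
def Rs (a b : ℕ) : Prop :=
  s.mk' a ∧ s.μ a = a ∧ b = sInf ((QN N x.c x.nd a : Finset ℕ) : Set ℕ)

noncomputable def c1 : Col := fun u v =>
  if v ∈ En N x.c u ∧ rp x.nd u ≠ rp x.nd v ∧ u = ep N x (rp x.nd u) (rp x.nd v) ∧
      v = ep N x (rp x.nd v) (rp x.nd u) then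
    if s.μ (rp x.nd u) = rp x.nd v then d
    else if Rs N x s (rp x.nd u) (rp x.nd v) ∨ Rs N x s (rp x.nd v) (rp x.nd u) then k + 2
    else x.c u v
  else x.c u v

def hv1 (v : ℕ) : Prop :=
  x.hv v ∨ ∃ a ∈ QN N x.c x.nd (rp x.nd v), Rs N x s a (rp x.nd v) ∧ v = ep N x (rp x.nd v) a

noncomputable def ch (X : Finset ℕ) : Col × (ℕ → Finset ℕ) :=
  epsilon (ResP k N (hv1 N x s) (Pal k (d - 1)) X (c1 k d N x s))

noncomputable def ustep : RS :=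
  ⟨fun u => (ch k d N x s (x.nd u)).1 u, fun u => (ch k d N x s (x.nd u)).2 u, hv1 N x s⟩

end Upd

/-! #### The last step -/

/-- The rows of `X` in `cF` form a total proper colouring with the boundary values `cb`. -/
structure FinP (k : ℕ) (N : ℕ → Finset ℕ) (X : Finset ℕ) (cb cF : Col) : Prop where
  symm : ∀ u ∈ X, ∀ v ∈ X, v ∈ N u → cF u v = cF v u
  rng : ∀ u ∈ X, ∀ v ∈ N u, 1 ≤ cF u v ∧ cF u v ≤ k + 1
  inj : ∀ u ∈ X, ∀ v ∈ N u, ∀ w ∈ N u, cF u v = cF u w → v = w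
  bd : ∀ u ∈ X, ∀ v ∈ N u, v ∉ X → cF u v = cb u v

/-- Boundary values: uncoloured edges get colour `1`, reserved edges colour `k + 1`. -/
def cbd (k : ℕ) (c : Col) : Col := fun u v =>
  if c u v = 0 then 1 else if c u v = k + 2 then k + 1 else c u v

noncomputable def fstep (k : ℕ) (N : ℕ → Finset ℕ) (x : RS) : RS :=
  ⟨fun u => epsilon (FinP k N (x.nd u) (cbd k x.c)) u, x.nd, x.hv⟩

structure Total (k : ℕ) (N : ℕ → Finset ℕ) (x : RS) : Prop where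
  symm : ∀ u, ∀ v ∈ N u, x.c u v = x.c v u
  rng : ∀ u, ∀ v ∈ N u, 1 ≤ x.c u v ∧ x.c u v ≤ k + 1
  inj : ∀ u, ∀ v ∈ N u, ∀ w ∈ N u, x.c u v = x.c u w → v = w

/-! ### Nested palettes -/

/-- `zn γ v` is the zone of `v` for the colour `γ` (empty if `γ` is not available at `v`);
the colour `s` is available everywhere. -/
structure Zs (Ω Γ : Finset ℕ) (s : ℕ) (zn : ℕ → ℕ → Finset ℕ) : Prop where
  sΓ : s ∉ Γ
  s0 : s ≠ 0
  Γ0 : 0 ∉ Γ
  self : ∀ γ u, u ∈ zn γ u ∨ zn γ u = ∅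
  cls : ∀ γ u v, v ∈ zn γ u → zn γ v = zn γ u
  sub : ∀ γ u, zn γ u ⊆ Ω
  off : ∀ γ u, γ ∉ Γ → zn γ u = ∅
  lam : ∀ γ γ' u, u ∈ zn γ u → u ∈ zn γ' u → zn γ u ⊆ zn γ' u ∨ zn γ' u ⊆ zn γ u

/-- Number of deferred colours at `u`. -/
noncomputable def npal (Γ : Finset ℕ) (zn : ℕ → ℕ → Finset ℕ) (u : ℕ) : ℕ :=
  (Γ.filter fun γ => u ∈ zn γ u).card

/-- Number of deferred colours whose zone at `u` strictly contains `R`. -/
noncomputable def nup (Γ : Finset ℕ) (zn : ℕ → ℕ → Finset ℕ) (R : Finset ℕ) (u : ℕ) : ℕ :=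
  (Γ.filter fun γ => R ⊂ zn γ u).card

def ecut (E : ℕ → Finset ℕ) (R : Finset ℕ) : ℕ := ∑ v ∈ R, (E v \ R).card

/-- A proper colouring of some edges of `E` that respects the zones. -/
structure ZC (s : ℕ) (zn : ℕ → ℕ → Finset ℕ) (E : ℕ → Finset ℕ) (f : Col) : Prop where
  symm : ∀ u v, f u v = f v u
  edge : ∀ u v, f u v ≠ 0 → v ∈ E u
  inj : ∀ u v w, f u v ≠ 0 → f u v = f u w → v = w
  zone : ∀ u v, f u v ≠ 0 → f u v = s ∨ v ∈ zn (f u v) u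

/-- The colour `γ` is available and unused at `u`. -/
def Free (s : ℕ) (zn : ℕ → ℕ → Finset ℕ) (f : Col) (u γ : ℕ) : Prop :=
  (γ = s ∨ u ∈ zn γ u) ∧ ∀ v, f u v ≠ γ

/-- Degree conditions, with one exceptional edge `y w`. -/
structure ZD (Γ : Finset ℕ) (zn : ℕ → ℕ → Finset ℕ) (E : ℕ → Finset ℕ) (y w : ℕ) : Prop where
  vert : ∀ v, (E v).card ≤ npal Γ zn v +
    ind (w ∈ E y ∧ (v = y ∨ (v = w ∧ npal Γ zn w = 0)))
  zone : ∀ γ u, u ∈ zn γ u → ecut E (zn γ u) ≤ nup Γ zn (zn γ u) u +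
    ind (w ∈ E y ∧ y ∈ zn γ u ∧ w ∉ zn γ u)

/-! ### Randomized local procedures -/

/-- A randomized procedure with failure probability `δ` and radius `r` on `n`-vertex graphs. -/
def Proc (k n : ℕ) (δ : ℝ) (r : ℕ) (Pre Post : (ℕ → Finset ℕ) → RS → Prop) : Prop :=
  ∃ (Ξ : Type) (_ : Fintype Ξ) (_ : Inhabited Ξ) (B : ℕ)
    (F : Finset ℕ → (ℕ → Finset ℕ) → RS → (ℕ → Ξ) → RS)
    (Gd : Finset ℕ → (ℕ → Finset ℕ) → RS → (ℕ → Ξ) → Prop), Fintype.card Ξ = 2 ^ B ∧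
    (∀ S N x W, GV k S N → Pre N x → Gd S N x W → Post N (F S N x W)) ∧
    (∀ (id : Fin n → ℕ) N x, Function.Injective id → GV k (Finset.univ.image id) N → Pre N x →
      ((Finset.univ.filter fun ω : Fin n → Ξ =>
        ¬ Gd (Finset.univ.image id) N x (extV id ω)).card : ℝ) ≤
        δ * Fintype.card (Fin n → Ξ)) ∧
    ∀ S N x W S' N' x' W' v, GV k S N → GV k S' N' → Pre N x → Pre N' x' → Gd S N x W →
      Gd S' N' x' W' →
      (∀ u ∈ ball N v r, N u = N' u ∧ u ∈ S ∧ u ∈ S' ∧ x.row u = x'.row u ∧ W u = W' u) →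
      (F S N x W).row v = (F S' N' x' W').row v

/-- The matching process as a black box. -/
def MProc (k d L σ ρ n : ℕ) (δ : ℝ) (r : ℕ) : Prop :=
  ∃ (Ξ : Type) (_ : Fintype Ξ) (_ : Inhabited Ξ) (B : ℕ) (F : Inst → (ℕ → Ξ) → St)
    (Gd : Inst → (ℕ → Ξ) → Prop), Fintype.card Ξ = 2 ^ B ∧
    (∀ Q W, Q.Valid k d L σ → Gd Q W → Spec Q d ρ (F Q W)) ∧
    (∀ (id : Fin n → ℕ) Q, Function.Injective id → Q.Valid k d L σ →
      Q.S = Finset.univ.image id →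
      ((Finset.univ.filter fun ω : Fin n → Ξ => ¬ Gd Q (extV id ω)).card : ℝ) ≤
        δ * Fintype.card (Fin n → Ξ)) ∧
    ∀ Q W Q' W' v, Q.Valid k d L σ → Q'.Valid k d L σ → Gd Q W → Gd Q' W' →
      (∀ u ∈ ball Q.N v r, SA Q Q' u ∧ u ∈ Q.S ∧ u ∈ Q'.S ∧ W u = W' u) →
      (F Q W).row v = (F Q' W').row v

end Pool.Agent.Lib.MP_459a07_lc.V
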