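import Pool.Agent.Lib.MP_459a07_lc.VMini
import Pool.Agent.Lib.MP_459a07_lc.VProbB
import Pool.Agent.Lib.MP_459a07_lc.WDefs

set_option autoImplicit false

namespace Pool.Agent.Lib.MP_459a07_lc.V

open Classical

/-- All conditions on the parameters. -/
structure PM (k d L σ ρ D : ℕ) (p : Par) : Prop where
  pc : PC k d L σ p
  hE1 : 2 * (k + 1) ^ (ρ + 3) + ρ + 3 ≤ p.ρ1
  hE2 : 2 * (2 * (k + 1) ^ (ρ + 3)) + ρ + 3 ≤ σ
  hE3 : 2 * (k + 1) ^ (ρ + 3) ≤ L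
  hC2 : 4 * (8 * (k + 1) ^ (2 * ρ + 4)) + 2 ≤ p.ρ1
  hD1 : 512 * (k + 1) ^ (2 * p.ρ1) ≤ D
  hD2 : 4 * (8 * (k + 1) ^ (2 * p.ρ1 + 4)) ≤ D
  hK : 4 * D ≤ p.K
  hρ : 2 * D ≤ p.ρ'

def GoodM {a l : ℕ} (Q : Inst) (p : Par) (d T m0 m1 D : ℕ) (w : ℕ → ℕ → Fin a × Fin l) : Prop :=
  H1 Q.S T w ∧ H2 Q.S Q.N T m1 (2 * p.Rl) w ∧ Thin Q.S Q.N m0 D ((sys1 Q p).run w T).rd ∧
    H4 Q.S Q.N p.l T m0 D ((sys1 Q p).run w) (hol Q d false) (good Q p)

noncomputable def outM (Q : Inst) (p : Par) (d ρ : ℕ) (s : St) : St :=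
  fin2 Q d true ρ (fin2 Q d false p.ρ1 s)

section

variable {k d L σ ρ D a l T m0 m1 : ℕ} {p : Par} {Q Q' : Inst}

theorem thm_inv (hV : Q.Valid k d L σ) (hP : PC k d L σ p) (w : ℕ → ℕ → Fin a × Fin l) (t : ℕ) :
    Inv Q p ((sys1 Q p).run w t) :=
  run_inv (sys1 Q p) (Inv Q p) (fun _ _ _ h => ev1_inv hV hP h) (inv_st0 Q p) w t

theorem thm_spec (hV : Q.Valid k d L σ) (hP : PM k d L σ ρ D p) {s : St} (hI : Inv Q p s) :
    Spec Q d ρ (outM Q p d ρ s) := by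
  obtain ⟨h1, h2⟩ := fin2_total hV (clean1 hV hP.pc) hI
  have h3 := inv2_of (ρ2 := ρ) (E := 2 * (k + 1) ^ (ρ + 3)) hV hP.pc (by have := hP.hE1; omega) h1 h2
  obtain ⟨h4, h5⟩ := fin2_total hV (clean2 hV rfl hP.hE1 hP.hE2 hP.hE3) h3
  exact spec_of h4 h5

theorem thm_thin (hV : Q.Valid k d L σ) (hP : PM k d L σ ρ D p) (hm : D + 1 ≤ m0)
    {w : ℕ → ℕ → Fin a × Fin l} (hG : GoodM Q p d T m0 m1 D w) :
    Thin Q.S Q.N m0 (8 * (k + 1) ^ (2 * p.ρ1 + 4)) (bad0 Q d false ((sys1 Q p).run w T)) :=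
  thin_of hV hP.pc _ (thm_inv hV hP.pc w)
    (fun _ ht v h => run_mono (sys1 Q p) (fun s => s.rd v) (fun _ _ _ h => ev1_rd_mono h) w ht h)
    hP.hD1 hP.hD2 hP.hK hP.hρ hm hG.2.2.1 hG.2.2.2

theorem thm_local (hV : Q.Valid k d L σ) (hV' : Q'.Valid k d L σ) (hP : PM k d L σ ρ D p)
    (hm : D + 1 ≤ m0) {w w' : ℕ → ℕ → Fin a × Fin l} (hG : GoodM Q p d T m0 m1 D w)
    (hG' : GoodM Q' p d T m0 m1 D w') {v : ℕ}
    (hag : ∀ u ∈ ball Q.N v (2 * p.ρ1 + 2 * m0 + 2 * (p.Rl + 1) * (m1 + 1)),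
      SA Q Q' u ∧ u ∈ Q.S ∧ u ∈ Q'.S ∧ ∀ t < T, w t u = w' t u) :
    (outM Q p d ρ ((sys1 Q p).run w T)).row v = (outM Q' p d ρ ((sys1 Q' p).run w' T)).row v := by
  have h1 := run_local (sys1 Q p) (sys1 Q' p) hV.sym hV'.sym St.row (Inv Q p) (Inv Q' p)
    (SA Q Q') p.Rl (fun _ _ _ h => ev1_inv hV hP.pc h) (fun _ _ _ h => ev1_inv hV' hP.pc h)
    (inv_st0 Q p) (inv_st0 Q' p) (fun _ h => h.1) (fun _ _ _ _ h => ev1_off h)
    (fun _ _ _ _ h => ev1_off h)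
    (fun _ _ _ _ _ i1 i2 h hv => ev1_local hV.sym hV'.sym i1.mat i2.mat
      (fun u w h => (hV.mN u w).1 h) (fun u w h => (hV'.mN u w).1 h) h hv)
    (r := 2 * p.ρ1 + 2 * m0) hG.1 hG'.1 hG.2.1
    (fun u hu => ⟨(hag u hu).1, (hag u hu).2.1, (hag u hu).2.2.1, rfl, (hag u hu).2.2.2⟩) le_rfl
  have hD : 1 ≤ D := le_trans (Nat.one_le_iff_ne_zero.mpr (by positivity)) hP.hD1
  have i1 := thm_inv hV hP.pc w T
  have i2 := thm_inv hV' hP.pc w' T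
  obtain ⟨a1, a2⟩ := fin2_total hV (clean1 hV hP.pc) i1
  obtain ⟨b1, b2⟩ := fin2_total hV' (clean1 hV' hP.pc) i2
  have hρ : ρ ≤ p.ρ1 := by have := hP.hE1; omega
  refine fin2_local hV hV' (clean2 hV rfl hP.hE1 hP.hE2 hP.hE3)
    (clean2 hV' rfl hP.hE1 hP.hE2 hP.hE3) (inv2_of hV hP.pc hρ a1 a2) (inv2_of hV' hP.pc hρ b1 b2)
    (thin2 hV hP.pc hP.hC2 a1 a2) (thin2 hV' hP.pc hP.hC2 b1 b2) (by have := hP.hC2; omega)
    fun u hu => ?_
  have hu' := hag u (ball_mono (by omega) hu)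
  refine ⟨hu'.1, hu'.2.1, hu'.2.2.1, fin2_local hV hV' (clean1 hV hP.pc) (clean1 hV' hP.pc) i1 i2
    (thm_thin hV hP hm hG) (thm_thin hV' hP hm hG') (by omega) fun y hy => ?_⟩
  have hy1 := ball_trans hu hy
  have hy' := hag y (ball_mono (by omega) hy1)
  exact ⟨hy'.1, hy'.2.1, hy'.2.2.1, h1 y hy1⟩

theorem thm_exp {η x : ℝ} (hη : 0 < η) (hx : 1 ≤ x) :
    Real.exp (-(5 / η)) ^ ⌈η * Real.log x⌉₊ ≤ 1 / x ^ 5 := by
  rw [← Real.exp_nat_mul]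
  have h1 : η * Real.log x ≤ ⌈η * Real.log x⌉₊ := Nat.le_ceil _
  have h2 : (1 : ℝ) / x ^ 5 = Real.exp (-(5 * Real.log x)) := by
    rw [Real.exp_neg, show 5 * Real.log x = ((5 : ℕ) : ℝ) * Real.log x by norm_num,
      Real.exp_nat_mul, Real.exp_log (by linarith), one_div]
  rw [h2]
  apply Real.exp_le_exp.mpr
  have h3 : 5 * Real.log x = η * Real.log x * (5 / η) := by field_simp
  rw [h3, mul_neg]
  have : 0 ≤ 5 / η := by positivity
  nlinarith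

theorem thm_four {Ω : Type} [Fintype Ω] (P A B C D : Ω → Prop) [DecidablePred P]
    [DecidablePred A] [DecidablePred B] [DecidablePred C] [DecidablePred D]
    (h : ∀ ω, ¬ A ω → ¬ B ω → ¬ C ω → ¬ D ω → ¬ P ω) :
    ((Finset.univ.filter P).card : ℝ) ≤ (Finset.univ.filter A).card + (Finset.univ.filter B).card +
      (Finset.univ.filter C).card + (Finset.univ.filter D).card := by
  norm_cast
  refine le_trans (Finset.card_le_card fun ω hω => ?_) ((Finset.card_union_le _ _).trans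
    (Nat.add_le_add_right ((Finset.card_union_le _ _).trans
      (Nat.add_le_add_right (Finset.card_union_le _ _) _)) _))
  simp only [Finset.mem_union, Finset.mem_filter, Finset.mem_univ, true_and] at hω ⊢
  by_contra hcon
  simp only [not_or] at hcon
  exact h ω hcon.1.1.1 hcon.1.1.2 hcon.1.2 hcon.2 hω

theorem thm_prob {ι : Type} [Fintype ι] {n : ℕ} [NeZero a] [NeZero p.l] {id : ι → ℕ}
    (hι : Fintype.card ι = n) (hV : Q.Valid k d L σ)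
    (hP : PC k d L σ p) (hid : Function.Injective id) (hS : Q.S = Finset.univ.image id)
    (hn : 5 ≤ n) (ha : 2 * n ≤ a) (hm1 : 1 ≤ m1) (hD : 1 ≤ D) (r W Y : ℝ) (hW : 1 ≤ W) (hY : 1 ≤ Y)
    (hr1 : r ≤ 1) (hr : r ^ m0 ≤ 1 / (n : ℝ) ^ 5)
    (h1 : T * (n : ℝ) ^ 2 / (a : ℝ) ^ 2 ≤ 1 / (4 * n ^ 2))
    (h2 : n * (((k : ℝ) + 1) ^ (2 * p.Rl) / Y) ^ m1 * Real.exp (T * Y / a) ≤ 1 / (4 * n ^ 2))
    (h3 : ((k : ℝ) + 1) ^ 2 *
      (Real.exp ((p.l / p.K + ((k : ℝ) + 1) ^ p.R) * W ^ D * T / (a * p.l)) / W) ≤ r)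
    (h4 : ((k : ℝ) + 1) ^ 2 * (2 * Real.exp (-(T / (64 * D * a)))) ≤ r) :
    ((Finset.univ.filter fun ω : Fin T → ι → Fin a × Fin p.l =>
      ¬ GoodM Q p d T m0 m1 D (extW T id ω)).card : ℝ) ≤
      1 / (n : ℝ) ^ 2 * Fintype.card (Fin T → ι → Fin a × Fin p.l) := by
  have hc : Q.S.card = n := by
    rw [hS, Finset.card_image_of_injective _ hid, Finset.card_univ, hι]
  have hn' : (5 : ℝ) ≤ n := by exact_mod_cast hn
  have p1 := prob_H1 (a := a) (l := p.l) hid hS T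
  have p2 := prob_H2 (a := a) (l := p.l) hV.card hid hS T m1 (2 * p.Rl) hm1 Y hY
  have p3 := conn_union' (S := Q.S) hV.sym hV.card m0 _ _ r (by positivity) h3 hr1 fun X _ =>
    prob_rd (a := a) (l := p.l) (sys1 Q p) hid hS (Inv Q p) (fun _ _ _ h => ev1_inv hV hP h)
      (inv_st0 Q p) (fun s => s.rd) (fun _ h => h) (act Q p) (tg Q p)
      (fun _ _ _ _ h => ev1_rd_new h) _ (fun _ u h B hB => act_count hV hP h u B hB) T D X W hW
  have p4 := conn_union' (S := Q.S) hV.sym hV.card m0 _ _ r (by positivity) h4 hr1 fun X hX =>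
    prob_hl (a := a) (l := p.l) (sys1 Q p) hid hS (hι ▸ ha) (Inv Q p)
      (fun _ _ _ h => ev1_inv hV hP h) (inv_st0 Q p) (hol Q d false) (good Q p)
      (fun _ _ _ _ h => ev1_hol hP h) (fun _ _ _ h1 h2 h3 => ev1_good hV hP h1 h2 h3) T D hD X hX
  rw [hc] at p3 p4
  rw [hι] at p1 p2
  have h5 : (n : ℝ) * (n + 1) * r ^ m0 ≤ 1 / (4 * n ^ 2) := by
    refine le_trans (mul_le_mul_of_nonneg_left hr (by positivity)) ?_
    rw [mul_one_div, div_le_div_iff₀ (by positivity) (by positivity)]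
    have h6 : 4 * ((n : ℝ) + 1) ≤ n ^ 2 := by nlinarith
    calc (n : ℝ) * (n + 1) * (4 * n ^ 2) = (n : ℝ) ^ 3 * (4 * (n + 1)) := by ring
      _ ≤ (n : ℝ) ^ 3 * (n : ℝ) ^ 2 := by gcongr
      _ = 1 * (n : ℝ) ^ 5 := by ring
  generalize hM : ((Fintype.card (Fin T → ι → Fin a × Fin p.l) : ℕ) : ℝ) = M at p1 p2 p3 p4 ⊢
  have hM0 : 0 ≤ M := by rw [← hM]; positivity
  have q1 := p1.trans (mul_le_mul_of_nonneg_right h1 hM0)
  have q2 := p2.trans (mul_le_mul_of_nonneg_right h2 hM0)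
  have q3 := p3.trans (mul_le_mul_of_nonneg_right h5 hM0)
  have q4 := p4.trans (mul_le_mul_of_nonneg_right h5 hM0)
  have e : 1 / (n : ℝ) ^ 2 * M = 1 / (4 * n ^ 2) * M + 1 / (4 * n ^ 2) * M +
      1 / (4 * n ^ 2) * M + 1 / (4 * n ^ 2) * M := by field_simp; ring
  rw [e]
  refine le_trans (thm_four _ _ _ _ _ fun ω c1 c2 c3 c4 => ?_)
    (add_le_add (add_le_add (add_le_add q1 q2) q3) q4)
  refine not_not.mpr ⟨not_not.mp c1, not_not.mp c2,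
    fun X b x1 x2 x3 => lt_of_not_ge fun h => c3 ⟨X, b, x1, x2, x3, h⟩, fun X b x1 x2 x3 x4 => ?_⟩
  by_contra hh
  exact c4 ⟨X, b, x1, x2, x3, x4, fun t ht => lt_of_not_ge fun h => hh ⟨t, ht, h⟩⟩

/-- The slots read from the private bits. -/
def slotsM [NeZero a] [NeZero l] (W : ℕ → Fin T → Fin a × Fin l) : ℕ → ℕ → Fin a × Fin l :=
  fun t v => extT T default (W v) t

theorem slotsM_eq [NeZero a] [NeZero l] {n : ℕ} {id : Fin n → ℕ} (hid : Function.Injective id)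
    (ω : Fin n → Fin T → Fin a × Fin l) :
    slotsM (extV id ω) = extW T id fun t v => ω v t := by
  funext t v
  unfold slotsM extW extV
  by_cases h : ∃ u, id u = v
  · obtain ⟨u, rfl⟩ := h
    rw [hid.extend_apply, hid.extend_apply]
    unfold extT
    split_ifs <;> rfl
  · rw [Function.extend_apply' _ _ _ h, Function.extend_apply' _ _ _ h]
    unfold extT
    split_ifs <;> rfl

theorem thm_tr {Ω Ω' : Type} [Fintype Ω] {i : Fintype Ω'} (E : Ω ≃ Ω') (P : Ω → Prop)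
    (R : Ω' → Prop) [DecidablePred P] {d : DecidablePred R} (h : ∀ ω, P ω ↔ R (E ω)) {δ : ℝ}
    (hp : ((Finset.univ.filter R).card : ℝ) ≤ δ * Fintype.card Ω') :
    ((Finset.univ.filter P).card : ℝ) ≤ δ * Fintype.card Ω := by
  rw [Fintype.card_congr E, Finset.card_bijective (t := Finset.univ.filter R) E E.bijective
    fun ω => by simp only [Finset.mem_filter, Finset.mem_univ, true_and, h]]
  exact hp

theorem thm_proc {n a' l' : ℕ} (hP : PM k d L σ ρ D p) (hl : p.l = 2 ^ l') [NeZero p.l]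
    (hm : D + 1 ≤ m0) {δ : ℝ}
    (hpr : ∀ (ι : Type) [Fintype ι] (id : ι → ℕ) (Q : Inst), Fintype.card ι = n →
      Function.Injective id → Q.Valid k d L σ → Q.S = Finset.univ.image id →
      ((Finset.univ.filter fun ω : Fin T → ι → Fin (2 ^ a') × Fin p.l =>
        ¬ GoodM Q p d T m0 m1 D (extW T id ω)).card : ℝ) ≤
        δ * Fintype.card (Fin T → ι → Fin (2 ^ a') × Fin p.l)) :
    MProc k d L σ ρ n δ (2 * p.ρ1 + 2 * m0 + 2 * (p.Rl + 1) * (m1 + 1)) := by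
  refine ⟨Fin T → Fin (2 ^ a') × Fin p.l, inferInstance, inferInstance, (a' + l') * T,
    fun Q W => outM Q p d ρ ((sys1 Q p).run (slotsM W) T),
    fun Q W => GoodM Q p d T m0 m1 D (slotsM W), ?_,
    fun Q W hV _ => thm_spec hV hP (thm_inv hV hP.pc _ _), fun id Q hid hV hS => ?_,
    fun Q W Q' W' v hV hV' hG hG' hag => thm_local hV hV' hP hm hG hG' fun u hu => ?_⟩
  · simp [hl, pow_mul, pow_add]
  · refine thm_tr (Equiv.piComm _) _ _ (fun ω => ?_) (hpr (Fin n) id Q (Fintype.card_fin n) hid hV hS)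
    dsimp only
    rw [slotsM_eq hid]
    rfl
  · obtain ⟨b1, b2, b3, b4⟩ := hag u hu
    exact ⟨b1, b2, b3, fun t _ => by unfold slotsM; rw [b4]⟩

end

/-- The matching process. -/
theorem thM (k ρ : ℕ) : ∃ L σ : ℕ, ∀ (d : ℕ) (ε : ℝ), 0 < ε → ∀ᶠ n : ℕ in Filter.atTop,
    ∃ r : ℕ, (r : ℝ) ≤ ε * Real.log n ∧ MProc k d L σ ρ n (1 / (n : ℝ) ^ 2) r := by
  obtain ⟨ρ1, e1, e2⟩ : ∃ ρ1, 2 * (k + 1) ^ (ρ + 3) + ρ + 3 ≤ ρ1 ∧
      4 * (8 * (k + 1) ^ (2 * ρ + 4)) + 2 ≤ ρ1 := ⟨max _ _, le_max_left _ _, le_max_right _ _⟩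
  obtain ⟨D, e3, e4⟩ : ∃ D, 512 * (k + 1) ^ (2 * ρ1) ≤ D ∧
      4 * (8 * (k + 1) ^ (2 * ρ1 + 4)) ≤ D := ⟨max _ _, le_max_left _ _, le_max_right _ _⟩
  obtain ⟨ρ', e5, e6⟩ : ∃ ρ', 2 * D ≤ ρ' ∧ ρ1 ≤ ρ' := ⟨max _ _, le_max_left _ _, le_max_right _ _⟩
  obtain ⟨L, e7, e8⟩ : ∃ L, (k + 1) ^ (ρ' + 1) + 1 ≤ L ∧ 2 * (k + 1) ^ (ρ + 3) ≤ L :=
    ⟨max _ _, le_max_left _ _, le_max_right _ _⟩
  obtain ⟨σ, e9, e10⟩ : ∃ σ, L + ρ' ≤ σ ∧ 2 * (2 * (k + 1) ^ (ρ + 3)) + ρ + 3 ≤ σ :=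
    ⟨max _ _, le_max_left _ _, le_max_right _ _⟩
  refine ⟨L, σ, fun d ε hε => ?_⟩
  have hD : 1 ≤ D := le_trans (Nat.one_le_iff_ne_zero.mpr (by positivity)) e3
  set η : ℝ := ε / 8 with hη
  have hη0 : 0 < η := by positivity
  set r : ℝ := Real.exp (-(5 / η)) with hr
  have hr0 : 0 < r := Real.exp_pos _
  have hr1 : r ≤ 1 := Real.exp_le_one_iff.mpr (neg_nonpos.mpr (by positivity))
  have hk1 : (1 : ℝ) ≤ (k : ℝ) + 1 := le_add_of_nonneg_left (by positivity)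
  have hD0 : (0 : ℝ) < D := by exact_mod_cast hD
  obtain ⟨τ, hτ⟩ : ∃ τ : ℕ, ((k : ℝ) + 1) ^ 2 * (2 * Real.exp (-(τ / (64 * D)))) ≤ r := by
    obtain ⟨τ, hτ⟩ := exists_nat_ge (64 * D * (((k : ℝ) + 1) ^ 2 * 2 / r))
    refine ⟨τ, ?_⟩
    have h1 : ((k : ℝ) + 1) ^ 2 * 2 / r ≤ τ / (64 * D) := by
      rw [le_div_iff₀ (by positivity)]; linarith
    have h2 := Real.add_one_le_exp (τ / (64 * D) : ℝ)
    rw [Real.exp_neg, ← mul_assoc, ← div_eq_mul_inv, div_le_iff₀ (Real.exp_pos _), mul_comm r,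
      ← div_le_iff₀ hr0]
    linarith
  set W : ℝ := Real.exp 1 * ((k : ℝ) + 1) ^ 2 / r with hW
  have hW1 : 1 ≤ W := by
    rw [hW, le_div_iff₀ hr0]
    have h1 : (1 : ℝ) ≤ Real.exp 1 := Real.one_le_exp (by norm_num)
    have h2 : (1 : ℝ) ≤ ((k : ℝ) + 1) ^ 2 := one_le_pow₀ hk1
    nlinarith
  obtain ⟨K, hK1, hK2⟩ : ∃ K : ℕ, 4 * D ≤ K ∧ 2 * W ^ D * τ ≤ K := by
    obtain ⟨K, hK⟩ := exists_nat_ge (2 * W ^ D * τ)
    exact ⟨max (4 * D) K, le_max_left _ _, hK.trans (by exact_mod_cast le_max_right _ _)⟩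
  obtain ⟨l0, hl0⟩ := pow_unbounded_of_one_lt
    ((16 + K) * (k + 1) ^ (K * (K + 2) + K + 2)) (one_lt_two (α := ℕ))
  have hl : (16 + K) * (k + 1) ^ (K * (K + 2) + K + 2) ≤ 2 ^ (l0 + 3) :=
    hl0.le.trans (Nat.pow_le_pow_right (by norm_num) (by omega))
  obtain ⟨p, hp⟩ : ∃ p : Par,
      p = ⟨d, ρ1, ρ', K, 2 * (k + 1) ^ (K * (K + 2) + K + 2), 2 ^ (l0 + 3)⟩ := ⟨_, rfl⟩
  have pl : p.l = 2 ^ (l0 + 3) := by rw [hp]
  have pK : p.K = K := by rw [hp]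
  have pρ : p.ρ1 = ρ1 := by rw [hp]
  have pR : p.R = K * (K + 2) + K + 2 := by rw [hp]; rfl
  have hP : PM k d L σ ρ D p := by
    subst hp
    exact ⟨⟨rfl, e6, e7, e9, by dsimp only; omega, le_rfl, ⟨2 ^ l0, by dsimp only; ring⟩,
      le_trans (Nat.mul_le_mul_right _ (by omega)) hl⟩, e1, e10, e8, e2, e3, e4, hK1, e5⟩
  have : NeZero p.l := ⟨by rw [pl]; positivity⟩
  set η' : ℝ := ε / (8 * (p.Rl + 1)) with hη'
  have hη'0 : 0 < η' := by positivity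
  set Y : ℝ := ((k : ℝ) + 1) ^ (2 * p.Rl) * Real.exp (5 / η') with hY
  have hY1 : 1 ≤ Y := one_le_mul_of_one_le_of_one_le
    (one_le_pow₀ hk1) (Real.one_le_exp (by positivity))
  have hlog : Filter.Tendsto (fun n : ℕ => Real.log n) Filter.atTop Filter.atTop :=
    Real.tendsto_log_atTop.comp tendsto_natCast_atTop_atTop
  filter_upwards [Filter.eventually_ge_atTop 5,
    tendsto_natCast_atTop_atTop.eventually_ge_atTop (Real.exp (τ * Y)),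
    hlog.eventually_ge_atTop ((D + 1) / η),
    hlog.eventually_ge_atTop ((2 * ρ1 + 2 + 4 * (p.Rl + 1)) / (ε / 2))] with n n5 nY n2 nc
  have hn' : (5 : ℝ) ≤ n := by exact_mod_cast n5
  have hlg : 0 < Real.log n := Real.log_pos (by linarith)
  obtain ⟨a', ha'⟩ := pow_unbounded_of_one_lt (max (2 * n : ℝ) (4 * τ * n ^ 4))
    (one_lt_two (α := ℝ))
  have ha1 : 2 * n ≤ 2 ^ a' := by exact_mod_cast ((le_max_left _ _).trans ha'.le)
  have ha2 : 4 * τ * (n : ℝ) ^ 4 ≤ 2 ^ a' := (le_max_right _ _).trans ha'.le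
  refine ⟨_, ?_, thm_proc (a' := a') (T := τ * 2 ^ a') (m0 := ⌈η * Real.log n⌉₊)
    (m1 := ⌈η' * Real.log n⌉₊) hP pl ?_ fun ι _ id Q hι hid hV hS => ?_⟩
  · have c1 := (Nat.ceil_lt_add_one (show 0 ≤ η * Real.log n by positivity)).le
    have c2 := (Nat.ceil_lt_add_one (show 0 ≤ η' * Real.log n by positivity)).le
    have c3 : 2 * ((p.Rl : ℝ) + 1) * (η' * Real.log n) = ε / 4 * Real.log n := by
      rw [hη']; field_simp; ring
    have c4 := mul_le_mul_of_nonneg_left c2 (show (0 : ℝ) ≤ 2 * (p.Rl + 1) by positivity)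
    rw [div_le_iff₀ (by positivity)] at nc
    push_cast
    rw [hη] at c1
    rw [pρ]
    nlinarith
  · rw [div_le_iff₀ hη0] at n2
    have := Nat.le_ceil (η * Real.log n)
    exact_mod_cast (show ((D : ℝ) + 1) ≤ ⌈η * Real.log n⌉₊ by linarith)
  · refine thm_prob hι hV hP.pc hid hS n5 ha1 (Nat.ceil_pos.mpr (by positivity)) hD r W Y hW1 hY1 hr1
      (thm_exp hη0 (by linarith)) ?_ ?_ ?_ ?_
    · push_cast
      rw [div_le_div_iff₀ (by positivity) (by positivity)]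
      have : (0 : ℝ) < 2 ^ a' := by positivity
      nlinarith
    · have e1 : ((k : ℝ) + 1) ^ (2 * p.Rl) / Y = Real.exp (-(5 / η')) := by
        rw [hY, Real.exp_neg]; field_simp
      have e2 : ((τ * 2 ^ a' : ℕ) : ℝ) * Y / ((2 ^ a' : ℕ) : ℝ) = τ * Y := by
        push_cast; field_simp
      rw [e1, e2]
      calc _ ≤ n * (1 / (n : ℝ) ^ 5) * n := by
            gcongr
            exact thm_exp hη'0 (by linarith)
        _ ≤ 1 / (4 * n ^ 2) := by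
            rw [show (n : ℝ) * (1 / (n : ℝ) ^ 5) * n = 1 / (n * n ^ 2) by field_simp]
            apply one_div_le_one_div_of_le (by positivity)
            nlinarith
    · have hK0 : (0 : ℝ) < K := by exact_mod_cast (show 0 < K by omega)
      have hl' : (K : ℝ) * ((k : ℝ) + 1) ^ p.R ≤ p.l := by
        rw [pR, pl]
        exact_mod_cast le_trans (Nat.mul_le_mul_right _ (by omega)) hl
      have hl0 : (0 : ℝ) < p.l := by rw [pl]; positivity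
      have e1 : ((p.l : ℝ) / p.K + ((k : ℝ) + 1) ^ p.R) * W ^ D * ((τ * 2 ^ a' : ℕ) : ℝ) /
          (((2 ^ a' : ℕ) : ℝ) * p.l) ≤ 1 := by
        have c1 : ((k : ℝ) + 1) ^ p.R ≤ p.l / K := by rw [le_div_iff₀ hK0]; linarith
        have c2 : (0 : ℝ) ≤ W ^ D * τ := by positivity
        have c3 : (p.l : ℝ) / K * (2 * W ^ D * τ) ≤ p.l := by
          rw [div_mul_eq_mul_div, div_le_iff₀ hK0]
          exact mul_le_mul_of_nonneg_left hK2 hl0.le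
        push_cast
        rw [pK, div_le_one (by positivity)]
        have c4 : (0 : ℝ) < 2 ^ a' := by positivity
        have c5 : ((p.l : ℝ) / K + ((k : ℝ) + 1) ^ p.R) * (W ^ D * τ) ≤ p.l := by nlinarith
        nlinarith
      calc _ ≤ ((k : ℝ) + 1) ^ 2 * (Real.exp 1 / W) := by gcongr
        _ = r := by rw [hW]; field_simp
    · have e1 : ((τ * 2 ^ a' : ℕ) : ℝ) / (64 * (D : ℝ) * ((2 ^ a' : ℕ) : ℝ)) = τ / (64 * D) := by
        push_cast; field_simp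
      rw [e1]
      exact hτ

end Pool.Agent.Lib.MP_459a07_lc.V
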