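import Pool.Agent.Lib.MP_459a07_lc.VMat

set_option autoImplicit false

namespace Pool.Agent.Lib.MP_459a07_lc.V

open Classical

variable {N : ℕ → Finset ℕ} {m : ℕ → ℕ → ℕ} {μ : ℕ → ℕ} {O Gd : ℕ → Prop} {K d v u b b' i : ℕ}

theorem NO_sub (N : ℕ → Finset ℕ) (O : ℕ → Prop) (a : ℕ) : NO N O a ⊆ N a := by
  unfold NO
  split_ifs
  · exact Finset.filter_subset _ _
  · exact Finset.empty_subset _

theorem vwalk_mem_NO {a w : ℕ} : w ∈ NO N O a ↔ O a ∧ w ∈ N a ∧ O w := by
  unfold NO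
  split_ifs with h
  · simp [h]
  · simp [h]

theorem NO_sym (hs : Sym N) : Sym (NO N O) := by
  intro a w h
  obtain ⟨h1, h2, h3⟩ := vwalk_mem_NO.1 h
  exact vwalk_mem_NO.2 ⟨h3, hs _ _ h2, h1⟩

theorem ball_NO_sub {r : ℕ} : ball (NO N O) b r ⊆ ball N b r := by
  induction r with
  | zero => exact Finset.Subset.refl _
  | succ r ih =>
    intro w hw
    rcases mem_ball_succ.1 hw with h | ⟨a, ha, h⟩
    · exact mem_ball_succ.2 (Or.inl (ih h))
    · exact mem_ball_succ.2 (Or.inr ⟨a, ih ha, NO_sub N O a h⟩)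

theorem ball_NO_O {r : ℕ} (hb : O b) (hu : u ∈ ball (NO N O) b r) : O u := by
  induction r with
  | zero =>
    have h : u = b := by simpa [ball] using hu
    exact h ▸ hb
  | succ r ih =>
    rcases mem_ball_succ.1 hu with h | ⟨a, -, h⟩
    · exact ih h
    · exact (vwalk_mem_NO.1 h).2.2

/-- The target set is connected, lies in the component, and has at most `K` points, exactly `K` if
the component is large (`conn_ball`, `conn_sub`, `Conn.sub_ball`). -/
theorem Tg_spec (hK : 1 ≤ K) : Conn (NO N O) (Tg N O K b) b ∧ Tg N O K b ⊆ Cp N O K b ∧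
    (Tg N O K b).card ≤ K ∧ (¬ sml N O K b → (Tg N O K b).card = K) := by
  by_cases h : sml N O K b
  · have e : Tg N O K b = Cp N O K b := if_pos h
    rw [e]
    exact ⟨conn_ball _ _ _, Finset.Subset.refl _, le_of_lt h, fun h' => absurd h h'⟩
  · have e : Tg N O K b = epsilon fun T => Conn (NO N O) T b ∧ T.card = K := if_neg h
    obtain ⟨T, -, hT⟩ := conn_sub (conn_ball (NO N O) b K) hK (not_lt.1 h)
    have h1 := epsilon_spec (p := fun T => Conn (NO N O) T b ∧ T.card = K) ⟨T, hT⟩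
    rw [← e] at h1
    refine ⟨h1.1, h1.1.sub_ball.trans (ball_mono ?_), h1.2.le, fun _ => h1.2⟩
    rw [h1.2]
    omega

theorem vwalk_fac (h : sml N O K b) : 0 ≤ 1 - ((Cp N O K b).card : ℝ) / K := by
  have h1 : ((Cp N O K b).card : ℝ) < K := by exact_mod_cast h
  have h2 : (0 : ℝ) < K := lt_of_le_of_lt (Nat.cast_nonneg _) h1
  rw [sub_nonneg, div_le_one h2]
  exact h1.le

theorem qq_nonneg : 0 ≤ qq N m μ O K b b' := by
  unfold qq
  split_ifs with h
  · have := vwalk_fac h.2.1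
    positivity
  · exact le_rfl

theorem qq_ne_zero (hm : ∀ u w, m u w ≠ 0 → w ∈ N u) (h : qq N m μ O K b b' ≠ 0) :
    src μ O b ∧ sml N O K b ∧ src μ O b' ∧ μ b' ≠ b' ∧ ∃ u ∈ Cp N O K b, μ b' ∈ N u := by
  unfold qq at h
  split_ifs at h with h1
  · have h2 : ∑ u ∈ Cp N O K b, (m u (μ b') : ℝ) ≠ 0 := fun h2 => h (by rw [h2]; simp)
    obtain ⟨u, hu, h3⟩ := Finset.exists_ne_zero_of_sum_ne_zero h2
    exact ⟨h1.1, h1.2.1, h1.2.2.1, h1.2.2.2, u, hu, hm _ _ (by exact_mod_cast h3)⟩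
  · exact absurd rfl h

theorem wk_nonneg : 0 ≤ wk N m μ O K v i b := by
  induction i generalizing b with
  | zero =>
    show (0 : ℝ) ≤ if b = v then 1 else 0
    split_ifs <;> norm_num
  | succ i ih => exact Finset.sum_nonneg fun c _ => mul_nonneg ih qq_nonneg

theorem wk_succ_ne_zero (h : wk N m μ O K v (i + 1) b' ≠ 0) :
    ∃ b, wk N m μ O K v i b ≠ 0 ∧ qq N m μ O K b b' ≠ 0 := by
  obtain ⟨c, -, hc⟩ := Finset.exists_ne_zero_of_sum_ne_zero h
  exact ⟨c, mul_ne_zero_iff.1 hc⟩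

theorem vwalk_two (hμ : Mat N μ) {w : ℕ} (hu : u ∈ Cp N O K b) (hw : w ∈ N u) (h : μ w ≠ w) :
    μ w ∈ ball N b (K + 2) :=
  ball_step (ball_step (ball_NO_sub hu) hw) (hμ.2 w h)

theorem wk_supp (hN : Nice N m μ O K d Gd) (hv : Start N μ O K Gd v)
    (h : wk N m μ O K v i b ≠ 0) : b ∈ ball N v (i * (K + 2)) ∧ src μ O b := by
  induction i generalizing b with
  | zero =>
    have h1 : b = v := by
      by_contra h1
      exact h (if_neg h1)
    rw [h1]
    exact ⟨self_mem_ball, hv.2.1, Or.inl hv.1⟩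
  | succ i ih =>
    obtain ⟨c, h1, h2⟩ := wk_succ_ne_zero h
    obtain ⟨-, -, h3, h4, u, hu, h5⟩ := qq_ne_zero hN.mN h2
    have h6 := vwalk_two hN.mat hu h5 (by rw [hN.mat.1]; exact h4.symm)
    rw [hN.mat.1] at h6
    refine ⟨?_, h3⟩
    rw [Nat.succ_mul]
    exact ball_trans (ih h1).1 h6

/-- Row sums: for a good small source the map `a ↦ μ a` is a bijection from the outer neighbours
of the component to the possible successors, and the weights add up to the cut. -/
theorem qq_row (hN : Nice N m μ O K d Gd) (hb : Gd b) (F : Finset ℕ)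
    (hF : ball N b (K + 2) ⊆ F) :
    ∑ b' ∈ F, qq N m μ O K b b' = 1 - ((Tg N O K b).card : ℝ) / K := by
  have hK : (0 : ℝ) < K := by exact_mod_cast hN.kpos
  have hs := hN.gsrc b hb
  by_cases h : sml N O K b
  · have e : Tg N O K b = Cp N O K b := if_pos h
    have hc : (0 : ℝ) < cutm N m (Cp N O K b) := by
      exact_mod_cast lt_of_lt_of_le hN.dpos (hN.gcut b hb h)
    have key : ∀ u ∈ Cp N O K b, ∑ b' ∈ F, (if src μ O b' ∧ μ b' ≠ b' then (m u (μ b') : ℝ) else 0)
        = ∑ w ∈ N u \ Cp N O K b, (m u w : ℝ) := by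
      intro u hu
      have e1 : ∀ b' ∈ F, (if src μ O b' ∧ μ b' ≠ b' then (m u (μ b') : ℝ) else 0) =
          if (src μ O b' ∧ μ b' ≠ b') ∧ μ b' ∈ N u then (m u (μ b') : ℝ) else 0 := by
        intro b' _
        by_cases h1 : μ b' ∈ N u
        · simp only [h1, and_true]
        · have h2 : m u (μ b') = 0 := by
            by_contra h2
            exact h1 (hN.mN _ _ h2)
          simp [h2]
      rw [Finset.sum_congr rfl e1, ← Finset.sum_filter]
      refine Finset.sum_nbij' μ μ ?_ ?_ (fun a _ => hN.mat.1 a) (fun a _ => hN.mat.1 a)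
        fun a _ => rfl
      · intro a ha
        obtain ⟨-, ⟨h1, h2⟩, h3⟩ := Finset.mem_filter.1 ha
        exact Finset.mem_sdiff.2 ⟨h3, fun h4 => h1.2.resolve_left h2 (ball_NO_O hs.1 h4)⟩
      · intro w hw
        obtain ⟨h1, h2⟩ := Finset.mem_sdiff.1 hw
        obtain ⟨h3, h4, h5⟩ := hN.gout b hb h u hu w h1 h2
        refine Finset.mem_filter.2 ⟨hF (vwalk_two hN.mat hu h1 h4), ⟨⟨h5, Or.inr ?_⟩, ?_⟩, ?_⟩
        · rwa [hN.mat.1]
        · rw [hN.mat.1]
          exact h4.symm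
        · rwa [hN.mat.1]
    have e2 : ∀ b' ∈ F, qq N m μ O K b b' = (1 - ((Cp N O K b).card : ℝ) / K) *
        (∑ u ∈ Cp N O K b, if src μ O b' ∧ μ b' ≠ b' then (m u (μ b') : ℝ) else 0) /
          cutm N m (Cp N O K b) := by
      intro b' _
      unfold qq
      by_cases h1 : src μ O b' ∧ μ b' ≠ b'
      · rw [if_pos ⟨hs, h, h1⟩]
        simp only [if_pos h1]
      · rw [if_neg fun h2 => h1 h2.2.2]
        simp only [if_neg h1, Finset.sum_const_zero, mul_zero, zero_div]
    have e3 : ∑ u ∈ Cp N O K b, ∑ w ∈ N u \ Cp N O K b, (m u w : ℝ) =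
        cutm N m (Cp N O K b) := by
      unfold cutm
      push_cast
      rfl
    rw [Finset.sum_congr rfl e2, ← Finset.sum_div, ← Finset.mul_sum, Finset.sum_comm,
      Finset.sum_congr rfl key, e3, mul_div_assoc, div_self hc.ne', mul_one, e]
  · rw [(Tg_spec hN.kpos).2.2.2 h, div_self hK.ne', sub_self]
    exact Finset.sum_eq_zero fun b' _ => if_neg fun h1 => h h1.2.1

/-- Column sums: the components of good sources are disjoint, their cuts are at least `d`, and
`μ b'` has degree at most `d`. -/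
theorem qq_col (hN : Nice N m μ O K d Gd) (F : Finset ℕ) (hF : ∀ b ∈ F, Gd b) :
    ∑ b ∈ F, qq N m μ O K b b' ≤ 1 := by
  have hd : (0 : ℝ) < d := by exact_mod_cast hN.dpos
  have h1 : ∀ b ∈ F, qq N m μ O K b b' ≤ (∑ u ∈ Cp N O K b, (m u (μ b') : ℝ)) / d := by
    intro b hb
    unfold qq
    split_ifs with h
    · have h2 : (d : ℝ) ≤ cutm N m (Cp N O K b) := by exact_mod_cast hN.gcut b (hF b hb) h.2.1
      have h3 : (0 : ℝ) ≤ ((Cp N O K b).card : ℝ) / K := by positivity
      refine div_le_div₀ (by positivity) ?_ hd h2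
      exact mul_le_of_le_one_left (by positivity) (by linarith)
    · positivity
  refine (Finset.sum_le_sum h1).trans ?_
  rw [← Finset.sum_div, div_le_one hd, ← Finset.sum_biUnion]
  · have h2 : ∑ u ∈ F.biUnion (Cp N O K), m u (μ b') ≤ d := by
      refine le_trans ?_ (hN.deg (μ b'))
      rw [Finset.sum_congr rfl fun u _ => hN.msym u (μ b')]
      exact Finset.sum_le_sum_of_ne_zero fun u _ h => hN.mN _ _ h
    exact_mod_cast h2
  · intro x hx y hy hxy
    exact Finset.disjoint_left.2 fun u h2 h3 => hxy (hN.guniq x y u (hF x hx) (hF y hy) h2 h3)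

theorem xm_nonneg : 0 ≤ xm N m μ O K v u := by
  refine div_nonneg (Finset.sum_nonneg fun i _ => Finset.sum_nonneg fun b _ => ?_)
    (Nat.cast_nonneg _)
  split_ifs
  · exact wk_nonneg
  · exact le_rfl

theorem xm_ne_zero (h : xm N m μ O K v u ≠ 0) :
    ∃ i < K, ∃ b, wk N m μ O K v i b ≠ 0 ∧ u ∈ Tg N O K b := by
  obtain ⟨i, hi, h1⟩ := Finset.exists_ne_zero_of_sum_ne_zero (div_ne_zero_iff.1 h).1
  obtain ⟨b, -, h2⟩ := Finset.exists_ne_zero_of_sum_ne_zero h1
  split_ifs at h2 with h3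
  · exact ⟨i, Finset.mem_range.1 hi, b, h2, h3⟩
  · exact absurd rfl h2

/-- Total mass.  With `A i` the total of `wk v i` one has `A 0 = 1` and
`A (i + 1) = A i - st i`, `st i = ∑ b, wk v i b * |Tg b| / K ≥ A i / K`; the mass is
`∑ i < K, st i = 1 - A K`, and either some `A i ≤ 1 / 2` or all `st i ≥ 1 / (2 K)`. -/
theorem xm_mass (hN : Nice N m μ O K d Gd) (hv : Start N μ O K Gd v) (F : Finset ℕ)
    (hF : ball N v (K * (K + 2) + K) ⊆ F) :
    1 / 2 ≤ ∑ u ∈ F, xm N m μ O K v u ∧ ∑ u ∈ F, xm N m μ O K v u ≤ 1 := by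
  have hK : (0 : ℝ) < K := by exact_mod_cast hN.kpos
  obtain ⟨A, hA⟩ : ∃ A : ℕ → ℝ, ∀ i, A i = ∑ b ∈ ball N v (K * (K + 2)), wk N m μ O K v i b :=
    ⟨_, fun _ => rfl⟩
  obtain ⟨st, hst⟩ : ∃ st : ℕ → ℝ, ∀ i, st i = ∑ b ∈ ball N v (K * (K + 2)),
    wk N m μ O K v i b * (((Tg N O K b).card : ℝ) / K) := ⟨_, fun _ => rfl⟩
  have hmass : ∑ u ∈ F, xm N m μ O K v u = ∑ i ∈ Finset.range K, st i := by
    unfold xm
    rw [← Finset.sum_div, Finset.sum_comm, Finset.sum_div]
    refine Finset.sum_congr rfl fun i _ => ?_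
    rw [hst, Finset.sum_comm, Finset.sum_div]
    refine Finset.sum_congr rfl fun b hb => ?_
    have h1 : Tg N O K b ⊆ F := fun u hu =>
      hF (ball_trans hb (ball_NO_sub ((Tg_spec hN.kpos).2.1 hu)))
    rw [Finset.sum_ite_mem, Finset.inter_eq_right.2 h1, Finset.sum_const, nsmul_eq_mul]
    ring
  have hstep : ∀ i, i < K → A (i + 1) = A i - st i := by
    intro i hi
    have h1 : i * (K + 2) + (K + 2) ≤ K * (K + 2) := by
      rw [← Nat.succ_mul]
      exact Nat.mul_le_mul_right _ hi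
    have h2 : ball N v (i * (K + 2)) ⊆ ball N v (K * (K + 2)) := ball_mono (by omega)
    have e1 : A (i + 1) = ∑ b ∈ ball N v (i * (K + 2)),
        wk N m μ O K v i b * (1 - ((Tg N O K b).card : ℝ) / K) := by
      rw [hA]
      show ∑ b' ∈ ball N v (K * (K + 2)), ∑ b ∈ ball N v (i * (K + 2)),
        wk N m μ O K v i b * qq N m μ O K b b' = _
      rw [Finset.sum_comm]
      refine Finset.sum_congr rfl fun b hb => ?_
      rw [← Finset.mul_sum]
      by_cases h3 : wk N m μ O K v i b = 0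
      · rw [h3, zero_mul, zero_mul]
      · rw [qq_row hN (hv.2.2 b (h2 hb) (wk_supp hN hv h3).2) _
          fun w hw => ball_mono h1 (ball_trans hb hw)]
    rw [e1, hA, hst, ← Finset.sum_sub_distrib, Finset.sum_subset h2]
    · exact Finset.sum_congr rfl fun b _ => by ring
    · intro b _ hb
      have h3 : wk N m μ O K v i b = 0 := by
        by_contra h3
        exact hb (wk_supp hN hv h3).1
      rw [h3, zero_mul]
  have h0 : A 0 = 1 := by
    rw [hA]
    show ∑ b ∈ ball N v (K * (K + 2)), (if b = v then (1 : ℝ) else 0) = 1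
    rw [Finset.sum_ite_eq', if_pos self_mem_ball]
  have hsum : ∀ n, n ≤ K → ∑ i ∈ Finset.range n, st i = 1 - A n := by
    intro n hn
    induction n with
    | zero => simp [h0]
    | succ n ih =>
      rw [Finset.sum_range_succ, ih (by omega), hstep n (by omega)]
      ring
  have hA0 : ∀ i, 0 ≤ A i := fun i => by
    rw [hA]
    exact Finset.sum_nonneg fun b _ => wk_nonneg
  have hlow : ∀ i, A i / K ≤ st i := fun i => by
    rw [hA, hst, Finset.sum_div]
    refine Finset.sum_le_sum fun b _ => ?_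
    have h1 : (1 : ℝ) ≤ (Tg N O K b).card := by
      exact_mod_cast Finset.card_pos.2 ⟨b, (Tg_spec hN.kpos).1.1⟩
    rw [← mul_div_assoc]
    exact div_le_div_of_nonneg_right (le_mul_of_one_le_right wk_nonneg h1) hK.le
  have hmono : ∀ i ∈ Finset.range K, A K / K ≤ st i := by
    intro i hi
    have hi' := (Finset.mem_range.1 hi).le
    have h1 : ∑ j ∈ Finset.range i, st j ≤ ∑ j ∈ Finset.range K, st j :=
      Finset.sum_le_sum_of_subset_of_nonneg (Finset.range_mono hi') fun j _ _ =>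
        le_trans (div_nonneg (hA0 j) hK.le) (hlow j)
    rw [hsum i hi', hsum K le_rfl] at h1
    exact le_trans (div_le_div_of_nonneg_right (by linarith) hK.le) (hlow i)
  have h2 := Finset.sum_le_sum hmono
  rw [Finset.sum_const, Finset.card_range, nsmul_eq_mul, mul_div_cancel₀ _ hK.ne',
    hsum K le_rfl] at h2
  rw [hmass, hsum K le_rfl]
  exact ⟨by linarith, by linarith [hA0 K]⟩

end Pool.Agent.Lib.MP_459a07_lc.V
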