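import Pool.Agent.Lib.MP_459a07_lc.WBasic
import Pool.Agent.Lib.MP_459a07_lc.VEx

set_option autoImplicit false

namespace Pool.Agent.Lib.MP_459a07_lc.V

open Classical

variable {k : ℕ} {N : ℕ → Finset ℕ} {c : Col} {hv : ℕ → Prop} {nd : ℕ → Finset ℕ}
  {X : Finset ℕ} {γ D : ℕ}

theorem wcnt_mem_QX {a b : ℕ} : b ∈ QX N c nd X a ↔ a ∈ reps X nd ∧ b ∈ reps X nd ∧ b ≠ a ∧
    ∃ u ∈ nd a, ∃ v ∈ nd b, v ∈ En N c u := by
  unfold QX
  split_ifs with h
  · rw [Finset.mem_filter]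
    exact ⟨fun h1 => ⟨h, h1.1, h1.2⟩, fun h1 => ⟨h1.2.1, h1.2.2⟩⟩
  · exact ⟨fun h1 => absurd h1 (Finset.notMem_empty b), fun h1 => absurd h1.1 h⟩

theorem wcnt_sub (hp : Part X nd) {a : ℕ} (ha : a ∈ reps X nd) : nd a ⊆ X :=
  (hp a (mem_reps.1 ha).1).2.1

theorem wcnt_rp (hp : Part X nd) {a u : ℕ} (ha : a ∈ reps X nd) (hu : u ∈ nd a) :
    rp nd u = a := by
  have h1 := (hp.on.mem_iff (wcnt_sub hp ha hu) (mem_reps.1 ha).1).1 hu
  rw [h1]
  exact (mem_reps.1 ha).2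

theorem wcnt_rep (hp : Part X nd) {u : ℕ} (hu : u ∈ X) :
    rp nd u ∈ reps X nd ∧ u ∈ nd (rp nd u) := by
  obtain ⟨_, h2, h3, h4⟩ := hp.on.rp_spec hu
  refine ⟨mem_reps.2 ⟨h2, h4⟩, ?_⟩
  rw [h3]
  exact (hp u hu).1

theorem wcnt_bi (hp : Part X nd) {F : Finset ℕ} (hF : F ⊆ reps X nd) {v : ℕ} :
    v ∈ F.biUnion nd ↔ v ∈ X ∧ rp nd v ∈ F :=
  hp.on.mem_biUnion fun _ ha => mem_reps.1 (hF ha)

theorem wcnt_dc (hs : Sym N) (ho : Ok k N X c) {U T : Finset ℕ} (hU : U ⊆ X) (hT : T ⊆ X) :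
    ∑ v ∈ U, (En N c v ∩ T).card = ∑ w ∈ T, (En N c w ∩ U).card := by
  have h1 : ∀ (v : ℕ) (T : Finset ℕ),
      (En N c v ∩ T).card = ∑ w ∈ T, if w ∈ En N c v then 1 else 0 := by
    intro v T
    rw [Finset.inter_comm, ← Finset.filter_mem_eq_inter, Finset.card_filter]
  simp_rw [h1]
  rw [Finset.sum_comm]
  refine Finset.sum_congr rfl fun w hw => Finset.sum_congr rfl fun v hv' => ?_
  have h2 : w ∈ En N c v ↔ v ∈ En N c w :=
    ⟨fun h => En_symm hs ho (hT hw) (hU hv') h, fun h => En_symm hs ho (hU hv') (hT hw) h⟩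
  simp only [h2]

theorem QX_basic (hs : Sym N) (ho : Ok k N X c) (hp : Part X nd) :
    Sym (QX N c nd X) ∧ Irr (QX N c nd X) ∧
      ∀ a b, b ∈ QX N c nd X a → a ∈ reps X nd ∧ b ∈ reps X nd := by
  refine ⟨fun a b h => ?_, fun a h => (wcnt_mem_QX.1 h).2.2.1 rfl,
    fun a b h => ⟨(wcnt_mem_QX.1 h).1, (wcnt_mem_QX.1 h).2.1⟩⟩
  obtain ⟨ha, hb, hne, u, hu, v, hv', huv⟩ := wcnt_mem_QX.1 h
  exact wcnt_mem_QX.2 ⟨hb, ha, hne.symm, v, hv', u, hu,
    En_symm hs ho (wcnt_sub hp hb hv') (wcnt_sub hp ha hu) huv⟩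

theorem QX_congr {c' : Col} (hp : Part X nd) (h : ∀ u ∈ X, ∀ v ∈ X, c u v = c' u v) :
    QX N c nd X = QX N c' nd X := by
  funext a
  ext b
  rw [wcnt_mem_QX, wcnt_mem_QX]
  refine and_congr_right fun ha => and_congr_right fun hb => and_congr_right fun _ => ?_
  refine exists_congr fun u => and_congr_right fun hu => ?_
  refine exists_congr fun v => and_congr_right fun hv' => ?_
  rw [mem_En, mem_En, h u (wcnt_sub hp ha hu) v (wcnt_sub hp hb hv')]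

/-- An uncoloured edge that leaves the union `Y b` of the nodes in `C b` leaves `X` or goes to a
node in `A`.  The sets `Y b` are disjoint subsets of `X` that avoid the nodes in `A`; count the
edges to the nodes in `A` from the other side. -/
theorem cntX (hs : Sym N) (ho : Ok k N X c) (hp : Part X nd) {B A : Finset ℕ}
    {C : ℕ → Finset ℕ} (h : GE (QX N c nd X) B A C) (hA : A ⊆ reps X nd)
    (hC : ∀ b ∈ B, C b ⊆ reps X nd) :
    ∑ b ∈ B, cutp N c hv ((C b).biUnion nd) ≤ ∑ a ∈ A, cutp N c hv (nd a) + cutp N c hv X := by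
  have hYX : ∀ b ∈ B, (C b).biUnion nd ⊆ X := fun b hb v hv' => ((wcnt_bi hp (hC b hb)).1 hv').1
  have hdisj : (B : Set ℕ).PairwiseDisjoint fun b => (C b).biUnion nd := by
    intro b hb b' hb' hne
    refine Finset.disjoint_left.2 fun v h1 h2 => ?_
    exact Finset.disjoint_left.1 (h.disj b hb b' hb' hne) ((wcnt_bi hp (hC b hb)).1 h1).2
      ((wcnt_bi hp (hC b' hb')).1 h2).2
  obtain ⟨U, hU⟩ : ∃ U, U = B.biUnion fun b => (C b).biUnion nd := ⟨_, rfl⟩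
  have hUX : U ⊆ X := by
    rw [hU]
    exact Finset.biUnion_subset.2 hYX
  have hUA : ∀ a ∈ A, ∀ v ∈ U, v ∉ nd a := by
    intro a ha v hv' hva
    rw [hU] at hv'
    obtain ⟨b, hb, hvb⟩ := Finset.mem_biUnion.1 hv'
    have h1 := ((wcnt_bi hp (hC b hb)).1 hvb).2
    rw [wcnt_rp hp (hA ha) hva] at h1
    exact (h.out b hb a h1).1 ha
  have hpt : ∀ b ∈ B, ∀ v ∈ (C b).biUnion nd, (En N c v \ (C b).biUnion nd).card ≤
      (En N c v \ X).card + ∑ a ∈ A, (En N c v ∩ nd a).card := by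
    intro b hb v hv'
    have hsub : En N c v \ (C b).biUnion nd ⊆
        (En N c v \ X) ∪ A.biUnion fun a => En N c v ∩ nd a := by
      intro w hw
      obtain ⟨hw1, hw2⟩ := Finset.mem_sdiff.1 hw
      by_cases hwX : w ∈ X
      · refine Finset.mem_union_right _ ?_
        obtain ⟨hvX, hvC⟩ := (wcnt_bi hp (hC b hb)).1 hv'
        have hwC : rp nd w ∉ C b := fun h0 => hw2 ((wcnt_bi hp (hC b hb)).2 ⟨hwX, h0⟩)
        have hne : rp nd w ≠ rp nd v := fun e => hwC (by rw [e]; exact hvC)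
        have hq : rp nd w ∈ QX N c nd X (rp nd v) := wcnt_mem_QX.2
          ⟨(wcnt_rep hp hvX).1, (wcnt_rep hp hwX).1, hne, v, (wcnt_rep hp hvX).2, w,
            (wcnt_rep hp hwX).2, hw1⟩
        exact Finset.mem_biUnion.2 ⟨rp nd w, ((h.out b hb _ hvC).2 _ hq).resolve_left hwC,
          Finset.mem_inter.2 ⟨hw1, (wcnt_rep hp hwX).2⟩⟩
      · exact Finset.mem_union_left _ (Finset.mem_sdiff.2 ⟨hw1, hwX⟩)
    refine (Finset.card_le_card hsub).trans ((Finset.card_union_le _ _).trans ?_)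
    exact Nat.add_le_add_left Finset.card_biUnion_le _
  have s1 : ∑ b ∈ B, cutp N c hv ((C b).biUnion nd) ≤
      ∑ v ∈ U, (((En N c v \ X).card + ind (hv v)) + ∑ a ∈ A, (En N c v ∩ nd a).card) := by
    rw [hU, Finset.sum_biUnion hdisj]
    refine Finset.sum_le_sum fun b hb => ?_
    unfold cutp
    refine Finset.sum_le_sum fun v hv' => ?_
    have := hpt b hb v hv'
    omega
  have s2 : ∑ v ∈ U, ((En N c v \ X).card + ind (hv v)) ≤ cutp N c hv X :=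
    Finset.sum_le_sum_of_subset hUX
  have s3 : ∑ v ∈ U, ∑ a ∈ A, (En N c v ∩ nd a).card ≤ ∑ a ∈ A, cutp N c hv (nd a) := by
    rw [Finset.sum_comm]
    refine Finset.sum_le_sum fun a ha => ?_
    rw [wcnt_dc hs ho hUX (wcnt_sub hp (hA ha))]
    unfold cutp
    refine Finset.sum_le_sum fun w _ => le_trans (Finset.card_le_card fun v hv' => ?_)
      (Nat.le_add_right _ _)
    obtain ⟨h1, h2⟩ := Finset.mem_inter.1 hv'
    exact Finset.mem_sdiff.2 ⟨h1, hUA a ha v h2⟩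
  rw [Finset.sum_add_distrib] at s1
  omega

/-- `cov` and `cntX`: `D |B| ≤ D |A| + cutp X < D (|A| + 1)`, so no node of `cr` is exposed. -/
theorem cover_all (hs : Sym N) (ho : Ok k N X c) (hp : Part X nd) (cr : ℕ → Prop)
    (h1 : ∀ a ∈ reps X nd, cutp N c hv (nd a) ≤ D) (h2 : cutp N c hv X < D)
    (h3 : ∀ F ⊆ reps X nd, Odd F.card → (∀ a ∈ F, cr a) → D ≤ cutp N c hv (F.biUnion nd)) :
    ∃ μ, Mat (QX N c nd X) μ ∧ ∀ a ∈ reps X nd, cr a → μ a ≠ a := by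
  obtain ⟨q1, q2, q3⟩ := QX_basic hs ho hp
  obtain ⟨μ, B, A, C, hμ, hge, hcard, hA, hC⟩ :=
    cov q1 q2 (S := reps X nd) (fun u v h => (q3 u v h).1) cr
  refine ⟨μ, hμ, fun a ha hcr hfix => ?_⟩
  have hpos : 0 < ((reps X nd).filter fun v => cr v ∧ μ v = v).card :=
    Finset.card_pos.2 ⟨a, Finset.mem_filter.2 ⟨ha, hcr, hfix⟩⟩
  have e1 := cntX (hv := hv) hs ho hp hge hA fun b hb u hu => (hC b hb u hu).1
  have e2 : B.card * D ≤ ∑ b ∈ B, cutp N c hv ((C b).biUnion nd) := by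
    have := Finset.card_nsmul_le_sum B (fun b => cutp N c hv ((C b).biUnion nd)) D fun b hb =>
      h3 (C b) (fun u hu => (hC b hb u hu).1) (hge.odd b hb) fun u hu => (hC b hb u hu).2
    simpa using this
  have e3 : ∑ a ∈ A, cutp N c hv (nd a) ≤ A.card * D := by
    have := Finset.sum_le_card_nsmul A (fun a => cutp N c hv (nd a)) D fun a ha => h1 a (hA ha)
    simpa using this
  have e4 : (A.card + 1) * D ≤ B.card * D := Nat.mul_le_mul_right D (by omega)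
  rw [Nat.add_mul, Nat.one_mul] at e4
  omega

/-- A minimal deficient family is factor critical (`cover_all` with `cr = (· ≠ a)` and
`fix_parity`). -/
theorem crit (hs : Sym N) (ho : Ok k N X c) (hp : Part X nd)
    (hm : MinDef N c hv nd D (reps X nd)) {a : ℕ} (ha : a ∈ reps X nd) :
    ∃ μ, Mat (QX N c nd X) μ ∧ ∀ a' ∈ reps X nd, μ a' = a' ↔ a' = a := by
  have hsm : cutp N c hv X < D := by
    have := hm.small
    rwa [hp.reps_biUnion] at this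
  obtain ⟨μ, hμ, hcov⟩ := cover_all (hv := hv) (D := D) hs ho hp (fun v => v ≠ a)
    (fun b hb => (hm.care b hb).le) hsm fun F hF hodd hne =>
      hm.min F (Finset.ssubset_iff_subset_ne.2 ⟨hF, fun e => hne a (by rw [e]; exact ha) rfl⟩) hodd
  have hinv : ∀ v ∈ reps X nd, μ v ∈ reps X nd ∧ μ (μ v) = v := by
    intro v hv'
    refine ⟨?_, hμ.1 v⟩
    by_cases h0 : μ v = v
    · rw [h0]
      exact hv'
    · exact (wcnt_mem_QX.1 (hμ.2 v h0)).2.1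
  have hpar := fix_parity hinv
  have hodd := Nat.odd_iff.1 hm.odd
  have hpos : 0 < ((reps X nd).filter fun v => μ v = v).card := by omega
  obtain ⟨z, hz⟩ := Finset.card_pos.1 hpos
  obtain ⟨hz1, hz2⟩ := Finset.mem_filter.1 hz
  have hza : z = a := by
    by_contra h0
    exact hcov z hz1 h0 hz2
  refine ⟨μ, hμ, fun a' ha' => ⟨fun h0 => ?_, fun h0 => ?_⟩⟩
  · by_contra h1
    exact hcov a' ha' h1 h0
  · rw [h0, ← hza]
    exact hz2

/-- Colour one real edge for each matched pair of nodes.  For a matched representative `a` choose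
the edge for the pair `min a (μ a), max a (μ a)` (as in `pe`, `ep`); let `e a` be its end in
`nd a`; put `c2 u v = γ` if `u = e a`, `v = e (μ a)` for `a = rp nd u`, `u ∈ X`, `μ a ≠ a`. -/
theorem mcol (hs : Sym N) (ho : Ok k N X c) (hp : Part X nd) {μ : ℕ → ℕ}
    (hμ : Mat (QX N c nd X) μ) (h1 : 1 ≤ γ) (h2 : γ ≤ k + 1)
    (hu : ∀ a ∈ reps X nd, μ a ≠ a → ∀ u ∈ nd a, ∀ v, c u v ≠ γ) :
    ∃ c2, Ext k N X c c2 ∧ ∀ a ∈ reps X nd, (μ a = a → ∀ u ∈ nd a, c2 u = c u) ∧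
      (μ a ≠ a → ∃ t t', OneEdge N (nd a) c c2 t t' γ) := by
  have hex : ∀ a, ∃ p : ℕ × ℕ, μ a ≠ a → p.1 ∈ nd a ∧ p.2 ∈ nd (μ a) ∧ p.2 ∈ En N c p.1 := by
    intro a
    by_cases h0 : μ a = a
    · exact ⟨(0, 0), fun h => absurd h0 h⟩
    · obtain ⟨_, _, _, u, hu1, v, hv1, huv⟩ := wcnt_mem_QX.1 (hμ.2 a h0)
      exact ⟨(u, v), fun _ => ⟨hu1, hv1, huv⟩⟩
  choose p hpp using hex
  have hrep : ∀ a, μ a ≠ a → a ∈ reps X nd ∧ μ a ∈ reps X nd ∧ μ (μ a) ≠ μ a := by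
    intro a h0
    refine ⟨(wcnt_mem_QX.1 (hμ.2 a h0)).1, (wcnt_mem_QX.1 (hμ.2 a h0)).2.1, ?_⟩
    rw [hμ.1]
    exact h0.symm
  obtain ⟨e, he⟩ : ∃ e : ℕ → ℕ, ∀ a, μ a ≠ a → e a ∈ nd a ∧ e (μ a) ∈ En N c (e a) := by
    refine ⟨fun a => if a < μ a then (p a).1 else (p (μ a)).2, fun a h0 => ?_⟩
    simp only [hμ.1]
    by_cases hlt : a < μ a
    · rw [if_pos hlt, if_neg (by omega)]
      exact ⟨(hpp a h0).1, (hpp a h0).2.2⟩
    · rw [if_neg hlt, if_pos (by omega)]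
      obtain ⟨r1, r2, r3⟩ := hrep a h0
      obtain ⟨t1, t2, t3⟩ := hpp (μ a) r3
      rw [hμ.1] at t2
      exact ⟨t2, En_symm hs ho (wcnt_sub hp r1 t2) (wcnt_sub hp r2 t1) t3⟩
  obtain ⟨R, hR⟩ : ∃ R : ℕ → ℕ → Prop,
      ∀ u v, R u v ↔ ∃ a, μ a ≠ a ∧ u = e a ∧ v = e (μ a) := ⟨_, fun _ _ => Iff.rfl⟩
  have hrp : ∀ a, μ a ≠ a → rp nd (e a) = a := fun a h0 => wcnt_rp hp (hrep a h0).1 (he a h0).1
  have Rsymm : ∀ u v, R u v → R v u := by
    intro u v h0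
    obtain ⟨a, ha, rfl, rfl⟩ := (hR u v).1 h0
    exact (hR _ _).2 ⟨μ a, (hrep a ha).2.2, rfl, by rw [hμ.1]⟩
  have Rfun : ∀ u v w, R u v → R u w → v = w := by
    intro u v w h0 h0'
    obtain ⟨a, ha, rfl, rfl⟩ := (hR u v).1 h0
    obtain ⟨a', ha', e1, rfl⟩ := (hR _ w).1 h0'
    have : a = a' := by rw [← hrp a ha, e1, hrp a' ha']
    rw [this]
  have REn : ∀ u v, R u v → v ∈ X ∧ v ∈ N u ∧ c u v = 0 ∧ ∀ w, c u w ≠ γ := by
    intro u v h0
    obtain ⟨a, ha, rfl, rfl⟩ := (hR u v).1 h0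
    exact ⟨wcnt_sub hp (hrep a ha).2.1 (he (μ a) (hrep a ha).2.2).1, (mem_En.1 (he a ha).2).1,
      (mem_En.1 (he a ha).2).2, hu a (hrep a ha).1 ha _ (he a ha).1⟩
  obtain ⟨c2, hc1, hc2⟩ : ∃ c2 : Col, (∀ u v, R u v → c2 u v = γ) ∧
      ∀ u v, ¬ R u v → c2 u v = c u v :=
    ⟨fun u v => if R u v then γ else c u v, fun _ _ h0 => if_pos h0, fun _ _ h0 => if_neg h0⟩
  refine ⟨c2, ⟨⟨fun u hu1 v hv1 => ?_, fun u hu1 v h0 => ?_, fun u hu1 v w h0 h0' => ?_,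
    fun u hu1 v => ?_⟩, fun u _ v h0 => ?_, fun u _ v h0 => ?_⟩, fun a ha => ⟨fun h0 u hu1 => ?_,
    fun h0 => ⟨e a, e (μ a), (he a h0).1, fun h3 => ?_, (he a h0).2, fun u hu1 v => ?_⟩⟩⟩
  · by_cases h0 : R u v
    · rw [hc1 u v h0, hc1 v u (Rsymm u v h0)]
    · rw [hc2 u v h0, hc2 v u fun h3 => h0 (Rsymm v u h3)]
      exact ho.symm u hu1 v hv1
  · by_cases h3 : R u v
    · exact (REn u v h3).2.1
    · rw [hc2 u v h3] at h0
      exact ho.edge u hu1 v h0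
  · by_cases h3 : R u v <;> by_cases h4 : R u w
    · exact Rfun u v w h3 h4
    · rw [hc1 u v h3, hc2 u w h4] at h0'
      exact absurd h0'.symm ((REn u v h3).2.2.2 w)
    · rw [hc2 u v h3, hc1 u w h4] at h0'
      exact absurd h0' ((REn u w h4).2.2.2 v)
    · rw [hc2 u v h3, hc2 u w h4] at h0'
      rw [hc2 u v h3] at h0
      exact ho.inj u hu1 v w h0 h0'
  · by_cases h3 : R u v
    · rw [hc1 u v h3]
      omega
    · rw [hc2 u v h3]
      exact ho.le u hu1 v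
  · refine hc2 u v fun h3 => ?_
    rcases h0 with h0 | h0
    · exact h0 (REn u v h3).1
    · exact h0 (REn u v h3).2.2.1
  · by_cases h3 : R u v
    · rw [hc1 u v h3] at h0
      omega
    · rwa [hc2 u v h3] at h0
  · funext v
    refine hc2 u v fun h3 => ?_
    obtain ⟨a', ha', rfl, rfl⟩ := (hR u v).1 h3
    have : a' = a := by rw [← hrp a' ha', wcnt_rp hp ha hu1]
    rw [this] at ha'
    exact ha' h0
  · have h4 := wcnt_rp hp ha h3
    rw [hrp (μ a) (hrep a h0).2.2] at h4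
    exact h0 h4
  · split_ifs with h3
    · exact hc1 u v ((hR u v).2 ⟨a, h0, h3.1, h3.2⟩)
    · refine hc2 u v fun h4 => h3 ?_
      obtain ⟨a', ha', rfl, rfl⟩ := (hR u v).1 h4
      have : a' = a := by rw [← hrp a' ha', wcnt_rp hp ha hu1]
      rw [this]
      exact ⟨rfl, rfl⟩

end Pool.Agent.Lib.MP_459a07_lc.V
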