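import Pool.Agent.Lib.MP_459a07_lc.WNm
import Pool.Agent.Lib.MP_459a07_lc.WCnt

set_option autoImplicit false

namespace Pool.Agent.Lib.MP_459a07_lc.V

open Classical

variable {k : ℕ} {N : ℕ → Finset ℕ} {hv : ℕ → Prop}

/-- Covering one edge that leaves `X` with a colour of the palette. -/
def StA (k : ℕ) (N : ℕ → Finset ℕ) (hv : ℕ → Prop) (X : Finset ℕ) : Prop :=
  ∀ (c c1 : Col) (b : Bool) (P : Finset ℕ) (t t' γ : ℕ), Ok k N X c → Nm k N c hv b P X → γ ∈ P →
    OneEdge N X c c1 t t' γ → Res k N hv (P.erase γ) X c1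

/-- Getting rid of the colour `δ` when the cut of `X` is small. -/
def StB (k : ℕ) (N : ℕ → Finset ℕ) (hv : ℕ → Prop) (X : Finset ℕ) : Prop :=
  ∀ (c : Col) (P : Finset ℕ) (δ : ℕ) (nd : ℕ → Finset ℕ), Ok k N X c → δ ∉ P → Part X nd →
    (∀ v ∈ X, Nm k N c hv false (insert δ P) (nd v)) → cutp N c hv X < P.card → Res k N hv P X c

private theorem wab_ind {a : Prop} (h : a) : ind a = 1 := by
  simp [ind, h]

private theorem wab_rep {X : Finset ℕ} {nd : ℕ → Finset ℕ} (hp : Part X nd) {v : ℕ}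
    (hv : v ∈ X) : rp nd v ∈ reps X nd ∧ nd (rp nd v) = nd v := by
  have h := hp.on.rp_spec hv
  exact ⟨mem_reps.2 ⟨h.2.1, h.2.2.2⟩, h.2.2.1⟩

private theorem wab_mem {X : Finset ℕ} {nd : ℕ → Finset ℕ} (hp : Part X nd) {a u : ℕ}
    (ha : a ∈ reps X nd) (hu : u ∈ nd a) : rp nd u = a := by
  have h := mem_reps.1 ha
  have h1 := (hp.on.mem_iff ((hp a h.1).2.1 hu) h.1).1 hu
  rw [h1, h.2]

/-- Let `D = P.card`.  Merge a maximal disjoint family (`exists_maxDisj`) of minimal deficient
families contained in `X` (`grp_part`, `grp_nm`, `grp_nodef` with `L = X.card`); `cover_all` with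
`cr a = (cutp (nd' a) = D)`; `mcol` with the colour `δ` (`nm_pal`); matched nodes are proper
subsets of `X` (the mate is another representative in `X`) and use `StA`; unmatched nodes have cut
below `D` and use `nm_congr`, `Nm.defer`, `res_of_nm`; then `res_glue`, `res_ext`. -/
theorem stB_of (hs : Sym N) {X : Finset ℕ} (h : ∀ Y, Y.card < X.card → StA k N hv Y) :
    StB k N hv X := by
  intro c P δ nd ho hδ hp hn hc
  rcases X.eq_empty_or_nonempty with hX | ⟨v0, hv0⟩
  · exact ⟨(c, nd), Ext.refl ho, hp, fun v hv' => by simp [hX] at hv'⟩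
  have hcard : (insert δ P).card = P.card + 1 := Finset.card_insert_of_notMem hδ
  obtain ⟨M, hM1, hM2, hM3⟩ := exists_maxDisj
    {F : Finset ℕ | (∀ a ∈ F, a ∈ X) ∧ MinDef N c hv nd P.card F}
    (fun F hF => Finset.card_pos.1 hF.2.odd.pos)
  have hd : ∀ F F', F ∈ M → F' ∈ M → ¬ Disjoint F F' → F = F' :=
    fun F F' h1 h2 => hM2 F h1 F' h2
  have hp' : Part X (grp nd fun F => F ∈ M) :=
    (grp_part hp.on (fun F hF a ha => ⟨(hM1 hF).1 a ha, (hM1 hF).2.rep a ha⟩) hd).1.part
  have hn' : ∀ v, v ∈ X → Nm k N c hv true (insert δ P) (grp nd (fun F => F ∈ M) v) :=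
    grp_nm hp.on (fun F hF => (hM1 hF).1) hd
      (fun F hF => by rw [hcard, Nat.add_sub_cancel]; exact (hM1 hF).2) hn
  have hnd : ∀ F ⊆ reps X (grp nd fun F => F ∈ M), Odd F.card →
      (∀ a ∈ F, cutp N c hv (grp nd (fun F => F ∈ M) a) = P.card) →
      P.card ≤ cutp N c hv (F.biUnion (grp nd fun F => F ∈ M)) := by
    intro F hF ho' hcr
    exact grp_nodef (L := F.card) hp.on hd (fun F hF => (hM1 hF).2)
      (fun F' h1 h2 _ => by
        obtain ⟨F'', a1, a2⟩ := hM3 F' ⟨h1, h2⟩
        exact ⟨F'', a1, a2⟩)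
      (fun a ha => ⟨(mem_reps.1 (hF ha)).1, (mem_reps.1 (hF ha)).2, hcr a ha⟩) ho' le_rfl
  generalize grp nd (fun F => F ∈ M) = nd' at hp' hn' hnd
  have hle : ∀ a ∈ reps X nd', cutp N c hv (nd' a) ≤ P.card := by
    intro a ha
    have := (nm_pal (hn' a (mem_reps.1 ha).1)).2.2.1
    omega
  obtain ⟨μ, hμ, hcov⟩ := cover_all hs ho hp' (fun a => cutp N c hv (nd' a) = P.card) hle hc hnd
  have hδr := Finset.mem_Icc.1 ((nm_pal (hn' v0 hv0)).1 (Finset.mem_insert_self δ P))
  obtain ⟨c2, hE, hrow⟩ := mcol (γ := δ) hs ho hp' hμ hδr.1 hδr.2 (fun a ha _ u hu v he =>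
    (nm_pal (hn' a (mem_reps.1 ha).1)).2.1 u hu v (he ▸ Finset.mem_insert_self δ P))
  refine res_ext hE (res_glue hE.ok hp' fun v hvX => ?_)
  obtain ⟨ha, hnda⟩ := wab_rep hp' hvX
  rw [← hnda]
  generalize rp nd' v = a at ha
  have haX := (mem_reps.1 ha).1
  have hsub : nd' a ⊆ X := (hp' a haX).2.1
  by_cases hm : μ a = a
  · have hr : ∀ u ∈ nd' a, N u = N u ∧ c u = c2 u ∧ (hv u ↔ hv u) :=
      fun u hu => ⟨rfl, ((hrow a ha).1 hm u hu).symm, Iff.rfl⟩
    refine res_of_nm (hE.ok.mono hsub) (Nm.defer P _ δ hδ (nm_congr (hn' a haX) hr) ?_)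
    rw [← cutp_congr hr]
    exact lt_of_le_of_ne (hle a ha) fun he => hcov a ha he hm
  · obtain ⟨t, t', he⟩ := (hrow a ha).2 hm
    have hb := ((QX_basic hs ho hp').2.2 a (μ a) (hμ.2 a hm)).2
    have hlt : (nd' a).card < X.card := by
      refine Finset.card_lt_card ⟨hsub, fun hsup => hm ?_⟩
      have := wab_mem hp' ha (hsup (mem_reps.1 hb).1)
      rwa [(mem_reps.1 hb).2] at this
    have := h (nd' a) hlt c c2 true (insert δ P) t t' δ (ho.mono hsub) (hn' a haX)
      (Finset.mem_insert_self δ P) he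
    rwa [Finset.erase_insert hδ] at this

/-- Induction on `Nm` (for fixed `c`, all `c1 t t' γ`, keeping `X.card ≤ n` and `Ok k N X c`).
Leaf: `cutp_oneEdge`.  Defer with `δ`: the induction hypothesis gives
`Res (insert δ (P.erase γ))`, then `StB` (`cutp_ext`, `cutp_oneEdge`), `res_ext`.  Group: `crit`
for the node of `t`, `QX_congr`, `mcol` for `c1` (`oneEdge_ok`), the induction hypothesis for
every node (its rows in `c2` differ from `c` in one edge), `res_glue`, `res_ext`. -/
theorem stA_of (hs : Sym N) (n : ℕ) (h : ∀ Y, Y.card ≤ n → StB k N hv Y) {X : Finset ℕ}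
    (hX : X.card ≤ n) : StA k N hv X := by
  have key : ∀ (c : Col) (b : Bool) (P X : Finset ℕ), Nm k N c hv b P X → X.card ≤ n →
      Ok k N X c → ∀ (c1 : Col) (t t' γ : ℕ), γ ∈ P → OneEdge N X c c1 t t' γ →
      Res k N hv (P.erase γ) X c1 := by
    intro c b P X hN
    induction hN with
    | leaf P v hP hu hc =>
      intro _ ho c1 t t' γ hγ he
      have hγr := Finset.mem_Icc.1 (hP hγ)
      have ht : t = v := Finset.mem_singleton.1 he.mem
      subst ht
      have h1 := cutp_oneEdge (hv := hv) he (by omega) (Finset.Subset.refl _)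
      rw [wab_ind he.mem] at h1
      refine res_of_nm (oneEdge_ok ho he (by omega) fun v hv' => hu v (hv' ▸ hγ))
        (Nm.leaf _ t ((Finset.erase_subset γ P).trans hP) (fun u => ?_) ?_)
      · rw [he.rows t he.mem u]
        split_ifs
        · exact Finset.notMem_erase γ P
        · exact fun a => hu u (Finset.mem_of_mem_erase a)
      · rw [Finset.card_erase_of_mem hγ]
        omega
    | defer P X δ hδ hN hc ih =>
      intro hX ho c1 t t' γ hγ he
      have hne : δ ≠ γ := fun a => hδ (a ▸ hγ)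
      have hγr := Finset.mem_Icc.1 ((nm_pal hN).1 (Finset.mem_insert_of_mem hγ))
      obtain ⟨r, hE, hp, hn⟩ := ih hX ho c1 t t' γ (Finset.mem_insert_of_mem hγ) he
      rw [Finset.erase_insert_of_ne hne] at hn
      refine res_ext hE (h X hX r.1 (P.erase γ) δ r.2 hE.ok
        (fun a => hδ (Finset.mem_of_mem_erase a)) hp hn ?_)
      have h1 := cutp_oneEdge (hv := hv) he (by omega) (Finset.Subset.refl _)
      rw [wab_ind he.mem] at h1
      rw [cutp_ext hE, Finset.card_erase_of_mem hγ]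
      omega
    | single P X _ ih => exact ih
    | group P X nd hp hn hm ih =>
      intro hX ho c1 t t' γ hγ he
      obtain ⟨ha0, hnd0⟩ := wab_rep hp he.mem
      have hγr := Finset.mem_Icc.1 ((nm_pal (hn t he.mem)).1 hγ)
      obtain ⟨μ, hμ, hfix⟩ := crit hs ho hp hm ha0
      have ho1 : Ok k N X c1 := oneEdge_ok ho he (by omega) fun v hv' =>
        (nm_pal (hn t he.mem)).2.1 t (hp t he.mem).1 v (hv' ▸ hγ)
      have hQ : QX N c nd X = QX N c1 nd X := QX_congr hp fun u hu v hv' => by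
        rw [he.rows u hu v, if_neg]
        rintro ⟨-, rfl⟩
        exact he.out hv'
      rw [hQ] at hμ
      have hrow1 : ∀ a ∈ reps X nd, μ a ≠ a → ∀ u ∈ nd a, c1 u = c u := by
        intro a ha hma u hu
        refine he.row ((hp a (mem_reps.1 ha).1).2.1 hu) fun hut => hma ((hfix a ha).2 ?_)
        rw [← hut]
        exact (wab_mem hp ha hu).symm
      obtain ⟨c2, hE, hrow⟩ := mcol (γ := γ) hs ho1 hp hμ hγr.1 hγr.2
        (fun a ha hma u hu v hcv => by
          rw [hrow1 a ha hma u hu] at hcv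
          exact (nm_pal (hn a (mem_reps.1 ha).1)).2.1 u hu v (hcv ▸ hγ))
      refine res_ext hE (res_glue hE.ok hp fun v hvX => ?_)
      obtain ⟨ha, hnda⟩ := wab_rep hp hvX
      rw [← hnda]
      generalize rp nd v = a at ha
      have haX := (mem_reps.1 ha).1
      have hsub : nd a ⊆ X := (hp a haX).2.1
      have hcard : (nd a).card ≤ n := le_trans (Finset.card_le_card hsub) hX
      by_cases hma : μ a = a
      · have haa : a = rp nd t := (hfix a ha).1 hma
        have ht : t ∈ nd a := by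
          rw [haa, hnd0]
          exact (hp t he.mem).1
        have he' := he.mono hsub ht
        refine ih a haX hcard (ho.mono hsub) c2 t t' γ hγ ⟨he'.mem, he'.out, he'.unc, ?_⟩
        intro u hu w
        rw [(hrow a ha).1 hma u hu]
        exact he'.rows u hu w
      · obtain ⟨s, s', he'⟩ := (hrow a ha).2 hma
        refine ih a haX hcard (ho.mono hsub) c2 s s' γ hγ ⟨he'.mem, he'.out, ?_, ?_⟩
        · have := mem_En.1 he'.unc
          rw [hrow1 a ha hma s he'.mem] at this
          exact mem_En.2 this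
        · intro u hu w
          rw [he'.rows u hu w, hrow1 a ha hma u hu]
  intro c c1 b P t t' γ ho hN hγ he
  exact key c b P X hN hX ho c1 t t' γ hγ he

theorem stAB (hs : Sym N) (X : Finset ℕ) : StA k N hv X ∧ StB k N hv X := by
  have step : ∀ n, (∀ Y : Finset ℕ, Y.card < n → StA k N hv Y) →
      ∀ Y : Finset ℕ, Y.card ≤ n → StB k N hv Y :=
    fun n h Y hY => stB_of hs fun Z hZ => h Z (lt_of_lt_of_le hZ hY)
  have key : ∀ n, ∀ Y : Finset ℕ, Y.card < n → StA k N hv Y := by
    intro n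
    induction n with
    | zero => intro Y hY; omega
    | succ n ih => exact fun Y hY => stA_of hs n (step n ih) (by omega)
  exact ⟨key (X.card + 1) X (by omega), step X.card (key X.card) X le_rfl⟩

/-- Removing an edge.  Induction on `Nm`.  Group: the induction hypothesis for the node of `t`,
`nm_congr` for the others, `res_glue`.  Defer: the induction hypothesis, then `StB`. -/
theorem stR (hs : Sym N) {c c1 : Col} {b : Bool} {P X : Finset ℕ} {t t' : ℕ}
    (ho : Ok k N X c1) (h : Nm k N c hv b P X) (he : OneEdge N X c c1 t t' (k + 2)) :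
    Res k N hv P X c1 := by
  induction h with
  | leaf P v hP hu hc =>
    have ht : t = v := Finset.mem_singleton.1 he.mem
    subst ht
    have h1 := cutp_oneEdge (hv := hv) he (by omega) (Finset.Subset.refl _)
    refine res_of_nm ho (Nm.leaf _ t hP (fun u => ?_) (by omega))
    rw [he.rows t he.mem u]
    split_ifs
    · intro a
      have := Finset.mem_Icc.1 (hP a)
      omega
    · exact hu u
  | defer P X δ hδ hN hc ih =>
    obtain ⟨r, hE, hp, hn⟩ := ih ho he
    refine res_ext hE ((stAB hs X).2 r.1 P δ r.2 hE.ok hδ hp hn ?_)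
    have h1 := cutp_oneEdge (hv := hv) he (by omega) (Finset.Subset.refl _)
    rw [cutp_ext hE]
    omega
  | single P X _ ih => exact ih ho he
  | group P X nd hp hn hm ih =>
    refine res_glue ho hp fun v hvX => ?_
    have hsub : nd v ⊆ X := (hp v hvX).2.1
    by_cases ht : t ∈ nd v
    · exact ih v hvX (ho.mono hsub) (he.mono hsub ht)
    · refine res_of_nm (ho.mono hsub) (nm_congr (hn v hvX) fun u hu => ⟨rfl, ?_, Iff.rfl⟩)
      exact (he.row (hsub hu) fun a => ht (a ▸ hu)).symm

/-- `stR`, then `StB`. -/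
theorem stR' (hs : Sym N) {c c1 : Col} {b : Bool} {P X : Finset ℕ} {t t' δ : ℕ}
    (ho : Ok k N X c1) (hδ : δ ∉ P) (h : Nm k N c hv b (insert δ P) X)
    (he : OneEdge N X c c1 t t' (k + 2)) : Res k N hv P X c1 := by
  obtain ⟨r, hE, hp, hn⟩ := stR hs ho h he
  refine res_ext hE ((stAB hs X).2 r.1 P δ r.2 hE.ok hδ hp hn ?_)
  have h1 := cutp_oneEdge (hv := hv) he (by omega) (Finset.Subset.refl _)
  rw [wab_ind he.mem] at h1
  have h2 := (nm_pal h).2.2.1
  rw [Finset.card_insert_of_notMem hδ] at h2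
  rw [cutp_ext hE]
  omega

end Pool.Agent.Lib.MP_459a07_lc.V
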