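import Pool.Agent.Lib.MP_459a07_lc.WDefs
import Pool.Agent.Lib.MP_459a07_lc.VMat

set_option autoImplicit false

namespace Pool.Agent.Lib.MP_459a07_lc.V

open Classical

/-- `nd` is a partition of the set described by `Dm`. -/
def PartOn (Dm : ℕ → Prop) (nd : ℕ → Finset ℕ) : Prop :=
  ∀ v, Dm v → v ∈ nd v ∧ ∀ u ∈ nd v, Dm u ∧ nd u = nd v

variable {k : ℕ} {N N' : ℕ → Finset ℕ} {c c' c1 c2 : Col} {hv hv' : ℕ → Prop}
  {nd : ℕ → Finset ℕ} {X Y Z P F F' : Finset ℕ} {Dm : ℕ → Prop} {u v w a t t' γ D : ℕ} {b : Bool}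

theorem mem_En : u ∈ En N c v ↔ u ∈ N v ∧ c v u = 0 := by
  simp [En]

theorem En_symm (hs : Sym N) (ho : Ok k N X c) (hu : u ∈ X) (hv : v ∈ X) (h : u ∈ En N c v) :
    v ∈ En N c u := by
  rw [mem_En] at h ⊢
  exact ⟨hs _ _ h.1, by rw [ho.symm u hu v hv, h.2]⟩

theorem Ok.mono (ho : Ok k N X c) (h : Y ⊆ X) : Ok k N Y c := by
  exact ⟨fun u hu v hv => ho.symm u (h hu) v (h hv), fun u hu => ho.edge u (h hu),
    fun u hu => ho.inj u (h hu), fun u hu => ho.le u (h hu)⟩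

theorem Ok.congr (ho : Ok k N X c) (h : ∀ u ∈ X, N u = N' u ∧ c u = c' u) : Ok k N' X c' := by
  refine ⟨fun u hu v hv => ?_, fun u hu => ?_, fun u hu => ?_, fun u hu => ?_⟩
  · rw [← (h u hu).2, ← (h v hv).2]
    exact ho.symm u hu v hv
  · rw [← (h u hu).2, ← (h u hu).1]
    exact ho.edge u hu
  · rw [← (h u hu).2]
    exact ho.inj u hu
  · rw [← (h u hu).2]
    exact ho.le u hu

/-! ### Partitions -/

theorem Part.on (h : Part X nd) : PartOn (fun v => v ∈ X) nd := by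
  exact fun v hv => ⟨(h v hv).1, fun u hu => ⟨(h v hv).2.1 hu, (h v hv).2.2 u hu⟩⟩

theorem PartOn.part (h : PartOn (fun v => v ∈ X) nd) : Part X nd := by
  exact fun v hv => ⟨(h v hv).1, fun u hu => ((h v hv).2 u hu).1, fun u hu => ((h v hv).2 u hu).2⟩

theorem GPart.on (h : GPart nd) : PartOn (fun _ => True) nd := by
  exact fun v _ => ⟨(h v).1, fun u hu => ⟨trivial, (h v).2 u hu⟩⟩

theorem PartOn.gpart (h : PartOn (fun _ => True) nd) : GPart nd := by
  exact fun v => ⟨(h v trivial).1, fun u hu => ((h v trivial).2 u hu).2⟩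

theorem rp_congr {nd' : ℕ → Finset ℕ} (h : nd u = nd' v) : rp nd u = rp nd' v := by
  rw [rp, rp, h]

theorem PartOn.rp_spec (h : PartOn Dm nd) (hv : Dm v) :
    rp nd v ∈ nd v ∧ Dm (rp nd v) ∧ nd (rp nd v) = nd v ∧ rp nd (rp nd v) = rp nd v := by
  have h1 : rp nd v ∈ nd v :=
    Finset.mem_coe.1 (Nat.sInf_mem ⟨v, Finset.mem_coe.2 (h v hv).1⟩)
  obtain ⟨h2, h3⟩ := (h v hv).2 _ h1
  exact ⟨h1, h2, h3, rp_congr h3⟩

theorem PartOn.mem_iff (h : PartOn Dm nd) (hu : Dm u) (hv : Dm v) :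
    u ∈ nd v ↔ rp nd u = rp nd v := by
  refine ⟨fun e => rp_congr ((h v hv).2 u e).2, fun e => ?_⟩
  rw [← (h.rp_spec hv).2.2.1, ← e, (h.rp_spec hu).2.2.1]
  exact (h u hu).1

theorem PartOn.mem_biUnion (h : PartOn Dm nd) (hF : ∀ a ∈ F, Dm a ∧ rp nd a = a) :
    v ∈ F.biUnion nd ↔ Dm v ∧ rp nd v ∈ F := by
  rw [Finset.mem_biUnion]
  constructor
  · rintro ⟨a, ha, hv⟩
    obtain ⟨h1, h2⟩ := (h a (hF a ha).1).2 v hv
    exact ⟨h1, by rwa [rp_congr h2, (hF a ha).2]⟩
  · rintro ⟨h1, h2⟩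
    exact ⟨_, h2, by rw [(h.rp_spec h1).2.2.1]; exact (h v h1).1⟩

/-- The union of a family of nodes is partitioned by `nd` and has the family as its
representatives. -/
theorem PartOn.family (h : PartOn Dm nd) (hF : ∀ a ∈ F, Dm a ∧ rp nd a = a) :
    Part (F.biUnion nd) nd ∧ reps (F.biUnion nd) nd = F := by
  refine ⟨fun v hv => ?_, ?_⟩
  · obtain ⟨h1, h2⟩ := (h.mem_biUnion hF).1 hv
    refine ⟨(h v h1).1, fun u hu => ?_, fun u hu => ((h v h1).2 u hu).2⟩
    obtain ⟨h3, h4⟩ := (h v h1).2 u hu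
    exact (h.mem_biUnion hF).2 ⟨h3, by rwa [rp_congr h4]⟩
  · ext a
    rw [reps, Finset.mem_filter, h.mem_biUnion hF]
    exact ⟨fun e => e.2 ▸ e.1.2, fun e => ⟨⟨(hF a e).1, by rwa [(hF a e).2]⟩, (hF a e).2⟩⟩

theorem Part.reps_biUnion (h : Part X nd) : (reps X nd).biUnion nd = X := by
  ext v
  rw [h.on.mem_biUnion (F := reps X nd) fun a ha =>
    (Finset.mem_filter (p := fun v => rp nd v = v)).1 ha]
  refine ⟨fun e => e.1, fun e => ⟨e, Finset.mem_filter.2 ?_⟩⟩
  exact ⟨(h.on.rp_spec e).2.1, (h.on.rp_spec e).2.2.2⟩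

theorem mem_reps : a ∈ reps X nd ↔ a ∈ X ∧ rp nd a = a := by
  exact Finset.mem_filter

/-! ### Cuts -/

theorem cutp_congr (h : ∀ u ∈ X, N u = N' u ∧ c u = c' u ∧ (hv u ↔ hv' u)) :
    cutp N c hv X = cutp N' c' hv' X := by
  refine Finset.sum_congr rfl fun u hu => ?_
  obtain ⟨h1, h2, h3⟩ := h u hu
  rw [En, En, h1, h2, propext h3]

theorem wbasic_split (f : ℕ → ℕ) (X Y : Finset ℕ) :
    ∑ v ∈ X, f v = ∑ v ∈ X \ Y, f v + ∑ v ∈ X ∩ Y, f v := by
  rw [add_comm, Finset.sum_inter_add_sum_sdiff]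

/-- Pointwise: split the sums over `X ∪ Y`, `X ∩ Y`. -/
theorem cutp_submod : cutp N c hv (X ∪ Y) + cutp N c hv (X ∩ Y) ≤
    cutp N c hv X + cutp N c hv Y := by
  have key : ∀ Z ⊆ X ∪ Y, cutp N c hv Z =
      ∑ v ∈ X ∪ Y, if v ∈ Z then (En N c v \ Z).card + ind (hv v) else 0 := fun Z hZ => by
    rw [← Finset.sum_filter, Finset.filter_mem_eq_inter, Finset.inter_eq_right.2 hZ, cutp]
  rw [key _ (Finset.Subset.refl _), key _ Finset.inter_subset_union,
    key _ Finset.subset_union_left, key _ Finset.subset_union_right, ← Finset.sum_add_distrib,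
    ← Finset.sum_add_distrib]
  refine Finset.sum_le_sum fun v hv' => ?_
  have h1 : (En N c v \ (X ∪ Y)).card ≤ (En N c v \ X).card :=
    Finset.card_le_card (Finset.sdiff_subset_sdiff (Finset.Subset.refl _) Finset.subset_union_left)
  have h2 : (En N c v \ (X ∪ Y)).card ≤ (En N c v \ Y).card :=
    Finset.card_le_card (Finset.sdiff_subset_sdiff (Finset.Subset.refl _) Finset.subset_union_right)
  have h3 := Finset.card_union_add_card_inter (En N c v \ X) (En N c v \ Y)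
  rw [← Finset.sdiff_inter_distrib_right, ← Finset.sdiff_union_distrib] at h3
  rw [if_pos hv']
  simp only [Finset.mem_inter]
  rw [Finset.mem_union] at hv'
  by_cases e1 : v ∈ X <;> by_cases e2 : v ∈ Y <;> simp only [e1, e2, and_self, and_true,
    and_false, if_true, if_false, or_self] at hv' ⊢ <;> omega

theorem wbasic_half (hs : Sym N) (ho : Ok k N (X ∪ Y) c) :
    cutp N c hv (X \ Y) ≤ ∑ v ∈ X \ Y, ((En N c v \ X).card + ind (hv v)) +
      ∑ v ∈ Y ∩ X, ((En N c v \ Y).card + ind (hv v)) := by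
  have h1 : cutp N c hv (X \ Y) ≤ ∑ v ∈ X \ Y, ((En N c v \ X).card + ind (hv v)) +
      ∑ v ∈ X \ Y, ∑ u ∈ Y ∩ X, if u ∈ En N c v then 1 else 0 := by
    rw [cutp, ← Finset.sum_add_distrib]
    refine Finset.sum_le_sum fun v _ => ?_
    rw [← Finset.card_filter]
    have h2 : En N c v \ (X \ Y) ⊆ (En N c v \ X) ∪ (Y ∩ X).filter fun u => u ∈ En N c v := by
      intro u hu
      simp only [Finset.mem_sdiff, Finset.mem_union, Finset.mem_filter, Finset.mem_inter] at hu ⊢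
      tauto
    have h3 := (Finset.card_le_card h2).trans (Finset.card_union_le _ _)
    omega
  refine h1.trans (Nat.add_le_add_left ?_ _)
  rw [Finset.sum_comm]
  refine Finset.sum_le_sum fun u hu => ?_
  rw [← Finset.card_filter]
  refine (Finset.card_le_card fun v hv' => ?_).trans (Nat.le_add_right _ _)
  obtain ⟨h2, h3⟩ := Finset.mem_filter.1 hv'
  obtain ⟨h4, h5⟩ := Finset.mem_sdiff.1 h2
  exact Finset.mem_sdiff.2 ⟨En_symm hs ho (Finset.mem_union_right _ (Finset.mem_inter.1 hu).1)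
    (Finset.mem_union_left _ h4) h3, h5⟩

/-- An edge from `X \ Y` to `X ∩ Y` is counted, in the other direction, in the cut of `Y` only if
it leaves `Y`: it does.  Use the symmetry of `En` on `X ∪ Y`. -/
theorem cutp_posi (hs : Sym N) (ho : Ok k N (X ∪ Y) c) :
    cutp N c hv (X \ Y) + cutp N c hv (Y \ X) ≤ cutp N c hv X + cutp N c hv Y := by
  have h1 := wbasic_half (hv := hv) hs ho
  have h2 := wbasic_half (hv := hv) hs (Finset.union_comm X Y ▸ ho)
  have h3 := wbasic_split (fun v => (En N c v \ X).card + ind (hv v)) X Y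
  have h4 := wbasic_split (fun v => (En N c v \ Y).card + ind (hv v)) Y X
  rw [← cutp] at h3 h4
  omega

theorem cutp_le_of_closed (h : X ⊆ Z) (hc : ∀ v ∈ X, ∀ u ∈ En N c v, u ∈ Z → u ∈ X) :
    cutp N c hv X ≤ cutp N c hv Z := by
  refine (Finset.sum_le_sum fun v hv' => ?_).trans (Finset.sum_le_sum_of_subset h)
  refine Nat.add_le_add_right (Finset.card_le_card fun u hu => ?_) _
  obtain ⟨h1, h2⟩ := Finset.mem_sdiff.1 hu
  exact Finset.mem_sdiff.2 ⟨h1, fun e => h2 (hc v hv' u h1 e)⟩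

theorem cutp_oneEdge (h : OneEdge N X c c1 t t' γ) (hγ : γ ≠ 0) (hY : Y ⊆ X) :
    cutp N c1 hv Y + ind (t ∈ Y) = cutp N c hv Y := by
  have h1 : ∀ v ∈ Y, (En N c1 v \ Y).card + ind (hv v) + (if v = t then 1 else 0) =
      (En N c v \ Y).card + ind (hv v) := fun v hv' => by
    split_ifs with e
    · subst e
      have h2 : En N c1 v \ Y = (En N c v \ Y).erase t' := by
        ext u
        simp only [Finset.mem_sdiff, Finset.mem_erase, mem_En, h.rows v h.mem u, true_and]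
        by_cases e' : u = t' <;> simp [e', hγ]
      have h3 := Finset.card_erase_add_one (Finset.mem_sdiff.2 ⟨h.unc, fun e => h.out (hY e)⟩)
      rw [h2]
      omega
    · have h2 : En N c1 v = En N c v := by
        ext u
        simp only [mem_En, h.rows v (hY hv') u, e, false_and, if_false]
      rw [h2, add_zero]
  rw [cutp, cutp, ← Finset.sum_congr rfl h1, Finset.sum_add_distrib (g := fun v =>
    if v = t then 1 else 0), Finset.sum_ite_eq' Y t, ind]
  congr

theorem cutp_ext (h : Ext k N X c c') : cutp N c' hv X = cutp N c hv X := by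
  refine Finset.sum_congr rfl fun v hv' => ?_
  congr 2
  ext u
  simp only [Finset.mem_sdiff, mem_En]
  exact and_congr_left fun e => by rw [h.keep v hv' u (Or.inl e)]

theorem cutp_zero (h : cutp N c hv X = 0) : ∀ v ∈ X, En N c v ⊆ X ∧ ¬ hv v := by
  intro v hv'
  have h1 := Finset.sum_eq_zero_iff.1 h v hv'
  rw [Nat.add_eq_zero_iff, Finset.card_eq_zero, Finset.sdiff_eq_empty_iff_subset] at h1
  exact ⟨h1.1, fun e => by simpa [ind, e] using h1.2⟩

/-- Every deficient family contains a minimal one (take an odd deficient subfamily of least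
size). -/
theorem exists_minDef (hF : ∀ a ∈ F, rp nd a = a ∧ cutp N c hv (nd a) = D) (ho : Odd F.card)
    (hc : cutp N c hv (F.biUnion nd) < D) : ∃ F0 ⊆ F, MinDef N c hv nd D F0 := by
  obtain ⟨F0, h0, hmin⟩ := Finset.exists_min_image (F.powerset.filter fun F' =>
    Odd F'.card ∧ cutp N c hv (F'.biUnion nd) < D) Finset.card
    ⟨F, Finset.mem_filter.2 ⟨Finset.mem_powerset_self F, ho, hc⟩⟩
  obtain ⟨h1, h2, h3⟩ := Finset.mem_filter.1 h0
  rw [Finset.mem_powerset] at h1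
  refine ⟨F0, h1, fun a ha => (hF a (h1 ha)).1, h2, fun a ha => (hF a (h1 ha)).2, h3,
    fun F' h4 h5 => ?_⟩
  by_contra h6
  have h7 := hmin F' (Finset.mem_filter.2
    ⟨Finset.mem_powerset.2 (h4.subset.trans h1), h5, not_le.1 h6⟩)
  exact absurd (Finset.card_lt_card h4) (not_lt.2 h7)

theorem oneEdge_ok (ho : Ok k N X c) (h : OneEdge N X c c1 t t' γ) (hγ : γ ≤ k + 2)
    (hu : ∀ v, c t v ≠ γ) : Ok k N X c1 := by
  refine ⟨fun u hu' v hv' => ?_, fun u hu' v => ?_, fun u hu' v w => ?_, fun u hu' v => ?_⟩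
  · rw [h.rows u hu', h.rows v hv', if_neg fun e : u = t ∧ v = t' => h.out (e.2 ▸ hv'),
      if_neg fun e : v = t ∧ u = t' => h.out (e.2 ▸ hu')]
    exact ho.symm u hu' v hv'
  · rw [h.rows u hu']
    split_ifs with e
    · rw [e.1, e.2]
      exact fun _ => (mem_En.1 h.unc).1
    · exact ho.edge u hu' v
  · rw [h.rows u hu', h.rows u hu']
    split_ifs with e e' e'
    · exact fun _ _ => e.2.trans e'.2.symm
    · exact fun _ e'' => absurd (e.1 ▸ e'').symm (hu w)
    · exact fun _ e'' => absurd (e'.1 ▸ e'') (hu v)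
    · exact ho.inj u hu' v w
  · rw [h.rows u hu']
    split_ifs
    · exact hγ
    · exact ho.le u hu' v

theorem OneEdge.mono (h : OneEdge N X c c1 t t' γ) (hY : Y ⊆ X) (ht : t ∈ Y) :
    OneEdge N Y c c1 t t' γ := by
  exact ⟨ht, fun e => h.out (hY e), h.unc, fun u hu => h.rows u (hY hu)⟩

theorem OneEdge.row (h : OneEdge N X c c1 t t' γ) (hu : u ∈ X) (ht : u ≠ t) : c1 u = c u := by
  funext v
  rw [h.rows u hu, if_neg fun e => ht e.1]

theorem pal_card {d : ℕ} (h : d ≤ k) : (Pal k d).card = d + 1 := by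
  rw [Pal, Finset.card_insert_of_notMem (by simp; omega)]
  simp

theorem pal_erase {d : ℕ} (h1 : 1 ≤ d) (h : d ≤ k) :
    (Pal k d).erase d = Pal k (d - 1) ∧ d ∉ Pal k (d - 1) ∧ insert d (Pal k (d - 1)) = Pal k d := by
  refine ⟨?_, ?_, ?_⟩
  · ext x
    simp only [Pal, Finset.mem_erase, Finset.mem_insert, Finset.mem_Icc]
    omega
  · simp only [Pal, Finset.mem_insert, Finset.mem_Icc]
    omega
  · ext x
    simp only [Pal, Finset.mem_insert, Finset.mem_Icc]
    omega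

end Pool.Agent.Lib.MP_459a07_lc.V
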