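import Pool.Agent.Lib.MP_459a07_lc.WKempe

set_option autoImplicit false

namespace Pool.Agent.Lib.MP_459a07_lc.V

open Classical

variable {Ω Γ R : Finset ℕ} {s y w : ℕ} {zn : ℕ → ℕ → Finset ℕ} {E : ℕ → Finset ℕ}

/-- Remove the zones equal to `R`. -/
noncomputable def zdel (zn : ℕ → ℕ → Finset ℕ) (R : Finset ℕ) : ℕ → ℕ → Finset ℕ :=
  fun γ u => if zn γ u = R then ∅ else zn γ u

/-- `R` is a zone of `γ0` that contains no smaller zone. -/
structure MinZ (zn : ℕ → ℕ → Finset ℕ) (γ0 : ℕ) (R : Finset ℕ) : Prop where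
  ne : R.Nonempty
  eq : ∀ u ∈ R, zn γ0 u = R
  min : ∀ γ u, u ∈ zn γ u → zn γ u ⊆ R → zn γ u = R

/-- The points of `R` with an edge leaving `R`. -/
noncomputable def bdry (E : ℕ → Finset ℕ) (R : Finset ℕ) : Finset ℕ :=
  R.filter fun v => ¬ E v ⊆ R

/-- Keep the edges not inside `R` and the edges inside the boundary that are not in `J`. -/
noncomputable def Edel (E : ℕ → Finset ℕ) (R : Finset ℕ) (J : ℕ → ℕ) (v : ℕ) : Finset ℕ :=
  (E v).filter fun u => ¬ (v ∈ R ∧ u ∈ R) ∨ (v ∈ bdry E R ∧ u ∈ bdry E R ∧ J v ≠ u)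

theorem exists_minZ (hZ : Zs Ω Γ s zn) (h : ∃ γ u, u ∈ zn γ u) : ∃ γ0 R, MinZ zn γ0 R := by
  have hex : ∃ n, ∃ γ u, u ∈ zn γ u ∧ (zn γ u).card = n := by
    obtain ⟨γ, u, hu⟩ := h
    exact ⟨_, γ, u, hu, rfl⟩
  obtain ⟨γ0, u0, h0, hc⟩ := Nat.find_spec hex
  refine ⟨γ0, zn γ0 u0, ⟨u0, h0⟩, fun u hu => hZ.cls _ _ _ hu, fun γ u hu hsub => ?_⟩
  refine Finset.eq_of_subset_of_card_le hsub ?_
  rw [hc]
  exact Nat.find_min' hex ⟨γ, u, hu, rfl⟩

theorem minZ_sub (hZ : Zs Ω Γ s zn) {γ0 γ u : ℕ} (hR : MinZ zn γ0 R) (hu : u ∈ R)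
    (h : u ∈ zn γ u) : R ⊆ zn γ u := by
  have e := hR.eq u hu
  rcases hZ.lam γ γ0 u h (by rw [e]; exact hu) with h1 | h1
  · rw [e] at h1
    exact (hR.min γ u h h1).ge
  · rwa [e] at h1

theorem wzf_sub (zn : ℕ → ℕ → Finset ℕ) (R : Finset ℕ) (γ u : ℕ) : zdel zn R γ u ⊆ zn γ u := by
  unfold zdel
  split_ifs
  · exact Finset.empty_subset _
  · exact Finset.Subset.refl _

theorem wzf_ne {γ u : ℕ} (h : zn γ u ≠ R) : zdel zn R γ u = zn γ u := if_neg h

theorem wzf_mem {γ u v : ℕ} (h : v ∈ zdel zn R γ u) : zn γ u ≠ R ∧ v ∈ zn γ u := by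
  refine ⟨fun e => ?_, wzf_sub zn R γ u h⟩
  unfold zdel at h
  rw [if_pos e] at h
  exact Finset.notMem_empty _ h

theorem zdel_spec (hZ : Zs Ω Γ s zn) {γ0 : ℕ} (hR : MinZ zn γ0 R) :
    Zs Ω Γ s (zdel zn R) ∧ (∀ u, u ∉ R → ∀ γ, zdel zn R γ u = zn γ u) ∧
      (∀ u ∈ R, npal Γ (zdel zn R) u = nup Γ zn R u) ∧
      (∀ u ∈ R, ∀ v ∈ R, nup Γ zn R u = nup Γ zn R v) ∧
      ∀ γ u, u ∈ zn γ u → nup Γ (zdel zn R) (zn γ u) u = nup Γ zn (zn γ u) u := by
  have hout : ∀ u, u ∉ R → ∀ γ, zdel zn R γ u = zn γ u := by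
    intro u hu γ
    unfold zdel
    split_ifs with e
    · rcases hZ.self γ u with h | h
      · exact (hu (e ▸ h)).elim
      · exact h.symm
    · rfl
  refine ⟨⟨hZ.sΓ, hZ.s0, hZ.Γ0, fun γ u => ?_, fun γ u v hv => ?_, fun γ u => ?_,
    fun γ u hγ => ?_, fun γ γ' u h1 h2 => ?_⟩, hout, fun u hu => ?_, fun u hu v hv => ?_,
    fun γ u hu => ?_⟩
  · unfold zdel
    split_ifs
    · exact Or.inr rfl
    · exact hZ.self γ u
  · obtain ⟨h1, h2⟩ := wzf_mem hv
    unfold zdel
    rw [hZ.cls γ u v h2]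
  · exact (wzf_sub zn R γ u).trans (hZ.sub γ u)
  · exact Finset.subset_empty.1 (hZ.off γ u hγ ▸ wzf_sub zn R γ u)
  · obtain ⟨a1, a2⟩ := wzf_mem h1
    obtain ⟨b1, b2⟩ := wzf_mem h2
    rw [wzf_ne a1, wzf_ne b1]
    exact hZ.lam γ γ' u a2 b2
  · unfold npal nup
    congr 1
    refine Finset.filter_congr fun γ _ => ⟨fun h => ?_, fun h => ?_⟩
    · obtain ⟨a1, a2⟩ := wzf_mem h
      exact Finset.ssubset_iff_subset_ne.2 ⟨minZ_sub hZ hR hu a2, fun e => a1 e.symm⟩
    · rw [wzf_ne h.ne']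
      exact h.subset hu
  · unfold nup
    congr 1
    refine Finset.filter_congr fun γ _ => ⟨fun h => ?_, fun h => ?_⟩
    · rwa [hZ.cls γ u v (h.subset hv)]
    · rwa [hZ.cls γ v u (h.subset hu)]
  · unfold nup
    congr 1
    refine Finset.filter_congr fun γ' _ => ⟨fun h => ?_, fun h => ?_⟩
    · exact Finset.ssubset_of_ssubset_of_subset h (wzf_sub zn R γ' u)
    · rw [wzf_ne]
      · exact h
      · intro e
        rw [e] at h
        exact h.ne (hR.min γ u hu h.subset)

/-- Pair up the points of `T`, using `y` if their number is odd (strong induction on `T.card`). -/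
theorem exists_pairing (T : Finset ℕ) (hy : y ∉ T) : ∃ J : ℕ → ℕ, (∀ v, J (J v) = v) ∧
    (∀ v ∈ T, J v ≠ v) ∧ ∀ v, J v ≠ v → v ∈ T ∨ v = y := by
  have add : ∀ (J : ℕ → ℕ) (a b : ℕ), (∀ v, J (J v) = v) → J a = a → J b = b → a ≠ b →
      ∃ J' : ℕ → ℕ, (∀ v, J' (J' v) = v) ∧ J' a = b ∧ J' b = a ∧
        ∀ v, v ≠ a → v ≠ b → J' v = J v := by
    intro J a b hJ ha hb hab
    refine ⟨fun v => if v = a then b else if v = b then a else J v, fun v => ?_, by simp,
      by simp [hab.symm], fun v h1 h2 => by simp [h1, h2]⟩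
    by_cases h1 : v = a
    · simp [h1, hab.symm]
    · by_cases h2 : v = b
      · simp [h2, hab.symm]
      · have h3 : J v ≠ a := fun e => h1 (by rw [← hJ v, e, ha])
        have h4 : J v ≠ b := fun e => h2 (by rw [← hJ v, e, hb])
        simp [h1, h2, h3, h4, hJ v]
  induction T using Finset.strongInduction with
  | H T ih =>
    rcases T.eq_empty_or_nonempty with rfl | ⟨a, ha⟩
    · exact ⟨id, fun _ => rfl, fun v hv => absurd hv (Finset.notMem_empty v),
        fun v hv => (hv rfl).elim⟩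
    · have hay : a ≠ y := fun e => hy (e ▸ ha)
      by_cases hb : ∃ b ∈ T, b ≠ a
      · obtain ⟨b, hb, hba⟩ := hb
        have hby : b ≠ y := fun e => hy (e ▸ hb)
        obtain ⟨J, h1, h2, h3⟩ := ih ((T.erase a).erase b)
          (Finset.ssubset_of_subset_of_ssubset (Finset.erase_subset _ _) (Finset.erase_ssubset ha))
          (fun h => hy (Finset.mem_of_mem_erase (Finset.mem_of_mem_erase h)))
        have hJa : J a = a := by
          by_contra e
          rcases h3 a e with h | h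
          · simp at h
          · exact hay h
        have hJb : J b = b := by
          by_contra e
          rcases h3 b e with h | h
          · simp at h
          · exact hby h
        obtain ⟨J', g1, g2, g3, g4⟩ := add J a b h1 hJa hJb hba.symm
        refine ⟨J', g1, fun v hv => ?_, fun v hv => ?_⟩
        · by_cases e1 : v = a
          · rw [e1, g2]; exact hba
          · by_cases e2 : v = b
            · rw [e2, g3]; exact hba.symm
            · rw [g4 v e1 e2]
              exact h2 v (Finset.mem_erase.2 ⟨e2, Finset.mem_erase.2 ⟨e1, hv⟩⟩)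
        · by_cases e1 : v = a
          · exact Or.inl (e1 ▸ ha)
          · by_cases e2 : v = b
            · exact Or.inl (e2 ▸ hb)
            · rw [g4 v e1 e2] at hv
              exact (h3 v hv).imp_left fun h =>
                Finset.mem_of_mem_erase (Finset.mem_of_mem_erase h)
      · obtain ⟨J', g1, g2, g3, g4⟩ := add id a y (fun _ => rfl) rfl rfl hay
        refine ⟨J', g1, fun v hv => ?_, fun v hv => ?_⟩
        · have e : v = a := by
            by_contra e
            exact hb ⟨v, hv, e⟩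
          rw [e, g2]
          exact hay.symm
        · by_cases e1 : v = a
          · exact Or.inl (e1 ▸ ha)
          · by_cases e2 : v = y
            · exact Or.inr e2
            · exact (hv (g4 v e1 e2)).elim

/-- For `v` in the boundary `B`, every other point of `B` has an edge leaving `R`, so
`|E v \ R| + |E v ∩ B| ≤ |E v \ R| + |B| - 1 ≤ ecut E R`, with equality only if `v` is adjacent
to all other points of `B`. -/
theorem bdry_deg (hi : Irr E) {v : ℕ} (hv : v ∈ bdry E R) :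
    (E v \ R).card + (E v ∩ bdry E R).card ≤ ecut E R ∧
      ((E v \ R).card + (E v ∩ bdry E R).card = ecut E R → ∀ u ∈ bdry E R, u ≠ v → u ∈ E v) := by
  have hvR : v ∈ R := (Finset.mem_filter.1 hv).1
  have h1 : E v ∩ bdry E R ⊆ (bdry E R).erase v := fun u hu =>
    Finset.mem_erase.2 ⟨fun e => hi v (e ▸ (Finset.mem_inter.1 hu).1), (Finset.mem_inter.1 hu).2⟩
  have h2 : ((bdry E R).erase v).card ≤ ∑ u ∈ R.erase v, (E u \ R).card := by
    calc ((bdry E R).erase v).card = ∑ _u ∈ (bdry E R).erase v, 1 := by simp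
      _ ≤ ∑ u ∈ (bdry E R).erase v, (E u \ R).card := by
          refine Finset.sum_le_sum fun u hu => Finset.card_pos.2 ?_
          exact Finset.sdiff_nonempty.2 (Finset.mem_filter.1 (Finset.mem_of_mem_erase hu)).2
      _ ≤ _ := Finset.sum_le_sum_of_subset
          (Finset.erase_subset_erase _ (Finset.filter_subset _ _))
  have h3 : ecut E R = (E v \ R).card + ∑ u ∈ R.erase v, (E u \ R).card :=
    (Finset.add_sum_erase R (fun u => (E u \ R).card) hvR).symm
  have h4 := Finset.card_le_card h1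
  refine ⟨by omega, fun he u hu huv => ?_⟩
  have h5 : E v ∩ bdry E R = (bdry E R).erase v :=
    Finset.eq_of_subset_of_card_le h1 (by omega)
  have h6 : u ∈ E v ∩ bdry E R := by
    rw [h5]
    exact Finset.mem_erase.2 ⟨huv, hu⟩
  exact (Finset.mem_inter.1 h6).1

theorem wzf_ind_le {p q : Prop} (h : p → q) : ind p ≤ ind q := by
  unfold ind
  by_cases hp : p
  · rw [if_pos hp, if_pos (h hp)]
  · rw [if_neg hp]
    exact Nat.zero_le _

theorem wzf_ind_one (p : Prop) : ind p ≤ 1 := by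
  unfold ind
  split_ifs <;> omega

theorem wzf_Esub (E : ℕ → Finset ℕ) (R : Finset ℕ) (J : ℕ → ℕ) (v : ℕ) : Edel E R J v ⊆ E v :=
  Finset.filter_subset _ _

theorem wzf_Emem {J : ℕ → ℕ} {u v : ℕ} (h : u ∈ E v) (h' : ¬ (v ∈ R ∧ u ∈ R)) :
    u ∈ Edel E R J v := Finset.mem_filter.2 ⟨h, Or.inl h'⟩

theorem wzf_Ecard (J : ℕ → ℕ) {v : ℕ} (hv : v ∈ R) :
    (Edel E R J v).card ≤ (E v \ R).card + ((E v ∩ bdry E R).erase (J v)).card := by
  refine le_trans (Finset.card_le_card fun u hu => ?_) (Finset.card_union_le _ _)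
  obtain ⟨h1, h2⟩ := Finset.mem_filter.1 hu
  rcases h2 with h2 | ⟨-, h2, h3⟩
  · exact Finset.mem_union_left _ (Finset.mem_sdiff.2 ⟨h1, fun h => h2 ⟨hv, h⟩⟩)
  · exact Finset.mem_union_right _
      (Finset.mem_erase.2 ⟨h3.symm, Finset.mem_inter.2 ⟨h1, h2⟩⟩)

/-- It is enough to check the degrees of the boundary points. -/
theorem wzf_zd (hZ : Zs Ω Γ s zn) (hD : ZD Γ zn E y w) {γ0 : ℕ} (hR : MinZ zn γ0 R) (J : ℕ → ℕ)
    (hB : ∀ v ∈ bdry E R, (Edel E R J v).card ≤ nup Γ zn R v +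
      ind (w ∈ E y ∧ w ∉ R ∧ v = y)) : ZD Γ (zdel zn R) (Edel E R J) y w := by
  obtain ⟨-, z2, z3, -, z5⟩ := zdel_spec hZ hR
  refine ⟨fun v => ?_, fun γ u hu => ?_⟩
  · by_cases hv : v ∈ R
    · by_cases hb : v ∈ bdry E R
      · rw [z3 v hv]
        refine (hB v hb).trans (Nat.add_le_add_left (wzf_ind_le fun h => ?_) _)
        exact ⟨wzf_Emem h.1 fun h' => h.2.1 h'.2, Or.inl h.2.2⟩
      · have e : Edel E R J v = ∅ := by
          refine Finset.filter_eq_empty_iff.2 fun u hu h => ?_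
          rcases h with h | h
          · refine h ⟨hv, ?_⟩
            by_contra hn
            exact hb (Finset.mem_filter.2 ⟨hv, fun hs => hn (hs hu)⟩)
          · exact hb h.1
        rw [e]
        exact Nat.zero_le _
    · have e : npal Γ (zdel zn R) v = npal Γ zn v := by
        unfold npal
        congr 1
        exact Finset.filter_congr fun γ _ => by rw [z2 v hv γ]
      refine (Finset.card_le_card (wzf_Esub E R J v)).trans ((hD.vert v).trans ?_)
      rw [e]
      refine Nat.add_le_add_left (wzf_ind_le ?_) _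
      rintro ⟨h1, h2 | ⟨h2, h3⟩⟩
      · exact ⟨wzf_Emem h1 fun h' => hv (h2 ▸ h'.1), Or.inl h2⟩
      · refine ⟨wzf_Emem h1 fun h' => hv (h2 ▸ h'.2), Or.inr ⟨h2, ?_⟩⟩
        rw [← h2, e, h2, h3]
  · obtain ⟨a1, a2⟩ := wzf_mem hu
    rw [wzf_ne a1, z5 γ u a2]
    have h1 : ecut (Edel E R J) (zn γ u) ≤ ecut E (zn γ u) :=
      Finset.sum_le_sum fun v _ =>
        Finset.card_le_card (Finset.sdiff_subset_sdiff (wzf_Esub E R J v) (Finset.Subset.refl _))
    refine h1.trans ((hD.zone γ u a2).trans (Nat.add_le_add_left (wzf_ind_le ?_) _))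
    rintro ⟨b1, b2, b3⟩
    refine ⟨wzf_Emem b1 fun h' => b3 ?_, b2, b3⟩
    have e := hZ.cls γ u y b2
    have := minZ_sub hZ hR h'.1 (γ := γ) (by rw [e]; exact b2)
    rw [e] at this
    exact this h'.2

/-- Let `q = nup R`.  If not (`w ∈ E y`, `y ∈ R`, `w ∉ R`) then `ecut E R ≤ q` and `J = id` works.
Otherwise `y` is in the boundary; pair up (`exists_pairing`) the points `v ≠ y` of the boundary
with `|E v \ R| + |E v ∩ B| = q + 1`.  Zones other than `R` contain `R` or are disjoint from it,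
so their cuts do not change; if `y w` is deleted, both ends are in `R`. -/
theorem zd_step (hZ : Zs Ω Γ s zn) (hs : Sym E) (hi : Irr E) (hD : ZD Γ zn E y w) {γ0 : ℕ}
    (hR : MinZ zn γ0 R) : ∃ J : ℕ → ℕ, (∀ v, J (J v) = v) ∧
      (∀ v, J v ≠ v → v ∈ bdry E R ∧ J v ∈ E v) ∧ ZD Γ (zdel zn R) (Edel E R J) y w := by
  have hcut : ∀ v ∈ R, ecut E R ≤ nup Γ zn R v + ind (w ∈ E y ∧ y ∈ R ∧ w ∉ R) := by
    intro v hv
    have e := hR.eq v hv
    have := hD.zone γ0 v (by rw [e]; exact hv)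
    rwa [e] at this
  by_cases hA : w ∈ E y ∧ y ∈ R ∧ w ∉ R
  · have hyB : y ∈ bdry E R := Finset.mem_filter.2 ⟨hA.2.1, fun h => hA.2.2 (h hA.1)⟩
    obtain ⟨J, j1, j2, j3⟩ := exists_pairing (y := y) (((bdry E R).erase y).filter fun v =>
      (E v \ R).card + (E v ∩ bdry E R).card = nup Γ zn R v + 1) (by simp)
    have hfull : ∀ v ∈ ((bdry E R).erase y).filter fun v =>
        (E v \ R).card + (E v ∩ bdry E R).card = nup Γ zn R v + 1,
        v ∈ bdry E R ∧ ∀ u ∈ bdry E R, u ≠ v → u ∈ E v := by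
      intro v hv
      obtain ⟨h1, h2⟩ := Finset.mem_filter.1 hv
      have hb := Finset.mem_of_mem_erase h1
      have h3 := bdry_deg hi hb
      have h4 := hcut v (Finset.mem_filter.1 hb).1
      have h5 := wzf_ind_one (w ∈ E y ∧ y ∈ R ∧ w ∉ R)
      exact ⟨hb, h3.2 (by omega)⟩
    have hmemB : ∀ v, J v ≠ v → v ∈ bdry E R := fun v hv =>
      (j3 v hv).elim (fun h => (hfull v h).1) fun h => h ▸ hyB
    have hJJ : ∀ v, J v ≠ v → J (J v) ≠ J v := fun v hv => by
      rw [j1 v]
      exact hv.symm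
    have hedge : ∀ v, J v ≠ v → J v ∈ E v := by
      intro v hv
      rcases j3 v hv with h | h
      · exact (hfull v h).2 _ (hmemB _ (hJJ v hv)) hv
      · rcases j3 _ (hJJ v hv) with h' | h'
        · exact hs _ _ ((hfull _ h').2 v (hmemB v hv) hv.symm)
        · exact (hv (h'.trans h.symm)).elim
    refine ⟨J, j1, fun v hv => ⟨hmemB v hv, hedge v hv⟩, wzf_zd hZ hD hR J fun v hv => ?_⟩
    have hvR : v ∈ R := (Finset.mem_filter.1 hv).1
    have h1 := wzf_Ecard (E := E) J hvR
    have h2 := (bdry_deg hi hv).1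
    have h3 := hcut v hvR
    have h4 := wzf_ind_one (w ∈ E y ∧ y ∈ R ∧ w ∉ R)
    have h5 : ((E v ∩ bdry E R).erase (J v)).card ≤ (E v ∩ bdry E R).card :=
      Finset.card_le_card (Finset.erase_subset _ _)
    by_cases hvy : v = y
    · have : ind (w ∈ E y ∧ w ∉ R ∧ v = y) = 1 := if_pos ⟨hA.1, hA.2.2, hvy⟩
      omega
    · by_cases ht : (E v \ R).card + (E v ∩ bdry E R).card = nup Γ zn R v + 1
      · have h6 := j2 v (Finset.mem_filter.2 ⟨Finset.mem_erase.2 ⟨hvy, hv⟩, ht⟩)
        have h7 : J v ∈ E v ∩ bdry E R := Finset.mem_inter.2 ⟨hedge v h6, hmemB _ (hJJ v h6)⟩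
        have h8 := Finset.card_erase_add_one h7
        omega
      · omega
  · refine ⟨id, fun _ => rfl, fun v hv => (hv rfl).elim, wzf_zd hZ hD hR id fun v hv => ?_⟩
    have hvR : v ∈ R := (Finset.mem_filter.1 hv).1
    have h1 := wzf_Ecard (E := E) id hvR
    have h2 := (bdry_deg hi hv).1
    have h3 := hcut v hvR
    have h4 : ind (w ∈ E y ∧ y ∈ R ∧ w ∉ R) = 0 := if_neg hA
    have h5 : ((E v ∩ bdry E R).erase (id v)).card ≤ (E v ∩ bdry E R).card :=
      Finset.card_le_card (Finset.erase_subset _ _)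
    omega

/-- The nested form of Vizing's theorem.  Induction on the number of pairs `γ ∈ Γ`, `u ∈ Ω` with
`u ∈ zn γ u`.  Without zones only the edge `y w` can exist; give it colour `s`.  Otherwise colour
`Edel` for `zdel`, give the edges `v, J v` the colour `γ0` (unused in `R`), and use `fill` with
`I x = (x ∈ R ∧ E x ⊆ R)`. -/
theorem zf (hZ : Zs Ω Γ s zn) (hs : Sym E) (hi : Irr E) {W : Finset ℕ}
    (hW : ∀ u v, v ∈ E u → u ∈ W) (hD : ZD Γ zn E y w) :
    ∃ g, ZC s zn E g ∧ ∀ u, ∀ v ∈ E u, g u v ≠ 0 := by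
  induction hn : ((Γ ×ˢ Ω).filter fun p => p.2 ∈ zn p.1 p.2).card using Nat.strong_induction_on
    generalizing zn E with
  | _ n ih =>
    by_cases hex : ∃ γ u, u ∈ zn γ u
    · obtain ⟨γ0, R, hR⟩ := exists_minZ hZ hex
      obtain ⟨J, j1, j2, hD'⟩ := zd_step hZ hs hi hD hR
      obtain ⟨u0, hu0⟩ := hR.ne
      have hγ : γ0 ∈ Γ := by
        by_contra hn'
        have := hZ.off γ0 u0 hn'
        rw [hR.eq u0 hu0] at this
        exact Finset.notMem_empty _ (this ▸ hu0)
      have hγ0 : γ0 ≠ 0 := fun e => hZ.Γ0 (e ▸ hγ)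
      have hγs : γ0 ≠ s := fun e => hZ.sΓ (e ▸ hγ)
      have hJ : ∀ u v, J u = v ↔ J v = u := fun u v =>
        ⟨fun h => by rw [← h, j1], fun h => by rw [← h, j1]⟩
      have hlt : ((Γ ×ˢ Ω).filter fun p => p.2 ∈ zdel zn R p.1 p.2).card < n := by
        rw [← hn]
        refine Finset.card_lt_card (Finset.ssubset_iff_subset_ne.2 ⟨fun p hp => ?_, fun e => ?_⟩)
        · exact Finset.mem_filter.2 ⟨(Finset.mem_filter.1 hp).1,
            (wzf_mem (Finset.mem_filter.1 hp).2).2⟩
        · have h1 : (γ0, u0) ∈ (Γ ×ˢ Ω).filter fun p => p.2 ∈ zn p.1 p.2 := by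
            have h2 : u0 ∈ zn γ0 u0 := by
              rw [hR.eq u0 hu0]
              exact hu0
            exact Finset.mem_filter.2 ⟨Finset.mem_product.2 ⟨hγ, hZ.sub γ0 u0 h2⟩, h2⟩
          rw [← e] at h1
          exact (wzf_mem (Finset.mem_filter.1 h1).2).1 (hR.eq u0 hu0)
      have hs' : Sym (Edel E R J) := by
        intro a b hb
        obtain ⟨h1, h2⟩ := Finset.mem_filter.1 hb
        refine Finset.mem_filter.2 ⟨hs a b h1, h2.imp (fun h h' => h ⟨h'.2, h'.1⟩)
          fun h => ⟨h.2.1, h.1, fun e => h.2.2 ((hJ b a).1 e)⟩⟩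
      obtain ⟨g, hg, hgt⟩ := ih _ hlt (zdel_spec hZ hR).1 hs'
        (fun a ha => hi a (wzf_Esub E R J a ha))
        (fun u v hv => hW u v (wzf_Esub E R J u hv)) hD' rfl
      have hBR : ∀ v, v ∈ bdry E R → v ∈ R := fun v hv => (Finset.mem_filter.1 hv).1
      have hunused : ∀ u v, J u ≠ u → g u v ≠ γ0 := by
        intro u v hu e
        rcases hg.zone u v (by rw [e]; exact hγ0) with h | h
        · exact hγs (e.symm.trans h)
        · rw [e] at h
          exact (wzf_mem h).1 (hR.eq u (hBR u (j2 u hu).1))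
      let f : Col := fun u v => if J u = v ∧ u ≠ v then γ0 else g u v
      have f1 : ∀ u v, J u = v ∧ u ≠ v → f u v = γ0 := fun u v h => if_pos h
      have f2 : ∀ u v, ¬ (J u = v ∧ u ≠ v) → f u v = g u v := fun u v h => if_neg h
      have hmov : ∀ u v, J u = v ∧ u ≠ v → J u ≠ u := fun u v h e => h.2 (e.symm.trans h.1)
      have hf : ZC s zn E f := by
        refine ⟨fun u v => ?_, fun u v h => ?_, fun u v v' h e => ?_, fun u v h => ?_⟩
        · by_cases c : J u = v ∧ u ≠ v
          · rw [f1 u v c, f1 v u ⟨(hJ u v).1 c.1, c.2.symm⟩]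
          · rw [f2 u v c, f2 v u fun c' => c ⟨(hJ v u).1 c'.1, c'.2.symm⟩, hg.symm]
        · by_cases c : J u = v ∧ u ≠ v
          · exact c.1 ▸ (j2 u (hmov u v c)).2
          · rw [f2 u v c] at h
            exact wzf_Esub E R J u (hg.edge u v h)
        · by_cases c : J u = v ∧ u ≠ v
          · by_cases c' : J u = v' ∧ u ≠ v'
            · exact c.1.symm.trans c'.1
            · rw [f1 u v c, f2 u v' c'] at e
              exact (hunused u v' (hmov u v c) e.symm).elim
          · by_cases c' : J u = v' ∧ u ≠ v'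
            · rw [f2 u v c, f1 u v' c'] at e
              exact (hunused u v (hmov u v' c') e).elim
            · rw [f2 u v c] at h
              rw [f2 u v c, f2 u v' c'] at e
              exact hg.inj u v v' h e
        · by_cases c : J u = v ∧ u ≠ v
          · rw [f1 u v c, hR.eq u (hBR u (j2 u (hmov u v c)).1)]
            exact Or.inr (hBR v (j2 v (hmov v u ⟨(hJ u v).1 c.1, c.2.symm⟩)).1)
          · rw [f2 u v c] at h ⊢
            exact (hg.zone u v h).imp_right fun h' => wzf_sub zn R _ u h'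
      have hins : ∀ x, (x ∈ R ∧ E x ⊆ R) → insert x (E x) ⊆ R := fun x hx =>
        Finset.insert_subset hx.1 hx.2
      refine fill (y := y) hZ hs hi hW (fun x => x ∈ R ∧ E x ⊆ R) (fun x hx γ v hv h => ?_)
        (fun γ u hu => ?_) (fun x hx v hv => ?_) hf (fun u v hv h => ?_) ?_
      · exact (hins x hx).trans (minZ_sub hZ hR (hins x hx hv) h)
      · exact (hD.zone γ u hu).trans (Nat.add_le_add_left (wzf_ind_one _) _)
      · refine (hD.vert v).trans (Nat.add_le_add_left (wzf_ind_le ?_) _)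
        rintro ⟨-, h | ⟨h, h'⟩⟩
        · exact h
        · have hvR := hins x hx hv
          have : γ0 ∈ Γ.filter fun γ => w ∈ zn γ w := by
            refine Finset.mem_filter.2 ⟨hγ, ?_⟩
            rw [← h, hR.eq v hvR]
            exact hvR
          rw [Finset.card_eq_zero.1 h'] at this
          exact absurd this (Finset.notMem_empty _)
      · have huv : u ≠ v := fun e => hi u (e ▸ hv)
        have c : ¬ (J u = v ∧ u ≠ v) := fun c => hγ0 ((f1 u v c).symm.trans h)
        rw [f2 u v c] at h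
        have h1 : v ∉ Edel E R J u := fun h' => hgt u v h' h
        have h2 : u ∈ R ∧ v ∈ R := by
          by_contra h'
          exact h1 (wzf_Emem hv h')
        by_contra h3
        refine h1 (Finset.mem_filter.2 ⟨hv, Or.inr ⟨?_, ?_, fun e => c ⟨e, huv⟩⟩⟩)
        · exact Finset.mem_filter.2 ⟨h2.1, fun h' => h3 (Or.inl ⟨h2.1, h'⟩)⟩
        · exact Finset.mem_filter.2 ⟨h2.2, fun h' => h3 (Or.inr ⟨h2.2, h'⟩)⟩
      · by_cases hy : ∃ v ∈ E y, f y v = 0
        · exact Or.inl hy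
        · refine Or.inr fun x hx hyx v hv h0 => ?_
          rcases Finset.mem_insert.1 hyx with e | e
          · exact hy ⟨v, e ▸ hv, e ▸ h0⟩
          · have hxB : x ∉ bdry E R := fun h => (Finset.mem_filter.1 h).2 hx.2
            refine hy ⟨x, hs x y e, ?_⟩
            rw [hf.symm, f2 x y fun c => hxB (j2 x (hmov x y c)).1]
            by_contra h1
            rcases (Finset.mem_filter.1 (hg.edge x y h1)).2 with h2 | h2
            · exact h2 ⟨hx.1, hx.2 e⟩
            · exact hxB h2.1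
    · have h1 : ∀ v, (E v).card ≤ 1 := by
        intro v
        have e : npal Γ zn v = 0 :=
          Finset.card_eq_zero.2 (Finset.filter_eq_empty_iff.2 fun γ _ h => hex ⟨γ, v, h⟩)
        have h2 := hD.vert v
        have h3 := wzf_ind_one (w ∈ E y ∧ (v = y ∨ (v = w ∧ npal Γ zn w = 0)))
        omega
      have hne : ∀ u v, (if v ∈ E u then s else 0) ≠ 0 → v ∈ E u := by
        intro u v h
        by_contra h'
        exact h (if_neg h')
      refine ⟨fun u v => if v ∈ E u then s else 0, ⟨fun u v => ?_, hne, fun u v v' h e => ?_,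
        fun u v h => Or.inl (if_pos (hne u v h))⟩, fun u v hv => ?_⟩
      · by_cases c : v ∈ E u
        · simp only [if_pos c, if_pos (hs u v c)]
        · simp only [if_neg c, if_neg fun c' => c (hs v u c')]
      · exact Finset.card_le_one.1 (h1 u) v (hne u v h) v' (hne u v' (fun h' => h (e.trans h')))
      · simp only [if_pos hv]
        exact hZ.s0

end Pool.Agent.Lib.MP_459a07_lc.V
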