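import Pool.Agent.Lib.MP_459a07_lc.WNm
import Pool.Agent.Lib.MP_459a07_lc.WZF

set_option autoImplicit false

namespace Pool.Agent.Lib.MP_459a07_lc.V

open Classical

variable {k : ℕ} {N : ℕ → Finset ℕ} {c : Col} {hv : ℕ → Prop} {X P Γ : Finset ℕ}
  {s y w γ : ℕ} {b : Bool} {zn : ℕ → ℕ → Finset ℕ}

/-- Add the colour `γ` with the single zone `X`. -/
noncomputable def zadd (X : Finset ℕ) (γ : ℕ) (zn : ℕ → ℕ → Finset ℕ) : ℕ → ℕ → Finset ℕ :=
  fun γ' u => if γ' = γ then (if u ∈ X then X else ∅) else zn γ' u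

theorem wbr_ind_pos {p : Prop} (h : p) : ind p = 1 := if_pos h

theorem wbr_ind_neg {p : Prop} (h : ¬ p) : ind p = 0 := if_neg h

theorem wbr_zadd_ne {γ' u : ℕ} (h : γ' ≠ γ) : zadd X γ zn γ' u = zn γ' u := if_neg h

theorem wbr_zadd_in {u : ℕ} (h : u ∈ X) : zadd X γ zn γ u = X := by
  unfold zadd
  rw [if_pos rfl, if_pos h]

theorem wbr_zadd_out {u : ℕ} (h : u ∉ X) : zadd X γ zn γ u = ∅ := by
  unfold zadd
  rw [if_pos rfl, if_neg h]

theorem wbr_zadd_sub (hZ : Zs X Γ s zn) (γ' u : ℕ) : zadd X γ zn γ' u ⊆ X := by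
  by_cases e : γ' = γ
  · subst e
    by_cases hu : u ∈ X
    · rw [wbr_zadd_in hu]
    · rw [wbr_zadd_out hu]
      exact Finset.empty_subset _
  · rw [wbr_zadd_ne e]
    exact hZ.sub γ' u

theorem wbr_zadd_cases (hZ : Zs X Γ s zn) (γ γ' : ℕ) {u : ℕ} (hu : u ∈ X) :
    zadd X γ zn γ' u = X ∨ (zadd X γ zn γ' u = zn γ' u ∧ zn γ' u ⊂ X) := by
  by_cases e : γ' = γ
  · subst e
    exact Or.inl (wbr_zadd_in hu)
  · rw [wbr_zadd_ne e]
    by_cases e' : zn γ' u = X
    · exact Or.inl e'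
    · exact Or.inr ⟨rfl, Finset.ssubset_iff_subset_ne.2 ⟨hZ.sub γ' u, e'⟩⟩

theorem zadd_spec (hZ : Zs X Γ s zn) (h1 : γ ∉ Γ) (h2 : γ ≠ s) (h3 : γ ≠ 0) :
    Zs X (insert γ Γ) s (zadd X γ zn) ∧
      (∀ u ∈ X, npal (insert γ Γ) (zadd X γ zn) u = npal Γ zn u + 1) ∧
      ∀ u ∈ X, ∀ R, nup (insert γ Γ) (zadd X γ zn) R u = nup Γ zn R u + ind (R ⊂ X) := by
  have hne : ∀ γ' ∈ Γ, ∀ u, zadd X γ zn γ' u = zn γ' u := fun γ' hγ' u =>
    wbr_zadd_ne (fun e => h1 (e ▸ hγ'))
  refine ⟨⟨?_, hZ.s0, ?_, ?_, ?_, ?_, ?_, ?_⟩, ?_, ?_⟩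
  · rw [Finset.mem_insert, not_or]
    exact ⟨h2.symm, hZ.sΓ⟩
  · rw [Finset.mem_insert, not_or]
    exact ⟨h3.symm, hZ.Γ0⟩
  · intro γ' u
    by_cases e : γ' = γ
    · subst e
      by_cases hu : u ∈ X
      · rw [wbr_zadd_in hu]
        exact Or.inl hu
      · exact Or.inr (wbr_zadd_out hu)
    · rw [wbr_zadd_ne e]
      exact hZ.self γ' u
  · intro γ' u v hv
    by_cases e : γ' = γ
    · subst e
      by_cases hu : u ∈ X
      · rw [wbr_zadd_in hu] at hv ⊢
        exact wbr_zadd_in hv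
      · rw [wbr_zadd_out hu] at hv
        exact absurd hv (Finset.notMem_empty _)
    · rw [wbr_zadd_ne e] at hv ⊢
      rw [wbr_zadd_ne e]
      exact hZ.cls γ' u v hv
  · exact fun γ' u => wbr_zadd_sub hZ γ' u
  · intro γ' u hγ'
    rw [Finset.mem_insert, not_or] at hγ'
    rw [wbr_zadd_ne hγ'.1]
    exact hZ.off γ' u hγ'.2
  · intro γ1 γ2 u g1 g2
    have hu : u ∈ X := wbr_zadd_sub hZ γ1 u g1
    by_cases e1 : γ1 = γ
    · subst e1
      rw [wbr_zadd_in hu]
      exact Or.inr (wbr_zadd_sub hZ γ2 u)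
    · by_cases e2 : γ2 = γ
      · subst e2
        rw [wbr_zadd_in hu]
        exact Or.inl (wbr_zadd_sub hZ γ1 u)
      · rw [wbr_zadd_ne e1] at g1 ⊢
        rw [wbr_zadd_ne e2] at g2 ⊢
        exact hZ.lam γ1 γ2 u g1 g2
  · intro u hu
    unfold npal
    rw [Finset.filter_insert, wbr_zadd_in hu, if_pos hu,
      Finset.card_insert_of_notMem fun h => h1 (Finset.mem_filter.1 h).1]
    congr 2
    exact Finset.filter_congr fun γ' hγ' => by rw [hne γ' hγ']
  · intro u hu R
    have e : (Γ.filter fun γ' => R ⊂ zadd X γ zn γ' u) = Γ.filter fun γ' => R ⊂ zn γ' u :=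
      Finset.filter_congr fun γ' hγ' => by rw [hne γ' hγ']
    unfold nup ind
    rw [Finset.filter_insert, wbr_zadd_in hu, e]
    by_cases hR : R ⊂ X
    · rw [if_pos hR, if_pos hR,
        Finset.card_insert_of_notMem fun h => h1 (Finset.mem_filter.1 h).1]
    · rw [if_neg hR, if_neg hR, add_zero]

/-- The zones of the deferred colours.  Induction on `Nm`.  Leaf: no zones.  Defer: `zadd`; a zone
is either a proper subset of `X` or `X` itself.  Group: take `zn γ u` from the node of `u`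
(choose the zones as a function of the set `nd u`), and `∅` outside `X`. -/
theorem bridge (h : Nm k N c hv b P X) (hs : k + 1 ∈ P) :
    ∃ zn, Zs X (Finset.Icc 1 (k + 1) \ P) (k + 1) zn ∧ (∀ γ v u, v ∈ zn γ v → c v u ≠ γ) ∧
      (∀ v ∈ X, cutp N c hv {v} < npal (Finset.Icc 1 (k + 1) \ P) zn v + P.card) ∧
      ∀ γ u, u ∈ zn γ u →
        cutp N c hv (zn γ u) < nup (Finset.Icc 1 (k + 1) \ P) zn (zn γ u) u + P.card := by
  have hs0 : ∀ P : Finset ℕ, k + 1 ∈ P → k + 1 ∉ Finset.Icc 1 (k + 1) \ P := fun P hP h =>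
    (Finset.mem_sdiff.1 h).2 hP
  have h00 : ∀ P : Finset ℕ, 0 ∉ Finset.Icc 1 (k + 1) \ P := fun P h => by
    have := Finset.mem_Icc.1 (Finset.mem_sdiff.1 h).1
    omega
  induction h with
  | leaf P v h1 h2 h3 =>
    refine ⟨fun _ _ => ∅, ⟨hs0 P hs, by omega, h00 P, fun _ _ => Or.inr rfl, fun _ _ _ _ => rfl,
      fun _ _ => Finset.empty_subset _, fun _ _ _ => rfl,
      fun _ _ _ _ _ => Or.inl (Finset.Subset.refl _)⟩, ?_, ?_, ?_⟩
    · intro γ v u h
      exact absurd h (Finset.notMem_empty _)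
    · intro v' hv'
      rw [Finset.mem_singleton.1 hv']
      omega
    · intro γ u h
      exact absurd h (Finset.notMem_empty _)
  | defer P X γ h1 h2 h3 ih =>
    obtain ⟨zn, z1, z2, z3, z4⟩ := ih (Finset.mem_insert_of_mem hs)
    obtain ⟨p1, p2, -, -⟩ := nm_pal h2
    have hγ : γ ∈ Finset.Icc 1 (k + 1) := p1 (Finset.mem_insert_self _ _)
    have hγ0 : γ ≠ 0 := by
      have := Finset.mem_Icc.1 hγ
      omega
    have hγs : γ ≠ k + 1 := fun e => h1 (e ▸ hs)
    have hγΓ : γ ∉ Finset.Icc 1 (k + 1) \ insert γ P := fun h =>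
      (Finset.mem_sdiff.1 h).2 (Finset.mem_insert_self _ _)
    have e : insert γ (Finset.Icc 1 (k + 1) \ insert γ P) = Finset.Icc 1 (k + 1) \ P := by
      ext x
      simp only [Finset.mem_insert, Finset.mem_sdiff, not_or]
      constructor
      · rintro (rfl | h)
        · exact ⟨hγ, h1⟩
        · exact ⟨h.1, h.2.2⟩
      · intro h
        by_cases e : x = γ
        · exact Or.inl e
        · exact Or.inr ⟨h.1, e, h.2⟩
    obtain ⟨a1, a2, a3⟩ := zadd_spec z1 hγΓ hγs hγ0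
    rw [e] at a1 a2 a3
    rw [Finset.card_insert_of_notMem h1] at z3 z4
    refine ⟨zadd X γ zn, a1, ?_, ?_, ?_⟩
    · intro γ' v u hv
      by_cases e' : γ' = γ
      · subst e'
        intro e''
        exact p2 v (a1.sub _ _ hv) u (e'' ▸ Finset.mem_insert_self _ _)
      · rw [wbr_zadd_ne e'] at hv
        exact z2 γ' v u hv
    · intro v hv
      have := z3 v hv
      rw [a2 v hv]
      omega
    · intro γ' u hu
      have huX : u ∈ X := a1.sub _ _ hu
      rcases wbr_zadd_cases z1 γ γ' huX with e' | ⟨e', e''⟩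
      · rw [e']
        omega
      · rw [e'] at hu ⊢
        have := z4 γ' u hu
        rw [a3 u huX]
        unfold ind
        rw [if_pos e'']
        omega
  | single P X h1 ih => exact ih hs
  | group P X nd h1 h2 h3 ih =>
    let Pr : Finset ℕ → (ℕ → ℕ → Finset ℕ) → Prop := fun Y zn =>
      Zs Y (Finset.Icc 1 (k + 1) \ P) (k + 1) zn ∧ (∀ γ v u, v ∈ zn γ v → c v u ≠ γ) ∧
      (∀ v ∈ Y, cutp N c hv {v} < npal (Finset.Icc 1 (k + 1) \ P) zn v + P.card) ∧
      ∀ γ u, u ∈ zn γ u →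
        cutp N c hv (zn γ u) < nup (Finset.Icc 1 (k + 1) \ P) zn (zn γ u) u + P.card
    have hz : ∀ v ∈ X, Pr (nd v) (epsilon (Pr (nd v))) := fun v hv => epsilon_spec (ih v hv hs)
    let zn : ℕ → ℕ → Finset ℕ := fun γ u => if u ∈ X then epsilon (Pr (nd u)) γ u else ∅
    have hin : ∀ u ∈ X, ∀ γ, zn γ u = epsilon (Pr (nd u)) γ u := fun u hu γ => if_pos hu
    have hout : ∀ u, u ∉ X → ∀ γ, zn γ u = ∅ := fun u hu γ => if_neg hu
    have hmem : ∀ γ u v, v ∈ zn γ u → u ∈ X := by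
      intro γ u v h
      by_contra hu
      rw [hout u hu] at h
      exact absurd h (Finset.notMem_empty _)
    refine ⟨zn, ⟨hs0 P hs, by omega, h00 P, ?_, ?_, ?_, ?_, ?_⟩, ?_, ?_, ?_⟩
    · intro γ u
      by_cases hu : u ∈ X
      · rw [hin u hu]
        exact (hz u hu).1.self γ u
      · exact Or.inr (hout u hu γ)
    · intro γ u v h
      have hu := hmem γ u v h
      rw [hin u hu] at h ⊢
      have hvn : v ∈ nd u := (hz u hu).1.sub γ u h
      rw [hin v ((h1 u hu).2.1 hvn), (h1 u hu).2.2 v hvn]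
      exact (hz u hu).1.cls γ u v h
    · intro γ u
      by_cases hu : u ∈ X
      · rw [hin u hu]
        exact ((hz u hu).1.sub γ u).trans (h1 u hu).2.1
      · rw [hout u hu]
        exact Finset.empty_subset _
    · intro γ u hγ
      by_cases hu : u ∈ X
      · rw [hin u hu]
        exact (hz u hu).1.off γ u hγ
      · exact hout u hu γ
    · intro γ γ' u g1 g2
      have hu := hmem γ u u g1
      rw [hin u hu] at g1 g2 ⊢
      rw [hin u hu]
      exact (hz u hu).1.lam γ γ' u g1 g2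
    · intro γ v u h
      have hv := hmem γ v v h
      rw [hin v hv] at h
      exact (hz v hv).2.1 γ v u h
    · intro v hv
      have e : npal (Finset.Icc 1 (k + 1) \ P) zn v =
          npal (Finset.Icc 1 (k + 1) \ P) (epsilon (Pr (nd v))) v := by
        unfold npal
        congr 1
        exact Finset.filter_congr fun γ _ => by rw [hin v hv]
      rw [e]
      exact (hz v hv).2.2.1 v (h1 v hv).1
    · intro γ u h
      have hu := hmem γ u u h
      have e : ∀ R, nup (Finset.Icc 1 (k + 1) \ P) zn R u =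
          nup (Finset.Icc 1 (k + 1) \ P) (epsilon (Pr (nd u))) R u := by
        intro R
        unfold nup
        congr 1
        exact Finset.filter_congr fun γ _ => by rw [hin u hu]
      rw [e]
      rw [hin u hu] at h ⊢
      exact (hz u hu).2.2.2 γ u h

/-- Apply `zf` to `E v = En v ∪ {u | c v u = k + 2}` for `v ∈ X` and `{u ∈ X | c u v = k + 2}` for
`v ∉ X`, and put `cF u v = g u v` on `E`, `c u v` elsewhere.  A reserved edge that leaves `X` gets
the colour `k + 1` because zones lie in `X`. -/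
theorem lfz (hs : Sym N) (hi : Irr N) (ho : Ok k N X c) (hcl : ∀ v ∈ X, En N c v ⊆ X)
    (hZ : Zs X Γ (k + 1) zn) (hΓ : Γ ⊆ Finset.Icc 1 (k + 1))
    (hu1 : ∀ v ∈ X, ∀ u, c v u ≠ k + 1) (hu2 : ∀ γ v u, v ∈ zn γ v → c v u ≠ γ)
    (hm : ∀ v ∈ X, ∀ u, c v u = k + 2 → (v = y ∧ u = w) ∨ (v = w ∧ u = y))
    (h1 : ∀ v ∈ X, (En N c v).card + ind (v = w ∧ c w y = k + 2) ≤ npal Γ zn v)
    (h2 : ∀ γ u, u ∈ zn γ u → ecut (En N c) (zn γ u) +
      ind (w ∈ zn γ u ∧ y ∉ zn γ u ∧ c w y = k + 2) ≤ nup Γ zn (zn γ u) u) :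
    ∃ cF, FinP k N X (cbd k c) cF := by
  let M : ℕ → Finset ℕ := fun v => (N v).filter fun u => c v u = k + 2
  let E : ℕ → Finset ℕ := fun v =>
    if v ∈ X then En N c v ∪ M v else X.filter fun u => c u v = k + 2
  have hin : ∀ v ∈ X, E v = En N c v ∪ M v := fun v hv => if_pos hv
  have hout : ∀ v, v ∉ X → E v = X.filter fun u => c u v = k + 2 := fun v hv => if_neg hv
  have hM : ∀ v ∈ X, ∀ u, u ∈ M v ↔ c v u = k + 2 := fun v hv u =>
    ⟨fun h => (Finset.mem_filter.1 h).2,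
      fun h => Finset.mem_filter.2 ⟨ho.edge v hv u (by omega), h⟩⟩
  have hE : ∀ v ∈ X, ∀ u, u ∈ E v ↔ u ∈ En N c v ∨ c v u = k + 2 := fun v hv u => by
    rw [hin v hv, Finset.mem_union, hM v hv]
  have hE' : ∀ v, v ∉ X → ∀ u, u ∈ E v ↔ u ∈ X ∧ c u v = k + 2 := fun v hv u => by
    rw [hout v hv, Finset.mem_filter]
  have hM1 : ∀ v ∈ X, (M v).card ≤ 1 := fun v hv =>
    Finset.card_le_one.2 fun a ha b hb => ho.inj v hv a b (by rw [(hM v hv a).1 ha]; omega)
      (by rw [(hM v hv a).1 ha, (hM v hv b).1 hb])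
  have hEs : Sym E := by
    intro a b hb
    by_cases ha : a ∈ X
    · rcases (hE a ha b).1 hb with h | h
      · have hbX := hcl a ha h
        exact (hE b hbX a).2 (Or.inl (En_symm hs ho hbX ha h))
      · by_cases hbX : b ∈ X
        · exact (hE b hbX a).2 (Or.inr (by rw [ho.symm b hbX a ha, h]))
        · exact (hE' b hbX a).2 ⟨ha, h⟩
    · obtain ⟨hbX, h⟩ := (hE' a ha b).1 hb
      exact (hE b hbX a).2 (Or.inr h)
  have hEi : Irr E := by
    intro a h
    by_cases ha : a ∈ X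
    · rcases (hE a ha a).1 h with h | h
      · exact hi a (mem_En.1 h).1
      · exact hi a (ho.edge a ha a (by omega))
    · exact ha ((hE' a ha a).1 h).1
  have hW : ∀ u v, v ∈ E u → u ∈ insert y (insert w X) := by
    intro u v h
    rw [Finset.mem_insert, Finset.mem_insert]
    by_cases hu : u ∈ X
    · exact Or.inr (Or.inr hu)
    · obtain ⟨hvX, h⟩ := (hE' u hu v).1 h
      rcases hm v hvX u h with h | h
      · exact Or.inr (Or.inl h.2)
      · exact Or.inl h.2
  have hD : ZD Γ zn E y w := by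
    constructor
    · intro v
      by_cases hv : v ∈ X
      · have a1 := h1 v hv
        have a2 : (E v).card ≤ (En N c v).card + (M v).card := by
          rw [hin v hv]
          exact Finset.card_union_le _ _
        rcases (M v).eq_empty_or_nonempty with h | ⟨u, h⟩
        · rw [h, Finset.card_empty] at a2
          omega
        · have a3 := hM1 v hv
          have a4 := (hM v hv u).1 h
          rcases hm v hv u a4 with ⟨e1, e2⟩ | ⟨e1, e2⟩
          · subst e1 e2
            rw [wbr_ind_pos (p := u ∈ E v ∧ (v = v ∨ (v = u ∧ npal Γ zn u = 0)))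
              ⟨(hE v hv u).2 (Or.inr a4), Or.inl rfl⟩]
            omega
          · subst e1 e2
            rw [wbr_ind_pos (p := v = v ∧ c v u = k + 2) ⟨rfl, a4⟩] at a1
            omega
      · rcases (E v).eq_empty_or_nonempty with h | ⟨u, h⟩
        · rw [h, Finset.card_empty]
          omega
        · obtain ⟨hu, a4⟩ := (hE' v hv u).1 h
          have a3 : (E v).card ≤ 1 := by
            refine Finset.card_le_one.2 fun a ha b hb => ?_
            obtain ⟨ha1, ha2⟩ := (hE' v hv a).1 ha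
            obtain ⟨hb1, hb2⟩ := (hE' v hv b).1 hb
            rcases hm a ha1 v ha2 with ⟨e1, e2⟩ | ⟨e1, e2⟩ <;>
              rcases hm b hb1 v hb2 with ⟨e3, e4⟩ | ⟨e3, e4⟩
            · rw [e1, e3]
            · exact absurd (by rw [e2, ← e3]; exact hb1) hv
            · exact absurd (by rw [e2, ← e3]; exact hb1) hv
            · rw [e1, e3]
          have a5 : npal Γ zn v = 0 := by
            unfold npal
            rw [Finset.card_eq_zero, Finset.filter_eq_empty_iff]
            exact fun γ _ h => hv (hZ.sub γ v h)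
          rcases hm u hu v a4 with ⟨e1, e2⟩ | ⟨e1, e2⟩
          · subst e1 e2
            rw [wbr_ind_pos (p := v ∈ E u ∧ (v = u ∨ (v = v ∧ npal Γ zn v = 0)))
              ⟨(hE u hu v).2 (Or.inr a4), Or.inr ⟨rfl, a5⟩⟩]
            omega
          · subst e1 e2
            rw [wbr_ind_pos (p := u ∈ E v ∧ (v = v ∨ (v = u ∧ npal Γ zn u = 0))) ⟨h, Or.inl rfl⟩]
            omega
    · intro γ u hu
      have a1 := h2 γ u hu
      have hZX : zn γ u ⊆ X := hZ.sub γ u
      set Z := zn γ u with hZdef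
      set A := ind (w ∈ E y ∧ y ∈ Z ∧ w ∉ Z) with hA
      set B := ind (w ∈ Z ∧ y ∉ Z ∧ c w y = k + 2) with hB
      have a2 : ∀ v ∈ Z, (E v \ Z).card ≤ (En N c v \ Z).card +
          ((if v = y then A else 0) + (if v = w then B else 0)) := by
        intro v hv
        have hvX := hZX hv
        have b1 : (E v \ Z).card ≤ (En N c v \ Z).card + (M v \ Z).card := by
          rw [hin v hvX, Finset.union_sdiff_distrib]
          exact Finset.card_union_le _ _
        rcases (M v \ Z).eq_empty_or_nonempty with h | ⟨u', h⟩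
        · rw [h, Finset.card_empty] at b1
          omega
        · have b2 : (M v \ Z).card ≤ 1 :=
            (Finset.card_le_card Finset.sdiff_subset).trans (hM1 v hvX)
          obtain ⟨b3, b4⟩ := Finset.mem_sdiff.1 h
          have b5 := (hM v hvX u').1 b3
          rcases hm v hvX u' b5 with ⟨e1, e2⟩ | ⟨e1, e2⟩
          · have b6 : A = 1 := by
              rw [hA, ← e1, ← e2]
              exact wbr_ind_pos ⟨(hE v hvX u').2 (Or.inr b5), hv, b4⟩
            rw [if_pos e1]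
            omega
          · have b6 : B = 1 := by
              rw [hB, ← e1, ← e2]
              exact wbr_ind_pos ⟨hv, b4, b5⟩
            rw [if_pos e1]
            omega
      have a3 := Finset.sum_le_sum a2
      rw [Finset.sum_add_distrib, Finset.sum_add_distrib, Finset.sum_ite_eq', Finset.sum_ite_eq']
        at a3
      have a4 : (if y ∈ Z then A else 0) ≤ A := by split_ifs <;> omega
      have a5 : (if w ∈ Z then B else 0) ≤ B := by split_ifs <;> omega
      unfold ecut at a1 ⊢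
      omega
  obtain ⟨g, hg, hg0⟩ := zf hZ hEs hEi hW hD
  have hself : ∀ γ u v, v ∈ zn γ u → u ∈ zn γ u := by
    intro γ u v h
    rcases hZ.self γ u with h' | h'
    · exact h'
    · rw [h'] at h
      exact absurd h (Finset.notMem_empty _)
  have hmix : ∀ u ∈ X, ∀ v ∈ E u, ∀ v', g u v ≠ c u v' := by
    intro u hu v hv v' e
    rcases hg.zone u v (hg0 u v hv) with h | h
    · exact hu1 u hu v' (e ▸ h)
    · exact hu2 _ u v' (hself _ u v h) e.symm
  have hnot : ∀ u ∈ X, ∀ v ∈ N u, v ∉ E u → c u v ≠ 0 ∧ c u v ≠ k + 2 := by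
    intro u hu v hv h
    rw [hE u hu, not_or, mem_En, not_and] at h
    exact ⟨h.1 hv, h.2⟩
  refine ⟨fun u v => if v ∈ E u then g u v else c u v, ?_, ?_, ?_, ?_⟩
  · intro u hu v hv _
    by_cases h : v ∈ E u
    · rw [if_pos h, if_pos (hEs u v h)]
      exact hg.symm u v
    · rw [if_neg h, if_neg fun h' => h (hEs v u h')]
      exact ho.symm u hu v hv
  · intro u hu v hv
    by_cases h : v ∈ E u
    · rw [if_pos h]
      have a1 := hg0 u v h
      rcases hg.zone u v a1 with h' | h'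
      · omega
      · have a2 : g u v ∈ Γ := by
          by_contra a2
          rw [hZ.off _ u a2] at h'
          exact absurd h' (Finset.notMem_empty _)
        exact Finset.mem_Icc.1 (hΓ a2)
    · rw [if_neg h]
      have a1 := hnot u hu v hv h
      have a2 := ho.le u hu v
      omega
  · intro u hu v hv v' hv' e
    by_cases h : v ∈ E u <;> by_cases h' : v' ∈ E u
    · rw [if_pos h, if_pos h'] at e
      exact hg.inj u v v' (hg0 u v h) e
    · rw [if_pos h, if_neg h'] at e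
      exact absurd e (hmix u hu v h v')
    · rw [if_neg h, if_pos h'] at e
      exact absurd e.symm (hmix u hu v' h' v)
    · rw [if_neg h, if_neg h'] at e
      exact ho.inj u hu v v' (hnot u hu v hv h).1 e
  · intro u hu v hv hvX
    have a1 : c u v ≠ 0 := fun e => hvX (hcl u hu (mem_En.2 ⟨hv, e⟩))
    unfold cbd
    rw [if_neg a1]
    by_cases a2 : c u v = k + 2
    · have a3 : v ∈ E u := (hE u hu v).2 (Or.inr a2)
      rw [if_pos a2, if_pos a3]
      rcases hg.zone u v (hg0 u v a3) with h | h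
      · exact h
      · exact absurd (hZ.sub _ u h) hvX
    · have a3 : v ∉ E u := by
        rw [hE u hu, not_or, mem_En]
        exact ⟨fun h => a1 h.2, a2⟩
      rw [if_neg a2, if_neg a3]

theorem wbr_cut1 (hi : Irr N) (ho : Ok k N X c)
    (hm : ∀ v ∈ X, ∀ u, c v u = k + 2 → (v = y ∧ u = w) ∨ (v = w ∧ u = y ∧ hv w)) {v : ℕ}
    (h : v ∈ X) : (En N c v).card + ind (v = w ∧ c w y = k + 2) ≤ cutp N c hv {v} := by
  have e : En N c v \ {v} = En N c v :=
    Finset.sdiff_eq_self_of_disjoint (Finset.disjoint_singleton_right.2 fun h' =>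
      hi v (mem_En.1 h').1)
  unfold cutp
  rw [Finset.sum_singleton, e]
  refine Nat.add_le_add_left ?_ _
  by_cases h' : v = w ∧ c w y = k + 2
  · obtain ⟨e1, e2⟩ := h'
    subst e1
    rcases hm v h y e2 with ⟨e3, -⟩ | ⟨-, -, e3⟩
    · subst e3
      exact absurd (ho.edge v h v (by omega)) (hi v)
    · rw [wbr_ind_pos e3, wbr_ind_pos (p := v = v ∧ c v y = k + 2) ⟨rfl, e2⟩]
  · rw [wbr_ind_neg h']
    exact Nat.zero_le _

theorem wbr_cut2
    (hm : ∀ v ∈ X, ∀ u, c v u = k + 2 → (v = y ∧ u = w) ∨ (v = w ∧ u = y ∧ hv w)) {Z : Finset ℕ}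
    (h : Z ⊆ X) : ecut (En N c) Z + ind (w ∈ Z ∧ y ∉ Z ∧ c w y = k + 2) ≤ cutp N c hv Z := by
  unfold cutp ecut
  rw [Finset.sum_add_distrib]
  refine Nat.add_le_add_left ?_ _
  by_cases h' : w ∈ Z ∧ y ∉ Z ∧ c w y = k + 2
  · rw [wbr_ind_pos h']
    obtain ⟨e1, e2, e3⟩ := h'
    rcases hm w (h e1) y e3 with ⟨e4, -⟩ | ⟨-, -, e4⟩
    · exact absurd (e4 ▸ e1) e2
    · have := Finset.single_le_sum (f := fun v => ind (hv v)) (fun _ _ => Nat.zero_le _) e1
      rw [wbr_ind_pos e4] at this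
      exact this
  · rw [wbr_ind_neg h']
    exact Nat.zero_le _

/-- `bridge` and `lfz`; the cut of `X` is zero (`nm_pal`, `cutp_zero`). -/
theorem lf1 (hs : Sym N) (hi : Irr N) (ho : Ok k N X c) (h : Nm k N c hv b {k + 1} X)
    (hm : ∀ v ∈ X, ∀ u, c v u = k + 2 → (v = y ∧ u = w) ∨ (v = w ∧ u = y ∧ hv w)) :
    ∃ cF, FinP k N X (cbd k c) cF := by
  obtain ⟨zn, z1, z2, z3, z4⟩ := bridge h (Finset.mem_singleton_self _)
  obtain ⟨-, p2, p3, -⟩ := nm_pal h
  rw [Finset.card_singleton] at z3 z4 p3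
  have p4 := cutp_zero (N := N) (c := c) (hv := hv) (X := X) (by omega)
  refine lfz (y := y) (w := w) hs hi ho (fun v hv => (p4 v hv).1) z1 Finset.sdiff_subset
    (fun v hv u e => p2 v hv u (e ▸ Finset.mem_singleton_self _)) z2
    (fun v hv u e => (hm v hv u e).imp id fun h => ⟨h.1, h.2.1⟩) ?_ ?_
  · intro v hv
    have a1 := z3 v hv
    have a2 := wbr_cut1 hi ho hm hv
    omega
  · intro γ u hu
    have a1 := z4 γ u hu
    have a2 := wbr_cut2 (N := N) hm (z1.sub γ u)
    omega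

/-- `bridge`, `zadd` for the colour `1`, `lfz`.  If `w ∈ X` and `y ∉ X`, exchange the roles of
`y` and `w` in `lfz` (then both indicator terms vanish). -/
theorem lf2 (hs : Sym N) (hi : Irr N) (hk : 1 ≤ k) (ho : Ok k N X c)
    (h : Nm k N c hv b (Pal k 1) X) (hcl : ∀ v ∈ X, En N c v ⊆ X)
    (hm : ∀ v ∈ X, ∀ u, c v u = k + 2 → (v = y ∧ u = w) ∨ (v = w ∧ u = y ∧ hv w)) :
    ∃ cF, FinP k N X (cbd k c) cF := by
  have hP1 : 1 ∈ Pal k 1 := Finset.mem_insert_of_mem (Finset.mem_Icc.2 ⟨le_rfl, le_rfl⟩)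
  have hPs : k + 1 ∈ Pal k 1 := Finset.mem_insert_self _ _
  obtain ⟨zn, z1, z2, z3, z4⟩ := bridge h hPs
  obtain ⟨p1, p2, -, -⟩ := nm_pal h
  rw [pal_card hk] at z3 z4
  obtain ⟨a1, a2, a3⟩ := zadd_spec (γ := 1) z1 (fun h => (Finset.mem_sdiff.1 h).2 hP1)
    (by omega) (by omega)
  have hΓ : insert 1 (Finset.Icc 1 (k + 1) \ Pal k 1) ⊆ Finset.Icc 1 (k + 1) :=
    Finset.insert_subset (p1 hP1) Finset.sdiff_subset
  have hu1 : ∀ v ∈ X, ∀ u, c v u ≠ k + 1 := fun v hv u e => p2 v hv u (e ▸ hPs)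
  have hu2 : ∀ γ v u, v ∈ zadd X 1 zn γ v → c v u ≠ γ := by
    intro γ v u hv
    by_cases e : γ = 1
    · subst e
      intro e'
      exact p2 v (a1.sub _ _ hv) u (e' ▸ hP1)
    · rw [wbr_zadd_ne e] at hv
      exact z2 γ v u hv
  have hm' : ∀ v ∈ X, ∀ u, c v u = k + 2 → (v = y ∧ u = w) ∨ (v = w ∧ u = y) :=
    fun v hv u e => (hm v hv u e).imp id fun h => ⟨h.1, h.2.1⟩
  have b1 : ∀ v ∈ X, (En N c v).card + ind (v = w ∧ c w y = k + 2) ≤
      npal (insert 1 (Finset.Icc 1 (k + 1) \ Pal k 1)) (zadd X 1 zn) v := by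
    intro v hv
    have c1 := z3 v hv
    have c2 := wbr_cut1 hi ho hm hv
    rw [a2 v hv]
    omega
  have b0 : ecut (En N c) X = 0 := by
    unfold ecut
    exact Finset.sum_eq_zero fun v hv => by
      rw [Finset.card_eq_zero, Finset.sdiff_eq_empty_iff_subset]
      exact hcl v hv
  have b2 : ∀ γ u, u ∈ zadd X 1 zn γ u → zadd X 1 zn γ u = X ∨ ecut (En N c) (zadd X 1 zn γ u) +
      ind (w ∈ zadd X 1 zn γ u ∧ y ∉ zadd X 1 zn γ u ∧ c w y = k + 2) ≤
      nup (insert 1 (Finset.Icc 1 (k + 1) \ Pal k 1)) (zadd X 1 zn) (zadd X 1 zn γ u) u := by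
    intro γ u hu
    have huX : u ∈ X := a1.sub _ _ hu
    rcases wbr_zadd_cases z1 1 γ huX with e | ⟨e, e'⟩
    · exact Or.inl e
    · right
      rw [e] at hu ⊢
      have c1 := z4 γ u hu
      have c2 := wbr_cut2 (N := N) hm (z1.sub γ u)
      rw [a3 u huX, wbr_ind_pos e']
      omega
  by_cases hwy : w ∈ X ∧ y ∉ X
  · refine lfz (y := w) (w := y) hs hi ho hcl a1 hΓ hu1 hu2
      (fun v hv u e => (hm' v hv u e).symm) ?_ ?_
    · intro v hv
      have c1 := b1 v hv
      rw [wbr_ind_neg (p := v = y ∧ c y w = k + 2) fun h => hwy.2 (h.1 ▸ hv)]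
      omega
    · intro γ u hu
      rw [wbr_ind_neg fun h => hwy.2 (a1.sub γ u h.1)]
      rcases b2 γ u hu with e | e
      · rw [e, b0]
        omega
      · omega
  · refine lfz (y := y) (w := w) hs hi ho hcl a1 hΓ hu1 hu2 hm' b1 ?_
    intro γ u hu
    rcases b2 γ u hu with e | e
    · rw [e, b0, wbr_ind_neg fun h => hwy ⟨h.1, h.2.1⟩]
      omega
    · exact e

end Pool.Agent.Lib.MP_459a07_lc.V
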