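import Pool.Agent.Lib.MP_459a07_lc.WDefs
import Pool.Agent.Lib.MP_459a07_lc.VSw

set_option autoImplicit false

namespace Pool.Agent.Lib.MP_459a07_lc.V

open Classical

/-- All of `x` and its neighbours lie in the same zones. -/
def Ctr (zn : ℕ → ℕ → Finset ℕ) (E : ℕ → Finset ℕ) (x : ℕ) : Prop :=
  ∀ γ, ∀ v ∈ insert x (E x), v ∈ zn γ v → insert x (E x) ⊆ zn γ v

/-- `g` colours the edges coloured by `f` and the edge `x y`. -/
def Gr (f g : Col) (x y : ℕ) : Prop :=
  ∀ u v, g u v ≠ 0 ↔ f u v ≠ 0 ∨ (u = x ∧ v = y) ∨ (u = y ∧ v = x)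

/-- A closed fan: every colour that is free at a member of `T` is the colour of an edge from `x`
to `T`. -/
structure Cl (s : ℕ) (zn : ℕ → ℕ → Finset ℕ) (E : ℕ → Finset ℕ) (f : Col) (x y : ℕ)
    (T : Finset ℕ) : Prop where
  mem : y ∈ T
  sub : T ⊆ E x
  col : ∀ w ∈ T, w ≠ y → f x w ≠ 0
  cls : ∀ w ∈ T, ∀ γ, Free s zn f w γ → ∃ u ∈ T, u ≠ y ∧ f x u = γ

/-- Exchange `α` and `β` in the rows of `K`. -/
noncomputable def swp (K : Finset ℕ) (α β : ℕ) (f : Col) : Col := fun u v =>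
  if u ∈ K then sw α β (f u v) else f u v

variable {Ω Γ K T Z : Finset ℕ} {s x y p q α β : ℕ} {zn : ℕ → ℕ → Finset ℕ} {E : ℕ → Finset ℕ}
  {f : Col}

theorem wfan_sw_sw (α β γ : ℕ) : sw α β (sw α β γ) = γ := by
  unfold sw
  split_ifs <;> omega

theorem wfan_sw_eq {α β γ δ : ℕ} : sw α β γ = δ ↔ γ = sw α β δ := by
  constructor
  · intro h; rw [← h, wfan_sw_sw]
  · intro h; rw [h, wfan_sw_sw]

theorem wfan_sw_l (α β : ℕ) : sw α β α = β := by simp [sw]

theorem wfan_sw_r (α β : ℕ) : sw α β β = α := by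
  unfold sw
  split_ifs <;> omega

theorem wfan_sw_o {α β γ : ℕ} (h1 : γ ≠ α) (h2 : γ ≠ β) : sw α β γ = γ := by simp [sw, h1, h2]

theorem wfan_avail (hZ : Zs Ω Γ s zn) {γ u v : ℕ} (h : γ = s ∨ v ∈ zn γ u) : γ ∈ insert s Γ := by
  rcases h with h | h
  · rw [h]; exact Finset.mem_insert_self _ _
  · by_contra hc
    rw [hZ.off γ u fun h' => hc (Finset.mem_insert_of_mem h')] at h
    exact Finset.notMem_empty _ h

theorem wfan_ne (hZ : Zs Ω Γ s zn) {γ : ℕ} (h : γ ∈ insert s Γ) : γ ≠ 0 := by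
  rintro rfl
  rcases Finset.mem_insert.1 h with h | h
  · exact hZ.s0 h.symm
  · exact hZ.Γ0 h

/-- The neighbour along the colour `α` inside `Z`. -/
noncomputable def wfanM (Z : Finset ℕ) (f : Col) (α : ℕ) (u : ℕ) : ℕ :=
  if h : u ∈ Z ∧ ∃ v ∈ Z, f u v = α then h.2.choose else u

theorem wfanM_eq (hinj : ∀ u v w, f u v ≠ 0 → f u v = f u w → v = w) (hα : α ≠ 0) {u v : ℕ}
    (hu : u ∈ Z) (hv : v ∈ Z) (h : f u v = α) : wfanM Z f α u = v := by
  have h1 : u ∈ Z ∧ ∃ v ∈ Z, f u v = α := ⟨hu, v, hv, h⟩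
  have h2 := h1.2.choose_spec
  simp only [wfanM, dif_pos h1]
  exact (hinj u v _ (h ▸ hα) (h.trans h2.2.symm)).symm

theorem wfanM_fix {u : ℕ} (h : ¬ (u ∈ Z ∧ ∃ v ∈ Z, f u v = α)) : wfanM Z f α u = u := by
  simp only [wfanM, dif_neg h]

theorem wfanM_mat (hsym : ∀ u v, f u v = f v u)
    (hinj : ∀ u v w, f u v ≠ 0 → f u v = f u w → v = w) (hα : α ≠ 0) :
    Mat (fun u => if u ∈ Z then Z else ∅) (wfanM Z f α) := by
  refine ⟨fun u => ?_, fun u hu => ?_⟩
  · by_cases h : u ∈ Z ∧ ∃ v ∈ Z, f u v = α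
    · obtain ⟨hu, v, hv, e⟩ := h
      rw [wfanM_eq hinj hα hu hv e, wfanM_eq hinj hα hv hu ((hsym v u).trans e)]
    · rw [wfanM_fix h, wfanM_fix h]
  · by_cases h : u ∈ Z ∧ ∃ v ∈ Z, f u v = α
    · obtain ⟨hu', v, hv, e⟩ := h
      rw [wfanM_eq hinj hα hu' hv e]
      simp only [if_pos hu']
      exact hv
    · exact absurd (wfanM_fix h) hu

/-- Hall's theorem (`Finset.all_card_le_biUnion_card_iff_existsInjective'` on the subtype, or
`Finset.all_card_le_biUnion_card_iff_exists_injective`) for the neighbours `w` of `x` with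
`f x w ≠ 0` or `w = y` and the lists `{γ ∈ insert s Γ | f x w = γ ∨ Free w γ}`.  A set `T` that
violates the condition contains `y`, and the union of its lists is the image of `T.erase y` under
`f x`, so it is closed. -/
theorem hall_star (hZ : Zs Ω Γ s zn) (hs : Sym E) (hi : Irr E) (hf : ZC s zn E f)
    (hx : Ctr zn E x) (hy : y ∈ E x) (h0 : f x y = 0) (h : ¬ ∃ T, Cl s zn E f x y T) :
    ∃ g, ZC s zn E g ∧ Gr f g x y := by
  have hxy : x ≠ y := fun e => hi x (e ▸ hy)
  set A : Finset ℕ := (E x).filter fun w => f x w ≠ 0 ∨ w = y with hA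
  set L : ℕ → Finset ℕ :=
    fun w => (insert s Γ).filter fun γ => f x w = γ ∨ Free s zn f w γ with hL
  have hall : ∀ T : Finset ℕ, T ⊆ A → T.card ≤ (T.biUnion L).card := by
    intro T hTA
    by_contra hlt
    have hcol : ∀ w ∈ T, w ≠ y → f x w ≠ 0 := fun w hw hwy =>
      ((Finset.mem_filter.1 (hTA hw)).2).resolve_right hwy
    have himg : (T.erase y).image (f x) ⊆ T.biUnion L := by
      intro γ hγ
      obtain ⟨w, hw, rfl⟩ := Finset.mem_image.1 hγ
      obtain ⟨hwy, hw⟩ := Finset.mem_erase.1 hw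
      exact Finset.mem_biUnion.2 ⟨w, hw, Finset.mem_filter.2
        ⟨wfan_avail hZ (hf.zone x w (hcol w hw hwy)), Or.inl rfl⟩⟩
    have hcard : ((T.erase y).image (f x)).card = (T.erase y).card := by
      apply Finset.card_image_of_injOn
      intro a ha b _ hab
      obtain ⟨hay, ha⟩ := Finset.mem_erase.1 (Finset.mem_coe.1 ha)
      exact hf.inj x a b (hcol a ha hay) hab
    have hle := Finset.card_le_card himg
    have hyT : y ∈ T := by
      by_contra hyT
      rw [Finset.erase_eq_of_notMem hyT] at hcard hle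
      omega
    have he := Finset.card_erase_of_mem hyT
    have heq : (T.erase y).image (f x) = T.biUnion L :=
      Finset.eq_of_subset_of_card_le himg (by omega)
    refine h ⟨T, hyT, fun w hw => (Finset.mem_filter.1 (hTA hw)).1, hcol, fun w hw γ hγ => ?_⟩
    have : γ ∈ T.biUnion L := Finset.mem_biUnion.2 ⟨w, hw, Finset.mem_filter.2
      ⟨wfan_avail hZ hγ.1, Or.inr hγ⟩⟩
    rw [← heq] at this
    obtain ⟨u, hu, e⟩ := Finset.mem_image.1 this
    obtain ⟨huy, hu⟩ := Finset.mem_erase.1 hu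
    exact ⟨u, hu, huy, e⟩
  obtain ⟨φ, hφ, hφL⟩ := (Finset.all_card_le_biUnion_card_iff_exists_injective
      (fun w : {w // w ∈ A} => L w.1)).1 (by
    intro T
    have h1 := hall (T.image Subtype.val) (by
      intro w hw
      obtain ⟨a, _, rfl⟩ := Finset.mem_image.1 hw
      exact a.2)
    rw [Finset.card_image_of_injective _ Subtype.val_injective, Finset.image_biUnion] at h1
    exact h1)
  set d : ℕ → ℕ := fun w => if h : w ∈ A then φ ⟨w, h⟩ else 0 with hd
  have dA : ∀ w, d w ≠ 0 → w ∈ A := by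
    intro w hw
    by_contra hc
    exact hw (by simp only [hd, dif_neg hc])
  have dL : ∀ w ∈ A, d w ∈ L w := by
    intro w hw
    simp only [hd, dif_pos hw]
    exact hφL ⟨w, hw⟩
  have dne : ∀ w, d w ≠ 0 ↔ f x w ≠ 0 ∨ w = y := by
    intro w
    constructor
    · intro hw
      exact (Finset.mem_filter.1 (dA w hw)).2
    · intro hw
      have hwA : w ∈ A := Finset.mem_filter.2 ⟨by
        rcases hw with hw | hw
        · exact hf.edge x w hw
        · rw [hw]; exact hy, hw⟩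
      exact wfan_ne hZ (Finset.mem_filter.1 (dL w hwA)).1
  have dinj : ∀ v w, d v ≠ 0 → d v = d w → v = w := by
    intro v w hv e
    have hvA := dA v hv
    have hwA := dA w (e ▸ hv)
    simp only [hd, dif_pos hvA, dif_pos hwA] at e
    exact congrArg Subtype.val (hφ e)
  have drow : ∀ u w, w ≠ x → d u ≠ 0 → d u ≠ f u w := by
    intro u w hw hu e
    rcases (Finset.mem_filter.1 (dL u (dA u hu))).2 with h1 | h1
    · rw [hf.symm] at h1
      exact hw (hf.inj u x w (h1 ▸ hu) (h1.trans e)).symm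
    · exact h1.2 w e.symm
  have dzone : ∀ w, d w ≠ 0 → (d w = s ∨ w ∈ zn (d w) x) ∧ (d w = s ∨ x ∈ zn (d w) w) := by
    intro w hw
    rcases (Finset.mem_filter.1 (dL w (dA w hw))).2 with h1 | h1
    · have h2 : f w x = d w := (hf.symm w x).trans h1
      have a1 := hf.zone x w (h1 ▸ hw)
      have a2 := hf.zone w x (h2 ▸ hw)
      rw [h1] at a1
      rw [h2] at a2
      exact ⟨a1, a2⟩
    · rcases h1.1 with h2 | h2
      · exact ⟨Or.inl h2, Or.inl h2⟩
      · have hwE : w ∈ E x := (Finset.mem_filter.1 (dA w hw)).1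
        have hxz : x ∈ zn (d w) w :=
          hx (d w) w (Finset.mem_insert_of_mem hwE) h2 (Finset.mem_insert_self _ _)
        refine ⟨Or.inr ?_, Or.inr hxz⟩
        rw [hZ.cls _ _ _ hxz]
        exact h2
  refine ⟨fun u v => if u = x then d v else if v = x then d u else f u v, ⟨?_, ?_, ?_, ?_⟩, ?_⟩
  · intro u v
    by_cases hu : u = x <;> by_cases hv : v = x
    · simp only [hu, hv]
    · simp only [if_pos hu, if_neg hv]
    · simp only [if_pos hv, if_neg hu]
    · simp only [if_neg hu, if_neg hv, hf.symm u v]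
  · intro u v huv
    by_cases hu : u = x
    · simp only [if_pos hu] at huv
      rw [hu]; exact (Finset.mem_filter.1 (dA v huv)).1
    · by_cases hv : v = x
      · simp only [if_neg hu, if_pos hv] at huv
        rw [hv]; exact hs _ _ (Finset.mem_filter.1 (dA u huv)).1
      · simp only [if_neg hu, if_neg hv] at huv
        exact hf.edge u v huv
  · intro u v w huv e
    by_cases hu : u = x
    · simp only [if_pos hu] at huv e
      exact dinj v w huv e
    · by_cases hv : v = x <;> by_cases hw : w = x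
      · rw [hv, hw]
      · simp only [if_neg hu, if_pos hv, if_neg hw] at huv e
        exact absurd e (drow u w hw huv)
      · simp only [if_neg hu, if_neg hv, if_pos hw] at huv e
        exact absurd e.symm (drow u v hv (e ▸ huv))
      · simp only [if_neg hu, if_neg hv, if_neg hw] at huv e
        exact hf.inj u v w huv e
  · intro u v huv
    by_cases hu : u = x
    · simp only [if_pos hu] at huv ⊢
      rw [hu]; exact (dzone v huv).1
    · by_cases hv : v = x
      · simp only [if_neg hu, if_pos hv] at huv ⊢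
        rw [hv]; exact (dzone u huv).2
      · simp only [if_neg hu, if_neg hv] at huv ⊢
        exact hf.zone u v huv
  · intro u v
    by_cases hu : u = x
    · simp only [if_pos hu]
      rw [dne, hu]
      constructor
      · rintro (h1 | h1)
        · exact Or.inl h1
        · exact Or.inr (Or.inl ⟨rfl, h1⟩)
      · rintro (h1 | h1 | h1)
        · exact Or.inl h1
        · exact Or.inr h1.2
        · exact absurd h1.1 hxy
    · by_cases hv : v = x
      · simp only [if_neg hu, if_pos hv]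
        rw [dne, hv, hf.symm u x]
        constructor
        · rintro (h1 | h1)
          · exact Or.inl h1
          · exact Or.inr (Or.inr ⟨h1, rfl⟩)
        · rintro (h1 | h1 | h1)
          · exact Or.inl h1
          · exact absurd h1.1 hu
          · exact Or.inr h1.1
      · simp only [if_neg hu, if_neg hv]
        constructor
        · exact Or.inl
        · rintro (h1 | h1 | h1)
          · exact h1
          · exact absurd h1.1 hu
          · exact absurd h1.2 hv

theorem swp_zc (hf : ZC s zn E f) (hα : α ≠ 0) (hβ : β ≠ 0)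
    (hK : ∀ u ∈ K, ∀ v, f u v = α ∨ f u v = β → v ∈ K)
    (h1 : α = s ∨ ∀ u ∈ K, K ⊆ zn α u) (h2 : β = s ∨ ∀ u ∈ K, K ⊆ zn β u) :
    ZC s zn E (swp K α β f) ∧ (∀ u v, swp K α β f u v ≠ 0 ↔ f u v ≠ 0) ∧
      (∀ u ∈ K, ∀ γ, Free s zn (swp K α β f) u γ ↔ Free s zn f u (sw α β γ)) ∧
      ∀ u, u ∉ K → ∀ γ, Free s zn (swp K α β f) u γ ↔ Free s zn f u γ := by
  have sw0 : ∀ γ, sw α β γ ≠ 0 ↔ γ ≠ 0 := by
    intro γ
    rw [Ne, wfan_sw_eq, wfan_sw_o hα.symm hβ.symm]
  have hne : ∀ u v, swp K α β f u v ≠ 0 ↔ f u v ≠ 0 := by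
    intro u v
    by_cases hu : u ∈ K
    · simp only [swp, if_pos hu]; exact sw0 _
    · simp only [swp, if_neg hu]
  have hout : ∀ u ∈ K, ∀ v, v ∉ K → sw α β (f u v) = f u v := fun u hu v hv =>
    wfan_sw_o (fun e => hv (hK u hu v (Or.inl e))) (fun e => hv (hK u hu v (Or.inr e)))
  have a1 : ∀ u ∈ K, ∀ v ∈ K, α = s ∨ v ∈ zn α u := fun u hu v hv =>
    h1.imp id fun h => h u hu hv
  have a2 : ∀ u ∈ K, ∀ v ∈ K, β = s ∨ v ∈ zn β u := fun u hu v hv =>
    h2.imp id fun h => h u hu hv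
  refine ⟨⟨?_, ?_, ?_, ?_⟩, hne, ?_, ?_⟩
  · intro u v
    by_cases hu : u ∈ K <;> by_cases hv : v ∈ K
    · simp only [swp, if_pos hu, if_pos hv, hf.symm u v]
    · simp only [swp, if_pos hu, if_neg hv]
      rw [hout u hu v hv, hf.symm]
    · simp only [swp, if_neg hu, if_pos hv]
      rw [hout v hv u hu, hf.symm]
    · simp only [swp, if_neg hu, if_neg hv, hf.symm u v]
  · intro u v huv
    exact hf.edge u v ((hne u v).1 huv)
  · intro u v w huv e
    refine hf.inj u v w ((hne u v).1 huv) ?_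
    by_cases hu : u ∈ K
    · simp only [swp, if_pos hu] at e
      rw [wfan_sw_eq, wfan_sw_sw] at e
      exact e
    · simp only [swp, if_neg hu] at e
      exact e
  · intro u v huv
    have h0 := (hne u v).1 huv
    by_cases hu : u ∈ K
    · simp only [swp, if_pos hu]
      by_cases e1 : f u v = α
      · rw [e1, wfan_sw_l]
        exact a2 u hu v (hK u hu v (Or.inl e1))
      · by_cases e2 : f u v = β
        · rw [e2, wfan_sw_r]
          exact a1 u hu v (hK u hu v (Or.inr e2))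
        · rw [wfan_sw_o e1 e2]
          exact hf.zone u v h0
    · simp only [swp, if_neg hu]
      exact hf.zone u v h0
  · intro u hu γ
    have hrow : (∀ v, swp K α β f u v ≠ γ) ↔ ∀ v, f u v ≠ sw α β γ := by
      simp only [swp, if_pos hu, Ne, wfan_sw_eq]
    have hav : (γ = s ∨ u ∈ zn γ u) ↔ (sw α β γ = s ∨ u ∈ zn (sw α β γ) u) := by
      by_cases e1 : γ = α
      · rw [e1, wfan_sw_l]
        exact iff_of_true (a1 u hu u hu) (a2 u hu u hu)
      · by_cases e2 : γ = β
        · rw [e2, wfan_sw_r]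
          exact iff_of_true (a2 u hu u hu) (a1 u hu u hu)
        · rw [wfan_sw_o e1 e2]
    unfold Free
    rw [hrow, hav]
  · intro u hu γ
    simp only [Free, swp, if_neg hu]

/-- Let `μ u` be the `α`-neighbour of `u` if both lie in `Z` and `u` otherwise, `ν` the same for
`β`; these are matchings of `fun u => if u ∈ Z then Z else ∅`.  Take `K'` from `switch` at `x`.
If no edge with colour `α` or `β` leaves `Z` from `K'`, take `K = K'` (`p, q` are both fixed by
`ν`).  Otherwise the vertex where it leaves is the second end of `K'`, so `p ∉ K'`; take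
`K = Z \ K'`. -/
theorem sep_closed (hsym : ∀ u v, f u v = f v u)
    (hinj : ∀ u v w, f u v ≠ 0 → f u v = f u w → v = w) (hα : α ≠ 0) (hβ : β ≠ 0) (hαβ : α ≠ β)
    (hx : x ∈ Z) (hp : p ∈ Z) (hpq : p ≠ q) (mx : ∀ v, f x v ≠ α) (mp : ∀ v, f p v ≠ β)
    (mq : ∀ v, f q v ≠ β)
    (hcut : ∀ u ∈ Z, ∀ u' ∈ Z, ∀ v v', v ∉ Z → v' ∉ Z → (f u v = α ∨ f u v = β) →
      (f u' v' = α ∨ f u' v' = β) → u = u' ∧ v = v') :
    ∃ K ⊆ Z, (∀ u ∈ K, ∀ v, f u v = α ∨ f u v = β → v ∈ K) ∧
      ((x ∈ K ∧ (p ∉ K ∨ q ∉ K)) ∨ (x ∉ K ∧ p ∈ K)) := by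
  have hS : Sym fun u => if u ∈ Z then Z else ∅ := by
    intro a b hb
    by_cases ha : a ∈ Z
    · simp only [if_pos ha] at hb
      simp only [if_pos hb]
      exact ha
    · simp only [if_neg ha] at hb
      exact absurd hb (Finset.notMem_empty _)
  have hnear : Near (wfanM Z f α) (wfanM Z f β) Z := by
    intro v hv
    rw [wfanM_fix fun h => hv h.1, wfanM_fix fun h => hv h.1]
  have fixα : ∀ u, (∀ v ∈ Z, f u v ≠ α) → wfanM Z f α u = u := fun u h =>
    wfanM_fix fun ⟨_, v, hv, e⟩ => h v hv e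
  have fixβ : ∀ u, (∀ v ∈ Z, f u v ≠ β) → wfanM Z f β u = u := fun u h =>
    wfanM_fix fun ⟨_, v, hv, e⟩ => h v hv e
  obtain ⟨K', z, hsub, hconn, hz, hcl, hcase⟩ := switch hS (wfanM_mat hsym hinj hα)
    (wfanM_mat hsym hinj hβ) hnear (fixα x fun v _ => mx v)
  rw [Finset.insert_eq_of_mem hx] at hsub
  have hxK : x ∈ K' := hconn.1
  have hin : ∀ u ∈ K', ∀ v ∈ Z, f u v = α ∨ f u v = β → v ∈ K' := by
    intro u hu v hv e
    rcases e with e | e
    · rw [← wfanM_eq hinj hα (hsub hu) hv e]; exact (hcl u hu).1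
    · rw [← wfanM_eq hinj hβ (hsub hu) hv e]; exact (hcl u hu).2
  have fp := fixβ p fun v _ => mp v
  have fq := fixβ q fun v _ => mq v
  by_cases hleave : ∃ u ∈ K', ∃ v, v ∉ Z ∧ (f u v = α ∨ f u v = β)
  · obtain ⟨u0, hu0, v0, hv0, e0⟩ := hleave
    have hpK : p ∉ K' := by
      intro hpK
      rcases hcase with ⟨_, hw⟩ | ⟨_, _, hw⟩
      · rcases e0 with e0 | e0
        · have := (hw u0 hu0).2 (fixα u0 fun v hv e =>
            hv0 (hinj u0 v v0 (e ▸ hα) (e.trans e0.symm) ▸ hv))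
          exact mx v0 (this ▸ e0)
        · have h1 := (hw u0 hu0).1 (fixβ u0 fun v hv e =>
            hv0 (hinj u0 v v0 (e ▸ hβ) (e.trans e0.symm) ▸ hv))
          have h2 := (hw p hpK).1 fp
          exact mp v0 ((h1.trans h2.symm) ▸ e0)
      · exact (hw p hpK).1 fp
    refine ⟨Z \ K', Finset.sdiff_subset, ?_,
      Or.inr ⟨fun h => (Finset.mem_sdiff.1 h).2 hxK, Finset.mem_sdiff.2 ⟨hp, hpK⟩⟩⟩
    intro u hu v e
    obtain ⟨huZ, huK⟩ := Finset.mem_sdiff.1 hu
    have hvZ : v ∈ Z := by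
      by_contra hvZ
      exact huK ((hcut u huZ u0 (hsub hu0) v v0 hvZ hv0 e e0).1 ▸ hu0)
    refine Finset.mem_sdiff.2 ⟨hvZ, fun hvK => huK (hin v hvK u huZ ?_)⟩
    rw [hsym v u]; exact e
  · refine ⟨K', hsub, ?_, Or.inl ⟨hxK, ?_⟩⟩
    · intro u hu v e
      by_cases hv : v ∈ Z
      · exact hin u hu v hv e
      · exact absurd ⟨u, hu, v, hv, e⟩ hleave
    · by_contra hc
      have hpK : p ∈ K' := by
        by_contra h; exact hc (Or.inl h)
      have hqK : q ∈ K' := by
        by_contra h; exact hc (Or.inr h)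
      rcases hcase with ⟨_, hw⟩ | ⟨_, _, hw⟩
      · exact hpq (((hw p hpK).1 fp).trans ((hw q hqK).1 fq).symm)
      · exact (hw p hpK).1 fp

/-- If a closed fan `T2` existed after the exchange, `T ∩ T2` would be closed for `f`, so
`T ⊆ T2` by minimality.  If `x ∈ K`: `β` is not used at `x` any more but is free at the one of
`p, q` outside `K`.  If `x ∉ K`: `α` is not used at `x` but is free at `p`.  (No member of `T`
has `α` free for `f`.)  Then `hall_star` for `swp K α β f`. -/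
theorem flip_ext (hZ : Zs Ω Γ s zn) (hs : Sym E) (hi : Irr E) (hf : ZC s zn E f)
    (hx : Ctr zn E x) (h0 : f x y = 0) (hT : Cl s zn E f x y T)
    (hmin : ∀ T' ⊆ T, Cl s zn E f x y T' → T' = T) (hp : p ∈ T) (hq : q ∈ T)
    (fx : Free s zn f x α) (fp : Free s zn f p β) (fq : Free s zn f q β)
    (hK : ∀ u ∈ K, ∀ v, f u v = α ∨ f u v = β → v ∈ K)
    (h1 : α = s ∨ ∀ u ∈ K, K ⊆ zn α u) (h2 : β = s ∨ ∀ u ∈ K, K ⊆ zn β u)
    (hsep : (x ∈ K ∧ (p ∉ K ∨ q ∉ K)) ∨ (x ∉ K ∧ p ∈ K)) : ∃ g, ZC s zn E g ∧ Gr f g x y := by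
  have hα : α ≠ 0 := wfan_ne hZ (wfan_avail hZ fx.1)
  have hβ : β ≠ 0 := wfan_ne hZ (wfan_avail hZ fp.1)
  obtain ⟨hg, hne, hin, hout⟩ := swp_zc hf hα hβ hK h1 h2
  have g0 : swp K α β f x y = 0 := by
    by_contra hc
    exact (hne x y).1 hc h0
  have rin : x ∈ K → ∀ u γ, swp K α β f x u = γ → f x u = sw α β γ := by
    intro hxK u γ e
    simp only [swp, if_pos hxK] at e
    exact wfan_sw_eq.1 e
  have rout : x ∉ K → ∀ u γ, swp K α β f x u = γ → f x u = γ := by
    intro hxK u γ e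
    simp only [swp, if_neg hxK] at e
    exact e
  obtain ⟨g, hgz, hgr⟩ := hall_star hZ hs hi hg hx (hT.sub hT.mem) g0 (by
    rintro ⟨T2, hT2⟩
    have badin : x ∈ K → ∀ w ∈ T2, w ∉ K → ¬ Free s zn f w β := by
      intro hxK w hw hwK hfr
      obtain ⟨u, _, _, e⟩ := hT2.cls w hw β ((hout w hwK β).2 hfr)
      have := rin hxK u β e
      rw [wfan_sw_r] at this
      exact fx.2 u this
    have badout : x ∉ K → ∀ w ∈ T2, w ∈ K → ¬ Free s zn f w β := by
      intro hxK w hw hwK hfr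
      obtain ⟨u, _, _, e⟩ := hT2.cls w hw α ((hin w hwK α).2 (by rw [wfan_sw_l]; exact hfr))
      exact fx.2 u (rout hxK u α e)
    have hcl : Cl s zn E f x y (T ∩ T2) := by
      refine ⟨Finset.mem_inter.2 ⟨hT.mem, hT2.mem⟩, Finset.inter_subset_left.trans hT.sub,
        fun w hw => hT.col w (Finset.mem_inter.1 hw).1, fun w hw γ hγ => ?_⟩
      obtain ⟨hw1, hw2⟩ := Finset.mem_inter.1 hw
      obtain ⟨u, hu, huy, e⟩ := hT.cls w hw1 γ hγ
      have hγα : γ ≠ α := fun e' => fx.2 u (e.trans e')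
      have key : ∃ u2 ∈ T2, f x u2 = γ := by
        by_cases hγβ : γ = β
        · subst hγβ
          by_cases hxK : x ∈ K <;> by_cases hwK : w ∈ K
          · obtain ⟨u2, hu2, _, e2⟩ :=
              hT2.cls w hw2 α ((hin w hwK α).2 (by rw [wfan_sw_l]; exact hγ))
            have := rin hxK u2 α e2
            rw [wfan_sw_l] at this
            exact ⟨u2, hu2, this⟩
          · exact absurd hγ (badin hxK w hw2 hwK)
          · exact absurd hγ (badout hxK w hw2 hwK)
          · obtain ⟨u2, hu2, _, e2⟩ := hT2.cls w hw2 γ ((hout w hwK γ).2 hγ)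
            exact ⟨u2, hu2, rout hxK u2 γ e2⟩
        · have hsw := wfan_sw_o hγα hγβ
          have hfr : Free s zn (swp K α β f) w γ := by
            by_cases hwK : w ∈ K
            · exact (hin w hwK γ).2 (by rw [hsw]; exact hγ)
            · exact (hout w hwK γ).2 hγ
          obtain ⟨u2, hu2, _, e2⟩ := hT2.cls w hw2 γ hfr
          by_cases hxK : x ∈ K
          · exact ⟨u2, hu2, (rin hxK u2 γ e2).trans hsw⟩
          · exact ⟨u2, hu2, rout hxK u2 γ e2⟩
      obtain ⟨u2, hu2, e2⟩ := key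
      have : u = u2 := hf.inj x u u2 (hT.col u hu huy) (e.trans e2.symm)
      exact ⟨u, Finset.mem_inter.2 ⟨hu, this ▸ hu2⟩, huy, e⟩
    have hTT : T ⊆ T2 := by
      have := hmin _ Finset.inter_subset_left hcl
      rw [← this]
      exact Finset.inter_subset_right
    rcases hsep with ⟨hxK, hpK | hqK⟩ | ⟨hxK, hpK⟩
    · exact badin hxK p (hTT hp) hpK fp
    · exact badin hxK q (hTT hq) hqK fq
    · exact badout hxK p (hTT hp) hpK fp)
  refine ⟨g, hgz, fun u v => ?_⟩
  rw [hgr u v, hne u v]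

end Pool.Agent.Lib.MP_459a07_lc.V
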