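import Pool.Agent.Lib.MP_459a07_lc.WNm

set_option autoImplicit false

namespace Pool.Agent.Lib.MP_459a07_lc.V

open Classical

/-- The two configurations agree on a ball. -/
def RA (N N' : ℕ → Finset ℕ) (x x' : RS) (v r : ℕ) : Prop :=
  ∀ u ∈ ball N v r, N u = N' u ∧ x.row u = x'.row u

variable {k d σ Λ L : ℕ} {S S' : Finset ℕ} {N N' : ℕ → Finset ℕ} {x x' : RS} {b b' : Bool}
  {a a' u v w r : ℕ} {c : Col} {nd : ℕ → Finset ℕ} {hv : ℕ → Prop}

theorem RA.mono {r' e : ℕ} (h : RA N N' x x' v r) (hu : u ∈ ball N v e) (hr : e + r' ≤ r) :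
    RA N N' x x' u r' := by
  exact fun y hy => h y (ball_mono hr (ball_trans hu hy))

theorem RA.ball_eq (h : RA N N' x x' v r) {e : ℕ} (he : e ≤ r) : ball N v e = ball N' v e := by
  cases e with
  | zero => rfl
  | succ e => exact ball_congr fun y hy => (h y (ball_mono (by omega) hy)).1

theorem RA.symm (h : RA N N' x x' v r) : RA N' N x' x v r := by
  intro y hy
  rw [← h.ball_eq le_rfl] at hy
  exact ⟨(h y hy).1.symm, (h y hy).2.symm⟩

theorem row_eq : x.row u = x'.row u ↔ x.c u = x'.c u ∧ x.nd u = x'.nd u ∧ (x.hv u ↔ x'.hv u) := by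
  simp only [RS.row, Prod.mk.injEq, eq_iff_iff]

theorem mem_QN : a' ∈ QN N c nd a ↔
    rp nd a = a ∧ a' ≠ a ∧ ∃ u ∈ nd a, ∃ w ∈ En N c u, rp nd w = a' := by
  unfold QN
  split_ifs with h
  · simp only [Finset.mem_erase, Finset.mem_image, Finset.mem_biUnion, h, true_and]
    constructor
    · rintro ⟨h1, w, ⟨u, hu, hw⟩, e⟩
      exact ⟨h1, u, hu, w, hw, e⟩
    · rintro ⟨h1, u, hu, w, hw, e⟩
      exact ⟨h1, w, ⟨u, hu, hw⟩, e⟩
  · simp [h]

theorem QN_sym (hs : Sym N) (ho : ∀ X, Ok k N X c) (hp : GPart nd) : Sym (QN N c nd) := by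
  intro a a' h
  obtain ⟨h1, h2, u, hu, w, hw, e⟩ := mem_QN.1 h
  have h3 : rp nd a' = a' := by rw [← e]; exact (hp.on.rp_spec (v := w) trivial).2.2.2
  refine mem_QN.2 ⟨h3, h2.symm, w, (hp.on.mem_iff trivial trivial).2 (e.trans h3.symm), u,
    En_symm hs (ho {u, w}) (by simp) (by simp) hw, ?_⟩
  exact ((hp.on.mem_iff trivial trivial).1 hu).trans h1

theorem QN_rep (hp : GPart nd) (h : a' ∈ QN N c nd a) : rp nd a' = a' := by
  obtain ⟨-, -, u, -, w, -, e⟩ := mem_QN.1 h
  rw [← e]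
  exact (hp.on.rp_spec (v := w) trivial).2.2.2

/-- One step in the quotient is at most `2 Λ + 1` steps in the graph. -/
theorem qball (hp : GPart nd) (hd : ∀ v, nd v ⊆ ball N v Λ) :
    ball (QN N c nd) a r ⊆ ball N a (r * (2 * Λ + 1)) := by
  induction r with
  | zero => simp [ball]
  | succ r ih =>
    intro y hy
    rcases mem_ball_succ.1 hy with h | ⟨a1, h1, h2⟩
    · exact ball_mono (Nat.mul_le_mul_right _ (Nat.le_succ r)) (ih h)
    · obtain ⟨-, -, u, hu, w, hw, e⟩ := mem_QN.1 h2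
      have q1 : w ∈ ball N a1 (Λ + 1) := ball_step (hd a1 hu) (mem_En.1 hw).1
      have q2 : y ∈ ball N w Λ := by
        rw [← e]
        exact hd w (hp.on.rp_spec (v := w) trivial).1
      exact ball_mono (le_of_eq (by ring)) (ball_trans (ih h1) (ball_trans q1 q2))

theorem Qm_ne (hp : GPart nd) : Qm N c nd a a' ≠ 0 ↔ a' ∈ QN N c nd a := by
  rw [mem_QN]
  unfold Qm
  constructor
  · intro h
    split_ifs at h with h1
    · obtain ⟨u, hu, h2⟩ := Finset.exists_ne_zero_of_sum_ne_zero h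
      obtain ⟨w, hw⟩ := Finset.card_ne_zero.1 h2
      have h3 := Finset.mem_inter.1 hw
      exact ⟨h1.1, h1.2.2.symm, u, hu, w, h3.1,
        ((hp.on.mem_iff trivial trivial).1 h3.2).trans h1.2.1⟩
    · exact absurd rfl h
  · rintro ⟨h1, h2, u, hu, w, hw, e⟩
    have h3 : rp nd a' = a' := by rw [← e]; exact (hp.on.rp_spec (v := w) trivial).2.2.2
    rw [if_pos ⟨h1, h3, h2.symm⟩]
    intro h0
    have h4 := Finset.sum_eq_zero_iff.1 h0 u hu
    exact Finset.card_ne_zero.2 ⟨w, Finset.mem_inter.2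
      ⟨hw, (hp.on.mem_iff trivial trivial).2 (e.trans h3.symm)⟩⟩ h4

theorem Qm_symm (hs : Sym N) (ho : ∀ X, Ok k N X c) : Qm N c nd a a' = Qm N c nd a' a := by
  unfold Qm
  have key : ∀ (u : ℕ) (Y : Finset ℕ),
      (En N c u ∩ Y).card = ∑ w ∈ Y, if w ∈ En N c u then 1 else 0 := by
    intro u Y
    rw [← Finset.card_filter]
    congr 1
    ext w
    simp [and_comm]
  have hsy : ∀ u w, w ∈ En N c u → u ∈ En N c w := fun u w hw =>
    En_symm hs (ho {u, w}) (by simp) (by simp) hw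
  by_cases h : rp nd a = a ∧ rp nd a' = a' ∧ a ≠ a'
  · rw [if_pos h, if_pos ⟨h.2.1, h.1, h.2.2.symm⟩]
    simp only [key]
    rw [Finset.sum_comm]
    exact Finset.sum_congr rfl fun w _ => Finset.sum_congr rfl fun u _ =>
      if_congr ⟨hsy u w, hsy w u⟩ rfl rfl
  · rw [if_neg h, if_neg fun h' => h ⟨h'.2.1, h'.1, h'.2.2.symm⟩]

/-- A node contains at most one half edge (`hv1`, `sep`). -/
theorem hv_uniq (hR : RI k b d σ Λ N x) (hu : x.hv u) (hw : x.hv w) (h : u ∈ x.nd w) : u = w := by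
  obtain ⟨y, h1, h2⟩ := hR.hv1 u hu
  obtain ⟨y', h3, -⟩ := hR.hv1 w hw
  have e : rp x.nd u = rp x.nd w := (hR.part.on.mem_iff trivial trivial).1 h
  rcases hR.sep u y w y' h1 h3 (e ▸ self_mem_ball) with q | q
  · exact q.symm
  · exact absurd (q ▸ hw) h2

/-- The cut of a family of nodes, read in the quotient: sort the uncoloured edges leaving the
union by the node of their other end. -/
theorem cutm_eq (hR : RI k b d σ Λ N x) {C : Finset ℕ} (hC : ∀ a ∈ C, rp x.nd a = a) :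
    cutm (Qof k S N x).N (Qof k S N x).m C + (C.filter (Qof k S N x).hw).card =
      cutp N x.c x.hv (C.biUnion x.nd) := by
  have hp := hR.part.on
  have hF : ∀ a ∈ C, True ∧ rp x.nd a = a := fun a ha => ⟨trivial, hC a ha⟩
  have hdis : (C : Set ℕ).PairwiseDisjoint x.nd := by
    intro a ha a' ha' hne
    refine Finset.disjoint_left.2 fun y h1 h2 => hne ?_
    rw [← hC a ha, ← hC a' ha', ← (hp.mem_iff trivial trivial).1 h1,
      (hp.mem_iff trivial trivial).1 h2]
  unfold cutp cutm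
  rw [Finset.sum_biUnion hdis, Finset.card_filter, ← Finset.sum_add_distrib]
  refine Finset.sum_congr rfl fun a ha => ?_
  rw [Finset.sum_add_distrib]
  congr 1
  · change ∑ w ∈ QN N x.c x.nd a \ C, Qm N x.c x.nd a w = _
    have e1 : ∀ w ∈ QN N x.c x.nd a \ C,
        Qm N x.c x.nd a w = ∑ u ∈ x.nd a, (En N x.c u ∩ x.nd w).card := by
      intro w hw
      have h1 := (Finset.mem_sdiff.1 hw).1
      unfold Qm
      rw [if_pos ⟨hC a ha, QN_rep hR.part h1, (mem_QN.1 h1).2.1.symm⟩]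
    rw [Finset.sum_congr rfl e1, Finset.sum_comm]
    refine Finset.sum_congr rfl fun u hu => ?_
    symm
    rw [Finset.card_eq_sum_card_fiberwise (f := rp x.nd) (t := QN N x.c x.nd a \ C)]
    · refine Finset.sum_congr rfl fun w hw => ?_
      have h1 := Finset.mem_sdiff.1 hw
      have h2 := QN_rep hR.part h1.1
      congr 1
      ext y
      rw [Finset.mem_filter, Finset.mem_sdiff, Finset.mem_inter, hp.mem_biUnion hF,
        hp.mem_iff trivial trivial, h2]
      constructor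
      · exact fun h => ⟨h.1.1, h.2⟩
      · exact fun h => ⟨⟨h.1, fun h' => h1.2 (h.2 ▸ h'.2)⟩, h.2⟩
    · intro y hy
      have h1 := Finset.mem_sdiff.1 (Finset.mem_coe.1 hy)
      have h2 : rp x.nd y ∉ C := fun h => h1.2 ((hp.mem_biUnion hF).2 ⟨trivial, h⟩)
      exact Finset.mem_coe.2 (Finset.mem_sdiff.2
        ⟨mem_QN.2 ⟨hC a ha, fun e => h2 (e.symm ▸ ha), u, hu, y, h1.1, rfl⟩, h2⟩)
  · by_cases h : ∃ v ∈ x.nd a, x.hv v
    · have h' : (Qof k S N x).hw a := ⟨hC a ha, h⟩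
      obtain ⟨v, h1, h2⟩ := h
      rw [if_pos h', Finset.sum_eq_single_of_mem v h1]
      · simp [ind, h2]
      · intro u hu hne
        have : ¬ x.hv u := fun h3 =>
          hne (hv_uniq hR h3 h2 (by rw [(hR.part a).2 v h1]; exact hu))
        simp [ind, this]
    · have h' : ¬ (Qof k S N x).hw a := fun h' => h h'.2
      rw [if_neg h']
      symm
      refine Finset.sum_eq_zero fun u hu => ?_
      have : ¬ x.hv u := fun h3 => h ⟨u, hu, h3⟩
      simp [ind, this]

theorem dg_eq (hG : GV k S N) (hR : RI k b d σ Λ N x) (ha : rp x.nd a = a) :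
    dg (Qof k S N x).N (Qof k S N x).m a + ind ((Qof k S N x).hw a) =
      cutp N x.c x.hv (x.nd a) := by
  have _ := hG
  have h := cutm_eq (S := S) hR (C := {a}) (by simpa using ha)
  rw [Finset.singleton_biUnion] at h
  rw [← h]
  congr 1
  · unfold cutm dg
    rw [Finset.sum_singleton, Finset.sdiff_singleton_eq_erase, Finset.erase_eq_of_notMem]
    exact fun h1 => (mem_QN.1 h1).2.1 rfl
  · rw [Finset.card_filter, Finset.sum_singleton]
    rfl

theorem dg_nonrep (ha : rp x.nd a ≠ a) :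
    dg (Qof k S N x).N (Qof k S N x).m a + ind ((Qof k S N x).hw a) = 0 := by
  have h1 : (Qof k S N x).N a = ∅ := by
    change QN N x.c x.nd a = ∅
    unfold QN
    rw [if_neg ha]
  have h2 : ¬ (Qof k S N x).hw a := fun h => ha h.1
  simp [dg, h1, ind, h2]

/-- `card`: `|QN a| ≤ dg a ≤ d`.  `sub`: a representative with an edge in its node has a
neighbour or is that end itself (`diam`).  `tn2`, `hw1`: two such nodes in `ball a σ'` are within
`2 σ'` of each other, so `sep` applies. -/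
theorem qof_valid {σ' : ℕ} (hG : GV k S N) (hR : RI k b d σ Λ N x) (hD : NoDef N x d L)
    (h2 : 2 ≤ d) (hk : d ≤ k) (hσ : 2 * σ' ≤ σ) : (Qof k S N x).Valid k d L σ' := by
  have hp := hR.part.on
  have hsym : Sym (QN N x.c x.nd) := QN_sym hG.sym hR.ok hR.part
  have hdeg : ∀ a, dg (Qof k S N x).N (Qof k S N x).m a + ind ((Qof k S N x).hw a) ≤ d := by
    intro a
    by_cases ha : rp x.nd a = a
    · rw [dg_eq hG hR ha]
      have := (nm_pal (hR.nm a)).2.2.1
      rw [pal_card hk] at this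
      omega
    · rw [dg_nonrep ha]
      exact Nat.zero_le _
  have close : ∀ a a0 a1 v0 u0 v1 u1, a0 ∈ ball (QN N x.c x.nd) a σ' →
      a1 ∈ ball (QN N x.c x.nd) a σ' → rp x.nd v0 = a0 → rp x.nd v1 = a1 →
      x.c v0 u0 = k + 2 → x.c v1 u1 = k + 2 → v1 = v0 ∨ v1 = u0 := by
    intro a a0 a1 v0 u0 v1 u1 b0 b1 e0 e1 c0 c1
    refine hR.sep v0 u0 v1 u1 c0 c1 ?_
    rw [e0, e1]
    exact ball_mono (by omega) (ball_trans (ball_symm hsym b0) b1)
  have rpm : ∀ a v, rp x.nd a = a → v ∈ x.nd a → rp x.nd v = a := fun a v ha hv =>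
    ((hp.mem_iff trivial trivial).1 hv).trans ha
  refine ⟨hsym, fun a h => (mem_QN.1 h).2.1 rfl, fun u v h => ?_, fun u => ?_, hk, h2,
    fun u w => Qm_symm hG.sym hR.ok, fun u w => Qm_ne hR.part, hdeg, fun a h => ?_,
    fun a => ?_, fun a => ?_, fun C b _ ho hL hC => ?_⟩
  · obtain ⟨-, -, u1, hu, w, hw, -⟩ := mem_QN.1 h
    refine ball_subS hG.sym hG.sub (hG.sub u1 w (mem_En.1 hw).1) (hR.diam u1 ?_)
    rw [(hR.part u).2 u1 hu]
    exact (hR.part u).1
  · have h1 : ((Qof k S N x).N u).card ≤ dg (Qof k S N x).N (Qof k S N x).m u := by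
      unfold dg
      rw [Finset.card_eq_sum_ones]
      exact Finset.sum_le_sum fun w hw => Nat.one_le_iff_ne_zero.2 ((Qm_ne hR.part).2 hw)
    have := hdeg u
    omega
  · obtain ⟨h1, v, h3, h4⟩ := h
    obtain ⟨y, h5, -⟩ := hR.hv1 v h4
    exact ⟨h1, v, h3, y, h5⟩
  · rcases ((ball (Qof k S N x).N a σ').filter (Qof k S N x).tn).eq_empty_or_nonempty with
      e | ⟨a0, h0⟩
    · rw [e]; simp
    · obtain ⟨b0, r0, v0, m0, u0, c0⟩ := Finset.mem_filter.1 h0
      refine le_trans (Finset.card_le_card (t := {rp x.nd v0, rp x.nd u0}) fun a1 h1 => ?_)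
        Finset.card_le_two
      obtain ⟨b1, r1, v1, m1, u1, c1⟩ := Finset.mem_filter.1 h1
      have e1 := rpm a1 v1 r1 m1
      rcases close a a0 a1 v0 u0 v1 u1 b0 b1 (rpm a0 v0 r0 m0) e1 c0 c1 with q | q
      · rw [← e1, q]; simp
      · rw [← e1, q]; simp
  · refine Finset.card_le_one.2 fun a0 h0 a1 h1 => ?_
    obtain ⟨b0, r0, v0, m0, c0⟩ := Finset.mem_filter.1 h0
    obtain ⟨b1, r1, v1, m1, c1⟩ := Finset.mem_filter.1 h1
    obtain ⟨u0, d0, n0⟩ := hR.hv1 v0 c0
    obtain ⟨u1, d1, -⟩ := hR.hv1 v1 c1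
    have e0 := rpm a0 v0 r0 m0
    have e1 := rpm a1 v1 r1 m1
    rcases close a a0 a1 v0 u0 v1 u1 b0 b1 e0 e1 d0 d1 with q | q
    · rw [← e0, ← e1, q]
    · exact absurd (q ▸ c1) n0
  · have hr : ∀ a ∈ C, rp x.nd a = a := by
      intro a ha
      by_contra hc
      have := hC a ha
      rw [dg_nonrep hc] at this
      omega
    rw [cutm_eq hR hr]
    exact hD C (fun a ha => ⟨hr a ha, (dg_eq hG hR (hr a ha)).symm.trans (hC a ha)⟩) ho hL

theorem QN_congr (hR : RI k b d σ Λ N x) (h : RA N N' x x' a (Λ + 1)) :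
    QN N x.c x.nd a = QN N' x'.c x'.nd a := by
  have e0 : x.nd a = x'.nd a := (row_eq.1 (h a self_mem_ball).2).2.1
  have e1 : ∀ u ∈ x.nd a, En N x.c u = En N' x'.c u := by
    intro u hu
    have q := h u (ball_mono (Nat.le_succ _) (hR.diam a hu))
    unfold En
    rw [q.1, (row_eq.1 q.2).1]
  have e2 : ∀ u ∈ x.nd a, ∀ w ∈ En N x.c u, rp x.nd w = rp x'.nd w := fun u hu w hw =>
    rp_congr (row_eq.1 (h w (ball_step (hR.diam a hu) (mem_En.1 hw).1)).2).2.1
  ext y
  rw [mem_QN, mem_QN, rp_congr e0, ← e0]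
  refine and_congr_right fun _ => and_congr_right fun _ => exists_congr fun u =>
    and_congr_right fun hu => ?_
  rw [← e1 u hu]
  exact exists_congr fun w => and_congr_right fun hw => by rw [e2 u hu w hw]

/-- For `Qm a b` distinguish `b ∈ QN a` (then `b` is within `2 Λ + 1`) from the other case
(`Qm_ne` on both sides). -/
theorem qof_sa (hR : RI k b d σ Λ N x) (hR' : RI k b d σ Λ N' x')
    (h : RA N N' x x' a (2 * Λ + 1)) : SA (Qof k S N x) (Qof k S' N' x') a := by
  have eN : QN N x.c x.nd a = QN N' x'.c x'.nd a :=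
    QN_congr hR (h.mono (e := 0) self_mem_ball (by omega))
  have e0 : x.nd a = x'.nd a := (row_eq.1 (h a self_mem_ball).2).2.1
  have e1 : ∀ u ∈ x.nd a, N u = N' u ∧ x.row u = x'.row u := fun u hu =>
    h u (ball_mono (by omega) (hR.diam a hu))
  refine ⟨eN, funext fun y => ?_, ?_, ?_⟩
  · change Qm N x.c x.nd a y = Qm N' x'.c x'.nd a y
    by_cases hy : y ∈ QN N x.c x.nd a
    · have q : y ∈ ball N a (2 * Λ + 1) := by
        have := qball (c := x.c) (r := 1) hR.part hR.diam (mem_ball_one hy)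
        rwa [one_mul] at this
      have e2 : x.nd y = x'.nd y := (row_eq.1 (h y q).2).2.1
      unfold Qm
      rw [rp_congr e0, rp_congr e2, ← e0, ← e2]
      refine if_congr Iff.rfl (Finset.sum_congr rfl fun u hu => ?_) rfl
      unfold En
      rw [(e1 u hu).1, (row_eq.1 (e1 u hu).2).1]
    · have q1 : Qm N x.c x.nd a y = 0 := by
        by_contra hc
        exact hy ((Qm_ne hR.part).1 hc)
      have q2 : Qm N' x'.c x'.nd a y = 0 := by
        by_contra hc
        exact hy (eN ▸ (Qm_ne hR'.part).1 hc)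
      rw [q1, q2]
  · change (rp x.nd a = a ∧ ∃ v ∈ x.nd a, x.hv v) ↔ (rp x'.nd a = a ∧ ∃ v ∈ x'.nd a, x'.hv v)
    rw [rp_congr e0, ← e0]
    exact and_congr_right fun _ => exists_congr fun u => and_congr_right fun hu =>
      (row_eq.1 (e1 u hu).2).2.2
  · change (rp x.nd a = a ∧ ∃ v ∈ x.nd a, ∃ u, x.c v u = k + 2) ↔
      (rp x'.nd a = a ∧ ∃ v ∈ x'.nd a, ∃ u, x'.c v u = k + 2)
    rw [rp_congr e0, ← e0]
    refine and_congr_right fun _ => exists_congr fun u => and_congr_right fun hu => ?_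
    rw [(row_eq.1 (e1 u hu).2).1]

end Pool.Agent.Lib.MP_459a07_lc.V
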