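import Pool.Agent.Lib.MP_459a07_lc.WBridge
import Pool.Agent.Lib.MP_459a07_lc.WAB
import Pool.Agent.Lib.MP_459a07_lc.WQuot

set_option autoImplicit false

namespace Pool.Agent.Lib.MP_459a07_lc.V

open Classical

variable {k σ Λ : ℕ} {S : Finset ℕ} {N N' : ℕ → Finset ℕ} {x x' : RS} {v : ℕ}

/-- The initial state. -/
def x0 : RS := ⟨fun _ _ => 0, fun v => {v}, fun _ => False⟩

theorem x0_ri (hG : GV k S N) (σ : ℕ) : RI k false k σ 0 N x0 := by
  refine ⟨fun X => ⟨?_, ?_, ?_, ?_⟩, ?_, ?_, ?_, ?_, ?_, ?_⟩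
  · intro u _ v _
    rfl
  · intro u _ v h
    exact absurd rfl h
  · intro u _ v w h
    exact absurd rfl h
  · intro u _ v
    exact Nat.zero_le _
  · intro v
    refine ⟨Finset.mem_singleton_self v, fun u hu => ?_⟩
    have : u = v := Finset.mem_singleton.1 hu
    rw [this]
  · intro v
    refine Nm.leaf (Pal k k) v ?_ ?_ ?_
    · intro a ha
      rcases Finset.mem_insert.1 ha with h | h
      · rw [h]
        exact Finset.mem_Icc.2 ⟨by omega, le_rfl⟩
      · have := Finset.mem_Icc.1 h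
        exact Finset.mem_Icc.2 ⟨this.1, by omega⟩
    · intro u ha
      rcases Finset.mem_insert.1 ha with h | h
      · change 0 = k + 1 at h
        omega
      · have := (Finset.mem_Icc.1 h).1
        change 1 ≤ 0 at this
        omega
    · rw [pal_card le_rfl]
      unfold cutp
      rw [Finset.sum_singleton]
      have h1 : (En N x0.c v \ {v}).card ≤ (N v).card :=
        Finset.card_le_card (Finset.sdiff_subset.trans (Finset.filter_subset _ _))
      have h2 : ind (x0.hv v) = 0 := if_neg (fun h => h)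
      have h3 := hG.card v
      omega
  · intro v
    exact Finset.Subset.refl _
  · intro w h
    exact h.elim
  · intro y w h
    change 0 = k + 2 at h
    omega
  · intro y w y' w' h
    change 0 = k + 2 at h
    omega

/-- All reserved edges with an end in one node are the same edge (`sep`, `hv2`, `inj`). -/
theorem mk_one {b : Bool} {d : ℕ} (hR : RI k b d σ Λ N x) (v : ℕ) : ∃ y w, ∀ a ∈ x.nd v, ∀ u,
    x.c a u = k + 2 → (a = y ∧ u = w) ∨ (a = w ∧ u = y ∧ x.hv w) := by
  by_cases hex : ∃ a0 ∈ x.nd v, ∃ u0, x.c a0 u0 = k + 2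
  · obtain ⟨a0, ha0, u0, h0⟩ := hex
    have key : ∀ a ∈ x.nd v, ∀ u, x.c a u = k + 2 → (a = a0 ∧ u = u0) ∨ (a = u0 ∧ u = a0) := by
      intro a ha u h
      have e : rp x.nd a = rp x.nd a0 := by
        unfold rp
        rw [(hR.part v).2 a ha, (hR.part v).2 a0 ha0]
      have hs := hR.sep a0 u0 a u h0 h (by rw [e]; exact self_mem_ball)
      rcases hs with hs | hs
      · left
        refine ⟨hs, ?_⟩
        subst hs
        exact (hR.ok {a}).inj a (Finset.mem_singleton_self a) u u0 (by omega) (by rw [h, h0])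
      · right
        refine ⟨hs, ?_⟩
        subst hs
        have hsy : x.c a a0 = x.c a0 a :=
          (hR.ok {a, a0}).symm a (by simp) a0 (by simp)
        exact (hR.ok {a}).inj a (Finset.mem_singleton_self a) u a0 (by omega) (by rw [h, hsy, h0])
    rcases hR.hv2 a0 u0 h0 with hh | hh
    · refine ⟨u0, a0, fun a ha u h => ?_⟩
      rcases key a ha u h with h1 | h1
      · exact Or.inr ⟨h1.1, h1.2, hh⟩
      · exact Or.inl h1
    · refine ⟨a0, u0, fun a ha u h => ?_⟩
      rcases key a ha u h with h1 | h1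
      · exact Or.inl h1
      · exact Or.inr ⟨h1.1, h1.2, hh⟩
  · exact ⟨0, 0, fun a ha u h => absurd ⟨a, ha, u, h⟩ hex⟩

theorem wfin_cbd {c c' : Col} {u w u' w' : ℕ} (h : c u w = c' u' w') :
    cbd k c u w = cbd k c' u' w' := by
  unfold cbd
  rw [h]

/-- Solutions for the parts fit together, since `cbd k c` is symmetric on `X`. -/
theorem finP_glue {X : Finset ℕ} {c : Col} {nd : ℕ → Finset ℕ} (hs : Sym N) (ho : Ok k N X c)
    (hp : Part X nd) (h : ∀ v ∈ X, ∃ cF, FinP k N (nd v) (cbd k c) cF) :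
    ∃ cF, FinP k N X (cbd k c) cF := by
  have hg : ∀ v ∈ X, FinP k N (nd v) (cbd k c) (epsilon (FinP k N (nd v) (cbd k c))) :=
    fun v hv => epsilon_spec (h v hv)
  refine ⟨fun u => epsilon (FinP k N (nd u) (cbd k c)) u, ?_, ?_, ?_, ?_⟩
  · intro u hu w hw huw
    by_cases hm : w ∈ nd u
    · have e : nd w = nd u := (hp u hu).2.2 w hm
      have h1 := (hg u hu).symm u (hp u hu).1 w hm huw
      change epsilon (FinP k N (nd u) (cbd k c)) u w = epsilon (FinP k N (nd w) (cbd k c)) w u
      rw [e]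
      exact h1
    · have hm' : u ∉ nd w := fun h' => hm (by
        rw [(hp w hw).2.2 u h']
        exact (hp w hw).1)
      have h1 := (hg u hu).bd u (hp u hu).1 w huw hm
      have h2 := (hg w hw).bd w (hp w hw).1 u (hs _ _ huw) hm'
      change epsilon (FinP k N (nd u) (cbd k c)) u w = epsilon (FinP k N (nd w) (cbd k c)) w u
      rw [h1, h2]
      exact wfin_cbd (ho.symm u hu w hw)
  · intro u hu w huw
    exact (hg u hu).rng u (hp u hu).1 w huw
  · intro u hu w huw z huz he
    exact (hg u hu).inj u (hp u hu).1 w huw z huz he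
  · intro u hu w huw hw
    exact (hg u hu).bd u (hp u hu).1 w huw fun h' => hw ((hp u hu).2.1 h')

/-- If an uncoloured edge `t t'` leaves `X = nd v`, give it colour `1` in row `t`, apply `StA`
(`pal_erase`, `Pal k 0 = {k + 1}`), `lf1` for the parts and `finP_glue`; the boundary values are
those of `cbd k x.c`.  Otherwise `lf2`. -/
theorem fin_res (hG : GV k S N) (hk : 1 ≤ k) (hR : RI k false 1 σ Λ N x) (v : ℕ) :
    ∃ cF, FinP k N (x.nd v) (cbd k x.c) cF := by
  obtain ⟨y, w, hm⟩ := mk_one hR v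
  by_cases hcl : ∀ t ∈ x.nd v, En N x.c t ⊆ x.nd v
  · exact lf2 hG.sym hG.irr hk (hR.ok _) (hR.nm v) hcl hm
  · push Not at hcl
    obtain ⟨t, ht, hcl⟩ := hcl
    obtain ⟨t', ht1, ht2⟩ := Finset.not_subset.1 hcl
    have he : OneEdge N (x.nd v) x.c (fun u z => if u = t ∧ z = t' then 1 else x.c u z) t t' 1 :=
      ⟨ht, ht2, ht1, fun _ _ _ => rfl⟩
    have h1 : (1 : ℕ) ∈ Pal k 1 :=
      Finset.mem_insert_of_mem (Finset.mem_Icc.2 ⟨le_rfl, le_rfl⟩)
    have hres := (stAB (k := k) (hv := x.hv) hG.sym (x.nd v)).1 x.c _ false (Pal k 1) t t' 1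
      (hR.ok _) (hR.nm v) h1 he
    have hP : (Pal k 1).erase 1 = {k + 1} := by
      rw [(pal_erase le_rfl hk).1]
      simp [Pal]
    rw [hP] at hres
    obtain ⟨r, hE, hp, hn⟩ := hres
    have hparts : ∀ u ∈ x.nd v, ∃ cF, FinP k N (r.2 u) (cbd k r.1) cF := by
      intro u hu
      refine lf1 (y := y) (w := w) hG.sym hG.irr (hE.ok.mono (hp u hu).2.1) (hn u hu) ?_
      intro a ha z hz
      have ha' := (hp u hu).2.1 ha
      have h2 := hE.nomk a ha' z hz
      refine hm a ha' z ?_
      by_cases hc : a = t ∧ z = t'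
      · rw [if_pos hc] at h2
        omega
      · rw [if_neg hc] at h2
        exact h2
    obtain ⟨cF, hF⟩ := finP_glue hG.sym hE.ok hp hparts
    refine ⟨cF, hF.symm, hF.rng, hF.inj, ?_⟩
    intro u hu z huz hz
    rw [hF.bd u hu z huz hz]
    have h2 := hE.keep u hu z (Or.inl hz)
    by_cases hc : u = t ∧ z = t'
    · rw [if_pos hc] at h2
      have h3 : x.c u z = 0 := by
        rw [hc.1, hc.2]
        exact (Finset.mem_filter.1 ht1).2
      unfold cbd
      rw [h2, h3, if_neg (by omega), if_neg (by omega), if_pos rfl]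
    · rw [if_neg hc] at h2
      exact wfin_cbd h2

theorem fstep_spec (hG : GV k S N) (hk : 1 ≤ k) (hR : RI k false 1 σ Λ N x) :
    Total k N (fstep k N x) := by
  have hg : ∀ v, FinP k N (x.nd v) (cbd k x.c) (epsilon (FinP k N (x.nd v) (cbd k x.c))) :=
    fun v => epsilon_spec (fin_res hG hk hR v)
  have hp := hR.part
  refine ⟨?_, ?_, ?_⟩
  · intro u w huw
    change epsilon (FinP k N (x.nd u) (cbd k x.c)) u w =
      epsilon (FinP k N (x.nd w) (cbd k x.c)) w u
    by_cases hm : w ∈ x.nd u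
    · have e : x.nd w = x.nd u := (hp u).2 w hm
      rw [e]
      exact (hg u).symm u (hp u).1 w hm huw
    · have hm' : u ∉ x.nd w := fun h' => hm (by
        rw [(hp w).2 u h']
        exact (hp w).1)
      rw [(hg u).bd u (hp u).1 w huw hm, (hg w).bd w (hp w).1 u (hG.sym _ _ huw) hm']
      exact wfin_cbd ((hR.ok {u, w}).symm u (by simp) w (by simp))
  · intro u w huw
    exact (hg u).rng u (hp u).1 w huw
  · intro u w huw z huz he
    exact (hg u).inj u (hp u).1 w huw z huz he

theorem wfin_imp {X : Finset ℕ} {cb cb' cF : Col} (h : ∀ u ∈ X, N u = N' u ∧ cb u = cb' u)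
    (hF : FinP k N X cb cF) : FinP k N' X cb' cF := by
  refine ⟨?_, ?_, ?_, ?_⟩
  · intro u hu w hw huw
    exact hF.symm u hu w hw ((h u hu).1 ▸ huw)
  · intro u hu w huw
    exact hF.rng u hu w ((h u hu).1 ▸ huw)
  · intro u hu w huw z huz he
    exact hF.inj u hu w ((h u hu).1 ▸ huw) z ((h u hu).1 ▸ huz) he
  · intro u hu w huw hw
    rw [← (h u hu).2]
    exact hF.bd u hu w ((h u hu).1 ▸ huw) hw

theorem fstep_local (hR : RI k false 1 σ Λ N x) (h : RA N N' x x' v Λ) :
    (fstep k N x).row v = (fstep k N' x').row v := by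
  have hv := (h v self_mem_ball).2
  have e1 : x.nd v = x'.nd v := congrArg (fun p => p.2.1) hv
  have e2 : x.hv v = x'.hv v := congrArg (fun p => p.2.2) hv
  have hc : ∀ u ∈ x.nd v, N u = N' u ∧ cbd k x.c u = cbd k x'.c u := by
    intro u hu
    have h1 := h u (hR.diam v hu)
    have h2 : x.c u = x'.c u := congrArg (fun p => p.1) h1.2
    exact ⟨h1.1, funext fun z => wfin_cbd (congrFun h2 z)⟩
  have e3 : FinP k N (x.nd v) (cbd k x.c) = FinP k N' (x'.nd v) (cbd k x'.c) := by
    rw [← e1]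
    funext cF
    exact propext ⟨wfin_imp hc, wfin_imp fun u hu => ⟨(hc u hu).1.symm, (hc u hu).2.symm⟩⟩
  change (epsilon (FinP k N (x.nd v) (cbd k x.c)) v, x.nd v, x.hv v) =
    (epsilon (FinP k N' (x'.nd v) (cbd k x'.c)) v, x'.nd v, x'.hv v)
  rw [e3, e1, e2]

end Pool.Agent.Lib.MP_459a07_lc.V
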