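import Pool.Agent.Lib.MP_459a07_lc.WQuot

set_option autoImplicit false

namespace Pool.Agent.Lib.MP_459a07_lc.V

open Classical

variable {k d σ Λ L D : ℕ} {S S' : Finset ℕ} {N N' : ℕ → Finset ℕ} {x x' : RS}
  {a v : ℕ} {c : Col} {nd : ℕ → Finset ℕ} {hv : ℕ → Prop} {F F' : Finset ℕ}

theorem wgrp_mem (hp : GPart nd) (hF : ∀ a ∈ F, rp nd a = a) :
    v ∈ F.biUnion nd ↔ rp nd v ∈ F := by
  rw [hp.on.mem_biUnion (fun a ha => ⟨trivial, hF a ha⟩)]
  simp

theorem wgrp_step (hp : GPart nd) {t w : ℕ} (hw : w ∈ En N c t) :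
    rp nd w = rp nd t ∨ rp nd w ∈ QN N c nd (rp nd t) := by
  by_cases h : rp nd w = rp nd t
  · exact Or.inl h
  · have h1 := hp.on.rp_spec (v := t) trivial
    exact Or.inr (mem_QN.2 ⟨h1.2.2.2, h, t, h1.2.2.1 ▸ (hp t).1, w, hw, rfl⟩)

theorem wgrp_closed (hp : GPart nd) (hF : ∀ a ∈ F, rp nd a = a) {G : Finset ℕ} (hG : G ⊆ F)
    (hc : ∀ b ∈ G, ∀ b' ∈ F, b' ∈ QN N c nd b → b' ∈ G) :
    cutp N c hv (G.biUnion nd) ≤ cutp N c hv (F.biUnion nd) := by
  have hG' : ∀ a ∈ G, rp nd a = a := fun a ha => hF a (hG ha)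
  refine cutp_le_of_closed (Finset.biUnion_subset_biUnion_of_subset_left _ hG) ?_
  intro t ht w hw hwF
  rw [wgrp_mem hp hG'] at ht ⊢
  rw [wgrp_mem hp hF] at hwF
  rcases wgrp_step hp hw with h | h
  · rwa [h]
  · exact hc _ ht _ hwF h

/-- Split `F` into the component `F1` of `a` and the rest.  If the rest is not empty, one of the
two parts is odd and proper, and no uncoloured edge joins the parts (`QN_sym`), so
`cutp_le_of_closed` contradicts minimality. -/
theorem minDef_conn (hs : Sym N) (ho : ∀ X, Ok k N X c) (hp : GPart nd)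
    (h : MinDef N c hv nd D F) (ha : a ∈ F) : Conn (QN N c nd) F a := by
  refine ⟨ha, fun y hy => ?_⟩
  by_contra hcon
  obtain ⟨r, hr⟩ : ∃ r : ℕ → Prop, ∀ y, r y ↔ Relation.ReflTransGen
      (fun a a' => a ∈ F ∧ a' ∈ F ∧ a' ∈ QN N c nd a) a y := ⟨_, fun _ => Iff.rfl⟩
  have hcard := Finset.card_filter_add_card_filter_not (s := F) r
  have hodd := h.odd
  rw [← hcard] at hodd
  have hsm := h.small
  rcases Nat.even_or_odd (F.filter r).card with he | ho1
  · have ho2 : Odd (F.filter fun y => ¬ r y).card := by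
      rw [Nat.odd_iff] at hodd ⊢
      rw [Nat.even_iff] at he
      omega
    have hss : (F.filter fun y => ¬ r y) ⊂ F := Finset.filter_ssubset.2
      ⟨a, ha, fun h0 => h0 ((hr a).2 Relation.ReflTransGen.refl)⟩
    have h1 := h.min _ hss ho2
    have h2 := wgrp_closed (N := N) (c := c) (hv := hv) hp h.rep hss.subset fun b hb b' hb' hq =>
      Finset.mem_filter.2 ⟨hb', fun h0 => (Finset.mem_filter.1 hb).2 ((hr b).2
        (((hr b').1 h0).tail ⟨hb', (Finset.mem_filter.1 hb).1, QN_sym hs ho hp _ _ hq⟩))⟩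
    omega
  · have hss : F.filter r ⊂ F := Finset.filter_ssubset.2 ⟨y, hy, fun h0 => hcon ((hr y).1 h0)⟩
    have h1 := h.min _ hss ho1
    have h2 := wgrp_closed (N := N) (c := c) (hv := hv) hp h.rep hss.subset fun b hb b' hb' hq =>
      Finset.mem_filter.2 ⟨hb', (hr b').2
        (((hr b).1 (Finset.mem_filter.1 hb).2).tail ⟨(Finset.mem_filter.1 hb).1, hb', hq⟩)⟩
    omega

/-- Two different minimal deficient families meet in an odd number of nodes or not at all:
otherwise both differences are odd and proper, against `cutp_posi`. -/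
theorem minDef_inter (hs : Sym N) (ho : ∀ X, Ok k N X c) (hp : GPart nd)
    (h : MinDef N c hv nd D F) (h' : MinDef N c hv nd D F') (hd : ¬ Disjoint F F')
    (hne : F ≠ F') : Odd (F ∩ F').card ∧ F ∩ F' ≠ F' := by
  constructor
  · by_contra hcon
    have he : (F ∩ F').card % 2 = 0 := by
      rw [Nat.odd_iff] at hcon
      omega
    have c1 := Finset.card_sdiff_add_card_inter F F'
    have c2 := Finset.card_sdiff_add_card_inter F' F
    rw [Finset.inter_comm F' F] at c2
    have o1 := Nat.odd_iff.1 h.odd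
    have o2 := Nat.odd_iff.1 h'.odd
    obtain ⟨y, hy, hy'⟩ := Finset.not_disjoint_iff.1 hd
    have s1 : F \ F' ⊂ F := Finset.ssubset_iff_subset_ne.2 ⟨Finset.sdiff_subset, fun e =>
      (Finset.mem_sdiff.1 (e.symm ▸ hy : y ∈ F \ F')).2 hy'⟩
    have s2 : F' \ F ⊂ F' := Finset.ssubset_iff_subset_ne.2 ⟨Finset.sdiff_subset, fun e =>
      (Finset.mem_sdiff.1 (e.symm ▸ hy' : y ∈ F' \ F)).2 hy⟩
    have m1 := h.min _ s1 (Nat.odd_iff.2 (by omega))
    have m2 := h'.min _ s2 (Nat.odd_iff.2 (by omega))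
    have e1 : (F \ F').biUnion nd = F.biUnion nd \ F'.biUnion nd := by
      ext u
      rw [Finset.mem_sdiff, wgrp_mem hp h.rep, wgrp_mem hp h'.rep,
        wgrp_mem hp (fun a ha => h.rep a (Finset.mem_sdiff.1 ha).1), Finset.mem_sdiff]
    have e2 : (F' \ F).biUnion nd = F'.biUnion nd \ F.biUnion nd := by
      ext u
      rw [Finset.mem_sdiff, wgrp_mem hp h.rep, wgrp_mem hp h'.rep,
        wgrp_mem hp (fun a ha => h'.rep a (Finset.mem_sdiff.1 ha).1), Finset.mem_sdiff]
    have hpos := cutp_posi (hv := hv) hs (ho (F.biUnion nd ∪ F'.biUnion nd))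
    rw [e1] at m1
    rw [e2] at m2
    have t1 := h.small
    have t2 := h'.small
    omega
  · intro e
    have hsub : F' ⊆ F := Finset.inter_eq_right.1 e
    have h1 := h.min F' (Finset.ssubset_iff_subset_ne.2 ⟨hsub, hne.symm⟩) h'.odd
    have h2 := h'.small
    omega

theorem wgrp_md_ball (hs : Sym N) (ho : ∀ X, Ok k N X x.c) (hp : GPart x.nd) (h : MD N x d L F)
    (ha : a ∈ F) : F ⊆ ball (QN N x.c x.nd) a L :=
  (minDef_conn hs ho hp h.1 ha).sub_ball.trans (ball_mono (by have := h.2; omega))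

theorem wgrp_md (h : MD N x d L F) (hF : Relation.ReflTransGen (Ovl N x d L) F F') :
    MD N x d L F' := by
  induction hF with
  | refl => exact h
  | tail _ h2 _ => exact h2.2.1

theorem wgrp_chain {α : Type} {R : α → α → Prop} {y z : α} (h : Relation.ReflTransGen R y z) :
    ∃ (m : ℕ) (p : ℕ → α), p 0 = y ∧ p m = z ∧ ∀ i < m, R (p i) (p (i + 1)) := by
  induction h with
  | refl => exact ⟨0, fun _ => y, rfl, rfl, fun i hi => absurd hi (Nat.not_lt_zero i)⟩
  | @tail b e _ h2 ih =>
    obtain ⟨m, p, h0, hm, hc⟩ := ih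
    refine ⟨m + 1, fun t => if t ≤ m then p t else e, by simp [h0], by simp, fun i hi => ?_⟩
    have h1 : i ≤ m := by omega
    by_cases h3 : i + 1 ≤ m
    · simp only [if_pos h1, if_pos h3]
      exact hc i (by omega)
    · have h4 : i = m := by omega
      simp only [if_pos h1, if_neg h3]
      rw [h4, hm]
      exact h2

theorem wgrp_short (hs : Sym N) (ho : ∀ X, Ok k N X x.c) (hp : GPart x.nd) {m : ℕ}
    {p : ℕ → Finset ℕ} (hmd : ∀ i ≤ m, MD N x d L (p i))
    (hc : ∀ i < m, ¬ Disjoint (p i) (p (i + 1)))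
    (h1 : ∀ i j, i + 2 ≤ j → j ≤ m → Disjoint (p i) (p j)) (h2 : ∀ i < m, p i ≠ p (i + 1)) :
    m < d := by
  have key : ∀ i ≤ m, ∃ U : Finset ℕ, p i ⊆ U ∧ (∀ y ∈ U, ∃ j ≤ i, y ∈ p j) ∧
      cutp N x.c x.hv (U.biUnion x.nd) + i < d := by
    intro i
    induction i with
    | zero =>
      intro h0
      exact ⟨p 0, Finset.Subset.refl _, fun y hy => ⟨0, le_rfl, hy⟩, (hmd 0 h0).1.small⟩
    | succ i ih =>
      intro hi
      obtain ⟨U, hU1, hU2, hU3⟩ := ih (by omega)
      have hA := (hmd i (by omega)).1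
      have hB := (hmd (i + 1) hi).1
      have hUr : ∀ y ∈ U, rp x.nd y = y := fun y hy => by
        obtain ⟨j, hj, hy'⟩ := hU2 y hy
        exact (hmd j (by omega)).1.rep y hy'
      refine ⟨U ∪ p (i + 1), Finset.subset_union_right, fun y hy => ?_, ?_⟩
      · rcases Finset.mem_union.1 hy with hy | hy
        · obtain ⟨j, hj, hy'⟩ := hU2 y hy
          exact ⟨j, by omega, hy'⟩
        · exact ⟨i + 1, le_rfl, hy⟩
      · obtain ⟨o1, o2⟩ := minDef_inter hs ho hp hA hB (hc i (by omega)) (h2 i (by omega))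
        have m1 := hB.min _ (Finset.ssubset_iff_subset_ne.2 ⟨Finset.inter_subset_right, o2⟩) o1
        have e1 : (p i ∩ p (i + 1)).biUnion x.nd = U.biUnion x.nd ∩ (p (i + 1)).biUnion x.nd := by
          ext u
          rw [Finset.mem_inter, wgrp_mem hp hUr, wgrp_mem hp hB.rep,
            wgrp_mem hp (fun a ha => hB.rep a (Finset.mem_inter.1 ha).2), Finset.mem_inter]
          refine ⟨fun h => ⟨hU1 h.1, h.2⟩, fun h => ⟨?_, h.2⟩⟩
          obtain ⟨j, hj, hy⟩ := hU2 _ h.1
          by_cases hji : j = i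
          · exact hji ▸ hy
          · exact (Finset.disjoint_left.1 (h1 j (i + 1) (by omega) hi) hy h.2).elim
        have hsub := cutp_submod (N := N) (c := x.c) (hv := x.hv) (X := U.biUnion x.nd)
          (Y := (p (i + 1)).biUnion x.nd)
        rw [Finset.union_biUnion]
        rw [e1] at m1
        have t2 := hB.small
        omega
  obtain ⟨U, _, _, hU⟩ := key m le_rfl
  omega

theorem wgrp_chain_ball (hs : Sym N) (ho : ∀ X, Ok k N X x.c) (hp : GPart x.nd)
    (h : MD N x d L F) (ha : a ∈ F) (m : ℕ) : ∀ p : ℕ → Finset ℕ, p 0 = F →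
      (∀ i < m, Ovl N x d L (p i) (p (i + 1))) → p m ⊆ ball (QN N x.c x.nd) a (d * L) := by
  induction m using Nat.strong_induction_on with
  | _ m ih =>
    intro p h0 hc
    have hmd : ∀ i ≤ m, MD N x d L (p i) := by
      intro i hi
      rcases i with _ | i
      · exact h0 ▸ h
      · exact (hc i (by omega)).2.1
    have hcut : ∀ i e, 1 ≤ e → i + e ≤ m →
        (i + e < m → Ovl N x d L (p i) (p (i + 1 + e))) → (i + e = m → p i = p m) →
        p m ⊆ ball (QN N x.c x.nd) a (d * L) := by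
      intro i e he hie hov hend
      have h3 := ih (m - e) (by omega) (fun t => if t ≤ i then p t else p (t + e))
        (by simp [h0]) (fun t ht => by
          by_cases h4 : t + 1 ≤ i
          · simp only [if_pos h4, if_pos (show t ≤ i by omega)]
            exact hc t (by omega)
          · by_cases h5 : t ≤ i
            · have h6 : t = i := by omega
              simp only [if_pos h5, if_neg h4]
              rw [h6]
              exact hov (by omega)
            · simp only [if_neg h5, if_neg h4]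
              rw [show t + 1 + e = t + e + 1 by omega]
              exact hc (t + e) (by omega))
      by_cases h7 : m - e ≤ i
      · simp only [if_pos h7] at h3
        rw [show m - e = i by omega, hend (by omega)] at h3
        exact h3
      · simp only [if_neg h7] at h3
        rwa [show m - e + e = m by omega] at h3
    by_cases h1 : ∀ i j, i + 2 ≤ j → j ≤ m → Disjoint (p i) (p j)
    · by_cases h2 : ∀ i < m, p i ≠ p (i + 1)
      · have hlt := wgrp_short hs ho hp hmd (fun i hi => (hc i hi).2.2) h1 h2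
        have hb : ∀ i ≤ m, p i ⊆ ball (QN N x.c x.nd) a ((i + 1) * L) := by
          intro i
          induction i with
          | zero =>
            intro _
            rw [h0, zero_add, one_mul]
            exact wgrp_md_ball hs ho hp h ha
          | succ i ih2 =>
            intro hi y hy
            obtain ⟨z, hz, hz'⟩ := Finset.not_disjoint_iff.1 (hc i (by omega)).2.2
            have := ball_trans (ih2 (by omega) hz) (wgrp_md_ball hs ho hp (hmd _ hi) hz' hy)
            rwa [show (i + 1) * L + L = (i + 1 + 1) * L by ring] at this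
        exact (hb m le_rfl).trans (ball_mono (Nat.mul_le_mul_right L hlt))
      · push Not at h2
        obtain ⟨i, hi, he⟩ := h2
        refine hcut i 1 le_rfl hi (fun h3 => ?_) fun h3 => by rw [he, h3]
        rw [he]
        exact hc (i + 1) h3
    · push Not at h1
      obtain ⟨i, j, hij, hj, hd⟩ := h1
      refine hcut i (j - i - 1) (by omega) (by omega) (fun _ => ?_) fun h3 => by omega
      rw [show i + 1 + (j - i - 1) = j by omega]
      exact ⟨hmd i (by omega), hmd j hj, hd⟩

/-- Take a shortest chain `p 0 = F, ..., p m = F'` of overlapping families; members at distance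
at least two are disjoint and neighbours differ.  With `U i = p 0 ∪ ... ∪ p i` one has
`U i ∩ p (i + 1) = p i ∩ p (i + 1)`, whose cut is at least `d`, so `cutp_submod` gives
`cutp (U i) + i < d`; hence `m < d`. -/
theorem cluster_ball (hs : Sym N) (ho : ∀ X, Ok k N X x.c) (hp : GPart x.nd) (h : MD N x d L F)
    (ha : a ∈ F) (hF : Relation.ReflTransGen (Ovl N x d L) F F') :
    MD N x d L F' ∧ F' ⊆ ball (QN N x.c x.nd) a (d * L) := by
  refine ⟨wgrp_md h hF, ?_⟩
  obtain ⟨m, p, h0, hm, hc⟩ := wgrp_chain hF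
  exact hm ▸ wgrp_chain_ball hs ho hp h ha m p h0 hc

theorem wgrp_symm (hF : Relation.ReflTransGen (Ovl N x d L) F F') :
    Relation.ReflTransGen (Ovl N x d L) F' F := by
  induction hF with
  | refl => exact Relation.ReflTransGen.refl
  | tail _ h2 ih =>
    exact Relation.ReflTransGen.head ⟨h2.2.1, h2.1, fun h => h2.2.2 h.symm⟩ ih

theorem wgrp_cluster (hF : Relation.ReflTransGen (Ovl N x d L) F F') :
    {G | Relation.ReflTransGen (Ovl N x d L) F' G} =
      {G | Relation.ReflTransGen (Ovl N x d L) F G} :=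
  Set.ext fun _ => ⟨fun h => hF.trans h, fun h => (wgrp_symm hF).trans h⟩

theorem wgrp_eps (h : MD N x d L F) : MaxDisj {G | Relation.ReflTransGen (Ovl N x d L) F G}
    (epsilon (MaxDisj {G | Relation.ReflTransGen (Ovl N x d L) F G})) :=
  epsilon_spec (exists_maxDisj _ fun _ hG =>
    Finset.card_pos.1 (wgrp_md h hG).1.odd.pos)

/-- Overlapping families have the same cluster. -/
theorem chosen_disj (h : chosen N x d L F) (h' : chosen N x d L F') (hd : ¬ Disjoint F F') :
    F = F' := by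
  have h2 := h'.2
  rw [wgrp_cluster (Relation.ReflTransGen.single ⟨h.1, h'.1, hd⟩)] at h2
  exact (wgrp_eps h.1).2.1 F h.2 F' h2 hd

theorem chosen_max (h : MD N x d L F) : ∃ F', chosen N x d L F' ∧ ¬ Disjoint F F' := by
  obtain ⟨G, hG, hd⟩ := (wgrp_eps h).2.2 F Relation.ReflTransGen.refl
  have h1 : Relation.ReflTransGen (Ovl N x d L) F G := (wgrp_eps h).1 hG
  exact ⟨G, ⟨wgrp_md h h1, by rwa [wgrp_cluster h1]⟩, hd⟩

/-- `sep`: by induction on `r`, if `rp' u'` is in the ball of radius `r` around `rp' u` in the new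
quotient, then `rp u'` is in the ball of radius `r (L + 1) + L` around `rp u` in the old one. -/
theorem gstep_spec {σ' : ℕ} (hG : GV k S N) (hk : d ≤ k) (hR : RI k false d σ Λ N x)
    (hσ : σ' * (L + 1) + L ≤ σ) :
    RI k true d σ' ((L + 1) * (2 * Λ + 1)) N (gstep N d L x) ∧ NoDef N (gstep N d L x) d L := by
  have hp := hR.part
  have hdj : ∀ F F', chosen N x d L F → chosen N x d L F' → ¬ Disjoint F F' → F = F' :=
    fun _ _ => chosen_disj
  have hpart : GPart (grp x.nd (chosen N x d L)) :=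
    (grp_part hp.on (fun F hF a ha => ⟨trivial, hF.1.1.rep a ha⟩) hdj).1.gpart
  have hA : ∀ u u', u' ∈ grp x.nd (chosen N x d L) u →
      rp x.nd u' ∈ ball (QN N x.c x.nd) (rp x.nd u) L := by
    intro u u' hu
    rcases grp_cases (nd := x.nd) hdj u with ⟨F, hF, h1, h2⟩ | ⟨_, h2⟩
    · rw [h2, wgrp_mem hp hF.1.1.rep] at hu
      exact wgrp_md_ball hG.sym hR.ok hp hF.1 h1 hu
    · rw [h2, hp.on.mem_iff trivial trivial] at hu
      rw [hu]
      exact self_mem_ball
  have hB : ∀ u r u', rp (grp x.nd (chosen N x d L)) u' ∈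
      ball (QN N x.c (grp x.nd (chosen N x d L))) (rp (grp x.nd (chosen N x d L)) u) r →
      rp x.nd u' ∈ ball (QN N x.c x.nd) (rp x.nd u) (r * (L + 1) + L) := by
    intro u r
    induction r with
    | zero =>
      intro u' hu
      rw [zero_mul, zero_add]
      refine hA u u' ((hpart.on.mem_iff trivial trivial).2 ?_)
      simpa [ball] using hu
    | succ r ih =>
      intro u' hu
      rcases mem_ball_succ.1 hu with hu | ⟨b, hb, hu⟩
      · exact ball_mono (by nlinarith) (ih u' hu)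
      · obtain ⟨h1, _, t, ht, w, hw, h2⟩ := mem_QN.1 hu
        have h3 : rp (grp x.nd (chosen N x d L)) t = b :=
          ((hpart.on.mem_iff trivial trivial).1 ht).trans h1
        have h4 := ih t (h3 ▸ hb)
        have h5 : rp x.nd w ∈ ball (QN N x.c x.nd) (rp x.nd t) 1 := by
          rcases wgrp_step hp hw with h | h
          · rw [h]
            exact self_mem_ball
          · exact mem_ball_one h
        have h6 := hA w u' ((hpart.on.mem_iff trivial trivial).2 h2.symm)
        have := ball_trans (ball_trans h4 h5) h6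
        rwa [show r * (L + 1) + L + 1 + L = (r + 1) * (L + 1) + L by ring] at this
  refine ⟨⟨hR.ok, hpart, fun v => ?_, fun v u hu => ?_, hR.hv1, hR.hv2,
    fun y w y' w' h1 h2 h3 => hR.sep y w y' w' h1 h2 (ball_mono hσ (hB y σ' y' h3))⟩,
    fun F hF ho hL => ?_⟩
  · refine grp_nm hp.on (fun _ _ _ _ => trivial) hdj (fun F hF => ?_) (fun v _ => hR.nm v) v trivial
    rw [pal_card hk]
    exact hF.1.1
  · have h1 := qball hp hR.diam (hA v u hu)
    have h2 := hR.diam v (hp.on.rp_spec (v := v) trivial).1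
    have h3 : u ∈ ball N (rp x.nd u) Λ :=
      hR.diam _ ((hp.on.rp_spec (v := u) trivial).2.2.1 ▸ (hp u).1)
    exact ball_mono (by nlinarith) (ball_trans (ball_trans h2 h1) h3)
  · exact grp_nodef hp.on hdj (fun F hF => hF.1.1) (fun F _ h1 h2 => chosen_max ⟨h1, h2⟩)
      (fun a ha => ⟨trivial, hF a ha⟩) ho hL

theorem md_congr (h : ∀ a ∈ F, N a = N' a ∧ x.row a = x'.row a ∧
    ∀ u ∈ x.nd a, N u = N' u ∧ x.row u = x'.row u) : MD N x d L F ↔ MD N' x' d L F := by
  have h1 : ∀ a ∈ F, x.nd a = x'.nd a := fun a ha => (row_eq.1 (h a ha).2.1).2.1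
  have h2 : ∀ a ∈ F, ∀ u ∈ x.nd a, N u = N' u ∧ x.c u = x'.c u ∧ (x.hv u ↔ x'.hv u) :=
    fun a ha u hu => ⟨((h a ha).2.2 u hu).1, (row_eq.1 ((h a ha).2.2 u hu).2).1,
      (row_eq.1 ((h a ha).2.2 u hu).2).2.2⟩
  have h3 : ∀ a ∈ F, rp x.nd a = rp x'.nd a := fun a ha => rp_congr (h1 a ha)
  have h4 : ∀ a ∈ F, cutp N x.c x.hv (x.nd a) = cutp N' x'.c x'.hv (x'.nd a) := fun a ha => by
    rw [← h1 a ha]
    exact cutp_congr (h2 a ha)
  have h5 : ∀ G ⊆ F, cutp N x.c x.hv (G.biUnion x.nd) = cutp N' x'.c x'.hv (G.biUnion x'.nd) := by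
    intro G hG
    rw [← Finset.biUnion_congr rfl fun a ha => h1 a (hG ha)]
    refine cutp_congr fun u hu => ?_
    obtain ⟨a, ha, hu⟩ := Finset.mem_biUnion.1 hu
    exact h2 a (hG ha) u hu
  constructor
  · rintro ⟨hm, hL⟩
    exact ⟨⟨fun a ha => h3 a ha ▸ hm.rep a ha, hm.odd, fun a ha => h4 a ha ▸ hm.care a ha,
      h5 F (Finset.Subset.refl _) ▸ hm.small, fun G hG ho => h5 G hG.subset ▸ hm.min G hG ho⟩, hL⟩
  · rintro ⟨hm, hL⟩
    exact ⟨⟨fun a ha => (h3 a ha).trans (hm.rep a ha), hm.odd,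
      fun a ha => (h4 a ha).trans (hm.care a ha), (h5 F (Finset.Subset.refl _)).symm ▸ hm.small,
      fun G hG ho => (h5 G hG.subset).symm ▸ hm.min G hG ho⟩, hL⟩

theorem wgrp_agree (hG : GV k S N) (hR : RI k false d σ Λ N x)
    (h : RA N N' x x' v ((d * L + 1) * (2 * Λ + 1))) (hF : MD N x d L F) (ha : rp x.nd v ∈ F)
    (hc : Relation.ReflTransGen (Ovl N x d L) F F') : ∀ a ∈ F', N a = N' a ∧ x.row a = x'.row a ∧
      ∀ u ∈ x.nd a, N u = N' u ∧ x.row u = x'.row u := by
  intro b hb
  have h1 := qball hR.part hR.diam ((cluster_ball hG.sym hR.ok hR.part hF ha hc).2 hb)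
  have h2 := ball_trans (hR.diam v (hR.part.on.rp_spec (v := v) trivial).1) h1
  have h3 := h b (ball_mono (by nlinarith) h2)
  exact ⟨h3.1, h3.2, fun u hu => h u (ball_mono (by nlinarith) (ball_trans h2 (hR.diam b hu)))⟩

theorem wgrp_transfer (hG : GV k S N) (hR : RI k false d σ Λ N x)
    (h : RA N N' x x' v ((d * L + 1) * (2 * Λ + 1))) (hF : MD N x d L F) (ha : rp x.nd v ∈ F)
    (hc : Relation.ReflTransGen (Ovl N x d L) F F') :
    Relation.ReflTransGen (Ovl N' x' d L) F F' := by
  induction hc with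
  | refl => exact Relation.ReflTransGen.refl
  | tail h1 h2 ih =>
    exact ih.tail ⟨(md_congr (wgrp_agree hG hR h hF ha h1)).1 h2.1,
      (md_congr (wgrp_agree hG hR h hF ha (h1.tail h2))).1 h2.2.1, h2.2.2⟩

theorem wgrp_chosen (hG : GV k S N) (hG' : GV k S' N') (hR : RI k false d σ Λ N x)
    (hR' : RI k false d σ Λ N' x') (h : RA N N' x x' v ((d * L + 1) * (2 * Λ + 1)))
    (hF : chosen N x d L F) (ha : rp x.nd v ∈ F) : chosen N' x' d L F ∧ rp x'.nd v ∈ F := by
  have h1 : MD N' x' d L F :=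
    (md_congr (wgrp_agree hG hR h hF.1 ha Relation.ReflTransGen.refl)).1 hF.1
  have ha' : rp x'.nd v ∈ F := rp_congr (row_eq.1 (h v self_mem_ball).2).2.1 ▸ ha
  have e : {G | Relation.ReflTransGen (Ovl N' x' d L) F G} =
      {G | Relation.ReflTransGen (Ovl N x d L) F G} :=
    Set.ext fun _ => ⟨fun hc => wgrp_transfer hG' hR' h.symm h1 ha' hc,
      fun hc => wgrp_transfer hG hR h hF.1 ha hc⟩
  exact ⟨⟨h1, by rw [e]; exact hF.2⟩, ha'⟩

/-- All families in the cluster of a family that contains `rp v` lie in the ball, on both sides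
(`cluster_ball`, `qball`, `RA.ball_eq`), so the clusters agree, `chosen F` agrees for all `F`
containing `rp v`, and so does `grp`. -/
theorem gstep_local (hG : GV k S N) (hG' : GV k S' N') (hR : RI k false d σ Λ N x)
    (hR' : RI k false d σ Λ N' x') (h : RA N N' x x' v ((d * L + 1) * (2 * Λ + 1))) :
    (gstep N d L x).row v = (gstep N' d L x').row v := by
  obtain ⟨r1, r2, r3⟩ := row_eq.1 (h v self_mem_ball).2
  refine row_eq.2 ⟨r1, ?_, r3⟩
  have e : (fun F => chosen N' x' d L F ∧ rp x'.nd v ∈ F) =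
      fun F => chosen N x d L F ∧ rp x.nd v ∈ F :=
    funext fun F => propext ⟨fun h1 => wgrp_chosen hG' hG hR' hR h.symm h1.1 h1.2,
      fun h1 => wgrp_chosen hG hG' hR hR' h h1.1 h1.2⟩
  show grp x.nd (chosen N x d L) v = grp x'.nd (chosen N' x' d L) v
  unfold grp
  by_cases hex : ∃ F, chosen N x d L F ∧ rp x.nd v ∈ F
  · have hex' : ∃ F, chosen N' x' d L F ∧ rp x'.nd v ∈ F := by
      obtain ⟨F, hF⟩ := hex
      exact ⟨F, wgrp_chosen hG hG' hR hR' h hF.1 hF.2⟩
    rw [if_pos hex, if_pos hex', e]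
    have h1 := epsilon_spec hex
    exact Finset.biUnion_congr rfl fun a ha => (row_eq.1
      (wgrp_agree hG hR h h1.1.1 h1.2 Relation.ReflTransGen.refl a ha).2.1).2.1
  · have hex' : ¬ ∃ F, chosen N' x' d L F ∧ rp x'.nd v ∈ F := by
      rintro ⟨F, hF⟩
      exact hex ⟨F, wgrp_chosen hG' hG hR' hR h.symm hF.1 hF.2⟩
    rw [if_neg hex, if_neg hex', r2]

end Pool.Agent.Lib.MP_459a07_lc.V
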