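import Pool.Agent.Lib.MP_459a07_lc.WFan

set_option autoImplicit false

namespace Pool.Agent.Lib.MP_459a07_lc.V

open Classical

variable {Ω Γ K T Z : Finset ℕ} {s x y p q α β : ℕ} {zn : ℕ → ℕ → Finset ℕ} {E : ℕ → Finset ℕ}
  {f : Col}

/-- A coloured edge that leaves the zone `Z = zn α x` has colour `s` or a colour whose zone at
`x` strictly contains `Z` (`lam`, `cls`). -/
theorem cut_colour (hZ : Zs Ω Γ s zn) (hf : ZC s zn E f) (hx : x ∈ zn α x) {u v : ℕ}
    (hu : u ∈ zn α x) (hv : v ∉ zn α x) (h : f u v ≠ 0) :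
    f u v = s ∨ (f u v ∈ Γ ∧ zn α x ⊂ zn (f u v) x) := by
  rcases hf.zone u v h with h1 | h1
  · exact Or.inl h1
  right
  have hΓ : f u v ∈ Γ := by
    by_contra hn
    rw [hZ.off _ u hn] at h1
    simp at h1
  have hu2 : u ∈ zn (f u v) u := by
    rcases hZ.self (f u v) u with h2 | h2
    · exact h2
    · rw [h2] at h1
      simp at h1
  have e1 : zn α u = zn α x := hZ.cls α x u hu
  have hu1 : u ∈ zn α u := by rw [e1]; exact hu
  refine ⟨hΓ, ?_⟩
  rcases hZ.lam α (f u v) u hu1 hu2 with h3 | h3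
  · rw [e1] at h3
    have e2 : zn (f u v) x = zn (f u v) u := hZ.cls _ u x (h3 hx)
    rw [e2]
    exact ⟨h3, fun h4 => hv (h4 h1)⟩
  · rw [e1] at h3
    exact absurd (h3 h1) hv

/-- If two edges leaving `Z = zn α x` have the same colour, one of the `nup + 1` upper colours
does not occur on the at most `nup + 1` edges leaving `Z`. -/
theorem free_upper (hZ : Zs Ω Γ s zn) (hf : ZC s zn E f) (hx : x ∈ zn α x)
    (hc : ecut E (zn α x) ≤ nup Γ zn (zn α x) x + 1) {u u' v v' : ℕ} (hu : u ∈ zn α x)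
    (hu' : u' ∈ zn α x) (hv : v ∉ zn α x) (hv' : v' ∉ zn α x) (h0 : f u v ≠ 0)
    (he : f u v = f u' v') (hne : ¬ (u = u' ∧ v = v')) :
    ∃ δ, (δ = s ∨ (δ ∈ Γ ∧ zn α x ⊂ zn δ x)) ∧ ∀ a ∈ zn α x, ∀ b, b ∉ zn α x → f a b ≠ δ := by
  by_contra hn
  push Not at hn
  set Z := zn α x with hZdef
  let U : Finset ℕ := insert s (Γ.filter fun γ => Z ⊂ zn γ x)
  let P : Finset (Σ _ : ℕ, ℕ) := Z.sigma fun a => E a \ Z
  have hU : U.card = nup Γ zn Z x + 1 := by
    have : s ∉ Γ.filter fun γ => Z ⊂ zn γ x := fun h => hZ.sΓ (Finset.mem_filter.1 h).1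
    simp only [U, Finset.card_insert_of_notMem this, nup]
  have hP : P.card = ecut E Z := by
    simp only [P, Finset.card_sigma, ecut]
  have hmem : ∀ a b, a ∈ Z → b ∉ Z → f a b ≠ 0 → (⟨a, b⟩ : Σ _ : ℕ, ℕ) ∈ P := by
    intro a b ha hb h
    exact Finset.mem_sigma.2 ⟨ha, Finset.mem_sdiff.2 ⟨hf.edge a b h, hb⟩⟩
  have huv := hmem u v hu hv h0
  have huv' := hmem u' v' hu' hv' (he ▸ h0)
  have hsub : U ⊆ (P.erase ⟨u, v⟩).image fun e => f e.1 e.2 := by
    intro δ hδ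
    have hδ' : δ = s ∨ (δ ∈ Γ ∧ Z ⊂ zn δ x) := by
      rcases Finset.mem_insert.1 hδ with h | h
      · exact Or.inl h
      · exact Or.inr (Finset.mem_filter.1 h)
    have hδ0 : δ ≠ 0 := by
      rcases hδ' with h | h
      · rw [h]; exact hZ.s0
      · intro h1
        exact hZ.Γ0 (h1 ▸ h.1)
    obtain ⟨a, ha, b, hb, hab⟩ := hn δ hδ'
    by_cases hq : a = u ∧ b = v
    · refine Finset.mem_image.2 ⟨⟨u', v'⟩, Finset.mem_erase.2 ⟨?_, huv'⟩, ?_⟩
      · intro h
        apply hne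
        have h1 : u' = u := congrArg Sigma.fst h
        have h2 : v' = v := congrArg (fun e : (Σ _ : ℕ, ℕ) => e.2) h
        exact ⟨h1.symm, h2.symm⟩
      · show f u' v' = δ
        rw [← he, ← hq.1, ← hq.2]; exact hab
    · refine Finset.mem_image.2 ⟨⟨a, b⟩, Finset.mem_erase.2 ⟨?_, hmem a b ha hb (hab ▸ hδ0)⟩, hab⟩
      intro h
      apply hq
      exact ⟨congrArg Sigma.fst h, congrArg (fun e : (Σ _ : ℕ, ℕ) => e.2) h⟩
  have h1 := Finset.card_le_card hsub
  have h2 : ((P.erase ⟨u, v⟩).image fun e => f e.1 e.2).card ≤ (P.erase ⟨u, v⟩).card :=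
    Finset.card_image_le
  rw [Finset.card_erase_of_mem huv] at h2
  have h3 : 0 < P.card := Finset.card_pos.2 ⟨_, huv⟩
  omega

theorem wkempe_sw_sw (a b c : ℕ) : sw a b (sw a b c) = c := by
  unfold sw; split_ifs <;> omega

/-- Exchanging two colours on a set that contains `x` and its neighbours keeps closed fans. -/
theorem wkempe_cl {a b : ℕ} {g : Col} (hE : E x ⊆ Z) (hrow : ∀ v, g x v = sw a b (f x v))
    (hne : ∀ u v, g u v ≠ 0 ↔ f u v ≠ 0)
    (hfr : ∀ u ∈ Z, ∀ γ, Free s zn g u γ ↔ Free s zn f u (sw a b γ)) :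
    Cl s zn E g x y T ↔ Cl s zn E f x y T := by
  constructor
  · intro h
    refine ⟨h.mem, h.sub, fun w hw hy => (hne x w).1 (h.col w hw hy), fun w hw γ hγ => ?_⟩
    have h1 : Free s zn g w (sw a b γ) := by
      rw [hfr w (hE (h.sub hw)), wkempe_sw_sw]; exact hγ
    obtain ⟨u, hu, huy, he⟩ := h.cls w hw _ h1
    refine ⟨u, hu, huy, ?_⟩
    rw [hrow] at he
    have := congrArg (sw a b) he
    rwa [wkempe_sw_sw, wkempe_sw_sw] at this
  · intro h
    refine ⟨h.mem, h.sub, fun w hw hy => (hne x w).2 (h.col w hw hy), fun w hw γ hγ => ?_⟩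
    obtain ⟨u, hu, huy, he⟩ := h.cls w hw _ ((hfr w (hE (h.sub hw)) γ).1 hγ)
    refine ⟨u, hu, huy, ?_⟩
    rw [hrow, he, wkempe_sw_sw]

theorem wkempe_ne0 (hZ : Zs Ω Γ s zn) {v γ : ℕ} (h : γ = s ∨ v ∈ zn γ v) : γ ≠ 0 := by
  rcases h with h | h
  · rw [h]; exact hZ.s0
  · intro h0
    by_cases hΓ : γ ∈ Γ
    · exact hZ.Γ0 (h0 ▸ hΓ)
    · rw [hZ.off _ v hΓ] at h
      simp at h

/-- The weight of a colour. -/
noncomputable def wkempe_wt (Ω : Finset ℕ) (s : ℕ) (zn : ℕ → ℕ → Finset ℕ) (x γ : ℕ) : ℕ :=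
  if γ = s then 0 else Ω.card + 1 - (zn γ x).card

theorem wkempe_ind (hZ : Zs Ω Γ s zn) (hs : Sym E) (hi : Irr E) (hx : Ctr zn E x)
    (hc : ∀ γ, x ∈ zn γ x → ecut E (zn γ x) ≤ nup Γ zn (zn γ x) x + 1) (hp : p ∈ T) (hq : q ∈ T)
    (hpq : p ≠ q) (n : ℕ) : ∀ (f : Col) (α β : ℕ),
    wkempe_wt Ω s zn x α + wkempe_wt Ω s zn x β ≤ n → ZC s zn E f → f x y = 0 →
    Cl s zn E f x y T → (∀ T' ⊆ T, Cl s zn E f x y T' → T' = T) → Free s zn f x α →
    Free s zn f p β → Free s zn f q β → ∃ g, ZC s zn E g ∧ Gr f g x y := by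
  induction n using Nat.strong_induction_on with
  | _ n ih =>
  intro f α β hn hf h0 hT hmin fx fp fq
  have hαβ : α ≠ β := by
    obtain ⟨u, -, -, he⟩ := hT.cls p hp β fp
    intro h
    exact fx.2 u (he.trans h.symm)
  have hα0 : α ≠ 0 := wkempe_ne0 hZ fx.1
  have hβ0 : β ≠ 0 := wkempe_ne0 hZ fp.1
  have hβx : β = s ∨ x ∈ zn β x := by
    rcases fp.1 with h | h
    · exact Or.inl h
    · right
      have h1 : x ∈ zn β p :=
        hx β p (Finset.mem_insert_of_mem (hT.sub hp)) h (Finset.mem_insert_self _ _)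
      rw [hZ.cls β p x h1]; exact h1
  obtain ⟨lo, up, hls, hlx, hup, hor⟩ : ∃ lo up, lo ≠ s ∧ x ∈ zn lo x ∧
      (up = s ∨ zn lo x ⊆ zn up x) ∧ ((lo = α ∧ up = β) ∨ (lo = β ∧ up = α)) := by
    by_cases h1 : α = s
    · have h2 : β ≠ s := fun h => hαβ (h1.trans h.symm)
      exact ⟨β, α, h2, hβx.resolve_left h2, Or.inl h1, Or.inr ⟨rfl, rfl⟩⟩
    · by_cases h2 : β = s
      · exact ⟨α, β, h1, fx.1.resolve_left h1, Or.inl h2, Or.inl ⟨rfl, rfl⟩⟩
      · rcases hZ.lam α β x (fx.1.resolve_left h1) (hβx.resolve_left h2) with h | h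
        · exact ⟨α, β, h1, fx.1.resolve_left h1, Or.inr h, Or.inl ⟨rfl, rfl⟩⟩
        · exact ⟨β, α, h2, hβx.resolve_left h2, Or.inr h, Or.inr ⟨rfl, rfl⟩⟩
  have hZx : insert x (E x) ⊆ zn lo x := hx lo x (Finset.mem_insert_self _ _) hlx
  have hEZ : E x ⊆ zn lo x := fun v hv => hZx (Finset.mem_insert_of_mem hv)
  have hl0 : lo ≠ 0 := wkempe_ne0 hZ (Or.inr hlx)
  have hsubK : ∀ γ, zn lo x ⊆ zn γ x → ∀ K ⊆ zn lo x, ∀ u ∈ K, K ⊆ zn γ u := by
    intro γ h K hK u hu
    rw [hZ.cls γ x u (h (hK hu))]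
    exact hK.trans h
  have hnlo : ∀ u ∈ zn lo x, ∀ v, v ∉ zn lo x → f u v ≠ lo := by
    intro u hu v hv h
    rcases cut_colour hZ hf hlx hu hv (h ▸ hl0) with h1 | h1
    · exact hls (h.symm.trans h1)
    · rw [h] at h1
      exact h1.2.2 (Finset.Subset.refl _)
  by_cases hcut : ∀ u ∈ zn lo x, ∀ u' ∈ zn lo x, ∀ v v', v ∉ zn lo x → v' ∉ zn lo x →
      (f u v = α ∨ f u v = β) → (f u' v' = α ∨ f u' v' = β) → u = u' ∧ v = v'
  · obtain ⟨K, hKZ, hK, hsep⟩ := sep_closed hf.symm hf.inj hα0 hβ0 hαβ hlx (hEZ (hT.sub hp)) hpq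
      fx.2 fp.2 fq.2 hcut
    have hlK : lo = s ∨ ∀ u ∈ K, K ⊆ zn lo u := Or.inr (hsubK lo (Finset.Subset.refl _) K hKZ)
    have huK : up = s ∨ ∀ u ∈ K, K ⊆ zn up u := hup.imp id fun h => hsubK up h K hKZ
    rcases hor with ⟨h1, h2⟩ | ⟨h1, h2⟩
    · exact flip_ext hZ hs hi hf hx h0 hT hmin hp hq fx fp fq hK (h1 ▸ hlK) (h2 ▸ huK) hsep
    · exact flip_ext hZ hs hi hf hx h0 hT hmin hp hq fx fp fq hK (h2 ▸ huK) (h1 ▸ hlK) hsep
  · push Not at hcut
    obtain ⟨u, hu, u', hu', v, v', hv, hv', hc1, hc2, hne⟩ := hcut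
    have e1 : f u v = up := by
      have := hnlo u hu v hv
      omega
    have e2 : f u' v' = up := by
      have := hnlo u' hu' v' hv'
      omega
    have hu0 : f u v ≠ 0 := by omega
    obtain ⟨δ, hδ, hδn⟩ := free_upper hZ hf hlx (hc lo hlx) hu hu' hv hv' hu0 (e1.trans e2.symm)
      (fun h => hne h.1 h.2)
    have hδup : δ ≠ up := fun h => hδn u hu v hv (e1.trans h.symm)
    have hδ0 : δ ≠ 0 := by
      rcases hδ with h | h
      · rw [h]; exact hZ.s0
      · intro h1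
        exact hZ.Γ0 (h1 ▸ h.1)
    have hwt : wkempe_wt Ω s zn x δ < wkempe_wt Ω s zn x lo := by
      have h1 : (zn lo x).card ≤ Ω.card := Finset.card_le_card (hZ.sub lo x)
      unfold wkempe_wt
      rw [if_neg hls]
      split_ifs with h2
      · omega
      · have h3 := Finset.card_lt_card (hδ.resolve_left h2).2
        omega
    obtain ⟨hf', hne', hfr, -⟩ := swp_zc (K := zn lo x) (α := lo) (β := δ) hf hl0 hδ0
      (fun a ha b hab => by
        by_contra hb
        rcases hab with h | h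
        · exact hnlo a ha b hb h
        · exact hδn a ha b hb h)
      (Or.inr (hsubK lo (Finset.Subset.refl _) _ (Finset.Subset.refl _)))
      (hδ.imp id fun h => hsubK δ h.2.1 _ (Finset.Subset.refl _))
    have hrow : ∀ v, swp (zn lo x) lo δ f x v = sw lo δ (f x v) := by
      intro v
      unfold swp
      rw [if_pos hlx]
    have hcl : ∀ T', Cl s zn E (swp (zn lo x) lo δ f) x y T' ↔ Cl s zn E f x y T' :=
      fun T' => wkempe_cl hEZ hrow hne' hfr
    have hlu : lo ≠ up := by omega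
    have s1 : sw lo δ lo = δ := by unfold sw; rw [if_pos rfl]
    have s2 : sw lo δ up = up := by
      unfold sw; rw [if_neg hlu.symm, if_neg hδup.symm]
    have hw : wkempe_wt Ω s zn x (sw lo δ α) + wkempe_wt Ω s zn x (sw lo δ β) < n := by
      rcases hor with ⟨h1, h2⟩ | ⟨h1, h2⟩
      · rw [← h1, ← h2] at hn ⊢
        rw [s1, s2]; omega
      · rw [← h1, ← h2] at hn ⊢
        rw [s1, s2]; omega
    have h0' : swp (zn lo x) lo δ f x y = 0 := by
      by_contra h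
      exact (hne' x y).1 h h0
    obtain ⟨g, hg, hgr⟩ := ih _ hw (swp (zn lo x) lo δ f) (sw lo δ α) (sw lo δ β) le_rfl hf' h0'
      ((hcl T).2 hT) (fun T' h1 h2 => hmin T' h1 ((hcl T').1 h2))
      (by rw [hfr x hlx, wkempe_sw_sw]; exact fx)
      (by rw [hfr p (hEZ (hT.sub hp)), wkempe_sw_sw]; exact fp)
      (by rw [hfr q (hEZ (hT.sub hq)), wkempe_sw_sw]; exact fq)
    refine ⟨g, hg, fun a b => ?_⟩
    rw [hgr a b, hne' a b]

/-- Induction on `wt α + wt β`, `wt s = 0`, `wt γ = Ω.card + 1 - (zn γ x).card` otherwise.  The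
colours differ (`β` is used at `x`).  Let `lo` be the one of `α, β` that is not `s` and has the
smaller zone `Z` at `x` (`lam`); `Z` contains `x` and its neighbours.  If at most one edge with
colour `α` or `β` leaves `Z`, use `sep_closed` and `flip_ext`.  Otherwise both such edges have
the other colour (`cut_colour`); take `δ` from `free_upper`, exchange `lo` and `δ` on `Z`
(`swp_zc`): `T` is still a minimal closed fan, and `lo` is replaced by `δ`. -/
theorem kempe_aux (hZ : Zs Ω Γ s zn) (hs : Sym E) (hi : Irr E) (hx : Ctr zn E x)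
    (hc : ∀ γ, x ∈ zn γ x → ecut E (zn γ x) ≤ nup Γ zn (zn γ x) x + 1) (hp : p ∈ T) (hq : q ∈ T)
    (hpq : p ≠ q) (hf : ZC s zn E f) (h0 : f x y = 0) (hT : Cl s zn E f x y T)
    (hmin : ∀ T' ⊆ T, Cl s zn E f x y T' → T' = T) (fx : Free s zn f x α)
    (fp : Free s zn f p β) (fq : Free s zn f q β) : ∃ g, ZC s zn E g ∧ Gr f g x y := by
  exact wkempe_ind hZ hs hi hx hc hp hq hpq _ f α β le_rfl hf h0 hT hmin fx fp fq

/-- Vizing's extension.  `hall_star`, or a closed fan of least size; its `|T|` members have free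
colours among the `|T| - 1` colours `f x u`, so two of them share one. -/
theorem kempe (hZ : Zs Ω Γ s zn) (hs : Sym E) (hi : Irr E) (hx : Ctr zn E x)
    (hc : ∀ γ, x ∈ zn γ x → ecut E (zn γ x) ≤ nup Γ zn (zn γ x) x + 1) (hf : ZC s zn E f)
    (hy : y ∈ E x) (h0 : f x y = 0) (hfree : ∀ v ∈ insert x (E x), ∃ γ, Free s zn f v γ) :
    ∃ g, ZC s zn E g ∧ Gr f g x y := by
  by_cases h : ∃ T, Cl s zn E f x y T
  swap
  · exact hall_star hZ hs hi hf hx hy h0 h
  have h' : ∃ n, ∃ T : Finset ℕ, T.card = n ∧ Cl s zn E f x y T := by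
    obtain ⟨T, hT⟩ := h
    exact ⟨_, T, rfl, hT⟩
  obtain ⟨T, hTc, hT⟩ := Nat.find_spec h'
  have hmin : ∀ T' ⊆ T, Cl s zn E f x y T' → T' = T := by
    intro T' h1 h2
    refine Finset.eq_of_subset_of_card_le h1 ?_
    rw [hTc]
    exact Nat.find_min' h' ⟨T', rfl, h2⟩
  have hfr : ∀ v, ∃ γ, v ∈ insert x (E x) → Free s zn f v γ := by
    intro v
    by_cases hv : v ∈ insert x (E x)
    · obtain ⟨γ, hγ⟩ := hfree v hv
      exact ⟨γ, fun _ => hγ⟩
    · exact ⟨0, fun h => absurd h hv⟩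
  choose φ hφ using hfr
  have hφT : ∀ w ∈ T, Free s zn f w (φ w) := fun w hw =>
    hφ w (Finset.mem_insert_of_mem (hT.sub hw))
  have hmaps : Set.MapsTo φ (T : Set ℕ) (((T.erase y).image (f x) : Finset ℕ) : Set ℕ) := by
    intro w hw
    obtain ⟨u, hu, huy, hfu⟩ := hT.cls w hw _ (hφT w hw)
    exact Finset.mem_coe.2 (Finset.mem_image.2 ⟨u, Finset.mem_erase.2 ⟨huy, hu⟩, hfu⟩)
  have hlt : ((T.erase y).image (f x)).card < T.card :=
    lt_of_le_of_lt Finset.card_image_le (Finset.card_erase_lt_of_mem hT.mem)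
  obtain ⟨p, hp, q, hq, hpq, he⟩ := Finset.exists_ne_map_eq_of_card_lt_of_maps_to hlt hmaps
  exact kempe_aux hZ hs hi hx hc hp hq hpq hf h0 hT hmin (hφ x (Finset.mem_insert_self _ _))
    (hφT p hp) (he ▸ hφT q hq)

/-- There are `npal + 1` available colours. -/
theorem exists_free (hZ : Zs Ω Γ s zn) (hf : ZC s zn E f) {v : ℕ}
    (h : ((E v).filter fun u => f v u ≠ 0).card ≤ npal Γ zn v) : ∃ γ, Free s zn f v γ := by
  by_contra hn
  let U : Finset ℕ := insert s (Γ.filter fun γ => v ∈ zn γ v)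
  have hU : U.card = npal Γ zn v + 1 := by
    have : s ∉ Γ.filter fun γ => v ∈ zn γ v := fun h => hZ.sΓ (Finset.mem_filter.1 h).1
    simp only [U, Finset.card_insert_of_notMem this, npal]
  have hsub : U ⊆ ((E v).filter fun u => f v u ≠ 0).image (f v) := by
    intro δ hδ
    have hδ' : δ = s ∨ (δ ∈ Γ ∧ v ∈ zn δ v) := by
      rcases Finset.mem_insert.1 hδ with h | h
      · exact Or.inl h
      · exact Or.inr (Finset.mem_filter.1 h)
    have hδ0 : δ ≠ 0 := by
      rcases hδ' with h | h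
      · rw [h]; exact hZ.s0
      · intro h1
        exact hZ.Γ0 (h1 ▸ h.1)
    by_contra hni
    apply hn
    refine ⟨δ, hδ'.imp id fun h => h.2, fun u hu => hni ?_⟩
    have h1 : f v u ≠ 0 := hu ▸ hδ0
    exact Finset.mem_image.2 ⟨u, Finset.mem_filter.2 ⟨hf.edge v u h1, h1⟩, hu⟩
  have h1 := Finset.card_le_card hsub
  have h2 : (((E v).filter fun u => f v u ≠ 0).image (f v)).card ≤
    ((E v).filter fun u => f v u ≠ 0).card := Finset.card_image_le
  omega

/-- Colour the remaining edges one by one (induction on the number of pairs `u ∈ W`, `v ∈ E u`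
with `f u v = 0`).  If `y` has an uncoloured edge `y v0`, colour first the uncoloured edges other
than `y v0`, so that `y` always has a free colour. -/
theorem fill (hZ : Zs Ω Γ s zn) (hs : Sym E) (hi : Irr E) {W : Finset ℕ}
    (hW : ∀ u v, v ∈ E u → u ∈ W) (I : ℕ → Prop) (hI : ∀ x, I x → Ctr zn E x)
    (hc : ∀ γ u, u ∈ zn γ u → ecut E (zn γ u) ≤ nup Γ zn (zn γ u) u + 1)
    (hd : ∀ x, I x → ∀ v ∈ insert x (E x), (E v).card ≤ npal Γ zn v + ind (v = y))
    (hf : ZC s zn E f) (hu : ∀ u, ∀ v ∈ E u, f u v = 0 → I u ∨ I v)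
    (hy : (∃ v ∈ E y, f y v = 0) ∨ ∀ x, I x → y ∈ insert x (E x) → ∀ v ∈ E x, f x v ≠ 0) :
    ∃ g, ZC s zn E g ∧ ∀ u, ∀ v ∈ E u, g u v ≠ 0 := by
  obtain ⟨n, hn⟩ : ∃ n, ((W.sigma E).filter fun e => f e.1 e.2 = 0).card ≤ n := ⟨_, le_rfl⟩
  induction n generalizing f with
  | zero =>
    refine ⟨f, hf, fun u v hv h => ?_⟩
    have : (⟨u, v⟩ : Σ _ : ℕ, ℕ) ∈ (W.sigma E).filter fun e => f e.1 e.2 = 0 :=
      Finset.mem_filter.2 ⟨Finset.mem_sigma.2 ⟨hW u v hv, hv⟩, h⟩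
    have := Finset.card_pos.2 ⟨_, this⟩
    omega
  | succ n ih =>
    by_cases hall : ∀ u, ∀ v ∈ E u, f u v ≠ 0
    · exact ⟨f, hf, hall⟩
    push Not at hall
    have orient : ∀ u, ∀ v ∈ E u, f u v = 0 → ∃ a b, b ∈ E a ∧ f a b = 0 ∧ I a ∧
        ((a = u ∧ b = v) ∨ (a = v ∧ b = u)) := by
      intro u v hv h
      rcases hu u v hv h with h1 | h1
      · exact ⟨u, v, hv, h, h1, Or.inl ⟨rfl, rfl⟩⟩
      · exact ⟨v, u, hs u v hv, (hf.symm v u).trans h, h1, Or.inr ⟨rfl, rfl⟩⟩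
    have key : ∃ a b, b ∈ E a ∧ f a b = 0 ∧ I a ∧ ∀ g, Gr f g a b →
        (∃ v ∈ E y, g y v = 0) ∨
          ∀ x, I x → y ∈ insert x (E x) → ∀ v ∈ E x, g x v ≠ 0 := by
      rcases hy with ⟨v0, hv0, h0⟩ | hy
      · by_cases ho : ∃ u, ∃ v ∈ E u, f u v = 0 ∧ ¬ ((u = y ∧ v = v0) ∨ (u = v0 ∧ v = y))
        · obtain ⟨u, v, hv, h, hne⟩ := ho
          obtain ⟨a, b, hb, hab, hI', hor⟩ := orient u v hv h
          refine ⟨a, b, hb, hab, hI', fun g hg => Or.inl ⟨v0, hv0, ?_⟩⟩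
          by_contra hg0
          rcases (hg y v0).1 hg0 with h1 | h1 | h1
          · exact h1 h0
          · apply hne; omega
          · apply hne; omega
        · obtain ⟨a, b, hb, hab, hI', hor⟩ := orient y v0 hv0 h0
          refine ⟨a, b, hb, hab, hI', fun g hg => Or.inr fun x' _ _ v hv => ?_⟩
          rw [hg x' v]
          by_cases h : f x' v = 0
          · right
            by_contra hne
            apply ho
            refine ⟨x', v, hv, h, ?_⟩
            omega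
          · exact Or.inl h
      · obtain ⟨u, v, hv, h⟩ := hall
        obtain ⟨a, b, hb, hab, hI', -⟩ := orient u v hv h
        exact ⟨a, b, hb, hab, hI', fun g hg =>
          Or.inr fun x' h1 h2 v hv => (hg x' v).2 (Or.inl (hy x' h1 h2 v hv))⟩
    obtain ⟨a, b, hb, hab, hIa, hk⟩ := key
    have hfree : ∀ v ∈ insert a (E a), ∃ γ, Free s zn f v γ := by
      intro v hv
      apply exists_free hZ hf
      have h1 := hd a hIa v hv
      by_cases hvy : v = y
      · subst hvy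
        rcases hy with ⟨v0, hv0, h0⟩ | hy
        · have h2 : ((E v).filter fun u => f v u ≠ 0).card < (E v).card := by
            apply Finset.card_lt_card
            refine ⟨Finset.filter_subset _ _, fun h => ?_⟩
            exact (Finset.mem_filter.1 (h hv0)).2 h0
          have h3 : ind (v = v) = 1 := by simp [ind]
          omega
        · exact absurd hab (hy a hIa hv b hb)
      · have h3 : ind (v = y) = 0 := by simp [ind, hvy]
        have h2 : ((E v).filter fun u => f v u ≠ 0).card ≤ (E v).card :=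
          Finset.card_filter_le _ _
        omega
    obtain ⟨g, hg, hgr⟩ := kempe hZ hs hi (hI a hIa) (fun γ h => hc γ a h) hf hb hab hfree
    have hz : ∀ u v, g u v = 0 → f u v = 0 := by
      intro u v h
      by_contra h1
      exact (hgr u v).2 (Or.inl h1) h
    refine ih hg (fun u v hv h => hu u v hv (hz u v h)) (hk g hgr) ?_
    have hlt : ((W.sigma E).filter fun e => g e.1 e.2 = 0).card <
        ((W.sigma E).filter fun e => f e.1 e.2 = 0).card := by
      apply Finset.card_lt_card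
      refine ⟨fun e he => ?_, fun h => ?_⟩
      · rw [Finset.mem_filter] at he ⊢
        exact ⟨he.1, hz _ _ he.2⟩
      · have h1 : (⟨a, b⟩ : Σ _ : ℕ, ℕ) ∈ (W.sigma E).filter fun e => f e.1 e.2 = 0 :=
          Finset.mem_filter.2 ⟨Finset.mem_sigma.2 ⟨hW a b hb, hb⟩, hab⟩
        exact (hgr a b).2 (Or.inr (Or.inl ⟨rfl, rfl⟩)) (Finset.mem_filter.1 (h h1)).2
    omega

end Pool.Agent.Lib.MP_459a07_lc.V
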