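import Pool.Agent.Lib.MP_459a07_lc.WProc
import Pool.Agent.Lib.MP_459a07_lc.WGrp
import Pool.Agent.Lib.MP_459a07_lc.WFin
import Pool.Agent.Lib.MP_459a07_lc.VThM
import Pool.Agent.Lib.MP_459a07_lc.View

set_option autoImplicit false

namespace Pool.Agent.Lib.MP_459a07_lc.V

open Classical

/-- A constant is eventually below `ε log n`. -/
theorem wmain_const (C : ℕ) {ε : ℝ} (hε : 0 < ε) :
    ∀ᶠ n : ℕ in Filter.atTop, (C : ℝ) ≤ ε * Real.log n := by
  have h : Filter.Tendsto (fun n : ℕ => ε * Real.log n) Filter.atTop Filter.atTop :=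
    (Real.tendsto_log_atTop.comp tendsto_natCast_atTop_atTop).const_mul_atTop hε
  exact h.eventually_ge_atTop _

theorem peel (k d : ℕ) (h1 : 1 ≤ d) (hk : d ≤ k) : ∃ σ : ℕ, ∀ (Λ : ℕ) (ε : ℝ), 0 < ε →
    ∀ᶠ n : ℕ in Filter.atTop, ∃ r : ℕ, (r : ℝ) ≤ ε * Real.log n ∧
      Proc k n (d / (n : ℝ) ^ 2) r (RI k false d σ Λ) (Total k) := by
  induction d, h1 using Nat.le_induction with
  | base =>
    refine ⟨0, fun Λ ε hε => ?_⟩
    filter_upwards [wmain_const Λ hε] with n hn
    refine ⟨Λ, hn, proc_mono (proc_det (fstep k) (fun S N x hG hR => fstep_spec hG hk hR)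
      fun S N x S' N' x' v _ _ hR _ h => fstep_local hR h) (by positivity) le_rfl⟩
  | succ d hd ih =>
    obtain ⟨σ2, hσ2⟩ := ih (by omega)
    obtain ⟨L, σM, hM⟩ := thM k (σ2 + 2)
    refine ⟨max (2 * σM) σ2 * (L + 1) + L, fun Λ ε hε => ?_⟩
    have hε3 : 0 < ε / 3 := by positivity
    have hε4 : 0 < ε / 3 / (2 * ((L + 1) * (2 * Λ + 1) : ℕ) + 1 : ℕ) := by positivity
    filter_upwards [hσ2 ((L + 1) * (2 * Λ + 1)) (ε / 3) hε3, hM (d + 1) _ hε4,
      wmain_const (((d + 1) * L + 1) * (2 * Λ + 1) + 4 * (2 * ((L + 1) * (2 * Λ + 1)) + 1)) hε3]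
      with n h2 h3 h4
    obtain ⟨r2, hr2, hP2⟩ := h2
    obtain ⟨r1, hr1, hP1⟩ := h3
    have p0 : Proc k n 0 (((d + 1) * L + 1) * (2 * Λ + 1))
        (RI k false (d + 1) (max (2 * σM) σ2 * (L + 1) + L) Λ)
        (fun N x => RI k true (d + 1) (max (2 * σM) σ2) ((L + 1) * (2 * Λ + 1)) N x ∧
          NoDef N x (d + 1) L) :=
      proc_det (fun N x => gstep N (d + 1) L x) (fun S N x hG hR => gstep_spec hG hk hR le_rfl)
        fun S N x S' N' x' v hG hG' hR hR' h => gstep_local hG hG' hR hR' h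
    have p1 := proc_stage (σ := max (2 * σM) σ2) (σ₂ := σ2) (Λ := (L + 1) * (2 * Λ + 1)) hP1
      (by omega) hk (le_max_left _ _) (le_max_right _ _) le_rfl
    rw [Nat.add_sub_cancel] at p1
    refine ⟨_, ?_, proc_mono (proc_comp (proc_comp p0 p1 (by positivity)) hP2 (by positivity))
      (le_of_eq ?_) le_rfl⟩
    · generalize ((d + 1) * L + 1) * (2 * Λ + 1) = A at h4 ⊢
      generalize hD : 2 * ((L + 1) * (2 * Λ + 1)) + 1 = D at h4 hr1 ⊢
      have hD0 : (0 : ℝ) < D := by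
        have : 0 < D := by omega
        exact_mod_cast this
      have h5 : (r1 : ℝ) * D ≤ ε / 3 * Real.log n := by
        have h6 := mul_le_mul_of_nonneg_right hr1 hD0.le
        have h7 : ε / 3 / (D : ℝ) * Real.log n * D = ε / 3 * Real.log n := by
          field_simp
        rwa [h7] at h6
      push_cast at h4 ⊢
      nlinarith
    · push_cast
      ring

theorem wmain_ball_sub {k i r : ℕ} {S : Finset ℕ} {N : ℕ → Finset ℕ} (hG : GV k S N)
    (hi : i ∈ S) : ball N i r ⊆ S := by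
  induction r with
  | zero => exact Finset.singleton_subset_iff.mpr hi
  | succ r ih =>
    intro v hv
    rcases Finset.mem_union.mp hv with h | h
    · exact ih h
    · obtain ⟨a, -, hb⟩ := Finset.mem_biUnion.mp h
      exact hG.sub _ _ (hG.sym _ _ hb)

theorem wmain_gv {n k : ℕ} {G : SimpleGraph (Fin n)} {id : Fin n → ℕ}
    (hid : Function.Injective id) (hdeg : ∀ v, G.degree v ≤ k) :
    GV k (Finset.univ.image id) (NG G id) := by
  have hcard : ∀ v, (NG G id (id v)).card = G.degree v := fun v => by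
    rw [NG_id G hid, Finset.card_image_of_injective _ hid]; rfl
  refine ⟨fun u v h => ?_, fun u h => ?_, fun u v h => ?_, fun u => ?_⟩
  · obtain ⟨x, y, e1, e2, e3⟩ := mem_NG.mp h
    exact mem_NG.mpr ⟨y, x, e2, e1, e3.symm⟩
  · obtain ⟨x, y, e1, e2, e3⟩ := mem_NG.mp h
    exact e3.ne (hid (e1.trans e2.symm))
  · obtain ⟨x, y, e1, -, -⟩ := mem_NG.mp h
    exact Finset.mem_image.mpr ⟨x, Finset.mem_univ _, e1⟩
  · by_cases h : ∃ v, id v = u
    · obtain ⟨v, rfl⟩ := h
      rw [hcard]; exact hdeg v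
    · rw [Finset.card_eq_zero.mpr]
      · exact Nat.zero_le _
      · exact Finset.eq_empty_of_forall_notMem fun b hb => by
          obtain ⟨x, -, e1, -, -⟩ := mem_NG.mp hb
          exact h ⟨x, e1⟩

theorem wmain_transfer {Ω Ω' : Type} [Fintype Ω] {i : Fintype Ω'} (E : Ω ≃ Ω') (P : Ω → Prop)
    (Q : Ω' → Prop) [DecidablePred P] {d : DecidablePred fun ω => ¬ Q ω} (h : ∀ ω, Q (E ω) → P ω)
    {δ : ℝ} (hp : ((Finset.univ.filter fun ω => ¬ Q ω).card : ℝ) ≤ δ * Fintype.card Ω') :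
    (1 - δ) * Fintype.card Ω ≤ ((Finset.univ.filter P).card : ℝ) := by
  have hbad : (Finset.univ.filter fun ω => ¬ P ω).card ≤
      (Finset.univ.filter fun ω => ¬ Q ω).card := by
    refine Finset.card_le_card_of_injOn E (fun ω hω => ?_) E.injective.injOn
    simp only [Finset.coe_filter, Finset.mem_univ, true_and, Set.mem_ofPred_eq] at hω ⊢
    exact fun h' => hω (h ω h')
  have h1 := ((Nat.cast_le (α := ℝ)).mpr hbad).trans hp
  rw [← Fintype.card_congr E] at h1
  have h2 := Finset.card_filter_add_card_filter_not (s := Finset.univ) P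
  rw [Finset.card_univ] at h2
  have h4 := congrArg (Nat.cast (R := ℝ)) h2
  push_cast at h4
  linarith

/-- The random inputs read from the bits. -/
noncomputable def wmain_inp {B : ℕ} {Ξ : Type} [Inhabited Ξ] (e : (Fin B → Bool) ≃ Ξ)
    (S : Finset ℕ) (W : ℕ → Fin B → Bool) : ℕ → Ξ :=
  fun v => if v ∈ S then e (W v) else default

theorem wmain_inp_eq {n B : ℕ} {Ξ : Type} [Inhabited Ξ] (e : (Fin B → Bool) ≃ Ξ)
    {id : Fin n → ℕ} (hid : Function.Injective id) (ω : Fin n → Fin B → Bool) :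
    wmain_inp e (Finset.univ.image id) (extV id ω) = extV id fun v => e (ω v) := by
  funext v
  unfold wmain_inp extV
  split_ifs with h
  · obtain ⟨u, -, rfl⟩ := Finset.mem_image.mp h
    rw [hid.extend_apply, hid.extend_apply]
  · rw [Function.extend_apply']
    rintro ⟨u, rfl⟩
    exact h (Finset.mem_image_of_mem _ (Finset.mem_univ _))

/-- The output: the colour in some run that is consistent with the view. -/
noncomputable def wmain_out {B : ℕ} (k R : ℕ)
    (C : Finset ℕ × (ℕ → Finset ℕ) × (ℕ → Fin B → Bool) → Prop)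
    (col : Finset ℕ × (ℕ → Finset ℕ) × (ℕ → Fin B → Bool) → Col) (i : ℕ)
    (K : Finset (ℕ × (Fin B → Bool) × Finset ℕ)) (j : ℕ) : Fin (k + 1) :=
  Fin.ofNat (k + 1) (col (epsilon fun p => C p ∧ i ∈ p.1 ∧ view p.2.1 p.2.2 i R = K) i j - 1)

/-- From a procedure to an algorithm. -/
theorem alg_of_proc {k n r σ : ℕ} {δ : ℝ} (h : Proc k n δ r (RI k false k σ 0) (Total k)) :
    ∃ (B : ℕ) (A : Alg B (k + 1)), ∀ G : SimpleGraph (Fin n), (∀ v, G.degree v ≤ k) →
      ∀ id : Fin n → ℕ, Function.Injective id → (1 - δ) * 2 ^ (n * B) ≤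
        ((Finset.univ.filter fun ω : Fin n → Fin B → Bool =>
          A.Colours G id (r + 1) ω).card : ℝ) := by
  obtain ⟨Ξ, i1, i2, B, F, Gd, hcard, hpost, hprob, hloc⟩ := h
  have e : (Fin B → Bool) ≃ Ξ := Fintype.equivOfCardEq (by simp [hcard])
  let C : Finset ℕ × (ℕ → Finset ℕ) × (ℕ → Fin B → Bool) → Prop :=
    fun p => GV k p.1 p.2.1 ∧ Gd p.1 p.2.1 x0 (wmain_inp e p.1 p.2.2)
  let col : Finset ℕ × (ℕ → Finset ℕ) × (ℕ → Fin B → Bool) → Col :=
    fun p => (F p.1 p.2.1 x0 (wmain_inp e p.1 p.2.2)).c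
  have hcol : ∀ p p' i, C p → C p' → i ∈ p.1 → i ∈ p'.1 →
      view p.2.1 p.2.2 i r = view p'.2.1 p'.2.2 i r → col p i = col p' i := by
    intro p p' i hp hp' hi hi' hv
    have h1 := hloc p.1 p.2.1 x0 _ p'.1 p'.2.1 x0 _ i hp.1 hp'.1 (x0_ri hp.1 σ) (x0_ri hp'.1 σ)
      hp.2 hp'.2 (fun u hu => by
        obtain ⟨b1, b2, b3⟩ := view_agree hv hu
        have s1 : u ∈ p.1 := wmain_ball_sub hp.1 hi hu
        have s2 : u ∈ p'.1 := wmain_ball_sub hp'.1 hi' b1
        refine ⟨b3, s1, s2, rfl, ?_⟩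
        unfold wmain_inp
        rw [if_pos s1, if_pos s2, b2])
    exact congrArg Prod.fst h1
  refine ⟨B, gather _ _ (wmain_out k r C col), fun G hdeg id hid => ?_⟩
  have hV := wmain_gv hid hdeg
  have hp := hprob id (NG G id) x0 hid hV (x0_ri hV σ)
  let E : (Fin n → Fin B → Bool) ≃ (Fin n → Ξ) := Equiv.piCongrRight fun _ => e
  have hgood : ∀ ω, Gd (Finset.univ.image id) (NG G id) x0 (extV id (E ω)) →
      (gather _ _ (wmain_out k r C col)).Colours G id (r + 1) ω := by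
    intro ω hω
    have hC : C (Finset.univ.image id, NG G id, extV id ω) :=
      ⟨hV, by rw [wmain_inp_eq e hid]; exact hω⟩
    have hT := hpost _ _ _ _ hV (x0_ri hV σ) hC.2
    have hout : ∀ u j, (gather _ _ (wmain_out k r C col)).out
        ((gather _ _ (wmain_out k r C col)).run G id ω (r + 1) u) j =
        Fin.ofNat (k + 1) (col (Finset.univ.image id, NG G id, extV id ω) (id u) j - 1) := by
      intro u j
      have hu : id u ∈ Finset.univ.image id := Finset.mem_image_of_mem _ (Finset.mem_univ _)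
      rw [gather_run _ G hid]
      have hs := epsilon_spec (p := fun p => C p ∧ id u ∈ p.1 ∧
        view p.2.1 p.2.2 (id u) r = view (NG G id) (extV id ω) (id u) r) ⟨_, hC, hu, rfl⟩
      change Fin.ofNat (k + 1) (col _ (id u) j - 1) = _
      rw [hcol _ _ _ hs.1 hC hs.2.1 hu hs.2.2]
    refine ⟨fun u v h1 => ?_, fun u v w h1 h2 hvw => ?_⟩
    · rw [hout, hout]
      have h3 : col (Finset.univ.image id, NG G id, extV id ω) (id u) (id v) =
          col (Finset.univ.image id, NG G id, extV id ω) (id v) (id u) :=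
        hT.symm _ _ (mem_NG.mpr ⟨u, v, rfl, rfl, h1⟩)
      rw [h3]
    · rw [hout, hout]
      have m1 : id v ∈ NG G id (id u) := mem_NG.mpr ⟨u, v, rfl, rfl, h1⟩
      have m2 : id w ∈ NG G id (id u) := mem_NG.mpr ⟨u, w, rfl, rfl, h2⟩
      have l1 : 1 ≤ col (Finset.univ.image id, NG G id, extV id ω) (id u) (id v) ∧
          col (Finset.univ.image id, NG G id, extV id ω) (id u) (id v) ≤ k + 1 := hT.rng _ _ m1
      have l2 : 1 ≤ col (Finset.univ.image id, NG G id, extV id ω) (id u) (id w) ∧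
          col (Finset.univ.image id, NG G id, extV id ω) (id u) (id w) ≤ k + 1 := hT.rng _ _ m2
      have l3 : col (Finset.univ.image id, NG G id, extV id ω) (id u) (id v) =
          col (Finset.univ.image id, NG G id, extV id ω) (id u) (id w) → id v = id w :=
        hT.inj _ _ m1 _ m2
      intro h
      have h3 := congrArg Fin.val h
      simp only [Fin.ofNat] at h3
      rw [Nat.mod_eq_of_lt (by omega), Nat.mod_eq_of_lt (by omega)] at h3
      exact hvw (hid (l3 (by omega)))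
  have h1 := wmain_transfer E _ _ hgood hp
  have h3 : Fintype.card (Fin n → Fin B → Bool) = 2 ^ (n * B) := by
    simp [← pow_mul, mul_comm]
  rw [h3] at h1
  exact_mod_cast h1

theorem mainV (k : ℕ) (hk : 1 ≤ k) {ε : ℝ} (hε : 0 < ε) : ∀ᶠ n : ℕ in Filter.atTop, ∃ T : ℕ,
    (T : ℝ) ≤ ε * Real.log n ∧ ∃ (B : ℕ) (A : Alg B (k + 1)), ∀ G : SimpleGraph (Fin n),
      (∀ v, G.degree v ≤ k) → ∀ id : Fin n → ℕ, Function.Injective id →
      (1 - 1 / (n : ℝ)) * 2 ^ (n * B) ≤
        ((Finset.univ.filter fun ω : Fin n → Fin B → Bool => A.Colours G id T ω).card : ℝ) := by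
  obtain ⟨σ, hσ⟩ := peel k k hk le_rfl
  have hε2 : 0 < ε / 2 := by positivity
  filter_upwards [hσ 0 (ε / 2) hε2, wmain_const 1 hε2, Filter.eventually_ge_atTop k]
    with n h1 h2 h3
  obtain ⟨r, hr, hP⟩ := h1
  obtain ⟨B, A, hA⟩ := alg_of_proc hP
  refine ⟨r + 1, by push_cast at h2 ⊢; linarith, B, A, fun G hdeg id hid =>
    le_trans (mul_le_mul_of_nonneg_right ?_ (by positivity)) (hA G hdeg id hid)⟩
  have hn : (0 : ℝ) < n := by
    have : 0 < n := by omega
    exact_mod_cast this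
  have hkn : (k : ℝ) ≤ n := by exact_mod_cast h3
  have h4 : (k : ℝ) / (n : ℝ) ^ 2 ≤ 1 / n := by
    rw [div_le_div_iff₀ (by positivity) hn]
    nlinarith
  linarith

end Pool.Agent.Lib.MP_459a07_lc.V
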