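import Pool.Agent.Lib.MP_459a07_lc.WBasic

set_option autoImplicit false

namespace Pool.Agent.Lib.MP_459a07_lc.V

open Classical

variable {k : ℕ} {N N' : ℕ → Finset ℕ} {c c' c1 c2 : Col} {hv hv' : ℕ → Prop}
  {nd : ℕ → Finset ℕ} {X Y Z P F F' : Finset ℕ} {Dm : ℕ → Prop} {u v w a t t' γ D : ℕ} {b : Bool}

/-- Induction on `Nm`. -/
theorem nm_pal (h : Nm k N c hv b P X) : P ⊆ Finset.Icc 1 (k + 1) ∧ (∀ v ∈ X, ∀ u, c v u ∉ P) ∧
    cutp N c hv X < P.card ∧ X.Nonempty := by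
  induction h with
  | leaf P v h1 h2 h3 =>
    exact ⟨h1, fun w hw => by rw [Finset.mem_singleton.1 hw]; exact h2, h3,
      Finset.singleton_nonempty v⟩
  | defer P X γ _ _ hc ih =>
    exact ⟨(Finset.subset_insert γ P).trans ih.1,
      fun v hv u hu => ih.2.1 v hv u (Finset.mem_insert_of_mem hu), hc, ih.2.2.2⟩
  | single P X _ ih => exact ih
  | group P X nd hp _ hm ih =>
    obtain ⟨a, ha⟩ := Finset.card_pos.1 hm.odd.pos
    have ha' := (mem_reps.1 ha).1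
    have h3 := hm.small
    rw [hp.reps_biUnion] at h3
    exact ⟨(ih a ha').1, fun v hv => (ih v hv).2.1 v (hp v hv).1, by omega, a, ha'⟩

/-- `Nm` only depends on the cuts of subsets and on the colours used (induction on `Nm`). -/
theorem nm_transfer (h : Nm k N c hv b P X)
    (h1 : ∀ Y ⊆ X, cutp N c hv Y = cutp N' c' hv' Y)
    (h2 : ∀ v ∈ X, ∀ u, 1 ≤ c' v u → c' v u ≤ k + 1 → ∃ u', c v u' = c' v u) :
    Nm k N' c' hv' b P X := by
  induction h with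
  | leaf P v g1 g2 g3 =>
    refine Nm.leaf P v g1 (fun u hu => ?_) (h1 _ subset_rfl ▸ g3)
    have h3 := Finset.mem_Icc.1 (g1 hu)
    obtain ⟨u', h4⟩ := h2 v (Finset.mem_singleton_self v) u h3.1 h3.2
    exact g2 u' (h4 ▸ hu)
  | defer P X γ g1 _ hc ih => exact Nm.defer P X γ g1 (ih h1 h2) (h1 _ subset_rfl ▸ hc)
  | single P X _ ih => exact Nm.single P X (ih h1 h2)
  | group P X nd hp _ hm ih =>
    have hs : ∀ G ⊆ reps X nd, G.biUnion nd ⊆ X := fun G hG =>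
      Finset.biUnion_subset.2 fun a ha => (hp a (mem_reps.1 (hG ha)).1).2.1
    refine Nm.group P X nd hp (fun v hv => ih v hv (fun Y hY => h1 Y (hY.trans (hp v hv).2.1))
      fun w hw => h2 w ((hp v hv).2.1 hw)) ⟨hm.rep, hm.odd, fun a ha => ?_, ?_, fun G hG ho => ?_⟩
    · rw [← h1 _ (hp a (mem_reps.1 ha).1).2.1]
      exact hm.care a ha
    · rw [← h1 _ (hs _ subset_rfl)]
      exact hm.small
    · rw [← h1 _ (hs _ hG.subset)]
      exact hm.min G hG ho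

theorem nm_congr (h : Nm k N c hv b P X)
    (hc : ∀ u ∈ X, N u = N' u ∧ c u = c' u ∧ (hv u ↔ hv' u)) : Nm k N' c' hv' b P X := by
  exact nm_transfer h (fun Y hY => cutp_congr fun u hu => hc u (hY hu))
    fun v hv u _ _ => ⟨u, by rw [(hc v hv).2.1]⟩

/-- An uncoloured edge leaving `X` is reserved and counted as a half edge. -/
theorem nm_conv (h : Nm k N c hv b P X) (he : OneEdge N X c c1 t t' (k + 2)) (ht : ¬ hv t)
    (hh : ∀ u ∈ X, hv' u ↔ hv u ∨ u = t) :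
    Nm k N c1 hv' b P X ∧ cutp N c1 hv' X = cutp N c hv X := by
  have h1 : ∀ Y ⊆ X, cutp N c hv Y = cutp N c1 hv' Y := by
    intro Y hY
    rw [← cutp_oneEdge (hv := hv) he (by omega) hY]
    have h2 : ind (t ∈ Y) = ∑ u ∈ Y, if t = u then 1 else 0 := by
      rw [Finset.sum_ite_eq, ind]
      congr
    rw [h2, cutp, cutp, ← Finset.sum_add_distrib]
    refine Finset.sum_congr rfl fun u hu => ?_
    have h3 := hh u (hY hu)
    unfold ind
    by_cases h4 : t = u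
    · subst h4
      rw [if_neg ht, if_pos rfl, if_pos (h3.2 (Or.inr rfl))]
    · rw [if_neg h4, add_zero]
      have h5 : hv' u ↔ hv u := h3.trans ⟨fun h => h.resolve_right fun e => h4 e.symm, Or.inl⟩
      simp only [h5]
  refine ⟨nm_transfer h h1 fun v hv u _ h2 => ⟨u, ?_⟩, (h1 X subset_rfl).symm⟩
  rw [he.rows v hv u] at h2 ⊢
  split_ifs at h2 ⊢
  · omega
  · rfl

theorem Ext.refl (ho : Ok k N X c) : Ext k N X c c := by
  exact ⟨ho, fun _ _ _ _ => rfl, fun _ _ _ h => h⟩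

theorem Ext.trans (h : Ext k N X c c1) (h' : Ext k N X c1 c2) : Ext k N X c c2 := by
  refine ⟨h'.ok, fun u hu v hv => ?_, fun u hu v e => h.nomk u hu v (h'.nomk u hu v e)⟩
  have h1 := h.keep u hu v hv
  rw [h'.keep u hu v (hv.imp id fun h0 => h1 ▸ h0), h1]

theorem res_of_nm (ho : Ok k N X c) (h : Nm k N c hv false P X) : Res k N hv P X c := by
  exact ⟨(c, fun _ => X), Ext.refl ho, fun _ hv => ⟨hv, subset_rfl, fun _ _ => rfl⟩,
    fun _ _ => h⟩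

theorem res_ext (h : Ext k N X c c1) (h' : Res k N hv P X c1) : Res k N hv P X c := by
  obtain ⟨r, h1, h2⟩ := h'
  exact ⟨r, h.trans h1, h2⟩

/-- Choose a solution for every node (depending only on the set `nd v`) and take row `u` from the
solution of `nd u`. -/
theorem res_glue (ho : Ok k N X c) (hp : Part X nd) (h : ∀ v ∈ X, Res k N hv P (nd v) c) :
    Res k N hv P X c := by
  obtain ⟨r, hr⟩ : ∃ r : Finset ℕ → Col × (ℕ → Finset ℕ),
      ∀ v ∈ X, ResP k N hv P (nd v) c (r (nd v)) :=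
    ⟨fun Y => epsilon (ResP k N hv P Y c), fun v hv => epsilon_spec (h v hv)⟩
  have hm : ∀ v ∈ X, ∀ u ∈ (r (nd v)).2 v, nd u = nd v := fun v hv u hu =>
    (hp v hv).2.2 u (((hr v hv).2.1 v (hp v hv).1).2.1 hu)
  refine ⟨(fun u => (r (nd u)).1 u, fun u => (r (nd u)).2 u), ⟨⟨fun u hu v hv => ?_,
    fun u hu => (hr u hu).1.ok.edge u (hp u hu).1, fun u hu => (hr u hu).1.ok.inj u (hp u hu).1,
    fun u hu => (hr u hu).1.ok.le u (hp u hu).1⟩, fun u hu v hv => (hr u hu).1.keep u (hp u hu).1 v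
      (hv.imp_left fun h1 h2 => h1 ((hp u hu).2.1 h2)),
    fun u hu => (hr u hu).1.nomk u (hp u hu).1⟩, fun v hv => ⟨((hr v hv).2.1 v (hp v hv).1).1,
      ((hr v hv).2.1 v (hp v hv).1).2.1.trans (hp v hv).2.1, fun u hu => ?_⟩, fun v hv => ?_⟩
  · show (r (nd u)).1 u v = (r (nd v)).1 v u
    by_cases h1 : v ∈ nd u
    · rw [(hp u hu).2.2 v h1]
      exact (hr u hu).1.ok.symm u (hp u hu).1 v h1
    · have h2 : u ∉ nd v := fun h2 => h1 ((hp v hv).2.2 u h2 ▸ (hp v hv).1)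
      rw [(hr u hu).1.keep u (hp u hu).1 v (Or.inl h1),
        (hr v hv).1.keep v (hp v hv).1 u (Or.inl h2)]
      exact ho.symm u hu v hv
  · show (r (nd u)).2 u = (r (nd v)).2 v
    rw [hm v hv u hu]
    exact ((hr v hv).2.1 v (hp v hv).1).2.2 u hu
  · refine nm_congr ((hr v hv).2.2 v (hp v hv).1) fun u hu => ⟨rfl, ?_, Iff.rfl⟩
    show (r (nd v)).1 u = (r (nd u)).1 u
    rw [hm v hv u hu]

theorem wnm_resP (hc : ∀ u ∈ X, N u = N' u ∧ c u = c' u ∧ (hv u ↔ hv' u))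
    {r : Col × (ℕ → Finset ℕ)} (h : ResP k N hv P X c r) : ResP k N' hv' P X c' r := by
  refine ⟨⟨h.1.ok.congr fun u hu => ⟨(hc u hu).1, rfl⟩, fun u hu => ?_, fun u hu => ?_⟩, h.2.1,
    fun v hv => nm_congr (h.2.2 v hv) fun u hu => ?_⟩
  · rw [← (hc u hu).2.1]
    exact h.1.keep u hu
  · rw [← (hc u hu).2.1]
    exact h.1.nomk u hu
  · have h1 := hc u ((h.2.1 v hv).2.1 hu)
    exact ⟨h1.1, rfl, h1.2.2⟩

theorem resP_congr (hc : ∀ u ∈ X, N u = N' u ∧ c u = c' u ∧ (hv u ↔ hv' u)) :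
    ResP k N hv P X c = ResP k N' hv' P X c' := by
  funext r
  exact propext ⟨wnm_resP hc, wnm_resP fun u hu =>
    ⟨(hc u hu).1.symm, (hc u hu).2.1.symm, (hc u hu).2.2.symm⟩⟩

/-! ### Grouping -/

/-- Zorn's lemma (`zorn_subset`) for pairwise disjoint subfamilies of `C`. -/
theorem exists_maxDisj (C : Set (Finset ℕ)) (h : ∀ F ∈ C, F.Nonempty) : ∃ M, MaxDisj C M := by
  obtain ⟨M, hM⟩ := zorn_subset
    {M : Set (Finset ℕ) | M ⊆ C ∧ ∀ F ∈ M, ∀ F' ∈ M, ¬ Disjoint F F' → F = F'} (by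
      intro ch hch hc
      refine ⟨⋃₀ ch, ⟨Set.sUnion_subset fun M hM => (hch hM).1, ?_⟩,
        fun M hM => Set.subset_sUnion_of_mem hM⟩
      rintro F ⟨M, hM, hF⟩ F' ⟨M', hM', hF'⟩
      rcases hc.total hM hM' with h1 | h1
      · exact (hch hM').2 F (h1 hF) F' hF'
      · exact (hch hM).2 F hF F' (h1 hF'))
  refine ⟨M, hM.prop.1, hM.prop.2, fun F hF => ?_⟩
  by_contra hn
  have h1 : ∀ F' ∈ M, Disjoint F F' := fun F' hF' => by_contra fun h2 => hn ⟨F', hF', h2⟩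
  have h2 : insert F M ⊆ M := hM.le_of_ge (y := insert F M)
    ⟨Set.insert_subset hF hM.prop.1, by
      rintro G (rfl | hG) G' (rfl | hG') hd
      · rfl
      · exact absurd (h1 _ hG') hd
      · exact absurd (h1 _ hG).symm hd
      · exact hM.prop.2 G hG G' hG' hd⟩ (Set.subset_insert F M)
  exact (h F hF).ne_empty (disjoint_self.1 (h1 F (h2 (Set.mem_insert F M))))

section Grp

variable {Ch : Finset ℕ → Prop}

theorem grp_cases (hd : ∀ F F', Ch F → Ch F' → ¬ Disjoint F F' → F = F') (v : ℕ) :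
    (∃ F, Ch F ∧ rp nd v ∈ F ∧ grp nd Ch v = F.biUnion nd) ∨
      ((¬ ∃ F, Ch F ∧ rp nd v ∈ F) ∧ grp nd Ch v = nd v) := by
  by_cases h : ∃ F, Ch F ∧ rp nd v ∈ F
  · exact Or.inl ⟨_, (epsilon_spec h).1, (epsilon_spec h).2, if_pos h⟩
  · exact Or.inr ⟨h, if_neg h⟩

theorem grp_of_mem (hd : ∀ F F', Ch F → Ch F' → ¬ Disjoint F F' → F = F') (hF : Ch F)
    (hv : rp nd v ∈ F) : grp nd Ch v = F.biUnion nd := by
  rcases grp_cases (nd := nd) hd v with ⟨G, h1, h2, h3⟩ | h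
  · rw [h3, hd G F h1 hF (Finset.not_disjoint_iff.2 ⟨_, h2, hv⟩)]
  · exact absurd ⟨F, hF, hv⟩ h.1

theorem grp_part (h : PartOn Dm nd) (hr : ∀ F, Ch F → ∀ a ∈ F, Dm a ∧ rp nd a = a)
    (hd : ∀ F F', Ch F → Ch F' → ¬ Disjoint F F' → F = F') :
    PartOn Dm (grp nd Ch) ∧ ∀ v, Dm v → nd v ⊆ grp nd Ch v := by
  constructor
  · intro v hv
    rcases grp_cases (nd := nd) hd v with ⟨G, h1, h2, h3⟩ | ⟨h1, h2⟩
    · rw [h3]
      refine ⟨(h.mem_biUnion (hr G h1)).2 ⟨hv, h2⟩, fun u hu => ?_⟩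
      have h4 := (h.mem_biUnion (hr G h1)).1 hu
      exact ⟨h4.1, grp_of_mem hd h1 h4.2⟩
    · rw [h2]
      refine ⟨(h v hv).1, fun u hu => ?_⟩
      have h4 := (h v hv).2 u hu
      refine ⟨h4.1, ?_⟩
      rcases grp_cases (nd := nd) hd u with ⟨G, g1, g2, -⟩ | ⟨-, g2⟩
      · exact absurd ⟨G, g1, rp_congr h4.2 ▸ g2⟩ h1
      · exact g2.trans h4.2
  · intro v hv u hu
    rcases grp_cases (nd := nd) hd v with ⟨G, h1, h2, h3⟩ | ⟨-, h2⟩
    · have h4 := (h v hv).2 u hu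
      rw [h3]
      exact (h.mem_biUnion (hr G h1)).2 ⟨h4.1, rp_congr h4.2 ▸ h2⟩
    · exact h2 ▸ hu

/-- `Nm.group` with `PartOn.family`, or `Nm.single`. -/
theorem grp_nm (h : PartOn Dm nd) (hr : ∀ F, Ch F → ∀ a ∈ F, Dm a)
    (hd : ∀ F F', Ch F → Ch F' → ¬ Disjoint F F' → F = F')
    (hm : ∀ F, Ch F → MinDef N c hv nd (P.card - 1) F)
    (hn : ∀ v, Dm v → Nm k N c hv false P (nd v)) :
    ∀ v, Dm v → Nm k N c hv true P (grp nd Ch v) := by
  intro v hv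
  rcases grp_cases (nd := nd) hd v with ⟨G, h1, -, h3⟩ | ⟨-, h2⟩
  · have h4 : ∀ a ∈ G, Dm a ∧ rp nd a = a := fun a ha => ⟨hr G h1 a ha, (hm G h1).rep a ha⟩
    rw [h3]
    refine Nm.group P _ nd (h.family h4).1 (fun w hw => hn w ((h.mem_biUnion h4).1 hw).1) ?_
    rw [(h.family h4).2]
    exact hm G h1
  · rw [h2]
    exact Nm.single P _ (hn v hv)

/-- Merged nodes have cut below `D`, so the members of `F` are old nodes; a deficient `F` would
contain a minimal deficient family (`exists_minDef`), which meets a chosen one. -/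
theorem grp_nodef {L : ℕ} (h : PartOn Dm nd)
    (hd : ∀ F F', Ch F → Ch F' → ¬ Disjoint F F' → F = F')
    (hm : ∀ F, Ch F → MinDef N c hv nd D F)
    (hx : ∀ F, (∀ a ∈ F, Dm a) → MinDef N c hv nd D F → F.card ≤ L →
      ∃ F', Ch F' ∧ ¬ Disjoint F F')
    (hF : ∀ a ∈ F, Dm a ∧ rp (grp nd Ch) a = a ∧ cutp N c hv (grp nd Ch a) = D)
    (ho : Odd F.card) (hL : F.card ≤ L) : D ≤ cutp N c hv (F.biUnion (grp nd Ch)) := by
  have h1 : ∀ a ∈ F, (¬ ∃ G, Ch G ∧ rp nd a ∈ G) ∧ grp nd Ch a = nd a := fun a ha =>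
    (grp_cases hd a).resolve_left fun ⟨G, g1, _, g3⟩ =>
      (hm G g1).small.ne (g3 ▸ (hF a ha).2.2)
  have h2 : ∀ a ∈ F, rp nd a = a ∧ cutp N c hv (nd a) = D := fun a ha =>
    ⟨(rp_congr (h1 a ha).2).symm.trans (hF a ha).2.1, (h1 a ha).2 ▸ (hF a ha).2.2⟩
  rw [Finset.biUnion_congr rfl fun a ha => (h1 a ha).2]
  by_contra hn
  obtain ⟨G, g1, g2⟩ := exists_minDef h2 ho (not_le.1 hn)
  obtain ⟨G', g3, g4⟩ := hx G (fun a ha => (hF a (g1 ha)).1) g2
    ((Finset.card_le_card g1).trans hL)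
  obtain ⟨a, a1, a2⟩ := Finset.not_disjoint_iff.1 g4
  exact (h1 a (g1 a1)).1 ⟨G', g3, (g2.rep a a1).symm ▸ a2⟩

end Grp

end Pool.Agent.Lib.MP_459a07_lc.V
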