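import Pool.Agent.Lib.MP_459a07_lc.WUpd2

set_option autoImplicit false

namespace Pool.Agent.Lib.MP_459a07_lc.V

open Classical

variable {k n r r' : ℕ} {δ δ' : ℝ} {Pre Mid Post Pre' Post' : (ℕ → Finset ℕ) → RS → Prop}

/-- A deterministic step (`Ξ = Unit`). -/
theorem proc_det (g : (ℕ → Finset ℕ) → RS → RS)
    (h1 : ∀ S N x, GV k S N → Pre N x → Post N (g N x))
    (h2 : ∀ S N x S' N' x' v, GV k S N → GV k S' N' → Pre N x → Pre N' x' → RA N N' x x' v r →
      (g N x).row v = (g N' x').row v) : Proc k n 0 r Pre Post := by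
  refine ⟨Unit, inferInstance, inferInstance, 0, fun _ N x _ => g N x, fun _ _ _ _ => True,
    by simp, fun S N x _ hG hP _ => h1 S N x hG hP, fun id N x _ _ _ => by simp, ?_⟩
  intro S N x W S' N' x' W' v hG hG' hP hP' _ _ h
  exact h2 S N x S' N' x' v hG hG' hP hP' fun u hu => ⟨(h u hu).1, (h u hu).2.2.2.1⟩

theorem proc_mono (h : Proc k n δ r Pre Post) (h1 : δ ≤ δ') (h2 : r ≤ r') :
    Proc k n δ' r' Pre Post := by
  obtain ⟨Ξ, i1, i2, B, F, Gd, hc, hs, hp, hl⟩ := h
  refine ⟨Ξ, i1, i2, B, F, Gd, hc, hs, fun id N x hi hG hP => (hp id N x hi hG hP).trans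
    (mul_le_mul_of_nonneg_right h1 (Nat.cast_nonneg _)), ?_⟩
  intro S N x W S' N' x' W' v hG hG' hP hP' g g' h
  exact hl S N x W S' N' x' W' v hG hG' hP hP' g g' fun u hu => h u (ball_mono h2 hu)

theorem wproc_count {α β : Type} [Fintype α] [Fintype β] (P : α → Prop) (Q : α → β → Prop)
    (h0 : 0 ≤ δ') (h1 : ((Finset.univ.filter fun a => ¬ P a).card : ℝ) ≤ δ * Fintype.card α)
    (h2 : ∀ a, P a → ((Finset.univ.filter fun b => ¬ Q a b).card : ℝ) ≤ δ' * Fintype.card β) :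
    ((Finset.univ.filter fun z : α × β => ¬ (P z.1 ∧ Q z.1 z.2)).card : ℝ) ≤
      (δ + δ') * (Fintype.card α * Fintype.card β) := by
  have e1 : ((Finset.univ.filter fun z : α × β => ¬ (P z.1 ∧ Q z.1 z.2)).card : ℝ) =
      ∑ a : α, ((Finset.univ.filter fun b : β => ¬ (P a ∧ Q a b)).card : ℝ) := by
    simp only [Finset.card_filter, Nat.cast_sum, Fintype.sum_prod_type]
  have e2 : ∀ a : α, ((Finset.univ.filter fun b : β => ¬ (P a ∧ Q a b)).card : ℝ) ≤
      (if ¬ P a then (Fintype.card β : ℝ) else 0) + δ' * Fintype.card β := by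
    intro a
    have hb : (0 : ℝ) ≤ δ' * Fintype.card β := mul_nonneg h0 (Nat.cast_nonneg _)
    by_cases ha : P a
    · rw [if_neg (not_not.2 ha), zero_add]
      refine le_trans (le_of_eq ?_) (h2 a ha)
      simp only [ha, true_and]
    · rw [if_pos ha]
      have : ((Finset.univ.filter fun b : β => ¬ (P a ∧ Q a b)).card : ℝ) ≤ Fintype.card β := by
        exact_mod_cast Finset.card_le_univ _
      linarith
  rw [e1]
  refine (Finset.sum_le_sum fun a _ => e2 a).trans ?_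
  rw [Finset.sum_add_distrib, ← Finset.sum_filter, Finset.sum_const, Finset.sum_const,
    nsmul_eq_mul, nsmul_eq_mul, Finset.card_univ]
  have := mul_le_mul_of_nonneg_right h1 (Nat.cast_nonneg (α := ℝ) (Fintype.card β))
  nlinarith

theorem wproc_fst {ι X Y : Type} [Inhabited X] [Inhabited Y] (id : ι → ℕ) (ω : ι → X × Y) :
    (fun v => (extV id ω v).1) = extV id fun i => (ω i).1 := by
  funext v
  unfold extV
  rw [Function.extend_def, Function.extend_def]
  split_ifs <;> rfl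

theorem wproc_snd {ι X Y : Type} [Inhabited X] [Inhabited Y] (id : ι → ℕ) (ω : ι → X × Y) :
    (fun v => (extV id ω v).2) = extV id fun i => (ω i).2 := by
  funext v
  unfold extV
  rw [Function.extend_def, Function.extend_def]
  split_ifs <;> rfl

/-- Use `Ξ₁ × Ξ₂`.  A bad pair is bad for the first step, or good for the first step and bad for
the second step started from the result; count over `(Fin n → Ξ₁) × (Fin n → Ξ₂)`
(`Equiv.arrowProdEquivProdArrow`); `Prod.fst ∘ extV id ω = extV id (Prod.fst ∘ ω)`. -/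
theorem proc_comp (h : Proc k n δ r Pre Mid) (h' : Proc k n δ' r' Mid Post) (h0 : 0 ≤ δ') :
    Proc k n (δ + δ') (r + r') Pre Post := by
  obtain ⟨Ξ, i1, i2, B, F, Gd, hc, hs, hp, hl⟩ := h
  obtain ⟨Ξ', j1, j2, B', F', Gd', hc', hs', hp', hl'⟩ := h'
  refine ⟨Ξ × Ξ', inferInstance, inferInstance, B + B',
    fun S N x W => F' S N (F S N x fun v => (W v).1) fun v => (W v).2,
    fun S N x W => Gd S N x (fun v => (W v).1) ∧
      Gd' S N (F S N x fun v => (W v).1) fun v => (W v).2, ?_, ?_, ?_, ?_⟩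
  · rw [Fintype.card_prod, hc, hc', pow_add]
  · intro S N x W hG hP g
    exact hs' S N _ _ hG (hs S N x _ hG hP g.1) g.2
  · intro id N x hi hG hP
    have key := wproc_count (fun a : Fin n → Ξ => Gd (Finset.univ.image id) N x (extV id a))
      (fun a (b : Fin n → Ξ') => Gd' (Finset.univ.image id) N
        (F (Finset.univ.image id) N x (extV id a)) (extV id b)) h0 (hp id N x hi hG hP)
      fun a ha => hp' id N _ hi hG (hs _ N x _ hG hP ha)
    have e := Equiv.arrowProdEquivProdArrow (Fin n) (fun _ => Ξ) fun _ => Ξ'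
    rw [Fintype.card_congr e, Fintype.card_prod, Nat.cast_mul]
    refine le_trans (le_of_eq ?_) key
    congr 1
    refine Finset.card_equiv (Equiv.arrowProdEquivProdArrow (Fin n) (fun _ => Ξ) fun _ => Ξ')
      fun ω => ?_
    simp only [Finset.mem_filter, Finset.mem_univ, true_and]
    rw [wproc_fst, wproc_snd]
    rfl
  · intro S N x W S' N' x' W' v hG hG' hP hP' g g' h
    refine hl' S N _ _ S' N' _ _ v hG hG' (hs S N x _ hG hP g.1) (hs S' N' x' _ hG' hP' g'.1)
      g.2 g'.2 fun u hu => ?_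
    have hu' := h u (ball_mono (Nat.le_add_left _ _) hu)
    refine ⟨hu'.1, hu'.2.1, hu'.2.2.1, ?_, by rw [hu'.2.2.2.2]⟩
    refine hl S N x _ S' N' x' _ u hG hG' hP hP' g.1 g'.1 fun y hy => ?_
    have hy' := h y (by rw [Nat.add_comm]; exact ball_trans hu hy)
    exact ⟨hy'.1, hy'.2.1, hy'.2.2.1, hy'.2.2.2.1, by rw [hy'.2.2.2.2]⟩

/-- `F S N x W = ustep k d N x (FM (Qof k S N x) W)`.  Locality: `ustep_local`; for `y` in the ball
of radius `5 Λ + 2` use the locality of the matching process, `qball` and `qof_sa`. -/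
theorem proc_stage {d L σ σ' σ₂ ρ Λ : ℕ} (h : MProc k d L σ' ρ n δ r) (h2 : 2 ≤ d) (hk : d ≤ k)
    (h3 : 2 * σ' ≤ σ) (h4 : σ₂ ≤ σ) (h5 : σ₂ + 2 ≤ ρ) :
    Proc k n δ ((r + 4) * (2 * Λ + 1)) (fun N x => RI k true d σ Λ N x ∧ NoDef N x d L)
      (RI k false (d - 1) σ₂ Λ) := by
  obtain ⟨Ξ, i1, i2, B, F, Gd, hc, hs, hp, hl⟩ := h
  have hV : ∀ S N x, GV k S N → RI k true d σ Λ N x ∧ NoDef N x d L →
      (Qof k S N x).Valid k d L σ' := fun S N x hG hP => qof_valid hG hP.1 hP.2 h2 hk h3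
  have hU : ∀ S N x W, GV k S N → RI k true d σ Λ N x ∧ NoDef N x d L → Gd (Qof k S N x) W →
      UC k d σ Λ ρ S N x (F (Qof k S N x) W) := fun S N x W hG hP g =>
    ⟨hG, hP.1, hs _ W (hV S N x hG hP) g, by omega, hk, by omega⟩
  refine ⟨Ξ, i1, i2, B, fun S N x W => ustep k d N x (F (Qof k S N x) W),
    fun S N x W => Gd (Qof k S N x) W, hc,
    fun S N x W hG hP g => ustep_spec (hU S N x W hG hP g) h4 h5,
    fun id N x hi hG hP => hp id _ hi (hV _ N x hG hP) rfl, ?_⟩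
  intro S N x W S' N' x' W' v hG hG' hP hP' g g' h
  have hRA : RA N N' x x' v ((r + 4) * (2 * Λ + 1)) := fun u hu => ⟨(h u hu).1, (h u hu).2.2.2.1⟩
  have e : (r + 4) * (2 * Λ + 1) = r * (2 * Λ + 1) + (8 * Λ + 4) := by ring
  refine ustep_local (hU S N x W hG hP g) (hRA.mono (e := 0) self_mem_ball (by omega))
    fun y hy => ?_
  refine hl _ W _ W' y (hV S N x hG hP) (hV S' N' x' hG' hP') g g' fun u hu => ?_
  have hu1 : u ∈ ball N y (r * (2 * Λ + 1)) := qball hP.1.part hP.1.diam hu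
  have hu2 := ball_trans hy hu1
  have hu3 := h u (ball_mono (by omega) hu2)
  exact ⟨qof_sa hP.1 hP'.1 (hRA.mono hu2 (by omega)), hu3.2.1, hu3.2.2.1, hu3.2.2.2.2⟩

end Pool.Agent.Lib.MP_459a07_lc.V
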