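import Pool.Agent.Lib.MP_459a07_lc.WQuot
import Pool.Agent.Lib.MP_459a07_lc.WAB

set_option autoImplicit false

namespace Pool.Agent.Lib.MP_459a07_lc.V

open Classical

/-- The standing assumptions of the update. -/
structure UC (k d σ Λ ρ : ℕ) (S : Finset ℕ) (N : ℕ → Finset ℕ) (x : RS) (s : St) : Prop where
  gv : GV k S N
  ri : RI k true d σ Λ N x
  sp : Spec (Qof k S N x) d ρ s
  d1 : 1 ≤ d
  dk : d ≤ k
  ρ2 : 2 ≤ ρ

variable {k d σ Λ ρ : ℕ} {S : Finset ℕ} {N : ℕ → Finset ℕ} {x : RS} {s : St} {a b u v w : ℕ}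

theorem wupd_rp (hp : GPart x.nd) (ha : rp x.nd a = a) (hu : u ∈ x.nd a) : rp x.nd u = a := by
  have h := (hp.on.mem_iff (u := u) (v := a) trivial trivial).1 hu
  rw [h, ha]

theorem wupd_nd (hp : GPart x.nd) (v : ℕ) :
    x.nd (rp x.nd v) = x.nd v ∧ rp x.nd (rp x.nd v) = rp x.nd v :=
  (hp.on.rp_spec (v := v) trivial).2.2

theorem wupd_pe_comm (N : ℕ → Finset ℕ) (x : RS) (a b : ℕ) : pe N x a b = pe N x b a := by
  unfold pe
  rw [min_comm a b, max_comm a b]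

theorem wupd_en_symm (hs : Sym N) (ho : ∀ X, Ok k N X x.c) (h : u ∈ En N x.c v) :
    v ∈ En N x.c u :=
  En_symm hs (ho {u, v}) (by simp) (by simp) h

theorem ep_spec (hs : Sym N) (ho : ∀ X, Ok k N X x.c) (hp : GPart x.nd)
    (h : b ∈ QN N x.c x.nd a) :
    ep N x a b ∈ x.nd a ∧ ep N x b a ∈ x.nd b ∧ ep N x b a ∈ En N x.c (ep N x a b) := by
  obtain ⟨-, hne, u, hu, w, hw, hwb⟩ := mem_QN.1 h
  have hwb' : w ∈ x.nd b := by
    rw [← hwb, (wupd_nd hp w).1]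
    exact (hp w).1
  rcases lt_or_gt_of_ne hne with hlt | hlt
  · have hex : ∃ p : ℕ × ℕ, p.1 ∈ x.nd (min a b) ∧ p.2 ∈ x.nd (max a b) ∧ p.2 ∈ En N x.c p.1 := by
      refine ⟨(w, u), ?_, ?_, ?_⟩
      · rw [min_eq_right hlt.le]; exact hwb'
      · rw [max_eq_left hlt.le]; exact hu
      · exact wupd_en_symm hs ho hw
    have hsp : (pe N x a b).1 ∈ x.nd (min a b) ∧ (pe N x a b).2 ∈ x.nd (max a b) ∧
        (pe N x a b).2 ∈ En N x.c (pe N x a b).1 := epsilon_spec hex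
    rw [min_eq_right hlt.le, max_eq_left hlt.le] at hsp
    have e1 : ep N x a b = (pe N x a b).2 := by
      unfold ep; rw [if_neg (not_lt.2 hlt.le)]
    have e2 : ep N x b a = (pe N x a b).1 := by
      unfold ep; rw [if_pos hlt, wupd_pe_comm]
    rw [e1, e2]
    exact ⟨hsp.2.1, hsp.1, wupd_en_symm hs ho hsp.2.2⟩
  · have hex : ∃ p : ℕ × ℕ, p.1 ∈ x.nd (min a b) ∧ p.2 ∈ x.nd (max a b) ∧ p.2 ∈ En N x.c p.1 := by
      refine ⟨(u, w), ?_, ?_, hw⟩
      · rw [min_eq_left hlt.le]; exact hu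
      · rw [max_eq_right hlt.le]; exact hwb'
    have hsp : (pe N x a b).1 ∈ x.nd (min a b) ∧ (pe N x a b).2 ∈ x.nd (max a b) ∧
        (pe N x a b).2 ∈ En N x.c (pe N x a b).1 := epsilon_spec hex
    rw [min_eq_left hlt.le, max_eq_right hlt.le] at hsp
    have e1 : ep N x a b = (pe N x a b).1 := by
      unfold ep; rw [if_pos hlt]
    have e2 : ep N x b a = (pe N x a b).2 := by
      unfold ep; rw [if_neg (not_lt.2 hlt.le), wupd_pe_comm]
    rw [e1, e2]
    exact hsp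

/-- A marked exposed node has degree `d ≥ 1`, so it has a least neighbour. -/
theorem rs_mem (hU : UC k d σ Λ ρ S N x s) (h : Rs N x s a b) : b ∈ QN N x.c x.nd a := by
  have h1 : dg (QN N x.c x.nd) (Qm N x.c x.nd) a = d := hU.sp.mkdeg a h.1
  have h2 : (QN N x.c x.nd a).Nonempty := by
    rw [Finset.nonempty_iff_ne_empty]
    intro he
    unfold dg at h1
    rw [he, Finset.sum_empty] at h1
    have := hU.d1
    omega
  rw [h.2.2]
  have h3 : ((QN N x.c x.nd a : Finset ℕ) : Set ℕ).Nonempty := Finset.coe_nonempty.2 h2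
  exact Finset.mem_coe.1 (Nat.sInf_mem h3)

/-- The entries of `c1`. -/
theorem c1_cases (hU : UC k d σ Λ ρ S N x s) (u v : ℕ) :
    c1 k d N x s u v = x.c u v ∨ ∃ a b, b ∈ QN N x.c x.nd a ∧ u = ep N x a b ∧ v = ep N x b a ∧
      ((s.μ a = b ∧ c1 k d N x s u v = d) ∨
        (s.μ a ≠ b ∧ (Rs N x s a b ∨ Rs N x s b a) ∧ c1 k d N x s u v = k + 2)) := by
  have hp := hU.ri.part
  by_cases h0 : v ∈ En N x.c u ∧ rp x.nd u ≠ rp x.nd v ∧ u = ep N x (rp x.nd u) (rp x.nd v) ∧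
      v = ep N x (rp x.nd v) (rp x.nd u)
  · have hq : rp x.nd v ∈ QN N x.c x.nd (rp x.nd u) := by
      refine mem_QN.2 ⟨(wupd_nd hp u).2, h0.2.1.symm, u, ?_, v, h0.1, rfl⟩
      rw [(wupd_nd hp u).1]
      exact (hp u).1
    by_cases h1 : s.μ (rp x.nd u) = rp x.nd v
    · refine Or.inr ⟨_, _, hq, h0.2.2.1, h0.2.2.2, Or.inl ⟨h1, ?_⟩⟩
      unfold c1
      rw [if_pos h0, if_pos h1]
    · by_cases h2 : Rs N x s (rp x.nd u) (rp x.nd v) ∨ Rs N x s (rp x.nd v) (rp x.nd u)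
      · refine Or.inr ⟨_, _, hq, h0.2.2.1, h0.2.2.2, Or.inr ⟨h1, h2, ?_⟩⟩
        unfold c1
        rw [if_pos h0, if_neg h1, if_pos h2]
      · left
        unfold c1
        rw [if_pos h0, if_neg h1, if_neg h2]
  · left
    unfold c1
    rw [if_neg h0]

theorem wupd_ep (hU : UC k d σ Λ ρ S N x s) (h : b ∈ QN N x.c x.nd a) :
    ep N x a b ∈ x.nd a ∧ ep N x b a ∈ En N x.c (ep N x a b) ∧ rp x.nd (ep N x a b) = a ∧
      rp x.nd (ep N x b a) = b ∧ b ≠ a ∧ ep N x b a ∉ x.nd a := by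
  have hp := hU.ri.part
  obtain ⟨h1, h2, h3⟩ := ep_spec hU.gv.sym hU.ri.ok hp h
  have ha := (mem_QN.1 h).1
  have hne := (mem_QN.1 h).2.1
  have hb := wupd_rp hp (QN_rep hp h) h2
  refine ⟨h1, h3, wupd_rp hp ha h1, hb, hne, fun hh => hne ?_⟩
  rw [← hb]
  exact wupd_rp hp ha hh

theorem wupd_inv (hU : UC k d σ Λ ρ S N x s) (a : ℕ) : s.μ (s.μ a) = a := hU.sp.mat.1 a

theorem wupd_mat (hU : UC k d σ Λ ρ S N x s) (h : s.μ a ≠ a) : s.μ a ∈ QN N x.c x.nd a :=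
  hU.sp.mat.2 a h

theorem wupd_sym (hU : UC k d σ Λ ρ S N x s) : Sym (QN N x.c x.nd) :=
  QN_sym hU.gv.sym hU.ri.ok hU.ri.part

theorem wupd_rs_ne (hU : UC k d σ Λ ρ S N x s) (hne : b ≠ a)
    (h : Rs N x s a b ∨ Rs N x s b a) : s.μ a ≠ b := by
  intro hm
  rcases h with h | h
  · exact hne (hm.symm.trans h.2.1)
  · have h1 := wupd_inv hU a
    rw [hm, h.2.1] at h1
    exact hne h1

theorem c1_ep (hU : UC k d σ Λ ρ S N x s) (h : b ∈ QN N x.c x.nd a) :
    (s.μ a = b → c1 k d N x s (ep N x a b) (ep N x b a) = d) ∧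
      (Rs N x s a b ∨ Rs N x s b a → c1 k d N x s (ep N x a b) (ep N x b a) = k + 2) := by
  obtain ⟨-, h2, h3, h4, hne, -⟩ := wupd_ep hU h
  have h0 : ep N x b a ∈ En N x.c (ep N x a b) ∧
      rp x.nd (ep N x a b) ≠ rp x.nd (ep N x b a) ∧
      ep N x a b = ep N x (rp x.nd (ep N x a b)) (rp x.nd (ep N x b a)) ∧
      ep N x b a = ep N x (rp x.nd (ep N x b a)) (rp x.nd (ep N x a b)) := by
    rw [h3, h4]
    exact ⟨h2, hne.symm, rfl, rfl⟩
  constructor
  · intro hm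
    unfold c1
    rw [if_pos h0, h3, h4, if_pos hm]
  · intro hr
    unfold c1
    rw [if_pos h0, h3, h4, if_neg (wupd_rs_ne hU hne hr), if_pos hr]

theorem wupd_sep (hU : UC k d σ Λ ρ S N x s) (hm : s.mk' a) {z : ℕ}
    (hz : z ∈ ball (QN N x.c x.nd) a 2) :
    ¬ (rp x.nd z = z ∧ ∃ v ∈ x.nd z, ∃ u, x.c v u = k + 2) ∧ (s.mk' z → z = a) :=
  hU.sp.sep a hm z (ball_mono hU.ρ2 hz)

theorem wupd_noin (hU : UC k d σ Λ ρ S N x s) (hm : s.mk' a) (h : Rs N x s b a) : False := by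
  have h1 := rs_mem hU h
  have h2 : a ∈ ball (QN N x.c x.nd) b 2 := ball_mono (by norm_num) (mem_ball_one h1)
  exact (mem_QN.1 h1).2.1 ((wupd_sep hU h.1 h2).2 hm)

/-- A node takes part in at most one new reserved edge and then contains no end of an old one
(marks are far from each other and from `tn` nodes). -/
theorem rs_uniq (hU : UC k d σ Λ ρ S N x s) {b' : ℕ} (h : Rs N x s a b ∨ Rs N x s b a)
    (h' : Rs N x s a b' ∨ Rs N x s b' a) :
    b = b' ∧ ¬ (Rs N x s a b ∧ Rs N x s b a) ∧ ∀ u ∈ x.nd a, (∀ v, x.c u v ≠ k + 2) ∧ ¬ x.hv u := by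
  refine ⟨?_, fun hh => wupd_noin hU hh.1.1 hh.2, ?_⟩
  · rcases h with h | h <;> rcases h' with h' | h'
    · exact h.2.2.trans h'.2.2.symm
    · exact (wupd_noin hU h.1 h').elim
    · exact (wupd_noin hU h'.1 h).elim
    · have h1 : b' ∈ ball (QN N x.c x.nd) b 2 :=
        ball_step (mem_ball_one (rs_mem hU h)) (wupd_sym hU _ _ (rs_mem hU h'))
      exact ((wupd_sep hU h.1 h1).2 h'.1).symm
  · have key : ¬ (rp x.nd a = a ∧ ∃ v ∈ x.nd a, ∃ u, x.c v u = k + 2) ∧ rp x.nd a = a := by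
      rcases h with h | h
      · exact ⟨(wupd_sep hU h.1 self_mem_ball).1, (mem_QN.1 (rs_mem hU h)).1⟩
      · exact ⟨(wupd_sep hU h.1 (ball_mono (by norm_num) (mem_ball_one (rs_mem hU h)))).1,
          QN_rep hU.ri.part (rs_mem hU h)⟩
    intro u hu
    have h1 : ∀ v, x.c u v ≠ k + 2 := fun v hv => key.1 ⟨key.2, u, hu, v, hv⟩
    refine ⟨h1, fun hh => ?_⟩
    obtain ⟨y, hy, -⟩ := hU.ri.hv1 u hh
    exact h1 y hy

theorem wupd_dpal (hU : UC k d σ Λ ρ S N x s) : d ∈ Pal k d := by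
  unfold Pal
  exact Finset.mem_insert_of_mem (Finset.mem_Icc.2 ⟨hU.d1, le_rfl⟩)

theorem wupd_ned (hU : UC k d σ Λ ρ S N x s) (u v : ℕ) : x.c u v ≠ d := by
  intro h
  have h1 := (nm_pal (hU.ri.nm u)).2.1 u (hU.ri.part u).1 v
  rw [h] at h1
  exact h1 (wupd_dpal hU)

theorem wupd_symm (hU : UC k d σ Λ ρ S N x s) (u v : ℕ) :
    c1 k d N x s u v = c1 k d N x s v u := by
  have hc : x.c u v = x.c v u := (hU.ri.ok {u, v}).symm u (by simp) v (by simp)
  rcases c1_cases hU u v with h | ⟨a, b, hq, rfl, rfl, h⟩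
  · rcases c1_cases hU v u with h' | ⟨a, b, hq, rfl, rfl, h'⟩
    · rw [h, h', hc]
    · have hq' := wupd_sym hU _ _ hq
      rcases h' with ⟨h1, h2⟩ | ⟨-, h1, h2⟩
      · rw [h2]
        refine (c1_ep hU hq').1 ?_
        rw [← h1, wupd_inv hU]
      · rw [h2]
        exact (c1_ep hU hq').2 h1.symm
  · have hq' := wupd_sym hU _ _ hq
    rcases h with ⟨h1, h2⟩ | ⟨-, h1, h2⟩
    · rw [h2]
      refine ((c1_ep hU hq').1 ?_).symm
      rw [← h1, wupd_inv hU]
    · rw [h2]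
      exact ((c1_ep hU hq').2 h1.symm).symm

/-- The colour `d` is unused so far (`nm_pal`). -/
theorem c1_ok (hU : UC k d σ Λ ρ S N x s) (X : Finset ℕ) : Ok k N X (c1 k d N x s) := by
  have ho := hU.ri.ok X
  have hd := hU.dk
  refine ⟨fun u _ v _ => wupd_symm hU u v, ?_, ?_, ?_⟩
  · intro u hu v hv
    rcases c1_cases hU u v with h | ⟨a, b, hq, rfl, rfl, -⟩
    · exact ho.edge u hu v (by rwa [h] at hv)
    · exact (mem_En.1 (wupd_ep hU hq).2.1).1
  · intro u hu v w hv hvw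
    rcases c1_cases hU u v with h | ⟨a, b, hq, hua, hvb, h⟩
    · rcases c1_cases hU u w with h' | ⟨a', b', hq', hua', -, h'⟩
      · exact ho.inj u hu v w (by rwa [h] at hv) (by rw [← h, ← h', hvw])
      · exfalso
        rcases h' with ⟨-, h2⟩ | ⟨-, h1, h2⟩
        · exact wupd_ned hU u v (by rw [← h, hvw, h2])
        · refine ((rs_uniq hU h1 h1).2.2 u ?_).1 v (by rw [← h, hvw, h2])
          rw [hua']
          exact (wupd_ep hU hq').1
    · rcases c1_cases hU u w with h' | ⟨a', b', hq', hua', hwb', h'⟩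
      · exfalso
        rcases h with ⟨-, h2⟩ | ⟨-, h1, h2⟩
        · exact wupd_ned hU u w (by rw [← h', ← hvw, h2])
        · refine ((rs_uniq hU h1 h1).2.2 u ?_).1 w (by rw [← h', ← hvw, h2])
          rw [hua]
          exact (wupd_ep hU hq).1
      · have haa : a' = a := by
          rw [← (wupd_ep hU hq').2.2.1, ← hua', hua, (wupd_ep hU hq).2.2.1]
        subst haa
        have hbb : b = b' := by
          rcases h with ⟨h1, h2⟩ | ⟨-, h1, h2⟩ <;> rcases h' with ⟨h3, h4⟩ | ⟨-, h3, h4⟩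
          · exact h1.symm.trans h3
          · omega
          · omega
          · exact (rs_uniq hU h1 h3).1
        rw [hvb, hwb', hbb]
  · intro u hu v
    rcases c1_cases hU u v with h | ⟨a, b, -, -, -, ⟨-, h⟩ | ⟨-, -, h⟩⟩
    · rw [h]
      exact ho.le u hu v
    · omega
    · omega

/-- The colouring after the incoming edge, if any, has been reserved. -/
theorem wupd_c0 (hU : UC k d σ Λ ρ S N x s) (ha : rp x.nd a = a) :
    ∃ c0 : Col, Nm k N c0 (hv1 N x s) true (Pal k d) (x.nd a) ∧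
      cutp N c0 (hv1 N x s) (x.nd a) = cutp N x.c x.hv (x.nd a) ∧ Ok k N (x.nd a) c0 ∧
      ∀ u ∈ x.nd a, ∀ w,
        (c0 u w = x.c u w ∧ ¬ ∃ b, Rs N x s b a ∧ u = ep N x a b ∧ w = ep N x b a) ∨
        ∃ b, Rs N x s b a ∧ u = ep N x a b ∧ w = ep N x b a ∧ c0 u w = k + 2 := by
  have hp := hU.ri.part
  by_cases hin : ∃ b, Rs N x s b a
  · obtain ⟨b, hb⟩ := hin
    have hq : b ∈ QN N x.c x.nd a := wupd_sym hU _ _ (rs_mem hU hb)
    obtain ⟨h1, h2, -, -, -, h6⟩ := wupd_ep hU hq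
    have hu := (rs_uniq hU (Or.inr hb) (Or.inr hb)).2.2 _ h1
    have he : OneEdge N (x.nd a) x.c
        (fun u w => if u = ep N x a b ∧ w = ep N x b a then k + 2 else x.c u w)
        (ep N x a b) (ep N x b a) (k + 2) := ⟨h1, h6, h2, fun _ _ _ => rfl⟩
    have hh : ∀ u ∈ x.nd a, hv1 N x s u ↔ x.hv u ∨ u = ep N x a b := by
      intro u hu'
      unfold hv1
      rw [wupd_rp hp ha hu']
      refine or_congr Iff.rfl ⟨?_, fun h => ⟨b, hq, hb, h⟩⟩
      rintro ⟨a', -, h3, h4⟩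
      rw [(rs_uniq hU (Or.inr hb) (Or.inr h3)).1]
      exact h4
    obtain ⟨h7, h8⟩ := nm_conv (hU.ri.nm a) he hu.2 hh
    refine ⟨_, h7, h8, oneEdge_ok (hU.ri.ok _) he le_rfl hu.1, fun u _ w => ?_⟩
    by_cases h : u = ep N x a b ∧ w = ep N x b a
    · exact Or.inr ⟨b, hb, h.1, h.2, if_pos h⟩
    · refine Or.inl ⟨if_neg h, ?_⟩
      rintro ⟨b', h3, h4⟩
      rw [← (rs_uniq hU (Or.inr hb) (Or.inr h3)).1] at h4
      exact h h4
  · have hh : ∀ u ∈ x.nd a, N u = N u ∧ x.c u = x.c u ∧ (x.hv u ↔ hv1 N x s u) := by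
      intro u hu'
      refine ⟨rfl, rfl, Or.inl, ?_⟩
      unfold hv1
      rw [wupd_rp hp ha hu']
      rintro (h | ⟨a', -, h3, -⟩)
      · exact h
      · exact (hin ⟨a', h3⟩).elim
    refine ⟨x.c, nm_congr (hU.ri.nm a) hh, (cutp_congr hh).symm, hU.ri.ok _, fun u _ w => ?_⟩
    exact Or.inl ⟨rfl, fun ⟨b, hb, _⟩ => hin ⟨b, hb⟩⟩

/-- The rows of a node in `c1` differ from those in `c0` only at a matched or outgoing edge. -/
theorem wupd_rows (hU : UC k d σ Λ ρ S N x s) (ha : rp x.nd a = a) {c0 : Col}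
    (h0 : ∀ u ∈ x.nd a, ∀ w,
        (c0 u w = x.c u w ∧ ¬ ∃ b, Rs N x s b a ∧ u = ep N x a b ∧ w = ep N x b a) ∨
        ∃ b, Rs N x s b a ∧ u = ep N x a b ∧ w = ep N x b a ∧ c0 u w = k + 2)
    (hu : u ∈ x.nd a) (w : ℕ) :
    c1 k d N x s u w = c0 u w ∨ ∃ b, b ≠ a ∧ u = ep N x a b ∧ w = ep N x b a ∧
      (s.μ a = b ∨ Rs N x s a b) := by
  rcases h0 u hu w with ⟨h1, h2⟩ | ⟨b, hb, rfl, rfl, h1⟩
  · rcases c1_cases hU u w with h | ⟨a', b', hq, hua, hwb, h⟩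
    · exact Or.inl (h.trans h1.symm)
    · have haa : a' = a := by
        rw [← (wupd_ep hU hq).2.2.1, ← hua]
        exact wupd_rp hU.ri.part ha hu
      subst haa
      have hne := (mem_QN.1 hq).2.1
      rcases h with ⟨h3, -⟩ | ⟨-, h3 | h3, -⟩
      · exact Or.inr ⟨b', hne, hua, hwb, Or.inl h3⟩
      · exact Or.inr ⟨b', hne, hua, hwb, Or.inr h3⟩
      · exact (h2 ⟨b', h3, hua, hwb⟩).elim
  · left
    rw [h1]
    exact (c1_ep hU (wupd_sym hU _ _ (rs_mem hU hb))).2 (Or.inr hb)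

/-- Let `a = rp v`, `X = nd a`.  First reserve the incoming edge, if some `Rs b a` holds
(`nm_conv`; otherwise `nm_congr`); call the colouring `c0`.  If `μ a ≠ a`, use `StA` with colour
`d`.  If `μ a = a` and `a` is not marked, the cut is below `d` (`dg_eq`, `Spec.cov`, `nm_pal`):
`Nm.defer`.  If `a` is marked and exposed, nothing comes in; use `stR'`. -/
theorem upd_res (hU : UC k d σ Λ ρ S N x s) (v : ℕ) :
    Res k N (hv1 N x s) (Pal k (d - 1)) (x.nd v) (c1 k d N x s) := by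
  have hp := hU.ri.part
  obtain ⟨hnd, ha⟩ := wupd_nd hp v
  rw [← hnd]
  generalize rp x.nd v = a at ha
  obtain ⟨c0, hn, hc, ho, h0⟩ := wupd_c0 hU ha
  obtain ⟨p1, p2, p3⟩ := pal_erase (k := k) hU.d1 hU.dk
  by_cases hm : s.μ a = a
  · by_cases hk : s.mk' a
    · have hr : Rs N x s a (sInf ((QN N x.c x.nd a : Finset ℕ) : Set ℕ)) := ⟨hk, hm, rfl⟩
      generalize sInf ((QN N x.c x.nd a : Finset ℕ) : Set ℕ) = b at hr
      have hq := rs_mem hU hr
      obtain ⟨h1, h2, -, -, -, h6⟩ := wupd_ep hU hq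
      have he : OneEdge N (x.nd a) c0 (c1 k d N x s) (ep N x a b) (ep N x b a) (k + 2) := by
        refine ⟨h1, h6, ?_, fun u hu w => ?_⟩
        · rcases h0 _ h1 (ep N x b a) with ⟨h3, -⟩ | ⟨b', h3, -⟩
          · exact mem_En.2 ⟨(mem_En.1 h2).1, h3.trans (mem_En.1 h2).2⟩
          · exact (wupd_noin hU hk h3).elim
        · by_cases h : u = ep N x a b ∧ w = ep N x b a
          · rw [if_pos h, h.1, h.2]
            exact (c1_ep hU hq).2 (Or.inl hr)
          · rw [if_neg h]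
            rcases wupd_rows hU ha h0 hu w with h3 | ⟨b', h3, h4, h5, h7 | h7⟩
            · exact h3
            · exact (h3 (h7.symm.trans hm)).elim
            · rw [← (rs_uniq hU (Or.inl hr) (Or.inl h7)).1] at h4 h5
              exact (h ⟨h4, h5⟩).elim
      exact stR' hU.gv.sym (c1_ok hU _) p2 (by rw [p3]; exact hn) he
    · have hh : ∀ u ∈ x.nd a, N u = N u ∧ c0 u = c1 k d N x s u ∧
          (hv1 N x s u ↔ hv1 N x s u) := by
        intro u hu
        refine ⟨rfl, funext fun w => ?_, Iff.rfl⟩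
        rcases wupd_rows hU ha h0 hu w with h3 | ⟨b', h3, -, -, h7 | h7⟩
        · exact h3.symm
        · exact (h3 (h7.symm.trans hm)).elim
        · exact (hk h7.1).elim
      have h1 := (nm_pal (hU.ri.nm a)).2.2.1
      rw [pal_card hU.dk] at h1
      have h2 : cutp N x.c x.hv (x.nd a) ≠ d := by
        intro h
        exact hk (hU.sp.cov a ((dg_eq hU.gv hU.ri ha).trans h) hm)
      refine res_of_nm (c1_ok hU _) (Nm.defer _ _ d p2 (by rw [p3]; exact nm_congr hn hh) ?_)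
      have hd1 := hU.d1
      have hdk := hU.dk
      rw [← cutp_congr hh, hc, pal_card (by omega)]
      omega
  · have hq := wupd_mat hU hm
    obtain ⟨b, hb⟩ : ∃ b, s.μ a = b := ⟨_, rfl⟩
    rw [hb] at hq
    obtain ⟨h1, h2, -, h4, hne, h6⟩ := wupd_ep hU hq
    have he : OneEdge N (x.nd a) c0 (c1 k d N x s) (ep N x a b) (ep N x b a) d := by
      refine ⟨h1, h6, ?_, fun u hu w => ?_⟩
      · rcases h0 _ h1 (ep N x b a) with ⟨h3, -⟩ | ⟨b', h3, -, h5, -⟩
        · exact mem_En.2 ⟨(mem_En.1 h2).1, h3.trans (mem_En.1 h2).2⟩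
        · have hq' : b' ∈ QN N x.c x.nd a := wupd_sym hU _ _ (rs_mem hU h3)
          have hbb : b = b' := by
            rw [← h4, h5, (wupd_ep hU hq').2.2.2.1]
          rw [← hbb] at h3
          exact (wupd_rs_ne hU hne (Or.inr h3) hb).elim
      · by_cases h : u = ep N x a b ∧ w = ep N x b a
        · rw [if_pos h, h.1, h.2]
          exact (c1_ep hU hq).1 hb
        · rw [if_neg h]
          rcases wupd_rows hU ha h0 hu w with h3 | ⟨b', h3, h4, h5, h7 | h7⟩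
          · exact h3
          · rw [← h7, hb] at h4 h5
            exact (h ⟨h4, h5⟩).elim
          · exact (hm h7.2.1).elim
    rw [← p1]
    exact (stAB hU.gv.sym _).1 c0 _ true _ _ _ d ho hn (wupd_dpal hU) he

end Pool.Agent.Lib.MP_459a07_lc.V
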