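import Pool.Agent.Lib.MP_459a07_lc.WUpd

set_option autoImplicit false

namespace Pool.Agent.Lib.MP_459a07_lc.V

open Classical

variable {k d σ Λ ρ : ℕ} {S S' : Finset ℕ} {N N' : ℕ → Finset ℕ} {x x' : RS} {s s' : St}
  {a b u v w : ℕ}

theorem ch_spec (hU : UC k d σ Λ ρ S N x s) (v : ℕ) :
    ResP k N (hv1 N x s) (Pal k (d - 1)) (x.nd v) (c1 k d N x s) (ch k d N x s (x.nd v)) :=
  epsilon_spec (upd_res hU v)

theorem wupd2_rp_mem {nd : ℕ → Finset ℕ} (hp : GPart nd) (v : ℕ) : rp nd v ∈ nd v :=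
  (hp.on.rp_spec (v := v) trivial).1

theorem wupd2_nd_rp {nd : ℕ → Finset ℕ} (hp : GPart nd) (v : ℕ) : nd (rp nd v) = nd v :=
  (hp.on.rp_spec (v := v) trivial).2.2.1

theorem wupd2_rp_rp {nd : ℕ → Finset ℕ} (hp : GPart nd) (v : ℕ) : rp nd (rp nd v) = rp nd v :=
  (hp.on.rp_spec (v := v) trivial).2.2.2

theorem wupd2_rp_eq {nd : ℕ → Finset ℕ} (hp : GPart nd) (h : u ∈ nd v) : rp nd u = rp nd v :=
  rp_congr ((hp v).2 u h)

theorem wupd2_c (hp : GPart x.nd) (h : u ∈ x.nd v) :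
    (ustep k d N x s).c u = (ch k d N x s (x.nd v)).1 u := by
  show (ch k d N x s (x.nd u)).1 u = _
  rw [(hp v).2 u h]

theorem wupd2_nd (hp : GPart x.nd) (h : u ∈ x.nd v) :
    (ustep k d N x s).nd u = (ch k d N x s (x.nd v)).2 u := by
  show (ch k d N x s (x.nd u)).2 u = _
  rw [(hp v).2 u h]

theorem wupd2_sub (hU : UC k d σ Λ ρ S N x s) (u : ℕ) : (ustep k d N x s).nd u ⊆ x.nd u :=
  ((ch_spec hU u).2.1 u (hU.ri.part u).1).2.1

theorem wupd2_part (hU : UC k d σ Λ ρ S N x s) : GPart (ustep k d N x s).nd := by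
  intro v
  have hv := (ch_spec hU v).2.1 v (hU.ri.part v).1
  refine ⟨hv.1, fun u hu => ?_⟩
  rw [wupd2_nd hU.ri.part (wupd2_sub hU v hu)]
  exact hv.2.2 u hu

theorem wupd2_keep (hU : UC k d σ Λ ρ S N x s) (h : v ∉ x.nd u ∨ c1 k d N x s u v ≠ 0) :
    (ustep k d N x s).c u v = c1 k d N x s u v :=
  (ch_spec hU u).1.keep u (hU.ri.part u).1 v h

theorem wupd2_zero (hU : UC k d σ Λ ρ S N x s) (h : (ustep k d N x s).c u v = 0) :
    x.c u v = 0 := by
  have h1 : c1 k d N x s u v = 0 := by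
    by_contra h0
    exact h0 (by rw [← wupd2_keep hU (Or.inr h0)]; exact h)
  have hd := hU.d1
  rcases c1_cases hU u v with h2 | ⟨a, b, -, -, -, ⟨-, h2⟩ | ⟨-, -, h2⟩⟩
  · rw [← h2]; exact h1
  · omega
  · omega

theorem wupd2_rp_new (hU : UC k d σ Λ ρ S N x s) (u : ℕ) :
    rp x.nd (rp (ustep k d N x s).nd u) = rp x.nd u :=
  wupd2_rp_eq hU.ri.part (wupd2_sub hU u (wupd2_rp_mem (wupd2_part hU) u))

/-- The new quotient maps to the old one: nodes only split and uncoloured edges only disappear. -/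
theorem ustep_ball (hU : UC k d σ Λ ρ S N x s) {r : ℕ}
    (h : a ∈ ball (QN N (ustep k d N x s).c (ustep k d N x s).nd) (rp (ustep k d N x s).nd u) r) :
    rp x.nd a ∈ ball (QN N x.c x.nd) (rp x.nd u) r := by
  induction r generalizing a with
  | zero =>
    have e : a = rp (ustep k d N x s).nd u := by simpa [ball] using h
    rw [e, wupd2_rp_new hU]
    exact self_mem_ball
  | succ r ih =>
    rcases mem_ball_succ.1 h with h | ⟨b, hb, h⟩
    · exact mem_ball_succ.2 (Or.inl (ih h))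
    · obtain ⟨-, -, u', hu', w, hw, e⟩ := mem_QN.1 h
      have h1 : rp x.nd a = rp x.nd w := by rw [← e, wupd2_rp_new hU]
      have h2 : w ∈ En N x.c u' := mem_En.2 ⟨(mem_En.1 hw).1, wupd2_zero hU (mem_En.1 hw).2⟩
      have h3 : u' ∈ x.nd (rp x.nd b) := by
        rw [wupd2_nd_rp hU.ri.part]
        exact wupd2_sub hU b hu'
      by_cases h4 : rp x.nd a = rp x.nd b
      · rw [h4]
        exact mem_ball_succ.2 (Or.inl (ih hb))
      · exact mem_ball_succ.2 (Or.inr ⟨_, ih hb,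
          mem_QN.2 ⟨wupd2_rp_rp hU.ri.part b, h4, u', h3, w, h2, h1.symm⟩⟩)

theorem ustep_mk (hU : UC k d σ Λ ρ S N x s) :
    (ustep k d N x s).c u v = k + 2 ↔ c1 k d N x s u v = k + 2 := by
  constructor
  · exact (ch_spec hU u).1.nomk u (hU.ri.part u).1 v
  · intro h
    rw [wupd2_keep hU (Or.inr (by omega)), h]

theorem wupd2_old (h : x.c u v ≠ 0) : c1 k d N x s u v = x.c u v := by
  unfold c1
  rw [if_neg]
  intro h1
  exact h (mem_En.1 h1.1).2

/-- A reserved edge after the update is an old one or a new one. -/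
theorem wupd2_cases (hU : UC k d σ Λ ρ S N x s) (h : (ustep k d N x s).c u v = k + 2) :
    x.c u v = k + 2 ∨ ∃ a b, b ∈ QN N x.c x.nd a ∧ u = ep N x a b ∧ v = ep N x b a ∧
      (Rs N x s a b ∨ Rs N x s b a) := by
  have h1 := (ustep_mk hU).1 h
  have hd := hU.dk
  rcases c1_cases hU u v with h2 | ⟨a, b, hab, e1, e2, ⟨-, h2⟩ | ⟨-, h2, -⟩⟩
  · exact Or.inl (by rw [← h2]; exact h1)
  · omega
  · exact Or.inr ⟨a, b, hab, e1, e2, h2⟩

theorem wupd2_qsym (hU : UC k d σ Λ ρ S N x s) : Sym (QN N x.c x.nd) :=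
  QN_sym hU.gv.sym hU.ri.ok hU.ri.part

theorem wupd2_rp_ep (hU : UC k d σ Λ ρ S N x s) (h : b ∈ QN N x.c x.nd a) :
    rp x.nd (ep N x a b) = a ∧ rp x.nd (ep N x b a) = b := by
  obtain ⟨h1, h2, -⟩ := ep_spec hU.gv.sym hU.ri.ok hU.ri.part h
  exact ⟨(wupd2_rp_eq hU.ri.part h1).trans (mem_QN.1 h).1,
    (wupd2_rp_eq hU.ri.part h2).trans (QN_rep hU.ri.part h)⟩

/-- One of the two nodes of a new reserved edge is marked. -/
theorem wupd2_mark (hU : UC k d σ Λ ρ S N x s) (h : b ∈ QN N x.c x.nd a)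
    (hr : Rs N x s a b ∨ Rs N x s b a) :
    ∃ m, s.mk' m ∧ a ∈ ball (QN N x.c x.nd) m 1 := by
  rcases hr with hr | hr
  · exact ⟨a, hr.1, self_mem_ball⟩
  · exact ⟨b, hr.1, mem_ball_one (wupd2_qsym hU _ _ h)⟩

theorem wupd2_tn (hU : UC k d σ Λ ρ S N x s) (h : x.c u v = k + 2) :
    (Qof k S N x).tn (rp x.nd u) :=
  ⟨wupd2_rp_rp hU.ri.part u, u, by rw [wupd2_nd_rp hU.ri.part]; exact (hU.ri.part u).1, v, h⟩

theorem wupd2_ok (hU : UC k d σ Λ ρ S N x s) (X : Finset ℕ) :
    Ok k N X (ustep k d N x s).c := by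
  refine ⟨fun u _ v _ => ?_, fun u _ => (ch_spec hU u).1.ok.edge u (hU.ri.part u).1,
    fun u _ => (ch_spec hU u).1.ok.inj u (hU.ri.part u).1,
    fun u _ => (ch_spec hU u).1.ok.le u (hU.ri.part u).1⟩
  by_cases h : v ∈ x.nd u
  · rw [wupd2_c hU.ri.part h, wupd2_c hU.ri.part (hU.ri.part u).1]
    exact (ch_spec hU u).1.ok.symm u (hU.ri.part u).1 v h
  · have h' : u ∉ x.nd v := by
      intro h'
      exact h (by rw [(hU.ri.part v).2 u h']; exact (hU.ri.part v).1)
    rw [wupd2_keep hU (Or.inl h), wupd2_keep hU (Or.inl h')]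
    exact (c1_ok hU {u, v}).symm u (by simp) v (by simp)

/-- `sep`: two old reserved edges: the old `sep`; an old and a new one: a `tn` node within
`σ₂ + 1` of a mark; two new ones: marks within `σ₂ + 2`, so the same mark and the same edge. -/
theorem ustep_spec {σ₂ : ℕ} (hU : UC k d σ Λ ρ S N x s) (h1 : σ₂ ≤ σ) (h2 : σ₂ + 2 ≤ ρ) :
    RI k false (d - 1) σ₂ Λ N (ustep k d N x s) := by
  have hp := hU.ri.part
  have hq := wupd2_qsym hU
  refine ⟨wupd2_ok hU, wupd2_part hU, fun v => ?_,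
    fun v => (wupd2_sub hU v).trans (hU.ri.diam v), fun w hw => ?_, fun y w hy => ?_,
    fun y w y' w' hy hy' hb => ?_⟩
  · refine nm_congr ((ch_spec hU v).2.2 v (hp v).1) fun u hu => ⟨rfl, ?_, Iff.rfl⟩
    exact (wupd2_c hp (wupd2_sub hU v hu)).symm
  · rcases hw with hw | ⟨a, ha, hr, e⟩
    · obtain ⟨y, hy, hy'⟩ := hU.ri.hv1 w hw
      refine ⟨y, (ustep_mk hU).2 (by rw [wupd2_old (by omega), hy]), ?_⟩
      rintro (h | ⟨a, -, hr, -⟩)
      · exact hy' h
      · have h3 := (rs_uniq hU (Or.inr hr) (Or.inr hr)).2.2 y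
          (by rw [wupd2_nd_rp hp]; exact (hp y).1)
        exact h3.1 w (by rw [← hy]; exact (hU.ri.ok {y, w}).symm y (by simp) w (by simp))
    · refine ⟨ep N x a (rp x.nd w), (ustep_mk hU).2 ?_, ?_⟩
      · have h3 := (c1_ep hU ha).2 (Or.inr hr)
        rw [← e] at h3
        exact h3
      · have h3 := (wupd2_rp_ep hU ha).2
        have h4 := (ep_spec hU.gv.sym hU.ri.ok hp ha).2.1
        rintro (h | ⟨a', -, hr', -⟩)
        · exact ((rs_uniq hU (Or.inl hr) (Or.inl hr)).2.2 _ h4).2 h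
        · rw [h3] at hr'
          obtain ⟨h5, h6, -⟩ := rs_uniq hU (Or.inl hr) (Or.inr hr')
          exact h6 ⟨hr, by rw [h5]; exact hr'⟩
  · rcases wupd2_cases hU hy with h | ⟨a, b, hab, e1, e2, hr | hr⟩
    · rcases hU.ri.hv2 y w h with h | h
      · exact Or.inl (Or.inl h)
      · exact Or.inr (Or.inl h)
    · have h3 : rp x.nd w = b := by rw [e2]; exact (wupd2_rp_ep hU hab).2
      refine Or.inr (Or.inr ⟨a, ?_⟩)
      rw [h3]
      exact ⟨hq _ _ hab, hr, e2⟩
    · have h3 : rp x.nd y = a := by rw [e1]; exact (wupd2_rp_ep hU hab).1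
      refine Or.inl (Or.inr ⟨b, ?_⟩)
      rw [h3]
      exact ⟨hab, hr, e1⟩
  · have hb1 := ustep_ball hU hb
    rw [wupd2_rp_new hU] at hb1
    rcases wupd2_cases hU hy with h | ⟨a, b, hab, e1, e2, hr⟩
    · rcases wupd2_cases hU hy' with h' | ⟨a', b', hab', e1', e2', hr'⟩
      · exact hU.ri.sep y w y' w' h h' (ball_mono h1 hb1)
      · exfalso
        obtain ⟨m, hm, hm'⟩ := wupd2_mark hU hab' hr'
        have h3 : rp x.nd y' = a' := by rw [e1']; exact (wupd2_rp_ep hU hab').1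
        rw [h3] at hb1
        have h4 := ball_trans hm' (ball_symm hq hb1)
        exact (hU.sp.sep m hm _ (ball_mono (by omega) h4)).1 (wupd2_tn hU h)
    · have h3 : rp x.nd y = a := by rw [e1]; exact (wupd2_rp_ep hU hab).1
      rw [h3] at hb1
      rcases wupd2_cases hU hy' with h' | ⟨a', b', hab', e1', e2', hr'⟩
      · exfalso
        obtain ⟨m, hm, hm'⟩ := wupd2_mark hU hab hr
        have h4 := ball_trans hm' hb1
        exact (hU.sp.sep m hm _ (ball_mono (by omega) h4)).1 (wupd2_tn hU h')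
      · have h3' : rp x.nd y' = a' := by rw [e1']; exact (wupd2_rp_ep hU hab').1
        rw [h3'] at hb1
        have key : ∀ m m', s.mk' m → s.mk' m' → a ∈ ball (QN N x.c x.nd) m 1 →
            m' ∈ ball (QN N x.c x.nd) a' 1 → m' = m := fun m m' hm hm' h5 h6 =>
          (hU.sp.sep m hm m' (ball_mono (by omega) (ball_trans (ball_trans h5 hb1) h6))).2 hm'
        rcases hr with hr | hr <;> rcases hr' with hr' | hr'
        · have h5 := key a a' hr.1 hr'.1 self_mem_ball self_mem_ball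
          subst h5
          have h6 : b' = b := hr'.2.2.trans hr.2.2.symm
          exact Or.inl (by rw [e1', e1, h6])
        · have h5 := key a b' hr.1 hr'.1 self_mem_ball (mem_ball_one hab')
          subst h5
          have h6 : a' = b := hr'.2.2.trans hr.2.2.symm
          exact Or.inr (by rw [e1', e2, h6])
        · have h5 := key b a' hr.1 hr'.1 (mem_ball_one (hq _ _ hab)) self_mem_ball
          subst h5
          have h6 : b' = a := hr'.2.2.trans hr.2.2.symm
          exact Or.inr (by rw [e1', e2, h6])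
        · have h5 := key b b' hr.1 hr'.1 (mem_ball_one (hq _ _ hab)) (mem_ball_one hab')
          subst h5
          have h6 : a' = a := hr'.2.2.trans hr.2.2.symm
          exact Or.inl (by rw [e1', e1, h6])

theorem wupd2_q1 (hU : UC k d σ Λ ρ S N x s) (hb : b ∈ QN N x.c x.nd a) :
    b ∈ ball N a (2 * Λ + 1) := by
  have h := qball (N := N) (c := x.c) (a := a) (r := 1) hU.ri.part hU.ri.diam (mem_ball_one hb)
  rwa [Nat.one_mul] at h

theorem wupd2_en {r : ℕ} (h : RA N N' x x' v r) (hu : u ∈ ball N v r) :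
    En N x.c u = En N' x'.c u := by
  unfold En
  rw [(h u hu).1, (row_eq.1 (h u hu).2).1]

theorem wupd2_pe_comm : pe N x a b = pe N x b a := by
  unfold pe
  rw [min_comm, max_comm]

theorem ep_congr (hU : UC k d σ Λ ρ S N x s) (hb : b ∈ QN N x.c x.nd a)
    (h : RA N N' x x' a (3 * Λ + 1)) :
    ep N x a b = ep N' x' a b ∧ ep N x b a = ep N' x' b a := by
  have h1 := wupd2_q1 hU hb
  have h2 : ∀ z, z = a ∨ z = b → z ∈ ball N a (2 * Λ + 1) := by
    rintro z (rfl | rfl)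
    · exact self_mem_ball
    · exact h1
  have h3 : min a b ∈ ball N a (2 * Λ + 1) := h2 _ (by omega)
  have h4 : max a b ∈ ball N a (2 * Λ + 1) := h2 _ (by omega)
  have e : pe N x a b = pe N' x' a b := by
    unfold pe
    congr 1
    funext p
    rw [← (row_eq.1 (h _ (ball_mono (by omega) h3)).2).2.1,
      ← (row_eq.1 (h _ (ball_mono (by omega) h4)).2).2.1]
    refine propext (and_congr_right fun hp => ?_)
    rw [wupd2_en h (ball_mono (by omega) (ball_trans h3 (hU.ri.diam _ hp)))]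
  have e' : pe N x b a = pe N' x' b a := by
    rw [wupd2_pe_comm, e, wupd2_pe_comm]
  unfold ep
  rw [e, e']
  exact ⟨rfl, rfl⟩

theorem wupd2_rs (hU : UC k d σ Λ ρ S N x s) (h : RA N N' x x' a (Λ + 1))
    (hs : s.row a = s'.row a) : Rs N x s a b ↔ Rs N' x' s' a b := by
  have h1 : s.μ a = s'.μ a := congrArg Prod.fst hs
  have h2 : s.mk' a = s'.mk' a := congrArg (fun p : ℕ × Prop × Prop => p.2.1) hs
  unfold Rs
  rw [h1, h2, QN_congr hU.ri h]

theorem c1_congr (hU : UC k d σ Λ ρ S N x s) (h : RA N N' x x' u (4 * Λ + 2))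
    (hs : ∀ y ∈ ball N u (4 * Λ + 2), s.row y = s'.row y) :
    c1 k d N x s u = c1 k d N' x' s' u ∧ (hv1 N x s u ↔ hv1 N' x' s' u) := by
  have hp := hU.ri.part
  obtain ⟨hc, hn, hh⟩ := row_eq.1 (h u self_mem_ball).2
  have hru : rp x'.nd u = rp x.nd u := (rp_congr hn).symm
  have ha : rp x.nd u ∈ ball N u Λ := hU.ri.diam u (wupd2_rp_mem hp u)
  have hen : En N' x'.c u = En N x.c u := (wupd2_en h self_mem_ball).symm
  have hA : RA N N' x x' (rp x.nd u) (3 * Λ + 1) := h.mono ha (by omega)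
  have hA1 : RA N N' x x' (rp x.nd u) (Λ + 1) := h.mono ha (by omega)
  have hsa : s.row (rp x.nd u) = s'.row (rp x.nd u) := hs _ (ball_mono (by omega) ha)
  constructor
  · funext v
    unfold c1
    rw [hen, hru, ← hc]
    by_cases h1 : v ∈ En N x.c u
    · have hv : v ∈ ball N u 1 := mem_ball_one (mem_En.1 h1).1
      have hrv : rp x'.nd v = rp x.nd v :=
        (rp_congr (row_eq.1 (h v (ball_mono (by omega) hv)).2).2.1).symm
      rw [hrv]
      by_cases h2 : rp x.nd u = rp x.nd v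
      · rw [if_neg (fun h3 => h3.2.1 h2), if_neg (fun h3 => h3.2.1 h2)]
      · have hb : rp x.nd v ∈ QN N x.c x.nd (rp x.nd u) :=
          mem_QN.2 ⟨wupd2_rp_rp hp u, fun e => h2 e.symm, u,
            by rw [wupd2_nd_rp hp]; exact (hp u).1, v, h1, rfl⟩
        obtain ⟨e1, e2⟩ := ep_congr hU hb hA
        have hb' : rp x.nd v ∈ ball N u (1 + Λ) :=
          ball_trans hv (hU.ri.diam v (wupd2_rp_mem hp v))
        have e3 : s.μ (rp x.nd u) = s'.μ (rp x.nd u) := congrArg Prod.fst hsa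
        have e4 : Rs N x s (rp x.nd u) (rp x.nd v) ↔ Rs N' x' s' (rp x.nd u) (rp x.nd v) :=
          wupd2_rs hU hA1 hsa
        have e5 : Rs N x s (rp x.nd v) (rp x.nd u) ↔ Rs N' x' s' (rp x.nd v) (rp x.nd u) :=
          wupd2_rs hU (h.mono hb' (by omega)) (hs _ (ball_mono (by omega) hb'))
        simp only [← e1, ← e2, ← e3, ← e4, ← e5]
    · rw [if_neg (fun h3 => h1 h3.1), if_neg (fun h3 => h1 h3.1)]
  · unfold hv1
    rw [hru, ← QN_congr hU.ri hA1, hh]
    refine or_congr Iff.rfl (exists_congr fun a => and_congr_right fun hb => ?_)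
    have hb' : a ∈ ball N u (Λ + (2 * Λ + 1)) := ball_trans ha (wupd2_q1 hU hb)
    rw [(ep_congr hU hb hA).1,
      wupd2_rs hU (h.mono hb' (by omega)) (hs _ (ball_mono (by omega) hb'))]

/-- `resP_congr`. -/
theorem ustep_local (hU : UC k d σ Λ ρ S N x s) (h : RA N N' x x' v (5 * Λ + 2))
    (hs : ∀ y ∈ ball N v (5 * Λ + 2), s.row y = s'.row y) :
    (ustep k d N x s).row v = (ustep k d N' x' s').row v := by
  have hn : x.nd v = x'.nd v := (row_eq.1 (h v self_mem_ball).2).2.1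
  have key : ∀ u ∈ x.nd v, N u = N' u ∧ c1 k d N x s u = c1 k d N' x' s' u ∧
      (hv1 N x s u ↔ hv1 N' x' s' u) := by
    intro u hu
    have hu' := hU.ri.diam v hu
    exact ⟨(h u (ball_mono (by omega) hu')).1, c1_congr hU (h.mono hu' (by omega))
      fun y hy => hs y (ball_mono (by omega) (ball_trans hu' hy))⟩
  have e : ch k d N x s (x.nd v) = ch k d N' x' s' (x'.nd v) := by
    unfold ch
    rw [← hn, resP_congr key]
  refine row_eq.2 ⟨?_, ?_, (key v (hU.ri.part v).1).2.2⟩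
  · show (ch k d N x s (x.nd v)).1 v = (ch k d N' x' s' (x'.nd v)).1 v
    rw [e]
  · show (ch k d N x s (x.nd v)).2 v = (ch k d N' x' s' (x'.nd v)).2 v
    rw [e]

end Pool.Agent.Lib.MP_459a07_lc.V
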